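import Pool.Agent.TriSurf.GQ

/-!
# Triangle presentations whose link is the generalized quadrangle of order (2, 2)
-/

set_option autoImplicit false

namespace Pool.Agent.TriSurf

/-- an identification of the link with the incidence graph of the quadrangle -/
structure Code (Λ : Loc) where
  g : Λ.L → ℕ
  lt : ∀ a, g a < 30
  inj : Function.Injective g
  surj : ∀ n, n < 30 → ∃ a, g a = n
  adj_iff : ∀ a b, Λ.adj a b ↔ adjN (g a) (g b) = true

namespace Code

variable {Λ : Loc} (K : Code Λ)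

include K in
theorem six : Λ.Six := by
  intro a b c d e f hab hbc hcd hde hef hfa
  rw [K.adj_iff] at hab hbc hcd hde hef hfa
  rcases gq_six _ (K.lt a) _ (K.lt b) hab _ (K.lt c) hbc _ (K.lt d) hcd _ (K.lt e) hde _ (K.lt f)
    hef hfa with h | h | h | h | h | h
  · exact Or.inl (K.inj h)
  · exact Or.inr (Or.inl (K.inj h))
  · exact Or.inr (Or.inr (Or.inl (K.inj h)))
  · exact Or.inr (Or.inr (Or.inr (Or.inl (K.inj h))))
  · exact Or.inr (Or.inr (Or.inr (Or.inr (Or.inl (K.inj h)))))
  · exact Or.inr (Or.inr (Or.inr (Or.inr (Or.inr (K.inj h)))))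

include K in
theorem two : Λ.Two := by
  intro e f h
  rw [K.adj_iff] at h
  obtain ⟨n, hn, h1, h2⟩ := gq_two _ (K.lt e) _ (K.lt f) h
  obtain ⟨g, rfl⟩ := K.surj n hn
  exact ⟨g, (K.adj_iff _ _).2 h1, fun h3 => h2 (congrArg _ h3)⟩

theorem miss_iff {F : Λ.L → Prop} {Fl : List ℕ} (h : ∀ f, F f ↔ K.g f ∈ Fl)
    (h' : ∀ n ∈ Fl, ∃ f, K.g f = n) (c : Λ.L) : Λ.miss F c ↔ missN Fl (K.g c) = true := by
  rw [missN, Bool.and_eq_true, List.all_eq_true]
  constructor
  · rintro ⟨h1, h2⟩
    constructor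
    · cases hb : nmem (K.g c) Fl with
      | false => rfl
      | true => exact absurd ((h c).2 (nmem_iff.1 hb)) h1
    · intro n hn
      obtain ⟨f, rfl⟩ := h' n hn
      cases hb : adjN (K.g f) (K.g c) with
      | false => rfl
      | true => exact absurd ((K.adj_iff _ _).2 hb) (h2 f ((h f).2 hn))
  · rintro ⟨h1, h2⟩
    constructor
    · intro hc
      rw [nmem_iff.2 ((h c).1 hc)] at h1
      cases h1
    · intro f hf ha
      have := h2 _ ((h f).1 hf)
      rw [(K.adj_iff _ _).1 ha] at this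
      cases this

theorem path_of_tree {F : Λ.L → Prop} {Fl : List ℕ}
    (hm : ∀ c, Λ.miss F c ↔ missN Fl (K.g c) = true) (O : List ℕ) : (∀ o ∈ O, o < 30 ∧ missN Fl o = true) →
    treeOK O = true → ∀ c d, K.g c ∈ O → K.g d ∈ O →
      Relation.ReflTransGen (fun a b => Λ.adj a b ∧ Λ.miss F b) c d := by
  induction O with
  | nil => intro _ h; cases h
  | cons o O ih =>
    intro h1 h2 c d hc hd
    cases O with
    | nil =>
      have e1 : K.g c = o := by simpa using hc
      have e2 : K.g d = o := by simpa using hd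
      rw [K.inj (e1.trans e2.symm)]
    | cons o' O' =>
      have h2 : ((o' :: O').any (fun p => adjN o p) && treeOK (o' :: O')) = true := h2
      rw [Bool.and_eq_true, List.any_eq_true] at h2
      obtain ⟨⟨p, hp, hop⟩, h3⟩ := h2
      have ih' := ih (fun q hq => h1 q (List.mem_cons_of_mem _ hq)) h3
      obtain ⟨e, rfl⟩ := K.surj p (h1 p (List.mem_cons_of_mem _ hp)).1
      have hem : Λ.miss F e := (hm e).2 (h1 _ (List.mem_cons_of_mem _ hp)).2
      rcases List.mem_cons.1 hc with h4 | h4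
      · rcases List.mem_cons.1 hd with h5 | h5
        · rw [K.inj (h4.trans h5.symm)]
        · refine Relation.ReflTransGen.head ⟨?_, hem⟩ (ih' e d hp h5)
          rw [K.adj_iff, h4]; exact hop
      · rcases List.mem_cons.1 hd with h5 | h5
        · refine Relation.ReflTransGen.tail (ih' c e h4 hp) ⟨?_, ?_⟩
          · apply Loc.adj_symm
            rw [K.adj_iff, h5]; exact hop
          · rw [hm, h5]
            exact (h1 o List.mem_cons_self).2
        · exact ih' c d h4 h5

theorem conn_of_chk {F : Λ.L → Prop} {Fl : List ℕ} (h : ∀ f, F f ↔ K.g f ∈ Fl)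
    (h' : ∀ n ∈ Fl, ∃ f, K.g f = n) (hc : chkC Fl = true) :
    (∃ c, Λ.miss F c) ∧ ∀ c d, Λ.miss F c → Λ.miss F d →
      Relation.ReflTransGen (fun a b => Λ.adj a b ∧ Λ.miss F b) c d := by
  have hm := K.miss_iff h h'
  rw [chkC, chkO, Bool.and_eq_true, Bool.and_eq_true, List.all_eq_true] at hc
  generalize bfsN Fl 30 [fstN Fl 30] [fstN Fl 30] = O at hc
  obtain ⟨⟨h1, h2⟩, h3⟩ := hc
  have h1' : ∀ o ∈ O, o < 30 ∧ missN Fl o = true := by
    intro o ho
    have := h1 o ho
    rw [Bool.and_eq_true] at this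
    exact ⟨Nat.blt_eq.mp this.1, this.2⟩
  constructor
  · cases O with
    | nil => cases h3
    | cons o O =>
      obtain ⟨c, rfl⟩ := K.surj o (h1' o List.mem_cons_self).1
      exact ⟨c, (hm c).2 (h1' _ List.mem_cons_self).2⟩
  · intro c d hc hd
    have key : ∀ c, Λ.miss F c → K.g c ∈ O := by
      intro c hc
      have := allN_spec h2 _ (K.lt c)
      rw [(hm c).1 hc] at this
      exact nmem_iff.1 (by simpa using this)
    exact K.path_of_tree hm O h1' h3 c d (key c hc) (key d hd)

include K in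
theorem conn : Λ.Conn := by
  intro F hF
  by_cases h0 : ∃ f, F f
  · obtain ⟨f, hf⟩ := h0
    by_cases h1 : ∃ f', F f' ∧ f' ≠ f
    · obtain ⟨f', hf', hne⟩ := h1
      have hff : Λ.adj f f' := by
        rcases hF f f' hf hf' with h | h
        · exact absurd h.symm hne
        · exact h
      refine K.conn_of_chk (Fl := [K.g f, K.g f']) ?_ ?_
        (gq_conn2 _ (K.lt f) _ (K.lt f') ((K.adj_iff _ _).1 hff))
      · intro c
        simp only [List.mem_cons, List.not_mem_nil, or_false]
        constructor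
        · intro hc
          by_contra hcon
          rw [not_or] at hcon
          rcases hF f c hf hc with h | h
          · exact hcon.1 (congrArg _ h.symm)
          rcases hF f' c hf' hc with h' | h'
          · exact hcon.2 (congrArg _ h'.symm)
          have c1 := Loc.adj_col h
          have c2 := Loc.adj_col h'
          have c3 := Loc.adj_col hff
          simp_all
        · rintro (h | h)
          · rw [K.inj h]; exact hf
          · rw [K.inj h]; exact hf'
      · intro n hn
        simp only [List.mem_cons, List.not_mem_nil, or_false] at hn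
        rcases hn with h | h
        · exact ⟨f, h.symm⟩
        · exact ⟨f', h.symm⟩
    · refine K.conn_of_chk (Fl := [K.g f]) ?_ ?_ (gq_conn1 _ (K.lt f))
      · intro c
        simp only [List.mem_cons, List.not_mem_nil, or_false]
        constructor
        · intro hc
          by_contra hcon
          exact h1 ⟨c, hc, fun h => hcon (congrArg _ h)⟩
        · intro h
          rw [K.inj h]; exact hf
      · intro n hn
        simp only [List.mem_cons, List.not_mem_nil, or_false] at hn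
        exact ⟨f, hn.symm⟩
  · refine K.conn_of_chk (Fl := []) ?_ ?_ gq_conn0
    · intro c
      constructor
      · intro hc; exact absurd ⟨c, hc⟩ h0
      · intro h; cases h
    · intro n hn; cases hn

end Code

/-! ### The check for a presentation -/

/-- the link of `l` is the quadrangle: `x` is the line `lam[x]` -/
def chkGQ (l : List (ℕ × ℕ × ℕ)) (lam : List ℕ) : Bool :=
  chkFun (rot l) &&
  (rot l).all (fun t => adjN (lam.getD t.1 0) (15 + t.2.1)) &&
  allN 15 (fun x => allN 15 fun y => !adjN (lam.getD x 0) (15 + y) ||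
    (rot l).any fun t => Nat.beq t.1 x && Nat.beq t.2.1 y) &&
  allN 15 (fun x => Nat.blt (lam.getD x 0) 15) &&
  allN 15 (fun x => allN 15 fun y => Nat.beq x y || !Nat.beq (lam.getD x 0) (lam.getD y 0))

theorem mem_rot_nat3 {k : ℕ} {T : List (Fin k × Fin k × Fin k)} {x y z : Fin k} :
    (x.1, y.1, z.1) ∈ rot (nat3 k T) ↔ Rel3 T x y z := by
  have key : ∀ {x y z : Fin k}, (x.1, y.1, z.1) ∈ nat3 k T ↔ (x, y, z) ∈ T := by
    intro x y z
    rw [nat3, List.mem_map]
    constructor
    · rintro ⟨⟨a, b, c⟩, h1, h2⟩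
      simp only [Prod.mk.injEq] at h2
      obtain ⟨h3, h4, h5⟩ := h2
      rw [← Fin.ext h3, ← Fin.ext h4, ← Fin.ext h5]
      exact h1
    · intro h
      exact ⟨_, h, rfl⟩
  simp only [rot, List.mem_append, List.mem_map, Rel3]
  constructor
  · rintro ((h | ⟨⟨a, b, c⟩, h, h'⟩) | ⟨⟨a, b, c⟩, h, h'⟩)
    · exact Or.inl (key.1 h)
    · simp only [Prod.mk.injEq] at h'
      obtain ⟨rfl, rfl, rfl⟩ := h'
      exact Or.inr (Or.inr (key.1 h))
    · simp only [Prod.mk.injEq] at h'
      obtain ⟨rfl, rfl, rfl⟩ := h'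
      exact Or.inr (Or.inl (key.1 h))
  · rintro (h | h | h)
    · exact Or.inl (Or.inl (key.2 h))
    · exact Or.inr ⟨_, key.2 h, rfl⟩
    · exact Or.inl (Or.inr ⟨_, key.2 h, rfl⟩)

theorem mem_rot_lt {k : ℕ} {T : List (Fin k × Fin k × Fin k)} {t : ℕ × ℕ × ℕ}
    (h : t ∈ rot (nat3 k T)) : ∃ x y z : Fin k, t = (x.1, y.1, z.1) := by
  simp only [rot, List.mem_append, List.mem_map, nat3] at h
  rcases h with (⟨u, _, rfl⟩ | ⟨_, ⟨u, _, rfl⟩, rfl⟩) | ⟨_, ⟨u, _, rfl⟩, rfl⟩
  · exact ⟨_, _, _, rfl⟩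
  · exact ⟨_, _, _, rfl⟩
  · exact ⟨_, _, _, rfl⟩

section

variable {T : List (Fin 15 × Fin 15 × Fin 15)} {lam : List ℕ} (h : chkGQ (nat3 15 T) lam = true)

include h

theorem chkGQ_Fun : Fun3 T := by
  simp only [chkGQ, Bool.and_eq_true] at h
  intro x y z z' h1 h2
  exact Fin.ext (chkFun_spec h.1.1.1.1 (mem_rot_nat3.2 h1) (mem_rot_nat3.2 h2))

theorem chkGQ_Lk (x y : Fin 15) : Lk T x y ↔ adjN (lam.getD x.1 0) (15 + y.1) = true := by
  simp only [chkGQ, Bool.and_eq_true, List.all_eq_true] at h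
  constructor
  · rintro ⟨z, hz⟩
    exact h.1.1.1.2 _ (mem_rot_nat3.2 hz)
  · intro hxy
    have h1 := allN_spec (allN_spec h.1.1.2 x.1 x.2) y.1 y.2
    rw [hxy] at h1
    simp only [Bool.not_true, Bool.false_or, List.any_eq_true, Bool.and_eq_true] at h1
    obtain ⟨t, ht, h2, h3⟩ := h1
    have e1 := Nat.eq_of_beq_eq_true h2
    have e2 := Nat.eq_of_beq_eq_true h3
    obtain ⟨a, b, c, rfl⟩ := mem_rot_lt ht
    rw [mem_rot_nat3] at ht
    dsimp only at e1 e2
    rw [← Fin.ext e1, ← Fin.ext e2]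
    exact ⟨c, ht⟩

theorem chkGQ_lt (x : Fin 15) : lam.getD x.1 0 < 15 := by
  simp only [chkGQ, Bool.and_eq_true] at h
  exact Nat.blt_eq.mp (allN_spec h.1.2 x.1 x.2)

theorem chkGQ_inj {x y : Fin 15} (hxy : lam.getD x.1 0 = lam.getD y.1 0) : x = y := by
  simp only [chkGQ, Bool.and_eq_true] at h
  have := allN_spec (allN_spec h.2 x.1 x.2) y.1 y.2
  rw [hxy, Nat.beq_refl] at this
  simp only [Bool.not_true, Bool.or_false] at this
  exact Fin.ext (Nat.eq_of_beq_eq_true this)

theorem chkGQ_four : NoFour T := by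
  intro x x' y y' h1 h2 h3 h4
  rw [chkGQ_Lk h] at h1 h2 h3 h4
  have l1 := chkGQ_lt h x
  have l2 := chkGQ_lt h x'
  have l3 := y.2
  have l4 := y'.2
  rcases gq_four _ (by omega) _ (by omega) h1 _ (by omega) h3 _ (by omega) h2 h4 with h5 | h5
  · exact Or.inl (chkGQ_inj h h5)
  · exact Or.inr (Fin.ext (by omega))

theorem chkGQ_six : NoSix T := by
  intro x x' x'' y y' y'' h1 h2 h3 h4 h5 h6
  rw [chkGQ_Lk h] at h1 h2 h3 h4 h5 h6
  have l1 := chkGQ_lt h x
  have l2 := chkGQ_lt h x'
  have l3 := chkGQ_lt h x''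
  have l4 := y.2
  have l5 := y'.2
  have l6 := y''.2
  have s2 := adjN_symm _ (by omega) _ (by omega) h2
  have s4 := adjN_symm _ (by omega) _ (by omega) h4
  have s6 := adjN_symm _ (by omega) _ (by omega) h6
  rcases gq_six _ (by omega) _ (by omega) h1 _ (by omega) s2 _ (by omega) h3 _ (by omega) s4 _
    (by omega) h5 s6 with h | h7 | h | h7 | h | h7
  · exact Or.inl (chkGQ_inj ‹_› h)
  · exact Or.inr (Or.inr (Or.inr (Or.inl (Fin.ext (by omega)))))
  · exact Or.inr (Or.inl (chkGQ_inj ‹_› h))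
  · exact Or.inr (Or.inr (Or.inr (Or.inr (Or.inl (Fin.ext (by omega))))))
  · exact Or.inr (Or.inr (Or.inl (chkGQ_inj ‹_› h)))
  · exact Or.inr (Or.inr (Or.inr (Or.inr (Or.inr (Fin.ext (by omega))))))

/-- the identification for a checked presentation -/
def codeT : Code (locF T (chkGQ_Fun h) (chkGQ_four h)) where
  g := fun a : Fin 15 × Bool => if a.2 then 15 + a.1.1 else lam.getD a.1.1 0
  lt := by
    rintro ⟨x, b⟩
    have := chkGQ_lt h x
    have := x.2
    cases b
    · show lam.getD x.1 0 < 30; omega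
    · show 15 + x.1 < 30; omega
  inj := by
    rintro ⟨x, b⟩ ⟨x', b'⟩ hxx
    have l1 := chkGQ_lt h x
    have l2 := chkGQ_lt h x'
    cases b <;> cases b'
    · have hxx : lam.getD x.1 0 = lam.getD x'.1 0 := hxx
      rw [chkGQ_inj h hxx]
    · have hxx : lam.getD x.1 0 = 15 + x'.1 := hxx
      omega
    · have hxx : 15 + x.1 = lam.getD x'.1 0 := hxx
      omega
    · have hxx : 15 + x.1 = 15 + x'.1 := hxx
      have : x = x' := Fin.ext (by omega)
      rw [this]
  surj := by
    intro n hn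
    by_cases hn' : n < 15
    · have hinj : Function.Injective (fun x : Fin 15 => (⟨lam.getD x.1 0, chkGQ_lt h x⟩ : Fin 15)) := by
        intro x y hxy
        exact chkGQ_inj h (congrArg Fin.val hxy)
      obtain ⟨x, hx⟩ := (Finite.injective_iff_surjective.1 hinj) ⟨n, hn'⟩
      exact ⟨((x, false) : Fin 15 × Bool), congrArg Fin.val hx⟩
    · refine ⟨((⟨n - 15, by omega⟩, true) : Fin 15 × Bool), ?_⟩
      show 15 + (n - 15) = n
      omega
  adj_iff := by
    rintro ⟨x, b⟩ ⟨x', b'⟩
    have l1 := chkGQ_lt h x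
    have l2 := chkGQ_lt h x'
    have l3 := x.2
    have l4 := x'.2
    refine Iff.trans (locF_adj T) ?_
    cases b <;> cases b'
    · show _ ↔ adjN (lam.getD x.1 0) (lam.getD x'.1 0) = true
      constructor
      · rintro (⟨_, h2, _⟩ | ⟨h2, _⟩) <;> cases h2
      · intro h2
        rcases adjN_kind _ (by omega) _ (by omega) h2 with ⟨h3, h4⟩ | ⟨h3, h4⟩ <;> omega
    · show _ ↔ adjN (lam.getD x.1 0) (15 + x'.1) = true
      rw [← chkGQ_Lk h]
      constructor
      · rintro (⟨_, _, h2⟩ | ⟨h2, _⟩)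
        · exact h2
        · cases h2
      · intro h2
        exact Or.inl ⟨rfl, rfl, h2⟩
    · show _ ↔ adjN (15 + x.1) (lam.getD x'.1 0) = true
      have : adjN (15 + x.1) (lam.getD x'.1 0) = true ↔ adjN (lam.getD x'.1 0) (15 + x.1) = true :=
        ⟨adjN_symm _ (by omega) _ (by omega), adjN_symm _ (by omega) _ (by omega)⟩
      rw [this, ← chkGQ_Lk h]
      constructor
      · rintro (⟨h2, _⟩ | ⟨_, _, h2⟩)
        · cases h2
        · exact h2
      · intro h2
        exact Or.inr ⟨rfl, rfl, h2⟩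
    · show _ ↔ adjN (15 + x.1) (15 + x'.1) = true
      constructor
      · rintro (⟨h2, _⟩ | ⟨_, h2, _⟩) <;> cases h2
      · intro h2
        rcases adjN_kind _ (by omega) _ (by omega) h2 with ⟨h3, h4⟩ | ⟨h3, h4⟩ <;> omega

/-- the group of a checked presentation is hyperbolic and has one end -/
theorem hyp_end :
    (∀ x y z w : TriGroup 15 T,
      ((Cay 15 T).dist x w : ℤ) + ((Cay 15 T).dist z w : ℤ) - ((Cay 15 T).dist x z : ℤ)
        ≥ min (((Cay 15 T).dist x w : ℤ) + ((Cay 15 T).dist y w : ℤ) - ((Cay 15 T).dist x y : ℤ))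
              (((Cay 15 T).dist y w : ℤ) + ((Cay 15 T).dist z w : ℤ) - ((Cay 15 T).dist y z : ℤ))
          - 2 * ((4 : ℕ) : ℤ)) ∧
    Nat.card (Cay 15 T).end = 1 :=
  ⟨Cay_hyp (chkGQ_Fun h) (chkGQ_four h) (chkGQ_six h),
    Cay_end (chkGQ_Fun h) (chkGQ_four h) (chkGQ_six h) (codeT h).conn (codeT h).two⟩

/-- the group of a checked presentation is a one-ended hyperbolic group -/
theorem oneEndedHyperbolic : OneEndedHyperbolic (TriGroup 15 T) := by
  classical
  refine ⟨Finset.univ.image PresentedGroup.of, ?_, ?_⟩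
  · rw [Finset.coe_image, Finset.coe_univ, Set.image_univ]
    exact PresentedGroup.closure_range_of _
  · have hG : (SimpleGraph.fromRel (fun a b : TriGroup 15 T =>
        a⁻¹ * b ∈ Finset.univ.image (PresentedGroup.of (rels := triRel 15 T)))) = Cay 15 T := by
      rw [Cay]
      congr 1
      funext a b
      simp only [Finset.mem_image, Finset.mem_univ, true_and]
      apply propext
      constructor
      · rintro ⟨x, hx⟩; exact ⟨x, hx.symm⟩
      · rintro ⟨x, hx⟩; exact ⟨x, hx.symm⟩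
    rw [hG]
    exact ⟨⟨4, (hyp_end h).1⟩, (hyp_end h).2⟩

end

end Pool.Agent.TriSurf
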