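import Pool.Agent.TriSurf.CovConn
import Pool.Agent.TriSurf.Link

/-!
# Branched covers of triangle presentations
-/

set_option autoImplicit false

namespace Pool.Agent.TriSurf

/-- `T'` is a branched cover of `T` (branched over the vertex only): the letters of `T'` lie over letters
of `T`, the relators of `T'` lie over relators of `T`, and over a relator of `T` there is exactly one relator
of `T'` starting with a given letter over its first letter. -/
structure BCov {k' k : ℕ} (T' : List (Fin k' × Fin k' × Fin k')) (T : List (Fin k × Fin k × Fin k))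
    (π : Fin k' → Fin k) : Prop where
  map : ∀ x y z, Rel3 T' x y z → Rel3 T (π x) (π y) (π z)
  lift : ∀ x y z, Rel3 T (π x) y z → ∃! p : Fin k' × Fin k', Rel3 T' x p.1 p.2 ∧ π p.1 = y ∧ π p.2 = z

/-- the link of a triangle presentation is connected -/
def LinkConn {k : ℕ} (T : List (Fin k × Fin k × Fin k)) : Prop :=
  ∀ a b : Fin k × Bool, Relation.ReflTransGen (fun a b : Fin k × Bool =>
    (a.2 = false ∧ b.2 = true ∧ Lk T a.1 b.1) ∨ (a.2 = true ∧ b.2 = false ∧ Lk T b.1 a.1)) a b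

section

variable {k' k : ℕ} {T' : List (Fin k' × Fin k' × Fin k')} {T : List (Fin k × Fin k × Fin k)}
  {π : Fin k' → Fin k} (B : BCov T' T π)

include B

theorem BCov.uniq {x y z y' z' : Fin k'} (h : Rel3 T' x y z) (h' : Rel3 T' x y' z')
    (hy : π y = π y') (hz : π z = π z') : y = y' ∧ z = z' := by
  obtain ⟨p, _, hp⟩ := B.lift x (π y) (π z) (B.map _ _ _ h)
  have e1 := hp (y, z) ⟨h, rfl, rfl⟩
  have e2 := hp (y', z') ⟨h', hy.symm, hz.symm⟩
  rw [← e2, Prod.mk.injEq] at e1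
  exact e1

theorem BCov.fun3 (h1 : Fun3 T) : Fun3 T' := by
  intro x y z z' h h'
  exact (B.uniq h h' rfl (h1 _ _ _ _ (B.map _ _ _ h) (B.map _ _ _ h'))).2

theorem BCov.lk {x y : Fin k'} (h : Lk T' x y) : Lk T (π x) (π y) := by
  obtain ⟨z, hz⟩ := h
  exact ⟨_, B.map _ _ _ hz⟩

theorem BCov.lk_uniq (h1 : Fun3 T) {x y y' : Fin k'} (h : Lk T' x y) (h' : Lk T' x y')
    (hy : π y = π y') : y = y' := by
  obtain ⟨z, hz⟩ := h
  obtain ⟨z', hz'⟩ := h'
  have e1 := B.map _ _ _ hz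
  have e2 := B.map _ _ _ hz'
  rw [← hy] at e2
  exact (B.uniq hz hz' hy (h1 _ _ _ _ e1 e2)).1

theorem BCov.lk_uniq' (h1 : Fun3 T) {x x' y : Fin k'} (h : Lk T' x y) (h' : Lk T' x' y)
    (hx : π x = π x') : x = x' := by
  obtain ⟨z, hz⟩ := h
  obtain ⟨z', hz'⟩ := h'
  have e1 := B.map _ _ _ hz
  have e2 := B.map _ _ _ hz'
  rw [← hx] at e2
  have e3 := h1 _ _ _ _ e1 e2
  exact (B.uniq (Rel3_rot hz) (Rel3_rot hz') e3 hx).2

theorem BCov.four (h1 : Fun3 T) (h2 : NoFour T) : NoFour T' := by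
  intro x x' y y' a b c d
  rcases h2 _ _ _ _ (B.lk a) (B.lk b) (B.lk c) (B.lk d) with h | h
  · exact Or.inl (B.lk_uniq' h1 a c h)
  · exact Or.inr (B.lk_uniq h1 a b h)

theorem BCov.six (h1 : Fun3 T) (h3 : NoSix T) : NoSix T' := by
  intro x x' x'' y y' y'' a b c d e f
  rcases h3 _ _ _ _ _ _ (B.lk a) (B.lk b) (B.lk c) (B.lk d) (B.lk e) (B.lk f) with
    h | h | h | h | h | h
  · exact Or.inl (B.lk_uniq' h1 a b h)
  · exact Or.inr (Or.inl (B.lk_uniq' h1 c d h))
  · exact Or.inr (Or.inr (Or.inl (B.lk_uniq' h1 e f h)))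
  · exact Or.inr (Or.inr (Or.inr (Or.inl (B.lk_uniq h1 b c h))))
  · exact Or.inr (Or.inr (Or.inr (Or.inr (Or.inl (B.lk_uniq h1 d e h)))))
  · exact Or.inr (Or.inr (Or.inr (Or.inr (Or.inr (B.lk_uniq h1 f a h)))))

/-- the covering of local structures -/
def BCov.cov (h1 : Fun3 T) (h2 : NoFour T) :
    CovL (locF T' (B.fun3 h1) (B.four h1 h2)) (locF T h1 h2) where
  π := fun a => (π a.1, a.2)
  inv := fun _ => rfl
  map := by
    rintro a b c (⟨ha, hb, hc, h⟩ | ⟨ha, hb, hc, h⟩)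
    · exact Or.inl ⟨ha, hb, hc, B.map _ _ _ h⟩
    · exact Or.inr ⟨ha, hb, hc, B.map _ _ _ h⟩
  lift := by
    rintro a b c (⟨ha, hb, hc, h⟩ | ⟨ha, hb, hc, h⟩)
    · obtain ⟨p, ⟨h3, h4, h5⟩, _⟩ := B.lift a.1 b.1 c.1 h
      exact ⟨(p.1, true), (p.2, false), Prod.ext h4 hb.symm, Or.inl ⟨ha, rfl, rfl, h3⟩⟩
    · obtain ⟨p, ⟨h3, h4, h5⟩, _⟩ := B.lift a.1 c.1 b.1 (Rel3_rot h)
      exact ⟨(p.2, false), (p.1, true), Prod.ext h5 hb.symm,
        Or.inr ⟨ha, rfl, rfl, Rel3_rot (Rel3_rot h3)⟩⟩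
  uniq := by
    rintro a b b' c c' (⟨ha, hb, hc, h⟩ | ⟨ha, hb, hc, h⟩) (⟨ha', hb', hc', h'⟩ | ⟨ha', hb', hc', h'⟩) hbb
    · exact Prod.ext (B.lk_uniq h1 ⟨_, h⟩ ⟨_, h'⟩ (congrArg Prod.fst hbb)) (hb.trans hb'.symm)
    · simp [ha] at ha'
    · simp [ha] at ha'
    · exact Prod.ext (B.lk_uniq' h1 ⟨_, h⟩ ⟨_, h'⟩ (congrArg Prod.fst hbb)) (hb.trans hb'.symm)

end

/-- universal property of the group of a presentation, in terms of letters -/
theorem tri_univ {k : ℕ} {T : List (Fin k × Fin k × Fin k)} (h1 : Fun3 T) (h2 : NoFour T)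
    (H : Type) [Group H] (F : (locF T h1 h2).L → H) (hinv : ∀ a, F ((locF T h1 h2).inv a) = (F a)⁻¹)
    (hM : ∀ a b c, (locF T h1 h2).M a b c → F a * F c = F b) :
    ∃ Φ : TriGroup k T →* H, ∀ a : (locF T h1 h2).L, Φ (valG T a) = F a := by
  have hrel : ∀ r ∈ triRel k T, FreeGroup.lift (fun x : Fin k => F ((x, true) : Fin k × Bool)) r = 1 := by
    rintro r ⟨t, ht', rfl⟩
    simp only [map_mul, FreeGroup.lift_apply_of]
    have h3 := hM (t.1, false) (t.2.1, true) (t.2.2, false) (Or.inl ⟨rfl, rfl, rfl, Or.inl ht'⟩)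
    have e1 : F ((t.1, false) : Fin k × Bool) = (F ((t.1, true) : Fin k × Bool))⁻¹ :=
      hinv ((t.1, true) : Fin k × Bool)
    have e2 : F ((t.2.2, false) : Fin k × Bool) = (F ((t.2.2, true) : Fin k × Bool))⁻¹ :=
      hinv ((t.2.2, true) : Fin k × Bool)
    rw [← h3, e1, e2]
    group
  refine ⟨PresentedGroup.toGroup hrel, ?_⟩
  rintro ⟨x, b⟩
  have hx : PresentedGroup.toGroup hrel (PresentedGroup.of x) = F ((x, true) : Fin k × Bool) :=
    PresentedGroup.toGroup.of hrel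
  cases b
  · have e1 : F ((x, false) : Fin k × Bool) = (F ((x, true) : Fin k × Bool))⁻¹ :=
      hinv ((x, true) : Fin k × Bool)
    have e2 : valG T (x, false) = (PresentedGroup.of x)⁻¹ := by simp [valG]
    rw [e2, map_inv, hx, e1]
  · have e2 : valG T (x, true) = PresentedGroup.of x := by simp [valG]
    rw [e2, hx]

/-- branched covers of a presentation with a closed locally convex surface -/
theorem hasSurface_bcov {k' k : ℕ} {T' : List (Fin k' × Fin k' × Fin k')}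
    {T : List (Fin k × Fin k × Fin k)} {π : Fin k' → Fin k} (B : BCov T' T π) (hk : 0 < k')
    (h1 : Fun3 T) (h2 : NoFour T) (hc : (locF T h1 h2).Conn) (S : SSurf (locF T h1 h2)) (d0 : S.D) :
    HasSurfaceSubgroup (TriGroup k' T') := by
  obtain ⟨a', ha'⟩ := (B.cov h1 h2).surj hc ((⟨0, hk⟩, true) : Fin k' × Bool) (S.lab d0)
  have hfin : Finite (locF T' (B.fun3 h1) (B.four h1 h2)).L := by
    show Finite (Fin k' × Bool)
    infer_instance
  exact (S.liftS (B.cov h1 h2) hfin).hasSurface ⟨(d0, a'), ha'⟩ (valG T')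
    (valG_inv T' (B.fun3 h1) (B.four h1 h2)) (valG_M T' (B.fun3 h1) (B.four h1 h2))
    (fun H _ F hF hM => tri_univ (B.fun3 h1) (B.four h1 h2) H F hF hM)

/-- hyperbolicity and one end, from conditions on the link -/
theorem oneEnded_of {k : ℕ} {T : List (Fin k × Fin k × Fin k)} (h1 : Fun3 T) (h2 : NoFour T)
    (h3 : NoSix T) (hc : (locF T h1 h2).Conn) (h4 : (locF T h1 h2).Two) :
    OneEndedHyperbolic (TriGroup k T) := by
  classical
  refine ⟨Finset.univ.image PresentedGroup.of, ?_, ?_⟩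
  · rw [Finset.coe_image, Finset.coe_univ, Set.image_univ]
    exact PresentedGroup.closure_range_of _
  · have hG : (SimpleGraph.fromRel (fun a b : TriGroup k T =>
        a⁻¹ * b ∈ Finset.univ.image (PresentedGroup.of (rels := triRel k T)))) = Cay k T := by
      rw [Cay]
      congr 1
      funext a b
      simp only [Finset.mem_image, Finset.mem_univ, true_and]
      apply propext
      constructor
      · rintro ⟨x, hx⟩; exact ⟨x, hx.symm⟩
      · rintro ⟨x, hx⟩; exact ⟨x, hx.symm⟩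
    rw [hG]
    exact ⟨⟨4, Cay_hyp h1 h2 h3⟩, Cay_end h1 h2 h3 hc h4⟩

/-- branched covers with connected link are hyperbolic and one-ended -/
theorem oneEnded_bcov {k' k : ℕ} {T' : List (Fin k' × Fin k' × Fin k')}
    {T : List (Fin k × Fin k × Fin k)} {π : Fin k' → Fin k} (B : BCov T' T π) (hk : 0 < k')
    (hl : LinkConn T') (h1 : Fun3 T) (h2 : NoFour T) (h3 : NoSix T) (hc : (locF T h1 h2).Conn)
    (h4 : (locF T h1 h2).Two) : OneEndedHyperbolic (TriGroup k' T') := by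
  have hfin : Finite (locF T' (B.fun3 h1) (B.four h1 h2)).L := by
    show Finite (Fin k' × Bool)
    infer_instance
  refine oneEnded_of (B.fun3 h1) (B.four h1 h2) (B.six h1 h3)
    ((B.cov h1 h2).conn hfin hc ((⟨0, hk⟩, true) : Fin k' × Bool) ?_) ((B.cov h1 h2).two h4)
  intro a b
  have key : ∀ x : Fin k' × Bool, Relation.ReflTransGen (fun a b : Fin k' × Bool =>
      (a.2 = false ∧ b.2 = true ∧ Lk T' a.1 b.1) ∨ (a.2 = true ∧ b.2 = false ∧ Lk T' b.1 a.1)) a x →
      Relation.ReflTransGen (locF T' (B.fun3 h1) (B.four h1 h2)).adj a x := by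
    intro x hx
    induction hx with
    | refl => exact Relation.ReflTransGen.refl
    | tail _ h ih => exact ih.tail ((locF_adj T').2 h)
  exact key b (hl a b)

end Pool.Agent.TriSurf
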