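import Mathlib

/-!
# Groups of triangle presentations and surface groups
-/

set_option autoImplicit false

namespace Pool.Agent.TriSurf

/-- the relators `x y z`, `(x, y, z) ∈ T` -/
def triRel (k : ℕ) (T : List (Fin k × Fin k × Fin k)) : Set (FreeGroup (Fin k)) :=
  {r | ∃ t ∈ T, r = FreeGroup.of t.1 * FreeGroup.of t.2.1 * FreeGroup.of t.2.2}

/-- the group with generators `x_0, …, x_{k-1}` and relators `x y z`, `(x, y, z) ∈ T` -/
abbrev TriGroup (k : ℕ) (T : List (Fin k × Fin k × Fin k)) : Type := PresentedGroup (triRel k T)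

/-- the relator `[a_1, b_1] ⋯ [a_g, b_g]` -/
def surfRel (g : ℕ) : Set (FreeGroup (Fin g ⊕ Fin g)) :=
  {(List.ofFn (fun i : Fin g =>
      FreeGroup.of (Sum.inl i : Fin g ⊕ Fin g) * FreeGroup.of (Sum.inr i : Fin g ⊕ Fin g) *
      (FreeGroup.of (Sum.inl i : Fin g ⊕ Fin g))⁻¹ *
      (FreeGroup.of (Sum.inr i : Fin g ⊕ Fin g))⁻¹)).prod}

/-- the fundamental group of the closed orientable surface of genus `g` -/
abbrev SurfaceGroup (g : ℕ) : Type := PresentedGroup (surfRel g)

/-- Gromov hyperbolicity of a graph: the four point condition -/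
def GromovHyp {V : Type} (Γ : SimpleGraph V) : Prop :=
  ∃ δ : ℕ, ∀ x y z w : V,
    (Γ.dist x w : ℤ) + (Γ.dist z w : ℤ) - (Γ.dist x z : ℤ)
      ≥ min ((Γ.dist x w : ℤ) + (Γ.dist y w : ℤ) - (Γ.dist x y : ℤ))
            ((Γ.dist y w : ℤ) + (Γ.dist z w : ℤ) - (Γ.dist y z : ℤ))
        - 2 * (δ : ℤ)

/-- `G` has a finite generating set whose Cayley graph is Gromov hyperbolic and has exactly one end -/
def OneEndedHyperbolic (G : Type) [Group G] : Prop :=
  ∃ S : Finset G, Subgroup.closure (S : Set G) = ⊤ ∧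
    GromovHyp (SimpleGraph.fromRel (fun a b : G => a⁻¹ * b ∈ S)) ∧
    Nat.card (SimpleGraph.fromRel (fun a b : G => a⁻¹ * b ∈ S)).end = 1

/-- `G` contains the fundamental group of a closed orientable surface of genus at least two -/
def HasSurfaceSubgroup (G : Type) [Group G] : Prop :=
  ∃ g, 2 ≤ g ∧ ∃ f : SurfaceGroup g →* G, Function.Injective f

end Pool.Agent.TriSurf
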