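import Pool.Agent.TriSurf.Geo
import Pool.Agent.TriSurf.Defs

/-!
# The group of a triangle presentation acts simply transitively on the completion of a point
-/

set_option autoImplicit false

namespace Pool.Agent.TriSurf

/-- transport of a level structure -/
def LevG.comap {V W : Type} {Γ : SimpleGraph V} {Δ : SimpleGraph W} (A : LevG Δ) (e : V ≃ W)
    (h : ∀ x y, Γ.Adj x y ↔ Δ.Adj (e x) (e y)) : LevG Γ where
  lev x := A.lev (e x)
  r := e.symm A.r
  lev_r := by rw [e.apply_symm_apply]; exact A.lev_r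
  lev_zero := by
    intro x hx
    rw [← A.lev_zero _ hx, e.symm_apply_apply]
  lip := fun x y hxy => A.lip _ _ ((h _ _).1 hxy)
  par := by
    intro x hx
    obtain ⟨y, h1, h2⟩ := A.par _ hx
    refine ⟨e.symm y, ?_, ?_⟩
    · rw [h, e.apply_symm_apply]; exact h1
    · rw [e.apply_symm_apply]; exact h2
  par_adj := by
    intro x y z h1 h2 h3 h4
    rcases A.par_adj _ _ _ ((h _ _).1 h1) ((h _ _).1 h2) h3 h4 with h5 | h5
    · exact Or.inl (e.injective h5)
    · exact Or.inr ((h _ _).2 h5)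
  sib := by
    intro x y h1 h2
    obtain ⟨v, h3, h4, h5⟩ := A.sib _ _ ((h _ _).1 h1) h2
    refine ⟨e.symm v, ?_, ?_, ?_⟩
    · rw [h, e.apply_symm_apply]; exact h3
    · rw [h, e.apply_symm_apply]; exact h4
    · rw [e.apply_symm_apply]; exact h5
  thin := by
    intro x y v w z h1 h2 h3 h4 h5 h6 h7 h8 h9
    rcases A.thin _ _ _ _ _ ((h _ _).1 h1) h2 ((h _ _).1 h3) ((h _ _).1 h4) h5 ((h _ _).1 h6) h7
      ((h _ _).1 h8) h9 with h | h
    · exact Or.inl (e.injective h)
    · exact Or.inr (e.injective h)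

/-! ### The developing map -/

section Dev

variable {Λ : Loc} {G : Type} [Group G] (val : Λ.L → G) (hinv : ∀ a, val (Λ.inv a) = (val a)⁻¹)
  (hM : ∀ a b c, Λ.M a b c → val a * val c = val b)

/-- extension of a developing map -/
def devExt (P : PAct Λ) (ψ : P.V → G) (h : ∀ s a u, P.E s a u → ψ u = ψ s * val a)
    (hM : ∀ a b c, Λ.M a b c → val a * val c = val b) : P.V' → G :=
  Sum.elim ψ (Quotient.lift (fun p : P.N => ψ p.1.1 * val p.1.2) (by
    rintro p q (h' | ⟨e, c', h1, h2, h3⟩)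
    · rw [h']
    · show ψ p.1.1 * val p.1.2 = ψ q.1.1 * val q.1.2
      rw [h3, h _ _ _ h2, mul_assoc, hM _ _ _ h1]))

theorem devExt_At (P : PAct Λ) (ψ : P.V → G) (h : ∀ s a u, P.E s a u → ψ u = ψ s * val a)
    {v : P.V} {c : Λ.L} {q : P.Q} (hc : P.At v c q) :
    devExt val P ψ h hM (Sum.inr q) = ψ v * val c := by
  obtain ⟨h1, rfl⟩ := hc
  rfl

include hinv in
theorem devExt_E (P : PAct Λ) (ψ : P.V → G) (h : ∀ s a u, P.E s a u → ψ u = ψ s * val a) :
    ∀ s a u, P.E' s a u → devExt val P ψ h hM u = devExt val P ψ h hM s * val a := by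
  rintro (v | q) a (w | r) hE
  · exact h _ _ _ hE
  · exact devExt_At val hM P ψ h hE
  · rw [devExt_At val hM P ψ h hE, hinv, inv_mul_cancel_right]
    rfl
  · obtain ⟨v, c, d, h1, hc, hd⟩ := hE
    rw [devExt_At val hM P ψ h hc, devExt_At val hM P ψ h hd, mul_assoc, hM _ _ _ h1]

/-- developing maps of the iterated extensions of a point -/
def devN (hinv : ∀ a, val (Λ.inv a) = (val a)⁻¹) (hM : ∀ a b c, Λ.M a b c → val a * val c = val b) :
    (n : ℕ) → {ψ : ((PAct.pt Λ).it n).V → G // ∀ s a u, ((PAct.pt Λ).it n).E s a u → ψ u = ψ s * val a}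
  | 0 => ⟨fun _ => 1, fun _ _ _ h => h.elim⟩
  | n + 1 => ⟨devExt val _ (devN hinv hM n).1 (devN hinv hM n).2 hM,
      devExt_E val hinv hM _ (devN hinv hM n).1 (devN hinv hM n).2⟩

/-- the developing map -/
def devY : (PAct.pt Λ).Y → G
  | Sum.inl _ => 1
  | Sum.inr x => (devN val hinv hM (x.1 + 1)).1 (Sum.inr x.2)

theorem devY_io (n : ℕ) (v : ((PAct.pt Λ).it n).V) :
    devY val hinv hM ((PAct.pt Λ).io n v) = (devN val hinv hM n).1 v := by
  induction n with
  | zero => rfl
  | succ n ih =>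
    rcases (v : ((PAct.pt Λ).it n).V ⊕ ((PAct.pt Λ).it n).Q) with w | q
    · exact ih w
    · rfl

theorem devY_E {y z : (PAct.pt Λ).Y} {a : Λ.L} (h : (PAct.pt Λ).EY y a z) :
    devY val hinv hM z = devY val hinv hM y * val a := by
  obtain ⟨n, v, w, rfl, rfl, h3⟩ := h
  rw [devY_io, devY_io]
  exact (devN val hinv hM n).2 _ _ _ h3

end Dev

/-! ### Triangle presentations -/

/-- a rotation of `(x, y, z)` is in `T` -/
def Rel3 {k : ℕ} (T : List (Fin k × Fin k × Fin k)) (x y z : Fin k) : Prop :=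
  (x, y, z) ∈ T ∨ (y, z, x) ∈ T ∨ (z, x, y) ∈ T

theorem Rel3_rot {k : ℕ} {T : List (Fin k × Fin k × Fin k)} {x y z : Fin k} (h : Rel3 T x y z) :
    Rel3 T y z x := by
  rcases h with h | h | h
  · exact Or.inr (Or.inr h)
  · exact Or.inl h
  · exact Or.inr (Or.inl h)

/-- the third letter of a relator is determined by the first two -/
def Fun3 {k : ℕ} (T : List (Fin k × Fin k × Fin k)) : Prop :=
  ∀ x y z z', Rel3 T x y z → Rel3 T x y z' → z = z'

/-- adjacency in the link -/
def Lk {k : ℕ} (T : List (Fin k × Fin k × Fin k)) (x y : Fin k) : Prop := ∃ z, Rel3 T x y z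

/-- the link has no cycles of length four -/
def NoFour {k : ℕ} (T : List (Fin k × Fin k × Fin k)) : Prop :=
  ∀ x x' y y', Lk T x y → Lk T x y' → Lk T x' y → Lk T x' y' → x = x' ∨ y = y'

/-- the link has no cycles of length six -/
def NoSix {k : ℕ} (T : List (Fin k × Fin k × Fin k)) : Prop :=
  ∀ x x' x'' y y' y'', Lk T x y → Lk T x' y → Lk T x' y' → Lk T x'' y' → Lk T x'' y'' → Lk T x y'' →
    x = x' ∨ x' = x'' ∨ x'' = x ∨ y = y' ∨ y' = y'' ∨ y'' = y

section Tri

variable {k : ℕ} (T : List (Fin k × Fin k × Fin k))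

/-- the local relation -/
def MF (a b c : Fin k × Bool) : Prop :=
  (a.2 = false ∧ b.2 = true ∧ c.2 = false ∧ Rel3 T a.1 b.1 c.1) ∨
  (a.2 = true ∧ b.2 = false ∧ c.2 = true ∧ Rel3 T b.1 a.1 c.1)

/-- the local structure -/
def locF (h1 : Fun3 T) (h2 : NoFour T) : Loc where
  L := Fin k × Bool
  inv := fun a => (a.1, !a.2)
  M := MF T
  col := fun a => a.2
  inv_inv := by intro a; simp
  col_inv := by intro a; rfl
  col_M := by
    rintro a b c (⟨ha, hb, _⟩ | ⟨ha, hb, _⟩) <;> simp [ha, hb]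
  M_rot := by
    rintro a b c (⟨ha, hb, hc, h⟩ | ⟨ha, hb, hc, h⟩)
    · exact Or.inr ⟨by simp [ha], hc, hb, Rel3_rot (Rel3_rot h)⟩
    · exact Or.inl ⟨by simp [ha], hc, hb, Rel3_rot h⟩
  M_symm := by
    rintro a b c (⟨ha, hb, hc, h⟩ | ⟨ha, hb, hc, h⟩)
    · exact Or.inr ⟨hb, ha, by simp [hc], h⟩
    · exact Or.inl ⟨hb, ha, by simp [hc], h⟩
  M_fun := by
    rintro a b c c' (⟨ha, hb, hc, h⟩ | ⟨ha, hb, hc, h⟩) (⟨ha', hb', hc', h'⟩ | ⟨ha', hb', hc', h'⟩)
    · exact Prod.ext (h1 _ _ _ _ h h') (hc.trans hc'.symm)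
    · simp [ha] at ha'
    · simp [ha] at ha'
    · exact Prod.ext (h1 _ _ _ _ h h') (hc.trans hc'.symm)
  no_four := by
    rintro a b c d x y z w (⟨a1, c1, _, k1⟩ | ⟨a1, c1, _, k1⟩) (⟨a2, d1, _, k2⟩ | ⟨a2, d1, _, k2⟩)
      (⟨b1, c2, _, k3⟩ | ⟨b1, c2, _, k3⟩) (⟨b2, d2, _, k4⟩ | ⟨b2, d2, _, k4⟩) <;>
      simp_all
    · rcases h2 _ _ _ _ ⟨_, k1⟩ ⟨_, k2⟩ ⟨_, k3⟩ ⟨_, k4⟩ with h | h
      · exact Or.inl (Prod.ext h (by simp_all))
      · exact Or.inr (Prod.ext h (by simp_all))
    · rcases h2 _ _ _ _ ⟨_, k1⟩ ⟨_, k3⟩ ⟨_, k2⟩ ⟨_, k4⟩ with h | h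
      · exact Or.inr (Prod.ext h (by simp_all))
      · exact Or.inl (Prod.ext h (by simp_all))

theorem locF_adj {h1 : Fun3 T} {h2 : NoFour T} {a b : (locF T h1 h2).L} :
    (locF T h1 h2).adj a b ↔ (a.2 = false ∧ b.2 = true ∧ Lk T a.1 b.1) ∨
      (a.2 = true ∧ b.2 = false ∧ Lk T b.1 a.1) := by
  constructor
  · rintro ⟨c, ⟨ha, hb, _, h⟩ | ⟨ha, hb, _, h⟩⟩
    · exact Or.inl ⟨ha, hb, _, h⟩
    · exact Or.inr ⟨ha, hb, _, h⟩
  · rintro (⟨ha, hb, z, h⟩ | ⟨ha, hb, z, h⟩)
    · exact ⟨(z, false), Or.inl ⟨ha, hb, rfl, h⟩⟩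
    · exact ⟨(z, true), Or.inr ⟨ha, hb, rfl, h⟩⟩

theorem locF_Six (h1 : Fun3 T) (h2 : NoFour T) (h3 : NoSix T) : (locF T h1 h2).Six := by
  intro a b c d e f hab hbc hcd hde hef hfa
  rw [locF_adj] at hab hbc hcd hde hef hfa
  cases ha : a.2
  · have hb : b.2 = true := by rcases hab with h | h <;> simp_all
    have hc : c.2 = false := by rcases hbc with h | h <;> simp_all
    have hd : d.2 = true := by rcases hcd with h | h <;> simp_all
    have he : e.2 = false := by rcases hde with h | h <;> simp_all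
    have hf : f.2 = true := by rcases hef with h | h <;> simp_all
    have k1 : Lk T a.1 b.1 := by rcases hab with h | h; exact h.2.2; simp_all
    have k2 : Lk T c.1 b.1 := by rcases hbc with h | h; simp_all; exact h.2.2
    have k3 : Lk T c.1 d.1 := by rcases hcd with h | h; exact h.2.2; simp_all
    have k4 : Lk T e.1 d.1 := by rcases hde with h | h; simp_all; exact h.2.2
    have k5 : Lk T e.1 f.1 := by rcases hef with h | h; exact h.2.2; simp_all
    have k6 : Lk T a.1 f.1 := by rcases hfa with h | h; simp_all; exact h.2.2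
    rcases h3 _ _ _ _ _ _ k1 k2 k3 k4 k5 k6 with h | h | h | h | h | h
    · exact Or.inl (Prod.ext h (ha.trans hc.symm))
    · exact Or.inr (Or.inr (Or.inl (Prod.ext h (hc.trans he.symm))))
    · exact Or.inr (Or.inr (Or.inr (Or.inr (Or.inl (Prod.ext h (he.trans ha.symm))))))
    · exact Or.inr (Or.inl (Prod.ext h (hb.trans hd.symm)))
    · exact Or.inr (Or.inr (Or.inr (Or.inl (Prod.ext h (hd.trans hf.symm)))))
    · exact Or.inr (Or.inr (Or.inr (Or.inr (Or.inr (Prod.ext h (hf.trans hb.symm))))))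
  · have hb : b.2 = false := by rcases hab with h | h <;> simp_all
    have hc : c.2 = true := by rcases hbc with h | h <;> simp_all
    have hd : d.2 = false := by rcases hcd with h | h <;> simp_all
    have he : e.2 = true := by rcases hde with h | h <;> simp_all
    have hf : f.2 = false := by rcases hef with h | h <;> simp_all
    have k1 : Lk T b.1 a.1 := by rcases hab with h | h; simp_all; exact h.2.2
    have k2 : Lk T b.1 c.1 := by rcases hbc with h | h; exact h.2.2; simp_all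
    have k3 : Lk T d.1 c.1 := by rcases hcd with h | h; simp_all; exact h.2.2
    have k4 : Lk T d.1 e.1 := by rcases hde with h | h; exact h.2.2; simp_all
    have k5 : Lk T f.1 e.1 := by rcases hef with h | h; simp_all; exact h.2.2
    have k6 : Lk T f.1 a.1 := by rcases hfa with h | h; exact h.2.2; simp_all
    rcases h3 _ _ _ _ _ _ k2 k3 k4 k5 k6 k1 with h | h | h | h | h | h
    · exact Or.inr (Or.inl (Prod.ext h (hb.trans hd.symm)))
    · exact Or.inr (Or.inr (Or.inr (Or.inl (Prod.ext h (hd.trans hf.symm)))))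
    · exact Or.inr (Or.inr (Or.inr (Or.inr (Or.inr (Prod.ext h (hf.trans hb.symm))))))
    · exact Or.inr (Or.inr (Or.inl (Prod.ext h (hc.trans he.symm))))
    · exact Or.inr (Or.inr (Or.inr (Or.inr (Or.inl (Prod.ext h (he.trans ha.symm))))))
    · exact Or.inl (Prod.ext h (ha.trans hc.symm))

/-- value of a letter -/
def valG (a : Fin k × Bool) : TriGroup k T :=
  if a.2 then PresentedGroup.of a.1 else (PresentedGroup.of a.1)⁻¹

theorem valG_inv (h1 : Fun3 T) (h2 : NoFour T) (a : (locF T h1 h2).L) :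
    valG T ((locF T h1 h2).inv a) = (valG T a)⁻¹ := by
  obtain ⟨x, b⟩ := a
  cases b
  · show valG T (x, true) = (valG T (x, false))⁻¹
    simp [valG]
  · show valG T (x, false) = (valG T (x, true))⁻¹
    simp [valG]

variable {T}

theorem of_rel {x y z : Fin k} (h : Rel3 T x y z) :
    (PresentedGroup.of x * PresentedGroup.of y * PresentedGroup.of z : TriGroup k T) = 1 := by
  have key : ∀ {x y z : Fin k}, (x, y, z) ∈ T →
      (PresentedGroup.of x * PresentedGroup.of y * PresentedGroup.of z : TriGroup k T) = 1 := by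
    intro x y z h
    have : (PresentedGroup.mk (triRel k T))
        (FreeGroup.of x * FreeGroup.of y * FreeGroup.of z) = 1 :=
      PresentedGroup.one_of_mem ⟨_, h, rfl⟩
    simpa [PresentedGroup.of] using this
  have r3 : ∀ {a b c : TriGroup k T}, a * b * c = 1 → b * c * a = 1 := by
    intro a b c h
    rw [mul_assoc] at h
    exact mul_eq_one_comm.1 h
  rcases h with h | h | h
  · exact key h
  · exact r3 (r3 (key h))
  · exact r3 (key h)

variable (T)

theorem valG_M (h1 : Fun3 T) (h2 : NoFour T) (a b c : (locF T h1 h2).L)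
    (h : (locF T h1 h2).M a b c) : valG T a * valG T c = valG T b := by
  rcases h with ⟨ha, hb, hc, h⟩ | ⟨ha, hb, hc, h⟩
  · simp only [valG, ha, hb, hc, if_true]
    have := of_rel (Rel3_rot (Rel3_rot h))
    rw [if_neg (by simp), if_neg (by simp), ← mul_inv_rev]
    exact inv_eq_of_mul_eq_one_right this
  · simp only [valG, ha, hb, hc, if_true]
    have := of_rel h
    rw [if_neg (by simp)]
    rw [mul_assoc] at this
    exact (inv_eq_of_mul_eq_one_right this).symm

/-! ### The action -/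

variable {T} (h1 : Fun3 T) (h2 : NoFour T)

/-- the completion of a point -/
abbrev CY : Type := (PAct.pt (locF T h1 h2)).Y

/-- follow a letter -/
noncomputable def go (a : (locF T h1 h2).L) (y : CY h1 h2) : CY h1 h2 :=
  ((PAct.pt (locF T h1 h2)).EY_total y a).choose

theorem go_spec (a : (locF T h1 h2).L) (y : CY h1 h2) :
    (PAct.pt (locF T h1 h2)).EY y a (go h1 h2 a y) :=
  ((PAct.pt (locF T h1 h2)).EY_total y a).choose_spec

theorem go_eq {a : (locF T h1 h2).L} {y z : CY h1 h2} (h : (PAct.pt (locF T h1 h2)).EY y a z) :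
    go h1 h2 a y = z := PAct.EY_det _ (go_spec h1 h2 a y) h

theorem go_inv (a : (locF T h1 h2).L) (y : CY h1 h2) :
    go h1 h2 ((locF T h1 h2).inv a) (go h1 h2 a y) = y :=
  go_eq h1 h2 (PAct.EY_sym _ (go_spec h1 h2 a y))

theorem go_inv' (a : (locF T h1 h2).L) (y : CY h1 h2) :
    go h1 h2 a (go h1 h2 ((locF T h1 h2).inv a) y) = y := by
  have := go_inv h1 h2 ((locF T h1 h2).inv a) y
  rwa [(locF T h1 h2).inv_inv] at this

/-- the permutation of a letter -/
noncomputable def goP (a : (locF T h1 h2).L) : Equiv.Perm (CY h1 h2) :=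
  ⟨go h1 h2 a, go h1 h2 ((locF T h1 h2).inv a), go_inv h1 h2 a, go_inv' h1 h2 a⟩

theorem goP_inv (a : (locF T h1 h2).L) : goP h1 h2 ((locF T h1 h2).inv a) = (goP h1 h2 a)⁻¹ := by
  ext y
  rfl

theorem go_M {a b c : (locF T h1 h2).L} (h : (locF T h1 h2).M a b c) (y : CY h1 h2) :
    goP h1 h2 c (goP h1 h2 a y) = goP h1 h2 b y :=
  go_eq h1 h2 (PAct.EY_tri _ h (go_spec h1 h2 a y) (go_spec h1 h2 b y))

theorem go_rel : ∀ r ∈ triRel k T,
    FreeGroup.lift (fun x : Fin k => (goP h1 h2 ((x, true) : Fin k × Bool))⁻¹) r = 1 := by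
  rintro r ⟨t, ht', rfl⟩
  simp only [map_mul, FreeGroup.lift_apply_of]
  rw [← mul_inv_rev, ← mul_inv_rev, inv_eq_one]
  ext y
  simp only [Equiv.Perm.mul_apply, Equiv.Perm.one_apply]
  have hM : (locF T h1 h2).M (t.1, false) (t.2.1, true) (t.2.2, false) :=
    Or.inl ⟨rfl, rfl, rfl, Or.inl ht'⟩
  have h3 := go_M h1 h2 hM (goP h1 h2 ((t.1, true) : Fin k × Bool) y)
  have e1 : goP h1 h2 ((t.1, false) : Fin k × Bool) = (goP h1 h2 ((t.1, true) : Fin k × Bool))⁻¹ :=
    goP_inv h1 h2 (t.1, true)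
  have e2 : goP h1 h2 ((t.2.2, false) : Fin k × Bool) = (goP h1 h2 ((t.2.2, true) : Fin k × Bool))⁻¹ :=
    goP_inv h1 h2 (t.2.2, true)
  rw [e1, e2] at h3
  rw [← Equiv.Perm.mul_apply (goP h1 h2 ((t.1, true) : Fin k × Bool))⁻¹, inv_mul_cancel,
    Equiv.Perm.one_apply] at h3
  rw [← h3, ← Equiv.Perm.mul_apply, mul_inv_cancel, Equiv.Perm.one_apply]

/-- the action of the group -/
noncomputable def actG : TriGroup k T →* Equiv.Perm (CY h1 h2) := PresentedGroup.toGroup (go_rel h1 h2)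

/-- the orbit map -/
noncomputable def orb (g : TriGroup k T) : CY h1 h2 := (actG h1 h2 g)⁻¹ (Sum.inl ())

theorem orb_one : orb h1 h2 1 = Sum.inl () := by
  rw [orb, map_one, inv_one]
  rfl

theorem orb_val (g : TriGroup k T) (a : (locF T h1 h2).L) :
    orb h1 h2 (g * valG T a) = go h1 h2 a (orb h1 h2 g) := by
  have h3 : actG h1 h2 (valG T a) = (goP h1 h2 a)⁻¹ := by
    obtain ⟨x, b⟩ := a
    have hx : actG h1 h2 (PresentedGroup.of x) = (goP h1 h2 ((x, true) : Fin k × Bool))⁻¹ :=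
      PresentedGroup.toGroup.of (go_rel h1 h2)
    cases b
    · have e1 : goP h1 h2 ((x, false) : Fin k × Bool) = (goP h1 h2 ((x, true) : Fin k × Bool))⁻¹ :=
        goP_inv h1 h2 (x, true)
      have e2 : valG T (x, false) = (PresentedGroup.of x)⁻¹ := by simp [valG]
      rw [e2, map_inv, hx]
      exact (congrArg (·⁻¹) e1).symm
    · have e2 : valG T (x, true) = PresentedGroup.of x := by simp [valG]
      rw [e2, hx]
  rw [orb, map_mul, h3, mul_inv_rev, inv_inv]
  rfl

/-- the developing map of the completion -/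
noncomputable def dev : CY h1 h2 → TriGroup k T :=
  devY (valG T) (valG_inv T h1 h2) (valG_M T h1 h2)

theorem dev_E {y z : CY h1 h2} {a : (locF T h1 h2).L}
    (h : (PAct.pt (locF T h1 h2)).EY y a z) : dev h1 h2 z = dev h1 h2 y * valG T a :=
  devY_E (Λ := locF T h1 h2) (valG T) (valG_inv T h1 h2) (valG_M T h1 h2) h

theorem dev_orb (g : TriGroup k T) : dev h1 h2 (orb h1 h2 g) = g := by
  let S : Subgroup (TriGroup k T) :=
    { carrier := {g | ∀ h, dev h1 h2 (orb h1 h2 (h * g)) = dev h1 h2 (orb h1 h2 h) * g}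
      mul_mem' := by
        intro a b ha hb h
        rw [← mul_assoc, hb, ha, mul_assoc]
      one_mem' := by intro h; rw [mul_one, mul_one]
      inv_mem' := by
        intro a ha h
        have := ha (h * a⁻¹)
        rw [inv_mul_cancel_right] at this
        rw [this, mul_inv_cancel_right] }
  have hS : S = ⊤ := by
    rw [eq_top_iff, ← PresentedGroup.closure_range_of, Subgroup.closure_le]
    rintro _ ⟨x, rfl⟩ h
    have e2 : valG T (x, true) = PresentedGroup.of x := by simp [valG]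
    have := orb_val h1 h2 h ((x, true) : Fin k × Bool)
    rw [← e2, this]
    exact dev_E h1 h2 (go_spec h1 h2 _ _)
  have : g ∈ S := by rw [hS]; trivial
  have h3 := this 1
  rw [one_mul, orb_one] at h3
  rw [h3]
  exact one_mul g

theorem orb_surj (y : CY h1 h2) : ∃ g, orb h1 h2 g = y := by
  have key : ∀ n (y : CY h1 h2), (PAct.pt (locF T h1 h2)).lev y = n → ∃ g, orb h1 h2 g = y := by
    intro n
    induction n with
    | zero =>
      intro y hy
      exact ⟨1, (orb_one h1 h2).trans (PAct.lev_zero_pt hy).symm⟩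
    | succ n ih =>
      intro y hy
      obtain ⟨q, rfl⟩ := (PAct.pt (locF T h1 h2)).exists_new hy
      obtain ⟨v, c, hc⟩ := ((PAct.pt (locF T h1 h2)).it n).Q_rep q
      have k1 := (PAct.pt (locF T h1 h2)).EY_up.2 hc
      have k2 := (PAct.pt (locF T h1 h2)).lev_missing hc.1
      obtain ⟨g, hg⟩ := ih _ k2
      refine ⟨g * valG T c, ?_⟩
      rw [orb_val h1 h2 g c, hg]
      exact go_eq h1 h2 k1
  exact key _ y rfl

/-- the orbit map is a bijection -/
noncomputable def orbE : TriGroup k T ≃ CY h1 h2 where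
  toFun := orb h1 h2
  invFun := dev h1 h2
  left_inv := dev_orb h1 h2
  right_inv := by
    intro y
    obtain ⟨g, rfl⟩ := orb_surj h1 h2 y
    rw [dev_orb]

/-- the Cayley graph -/
def Cay (k : ℕ) (T : List (Fin k × Fin k × Fin k)) : SimpleGraph (TriGroup k T) :=
  SimpleGraph.fromRel fun a b => ∃ x, a⁻¹ * b = PresentedGroup.of x

theorem Cay_adj (g h : TriGroup k T) :
    (Cay k T).Adj g h ↔ (PAct.pt (locF T h1 h2)).GY.Adj (orbE h1 h2 g) (orbE h1 h2 h) := by
  rw [Cay, SimpleGraph.fromRel_adj]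
  constructor
  · rintro ⟨hne, ⟨x, hx⟩ | ⟨x, hx⟩⟩
    · refine ⟨fun h3 => hne ((orbE h1 h2).injective h3), ((x, true) : Fin k × Bool), ?_⟩
      have e2 : valG T (x, true) = PresentedGroup.of x := by simp [valG]
      have e3 : h = g * valG T (x, true) := by rw [e2, ← hx]; group
      have := orb_val h1 h2 g ((x, true) : Fin k × Bool)
      rw [← e3] at this
      show (PAct.pt (locF T h1 h2)).EY (orb h1 h2 g) _ (orb h1 h2 h)
      rw [this]
      exact go_spec h1 h2 _ _
    · refine ⟨fun h3 => hne ((orbE h1 h2).injective h3), ((x, false) : Fin k × Bool), ?_⟩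
      have e2 : valG T (x, false) = (PresentedGroup.of x)⁻¹ := by simp [valG]
      have e3 : h = g * valG T (x, false) := by rw [e2, ← hx]; group
      have := orb_val h1 h2 g ((x, false) : Fin k × Bool)
      rw [← e3] at this
      show (PAct.pt (locF T h1 h2)).EY (orb h1 h2 g) _ (orb h1 h2 h)
      rw [this]
      exact go_spec h1 h2 _ _
  · rintro ⟨hne, ⟨x, b⟩, hE⟩
    refine ⟨fun h3 => hne (congrArg _ h3), ?_⟩
    have h3 : dev h1 h2 (orb h1 h2 h) = dev h1 h2 (orb h1 h2 g) * valG T (x, b) := dev_E h1 h2 hE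
    rw [dev_orb, dev_orb] at h3
    cases b
    · right
      refine ⟨x, ?_⟩
      rw [h3]
      simp [valG]
    · left
      refine ⟨x, ?_⟩
      rw [h3]
      simp [valG]

/-- left translation -/
theorem Cay_left (w g h : TriGroup k T) : (Cay k T).Adj g h ↔ (Cay k T).Adj (w * g) (w * h) := by
  simp only [Cay, SimpleGraph.fromRel_adj]
  have e1 : (w * g)⁻¹ * (w * h) = g⁻¹ * h := by group
  have e2 : (w * h)⁻¹ * (w * g) = h⁻¹ * g := by group
  rw [e1, e2]
  simp

/-- the Cayley graph is a thin level graph with any root -/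
noncomputable def CayLev (h3 : NoSix T) (w : TriGroup k T) : LevG (Cay k T) :=
  (PAct.levG (locF_Six T h1 h2 h3)).comap ((Equiv.mulLeft w⁻¹).trans (orbE h1 h2)) (by
    intro x y
    rw [Cay_left w⁻¹ x y]
    exact Cay_adj h1 h2 _ _)

theorem CayLev_r (h3 : NoSix T) (w : TriGroup k T) : (CayLev h1 h2 h3 w).r = w := by
  refine ((Equiv.mulLeft w⁻¹).trans (orbE h1 h2)).symm_apply_eq.2 ?_
  refine Eq.trans (orb_one h1 h2).symm ?_
  show orb h1 h2 1 = orb h1 h2 (w⁻¹ * w)
  rw [inv_mul_cancel]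

include h1 h2 in
/-- the Cayley graph is hyperbolic -/
theorem Cay_hyp (h3 : NoSix T) (x y z w : TriGroup k T) :
    ((Cay k T).dist x w : ℤ) + ((Cay k T).dist z w : ℤ) - ((Cay k T).dist x z : ℤ)
      ≥ min (((Cay k T).dist x w : ℤ) + ((Cay k T).dist y w : ℤ) - ((Cay k T).dist x y : ℤ))
            (((Cay k T).dist y w : ℤ) + ((Cay k T).dist z w : ℤ) - ((Cay k T).dist y z : ℤ))
        - 2 * ((4 : ℕ) : ℤ) := by
  have := (CayLev h1 h2 h3 w).four_point x y z
  rw [CayLev_r] at this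
  push_cast
  linarith

end Tri

end Pool.Agent.TriSurf
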