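import Pool.Agent.TriSurf.Cay

/-!
# Spheres are connected; one end
-/

set_option autoImplicit false

namespace Pool.Agent.TriSurf

/-- A criterion for exactly one end. -/
theorem one_end {V : Type} (Γ : SimpleGraph V) (hlf : ∀ v, (Γ.neighborSet v).Finite)
    (hpre : Γ.Preconnected) (hinf : Infinite V)
    (hK : ∀ K : Finset V, ∃ K' : Finset V, K ⊆ K' ∧ ∀ x y, x ∉ K' → y ∉ K' →
      Relation.ReflTransGen (fun a b => Γ.Adj a b ∧ b ∉ K') x y) :
    Nat.card Γ.end = 1 := by
  classical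
  have : Fact Γ.Preconnected := ⟨hpre⟩
  have : Γ.LocallyFinite := fun x => (hlf x).fintype
  rw [Nat.card_eq_one_iff_unique]
  refine ⟨⟨?_⟩, ?_⟩
  · rintro ⟨e, he⟩ ⟨e', he'⟩
    apply Subtype.ext
    funext K
    obtain ⟨K', hKK', hc⟩ := hK K.unop
    let f : Opposite.op K' ⟶ K := Quiver.Hom.op (CategoryTheory.homOfLE hKK')
    have h1 := he f
    have h2 := he' f
    have h3 : e (Opposite.op K') = e' (Opposite.op K') := by
      obtain ⟨x, hx, hx'⟩ := (e (Opposite.op K')).exists_eq_mk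
      obtain ⟨y, hy, hy'⟩ := (e' (Opposite.op K')).exists_eq_mk
      rw [← hx', ← hy']
      have key : ∀ y, Relation.ReflTransGen (fun a b => Γ.Adj a b ∧ b ∉ K') x y →
          ∀ hy : y ∉ (K' : Set V), Γ.componentComplMk hx = Γ.componentComplMk hy := by
        intro y hxy
        induction hxy with
        | refl => intro _; rfl
        | tail h1 h2 ih =>
          intro hy
          rcases Relation.ReflTransGen.cases_tail h1 with h3 | ⟨c, _, h4⟩
          · rw [SimpleGraph.componentComplMk_eq_of_adj Γ (h3 ▸ hx) hy h2.1 |>.symm]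
            subst h3
            rfl
          · rw [ih h4.2]
            exact SimpleGraph.componentComplMk_eq_of_adj Γ h4.2 hy h2.1
      exact key y (hc x y hx hy) hy
    show e K = e' K
    exact h1.symm.trans ((congrArg _ h3).trans h2)
  · exact (SimpleGraph.nonempty_ends_of_infinite Γ).to_subtype

namespace Loc

variable (Λ : Loc)

/-- complements of stars of cliques in the link are nonempty and connected -/
def Conn : Prop := ∀ F, Λ.Clique F → (∃ c, Λ.miss F c) ∧ ∀ c d, Λ.miss F c → Λ.miss F d →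
  Relation.ReflTransGen (fun a b => Λ.adj a b ∧ Λ.miss F b) c d

/-- every letter has a second neighbour in the link -/
def Two : Prop := ∀ e f, Λ.adj e f → ∃ g, Λ.adj e g ∧ g ≠ f

end Loc

namespace PAct

variable {Λ : Loc}

/-- a vertex of level `n` and its letters -/
theorem star_lev {n : ℕ} {y : (pt Λ).Y} (h : (pt Λ).lev y = n) :
    ∃ v : ((pt Λ).it n).V, (pt Λ).io n v = y ∧ ∃ F, Λ.Clique F ∧
      (∀ e, (∃ u, ((pt Λ).it n).E v e u) ↔ ¬ Λ.miss F e) ∧
      (∀ f, F f → ∃ z, (pt Λ).EY y f z ∧ (pt Λ).lev z < n) := by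
  rcases n with _ | n
  · rw [lev_zero_pt h]
    refine ⟨(), rfl, fun _ => False, fun _ _ h => h.elim, fun e => ?_, fun _ h => h.elim⟩
    constructor
    · rintro ⟨u, hu⟩
      exact hu.elim
    · intro h
      exact (h ⟨fun h => h, fun _ h => h.elim⟩).elim
  · obtain ⟨q, rfl⟩ := (pt Λ).exists_new h
    refine ⟨Sum.inr q, rfl, _, ((pt Λ).it n).par_clique q, fun e => ((pt Λ).it n).present_par q e, ?_⟩
    rintro f ⟨v, hv⟩
    exact ⟨_, (pt Λ).EY_dn.2 hv, Nat.lt_succ_of_le ((pt Λ).lev_io n v)⟩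

/-- horizontal paths -/
def Pth (n : ℕ) (x y : (pt Λ).Y) : Prop :=
  Relation.ReflTransGen (fun a b => (pt Λ).GY.Adj a b ∧ (pt Λ).lev b = n) x y

theorem Pth_of_E {n : ℕ} {x y : (pt Λ).Y} {a : Λ.L} (h : (pt Λ).EY x a y) (hl : (pt Λ).lev y = n) :
    Pth n x y := by
  by_cases hxy : x = y
  · subst hxy; exact Relation.ReflTransGen.refl
  · exact Relation.ReflTransGen.single ⟨⟨hxy, a, h⟩, hl⟩

theorem At_exists {n : ℕ} {v : ((pt Λ).it n).V} {c : Λ.L} (h : ¬ ∃ u, ((pt Λ).it n).E v c u) :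
    ∃ q, ((pt Λ).it n).At v c q := ⟨_, h, rfl⟩

/-- the children of a vertex are connected -/
theorem children_conn (hc : Λ.Conn) {n : ℕ} {y x x' : (pt Λ).Y} (hy : (pt Λ).lev y = n)
    (hx : (pt Λ).lev x = n + 1) (hx' : (pt Λ).lev x' = n + 1) {a a' : Λ.L} (h : (pt Λ).EY y a x)
    (h' : (pt Λ).EY y a' x') : Pth (n + 1) x x' := by
  obtain ⟨v, rfl, F, hF, hpres, _⟩ := star_lev hy
  obtain ⟨q, rfl⟩ := (pt Λ).exists_new hx
  obtain ⟨q', rfl⟩ := (pt Λ).exists_new hx'
  have k1 := (pt Λ).EY_up.1 h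
  have k2 := (pt Λ).EY_up.1 h'
  have m1 : Λ.miss F a := by
    by_contra hm
    exact k1.1 ((hpres a).2 hm)
  have m2 : Λ.miss F a' := by
    by_contra hm
    exact k2.1 ((hpres a').2 hm)
  have hp := (hc F hF).2 a a' m1 m2
  have key : ∀ b, Relation.ReflTransGen (fun a b => Λ.adj a b ∧ Λ.miss F b) a b →
      ∀ r, ((pt Λ).it n).At v b r → Pth (n + 1) (Sum.inr ⟨n, q⟩) (Sum.inr ⟨n, r⟩) := by
    intro b hb
    induction hb with
    | refl =>
      intro r hr
      have := ((pt Λ).it n).At_det k1 hr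
      subst this
      exact Relation.ReflTransGen.refl
    | tail h1 h2 ih =>
      rename_i b c
      intro r hr
      have hb : Λ.miss F b := by
        rcases Relation.ReflTransGen.cases_tail h1 with h3 | ⟨_, _, h4⟩
        · rw [h3]; exact m1
        · exact h4.2
      obtain ⟨s, hs⟩ := At_exists (v := v) (c := b) (fun h => (hpres b).1 h hb)
      obtain ⟨z, hz⟩ := h2.1
      exact (ih s hs).trans (Pth_of_E ((pt Λ).EY_eq.2 ⟨v, b, c, hz, hs, hr⟩) rfl)
  exact key a' hp q' k2

/-- every vertex has a child -/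
theorem child_exists (hc : Λ.Conn) {n : ℕ} {y : (pt Λ).Y} (hy : (pt Λ).lev y = n) :
    ∃ x a, (pt Λ).EY y a x ∧ (pt Λ).lev x = n + 1 := by
  obtain ⟨v, rfl, F, hF, hpres, _⟩ := star_lev hy
  obtain ⟨c, hcm⟩ := (hc F hF).1
  obtain ⟨q, hq⟩ := At_exists (v := v) (c := c) (fun h => (hpres c).1 h hcm)
  exact ⟨_, c, (pt Λ).EY_up.2 hq, rfl⟩

/-- adjacent vertices of the same positive level have a common child -/
theorem common_child (h2 : Λ.Two) {n : ℕ} {y z : (pt Λ).Y} {e : Λ.L} (hy : (pt Λ).lev y = n)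
    (hz : (pt Λ).lev z = n) (hne : y ≠ z) (hE : (pt Λ).EY y e z) :
    ∃ x a b, (pt Λ).EY y a x ∧ (pt Λ).EY z b x ∧ (pt Λ).lev x = n + 1 := by
  obtain ⟨v, hv, F, hF, hpres, hlow⟩ := star_lev hy
  rcases n with _ | n
  · exact absurd ((lev_zero_pt hy).trans (lev_zero_pt hz).symm) hne
  -- the letter `e` is present
  obtain ⟨w, hw⟩ := (pt Λ).exists_io (n := n + 1) (y := z) (by omega)
  have he : ((pt Λ).it (n + 1)).E v e w := by
    rw [← (pt Λ).EY_iff, hv, hw]; exact hE
  have hem := (hpres e).1 ⟨_, he⟩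
  have heF : ¬ F e := by
    intro h
    obtain ⟨z', hz', hl⟩ := hlow e h
    have := PAct.EY_det _ hE hz'
    subst this
    omega
  obtain ⟨f, hf, hfe⟩ := Loc.not_miss hem
  have hfe : Λ.adj f e := by
    rcases hfe with h | h
    · subst h; exact absurd hf heF
    · exact h
  obtain ⟨g, hg, hgf⟩ := h2 e f (Loc.adj_symm hfe)
  have c1 := Loc.adj_col hfe
  have c2 := Loc.adj_col hg
  have hgm : Λ.miss F g := by
    by_contra hgm
    obtain ⟨f', hf', h3⟩ := Loc.not_miss hgm
    rcases h3 with h3 | h3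
    · subst h3
      rcases hF _ _ hf hf' with h4 | h4
      · exact hgf h4.symm
      · have := Loc.adj_col h4
        simp_all
    · rcases hF _ _ hf hf' with h4 | h4
      · subst h4
        have := Loc.adj_col h3
        simp_all
      · rcases Loc.adj_four hfe h4 (Loc.adj_symm hg) (Loc.adj_symm h3) with h5 | h5
        · exact hgf h5.symm
        · subst h5; exact heF hf'
  obtain ⟨q, hq⟩ := At_exists (v := v) (c := g) (fun h => (hpres g).1 h hgm)
  have k1 := (pt Λ).EY_up.2 hq
  rw [hv] at k1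
  obtain ⟨h, hM⟩ := hg
  exact ⟨_, g, h, k1, PAct.EY_tri _ hM hE k1, rfl⟩

theorem par_exists {n : ℕ} {x : (pt Λ).Y} (hx : (pt Λ).lev x = n + 1) :
    ∃ y a, (pt Λ).EY y a x ∧ (pt Λ).lev y = n := by
  obtain ⟨q, rfl⟩ := (pt Λ).exists_new hx
  obtain ⟨v, c, hc⟩ := ((pt Λ).it n).Q_rep q
  exact ⟨_, c, (pt Λ).EY_up.2 hc, (pt Λ).lev_missing hc.1⟩

/-- spheres are connected -/
theorem sphere_conn (hc : Λ.Conn) (h2 : Λ.Two) (n : ℕ) : ∀ x y : (pt Λ).Y, (pt Λ).lev x = n →
    (pt Λ).lev y = n → Pth n x y := by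
  induction n with
  | zero =>
    intro x y hx hy
    rw [lev_zero_pt hx, lev_zero_pt hy]
    exact Relation.ReflTransGen.refl
  | succ n ih =>
    intro x y hx hy
    obtain ⟨u, a, hu, hlu⟩ := par_exists hx
    obtain ⟨v, b, hv, hlv⟩ := par_exists hy
    have key : ∀ v, Pth n u v → ∀ y b, (pt Λ).EY v b y → (pt Λ).lev y = n + 1 → Pth (n + 1) x y := by
      intro v huv
      induction huv with
      | refl =>
        intro y b hv hy
        exact children_conn hc hlu hx hy hu hv
      | tail h3 h4 ih' =>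
        rename_i s t
        intro y b hv hy
        obtain ⟨⟨hne, e, hE⟩, hlt⟩ := h4
        have hls : (pt Λ).lev s = n := by
          rcases Relation.ReflTransGen.cases_tail h3 with h5 | ⟨_, _, h6⟩
          · rw [h5]; exact hlu
          · exact h6.2
        obtain ⟨z, a', b', k1, k2, k3⟩ := common_child h2 hls hlt hne hE
        exact (ih' z a' k1 k3).trans (children_conn hc hlt k3 hy k2 hv)
    exact key v (ih u v hlu hlv) y b hv hy

/-- paths outside a ball -/
def Out (n : ℕ) (x y : (pt Λ).Y) : Prop :=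
  Relation.ReflTransGen (fun a b => (pt Λ).GY.Adj a b ∧ n < (pt Λ).lev b) x y

theorem Out_symm {n : ℕ} {x y : (pt Λ).Y} (h : Out n x y) (hx : n < (pt Λ).lev x) : Out n y x := by
  induction h with
  | refl => exact Relation.ReflTransGen.refl
  | tail h1 h2 ih =>
    rename_i b c
    have hb : n < (pt Λ).lev b := by
      rcases Relation.ReflTransGen.cases_tail h1 with h3 | ⟨_, _, h4⟩
      · rw [h3]; exact hx
      · exact h4.2
    exact Relation.ReflTransGen.head ⟨h2.1.symm, hb⟩ ih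

theorem Out_down (n : ℕ) : ∀ k (x : (pt Λ).Y), (pt Λ).lev x = n + 1 + k →
    ∃ y, (pt Λ).lev y = n + 1 ∧ Out n x y := by
  intro k
  induction k with
  | zero =>
    intro x hx
    exact ⟨x, hx, Relation.ReflTransGen.refl⟩
  | succ k ih =>
    intro x hx
    obtain ⟨y, a, hE, hy⟩ := par_exists (n := n + 1 + k) (x := x) (by omega)
    obtain ⟨z, hz, hyz⟩ := ih y hy
    refine ⟨z, hz, Relation.ReflTransGen.head ⟨⟨?_, _, (pt Λ).EY_sym hE⟩, by omega⟩ hyz⟩
    intro h
    rw [h] at hx
    omega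

/-- complements of balls are connected -/
theorem out_conn (hc : Λ.Conn) (h2 : Λ.Two) (n : ℕ) (x y : (pt Λ).Y) (hx : n < (pt Λ).lev x)
    (hy : n < (pt Λ).lev y) : Out n x y := by
  obtain ⟨x', hx', h1⟩ := Out_down n ((pt Λ).lev x - (n + 1)) x (by omega)
  obtain ⟨y', hy', h3⟩ := Out_down n ((pt Λ).lev y - (n + 1)) y (by omega)
  refine (h1.trans ?_).trans (Out_symm h3 hy)
  have hs : Relation.ReflTransGen
      (fun a b => (pt Λ).GY.Adj a b ∧ (pt Λ).lev b = n + 1) x' y' :=
    sphere_conn hc h2 (n + 1) x' y' hx' hy'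
  refine Relation.ReflTransGen.mono ?_ _ _ hs
  rintro a b ⟨h4, h5⟩
  exact ⟨h4, by omega⟩

theorem lev_surj (hc : Λ.Conn) (n : ℕ) : ∃ y : (pt Λ).Y, (pt Λ).lev y = n := by
  induction n with
  | zero => exact ⟨Sum.inl (), rfl⟩
  | succ n ih =>
    obtain ⟨y, hy⟩ := ih
    obtain ⟨x, _, _, hx⟩ := child_exists hc hy
    exact ⟨x, hx⟩

end PAct

section Tri

variable {k : ℕ} {T : List (Fin k × Fin k × Fin k)} (h1 : Fun3 T) (h2 : NoFour T)

/-- level of a group element -/
noncomputable def levC (g : TriGroup k T) : ℕ := (PAct.pt (locF T h1 h2)).lev (orbE h1 h2 g)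

theorem levC_finite (n : ℕ) : {g | levC h1 h2 g ≤ n}.Finite := by
  have hlev : ∀ n, {g | levC h1 h2 g = n}.Finite := by
    intro n
    induction n with
    | zero =>
      refine Set.Finite.subset (Set.finite_singleton (1 : TriGroup k T)) ?_
      intro g hg
      have h3 : orbE h1 h2 g = Sum.inl () := PAct.lev_zero_pt hg
      have h4 : orbE h1 h2 1 = Sum.inl () := orb_one h1 h2
      exact (orbE h1 h2).injective (h3.trans h4.symm)
    | succ n ih =>
      refine Set.Finite.subset (Set.Finite.image2 (fun g (a : Fin k × Bool) => g * valG T a) ih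
        Set.finite_univ) ?_
      intro g hg
      obtain ⟨y, a, hE, hy⟩ := PAct.par_exists (n := n) (x := orbE h1 h2 g) hg
      obtain ⟨h, rfl⟩ := orb_surj h1 h2 y
      refine ⟨h, hy, a, trivial, ?_⟩
      have h3 := dev_E h1 h2 hE
      rw [dev_orb] at h3
      have h4 : dev h1 h2 (orbE h1 h2 g) = g := dev_orb h1 h2 g
      rw [h4] at h3
      exact h3.symm
  have : {g | levC h1 h2 g ≤ n} = ⋃ m ∈ Set.Iic n, {g | levC h1 h2 g = m} := by
    ext g
    simp
  rw [this]
  exact Set.Finite.biUnion (Set.finite_Iic n) (fun m _ => hlev m)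

include h1 h2 in
/-- the Cayley graph has one end -/
theorem Cay_end (h3 : NoSix T) (hc : (locF T h1 h2).Conn) (h4 : (locF T h1 h2).Two) :
    Nat.card (Cay k T).end = 1 := by
  classical
  have hsurj : ∀ n, ∃ g, levC h1 h2 g = n := by
    intro n
    obtain ⟨y, hy⟩ := PAct.lev_surj hc n
    obtain ⟨g, rfl⟩ := orb_surj h1 h2 y
    exact ⟨g, hy⟩
  apply one_end
  · intro g
    refine Set.Finite.subset ((Set.toFinite (Set.univ : Set (Fin k × Bool))).image
      (fun a => g * valG T a)) ?_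
    intro h hg
    rw [SimpleGraph.mem_neighborSet, Cay_adj h1 h2] at hg
    obtain ⟨_, a, hE⟩ := hg
    refine ⟨a, trivial, ?_⟩
    have h5 : dev h1 h2 (orbE h1 h2 h) = dev h1 h2 (orbE h1 h2 g) * valG T a := dev_E h1 h2 hE
    have h6 : dev h1 h2 (orbE h1 h2 g) = g := dev_orb h1 h2 g
    have h7 : dev h1 h2 (orbE h1 h2 h) = h := dev_orb h1 h2 h
    rw [h6, h7] at h5
    exact h5.symm
  · exact (CayLev h1 h2 h3 1).preconnected
  · choose f hf using hsurj
    exact Infinite.of_injective f (fun m n h => by rw [← hf m, ← hf n, h])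
  · intro K
    obtain ⟨n, hn⟩ : ∃ n, ∀ g ∈ K, levC h1 h2 g ≤ n :=
      ⟨K.sup (levC h1 h2), fun g hg => Finset.le_sup (f := levC h1 h2) hg⟩
    refine ⟨(levC_finite h1 h2 n).toFinset, ?_, ?_⟩
    · intro g hg
      rw [Set.Finite.mem_toFinset]
      exact hn g hg
    · intro x y hx hy
      rw [Set.Finite.mem_toFinset] at hx hy
      have hx' : n < (PAct.pt (locF T h1 h2)).lev (orbE h1 h2 x) := not_le.1 hx
      have hy' : n < (PAct.pt (locF T h1 h2)).lev (orbE h1 h2 y) := not_le.1 hy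
      have key : ∀ z, PAct.Out n (orbE h1 h2 x) z → ∀ g, z = orbE h1 h2 g →
          Relation.ReflTransGen (fun a b => (Cay k T).Adj a b ∧
            b ∉ (levC_finite h1 h2 n).toFinset) x g := by
        intro z hz
        induction hz with
        | refl =>
          intro g hg
          rw [(orbE h1 h2).injective hg]
        | tail h5 h6 ih =>
          rename_i s t
          intro g hg
          subst hg
          obtain ⟨h, hh⟩ := orb_surj h1 h2 s
          have hh' : s = orbE h1 h2 h := hh.symm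
          refine (ih h hh').tail ⟨?_, ?_⟩
          · rw [Cay_adj h1 h2, ← hh']
            exact h6.1
          · rw [Set.Finite.mem_toFinset]
            exact not_le.2 h6.2
      exact key _ (PAct.out_conn hc h4 n _ _ hx' hy') y rfl

end Tri

end Pool.Agent.TriSurf
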