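import Pool.Agent.TriSurf.LiftS
import Pool.Agent.TriSurf.Sph

/-!
# The link of a branched cover
-/

set_option autoImplicit false

namespace Pool.Agent.TriSurf

namespace CovL

variable {Λ' Λ : Loc} (C : CovL Λ' Λ)

theorem adj_map {a b : Λ'.L} (h : Λ'.adj a b) : Λ.adj (C.π a) (C.π b) := by
  obtain ⟨c, hc⟩ := h
  exact ⟨_, C.map _ _ _ hc⟩

theorem adj_lift {a : Λ'.L} {b : Λ.L} (h : Λ.adj (C.π a) b) : ∃ b', C.π b' = b ∧ Λ'.adj a b' := by
  obtain ⟨c, hc⟩ := h
  obtain ⟨b', c', h1, h2⟩ := C.lift _ _ _ hc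
  exact ⟨b', h1, c', h2⟩

theorem adj_uniq {a b b' : Λ'.L} (h : Λ'.adj a b) (h' : Λ'.adj a b') (hb : C.π b = C.π b') :
    b = b' := by
  obtain ⟨c, hc⟩ := h
  obtain ⟨c', hc'⟩ := h'
  exact C.uniq _ _ _ _ _ hc hc' hb

theorem adj_irrefl {Λ : Loc} {a : Λ.L} (h : Λ.adj a a) : False := by
  have := Λ.adj_col h
  simp at this

include C in
theorem six (h : Λ.Six) : Λ'.Six := by
  intro a b c d e f h1 h2 h3 h4 h5 h6
  rcases h _ _ _ _ _ _ (C.adj_map h1) (C.adj_map h2) (C.adj_map h3) (C.adj_map h4) (C.adj_map h5)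
    (C.adj_map h6) with k | k | k | k | k | k
  · exact Or.inl (C.adj_uniq (Λ'.adj_symm h1) h2 k)
  · exact Or.inr (Or.inl (C.adj_uniq (Λ'.adj_symm h2) h3 k))
  · exact Or.inr (Or.inr (Or.inl (C.adj_uniq (Λ'.adj_symm h3) h4 k)))
  · exact Or.inr (Or.inr (Or.inr (Or.inl (C.adj_uniq (Λ'.adj_symm h4) h5 k))))
  · exact Or.inr (Or.inr (Or.inr (Or.inr (Or.inl (C.adj_uniq (Λ'.adj_symm h5) h6 k)))))
  · exact Or.inr (Or.inr (Or.inr (Or.inr (Or.inr (C.adj_uniq (Λ'.adj_symm h6) h1 k)))))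

include C in
theorem two (h : Λ.Two) : Λ'.Two := by
  intro e f hef
  obtain ⟨g, h1, h2⟩ := h _ _ (C.adj_map hef)
  obtain ⟨g', rfl, h4⟩ := C.adj_lift h1
  exact ⟨g', h4, fun hh => h2 (by rw [hh])⟩

/-- the projection is surjective -/
theorem surj (hc : Λ.Conn) (x : Λ'.L) (a : Λ.L) : ∃ a', C.π a' = a := by
  have h1 := (hc (fun _ => False) (fun _ _ h => h.elim)).2 (C.π x) a
    ⟨fun h => h, fun _ h => h.elim⟩ ⟨fun h => h, fun _ h => h.elim⟩
  induction h1 with
  | refl => exact ⟨x, rfl⟩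
  | tail _ h ih =>
    obtain ⟨b', rfl⟩ := ih
    obtain ⟨c', h1, _⟩ := C.adj_lift h.1
    exact ⟨c', h1⟩

section Star

variable (F : Λ'.L → Prop) (hF : Λ'.Clique F)

/-- the image of a clique -/
def im : Λ.L → Prop := fun a => ∃ f, F f ∧ C.π f = a

include hF in
theorem im_clique : Λ.Clique (C.im F) := by
  rintro _ _ ⟨f, hf, rfl⟩ ⟨f', hf', rfl⟩
  rcases hF f f' hf hf' with h | h
  · exact Or.inl (by rw [h])
  · exact Or.inr (C.adj_map h)

theorem miss_of {x : Λ'.L} (h : Λ.miss (C.im F) (C.π x)) : Λ'.miss F x := by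
  constructor
  · intro hx
    exact h.1 ⟨x, hx, rfl⟩
  · intro f hf ha
    exact h.2 _ ⟨f, hf, rfl⟩ (C.adj_map ha)

include hF in
/-- the star maps injectively -/
theorem star_inj {x y : Λ'.L} (hx : ¬ Λ'.miss F x) (hy : ¬ Λ'.miss F y) (h : C.π x = C.π y) :
    x = y := by
  obtain ⟨f, hf, hx⟩ := Loc.not_miss hx
  obtain ⟨g, hg, hy⟩ := Loc.not_miss hy
  rcases hx with rfl | hx <;> rcases hy with rfl | hy
  · rcases hF _ _ hf hg with h1 | h1
    · exact h1
    · exfalso
      have := C.adj_map h1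
      rw [h] at this
      exact adj_irrefl this
  · rcases hF _ _ hf hg with h1 | h1
    · subst h1
      exfalso
      have := C.adj_map hy
      rw [← h] at this
      exact adj_irrefl this
    · exact C.adj_uniq (Λ'.adj_symm h1) hy h
  · rcases hF _ _ hf hg with h1 | h1
    · subst h1
      exfalso
      have := C.adj_map hx
      rw [h] at this
      exact adj_irrefl this
    · exact C.adj_uniq hx h1 h
  · rcases hF _ _ hf hg with h1 | h1
    · subst h1
      exact C.adj_uniq hx hy h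
    · exfalso
      have c1 := Λ.adj_col (C.adj_map hx)
      have c2 := Λ.adj_col (C.adj_map hy)
      have c3 := Λ.adj_col (C.adj_map h1)
      rw [h, c2, c3] at c1
      simp at c1

include hF in
/-- adjacency in the star -/
theorem star_adj {x y : Λ'.L} (hx : ¬ Λ'.miss F x) (hy : ¬ Λ'.miss F y)
    (h : Λ.adj (C.π x) (C.π y)) : Λ'.adj x y := by
  obtain ⟨f, hf, hx⟩ := Loc.not_miss hx
  obtain ⟨g, hg, hy⟩ := Loc.not_miss hy
  rcases hx with rfl | hx <;> rcases hy with rfl | hy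
  · rcases hF _ _ hf hg with h1 | h1
    · rw [h1] at h
      exact (adj_irrefl h).elim
    · exact h1
  · rcases hF _ _ hf hg with h1 | h1
    · rw [h1]; exact hy
    · exfalso
      have c1 := Λ.adj_col h
      have c2 := Λ.adj_col (C.adj_map hy)
      have c3 := Λ.adj_col (C.adj_map h1)
      rw [c2, c3] at c1
      simp at c1
  · rcases hF _ _ hf hg with h1 | h1
    · subst h1
      exact Λ'.adj_symm hx
    · exfalso
      have c1 := Λ.adj_col h
      have c2 := Λ.adj_col (C.adj_map hx)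
      have c3 := Λ.adj_col (C.adj_map h1)
      rw [c3, c2] at c1
      simp at c1
  · rcases hF _ _ hf hg with h1 | h1
    · subst h1
      exfalso
      have c1 := Λ.adj_col h
      have c2 := Λ.adj_col (C.adj_map hx)
      have c3 := Λ.adj_col (C.adj_map hy)
      rw [c3, c2] at c1
      simp at c1
    · rcases Loc.adj_four (C.adj_map h1) (C.adj_map hx) (Λ.adj_symm (C.adj_map hy))
        (Λ.adj_symm h) with h2 | h2
      · have : f = y := C.adj_uniq (Λ'.adj_symm h1) hy h2
        rw [← this]; exact Λ'.adj_symm hx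
      · have : x = g := C.adj_uniq hx h1 h2.symm
        rw [this]; exact hy

include hF in
/-- an outer neighbour of the star lies over a missing letter -/
theorem outer {p m : Λ'.L} (hp : ¬ Λ'.miss F p) (hm : Λ'.miss F m) (h : Λ'.adj p m) :
    Λ.miss (C.im F) (C.π m) := by
  by_contra hc
  -- there is a lift of `π m` in the star
  obtain ⟨_, ⟨f, hf, rfl⟩, h1⟩ := Loc.not_miss hc
  have : ∃ q, C.π q = C.π m ∧ ¬ Λ'.miss F q := by
    rcases h1 with h1 | h1
    · exact ⟨f, h1.symm, fun h => h.1 hf⟩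
    · obtain ⟨q, h2, h3⟩ := C.adj_lift h1
      exact ⟨q, h2, fun h => h.2 f hf h3⟩
  obtain ⟨q, h2, h3⟩ := this
  have h4 : Λ'.adj p q := C.star_adj F hF hp h3 (by rw [h2]; exact C.adj_map h)
  have h5 : q = m := C.adj_uniq h4 h h2
  rw [h5] at h3
  exact h3 hm

variable (H : Λ'.L → Prop)

/-- number of elements of `H` over a letter -/
noncomputable def num (m : Λ.L) : ℕ := {x : Λ'.L | C.π x = m ∧ H x}.ncard

open Classical in
/-- the neighbour over a given letter -/
noncomputable def nb (m : Λ.L) (x : Λ'.L) : Λ'.L :=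
  if h : ∃ y, C.π y = m ∧ Λ'.adj x y then h.choose else x

theorem nb_spec {m : Λ.L} {x : Λ'.L} (h : Λ.adj (C.π x) m) :
    C.π (C.nb m x) = m ∧ Λ'.adj x (C.nb m x) := by
  obtain ⟨y, h1, h2⟩ := C.adj_lift h
  have hex : ∃ y, C.π y = m ∧ Λ'.adj x y := ⟨y, h1, h2⟩
  unfold nb
  rw [dif_pos hex]
  exact hex.choose_spec

theorem nb_injOn {m m2 : Λ.L} (h : Λ.adj m m2) : Set.InjOn (C.nb m2) {x | C.π x = m ∧ H x} := by
  rintro x ⟨hx, _⟩ y ⟨hy, _⟩ hxy
  subst hx
  obtain ⟨h1, h2⟩ := C.nb_spec h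
  have h' := h
  rw [← hy] at h'
  obtain ⟨h3, h4⟩ := C.nb_spec h'
  rw [← hxy] at h4
  exact C.adj_uniq (Λ'.adj_symm h2) (Λ'.adj_symm h4) hy.symm

theorem num_le (hfin : Finite Λ'.L) {m m2 : Λ.L} (h : Λ.adj m m2)
    (hH : ∀ x y, C.π x = m → C.π y = m2 → Λ'.adj x y → H x → H y) : C.num H m ≤ C.num H m2 := by
  unfold num
  rw [← (C.nb_injOn H h).ncard_image]
  apply Set.ncard_le_ncard
  · rintro _ ⟨x, ⟨hx, hHx⟩, rfl⟩
    obtain ⟨h1, h2⟩ := C.nb_spec (x := x) (m := m2) (by rw [hx]; exact h)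
    exact ⟨h1, hH _ _ hx h1 h2 hHx⟩
  · exact Set.toFinite _

theorem num_lt (hfin : Finite Λ'.L) {m m2 : Λ.L} (h : Λ.adj m m2)
    (hH : ∀ x y, C.π x = m → C.π y = m2 → Λ'.adj x y → H x → H y) {z : Λ'.L} (hz : C.π z = m2)
    (hHz : H z) (hz' : ∀ x, C.π x = m → H x → ¬ Λ'.adj x z) : C.num H m < C.num H m2 := by
  unfold num
  rw [← (C.nb_injOn H h).ncard_image]
  apply Set.ncard_lt_ncard
  · refine ⟨?_, ?_⟩
    · rintro _ ⟨x, ⟨hx, hHx⟩, rfl⟩
      obtain ⟨h1, h2⟩ := C.nb_spec (x := x) (m := m2) (by rw [hx]; exact h)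
      exact ⟨h1, hH _ _ hx h1 h2 hHx⟩
    · intro hs
      obtain ⟨x, ⟨hx, hHx⟩, hxz⟩ := hs (show z ∈ {x : Λ'.L | C.π x = m2 ∧ H x} from ⟨hz, hHz⟩)
      obtain ⟨h1, h2⟩ := C.nb_spec (x := x) (m := m2) (by rw [hx]; exact h)
      rw [hxz] at h2
      exact hz' x hx hHx h2
  · exact Set.toFinite _

variable {F H}

include C hF in
theorem comp_const (hfin : Finite Λ'.L) (hc : Λ.Conn) (H1 : ∀ x, H x → Λ'.miss F x)
    (H2 : ∀ x y, H x → Λ'.adj x y → Λ'.miss F y → H y) {p m q n : Λ'.L} (hp : ¬ Λ'.miss F p)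
    (hpm : Λ'.adj p m) (hm : H m) (hq : ¬ Λ'.miss F q) (hqn : Λ'.adj q n) (hn : Λ'.miss F n) :
    H n := by
  by_contra hHn
  -- the number over missing letters is constant
  have hstep : ∀ a b, Λ.adj a b → Λ.miss (C.im F) b → C.num H a ≤ C.num H b := by
    intro a b hab hb
    apply C.num_le H hfin hab
    intro x y _ hy hxy hHx
    exact H2 _ _ hHx hxy (C.miss_of F (by rw [hy]; exact hb))
  have hconst : ∀ a b, Λ.miss (C.im F) a → Λ.miss (C.im F) b → C.num H a = C.num H b := by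
    intro a b ha hb
    have h1 := (hc _ (C.im_clique F hF)).2 a b ha hb
    induction h1 with
    | refl => rfl
    | @tail b1 c1 hab h ih =>
      have hb1 : Λ.miss (C.im F) b1 := by
        rcases Relation.ReflTransGen.cases_tail hab with h2 | ⟨_, _, h2⟩
        · rw [h2]; exact ha
        · exact h2.2
      rw [ih hb1]
      exact le_antisymm (hstep _ _ h.1 hb) (hstep _ _ (Λ.adj_symm h.1) hb1)
  -- the number over the star is constant
  have hs1 : ∀ x y, ¬ Λ'.miss F x → ¬ Λ'.miss F y → Λ'.adj x y →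
      C.num H (C.π x) ≤ C.num H (C.π y) := by
    intro x y hx hy hxy
    apply C.num_le H hfin (C.adj_map hxy)
    intro u v hu hv huv hHu
    apply H2 _ _ hHu huv
    by_contra hv'
    have e1 : v = y := C.star_inj F hF hv' hy hv
    subst e1
    have e2 : u = x := C.adj_uniq (Λ'.adj_symm huv) (Λ'.adj_symm hxy) hu
    subst e2
    exact hx (H1 _ hHu)
  have hs2 : ∀ x y, ¬ Λ'.miss F x → ¬ Λ'.miss F y → Λ'.adj x y →
      C.num H (C.π x) = C.num H (C.π y) := fun x y hx hy hxy =>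
    le_antisymm (hs1 _ _ hx hy hxy) (hs1 _ _ hy hx (Λ'.adj_symm hxy))
  have hF' : ∀ f, F f → ¬ Λ'.miss F f := fun f hf h => h.1 hf
  have hs3 : ∀ x, ¬ Λ'.miss F x → ∃ f, F f ∧ C.num H (C.π x) = C.num H (C.π f) := by
    intro x hx
    obtain ⟨f, hf, hx'⟩ := Loc.not_miss hx
    rcases hx' with rfl | hx'
    · exact ⟨x, hf, rfl⟩
    · exact ⟨f, hf, (hs2 _ _ (hF' f hf) hx hx').symm⟩
  have hs4 : C.num H (C.π p) = C.num H (C.π q) := by
    obtain ⟨f, hf, e1⟩ := hs3 p hp
    obtain ⟨g, hg, e2⟩ := hs3 q hq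
    rw [e1, e2]
    rcases hF f g hf hg with h | h
    · rw [h]
    · exact hs2 _ _ (hF' f hf) (hF' g hg) h
  have hm' : Λ'.miss F m := H1 _ hm
  have om := C.outer F hF hp hm' hpm
  have on := C.outer F hF hq hn hqn
  have k1 : C.num H (C.π p) < C.num H (C.π m) := by
    apply C.num_lt H hfin (C.adj_map hpm) (z := m) _ rfl hm
    · intro x hx hHx hxm
      have : x = p := C.adj_uniq (Λ'.adj_symm hxm) (Λ'.adj_symm hpm) hx
      rw [this] at hHx
      exact hp (H1 _ hHx)
    · intro x y _ hy hxy hHx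
      exact H2 _ _ hHx hxy (C.miss_of F (by rw [hy]; exact om))
  have k2 : C.num H (C.π n) ≤ C.num H (C.π q) := by
    apply C.num_le H hfin (Λ.adj_symm (C.adj_map hqn))
    intro u v hu hv huv hHu
    apply H2 _ _ hHu huv
    by_contra hv'
    have e1 : v = q := C.star_inj F hF hv' hq hv
    subst e1
    have e2 : u = n := C.adj_uniq (Λ'.adj_symm huv) hqn hu
    subst e2
    exact hHn hHu
  have k3 := hconst _ _ om on
  omega

end Star

include C in
/-- the link of a connected branched cover satisfies the connectivity condition -/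
theorem conn (hfin : Finite Λ'.L) (hc : Λ.Conn) (x0 : Λ'.L)
    (hconn : ∀ a b : Λ'.L, Relation.ReflTransGen Λ'.adj a b) : Λ'.Conn := by
  intro F hF
  constructor
  · obtain ⟨c, hcm⟩ := (hc _ (C.im_clique F hF)).1
    obtain ⟨c', rfl⟩ := C.surj hc x0 c
    exact ⟨c', C.miss_of F hcm⟩
  · intro c d hcm hdm
    by_cases hne : ∃ f, F f
    · obtain ⟨f, hf⟩ := hne
      have hff : ¬ Λ'.miss F f := fun h => h.1 hf
      -- paths stay in the missing set
      have hmiss : ∀ c, Λ'.miss F c → ∀ x,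
          Relation.ReflTransGen (fun a b => Λ'.adj a b ∧ Λ'.miss F b) c x → Λ'.miss F x := by
        intro c hc x hx
        rcases Relation.ReflTransGen.cases_tail hx with h | ⟨_, _, h⟩
        · rw [h]; exact hc
        · exact h.2
      have hsymm : ∀ c, Λ'.miss F c → ∀ x,
          Relation.ReflTransGen (fun a b => Λ'.adj a b ∧ Λ'.miss F b) c x →
          Relation.ReflTransGen (fun a b => Λ'.adj a b ∧ Λ'.miss F b) x c := by
        intro c hc x hx
        induction hx with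
        | refl => exact Relation.ReflTransGen.refl
        | tail hb h ih =>
          exact Relation.ReflTransGen.head ⟨Λ'.adj_symm h.1, hmiss c hc _ hb⟩ ih
      have htouch : ∀ c, Λ'.miss F c → ∃ m p,
          Relation.ReflTransGen (fun a b => Λ'.adj a b ∧ Λ'.miss F b) c m ∧ ¬ Λ'.miss F p ∧
          Λ'.adj p m := by
        intro c hc
        have key : ∀ x, Relation.ReflTransGen Λ'.adj c x →
            Relation.ReflTransGen (fun a b => Λ'.adj a b ∧ Λ'.miss F b) c x ∨ ∃ m p,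
            Relation.ReflTransGen (fun a b => Λ'.adj a b ∧ Λ'.miss F b) c m ∧ ¬ Λ'.miss F p ∧
            Λ'.adj p m := by
          intro x hx
          induction hx with
          | refl => exact Or.inl Relation.ReflTransGen.refl
          | @tail y z _ h ih =>
            rcases ih with ih | ih
            · by_cases hz : Λ'.miss F z
              · exact Or.inl (ih.tail ⟨h, hz⟩)
              · exact Or.inr ⟨y, z, ih, hz, Λ'.adj_symm h⟩
            · exact Or.inr ih
        rcases key f (hconn c f) with h | h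
        · exact absurd (hmiss c hc f h) hff
        · exact h
      obtain ⟨m, p, hm, hp, hpm⟩ := htouch c hcm
      obtain ⟨n, q, hn, hq, hqn⟩ := htouch d hdm
      have h1 := C.comp_const (F := F) hF
        (H := fun x => Relation.ReflTransGen (fun a b => Λ'.adj a b ∧ Λ'.miss F b) c x) hfin hc
        (hmiss c hcm) (fun x y hx hxy hy => hx.tail ⟨hxy, hy⟩) hp hpm hm hq hqn (hmiss d hdm n hn)
      exact h1.trans (hsymm d hdm n hn)
    · have hall : ∀ x, Λ'.miss F x := by
        intro x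
        exact ⟨fun h => hne ⟨x, h⟩, fun f hf => absurd ⟨f, hf⟩ hne⟩
      have key : ∀ x, Relation.ReflTransGen Λ'.adj c x →
          Relation.ReflTransGen (fun a b => Λ'.adj a b ∧ Λ'.miss F b) c x := by
        intro x hx
        induction hx with
        | refl => exact Relation.ReflTransGen.refl
        | tail _ h ih => exact ih.tail ⟨h, hall _⟩
      exact key d (hconn c d)

end CovL

end Pool.Agent.TriSurf
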