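import Pool.Agent.TriSurf.Main

/-!
# The criterion: a certified locally convex surface gives a surface subgroup
-/

set_option autoImplicit false

namespace Pool.Agent.TriSurf

/-- follow one letter -/
def stepT (tab : Tab) (i c : ℕ) : Option (ℕ × List ℕ) :=
  if c % 2 = 0 then
    match tab.find? (fun e => Nat.beq e.1 i && Nat.beq e.2.1 (c / 2)) with
    | some e => some (e.2.2.1, e.2.2.2)
    | none => none
  else
    match tab.find? (fun e => Nat.beq e.2.2.1 i && Nat.beq e.2.1 (c / 2)) with
    | some e => some (e.1, winv e.2.2.2)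
    | none => none

/-- follow a word -/
def runT (tab : Tab) : List ℕ → ℕ → Option (ℕ × List ℕ)
  | [], i => some (i, [])
  | c :: t, i =>
    match stepT tab i c with
    | some q =>
      match runT tab t q.1 with
      | some r => some (r.1, q.2 ++ r.2)
      | none => none
    | none => none

theorem stepT_spec {g : ℕ} {tab : Tab} {i c : ℕ} {q : ℕ × List ℕ} (h : stepT tab i c = some q)
    (x : SurfaceGroup g) : ES g tab (x, i) c (x * ev (baseH g) q.2, q.1) := by
  unfold stepT at h
  split_ifs at h with hc
  · split at h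
    · rename_i e he
      obtain rfl := Option.some.inj h
      have hp := List.find?_some he
      have hm := List.mem_of_find?_eq_some he
      simp only [Bool.and_eq_true] at hp
      have e1 := Nat.eq_of_beq_eq_true hp.1
      have e2 := Nat.eq_of_beq_eq_true hp.2
      refine Or.inl ⟨hc, e.2.2.2, ?_, rfl⟩
      show (i, c / 2, e.2.2.1, e.2.2.2) ∈ tab
      rw [← e1, ← e2]; exact hm
    · cases h
  · split at h
    · rename_i e he
      obtain rfl := Option.some.inj h
      have hp := List.find?_some he
      have hm := List.mem_of_find?_eq_some he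
      simp only [Bool.and_eq_true] at hp
      have e1 := Nat.eq_of_beq_eq_true hp.1
      have e2 := Nat.eq_of_beq_eq_true hp.2
      refine Or.inr ⟨by omega, e.2.2.2, ?_, ?_⟩
      · show (e.1, c / 2, i, e.2.2.2) ∈ tab
        rw [← e1, ← e2]; exact hm
      · show x = x * ev (baseH g) (winv e.2.2.2) * ev (baseH g) e.2.2.2
        rw [ev_winv]; simp
    · cases h

/-- action of a word by permutations -/
def actp {Y : Type} (p : ℕ → Equiv.Perm Y) (w : List ℕ) (y : Y) : Y :=
  w.foldl (fun y c => p c y) y

theorem runT_spec {g : ℕ} {tab : Tab} {Y : Type} (io : SurfaceGroup g × ℕ → Y)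
    (p : ℕ → Equiv.Perm Y) (hp : ∀ s a u, ES g tab s a u → p a (io s) = io u)
    {w : List ℕ} : ∀ {i : ℕ} {q : ℕ × List ℕ}, runT tab w i = some q →
    ∀ x : SurfaceGroup g, actp p w (io (x, i)) = io (x * ev (baseH g) q.2, q.1) := by
  induction w with
  | nil =>
    intro i q h x
    obtain rfl := Option.some.inj h
    simp [actp]
  | cons c t ih =>
    intro i q h x
    rw [runT] at h
    split at h
    · rename_i s hs
      split at h
      · rename_i r hr
        obtain rfl := Option.some.inj h
        have h1 := hp _ _ _ (stepT_spec (g := g) hs x)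
        have h2 := ih hr (x * ev (baseH g) s.2)
        show actp p t (p c (io (x, i))) = _
        rw [h1, h2, ev_append, mul_assoc]
      · cases h
    · cases h

theorem perm_inv_apply {Y : Type} (q : Equiv.Perm Y) (y : Y) : q⁻¹ (q y) = y := by
  rw [← Equiv.Perm.mul_apply, inv_mul_cancel, Equiv.Perm.one_apply]

theorem perm_apply_inv {Y : Type} (q : Equiv.Perm Y) (y : Y) : q (q⁻¹ y) = y := by
  rw [← Equiv.Perm.mul_apply, mul_inv_cancel, Equiv.Perm.one_apply]

/-- the words of the generators -/
def gw (A : List (List ℕ × List ℕ)) (i : ℕ) : List ℕ × List ℕ := A.getD i ([], [])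

/-- the image of the relator -/
def relW (g : ℕ) (A : List (List ℕ × List ℕ)) : List ℕ :=
  (List.ofFn fun i : Fin g => (gw A i.1).1 ++ (gw A i.1).2 ++ winv (gw A i.1).1 ++ winv (gw A i.1).2).flatten

/-- the words of the generators are the right loops at vertex `0` -/
def chkLoop (k : ℕ) (tab : Tab) (w : List ℕ) (r : ℕ) : Bool :=
  (w.all fun c => Nat.blt (c / 2) k) &&
  match runT tab w 0 with
  | some q => Nat.beq q.1 0 && weq (red q.2) [r]
  | none => false

/-- the complete check -/
def chkAll (k g : ℕ) (l : List (ℕ × ℕ × ℕ)) (tab : Tab) (A : List (List ℕ × List ℕ))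
    (pr : List ℕ) : Bool :=
  chkFun (rot l) && chkFour (rot l) && chkDet tab && chkTri g (rot l) tab && chkConv (rot l) tab &&
  ((List.range g).all fun i => chkLoop k tab (gw A i).1 (4 * i) && chkLoop k tab (gw A i).2 (4 * i + 2)) &&
  match prg (rot l) pr ([], relW g A) with
  | some s => weq s.1 [] && weq s.2 []
  | none => false

/-- images of the generators -/
def genIm (k g : ℕ) (T : List (Fin k × Fin k × Fin k)) (A : List (List ℕ × List ℕ)) :
    Fin g ⊕ Fin g → TriGroup k T
  | Sum.inl i => ev (baseG k T) (gw A i.1).1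
  | Sum.inr i => ev (baseG k T) (gw A i.1).2

theorem ev_flatten {K : Type} [Group K] (base : ℕ → K) (L : List (List ℕ)) :
    ev base L.flatten = (L.map (ev base)).prod := by
  induction L with
  | nil => rfl
  | cons a L ih => rw [List.flatten_cons, ev_append, ih, List.map_cons, List.prod_cons]

theorem relW_spec (k g : ℕ) (T : List (Fin k × Fin k × Fin k)) (A : List (List ℕ × List ℕ))
    (h : ev (baseG k T) (relW g A) = 1) :
    ∀ r ∈ surfRel g, FreeGroup.lift (genIm k g T A) r = 1 := by
  intro r hr
  rw [surfRel, Set.mem_singleton_iff] at hr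
  rw [hr, map_list_prod, List.map_ofFn, ← h, relW, ev_flatten, List.map_ofFn]
  congr 2
  funext i
  simp [Function.comp, genIm, ev_winv, mul_assoc]

theorem phi_spec {k : ℕ} {T : List (Fin k × Fin k × Fin k)} {Y : Type} (p : ℕ → Equiv.Perm Y)
    (hinv : ∀ a, p (cinv a) = (p a)⁻¹) (φ : TriGroup k T →* Equiv.Perm Y)
    (hφ : ∀ x : Fin k, φ (PresentedGroup.of x) = (p (2 * x.1))⁻¹) (w : List ℕ)
    (hw : ∀ c ∈ w, c / 2 < k) (y : Y) : (φ (ev (baseG k T) w))⁻¹ y = actp p w y := by
  induction w generalizing y with
  | nil => simp [actp]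
  | cons c w ih =>
    have h1 : φ (evl (baseG k T) c) = (p c)⁻¹ := by
      have hc := hw c (by simp)
      unfold evl
      split_ifs with h
      · simp only [baseG, hc, dif_pos]
        rw [hφ]
        congr 2
        show 2 * (c / 2) = c
        omega
      · simp only [baseG, hc, dif_pos]
        rw [map_inv, hφ, inv_inv]
        have : c = cinv (2 * (c / 2)) := by
          rw [cinv, if_pos (by omega)]; omega
        conv_rhs => rw [this]
        rw [hinv, inv_inv]
    rw [ev_cons, map_mul, h1, mul_inv_rev, inv_inv, Equiv.Perm.mul_apply,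
      ih (fun d hd => hw d (List.mem_cons_of_mem _ hd))]
    rfl

theorem criterion {k g : ℕ} {T : List (Fin k × Fin k × Fin k)} (tab : Tab)
    (A : List (List ℕ × List ℕ)) (pr : List ℕ) (h : chkAll k g (nat3 k T) tab A pr = true) :
    ∃ f : SurfaceGroup g →* TriGroup k T, Function.Injective f := by
  simp only [chkAll, Bool.and_eq_true] at h
  obtain ⟨⟨⟨⟨⟨⟨h1, h2⟩, hd⟩, ht⟩, hc⟩, hl⟩, hp⟩ := h
  -- the relation
  have hrel : ev (baseG k T) (relW g A) = 1 := by
    split at hp
    · rename_i s hs
      have := prg_spec hs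
      rw [Bool.and_eq_true] at hp
      rw [vst, vst, weq_eq hp.1, weq_eq hp.2] at this
      simpa using this.symm
    · cases hp
  let f : SurfaceGroup g →* TriGroup k T := PresentedGroup.toGroup (relW_spec k g T A hrel)
  refine ⟨f, ?_⟩
  -- the action
  obtain ⟨Y, io, p, hio, hinv, hE, htri⟩ := exists_full (pact g (nat3 k T) tab h1 h2 hd ht hc)
  have hinv' : ∀ a : ℕ, p (cinv a) = (p a)⁻¹ := hinv
  have hgen : ∀ r ∈ triRel k T, FreeGroup.lift (fun x : Fin k => (p (2 * x.1 : ℕ))⁻¹) r = 1 := by
    rintro r ⟨t, ht', rfl⟩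
    simp only [map_mul, FreeGroup.lift_apply_of]
    rw [← mul_inv_rev, ← mul_inv_rev, inv_eq_one]
    ext y
    simp only [Equiv.Perm.mul_apply, Equiv.Perm.one_apply]
    have hM : MM (rot (nat3 k T)) (cinv (2 * t.1.1)) (2 * t.2.1.1) (cinv (2 * t.2.2.1)) := by
      refine Or.inl ⟨cinv_mod0 (by omega), by omega, cinv_mod0 (by omega), ?_⟩
      rw [cinv_div, cinv_div]
      have e1 : 2 * t.1.1 / 2 = t.1.1 := by omega
      have e2 : 2 * t.2.1.1 / 2 = t.2.1.1 := by omega
      have e3 : 2 * t.2.2.1 / 2 = t.2.2.1 := by omega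
      rw [e1, e2, e3, rot, List.mem_append, List.mem_append]
      exact Or.inl (Or.inl (List.mem_map.2 ⟨t, ht', rfl⟩))
    have h3 := htri _ _ _ hM (p (2 * t.1.1 : ℕ) y)
    rw [hinv' (2 * t.1.1)] at h3
    rw [hinv' (2 * t.2.2.1)] at h3
    rw [perm_inv_apply] at h3
    rw [← h3, perm_apply_inv]
  let φ : TriGroup k T →* Equiv.Perm Y := PresentedGroup.toGroup hgen
  have hφ : ∀ x : Fin k, φ (PresentedGroup.of x) = (p (2 * x.1 : ℕ))⁻¹ :=
    fun x => PresentedGroup.toGroup.of hgen
  -- the key property
  have hloop : ∀ (w : List ℕ) (r : ℕ), chkLoop k tab w r = true → ∀ x : SurfaceGroup g,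
      (φ (ev (baseG k T) w))⁻¹ (io (x, 0)) = io (x * evl (baseH g) r, 0) := by
    intro w r hw x
    rw [chkLoop, Bool.and_eq_true] at hw
    obtain ⟨hw1, hw2⟩ := hw
    rw [phi_spec p hinv' φ hφ w]
    · split at hw2
      · rename_i q hq
        rw [Bool.and_eq_true] at hw2
        have e1 : q.1 = 0 := Nat.eq_of_beq_eq_true hw2.1
        have e2 := weq_eq hw2.2
        have h3 := runT_spec (g := g) io p hE hq x
        rw [h3, ← ev_red, e2, e1]
        simp
      · cases hw2
    · intro c hc'
      rw [List.all_eq_true] at hw1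
      have := hw1 c hc'
      exact Nat.blt_eq.mp this
  let S : Subgroup (SurfaceGroup g) :=
    { carrier := {x | ∀ y, (φ (f x))⁻¹ (io (y, 0)) = io (y * x, 0)}
      mul_mem' := by
        intro a b ha hb y
        rw [map_mul, map_mul, mul_inv_rev, Equiv.Perm.mul_apply, ha y, hb (y * a), mul_assoc]
      one_mem' := by
        intro y
        simp
      inv_mem' := by
        intro a ha y
        have := ha (y * a⁻¹)
        rw [inv_mul_cancel_right] at this
        rw [map_inv, map_inv, inv_inv, ← this, perm_apply_inv] }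
  have hS : S = ⊤ := by
    rw [eq_top_iff, ← PresentedGroup.closure_range_of, Subgroup.closure_le]
    rintro _ ⟨x, rfl⟩ y
    rw [List.all_eq_true] at hl
    rcases x with i | i
    · have h3 := hl i.1 (List.mem_range.2 i.2)
      rw [Bool.and_eq_true] at h3
      have h4 := hloop _ _ h3.1 y
      have h5 : f (PresentedGroup.of (Sum.inl i)) = ev (baseG k T) (gw A i.1).1 :=
        PresentedGroup.toGroup.of _
      rw [h5, h4]
      congr 3
      have e0 : (4 * i.1) / 2 = 2 * i.1 := by omega
      have : 2 * i.1 / 2 = i.1 := by omega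
      rw [evl, if_pos (by omega), e0]
      simp only [baseH, this, i.2, dif_pos]
      rw [if_pos (by omega)]
    · have h3 := hl i.1 (List.mem_range.2 i.2)
      rw [Bool.and_eq_true] at h3
      have h4 := hloop _ _ h3.2 y
      have h5 : f (PresentedGroup.of (Sum.inr i)) = ev (baseG k T) (gw A i.1).2 :=
        PresentedGroup.toGroup.of _
      rw [h5, h4]
      congr 3
      have e0 : (4 * i.1 + 2) / 2 = 2 * i.1 + 1 := by omega
      have : (2 * i.1 + 1) / 2 = i.1 := by omega
      rw [evl, if_pos (by omega), e0]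
      simp only [baseH, this, i.2, dif_pos]
      rw [if_neg (by omega)]
  rw [injective_iff_map_eq_one]
  intro x hx
  have hxS : x ∈ S := by rw [hS]; trivial
  have h3 := hxS 1
  rw [hx, map_one, inv_one, Equiv.Perm.one_apply, one_mul] at h3
  have h4 := hio h3
  exact (congrArg Prod.fst h4).symm

end Pool.Agent.TriSurf
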