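import Pool.Agent.TriSurf.EnNF

/-!
# Triangle presentations whose link is the quadrangle of order (2, 2), in the model of the six-set
-/

set_option autoImplicit false
set_option maxRecDepth 100000

namespace Pool.Agent.TriSurf

/-- The link of `T` is the incidence graph of the generalized quadrangle of order (2, 2), in its standard
model: the letters `y` (as second letters) are the pairs `P y` in a set of six elements, the letters `x` (as
first letters) are the partitions of this set into three pairs, given as fixed point free involutions `M x`,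
and some relator starts with `x y` if and only if the pair `P y` is a part of the partition `M x`. -/
def LinkGQ (T : List (Fin 15 × Fin 15 × Fin 15)) : Prop :=
  ∃ (P : Fin 15 → Finset (Fin 6)) (M : Fin 15 → Fin 6 → Fin 6),
    Function.Injective P ∧ Function.Injective M ∧ (∀ y, (P y).card = 2) ∧
    (∀ x i, M x (M x i) = i ∧ M x i ≠ i) ∧ ∀ x y, Lk T x y ↔ ∃ i, P y = {i, M x i}

namespace En

/-- the pair with number `p` -/
def pairF : Fin 15 → Finset (Fin 6) :=
  ![{0, 1}, {0, 2}, {0, 3}, {0, 4}, {0, 5}, {1, 2}, {1, 3}, {1, 4}, {1, 5}, {2, 3}, {2, 4}, {2, 5},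
    {3, 4}, {3, 5}, {4, 5}]

/-- the involution with number `l`, as a list -/
def invL : List (List (Fin 6)) :=
  [[1, 0, 3, 2, 5, 4], [1, 0, 4, 5, 2, 3], [1, 0, 5, 4, 3, 2],
   [2, 3, 0, 1, 5, 4], [2, 4, 0, 5, 1, 3], [2, 5, 0, 4, 3, 1],
   [3, 2, 1, 0, 5, 4], [3, 4, 5, 0, 1, 2], [3, 5, 4, 0, 2, 1],
   [4, 2, 1, 5, 0, 3], [4, 3, 5, 1, 0, 2], [4, 5, 3, 2, 0, 1],
   [5, 2, 1, 4, 3, 0], [5, 3, 4, 1, 2, 0], [5, 4, 3, 2, 1, 0]]

/-- the involution with number `l` -/
def invF (l : Fin 15) : Fin 6 → Fin 6 := fun i => (invL.getD l.1 []).getD i.1 0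

theorem pair_surj : ∀ s : Finset (Fin 6), s.card = 2 → ∃ p, pairF p = s := by decide +kernel

theorem inc_model : ∀ l p : Fin 15, incB l.1 p.1 = true ↔ ∃ i, pairF p = {i, invF l i} := by
  decide +kernel

/-- the involutions, as lists of numbers -/
def invN : List (List ℕ) := invL.map fun f => f.map Fin.val

/-- the values `a` for `k` compatible with the values `as` of the numbers below `k` -/
def okM (k : ℕ) (as : List ℕ) (a : ℕ) : Bool :=
  !Nat.beq a k && allN k (fun j => beqv (Nat.beq (as.getD j 0) k) (Nat.beq a j))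

/-- the search for involutions -/
def enM : ℕ → ℕ → List ℕ → Bool
  | _, 0, as => invN.any fun l => decide (l = as)
  | k, f + 1, as => allN 6 fun a => !okM k as a || enM (k + 1) f (as ++ [a])

theorem enM_true : enM 0 6 [] = true := by decide +kernel

theorem enM_spec (M : Fin 6 → Fin 6) (h : ∀ i, M (M i) = i ∧ M i ≠ i) (f : ℕ) : ∀ (k : ℕ) (as : List ℕ),
    k + f = 6 → as.length = k → (∀ (j : ℕ) (hj : j < 6), j < k → as.getD j 0 = (M ⟨j, hj⟩).1) →
    enM k f as = true → ∃ l ∈ invN, l.length = 6 ∧ ∀ (j : ℕ) (hj : j < 6), l.getD j 0 = (M ⟨j, hj⟩).1 := by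
  induction f with
  | zero =>
    intro k as hk hl hv hen
    rw [enM, List.any_eq_true] at hen
    obtain ⟨l, hl1, hl2⟩ := hen
    have := of_decide_eq_true hl2
    subst this
    exact ⟨l, hl1, by omega, fun j hj => hv j hj (by omega)⟩
  | succ f ih =>
    intro k as hk hl hv hen
    have hk6 : k < 6 := by omega
    rw [enM] at hen
    have h1 := allN_spec hen (M ⟨k, hk6⟩).1 (M ⟨k, hk6⟩).2
    have hok : okM k as (M ⟨k, hk6⟩).1 = true := by
      rw [okM, Bool.and_eq_true]
      constructor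
      · have : (M ⟨k, hk6⟩).1 ≠ k := fun hh => (h ⟨k, hk6⟩).2 (Fin.ext hh)
        rw [beq_false this]; rfl
      · have key : ∀ (n : ℕ) (p : ℕ → Bool), (∀ i, i < n → p i = true) → allN n p = true := by
          intro n p
          induction n with
          | zero => intro _; rfl
          | succ n ihn =>
            intro hp
            rw [allN, Bool.and_eq_true]
            exact ⟨hp n (Nat.lt_succ_self n), ihn fun i hi => hp i (Nat.lt_succ_of_lt hi)⟩
        apply key
        intro j hj
        apply beqv_of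
        rw [hv j (by omega) hj]
        constructor
        · intro e
          have e' : M ⟨j, by omega⟩ = ⟨k, hk6⟩ := Fin.ext e
          rw [← e', (h _).1]
        · intro e
          have e' : M ⟨k, hk6⟩ = ⟨j, by omega⟩ := Fin.ext e
          rw [← e', (h _).1]
    rw [hok] at h1
    simp only [Bool.not_true, Bool.false_or] at h1
    refine ih (k + 1) _ (by omega) (by simp [hl]) ?_ h1
    intro j hj hjk
    rcases Nat.lt_or_ge j k with h2 | h2
    · rw [List.getD_append _ _ _ _ (by omega)]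
      exact hv j hj h2
    · have : j = k := by omega
      subst this
      rw [List.getD_append_right _ _ _ _ (by omega), hl, Nat.sub_self]
      rfl

theorem inv_len : invL.length = 15 := rfl

theorem inv_surj (M : Fin 6 → Fin 6) (h : ∀ i, M (M i) = i ∧ M i ≠ i) : ∃ l, invF l = M := by
  obtain ⟨l, h1, h2, h3⟩ := enM_spec M h 6 0 [] rfl rfl (fun j _ hj => absurd hj (by omega)) enM_true
  rw [invN, List.mem_map] at h1
  obtain ⟨f, hf, rfl⟩ := h1
  obtain ⟨m, hm, rfl⟩ := List.mem_iff_getElem.1 hf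
  refine ⟨⟨m, by rw [← inv_len]; exact hm⟩, ?_⟩
  funext i
  rw [List.length_map] at h2
  have h4 := h3 i.1 i.2
  rw [List.getD_eq_getElem _ _ (by rw [List.length_map, h2]; exact i.2), List.getElem_map] at h4
  show (invL.getD m []).getD i.1 0 = M i
  rw [List.getD_eq_getElem _ _ hm, List.getD_eq_getElem _ _ (by rw [h2]; exact i.2)]
  exact Fin.ext h4

/-! ### From lists of triples to relations on the points -/

theorem pairF_inj : Function.Injective pairF := by decide +kernel

theorem exists_codes {T : List (Fin 15 × Fin 15 × Fin 15)} (h : LinkGQ T) :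
    ∃ (p l : Fin 15 ≃ Fin 15), ∀ x y, Lk T x y ↔ incB (l x).1 (p y).1 = true := by
  obtain ⟨P, M, hP, hM, hc, hi, hL⟩ := h
  choose p hp using fun y => pair_surj (P y) (hc y)
  choose l hl using fun x => inv_surj (M x) (hi x)
  have pinj : Function.Injective p := by
    intro a b hab
    apply hP
    rw [← hp a, ← hp b, hab]
  have linj : Function.Injective l := by
    intro a b hab
    apply hM
    rw [← hl a, ← hl b, hab]
  refine ⟨Equiv.ofBijective p (Finite.injective_iff_bijective.1 pinj),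
    Equiv.ofBijective l (Finite.injective_iff_bijective.1 linj), ?_⟩
  intro x y
  rw [Equiv.ofBijective_apply, Equiv.ofBijective_apply, inc_model, hp, hl]
  exact hL x y

/-- the relation on the points -/
def relP (T : List (Fin 15 × Fin 15 × Fin 15)) (p : Fin 15 ≃ Fin 15) (a b c : ℕ) : Prop :=
  ∃ x y z : Fin 15, Rel3 T x y z ∧ (p x).1 = a ∧ (p y).1 = b ∧ (p z).1 = c

/-- the lines of the points -/
def lamP (p l : Fin 15 ≃ Fin 15) (a : ℕ) : ℕ := if h : a < 15 then (l (p.symm ⟨a, h⟩)).1 else 0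

theorem lamP_eq (p l : Fin 15 ≃ Fin 15) (x : Fin 15) : lamP p l (p x).1 = (l x).1 := by
  unfold lamP
  rw [dif_pos (p x).2]
  congr 2
  exact p.symm_apply_apply x

theorem relP_iff {T : List (Fin 15 × Fin 15 × Fin 15)} {p : Fin 15 ≃ Fin 15} {x y z : Fin 15} :
    relP T p (p x).1 (p y).1 (p z).1 ↔ Rel3 T x y z := by
  constructor
  · rintro ⟨a, b, c, h, h1, h2, h3⟩
    have e1 := p.injective (Fin.ext h1)
    have e2 := p.injective (Fin.ext h2)
    have e3 := p.injective (Fin.ext h3)
    rw [← e1, ← e2, ← e3]; exact h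
  · intro h
    exact ⟨x, y, z, h, rfl, rfl, rfl⟩

theorem tp_of {T : List (Fin 15 × Fin 15 × Fin 15)} (hF : Fun3 T) {p l : Fin 15 ≃ Fin 15}
    (hL : ∀ x y, Lk T x y ↔ incB (l x).1 (p y).1 = true) {tf : Bool}
    (hN : tf = true → ∀ x, ¬ Rel3 T x x x) : TP tf (relP T p) (lamP p l) where
  dom := by
    rintro _ _ _ ⟨x, y, z, _, rfl, rfl, rfl⟩
    exact ⟨(p x).2, (p y).2, (p z).2⟩
  rot := by
    rintro _ _ _ ⟨x, y, z, h, rfl, rfl, rfl⟩
    exact ⟨y, z, x, Rel3_rot h, rfl, rfl, rfl⟩
  fn := by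
    rintro _ _ _ _ ⟨x, y, z, h, rfl, rfl, rfl⟩ ⟨x', y', z', h', h1, h2, rfl⟩
    have e1 := p.injective (Fin.ext h1)
    have e2 := p.injective (Fin.ext h2)
    rw [e1, e2] at h'
    rw [hF _ _ _ _ h h']
  lt := by
    intro x hx
    unfold lamP
    rw [dif_pos hx]
    exact Fin.is_lt _
  inj := by
    intro x y hx hy h
    unfold lamP at h
    rw [dif_pos hx, dif_pos hy] at h
    have := p.symm.injective (l.injective (Fin.ext h))
    exact congrArg Fin.val this
  ex := by
    intro x y hx hy
    obtain ⟨a, ha⟩ : ∃ a, p a = ⟨x, hx⟩ := p.surjective _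
    obtain ⟨b, hb⟩ : ∃ b, p b = ⟨y, hy⟩ := p.surjective _
    have e1 : x = (p a).1 := by rw [ha]
    have e2 : y = (p b).1 := by rw [hb]
    rw [e1, e2, lamP_eq, ← hL]
    constructor
    · rintro ⟨c, hc⟩
      exact ⟨(p c).1, a, b, c, hc, rfl, rfl, rfl⟩
    · rintro ⟨_, a', b', c', h, h1, h2, _⟩
      have e1 := p.injective (Fin.ext h1)
      have e2 := p.injective (Fin.ext h2)
      rw [← e1, ← e2]
      exact ⟨c', h⟩
  nc := by
    rintro htf _ ⟨x, y, z, h, h1, h2, h3⟩
    rw [← h2] at h1
    rw [← h3] at h2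
    have e1 := p.injective (Fin.ext h1)
    have e2 := p.injective (Fin.ext h2)
    rw [e1, e2] at h
    exact hN htf _ h

/-- the isomorphism with a member of the list -/
theorem iso_of {T : List (Fin 15 × Fin 15 × Fin 15)} {p : Fin 15 ≃ Fin 15} {V r : ℕ}
    (h : IsoT V r (relP T p)) : ∃ ρ : Fin 15 ≃ Fin 15, ∀ x y z : Fin 15, (Rel3 T x y z ↔
      if r = 0 then nib V (15 * (ρ x).1 + (ρ y).1) = (ρ z).1 + 1
      else nib V (15 * (ρ y).1 + (ρ x).1) = (ρ z).1 + 1) := by
  obtain ⟨σ, h1, h2, h3⟩ := h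
  have hinj : Function.Injective (fun x : Fin 15 => (⟨σ (p x).1, h1 _ (p x).2⟩ : Fin 15)) := by
    intro a b hab
    have := h2 _ _ (p a).2 (p b).2 (congrArg Fin.val hab)
    exact p.injective (Fin.ext this)
  refine ⟨Equiv.ofBijective _ (Finite.injective_iff_bijective.1 hinj), ?_⟩
  intro x y z
  rw [← relP_iff (p := p), h3 _ _ _ (p x).2 (p y).2 (p z).2]
  rfl

end En

end Pool.Agent.TriSurf
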