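import Pool.Agent.TriSurf.EnTabG

/-!
# The enumeration, part 13
-/

set_option autoImplicit false
set_option maxRecDepth 100000

namespace Pool.Agent.TriSurf.En

theorem stG250 : StGood false CTG WTG 18 0x3000000c4 0x80c 0x2000000000000000000000000000000000000000000000000000000000000000000000000000000000000000000000000100000000000000000000090 :=
  stGood_of_run (cs := 0xe4cb73d3d839e3a482626120e3232313183b5b50ec42963064840574c4c3d83ba595906663d834be08312656aba0e4cba1ea00ec4bd4c4c3d8373734826261283737332262618b50ec4483d830665062333443dc0959595950ec0574c0ec4574c839595950e534cc00683065283068f2333c0483dc44cac373d3d83c44c96d50e5750483d3d832084) (by decide +kernel)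

end Pool.Agent.TriSurf.En
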