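import Pool.Agent.TriSurf.EnG14
import Pool.Agent.TriSurf.EnG18

/-!
# The enumeration, part 19
-/

set_option autoImplicit false
set_option maxRecDepth 100000

namespace Pool.Agent.TriSurf.En

theorem stG0 : StGood false CTG WTG 0 0x200000000000014 0xb 0x20000000000000000000000000000000000000000000000000000000000000000000000000000000000000000000000000000000000000000000000000000000000000000000000000000000000000000000000000000000000001000000000000000000000000000f0 :=
  stGood_of_node (cs := 0xe)
    [(0x200030000000014, 0xf, 0x1000000000200000000000000000000000000000000000000000000000000000000000f000000000000000000000000000000000000000000000000000000000000000000000000000000000000000000000000000000000000000000000000100000000000000b000000000000f0), (0x230000000000014, 0xf, 0x1000000000000200000000000000f000000000000000000000000000000000000000000000000000000000000000000000000000000000000000000000000000000000000000000000000000000000000000000000000000000000000000000000100000000000000e000000000000f0)]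
    (by
      intro k hk
      simp only [List.mem_cons, List.not_mem_nil, or_false] at hk
      rcases hk with rfl | rfl
      exacts [stG1, stG11]) (by decide +kernel)

theorem stG97 : StGood false CTG WTG 4 0x30000000024 0xe 0x20000000000000000000000000000000000000000000000000000000000000000000000000000000000000000000000000000000000000000000000000000100000000000000000000000b0 :=
  stGood_of_node (cs := 0xf)
    [(0x30005000024, 0x1e, 0x20000000000000000000000000000000000000000000000000000000000100000000000000000000000000000000000000000000000000000000000000000100000000070000000020000b0), (0x30006000024, 0x2e, 0x20000000000000000000000000000000000000000000000000000000000100000000000000000000000000000000000000000000000000000000000000000100000000070000000020000b0), (0x600030000000024, 0x2e, 0x1000000000000000000000000000000000000000000000000000000000000200000000000000000000000000000000000000000000000000000000000000000000000000000000000000000000000000000000000000000000000000001000000000f2000000000000b0)]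
    (by
      intro k hk
      simp only [List.mem_cons, List.not_mem_nil, or_false] at hk
      rcases hk with rfl | rfl | rfl
      exacts [stG98, stG112, stG114]) (by decide +kernel)

end Pool.Agent.TriSurf.En
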