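import Pool.Agent.TriSurf.EnG0
import Pool.Agent.TriSurf.EnG1
import Pool.Agent.TriSurf.EnG2
import Pool.Agent.TriSurf.EnG3
import Pool.Agent.TriSurf.EnG4
import Pool.Agent.TriSurf.EnG6
import Pool.Agent.TriSurf.EnG7
import Pool.Agent.TriSurf.EnG8
import Pool.Agent.TriSurf.EnG10
import Pool.Agent.TriSurf.EnG11
import Pool.Agent.TriSurf.EnG12
import Pool.Agent.TriSurf.EnG13
import Pool.Agent.TriSurf.EnG15
import Pool.Agent.TriSurf.EnG17
import Pool.Agent.TriSurf.EnG18
import Pool.Agent.TriSurf.EnG19

/-!
# The classification of the triangle presentations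
-/

set_option autoImplicit false
set_option maxRecDepth 100000

namespace Pool.Agent.TriSurf.En

theorem rootG0 : RootGood false CTG WTG (0, 0, 3, 1, 0, 14, 1) :=
  root_of_st (by decide +kernel) stG0

theorem rootG1 : RootGood false CTG WTG (1, 0, 3, 1, 0, 9, 1) :=
  root_of_st (by decide +kernel) stG24

theorem rootG2 : RootGood false CTG WTG (2, 0, 3, 1, 6, 14, 1) :=
  root_of_st (by decide +kernel) stG50

theorem rootG3 : RootGood false CTG WTG (3, 0, 3, 1, 1, 13, 0) :=
  root_of_st (by decide +kernel) stG76

theorem rootG4 : RootGood false CTG WTG (4, 0, 3, 1, 1, 10, 2) :=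
  root_of_st (by decide +kernel) stG97

theorem rootG5 : RootGood false CTG WTG (5, 0, 3, 1, 1, 13, 2) :=
  root_of_st (by decide +kernel) stG129

theorem rootG6 : RootGood false CTG WTG (6, 0, 3, 1, 1, 10, 0) :=
  root_of_st (by decide +kernel) stG146

theorem rootG7 : RootGood false CTG WTG (7, 0, 3, 1, 9, 13, 2) :=
  root_of_st (by decide +kernel) stG158

theorem rootG8 : RootGood false CTG WTG (8, 0, 3, 1, 9, 13, 0) :=
  root_of_st (by decide +kernel) stG191

theorem rootG9 : RootGood false CTG WTG (9, 0, 3, 1, 10, 11, 0) :=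
  root_of_st (by decide +kernel) stG212

theorem rootG10 : RootGood false CTG WTG (10, 0, 3, 1, 6, 2, 0) :=
  root_of_st (by decide +kernel) stG228

theorem rootG11 : RootGood false CTG WTG (10, 0, 3, 1, 6, 5, 0) :=
  root_of_st (by decide +kernel) stG229

theorem rootG12 : RootGood false CTG WTG (11, 0, 3, 1, 10, 3, 0) :=
  root_of_st (by decide +kernel) stG230

theorem rootG13 : RootGood false CTG WTG (12, 0, 3, 14, 11, 9, 1) :=
  root_of_st (by decide +kernel) stG240

theorem rootG14 : RootGood false CTG WTG (12, 0, 3, 14, 11, 9, 2) :=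
  root_of_st (by decide +kernel) stG241

theorem rootG15 : RootGood false CTG WTG (13, 0, 3, 1, 7, 7, 0) :=
  root_of_st (by decide +kernel) stG242

theorem rootG16 : RootGood false CTG WTG (14, 0, 3, 1, 7, 7, 2) :=
  root_of_st (by decide +kernel) stG243

theorem rootG17 : RootGood false CTG WTG (15, 0, 0, 9, 4, 7, 1) :=
  root_of_st (by decide +kernel) stG244

theorem rootG18 : RootGood false CTG WTG (16, 0, 0, 9, 4, 1, 1) :=
  root_of_st (by decide +kernel) stG246

theorem rootG19 : RootGood false CTG WTG (17, 0, 0, 9, 3, 1, 1) :=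
  root_of_st (by decide +kernel) stG247

theorem rootG20 : RootGood false CTG WTG (18, 0, 3, 1, 7, 7, 1) :=
  root_of_st (by decide +kernel) stG248

theorem rootG21 : RootGood false CTG WTG (18, 0, 3, 1, 7, 11, 1) :=
  root_of_st (by decide +kernel) stG249

theorem rootG22 : RootGood false CTG WTG (18, 0, 3, 1, 11, 8, 2) :=
  root_of_st (by decide +kernel) stG250

theorem rootG23 : RootGood false CTG WTG (19, 0, 0, 9, 4, 7, 2) :=
  root_of_st (by decide +kernel) stG251

theorem rootG24 : RootGood false CTG WTG (20, 0, 3, 1, 6, 2, 1) :=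
  root_of_st (by decide +kernel) stG252

theorem rootG25 : RootGood false CTG WTG (20, 0, 3, 1, 6, 5, 1) :=
  root_of_st (by decide +kernel) stG253

theorem rootG26 : RootGood false CTG WTG (20, 0, 3, 1, 7, 2, 2) :=
  root_of_st (by decide +kernel) stG254

theorem rootG27 : RootGood false CTG WTG (21, 0, 0, 9, 4, 13, 2) :=
  root_of_st (by decide +kernel) stG255

theorem rootG28 : RootGood false CTG WTG (22, 0, 0, 9, 4, 1, 2) :=
  root_of_st (by decide +kernel) stG256

theorem rootG29 : RootGood false CTG WTG (23, 0, 0, 9, 3, 14, 1) :=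
  root_of_st (by decide +kernel) stG257

theorem rootG30 : RootGood false CTG WTG (24, 0, 0, 9, 1, 10, 2) :=
  root_of_st (by decide +kernel) stG258

theorem rootG31 : RootGood false CTG WTG (25, 0, 3, 1, 7, 2, 1) :=
  root_of_st (by decide +kernel) stG259

theorem rootG32 : RootGood false CTG WTG (25, 0, 3, 1, 9, 5, 2) :=
  root_of_st (by decide +kernel) stG260

theorem rootG33 : RootGood false CTG WTG (25, 0, 3, 1, 11, 3, 2) :=
  root_of_st (by decide +kernel) stG261

theorem rootG34 : RootGood false CTG WTG (26, 0, 0, 9, 4, 13, 1) :=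
  root_of_st (by decide +kernel) stG262

theorem rootG35 : RootGood false CTG WTG (27, 0, 0, 0, 0, 0, 0) :=
  root_of_st (by decide +kernel) stG263

theorem rootG36 : RootGood false CTG WTG (28, 0, 0, 0, 0, 9, 1) :=
  root_of_st (by decide +kernel) stG264

theorem rootsG : ∀ t ∈ RTG, RootGood false CTG WTG t := by
  intro t ht
  simp only [RTG, List.mem_cons, List.not_mem_nil, or_false] at ht
  rcases ht with rfl | rfl | rfl | rfl | rfl | rfl | rfl | rfl | rfl | rfl | rfl | rfl | rfl | rfl | rfl | rfl | rfl | rfl | rfl | rfl | rfl | rfl | rfl | rfl | rfl | rfl | rfl | rfl | rfl | rfl | rfl | rfl | rfl | rfl | rfl | rfl | rfl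
  · exact rootG0
  · exact rootG1
  · exact rootG2
  · exact rootG3
  · exact rootG4
  · exact rootG5
  · exact rootG6
  · exact rootG7
  · exact rootG8
  · exact rootG9
  · exact rootG10
  · exact rootG11
  · exact rootG12
  · exact rootG13
  · exact rootG14
  · exact rootG15
  · exact rootG16
  · exact rootG17
  · exact rootG18
  · exact rootG19
  · exact rootG20
  · exact rootG21
  · exact rootG22
  · exact rootG23
  · exact rootG24
  · exact rootG25
  · exact rootG26
  · exact rootG27
  · exact rootG28
  · exact rootG29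
  · exact rootG30
  · exact rootG31
  · exact rootG32
  · exact rootG33
  · exact rootG34
  · exact rootG35
  · exact rootG36

/-- every triangle presentation over the quadrangle is isomorphic to a member of the list, or to the
reverse of a member of the list -/
theorem classifyG {R : ℕ → ℕ → ℕ → Prop} {lam : ℕ → ℕ} (H : TP false R lam) : Good WTG R :=
  classify nfG rootsG H

end Pool.Agent.TriSurf.En
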