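import Pool.Agent.TriSurf.SData

/-!
# Enumeration of the triangle presentations over the quadrangle of order (2, 2): definitions

Everything is packed into natural numbers.
-/

set_option autoImplicit false

namespace Pool.Agent.TriSurf

namespace En

/-- the points of a line: `nib PT (3 l + i)` -/
def PT : ℕ := 905672539400860361880338267398675442826644748676763280

/-- the lines through a point: `nib TH (3 p + i)` -/
def TH : ℕ := 592861223881521357070129272761809840453456317765661200

/-- incidence -/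
def INC : ℕ := 1079506435315935915201191275880409887030716616940198684322781250049

/-- collinearity -/
def COL : ℕ := 27972403365021527786902424362979137747293030352834844203303965916673

/-- concurrency -/
def CONC : ℕ := 50790002802775136553106960321711919347560272649590937731047371819087

/-- binary digit of a 15 x 15 matrix -/
def mat (M a b : ℕ) : ℕ := Nat.mod (Nat.shiftRight M (Nat.add (Nat.mul 15 a) b)) 2

/-- the point `p` is on the line `l` -/
def incB (l p : ℕ) : Bool := Nat.beq (mat INC l p) 1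

/-- binary digit -/
def bit (M k : ℕ) : Bool := Nat.beq (Nat.mod (Nat.shiftRight M k) 2) 1

/-- evaluate a number before using it -/
def forceN {α : Type} (n : ℕ) (f : ℕ → α) : α :=
  Nat.rec (motive := fun _ => α) (f 0) (fun m _ => f (Nat.succ m)) n

theorem forceN_eq {α : Type} (n : ℕ) (f : ℕ → α) : forceN n f = f n := by
  cases n <;> rfl

/-- the invariant of a configuration -/
def code (x lx y ly z lz : ℕ) : ℕ :=
  Nat.add (mat INC lx x) (Nat.mul 2 (Nat.add (mat INC ly y) (Nat.mul 2 (Nat.add (mat INC lz z) (Nat.mul 2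
  (Nat.add (mat INC lx z) (Nat.mul 2 (Nat.add (mat INC ly x) (Nat.mul 2 (Nat.add (mat INC lz y) (Nat.mul 2
  (Nat.add (mat COL x y) (Nat.mul 2 (Nat.add (mat COL y z) (Nat.mul 2 (Nat.add (mat COL z x) (Nat.mul 2
  (Nat.add (mat CONC lx ly) (Nat.mul 2 (Nat.add (mat CONC ly lz) (Nat.mul 2
  (mat CONC lz lx))))))))))))))))))))))

/-- the class of a configuration -/
def cls (CT x lx y ly z lz : ℕ) : ℕ :=
  Nat.mod (Nat.shiftRight CT (Nat.mul 5 (code x lx y ly z lz))) 32

/-- put a digit -/
def put (W k v : ℕ) : ℕ := Nat.add W (Nat.shiftLeft v (Nat.mul 4 k))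

/-- sequential search -/
def obind (o : Option ℕ) (f : ℕ → Option ℕ) : Option ℕ :=
  match o with
  | some a => f a
  | none => none

/-- sequential search over a list -/
def foldO (f : ℕ → ℕ → Option ℕ) (l : List ℕ) : ℕ → Option ℕ :=
  List.rec (motive := fun _ => ℕ → Option ℕ) (fun cs => some cs)
    (fun z _ ih cs => obind (f z cs) ih) l

/-- the three lines through a point -/
def thL (p : ℕ) : List ℕ := [nib TH (Nat.mul 3 p), nib TH (Nat.add (Nat.mul 3 p) 1), nib TH (Nat.add (Nat.mul 3 p) 2)]

/-- the three points of a line -/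
def ptL (l : ℕ) : List ℕ := [nib PT (Nat.mul 3 l), nib PT (Nat.add (Nat.mul 3 l) 1), nib PT (Nat.add (Nat.mul 3 l) 2)]

/-- all points -/
def all15 : List ℕ := [0, 1, 2, 3, 4, 5, 6, 7, 8, 9, 10, 11, 12, 13, 14]

section

variable (tf : Bool) (CT : ℕ) (WTs : List ℕ)

/-- add a relator -/
def step3 (ih : ℕ → ℕ → ℕ → ℕ → Option ℕ) (j x y z lx ly lz L U W cs : ℕ) : Option ℕ :=
  bif incB ly z && (incB lz x && (Nat.beq (nib W (Nat.add (Nat.mul 15 y) z)) 0 &&
      (Nat.beq (nib W (Nat.add (Nat.mul 15 z) x)) 0 && (Nat.ble j (cls CT x lx y ly z lz))))) then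
    bif Nat.beq x y && Nat.beq y z then
      bif tf then some cs else ih L U (put W (Nat.mul 16 x) (Nat.succ x)) cs
    else ih L U (put (put (put W (Nat.add (Nat.mul 15 x) y) (Nat.succ z)) (Nat.add (Nat.mul 15 y) z)
      (Nat.succ x)) (Nat.add (Nat.mul 15 z) x) (Nat.succ y)) cs
  else some cs

/-- choose the line of `y` -/
def tryY (ih : ℕ → ℕ → ℕ → ℕ → Option ℕ) (j x y z lx lz L U W cs : ℕ) : Option ℕ :=
  forceN (nib L y) fun ly1 =>
    bif Nat.beq ly1 0 then
      foldO (fun l cs => bif bit U l then some cs else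
        step3 tf CT ih j x y z lx l lz (put L y (Nat.succ l)) (Nat.add U (Nat.shiftLeft 1 l)) W cs) (thL z) cs
    else step3 tf CT ih j x y z lx (Nat.pred ly1) lz L U W cs

/-- choose the line of `z` -/
def tryZ (ih : ℕ → ℕ → ℕ → ℕ → Option ℕ) (j x y lx L U W z cs : ℕ) : Option ℕ :=
  forceN (nib L z) fun lz1 =>
    bif Nat.beq lz1 0 then
      foldO (fun l cs => bif bit U l then some cs else
        tryY tf CT ih j x y z lx l (put L z (Nat.succ l)) (Nat.add U (Nat.shiftLeft 1 l)) W cs) (thL x) cs
    else tryY tf CT ih j x y z lx (Nat.pred lz1) L U W cs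

/-- `σ` identifies the table `W` with the table `V`, up to reversing the relators if `r = 1` -/
def isoOK (V W σ r : ℕ) : Bool :=
  allN 15 (fun x => Nat.blt (nib σ x) 15) &&
  allN 15 (fun x => allN 15 fun y => Nat.beq x y || !Nat.beq (nib σ x) (nib σ y)) &&
  allN 15 (fun x => allN 15 fun y =>
    bif Nat.beq r 0 then
      bif Nat.beq (nib W (15 * x + y)) 0 then Nat.beq (nib V (15 * nib σ x + nib σ y)) 0
      else Nat.beq (nib V (15 * nib σ x + nib σ y)) (nib σ (Nat.pred (nib W (15 * x + y))) + 1)
    else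
      bif Nat.beq (nib W (15 * x + y)) 0 then Nat.beq (nib V (15 * nib σ y + nib σ x)) 0
      else Nat.beq (nib V (15 * nib σ y + nib σ x)) (nib σ (Nat.pred (nib W (15 * x + y))) + 1))

/-- the state is complete and isomorphic to a member of the list -/
def leafOK (L W i r σ : ℕ) : Bool :=
  allN 15 (fun x => !Nat.beq (nib L x) 0 &&
    (ptL (Nat.pred (nib L x))).all fun y => !Nat.beq (nib W (15 * x + y)) 0) &&
  Nat.blt i WTs.length && isoOK (WTs.getD i 0) W σ r

/-- the search -/
def node (ih : ℕ → ℕ → ℕ → ℕ → Option ℕ) (j L U W cs : ℕ) : Option ℕ :=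
  forceN L fun L => forceN U fun U => forceN W fun W => forceN cs fun cs =>
  bif Nat.beq (Nat.mod cs 256) 255 then
    forceN (Nat.div cs 256) fun cs1 =>
    bif leafOK WTs L W (Nat.mod cs1 256) (Nat.mod (Nat.div cs1 256) 256)
      (Nat.mod (Nat.div cs1 65536) 18446744073709551616) then
      some (Nat.div cs1 1208925819614629174706176)
    else none
  else
    forceN (Nat.div (Nat.mod cs 256) 15) fun x => forceN (Nat.mod (Nat.mod cs 256) 15) fun y =>
    forceN (nib L x) fun lx1 => forceN (nib L y) fun ly1 =>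
    bif Nat.blt x 15 && (!Nat.beq lx1 0 && (incB (Nat.pred lx1) y &&
        Nat.beq (nib W (Nat.add (Nat.mul 15 x) y)) 0)) then
      foldO (tryZ tf CT ih j x y (Nat.pred lx1) L U W)
        (bif Nat.beq ly1 0 then all15 else ptL (Nat.pred ly1)) (Nat.div cs 256)
    else none

/-- the search, with fuel -/
def run (j f : ℕ) : ℕ → ℕ → ℕ → ℕ → Option ℕ :=
  Nat.rec (motive := fun _ => ℕ → ℕ → ℕ → ℕ → Option ℕ) (fun _ _ _ _ => none)
    (fun _ ih L U W cs => node tf CT WTs ih j L U W cs) f

/-- the search succeeds -/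
def okRun (j L U W cs : ℕ) : Bool :=
  match run tf CT WTs j 30 L U W cs with
  | some r => Nat.beq r 0
  | none => false

end

end En

end Pool.Agent.TriSurf
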