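import Pool.Agent.TriSurf.EnSound

/-!
# Normal forms of configurations
-/

set_option autoImplicit false

namespace Pool.Agent.TriSurf

namespace En

/-- `(gp, gq, gl, gm)`: an automorphism of the quadrangle, on points and on lines, with inverses -/
def autOK (a : ℕ × ℕ × ℕ × ℕ) : Bool :=
  allN 15 (fun x => Nat.blt (nib a.1 x) 15 && (Nat.blt (nib a.2.1 x) 15 && (Nat.blt (nib a.2.2.1 x) 15 &&
    (Nat.beq (nib a.2.1 (nib a.1 x)) x && (Nat.beq (nib a.1 (nib a.2.1 x)) x &&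
    Nat.beq (nib a.2.2.2 (nib a.2.2.1 x)) x))))) &&
  allN 15 fun x => allN 15 fun y =>
    Nat.beq (mat INC (nib a.2.2.1 x) (nib a.1 y)) (mat INC x y) &&
    (Nat.beq (mat COL (nib a.1 x) (nib a.1 y)) (mat COL x y) &&
    Nat.beq (mat CONC (nib a.2.2.1 x) (nib a.2.2.1 y)) (mat CONC x y))

/-- transported relation -/
def trR (a : ℕ × ℕ × ℕ × ℕ) (R : ℕ → ℕ → ℕ → Prop) (x y z : ℕ) : Prop :=
  x < 15 ∧ y < 15 ∧ z < 15 ∧ R (nib a.2.1 x) (nib a.2.1 y) (nib a.2.1 z)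

/-- transported lines -/
def trL (a : ℕ × ℕ × ℕ × ℕ) (lam : ℕ → ℕ) (x : ℕ) : ℕ := nib a.2.2.1 (lam (nib a.2.1 x))

section

variable {a : ℕ × ℕ × ℕ × ℕ} (ha : autOK a = true)

include ha

theorem aut_lt {x : ℕ} (hx : x < 15) : nib a.1 x < 15 ∧ nib a.2.1 x < 15 ∧ nib a.2.2.1 x < 15 ∧
    nib a.2.1 (nib a.1 x) = x ∧ nib a.1 (nib a.2.1 x) = x ∧ nib a.2.2.2 (nib a.2.2.1 x) = x := by
  rw [autOK, Bool.and_eq_true] at ha
  have h := allN_spec ha.1 x hx
  simp only [Bool.and_eq_true] at h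
  exact ⟨Nat.blt_eq.mp h.1, Nat.blt_eq.mp h.2.1, Nat.blt_eq.mp h.2.2.1,
    Nat.eq_of_beq_eq_true h.2.2.2.1, Nat.eq_of_beq_eq_true h.2.2.2.2.1,
    Nat.eq_of_beq_eq_true h.2.2.2.2.2⟩

theorem aut_mat {x y : ℕ} (hx : x < 15) (hy : y < 15) :
    mat INC (nib a.2.2.1 x) (nib a.1 y) = mat INC x y ∧
    mat COL (nib a.1 x) (nib a.1 y) = mat COL x y ∧
    mat CONC (nib a.2.2.1 x) (nib a.2.2.1 y) = mat CONC x y := by
  rw [autOK, Bool.and_eq_true] at ha
  have h := allN_spec (allN_spec ha.2 x hx) y hy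
  simp only [Bool.and_eq_true] at h
  exact ⟨Nat.eq_of_beq_eq_true h.1, Nat.eq_of_beq_eq_true h.2.1, Nat.eq_of_beq_eq_true h.2.2⟩

theorem aut_cls (CT : ℕ) {x lx y ly z lz : ℕ} (hx : x < 15) (hlx : lx < 15) (hy : y < 15)
    (hly : ly < 15) (hz : z < 15) (hlz : lz < 15) :
    cls CT (nib a.1 x) (nib a.2.2.1 lx) (nib a.1 y) (nib a.2.2.1 ly) (nib a.1 z) (nib a.2.2.1 lz) =
      cls CT x lx y ly z lz := by
  unfold cls code
  rw [(aut_mat ha hlx hx).1, (aut_mat ha hly hy).1, (aut_mat ha hlz hz).1, (aut_mat ha hlx hz).1,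
    (aut_mat ha hly hx).1, (aut_mat ha hlz hy).1, (aut_mat ha hx hy).2.1, (aut_mat ha hy hz).2.1,
    (aut_mat ha hz hx).2.1, (aut_mat ha hlx hly).2.2, (aut_mat ha hly hlz).2.2,
    (aut_mat ha hlz hlx).2.2]

variable {tf : Bool} {R : ℕ → ℕ → ℕ → Prop} {lam : ℕ → ℕ} (H : TP tf R lam)

include H

theorem TP.tr : TP tf (trR a R) (trL a lam) where
  dom := fun _ _ _ h => ⟨h.1, h.2.1, h.2.2.1⟩
  rot := fun _ _ _ h => ⟨h.2.1, h.2.2.1, h.1, H.rot _ _ _ h.2.2.2⟩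
  fn := by
    intro x y z z' h h'
    have e := H.fn _ _ _ _ h.2.2.2 h'.2.2.2
    rw [← (aut_lt ha h.2.2.1).2.2.2.2.1, e, (aut_lt ha h'.2.2.1).2.2.2.2.1]
  lt := fun x hx => (aut_lt ha (H.lt _ (aut_lt ha hx).2.1)).2.2.1
  inj := by
    intro x y hx hy h
    have h1 := H.lt _ (aut_lt ha hx).2.1
    have h2 := H.lt _ (aut_lt ha hy).2.1
    have h3 : lam (nib a.2.1 x) = lam (nib a.2.1 y) := by
      rw [← (aut_lt ha h1).2.2.2.2.2, ← (aut_lt ha h2).2.2.2.2.2]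
      exact congrArg _ h
    have h4 := H.inj _ _ (aut_lt ha hx).2.1 (aut_lt ha hy).2.1 h3
    rw [← (aut_lt ha hx).2.2.2.2.1, h4, (aut_lt ha hy).2.2.2.2.1]
  ex := by
    intro x y hx hy
    have hqx := (aut_lt ha hx).2.1
    have hqy := (aut_lt ha hy).2.1
    have h1 := (aut_mat ha (H.lt _ hqx) hqy).1
    rw [(aut_lt ha hy).2.2.2.2.1] at h1
    have h2 : incB (trL a lam x) y = incB (lam (nib a.2.1 x)) (nib a.2.1 y) := by
      unfold incB trL
      rw [h1]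
    rw [h2, H.ex _ _ hqx hqy]
    constructor
    · rintro ⟨z, hz⟩
      have hz' := (H.dom _ _ _ hz).2.2
      refine ⟨nib a.1 z, hx, hy, (aut_lt ha hz').1, ?_⟩
      rw [(aut_lt ha hz').2.2.2.1]
      exact hz
    · rintro ⟨z, _, _, _, hz⟩
      exact ⟨_, hz⟩
  nc := fun h x hx => H.nc h _ hx.2.2.2

theorem tr_R {x y z : ℕ} (h : R x y z) : trR a R (nib a.1 x) (nib a.1 y) (nib a.1 z) := by
  obtain ⟨hx, hy, hz⟩ := H.dom _ _ _ h
  refine ⟨(aut_lt ha hx).1, (aut_lt ha hy).1, (aut_lt ha hz).1, ?_⟩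
  rw [(aut_lt ha hx).2.2.2.1, (aut_lt ha hy).2.2.2.1, (aut_lt ha hz).2.2.2.1]
  exact h

omit H in
theorem tr_L {x : ℕ} (hx : x < 15) : trL a lam (nib a.1 x) = nib a.2.2.1 (lam x) := by
  unfold trL
  rw [(aut_lt ha hx).2.2.2.1]

theorem tr_cls {CT j : ℕ} (hj : ∀ x y z, R x y z → j ≤ cls CT x (lam x) y (lam y) z (lam z)) :
    ∀ x y z, trR a R x y z → j ≤ cls CT x (trL a lam x) y (trL a lam y) z (trL a lam z) := by
  rintro x y z ⟨hx, hy, hz, h⟩
  have h1 := hj _ _ _ h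
  obtain ⟨_, qx, _, _, px, _⟩ := aut_lt ha hx
  obtain ⟨_, qy, _, _, py, _⟩ := aut_lt ha hy
  obtain ⟨_, qz, _, _, pz, _⟩ := aut_lt ha hz
  rw [← aut_cls ha CT qx (H.lt _ qx) qy (H.lt _ qy) qz (H.lt _ qz), px, py, pz] at h1
  exact h1

omit H in
theorem tr_good {WTs : List ℕ} (h : Good WTs (trR a R)) : Good WTs R := by
  obtain ⟨i, hi, r, σ, h1, h2, h3⟩ := h
  refine ⟨i, hi, r, fun x => σ (nib a.1 x), fun x hx => h1 _ (aut_lt ha hx).1, ?_, ?_⟩
  · intro x y hx hy hxy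
    have := h2 _ _ (aut_lt ha hx).1 (aut_lt ha hy).1 hxy
    rw [← (aut_lt ha hx).2.2.2.1, this, (aut_lt ha hy).2.2.2.1]
  · intro x y z hx hy hz
    rw [← h3 _ _ _ (aut_lt ha hx).1 (aut_lt ha hy).1 (aut_lt ha hz).1]
    constructor
    · intro h
      refine ⟨(aut_lt ha hx).1, (aut_lt ha hy).1, (aut_lt ha hz).1, ?_⟩
      rw [(aut_lt ha hx).2.2.2.1, (aut_lt ha hy).2.2.2.1, (aut_lt ha hz).2.2.2.1]
      exact h
    · rintro ⟨_, _, _, h⟩
      rw [(aut_lt ha hx).2.2.2.1, (aut_lt ha hy).2.2.2.1, (aut_lt ha hz).2.2.2.1] at h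
      exact h

end

/-! ### States -/

/-- all presentations of class at least `j` containing the state are in the list -/
def StGood (tf : Bool) (CT : ℕ) (WTs : List ℕ) (j L U W : ℕ) : Prop :=
  ∀ (R : ℕ → ℕ → ℕ → Prop) (lam : ℕ → ℕ), TP tf R lam →
    (∀ x y z, R x y z → j ≤ cls CT x (lam x) y (lam y) z (lam z)) → St R lam L U W → Good WTs R

theorem stGood_of_run {tf : Bool} {CT : ℕ} {WTs : List ℕ} {j L U W cs : ℕ}
    (h : okRun tf CT WTs j L U W cs = true) : StGood tf CT WTs j L U W :=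
  fun _ _ H Hc hS => okRun_sound H Hc hS h

/-- the search below a state, with a list of known states -/
def runK (tf : Bool) (CT : ℕ) (WTs : List ℕ) (K : List (ℕ × ℕ × ℕ)) (j L U W cs : ℕ) : Option ℕ :=
  bif K.any (fun k => Nat.beq k.1 L && (Nat.beq k.2.1 U && Nat.beq k.2.2 W)) then some cs
  else run tf CT WTs j 30 L U W cs

/-- the search at a state, with a list of known states on the next level -/
def okNode (tf : Bool) (CT : ℕ) (WTs : List ℕ) (K : List (ℕ × ℕ × ℕ)) (j L U W cs : ℕ) : Bool :=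
  match node tf CT WTs (runK tf CT WTs K j) j L U W cs with
  | some r => Nat.beq r 0
  | none => false

theorem stGood_of_node {tf : Bool} {CT : ℕ} {WTs : List ℕ} {j L U W cs : ℕ} (K : List (ℕ × ℕ × ℕ))
    (hK : ∀ k ∈ K, StGood tf CT WTs j k.1 k.2.1 k.2.2)
    (h : okNode tf CT WTs K j L U W cs = true) : StGood tf CT WTs j L U W := by
  intro R lam H Hc hS
  unfold okNode at h
  split at h
  · rename_i r hr
    refine node_sound H Hc ?_ hS hr
    intro L' U' W' cs' r' hS' h'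
    unfold runK at h'
    cases hb : K.any (fun k => Nat.beq k.1 L' && (Nat.beq k.2.1 U' && Nat.beq k.2.2 W')) with
    | true =>
      rw [List.any_eq_true] at hb
      obtain ⟨k, hk, hk2⟩ := hb
      simp only [Bool.and_eq_true] at hk2
      have e1 := Nat.eq_of_beq_eq_true hk2.1
      have e2 := Nat.eq_of_beq_eq_true hk2.2.1
      have e3 := Nat.eq_of_beq_eq_true hk2.2.2
      have h3 := hK k hk
      rw [e1, e2, e3] at h3
      exact h3 R lam H Hc hS'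
    | false =>
      rw [hb, cond_false] at h'
      exact run_sound H Hc 30 hS' h'
  · cases h

/-! ### Roots -/

/-- a root configuration: `(j, x, lx, y, ly, z, lz)` -/
abbrev Root := ℕ × ℕ × ℕ × ℕ × ℕ × ℕ × ℕ

/-- all presentations of class at least `j` containing the root configuration are in the list -/
def RootGood (tf : Bool) (CT : ℕ) (WTs : List ℕ) (t : Root) : Prop :=
  ∀ (R : ℕ → ℕ → ℕ → Prop) (lam : ℕ → ℕ), TP tf R lam →
    (∀ x y z, R x y z → t.1 ≤ cls CT x (lam x) y (lam y) z (lam z)) →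
    R t.2.1 t.2.2.2.1 t.2.2.2.2.2.1 → lam t.2.1 = t.2.2.1 → lam t.2.2.2.1 = t.2.2.2.2.1 →
    lam t.2.2.2.2.2.1 = t.2.2.2.2.2.2 → Good WTs R

/-- the initial state belongs to the root -/
def initOK (x lx y ly z lz L U W : ℕ) : Bool :=
  allN 15 (fun a => Nat.beq (nib L a) 0 || ((Nat.beq a x && Nat.beq (nib L a) (lx + 1)) ||
    ((Nat.beq a y && Nat.beq (nib L a) (ly + 1)) || (Nat.beq a z && Nat.beq (nib L a) (lz + 1))))) &&
  (Nat.beq (nib L x) (lx + 1) && (Nat.beq (nib L y) (ly + 1) && Nat.beq (nib L z) (lz + 1))) &&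
  allN 15 (fun l => !bit U l || (Nat.beq l lx || (Nat.beq l ly || Nat.beq l lz))) &&
  allN 15 (fun a => allN 15 fun b => Nat.beq (nib W (15 * a + b)) 0 ||
    ((Nat.beq a x && (Nat.beq b y && Nat.beq (nib W (15 * a + b)) (z + 1))) ||
    ((Nat.beq a y && (Nat.beq b z && Nat.beq (nib W (15 * a + b)) (x + 1))) ||
    (Nat.beq a z && (Nat.beq b x && Nat.beq (nib W (15 * a + b)) (y + 1)))))) &&
  (Nat.beq (nib W (15 * x + y)) (z + 1) && (Nat.beq (nib W (15 * y + z)) (x + 1) &&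
    Nat.beq (nib W (15 * z + x)) (y + 1)))

theorem root_of_st {tf : Bool} {CT : ℕ} {WTs : List ℕ} {j x lx y ly z lz L U W : ℕ}
    (h1 : initOK x lx y ly z lz L U W = true) (h2 : StGood tf CT WTs j L U W) :
    RootGood tf CT WTs (j, x, lx, y, ly, z, lz) := by
  intro R lam H Hc hR hx hy hz
  dsimp only at Hc hR hx hy hz
  obtain ⟨bx, by', bz⟩ := H.dom _ _ _ hR
  simp only [initOK, Bool.and_eq_true] at h1
  obtain ⟨⟨⟨⟨a1, a2, a3, a4⟩, a5⟩, a6⟩, a7, a8, a9⟩ := h1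
  have e2 := Nat.eq_of_beq_eq_true a2
  have e3 := Nat.eq_of_beq_eq_true a3
  have e4 := Nat.eq_of_beq_eq_true a4
  have e7 := Nat.eq_of_beq_eq_true a7
  have e8 := Nat.eq_of_beq_eq_true a8
  have e9 := Nat.eq_of_beq_eq_true a9
  refine h2 R lam H Hc ⟨?_, ?_, ?_⟩
  · intro a ha hne
    have := allN_spec a1 a ha
    simp only [Bool.or_eq_true, Bool.and_eq_true] at this
    rcases this with h | ⟨h, h'⟩ | ⟨h, h'⟩ | ⟨h, h'⟩
    · exact absurd (Nat.eq_of_beq_eq_true h) hne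
    · rw [Nat.eq_of_beq_eq_true h', Nat.eq_of_beq_eq_true h, hx]
    · rw [Nat.eq_of_beq_eq_true h', Nat.eq_of_beq_eq_true h, hy]
    · rw [Nat.eq_of_beq_eq_true h', Nat.eq_of_beq_eq_true h, hz]
  · intro l hl hb
    have := allN_spec a5 l hl
    rw [hb] at this
    simp only [Bool.not_true, Bool.false_or, Bool.or_eq_true] at this
    rcases this with h | h | h
    · exact ⟨x, bx, by rw [e2]; exact Nat.succ_ne_zero _, by rw [hx, Nat.eq_of_beq_eq_true h]⟩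
    · exact ⟨y, by', by rw [e3]; exact Nat.succ_ne_zero _, by rw [hy, Nat.eq_of_beq_eq_true h]⟩
    · exact ⟨z, bz, by rw [e4]; exact Nat.succ_ne_zero _, by rw [hz, Nat.eq_of_beq_eq_true h]⟩
  · intro a b ha hb hne
    have := allN_spec (allN_spec a6 a ha) b hb
    simp only [Bool.or_eq_true, Bool.and_eq_true] at this
    have hR1 := H.rot _ _ _ hR
    have hR2 := H.rot _ _ _ hR1
    rcases this with h | ⟨h, h', h''⟩ | ⟨h, h', h''⟩ | ⟨h, h', h''⟩
    · exact absurd (Nat.eq_of_beq_eq_true h) hne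
    · rw [Nat.eq_of_beq_eq_true h, Nat.eq_of_beq_eq_true h']
      exact ⟨z, bz, e7, hR, e8, e9⟩
    · rw [Nat.eq_of_beq_eq_true h, Nat.eq_of_beq_eq_true h']
      exact ⟨x, bx, e8, hR1, e9, e7⟩
    · rw [Nat.eq_of_beq_eq_true h, Nat.eq_of_beq_eq_true h']
      exact ⟨y, by', e9, hR2, e7, e8⟩

theorem root_of_run {tf : Bool} {CT : ℕ} {WTs : List ℕ} {j x lx y ly z lz L U W cs : ℕ}
    (h1 : initOK x lx y ly z lz L U W = true) (h2 : okRun tf CT WTs j L U W cs = true) :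
    RootGood tf CT WTs (j, x, lx, y, ly, z, lz) :=
  root_of_st h1 (stGood_of_run h2)

/-! ### Normal forms -/

/-- equality of a rotation of a root with a configuration -/
def rotEq (i : ℕ) (t : Root) (x lx y ly z lz : ℕ) : Bool :=
  bif Nat.beq i 0 then
    Nat.beq t.2.1 x && (Nat.beq t.2.2.1 lx && (Nat.beq t.2.2.2.1 y && (Nat.beq t.2.2.2.2.1 ly &&
      (Nat.beq t.2.2.2.2.2.1 z && Nat.beq t.2.2.2.2.2.2 lz))))
  else bif Nat.beq i 1 then
    Nat.beq t.2.2.2.1 x && (Nat.beq t.2.2.2.2.1 lx && (Nat.beq t.2.2.2.2.2.1 y &&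
      (Nat.beq t.2.2.2.2.2.2 ly && (Nat.beq t.2.1 z && Nat.beq t.2.2.1 lz))))
  else
    Nat.beq t.2.2.2.2.2.1 x && (Nat.beq t.2.2.2.2.2.2 lx && (Nat.beq t.2.1 y && (Nat.beq t.2.2.1 ly &&
      (Nat.beq t.2.2.2.1 z && Nat.beq t.2.2.2.2.1 lz))))

/-- equivalence of booleans -/
def beqv (a b : Bool) : Bool := (a && b) || (!a && !b)

section

variable (tf : Bool) (CT : ℕ) (AUT : List (ℕ × ℕ × ℕ × ℕ)) (RT : List Root) (N1 N2 N3 : ℕ)

/-- the check of one configuration with first point `0` -/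
def nf3 (b m ly c e : ℕ) : Bool :=
  let y := nib PT (3 * b + m)
  let z := nib PT (3 * ly + c)
  let lz := nib TH e
  let k := (((if b = 0 then 0 else 1) * 3 + m) * 15 + ly) * 9 + c * 3 + e
  let v := Nat.mod (Nat.shiftRight N3 (Nat.mul 16 k)) 65536
  let a := AUT.getD (v / 256) (0, 0, 0, 0)
  let t := RT.getD ((v / 4) % 64) (0, 0, 0, 0, 0, 0, 0)
  !(beqv (Nat.beq y 0) (Nat.beq ly b) && (beqv (Nat.beq z 0) (Nat.beq lz b) &&
    (beqv (Nat.beq y z) (Nat.beq ly lz) && !(tf && (Nat.beq y 0 && Nat.beq z 0))))) ||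
  (Nat.blt (v / 256) AUT.length && (Nat.blt ((v / 4) % 64) RT.length &&
  (rotEq (v % 4) t (nib a.1 0) (nib a.2.2.1 b) (nib a.1 y) (nib a.2.2.1 ly) (nib a.1 z) (nib a.2.2.1 lz) &&
    Nat.beq (cls CT (nib a.1 0) (nib a.2.2.1 b) (nib a.1 y) (nib a.2.2.1 ly) (nib a.1 z) (nib a.2.2.1 lz))
      t.1)))

/-- all checks -/
def nfOK : Bool :=
  AUT.all autOK &&
  allN 15 (fun x => Nat.blt (Nat.mod (Nat.shiftRight N1 (Nat.mul 8 x)) 256) AUT.length &&
    Nat.beq (nib (AUT.getD (Nat.mod (Nat.shiftRight N1 (Nat.mul 8 x)) 256) (0, 0, 0, 0)).1 x) 0) &&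
  allN 15 (fun l => Nat.blt (Nat.mod (Nat.shiftRight N2 (Nat.mul 8 l)) 256) AUT.length &&
    (Nat.beq (nib (AUT.getD (Nat.mod (Nat.shiftRight N2 (Nat.mul 8 l)) 256) (0, 0, 0, 0)).1 0) 0 &&
    (Nat.beq (nib (AUT.getD (Nat.mod (Nat.shiftRight N2 (Nat.mul 8 l)) 256) (0, 0, 0, 0)).2.2.1 l) 0 ||
    Nat.beq (nib (AUT.getD (Nat.mod (Nat.shiftRight N2 (Nat.mul 8 l)) 256) (0, 0, 0, 0)).2.2.1 l) 3))) &&
  (allN 3 fun m => allN 15 fun ly => allN 3 fun c => allN 3 fun e =>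
    nf3 tf CT AUT RT N3 0 m ly c e && nf3 tf CT AUT RT N3 3 m ly c e)

end

theorem getD_mem {α : Type} {l : List α} {i : ℕ} {d : α} (h : i < l.length) : l.getD i d ∈ l := by
  rw [List.getD_eq_getElem _ _ h]
  exact List.getElem_mem _

theorem pt_of_inc : ∀ l, l < 15 → ∀ p, p < 15 → incB l p = true → ∃ m, m < 3 ∧ nib PT (3 * l + m) = p := by
  have h : allN 15 (fun l => allN 15 fun p => !incB l p ||
      anyN 3 fun m => Nat.beq (nib PT (3 * l + m)) p) = true := by decide +kernel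
  intro l hl p hp hi
  have := allN_spec (allN_spec h l hl) p hp
  rw [hi] at this
  simp only [Bool.not_true, Bool.false_or] at this
  obtain ⟨m, hm, h2⟩ := anyN_spec this
  exact ⟨m, hm, Nat.eq_of_beq_eq_true h2⟩

theorem th_of_inc : ∀ l, l < 15 → incB l 0 = true → ∃ m, m < 3 ∧ nib TH m = l := by
  have h : allN 15 (fun l => !incB l 0 || anyN 3 fun m => Nat.beq (nib TH m) l) = true := by
    decide +kernel
  intro l hl hi
  have := allN_spec h l hl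
  rw [hi] at this
  simp only [Bool.not_true, Bool.false_or] at this
  obtain ⟨m, hm, h2⟩ := anyN_spec this
  exact ⟨m, hm, Nat.eq_of_beq_eq_true h2⟩

theorem line_has_point : ∀ l, l < 15 → ∃ p, p < 15 ∧ incB l p = true := by
  have h : allN 15 (fun l => anyN 15 fun p => incB l p) = true := by decide +kernel
  intro l hl
  exact anyN_spec (allN_spec h l hl)

theorem beqv_of {a b c d : ℕ} (h : a = b ↔ c = d) : beqv (Nat.beq a b) (Nat.beq c d) = true := by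
  unfold beqv
  by_cases h1 : a = b
  · have h2 := h.1 h1
    subst h1; subst h2
    simp
  · have h2 : c ≠ d := fun hh => h1 (h.2 hh)
    rw [beq_false h1, beq_false h2]
    rfl

theorem rotEq_spec {i : ℕ} {t : Root} {x lx y ly z lz : ℕ} (h : rotEq i t x lx y ly z lz = true) :
    (t.2.1 = x ∧ t.2.2.1 = lx ∧ t.2.2.2.1 = y ∧ t.2.2.2.2.1 = ly ∧ t.2.2.2.2.2.1 = z ∧
      t.2.2.2.2.2.2 = lz) ∨
    (t.2.2.2.1 = x ∧ t.2.2.2.2.1 = lx ∧ t.2.2.2.2.2.1 = y ∧ t.2.2.2.2.2.2 = ly ∧ t.2.1 = z ∧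
      t.2.2.1 = lz) ∨
    (t.2.2.2.2.2.1 = x ∧ t.2.2.2.2.2.2 = lx ∧ t.2.1 = y ∧ t.2.2.1 = ly ∧ t.2.2.2.1 = z ∧
      t.2.2.2.2.1 = lz) := by
  unfold rotEq at h
  cases h1 : Nat.beq i 0 with
  | true =>
    rw [h1] at h
    simp only [cond_true, Bool.and_eq_true] at h
    obtain ⟨a, b, c, d, e, f⟩ := h
    exact Or.inl ⟨Nat.eq_of_beq_eq_true a, Nat.eq_of_beq_eq_true b, Nat.eq_of_beq_eq_true c,
      Nat.eq_of_beq_eq_true d, Nat.eq_of_beq_eq_true e, Nat.eq_of_beq_eq_true f⟩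
  | false =>
    rw [h1] at h
    simp only [cond_false] at h
    cases h2 : Nat.beq i 1 with
    | true =>
      rw [h2] at h
      simp only [cond_true, Bool.and_eq_true] at h
      obtain ⟨a, b, c, d, e, f⟩ := h
      exact Or.inr (Or.inl ⟨Nat.eq_of_beq_eq_true a, Nat.eq_of_beq_eq_true b,
        Nat.eq_of_beq_eq_true c, Nat.eq_of_beq_eq_true d, Nat.eq_of_beq_eq_true e,
        Nat.eq_of_beq_eq_true f⟩)
    | false =>
      rw [h2] at h
      simp only [cond_false, Bool.and_eq_true] at h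
      obtain ⟨a, b, c, d, e, f⟩ := h
      exact Or.inr (Or.inr ⟨Nat.eq_of_beq_eq_true a, Nat.eq_of_beq_eq_true b,
        Nat.eq_of_beq_eq_true c, Nat.eq_of_beq_eq_true d, Nat.eq_of_beq_eq_true e,
        Nat.eq_of_beq_eq_true f⟩)

section

variable {tf : Bool} {CT : ℕ} {WTs : List ℕ} {AUT : List (ℕ × ℕ × ℕ × ℕ)} {RT : List Root}
  {N1 N2 N3 : ℕ} (hnf : nfOK tf CT AUT RT N1 N2 N3 = true)
  (hroot : ∀ t ∈ RT, RootGood tf CT WTs t)

include hnf hroot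

/-- configurations with first point `0` and first line `0` or `3` -/
theorem good3 {R : ℕ → ℕ → ℕ → Prop} {lam : ℕ → ℕ} (H : TP tf R lam) {j : ℕ}
    (Hc : ∀ x y z, R x y z → j ≤ cls CT x (lam x) y (lam y) z (lam z)) {y z : ℕ} (hR : R 0 y z)
    (hj : cls CT 0 (lam 0) y (lam y) z (lam z) = j) (hb : lam 0 = 0 ∨ lam 0 = 3) : Good WTs R := by
  obtain ⟨_, hy, hz⟩ := H.dom _ _ _ hR
  have hR1 := H.rot _ _ _ hR
  have hR2 := H.rot _ _ _ hR1
  have l0 : lam 0 < 15 := H.lt 0 (by decide)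
  have l1 := H.lt y hy
  have l2 := H.lt z hz
  obtain ⟨m, hm, em⟩ := pt_of_inc _ l0 y hy ((H.ex 0 y (by decide) hy).2 ⟨_, hR⟩)
  obtain ⟨c, hc, ec⟩ := pt_of_inc _ l1 z hz ((H.ex y z hy hz).2 ⟨_, hR1⟩)
  obtain ⟨e, he, ee⟩ := th_of_inc _ l2 ((H.ex z 0 hz (by decide)).2 ⟨_, hR2⟩)
  simp only [nfOK, Bool.and_eq_true] at hnf
  obtain ⟨⟨⟨n0, _⟩, _⟩, n3⟩ := hnf
  have k := allN_spec (allN_spec (allN_spec (allN_spec n3 m hm) (lam y) l1) c hc) e he
  rw [Bool.and_eq_true] at k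
  have k' : nf3 tf CT AUT RT N3 (lam 0) m (lam y) c e = true := by
    rcases hb with hb | hb
    · rw [hb]; exact k.1
    · rw [hb]; exact k.2
  unfold nf3 at k'
  simp only [em, ec, ee] at k'
  generalize Nat.mod (Nat.shiftRight N3 _) 65536 = v at k'
  have v1 : beqv (Nat.beq y 0) (Nat.beq (lam y) (lam 0)) = true := beqv_of
    ⟨fun h => by rw [h], fun h => H.inj _ _ hy (by decide) h⟩
  have v2 : beqv (Nat.beq z 0) (Nat.beq (lam z) (lam 0)) = true := beqv_of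
    ⟨fun h => by rw [h], fun h => H.inj _ _ hz (by decide) h⟩
  have v3 : beqv (Nat.beq y z) (Nat.beq (lam y) (lam z)) = true := beqv_of
    ⟨fun h => by rw [h], fun h => H.inj _ _ hy hz h⟩
  have v4 : (!(tf && (Nat.beq y 0 && Nat.beq z 0))) = true := by
    rw [Bool.not_eq_true']
    by_contra hh
    rw [Bool.not_eq_false, Bool.and_eq_true, Bool.and_eq_true] at hh
    obtain ⟨h1, h2, h3⟩ := hh
    have e1 := Nat.eq_of_beq_eq_true h2
    have e2 := Nat.eq_of_beq_eq_true h3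
    rw [e1, e2] at hR
    exact H.nc h1 0 hR
  rw [v1, v2, v3, v4] at k'
  simp only [Bool.and_self, Bool.not_true, Bool.false_or, Bool.and_eq_true] at k'
  obtain ⟨k1, k2, k3, k4⟩ := k'
  have hA : AUT.getD (v / 256) (0, 0, 0, 0) ∈ AUT := getD_mem (Nat.blt_eq.mp k1)
  have hT : RT.getD ((v / 4) % 64) (0, 0, 0, 0, 0, 0, 0) ∈ RT := getD_mem (Nat.blt_eq.mp k2)
  generalize AUT.getD (v / 256) (0, 0, 0, 0) = a at k3 k4 hA
  generalize RT.getD ((v / 4) % 64) (0, 0, 0, 0, 0, 0, 0) = t at k3 k4 hT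
  have ha : autOK a = true := by
    rw [List.all_eq_true] at n0
    exact n0 a hA
  have k5 := Nat.eq_of_beq_eq_true k4
  rw [aut_cls ha CT (by decide) l0 hy l1 hz l2, hj] at k5
  apply tr_good ha
  have Ht := H.tr ha
  have Hct := tr_cls ha H Hc
  have hRt := tr_R ha H hR
  have hRt1 := Ht.rot _ _ _ hRt
  have hRt2 := Ht.rot _ _ _ hRt1
  have t0 : trL a lam (nib a.1 0) = nib a.2.2.1 (lam 0) := tr_L ha (by decide)
  have t1 : trL a lam (nib a.1 y) = nib a.2.2.1 (lam y) := tr_L ha hy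
  have t2 : trL a lam (nib a.1 z) = nib a.2.2.1 (lam z) := tr_L ha hz
  refine hroot t hT (trR a R) (trL a lam) Ht (by rw [← k5]; exact Hct) ?_ ?_ ?_ ?_
  · rcases rotEq_spec k3 with ⟨a1, a2, a3, a4, a5, a6⟩ | ⟨a1, a2, a3, a4, a5, a6⟩ |
      ⟨a1, a2, a3, a4, a5, a6⟩
    · rw [a1, a3, a5]; exact hRt
    · rw [a1, a3, a5]; exact hRt2
    · rw [a1, a3, a5]; exact hRt1
  · rcases rotEq_spec k3 with ⟨a1, a2, a3, a4, a5, a6⟩ | ⟨a1, a2, a3, a4, a5, a6⟩ |
      ⟨a1, a2, a3, a4, a5, a6⟩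
    · rw [a1, a2]; exact t0
    · rw [a5, a6]; exact t2
    · rw [a3, a4]; exact t1
  · rcases rotEq_spec k3 with ⟨a1, a2, a3, a4, a5, a6⟩ | ⟨a1, a2, a3, a4, a5, a6⟩ |
      ⟨a1, a2, a3, a4, a5, a6⟩
    · rw [a3, a4]; exact t1
    · rw [a1, a2]; exact t0
    · rw [a5, a6]; exact t2
  · rcases rotEq_spec k3 with ⟨a1, a2, a3, a4, a5, a6⟩ | ⟨a1, a2, a3, a4, a5, a6⟩ |
      ⟨a1, a2, a3, a4, a5, a6⟩
    · rw [a5, a6]; exact t2
    · rw [a3, a4]; exact t1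
    · rw [a1, a2]; exact t0

/-- configurations with first point `0` -/
theorem good2 {R : ℕ → ℕ → ℕ → Prop} {lam : ℕ → ℕ} (H : TP tf R lam) {j : ℕ}
    (Hc : ∀ x y z, R x y z → j ≤ cls CT x (lam x) y (lam y) z (lam z)) {y z : ℕ} (hR : R 0 y z)
    (hj : cls CT 0 (lam 0) y (lam y) z (lam z) = j) : Good WTs R := by
  obtain ⟨_, hy, hz⟩ := H.dom _ _ _ hR
  have l0 : lam 0 < 15 := H.lt 0 (by decide)
  have hnf' := hnf
  simp only [nfOK, Bool.and_eq_true] at hnf'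
  obtain ⟨⟨⟨n0, _⟩, n2⟩, _⟩ := hnf'
  have k := allN_spec n2 (lam 0) l0
  simp only [Bool.and_eq_true, Bool.or_eq_true] at k
  generalize Nat.mod (Nat.shiftRight N2 (Nat.mul 8 (lam 0))) 256 = v at k
  obtain ⟨k1, k2, k3⟩ := k
  have hA : AUT.getD v (0, 0, 0, 0) ∈ AUT := getD_mem (Nat.blt_eq.mp k1)
  generalize AUT.getD v (0, 0, 0, 0) = a at k2 k3 hA
  have ha : autOK a = true := by
    rw [List.all_eq_true] at n0
    exact n0 a hA
  have e0 := Nat.eq_of_beq_eq_true k2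
  apply tr_good ha
  have hRt := tr_R ha H hR
  rw [e0] at hRt
  have t0 : trL a lam 0 = nib a.2.2.1 (lam 0) := by
    have := tr_L (lam := lam) ha (x := 0) (by decide)
    rwa [e0] at this
  have t1 : trL a lam (nib a.1 y) = nib a.2.2.1 (lam y) := tr_L ha hy
  have t2 : trL a lam (nib a.1 z) = nib a.2.2.1 (lam z) := tr_L ha hz
  have hcl := aut_cls ha CT (x := 0) (by decide) l0 hy (H.lt y hy) hz (H.lt z hz)
  rw [e0] at hcl
  refine good3 hnf hroot (H.tr ha) (tr_cls ha H Hc) hRt ?_ ?_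
  · rw [t0, t1, t2, hcl, hj]
  · rw [t0]
    rcases k3 with k3 | k3
    · exact Or.inl (Nat.eq_of_beq_eq_true k3)
    · exact Or.inr (Nat.eq_of_beq_eq_true k3)

/-- every presentation containing a configuration of minimal class is in the list -/
theorem good1 {R : ℕ → ℕ → ℕ → Prop} {lam : ℕ → ℕ} (H : TP tf R lam) {j : ℕ}
    (Hc : ∀ x y z, R x y z → j ≤ cls CT x (lam x) y (lam y) z (lam z)) {x y z : ℕ} (hR : R x y z)
    (hj : cls CT x (lam x) y (lam y) z (lam z) = j) : Good WTs R := by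
  obtain ⟨hx, hy, hz⟩ := H.dom _ _ _ hR
  have hnf' := hnf
  simp only [nfOK, Bool.and_eq_true] at hnf'
  obtain ⟨⟨⟨n0, n1⟩, _⟩, _⟩ := hnf'
  have k := allN_spec n1 x hx
  simp only [Bool.and_eq_true] at k
  generalize Nat.mod (Nat.shiftRight N1 (Nat.mul 8 x)) 256 = v at k
  obtain ⟨k1, k2⟩ := k
  have hA : AUT.getD v (0, 0, 0, 0) ∈ AUT := getD_mem (Nat.blt_eq.mp k1)
  generalize AUT.getD v (0, 0, 0, 0) = a at k2 hA
  have ha : autOK a = true := by
    rw [List.all_eq_true] at n0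
    exact n0 a hA
  have e0 := Nat.eq_of_beq_eq_true k2
  apply tr_good ha
  have hRt := tr_R ha H hR
  rw [e0] at hRt
  have t0 : trL a lam 0 = nib a.2.2.1 (lam x) := by
    have := tr_L (lam := lam) ha (x := x) hx
    rwa [e0] at this
  have t1 : trL a lam (nib a.1 y) = nib a.2.2.1 (lam y) := tr_L ha hy
  have t2 : trL a lam (nib a.1 z) = nib a.2.2.1 (lam z) := tr_L ha hz
  have hcl := aut_cls ha CT hx (H.lt x hx) hy (H.lt y hy) hz (H.lt z hz)
  rw [e0] at hcl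
  refine good2 hnf hroot (H.tr ha) (tr_cls ha H Hc) hRt ?_
  rw [t0, t1, t2, hcl, hj]

/-- **Every presentation is isomorphic to a member of the list.** -/
theorem classify {R : ℕ → ℕ → ℕ → Prop} {lam : ℕ → ℕ} (H : TP tf R lam) : Good WTs R := by
  classical
  have hex : ∃ j, ∃ x y z, R x y z ∧ cls CT x (lam x) y (lam y) z (lam z) = j := by
    obtain ⟨p, hp, hi⟩ := line_has_point _ (H.lt 0 (by decide))
    obtain ⟨z, hz⟩ := (H.ex 0 p (by decide) hp).1 hi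
    exact ⟨_, 0, p, z, hz, rfl⟩
  obtain ⟨x, y, z, hR, hj⟩ := Nat.find_spec hex
  refine good1 hnf hroot H (j := Nat.find hex) ?_ hR hj
  intro a b c h
  exact Nat.find_min' hex ⟨a, b, c, h, rfl⟩

end

end En

end Pool.Agent.TriSurf
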