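import Pool.Agent.TriSurf.EnDefs

/-!
# Soundness of the enumeration
-/

set_option autoImplicit false

namespace Pool.Agent.TriSurf

namespace En

/-! ### Digits -/

theorem digit_add {b W k v : ℕ} (hb : 0 < b) (h : (W / b ^ k) % b = 0) (hv : v < b) (i : ℕ) :
    ((W + v * b ^ k) / b ^ i) % b = if i = k then v else (W / b ^ i) % b := by
  have hP : 0 < b ^ k := Nat.pow_pos hb
  have e0 : (W + v * b ^ k) / b ^ k = W / b ^ k + v := Nat.add_mul_div_right _ _ hP
  rcases Nat.lt_trichotomy i k with hi | hi | hi
  · rw [if_neg (by omega)]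
    obtain ⟨m, rfl⟩ : ∃ m, k = i + (m + 1) := ⟨k - i - 1, by omega⟩
    have hQ : 0 < b ^ i := Nat.pow_pos hb
    have e1 : W + v * b ^ (i + (m + 1)) = W + (v * b ^ m * b) * b ^ i := by
      rw [pow_add, pow_succ]; ring
    rw [e1, Nat.add_mul_div_right _ _ hQ, Nat.add_mul_mod_self_right]
  · subst hi
    rw [if_pos rfl, e0, Nat.add_mod, h, Nat.zero_add, Nat.mod_mod, Nat.mod_eq_of_lt hv]
  · rw [if_neg (by omega)]
    obtain ⟨m, rfl⟩ : ∃ m, i = k + (m + 1) := ⟨i - k - 1, by omega⟩
    have e1 : b ^ (k + (m + 1)) = b ^ k * (b * b ^ m) := by rw [pow_add, pow_succ]; ring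
    rw [e1, ← Nat.div_div_eq_div_mul, ← Nat.div_div_eq_div_mul, e0, ← Nat.div_div_eq_div_mul,
      ← Nat.div_div_eq_div_mul]
    congr 2
    have e2 : W / b ^ k = b * (W / b ^ k / b) := by
      have := Nat.div_add_mod (W / b ^ k) b
      omega
    rw [e2, Nat.mul_add_div hb, Nat.div_eq_of_lt hv, Nat.mul_div_cancel_left _ hb]
    omega

theorem nib_eq (W k : ℕ) : nib W k = (W / 16 ^ k) % 16 := by
  have : (2 : ℕ) ^ (4 * k) = 16 ^ k := by rw [pow_mul]; norm_num
  show (W >>> (4 * k)) % 16 = _
  rw [Nat.shiftRight_eq_div_pow, this]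

theorem nib_lt (W k : ℕ) : nib W k < 16 := by rw [nib_eq]; exact Nat.mod_lt _ (by decide)

theorem nib_put {W k v : ℕ} (h : nib W k = 0) (hv : v < 16) (i : ℕ) :
    nib (put W k v) i = if i = k then v else nib W i := by
  have : (2 : ℕ) ^ (4 * k) = 16 ^ k := by rw [pow_mul]; norm_num
  have e : put W k v = W + v * 16 ^ k := by
    show W + v <<< (4 * k) = _
    rw [Nat.shiftLeft_eq, this]
  rw [e, nib_eq, nib_eq, digit_add (by decide) (by rw [← nib_eq]; exact h) hv]

theorem bit_eq (W k : ℕ) : bit W k = Nat.beq ((W / 2 ^ k) % 2) 1 := by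
  show Nat.beq ((W >>> k) % 2) 1 = _
  rw [Nat.shiftRight_eq_div_pow]

theorem bit_add {U l k : ℕ} (h : bit U l = false)
    (hk : bit (Nat.add U (Nat.shiftLeft 1 l)) k = true) : k = l ∨ bit U k = true := by
  by_cases hkl : k = l
  · exact Or.inl hkl
  · right
    have e : Nat.add U (Nat.shiftLeft 1 l) = U + 1 * 2 ^ l := by
      show U + 1 <<< l = _
      rw [Nat.shiftLeft_eq]
    rw [bit_eq] at h
    have h0 : (U / 2 ^ l) % 2 = 0 := by
      rcases Nat.mod_two_eq_zero_or_one (U / 2 ^ l) with h1 | h1
      · exact h1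
      · rw [h1] at h; cases h
    rw [e, bit_eq, digit_add (by decide) h0 (by decide), if_neg hkl] at hk
    rw [bit_eq]; exact hk

/-! ### Presentations -/

/-- a triangle presentation on the points of the quadrangle; `lam x` is the line of the points `y`
with `R x y z` for some `z` -/
structure TP (tf : Bool) (R : ℕ → ℕ → ℕ → Prop) (lam : ℕ → ℕ) : Prop where
  dom : ∀ x y z, R x y z → x < 15 ∧ y < 15 ∧ z < 15
  rot : ∀ x y z, R x y z → R y z x
  fn : ∀ x y z z', R x y z → R x y z' → z = z'
  lt : ∀ x, x < 15 → lam x < 15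
  inj : ∀ x y, x < 15 → y < 15 → lam x = lam y → x = y
  ex : ∀ x y, x < 15 → y < 15 → (incB (lam x) y = true ↔ ∃ z, R x y z)
  nc : tf = true → ∀ x, ¬ R x x x

/-- `R` is isomorphic to the table `V` (reversed if `r ≠ 0`) -/
def IsoT (V r : ℕ) (R : ℕ → ℕ → ℕ → Prop) : Prop :=
  ∃ σ : ℕ → ℕ, (∀ x, x < 15 → σ x < 15) ∧ (∀ x y, x < 15 → y < 15 → σ x = σ y → x = y) ∧
    ∀ x y z, x < 15 → y < 15 → z < 15 →
      (R x y z ↔ if r = 0 then nib V (15 * σ x + σ y) = σ z + 1 else nib V (15 * σ y + σ x) = σ z + 1)

/-- `R` is isomorphic to a member of the list -/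
def Good (WTs : List ℕ) (R : ℕ → ℕ → ℕ → Prop) : Prop :=
  ∃ i, i < WTs.length ∧ ∃ r, IsoT (WTs.getD i 0) r R

/-- the state is part of the presentation -/
structure St (R : ℕ → ℕ → ℕ → Prop) (lam : ℕ → ℕ) (L U W : ℕ) : Prop where
  hL : ∀ a, a < 15 → nib L a ≠ 0 → nib L a = lam a + 1
  hU : ∀ l, l < 15 → bit U l = true → ∃ a, a < 15 ∧ nib L a ≠ 0 ∧ lam a = l
  hW : ∀ a b, a < 15 → b < 15 → nib W (15 * a + b) ≠ 0 → ∃ c, c < 15 ∧ nib W (15 * a + b) = c + 1 ∧
    R a b c ∧ nib W (15 * b + c) = a + 1 ∧ nib W (15 * c + a) = b + 1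

theorem foldO_mem {f : ℕ → ℕ → Option ℕ} {l : List ℕ} : ∀ {cs r : ℕ}, foldO f l cs = some r →
    ∀ {z : ℕ}, z ∈ l → ∃ c1 c2, f z c1 = some c2 := by
  induction l with
  | nil => intro cs r _ z hz; simp at hz
  | cons a l ih =>
    intro cs r h z hz
    have h' : obind (f a cs) (foldO f l) = some r := h
    cases hf : f a cs with
    | none => rw [hf] at h'; cases h'
    | some c =>
      rw [hf] at h'
      rcases List.mem_cons.1 hz with rfl | hz
      · exact ⟨cs, c, hf⟩
      · exact ih (show foldO f l c = some r from h') hz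

theorem thL_mem : ∀ p, p < 15 → ∀ l, l < 15 → incB l p = true → l ∈ thL p := by
  have h : allN 15 (fun p => allN 15 fun l => !incB l p || (thL p).any fun m => Nat.beq m l) = true := by
    decide +kernel
  intro p hp l hl hi
  have := allN_spec (allN_spec h p hp) l hl
  rw [hi] at this
  simp only [Bool.not_true, Bool.false_or, List.any_eq_true] at this
  obtain ⟨m, hm, h2⟩ := this
  rw [← Nat.eq_of_beq_eq_true h2]; exact hm

theorem ptL_mem : ∀ l, l < 15 → ∀ p, p < 15 → incB l p = true → p ∈ ptL l := by
  have h : allN 15 (fun l => allN 15 fun p => !incB l p || (ptL l).any fun m => Nat.beq m p) = true := by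
    decide +kernel
  intro l hl p hp hi
  have := allN_spec (allN_spec h l hl) p hp
  rw [hi] at this
  simp only [Bool.not_true, Bool.false_or, List.any_eq_true] at this
  obtain ⟨m, hm, h2⟩ := this
  rw [← Nat.eq_of_beq_eq_true h2]; exact hm

theorem all15_mem {z : ℕ} (hz : z < 15) : z ∈ all15 := by
  unfold all15
  interval_cases z <;> decide

section

variable {tf : Bool} {CT : ℕ} {WTs : List ℕ} {R : ℕ → ℕ → ℕ → Prop} {lam : ℕ → ℕ}
  (H : TP tf R lam) {j : ℕ}
  (Hc : ∀ x y z, R x y z → j ≤ cls CT x (lam x) y (lam y) z (lam z))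

include H in
/-- adding the line of a point -/
theorem St.addL {L U W a : ℕ} (hS : St R lam L U W) (ha : a < 15) (h0 : nib L a = 0)
    (hb : bit U (lam a) = false) :
    St R lam (put L a (Nat.succ (lam a))) (Nat.add U (Nat.shiftLeft 1 (lam a))) W := by
  have hv : Nat.succ (lam a) < 16 := Nat.succ_lt_succ (H.lt a ha)
  refine ⟨?_, ?_, hS.hW⟩
  · intro b hb1 hb2
    rw [nib_put h0 hv] at hb2 ⊢
    split_ifs at hb2 ⊢ with hh
    · rw [hh]
    · exact hS.hL b hb1 hb2
  · intro l hl hbl
    rcases bit_add hb hbl with h1 | h1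
    · refine ⟨a, ha, ?_, h1.symm⟩
      rw [nib_put h0 hv, if_pos rfl]
      exact Nat.succ_ne_zero _
    · obtain ⟨b, k1, k2, k3⟩ := hS.hU l hl h1
      refine ⟨b, k1, ?_, k3⟩
      rw [nib_put h0 hv]
      split_ifs
      · exact Nat.succ_ne_zero _
      · exact k2

include H in
theorem not_used {L U W a : ℕ} (hS : St R lam L U W) (ha : a < 15) (h0 : nib L a = 0) :
    bit U (lam a) = false := by
  cases hb : bit U (lam a) with
  | false => rfl
  | true =>
    obtain ⟨b, k1, k2, k3⟩ := hS.hU _ (H.lt a ha) hb
    rw [H.inj b a k1 ha k3] at k2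
    exact absurd h0 k2

include H Hc in
theorem step3_sound {ih : ℕ → ℕ → ℕ → ℕ → Option ℕ}
    (hih : ∀ L U W cs r, St R lam L U W → ih L U W cs = some r → Good WTs R)
    {x y z L U W cs r : ℕ} (hR : R x y z) (hS : St R lam L U W)
    (h0 : nib W (15 * x + y) = 0)
    (h : step3 tf CT ih j x y z (lam x) (lam y) (lam z) L U W cs = some r) : Good WTs R := by
  obtain ⟨hx, hy, hz⟩ := H.dom _ _ _ hR
  have hR1 := H.rot _ _ _ hR
  have hR2 := H.rot _ _ _ hR1
  have c1 : incB (lam y) z = true := (H.ex y z hy hz).2 ⟨_, hR1⟩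
  have c2 : incB (lam z) x = true := (H.ex z x hz hx).2 ⟨_, hR2⟩
  have c3 : nib W (15 * y + z) = 0 := by
    by_contra hne
    obtain ⟨c, k1, k2, k3, k4, k5⟩ := hS.hW y z hy hz hne
    have : c = x := H.fn _ _ _ _ k3 hR1
    rw [this, h0] at k5
    exact absurd k5 (by omega)
  have c4 : nib W (15 * z + x) = 0 := by
    by_contra hne
    obtain ⟨c, k1, k2, k3, k4, k5⟩ := hS.hW z x hz hx hne
    have : c = y := H.fn _ _ _ _ k3 hR2
    rw [this, h0] at k4
    exact absurd k4 (by omega)
  have c5 : Nat.ble j (cls CT x (lam x) y (lam y) z (lam z)) = true := by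
    rw [Nat.ble_eq]; exact Hc _ _ _ hR
  have c3' : Nat.beq (nib W (Nat.add (Nat.mul 15 y) z)) 0 = true := by
    have : nib W (Nat.add (Nat.mul 15 y) z) = 0 := c3
    rw [this]; rfl
  have c4' : Nat.beq (nib W (Nat.add (Nat.mul 15 z) x)) 0 = true := by
    have : nib W (Nat.add (Nat.mul 15 z) x) = 0 := c4
    rw [this]; rfl
  unfold step3 at h
  rw [c1, c2, c3', c4', c5] at h
  simp only [Bool.and_self, cond_true] at h
  by_cases hxyz : x = y ∧ y = z
  · obtain ⟨e1, e2⟩ := hxyz
    subst e2; subst e1
    rw [Nat.beq_refl] at h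
    simp only [Bool.and_self, cond_true] at h
    cases htf : tf with
    | true => exact absurd hR (H.nc htf _)
    | false =>
      rw [htf] at h
      simp only [cond_false] at h
      refine hih _ _ _ _ _ ⟨hS.hL, hS.hU, ?_⟩ h
      have h16 : Nat.mul 16 x = 15 * x + x := by show 16 * x = _; omega
      intro a b ha hb hne
      have hv : Nat.succ x < 16 := by omega
      have key : ∀ i, nib (put W (Nat.mul 16 x) (Nat.succ x)) i =
          if i = 15 * x + x then x + 1 else nib W i := by
        intro i
        rw [h16, nib_put h0 hv]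
      rw [key] at hne
      simp only [key]
      split_ifs at hne with h1
      · have e1 : a = x := by omega
        have e2 : b = x := by omega
        rw [e1, e2]
        exact ⟨x, hx, by rw [if_pos rfl], hR, by rw [if_pos rfl], by rw [if_pos rfl]⟩
      · obtain ⟨c, k1, k2, k3, k4, k5⟩ := hS.hW a b ha hb hne
        refine ⟨c, k1, by rw [if_neg h1]; exact k2, k3, ?_, ?_⟩
        · rw [if_neg]
          · exact k4
          · intro hh
            rw [hh, h0] at k4
            omega
        · rw [if_neg]
          · exact k5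
          · intro hh
            rw [hh, h0] at k5
            omega
  · have hcond : (Nat.beq x y && Nat.beq y z) = false := by
      by_contra hh
      rw [Bool.not_eq_false, Bool.and_eq_true] at hh
      exact hxyz ⟨Nat.eq_of_beq_eq_true hh.1, Nat.eq_of_beq_eq_true hh.2⟩
    rw [hcond] at h
    simp only [cond_false] at h
    refine hih _ _ _ _ _ ⟨hS.hL, hS.hU, ?_⟩ h
    have key : ∀ i, nib (put (put (put W (Nat.add (Nat.mul 15 x) y) (Nat.succ z))
        (Nat.add (Nat.mul 15 y) z) (Nat.succ x)) (Nat.add (Nat.mul 15 z) x) (Nat.succ y)) i =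
        if i = 15 * z + x then y + 1 else if i = 15 * y + z then x + 1 else
        if i = 15 * x + y then z + 1 else nib W i := by
      intro i
      have n1 : ∀ i, nib (put W (Nat.add (Nat.mul 15 x) y) (Nat.succ z)) i =
          if i = 15 * x + y then z + 1 else nib W i := fun i => nib_put h0 (by omega) i
      have n2 : ∀ i, nib (put (put W (Nat.add (Nat.mul 15 x) y) (Nat.succ z))
          (Nat.add (Nat.mul 15 y) z) (Nat.succ x)) i =
          if i = 15 * y + z then x + 1 else if i = 15 * x + y then z + 1 else nib W i := by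
        intro i
        have g0 : nib (put W (Nat.add (Nat.mul 15 x) y) (Nat.succ z)) (Nat.add (Nat.mul 15 y) z) = 0 := by
          rw [n1, if_neg]
          · exact c3
          · show ¬ (15 * y + z = 15 * x + y)
            omega
        rw [nib_put g0 (by omega), n1]
        rfl
      have g1 : nib (put (put W (Nat.add (Nat.mul 15 x) y) (Nat.succ z))
          (Nat.add (Nat.mul 15 y) z) (Nat.succ x)) (Nat.add (Nat.mul 15 z) x) = 0 := by
        rw [n2, if_neg, if_neg]
        · exact c4
        · show ¬ (15 * z + x = 15 * x + y)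
          omega
        · show ¬ (15 * z + x = 15 * y + z)
          omega
      rw [nib_put g1 (by omega), n2]
      rfl
    intro a b ha hb hne
    rw [key] at hne
    simp only [key]
    by_cases t1 : 15 * a + b = 15 * z + x
    · have e1 : a = z := by omega
      have e2 : b = x := by omega
      subst e1; subst e2
      refine ⟨y, hy, by rw [if_pos rfl], hR2, ?_, ?_⟩
      · rw [if_neg (by omega), if_neg (by omega), if_pos rfl]
      · rw [if_neg (by omega), if_pos rfl]
    by_cases t2 : 15 * a + b = 15 * y + z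
    · have e1 : a = y := by omega
      have e2 : b = z := by omega
      subst e1; subst e2
      refine ⟨x, hx, by rw [if_neg t1, if_pos rfl], hR1, ?_, ?_⟩
      · rw [if_pos rfl]
      · rw [if_neg (by omega), if_neg (by omega), if_pos rfl]
    by_cases t3 : 15 * a + b = 15 * x + y
    · have e1 : a = x := by omega
      have e2 : b = y := by omega
      subst e1; subst e2
      refine ⟨z, hz, by rw [if_neg t1, if_neg t2, if_pos rfl], hR, ?_, ?_⟩
      · rw [if_neg (by omega), if_pos rfl]
      · rw [if_pos rfl]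
    rw [if_neg t1, if_neg t2, if_neg t3] at hne
    obtain ⟨c, k1, k2, k3, k4, k5⟩ := hS.hW a b ha hb hne
    have q : ∀ i v, nib W i = v + 1 → (if i = 15 * z + x then y + 1 else if i = 15 * y + z then x + 1
        else if i = 15 * x + y then z + 1 else nib W i) = v + 1 := by
      intro i v hi
      rw [if_neg, if_neg, if_neg]
      · exact hi
      · rintro rfl; omega
      · rintro rfl; omega
      · rintro rfl; omega
    exact ⟨c, k1, q _ _ k2, k3, q _ _ k4, q _ _ k5⟩

include H Hc in
theorem tryY_sound {ih : ℕ → ℕ → ℕ → ℕ → Option ℕ}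
    (hih : ∀ L U W cs r, St R lam L U W → ih L U W cs = some r → Good WTs R)
    {x y z L U W cs r : ℕ} (hR : R x y z) (hS : St R lam L U W)
    (h0 : nib W (15 * x + y) = 0)
    (h : tryY tf CT ih j x y z (lam x) (lam z) L U W cs = some r) : Good WTs R := by
  obtain ⟨hx, hy, hz⟩ := H.dom _ _ _ hR
  have hR1 := H.rot _ _ _ hR
  unfold tryY at h
  rw [forceN_eq] at h
  cases hb : Nat.beq (nib L y) 0 with
  | true =>
    rw [hb] at h
    simp only [cond_true] at h
    have hL0 := Nat.eq_of_beq_eq_true hb
    have hin : lam y ∈ thL z := thL_mem z hz _ (H.lt y hy) ((H.ex y z hy hz).2 ⟨_, hR1⟩)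
    obtain ⟨c1, c2, h2⟩ := foldO_mem h hin
    have hu := not_used H hS hy hL0
    rw [hu] at h2
    simp only [cond_false] at h2
    exact step3_sound H Hc hih hR (hS.addL H hy hL0 hu) h0 h2
  | false =>
    rw [hb] at h
    simp only [cond_false] at h
    have hne : nib L y ≠ 0 := by
      intro hh; rw [hh] at hb; cases hb
    have := hS.hL y hy hne
    rw [this] at h
    exact step3_sound H Hc hih hR hS h0 h

include H Hc in
theorem tryZ_sound {ih : ℕ → ℕ → ℕ → ℕ → Option ℕ}
    (hih : ∀ L U W cs r, St R lam L U W → ih L U W cs = some r → Good WTs R)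
    {x y z L U W cs r : ℕ} (hR : R x y z) (hS : St R lam L U W)
    (h0 : nib W (15 * x + y) = 0)
    (h : tryZ tf CT ih j x y (lam x) L U W z cs = some r) : Good WTs R := by
  obtain ⟨hx, hy, hz⟩ := H.dom _ _ _ hR
  have hR2 := H.rot _ _ _ (H.rot _ _ _ hR)
  unfold tryZ at h
  rw [forceN_eq] at h
  cases hb : Nat.beq (nib L z) 0 with
  | true =>
    rw [hb] at h
    simp only [cond_true] at h
    have hL0 := Nat.eq_of_beq_eq_true hb
    have hin : lam z ∈ thL x := thL_mem x hx _ (H.lt z hz) ((H.ex z x hz hx).2 ⟨_, hR2⟩)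
    obtain ⟨c1, c2, h2⟩ := foldO_mem h hin
    have hu := not_used H hS hz hL0
    rw [hu] at h2
    simp only [cond_false] at h2
    exact tryY_sound H Hc hih hR (hS.addL H hz hL0 hu) h0 h2
  | false =>
    rw [hb] at h
    simp only [cond_false] at h
    have hne : nib L z ≠ 0 := by
      intro hh; rw [hh] at hb; cases hb
    have := hS.hL z hz hne
    rw [this] at h
    exact tryY_sound H Hc hih hR hS h0 h

theorem nb_false {a b : ℕ} (h : (!Nat.beq a b) = true) : a ≠ b := by
  rintro rfl
  simp at h

include H in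
theorem leaf_sound {L U W i r σ : ℕ} (hS : St R lam L U W) (h : leafOK WTs L W i r σ = true) :
    Good WTs R := by
  simp only [leafOK, isoOK, Bool.and_eq_true] at h
  obtain ⟨⟨h1, h2⟩, ⟨h3, h4⟩, h5⟩ := h
  refine ⟨i, Nat.blt_eq.mp h2, r, nib σ, ?_, ?_, ?_⟩
  · intro x hx
    exact Nat.blt_eq.mp (allN_spec h3 x hx)
  · intro x y hx hy hxy
    have := allN_spec (allN_spec h4 x hx) y hy
    rw [Bool.or_eq_true] at this
    rcases this with h | h
    · exact Nat.eq_of_beq_eq_true h
    · exact absurd hxy (nb_false h)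
  · intro x y z hx hy hz
    have hinj : ∀ a b, a < 15 → b < 15 → nib σ a = nib σ b → a = b := by
      intro a b ha hb hab
      have := allN_spec (allN_spec h4 a ha) b hb
      rw [Bool.or_eq_true] at this
      rcases this with h | h
      · exact Nat.eq_of_beq_eq_true h
      · exact absurd hab (nb_false h)
    -- the table of the state is the relation
    have hfull : ∀ c, c < 15 → (R x y c ↔ nib W (15 * x + y) = c + 1) := by
      intro c hc
      constructor
      · intro hR
        have g1 := allN_spec h1 x hx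
        rw [Bool.and_eq_true, List.all_eq_true] at g1
        have g2 := nb_false g1.1
        have g3 := hS.hL x hx g2
        have g4 : y ∈ ptL (Nat.pred (nib L x)) := by
          rw [g3]
          exact ptL_mem _ (H.lt x hx) y hy ((H.ex x y hx hy).2 ⟨_, hR⟩)
        have g5 := nb_false (g1.2 y g4)
        obtain ⟨d, k1, k2, k3, _, _⟩ := hS.hW x y hx hy g5
        rw [k2, H.fn _ _ _ _ k3 hR]
      · intro hn
        obtain ⟨d, k1, k2, k3, _, _⟩ := hS.hW x y hx hy (by rw [hn]; exact Nat.succ_ne_zero _)
        have : d = c := by omega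
        rw [← this]; exact k3
    rw [hfull z hz]
    have g := allN_spec (allN_spec h5 x hx) y hy
    by_cases hr : r = 0
    · subst hr
      rw [if_pos rfl]
      simp only [Nat.beq_refl, cond_true] at g
      cases hb : Nat.beq (nib W (15 * x + y)) 0 with
      | true =>
        rw [hb] at g
        simp only [cond_true] at g
        have e1 := Nat.eq_of_beq_eq_true g
        have e2 := Nat.eq_of_beq_eq_true hb
        rw [e1, e2]
        constructor <;> intro h <;> omega
      | false =>
        rw [hb] at g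
        simp only [cond_false] at g
        have e1 := Nat.eq_of_beq_eq_true g
        have e2 : nib W (15 * x + y) ≠ 0 := by
          intro hh; rw [hh] at hb; cases hb
        obtain ⟨d, k1, k2, k3, _, _⟩ := hS.hW x y hx hy e2
        rw [k2] at e1 ⊢
        rw [e1]
        constructor
        · intro h
          have : d = z := by omega
          rw [this]; rfl
        · intro h
          have : nib σ d = nib σ z := Nat.succ.inj h
          rw [hinj d z k1 hz this]
    · rw [if_neg hr]
      have hr' : Nat.beq r 0 = false := beq_false hr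
      rw [hr'] at g
      simp only [cond_false] at g
      cases hb : Nat.beq (nib W (15 * x + y)) 0 with
      | true =>
        rw [hb] at g
        simp only [cond_true] at g
        have e1 := Nat.eq_of_beq_eq_true g
        have e2 := Nat.eq_of_beq_eq_true hb
        rw [e1, e2]
        constructor <;> intro h <;> omega
      | false =>
        rw [hb] at g
        simp only [cond_false] at g
        have e1 := Nat.eq_of_beq_eq_true g
        have e2 : nib W (15 * x + y) ≠ 0 := by
          intro hh; rw [hh] at hb; cases hb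
        obtain ⟨d, k1, k2, k3, _, _⟩ := hS.hW x y hx hy e2
        rw [k2] at e1 ⊢
        rw [e1]
        constructor
        · intro h
          have : d = z := by omega
          rw [this]; rfl
        · intro h
          have : nib σ d = nib σ z := Nat.succ.inj h
          rw [hinj d z k1 hz this]

include H Hc in
theorem node_sound {ih : ℕ → ℕ → ℕ → ℕ → Option ℕ}
    (hih : ∀ L U W cs r, St R lam L U W → ih L U W cs = some r → Good WTs R)
    {L U W cs r : ℕ} (hS : St R lam L U W) (h : node tf CT WTs ih j L U W cs = some r) :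
    Good WTs R := by
  unfold node at h
  simp only [forceN_eq] at h
  cases hb : Nat.beq (Nat.mod cs 256) 255 with
  | true =>
    rw [hb] at h
    simp only [cond_true] at h
    cases hl : leafOK WTs L W (Nat.mod (Nat.div cs 256) 256)
        (Nat.mod (Nat.div (Nat.div cs 256) 256) 256)
        (Nat.mod (Nat.div (Nat.div cs 256) 65536) 18446744073709551616) with
    | true => exact leaf_sound H hS hl
    | false => rw [hl] at h; cases h
  | false =>
    rw [hb] at h
    simp only [cond_false] at h
    generalize Nat.div (Nat.mod cs 256) 15 = x at h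
    have hylt : Nat.mod (Nat.mod cs 256) 15 < 15 := Nat.mod_lt _ (by decide)
    generalize Nat.mod (Nat.mod cs 256) 15 = y at h hylt
    cases hc : (Nat.blt x 15 && (!Nat.beq (nib L x) 0 && (incB (Nat.pred (nib L x)) y &&
        Nat.beq (nib W (Nat.add (Nat.mul 15 x) y)) 0))) with
    | false => rw [hc] at h; cases h
    | true =>
      rw [hc] at h
      simp only [cond_true] at h
      simp only [Bool.and_eq_true] at hc
      obtain ⟨hx, h1, h2, h3⟩ := hc
      have hx' : x < 15 := Nat.blt_eq.mp hx
      have h1' := hS.hL x hx' (nb_false h1)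
      rw [h1'] at h h2
      have h2' : incB (lam x) y = true := h2
      obtain ⟨z, hR⟩ := (H.ex x y hx' hylt).1 h2'
      have h0 : nib W (15 * x + y) = 0 := Nat.eq_of_beq_eq_true h3
      obtain ⟨_, hy, hz⟩ := H.dom _ _ _ hR
      have hR1 := H.rot _ _ _ hR
      have hmem : z ∈ (bif Nat.beq (nib L y) 0 then all15 else ptL (Nat.pred (nib L y))) := by
        cases hy0 : Nat.beq (nib L y) 0 with
        | true => exact all15_mem hz
        | false =>
          have hne : nib L y ≠ 0 := by
            intro hh; rw [hh] at hy0; cases hy0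
          show z ∈ ptL (Nat.pred (nib L y))
          rw [hS.hL y hylt hne]
          exact ptL_mem _ (H.lt y hylt) z hz ((H.ex y z hylt hz).2 ⟨_, hR1⟩)
      obtain ⟨c1, c2, h5⟩ := foldO_mem h hmem
      exact tryZ_sound H Hc hih hR hS h0 h5

include H Hc in
theorem run_sound (f : ℕ) : ∀ {L U W cs r : ℕ}, St R lam L U W →
    run tf CT WTs j f L U W cs = some r → Good WTs R := by
  induction f with
  | zero => intro L U W cs r _ h; cases h
  | succ f ih =>
    intro L U W cs r hS h
    exact node_sound H Hc (fun L U W cs r hS h => ih hS h) hS h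

include H Hc in
theorem okRun_sound {L U W cs : ℕ} (hS : St R lam L U W) (h : okRun tf CT WTs j L U W cs = true) :
    Good WTs R := by
  unfold okRun at h
  split at h
  · rename_i r hr
    exact run_sound H Hc 30 hS hr
  · cases h

end

end En

end Pool.Agent.TriSurf
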