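import Mathlib

/-!
# Free completion of partial actions of triangle presentations

`Loc` is the local structure of a triangular complex with one vertex: letters, inverses, and the relation
`M a b c`: the letters `a`, `b` are the first and the last side of a triangle based at a vertex, and `c` is
the side from the end of `a` to the end of `b`.  The link (letters, `a - b` if `M a b c` for some `c`) is
bipartite and has no cycles of length four.

A partial action `PAct` which is locally convex extends to a full action.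
-/

set_option autoImplicit false

namespace Pool.Agent.TriSurf

/-- local structure of a one-vertex triangular complex -/
structure Loc where
  /-- letters -/
  L : Type
  /-- inverse letter -/
  inv : L → L
  /-- triangles: `a` and `b` start at the same vertex and `c` goes from the end of `a` to the end of `b` -/
  M : L → L → L → Prop
  /-- colour (positive or negative letter) -/
  col : L → Bool
  inv_inv : ∀ a, inv (inv a) = a
  col_inv : ∀ a, col (inv a) = !(col a)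
  col_M : ∀ a b c, M a b c → col b = !(col a)
  M_rot : ∀ a b c, M a b c → M (inv a) c b
  M_symm : ∀ a b c, M a b c → M b a (inv c)
  M_fun : ∀ a b c c', M a b c → M a b c' → c = c'
  no_four : ∀ a b c d x y z w, M a c x → M a d y → M b c z → M b d w → a = b ∨ c = d

namespace Loc

variable (Λ : Loc)

theorem M_rot2 {a b c : Λ.L} (h : Λ.M a b c) : Λ.M (Λ.inv b) (Λ.inv c) a := by
  have := Λ.M_rot _ _ _ (Λ.M_symm _ _ _ h)
  exact this

theorem M_back {a b c : Λ.L} (h : Λ.M (Λ.inv a) c b) : Λ.M a b c := by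
  have := Λ.M_rot _ _ _ h
  rwa [Λ.inv_inv] at this

/-- the second argument is determined by the first and the third one -/
theorem M_fun2 {a b b' c : Λ.L} (h : Λ.M a b c) (h' : Λ.M a b' c) : b = b' :=
  Λ.M_fun _ _ _ _ (Λ.M_rot _ _ _ h) (Λ.M_rot _ _ _ h')

theorem col_M3 {a b c : Λ.L} (h : Λ.M a b c) : Λ.col c = Λ.col a := by
  have h1 := Λ.col_M _ _ _ (Λ.M_rot _ _ _ h)
  rw [Λ.col_inv] at h1
  simpa using h1

end Loc

/-- A partial action: `E s a u` means that the letter `a` leads from `s` to `u`. -/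
structure PAct (Λ : Loc) where
  V : Type
  E : V → Λ.L → V → Prop
  det : ∀ s a u u', E s a u → E s a u' → u = u'
  sym : ∀ s a u, E s a u → E u (Λ.inv a) s
  tri : ∀ s a b c u w, Λ.M a b c → E s a u → E s b w → E u c w
  conv : ∀ s a b c x y, Λ.M c a x → Λ.M c b y → a ≠ b → (∃ u, E s a u) → (∃ w, E s b w) →
    ∃ z, E s c z

namespace PAct

variable {Λ : Loc} (P : PAct Λ)

theorem sym' {s : P.V} {a : Λ.L} {u : P.V} (h : P.E s (Λ.inv a) u) : P.E u a s := by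
  have := P.sym _ _ _ h
  rwa [Λ.inv_inv] at this

/-- missing edges -/
def N : Type := {p : P.V × Λ.L // ¬ ∃ u, P.E p.1 p.2 u}

/-- two missing edges lead to the same new vertex -/
def rel (p q : P.N) : Prop :=
  p = q ∨ ∃ e c', Λ.M e p.1.2 c' ∧ P.E p.1.1 e q.1.1 ∧ q.1.2 = c'

theorem rel_symm {p q : P.N} (h : P.rel p q) : P.rel q p := by
  rcases h with h | ⟨e, c', h1, h2, h3⟩
  · exact Or.inl h.symm
  · refine Or.inr ⟨Λ.inv e, p.1.2, ?_, P.sym _ _ _ h2, rfl⟩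
    rw [h3]
    exact Λ.M_rot _ _ _ h1

theorem rel_trans {p q r : P.N} (h : P.rel p q) (h' : P.rel q r) : P.rel p r := by
  rcases h with h | ⟨e, c', h1, h2, h3⟩
  · rw [h]; exact h'
  rcases h' with h' | ⟨f, c'', k1, k2, k3⟩
  · rw [← h']; exact Or.inr ⟨e, c', h1, h2, h3⟩
  left
  -- at `q` the absent letter `c'` is adjacent to the present letters `inv e` and `f`
  have a1 : Λ.M (Λ.inv e) q.1.2 p.1.2 := by rw [h3]; exact Λ.M_rot _ _ _ h1
  have hf : Λ.inv e = f := by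
    by_contra hne
    exact q.2 (P.conv q.1.1 (Λ.inv e) f q.1.2 _ _ (Λ.M_symm _ _ _ a1) (Λ.M_symm _ _ _ k1) hne
      ⟨_, P.sym _ _ _ h2⟩ ⟨_, k2⟩)
  subst hf
  have e1 : r.1.1 = p.1.1 := P.det _ _ _ _ k2 (P.sym _ _ _ h2)
  have e2 : r.1.2 = p.1.2 := by
    rw [k3]
    exact Λ.M_fun _ _ _ _ k1 a1
  exact (Subtype.ext (Prod.ext e1 e2)).symm

/-- the equivalence relation on missing edges -/
def setoid : Setoid P.N where
  r := P.rel
  iseqv := ⟨fun _ => Or.inl rfl, P.rel_symm, P.rel_trans⟩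

/-- new vertices -/
def Q : Type := Quotient P.setoid

/-- `q` is the new vertex at the end of the missing edge `c` at `v`. -/
def At (v : P.V) (c : Λ.L) (q : P.Q) : Prop :=
  ∃ h : ¬ ∃ u, P.E v c u, q = Quotient.mk P.setoid ⟨(v, c), h⟩

theorem At_or {v w : P.V} {c d : Λ.L} {q : P.Q} (h : P.At v c q) (h' : P.At w d q) :
    (v = w ∧ c = d) ∨ ∃ e, Λ.M e c d ∧ P.E v e w := by
  obtain ⟨h1, rfl⟩ := h
  obtain ⟨h2, h3⟩ := h'
  have h4 : P.rel ⟨(v, c), h1⟩ ⟨(w, d), h2⟩ := Quotient.exact h3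
  rcases h4 with h4 | ⟨e, c', k1, k2, k3⟩
  · left
    have := congrArg Subtype.val h4
    exact ⟨congrArg Prod.fst this, congrArg Prod.snd this⟩
  · right
    refine ⟨e, ?_, k2⟩
    have : d = c' := k3
    rw [this]; exact k1

theorem At_det {v : P.V} {c : Λ.L} {q q' : P.Q} (h : P.At v c q) (h' : P.At v c q') : q = q' := by
  obtain ⟨h1, rfl⟩ := h
  obtain ⟨h2, rfl⟩ := h'
  rfl

theorem At_nbr {v w : P.V} {c d e : Λ.L} {q : P.Q} (h : P.At v c q) (hM : Λ.M e c d)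
    (hE : P.E v e w) : P.At w d q := by
  obtain ⟨h1, rfl⟩ := h
  have h2 : ¬ ∃ u, P.E w d u := by
    rintro ⟨u, hu⟩
    have k1 : Λ.M (Λ.inv e) d c := Λ.M_rot _ _ _ hM
    exact h1 ⟨u, P.tri w (Λ.inv e) d c v u k1 (P.sym _ _ _ hE) hu⟩
  exact ⟨h2, Quotient.sound (Or.inr ⟨e, d, hM, hE, rfl⟩)⟩

/-- vertices of the extension -/
def V' : Type := P.V ⊕ P.Q

/-- edges of the extension -/
def E' : P.V' → Λ.L → P.V' → Prop
  | Sum.inl v, a, Sum.inl w => P.E v a w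
  | Sum.inl v, c, Sum.inr q => P.At v c q
  | Sum.inr q, g, Sum.inl v => P.At v (Λ.inv g) q
  | Sum.inr q, g, Sum.inr r => ∃ v c d, Λ.M c d g ∧ P.At v c q ∧ P.At v d r

theorem det' : ∀ s a u u', P.E' s a u → P.E' s a u' → u = u' := by
  rintro (v | q) g (w | r) (w' | r') h h'
  · exact congrArg Sum.inl (P.det _ _ _ _ h h')
  · exact absurd ⟨w, h⟩ h'.1
  · exact absurd ⟨w', h'⟩ h.1
  · exact congrArg Sum.inr (P.At_det h h')
  · rcases P.At_or h h' with ⟨h1, _⟩ | ⟨e, h1, _⟩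
    · exact congrArg Sum.inl h1
    · exfalso
      have c1 := Λ.col_M _ _ _ h1
      have c2 := Λ.col_M3 h1
      rw [c1] at c2
      simp at c2
  · exfalso
    obtain ⟨v, c, d, hM, hc, hd⟩ := h'
    rcases P.At_or h hc with ⟨_, h1⟩ | ⟨e, h1, h2⟩
    · subst h1
      have c1 := Λ.col_M3 hM
      rw [Λ.col_inv] at c1
      simp at c1
    · have k1 : Λ.M g (Λ.inv c) e := by
        have := Λ.M_rot _ _ _ (Λ.M_symm _ _ _ h1)
        rwa [Λ.inv_inv] at this
      have k2 : Λ.M g (Λ.inv c) (Λ.inv d) := Λ.M_symm _ _ _ (Λ.M_rot _ _ _ hM)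
      have k3 : e = Λ.inv d := Λ.M_fun _ _ _ _ k1 k2
      rw [k3] at h2
      exact hd.1 ⟨_, P.sym' h2⟩
  · exfalso
    obtain ⟨v, c, d, hM, hc, hd⟩ := h
    rcases P.At_or h' hc with ⟨_, h1⟩ | ⟨e, h1, h2⟩
    · subst h1
      have c1 := Λ.col_M3 hM
      rw [Λ.col_inv] at c1
      simp at c1
    · have k1 : Λ.M g (Λ.inv c) e := by
        have := Λ.M_rot _ _ _ (Λ.M_symm _ _ _ h1)
        rwa [Λ.inv_inv] at this
      have k2 : Λ.M g (Λ.inv c) (Λ.inv d) := Λ.M_symm _ _ _ (Λ.M_rot _ _ _ hM)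
      have k3 : e = Λ.inv d := Λ.M_fun _ _ _ _ k1 k2
      rw [k3] at h2
      exact hd.1 ⟨_, P.sym' h2⟩
  · obtain ⟨v, c, d, hM, hc, hd⟩ := h
    obtain ⟨v', c', d', hM', hc', hd'⟩ := h'
    rcases P.At_or hc hc' with ⟨h1, h2⟩ | ⟨e, h1, h2⟩
    · subst h1; subst h2
      have := Λ.M_fun2 hM hM'
      subst this
      exact congrArg Sum.inr (P.At_det hd hd')
    · exfalso
      have k1 := Λ.col_M _ _ _ (Λ.M_rot _ _ _ hM)
      have k2 := Λ.col_M _ _ _ (Λ.M_rot _ _ _ hM')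
      have k3 := Λ.col_M _ _ _ (Λ.M_rot2 h1)
      rw [k3] at k2
      rw [k2] at k1
      simp at k1

theorem symE : ∀ s a u, P.E' s a u → P.E' u (Λ.inv a) s := by
  rintro (v | q) g (w | r) h
  · exact P.sym _ _ _ h
  · show P.At v (Λ.inv (Λ.inv g)) r
    rw [Λ.inv_inv]; exact h
  · exact h
  · obtain ⟨v, c, d, hM, hc, hd⟩ := h
    exact ⟨v, d, c, Λ.M_symm _ _ _ hM, hd, hc⟩

theorem tri' : ∀ s a b c u w, Λ.M a b c → P.E' s a u → P.E' s b w → P.E' u c w := by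
  rintro (v | q) a b c (u | r) (w | r') hM h h'
  · exact P.tri _ _ _ _ _ _ hM h h'
  · exact P.At_nbr h' hM h
  · exact P.At_nbr h (Λ.M_symm _ _ _ hM) h'
  · exact ⟨v, a, b, hM, h, h'⟩
  · rcases P.At_or h h' with ⟨_, h1⟩ | ⟨e, h1, h2⟩
    · exfalso
      have h2 : a = b := by rw [← Λ.inv_inv a, h1, Λ.inv_inv]
      have c1 := Λ.col_M _ _ _ hM
      rw [h2] at c1
      simp at c1
    · have k1 : Λ.M (Λ.inv a) e b := by
        have := Λ.M_symm _ _ _ h1
        rwa [Λ.inv_inv] at this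
      have k2 : Λ.M (Λ.inv a) c b := Λ.M_rot _ _ _ hM
      have := Λ.M_fun2 k1 k2
      subst this
      exact h2
  · obtain ⟨v, c0, d0, hM', hc, hd⟩ := h'
    rcases P.At_or h hc with ⟨h1, h2⟩ | ⟨e, h1, h2⟩
    · subst h1; subst h2
      have := Λ.M_fun2 hM' (Λ.M_rot _ _ _ hM)
      subst this
      exact hd
    · exfalso
      have c1 := Λ.col_M3 hM'
      have c2 := Λ.col_M3 h1
      have c3 := Λ.col_M _ _ _ h1
      have c4 := Λ.col_M _ _ _ hM
      rw [Λ.col_inv] at c3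
      rw [c1, c2] at c4
      cases h5 : Λ.col a <;> cases h6 : Λ.col e <;> simp [h5, h6] at c3 c4
  · obtain ⟨v, c0, d0, hM', hc, hd⟩ := h
    rcases P.At_or hc h' with ⟨h1, h2⟩ | ⟨e, h1, h2⟩
    · subst h1; subst h2
      have := Λ.M_fun2 hM' (Λ.M_rot2 hM)
      subst this
      exact hd
    · exfalso
      have c1 := Λ.col_M3 hM'
      have c2 := Λ.col_M3 h1
      have c3 := Λ.col_M _ _ _ h1
      have c4 := Λ.col_M _ _ _ hM
      rw [Λ.col_inv] at c2
      rw [c1, c3] at c4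
      cases h5 : Λ.col b <;> cases h6 : Λ.col e <;> simp [h5, h6] at c2 c4
  · obtain ⟨v, c0, d0, hM0, hc, hd⟩ := h
    obtain ⟨w, c1, d1, hM1, hc', hd'⟩ := h'
    exfalso
    rcases P.At_or hc hc' with ⟨_, h2⟩ | ⟨e, h1, h2⟩
    · subst h2
      have k1 := Λ.col_M3 hM0
      have k2 := Λ.col_M3 hM1
      have k3 := Λ.col_M _ _ _ hM
      rw [k1, k2] at k3
      simp at k3
    · have m1 : Λ.M (Λ.inv c0) a d0 := Λ.M_rot _ _ _ hM0
      have m2 : Λ.M (Λ.inv c0) (Λ.inv c1) e := Λ.M_rot2 h1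
      have m3 : Λ.M b a (Λ.inv c) := Λ.M_symm _ _ _ hM
      have m4 : Λ.M b (Λ.inv c1) (Λ.inv d1) := Λ.M_symm _ _ _ (Λ.M_rot _ _ _ hM1)
      rcases Λ.no_four _ _ _ _ _ _ _ _ m1 m2 m3 m4 with h3 | h3
      · subst h3
        have m5 : Λ.M c1 (Λ.inv e) (Λ.inv c0) := Λ.M_symm _ _ _ (Λ.M_rot _ _ _ h1)
        have := Λ.M_fun2 hM1 m5
        subst this
        exact hd'.1 ⟨_, P.sym _ _ _ h2⟩
      · subst h3
        have := Λ.M_fun2 hM0 (Λ.M_symm _ _ _ h1)
        subst this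
        exact hd.1 ⟨_, h2⟩

theorem present_iff (q : P.Q) (g : Λ.L) : (∃ u, P.E' (Sum.inr q) g u) ↔
    ∃ v c, P.At v c q ∧ (g = Λ.inv c ∨ ∃ d, Λ.M (Λ.inv c) g d) := by
  constructor
  · rintro ⟨v | r, h⟩
    · exact ⟨v, Λ.inv g, h, Or.inl (Λ.inv_inv g).symm⟩
    · obtain ⟨v, c, d, hM, hc, hd⟩ := h
      exact ⟨v, c, hc, Or.inr ⟨d, Λ.M_rot _ _ _ hM⟩⟩
  · rintro ⟨v, c, hc, h | ⟨d, hM⟩⟩
    · refine ⟨Sum.inl v, ?_⟩
      show P.At v (Λ.inv g) q
      rw [h, Λ.inv_inv]; exact hc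
    · have hM' := Λ.M_back hM
      by_cases h : ∃ u, P.E v d u
      · obtain ⟨u, hu⟩ := h
        exact ⟨Sum.inl u, P.At_nbr hc (Λ.M_symm _ _ _ hM') hu⟩
      · exact ⟨Sum.inr (Quotient.mk P.setoid ⟨(v, d), h⟩), v, c, d, hM', hc, h, rfl⟩

theorem complete' (v : P.V) (c : Λ.L) : ∃ z, P.E' (Sum.inl v) c z := by
  by_cases h : ∃ u, P.E v c u
  · obtain ⟨u, hu⟩ := h
    exact ⟨Sum.inl u, hu⟩
  · exact ⟨Sum.inr (Quotient.mk P.setoid ⟨(v, c), h⟩), h, rfl⟩

theorem conv' : ∀ s a b c x y, Λ.M c a x → Λ.M c b y → a ≠ b → (∃ u, P.E' s a u) →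
    (∃ w, P.E' s b w) → ∃ z, P.E' s c z := by
  rintro (v | q) a b c x y hx hy hne ha hb
  · exact P.complete' v c
  · rw [present_iff] at ha hb ⊢
    obtain ⟨v, ca, hca, ha⟩ := ha
    obtain ⟨w, cb, hcb, hb⟩ := hb
    rcases ha with ha | ⟨d, ha⟩
    · refine ⟨v, ca, hca, Or.inr ⟨Λ.inv x, ?_⟩⟩
      rw [← ha]; exact Λ.M_symm _ _ _ hx
    rcases hb with hb | ⟨d', hb⟩
    · refine ⟨w, cb, hcb, Or.inr ⟨Λ.inv y, ?_⟩⟩
      rw [← hb]; exact Λ.M_symm _ _ _ hy
    rcases P.At_or hca hcb with ⟨_, h2⟩ | ⟨e, h1, _⟩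
    · subst h2
      rcases Λ.no_four _ _ _ _ _ _ _ _ ha hb hx hy with h3 | h3
      · exact ⟨v, ca, hca, Or.inl h3.symm⟩
      · exact absurd h3 hne
    · exfalso
      have k1 := Λ.col_M _ _ _ ha
      have k2 := Λ.col_M _ _ _ hb
      have k3 := Λ.col_M _ _ _ (Λ.M_rot2 h1)
      have k4 := Λ.col_M _ _ _ hx
      have k5 := Λ.col_M _ _ _ hy
      rw [k4] at k1
      rw [k5, k3] at k2
      rw [← k1] at k2
      simp at k2

/-- one step of the completion -/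
def ext : PAct Λ where
  V := P.V'
  E := P.E'
  det := P.det'
  sym := P.symE
  tri := P.tri'
  conv := P.conv'

end PAct

end Pool.Agent.TriSurf
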