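import Pool.Agent.TriSurf.BCov

/-!
# Checking surfaces given by tables

`rows[v]` is the cyclic list of the darts at the vertex `v`; a dart is `(a, w, j)`: it has the letter `a`
(`2 x` for the generator `x`, `2 x + 1` for its inverse), and the opposite dart is the one with number `j`
at the vertex `w`.
-/

set_option autoImplicit false

namespace Pool.Agent.TriSurf

/-- entry of a table of four bit numbers -/
def nib (W k : ℕ) : ℕ := Nat.mod (Nat.shiftRight W (Nat.mul 4 k)) 16

/-- `W` is the multiplication table of the presentation with the triples `l` -/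
def relOK (l : List (ℕ × ℕ × ℕ)) (W : ℕ) : Bool :=
  l.all (fun t => Nat.beq (nib W (15 * t.1 + t.2.1)) (t.2.2 + 1)) &&
  allN 225 (fun k => Nat.beq (nib W k) 0 ||
    l.any fun t => Nat.beq t.1 (k / 15) && Nat.beq t.2.1 (k % 15))

theorem rel_iff {T : List (Fin 15 × Fin 15 × Fin 15)} {W : ℕ}
    (h : relOK (rot (nat3 15 T)) W = true) (x y z : Fin 15) :
    Rel3 T x y z ↔ nib W (15 * x.1 + y.1) = z.1 + 1 := by
  rw [relOK, Bool.and_eq_true, List.all_eq_true] at h
  obtain ⟨h1, h2⟩ := h
  constructor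
  · intro hr
    exact Nat.eq_of_beq_eq_true (h1 _ (mem_rot_nat3.2 hr))
  · intro hn
    have h3 := allN_spec h2 (15 * x.1 + y.1) (by omega)
    rw [hn, Bool.or_eq_true] at h3
    rcases h3 with h3 | h3
    · exact absurd (Nat.eq_of_beq_eq_true h3) (by omega)
    · rw [List.any_eq_true] at h3
      obtain ⟨t, ht, h4⟩ := h3
      rw [Bool.and_eq_true] at h4
      have e1 := Nat.eq_of_beq_eq_true h4.1
      have e2 := Nat.eq_of_beq_eq_true h4.2
      have e3 := Nat.eq_of_beq_eq_true (h1 _ ht)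
      obtain ⟨a, b, c, rfl⟩ := mem_rot_lt ht
      rw [mem_rot_nat3] at ht
      dsimp only at e1 e2 e3
      have e4 : (15 * x.1 + y.1) / 15 = x.1 := by omega
      have e5 : (15 * x.1 + y.1) % 15 = y.1 := by omega
      rw [e4] at e1
      rw [e5] at e2
      rw [e1, e2, hn] at e3
      have e6 : z = c := Fin.ext (by omega)
      rw [← Fin.ext e1, ← Fin.ext e2, e6]
      exact ht

/-- code of a letter -/
def enc (a : Fin 15 × Bool) : ℕ := 2 * a.1.1 + (if a.2 then 0 else 1)

/-- letter with a given code -/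
def dec (c : ℕ) : Fin 15 × Bool := (⟨(c / 2) % 15, Nat.mod_lt _ (by decide)⟩, Nat.beq (c % 2) 0)

theorem enc_lt (a : Fin 15 × Bool) : enc a < 30 := by
  have := a.1.2
  unfold enc; split_ifs <;> omega

theorem dec_enc (a : Fin 15 × Bool) : dec (enc a) = a := by
  obtain ⟨⟨x, hx⟩, b⟩ := a
  cases b
  · have e1 : (2 * x + 1) / 2 % 15 = x := by omega
    have e2 : (2 * x + 1) % 2 = 1 := by omega
    exact Prod.ext (Fin.ext e1) (by show Nat.beq ((2 * x + 1) % 2) 0 = false; rw [e2]; rfl)
  · have e1 : (2 * x) / 2 % 15 = x := by omega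
    have e2 : (2 * x) % 2 = 0 := by omega
    exact Prod.ext (Fin.ext e1) (by show Nat.beq ((2 * x) % 2) 0 = true; rw [e2]; rfl)

theorem enc_dec {c : ℕ} (h : c < 30) : enc (dec c) = c := by
  have h1 : (c / 2) % 15 = c / 2 := Nat.mod_eq_of_lt (by omega)
  rcases Nat.mod_two_eq_zero_or_one c with h2 | h2
  · simp only [enc, dec, h1, h2]
    simp; omega
  · simp only [enc, dec, h1, h2]
    simp; omega

/-- the relation `M`, for codes -/
def cM (W a b c : ℕ) : Bool :=
  (Nat.beq (a % 2) 1 && Nat.beq (b % 2) 0 && Nat.beq (c % 2) 1 &&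
    Nat.beq (nib W (15 * (a / 2) + b / 2)) (c / 2 + 1)) ||
  (Nat.beq (a % 2) 0 && Nat.beq (b % 2) 1 && Nat.beq (c % 2) 0 &&
    Nat.beq (nib W (15 * (b / 2) + a / 2)) (c / 2 + 1))

/-- adjacency in the link, for codes -/
def cAdj (W a b : ℕ) : Bool :=
  (Nat.beq (a % 2) 1 && Nat.beq (b % 2) 0 && !Nat.beq (nib W (15 * (a / 2) + b / 2)) 0) ||
  (Nat.beq (a % 2) 0 && Nat.beq (b % 2) 1 && !Nat.beq (nib W (15 * (b / 2) + a / 2)) 0)

theorem enc_mod (a : Fin 15 × Bool) : enc a % 2 = if a.2 then 0 else 1 := by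
  unfold enc; split_ifs <;> omega

theorem enc_div (a : Fin 15 × Bool) : enc a / 2 = a.1.1 := by
  unfold enc; split_ifs <;> omega

theorem cM_iff {T : List (Fin 15 × Fin 15 × Fin 15)} {W : ℕ}
    (h : relOK (rot (nat3 15 T)) W = true) (a b c : Fin 15 × Bool) :
    MF T a b c ↔ cM W (enc a) (enc b) (enc c) = true := by
  simp only [MF, cM, enc_mod, enc_div, Bool.or_eq_true, Bool.and_eq_true, rel_iff h]
  constructor
  · rintro (⟨ha, hb, hc, hr⟩ | ⟨ha, hb, hc, hr⟩)
    · left; simp [ha, hb, hc, hr]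
    · right; simp [ha, hb, hc, hr]
  · rintro (⟨⟨⟨ha, hb⟩, hc⟩, hr⟩ | ⟨⟨⟨ha, hb⟩, hc⟩, hr⟩)
    · left
      refine ⟨?_, ?_, ?_, Nat.eq_of_beq_eq_true hr⟩
      · cases h1 : a.2 <;> simp_all
      · cases h1 : b.2 <;> simp_all
      · cases h1 : c.2 <;> simp_all
    · right
      refine ⟨?_, ?_, ?_, Nat.eq_of_beq_eq_true hr⟩
      · cases h1 : a.2 <;> simp_all
      · cases h1 : b.2 <;> simp_all
      · cases h1 : c.2 <;> simp_all

theorem beq_zero_of {n : ℕ} (h : n ≠ 0) : Nat.beq n 0 = false := beq_false h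

theorem cAdj_of {T : List (Fin 15 × Fin 15 × Fin 15)} {W : ℕ}
    (h : relOK (rot (nat3 15 T)) W = true) {a b c : Fin 15 × Bool} (hM : MF T a b c) :
    cAdj W (enc a) (enc b) = true := by
  simp only [cAdj, enc_mod, enc_div, Bool.or_eq_true, Bool.and_eq_true]
  rcases hM with ⟨ha, hb, hc, hr⟩ | ⟨ha, hb, hc, hr⟩
  · left
    rw [rel_iff h] at hr
    rw [hr, beq_zero_of (Nat.succ_ne_zero _)]
    simp [ha, hb]
  · right
    rw [rel_iff h] at hr
    rw [hr, beq_zero_of (Nat.succ_ne_zero _)]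
    simp [ha, hb]

/-! ### Tables -/

/-- degree of a vertex -/
def dg (rows : List (List (ℕ × ℕ × ℕ))) (v : ℕ) : ℕ := (rows.getD v []).length

/-- entry of the table -/
def en (rows : List (List (ℕ × ℕ × ℕ))) (p : ℕ × ℕ) : ℕ × ℕ × ℕ := (rows.getD p.1 []).getD p.2 (0, 0, 0)

/-- opposite dart -/
def barN (rows : List (List (ℕ × ℕ × ℕ))) (p : ℕ × ℕ) : ℕ × ℕ := (en rows p).2

/-- next dart -/
def sgN (rows : List (List (ℕ × ℕ × ℕ))) (p : ℕ × ℕ) : ℕ × ℕ := (p.1, (p.2 + 1) % dg rows p.1)

/-- equality of pairs -/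
def peq (p q : ℕ × ℕ) : Bool := Nat.beq p.1 q.1 && Nat.beq p.2 q.2

theorem peq_eq {p q : ℕ × ℕ} (h : peq p q = true) : p = q := by
  rw [peq, Bool.and_eq_true] at h
  exact Prod.ext (Nat.eq_of_beq_eq_true h.1) (Nat.eq_of_beq_eq_true h.2)

theorem peq_self (p : ℕ × ℕ) : peq p p = true := by simp [peq]

/-- the check of one dart -/
def chkD (W : ℕ) (rows : List (List (ℕ × ℕ × ℕ))) (v i : ℕ) : Bool :=
  Nat.blt (en rows (v, i)).1 30 && Nat.blt (en rows (v, i)).2.1 rows.length &&
  Nat.blt (en rows (v, i)).2.2 (dg rows (en rows (v, i)).2.1) &&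
  Nat.beq (en rows (barN rows (v, i))).1 (cinv (en rows (v, i)).1) &&
  peq (barN rows (barN rows (v, i))) (v, i) &&
  peq (sgN rows (barN rows (sgN rows (barN rows (sgN rows (barN rows (v, i))))))) (v, i) &&
  !peq (sgN rows (barN rows (v, i))) (v, i) &&
  cM W (en rows (sgN rows (v, i))).1 (en rows (v, i)).1
    (en rows (sgN rows (barN rows (sgN rows (v, i))))).1 &&
  allN (dg rows v) (fun j => !Nat.beq (en rows (v, i)).1 (en rows (v, j)).1 || Nat.beq i j) &&
  allN (dg rows v) (fun j => !cAdj W (en rows (v, i)).1 (en rows (v, j)).1 ||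
    (Nat.beq j ((i + 1) % dg rows v) || Nat.beq i ((j + 1) % dg rows v))) &&
  allN 30 (fun c => !cAdj W c (en rows (v, i)).1 ||
    ((rows.getD v []).any (fun e => Nat.beq e.1 c) ||
      allN (dg rows v) (fun j => Nat.beq i j || !cAdj W c (en rows (v, j)).1)))

/-- the complete check -/
def chkR (W : ℕ) (rows : List (List (ℕ × ℕ × ℕ))) : Bool :=
  allN rows.length (fun v => Nat.blt 6 (dg rows v) && allN (dg rows v) fun i => chkD W rows v i)

section

variable {T : List (Fin 15 × Fin 15 × Fin 15)} {W : ℕ} (hT : relOK (rot (nat3 15 T)) W = true)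
  {rows : List (List (ℕ × ℕ × ℕ))} (h : chkR W rows = true)

/-- darts -/
abbrev DT (rows : List (List (ℕ × ℕ × ℕ))) : Type := {p : ℕ × ℕ // p.1 < rows.length ∧ p.2 < dg rows p.1}

include h

theorem chkR_deg {v : ℕ} (hv : v < rows.length) : 7 ≤ dg rows v := by
  have h1 := allN_spec h v hv
  rw [Bool.and_eq_true] at h1
  exact Nat.blt_eq.mp h1.1

theorem chkR_D (p : DT rows) : chkD W rows p.1.1 p.1.2 = true := by
  have h1 := allN_spec h p.1.1 p.2.1
  rw [Bool.and_eq_true] at h1
  exact allN_spec h1.2 p.1.2 p.2.2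

theorem facts (p : DT rows) :
    (en rows p.1).1 < 30 ∧ (en rows p.1).2.1 < rows.length ∧
    (en rows p.1).2.2 < dg rows (en rows p.1).2.1 ∧
    (en rows (barN rows p.1)).1 = cinv (en rows p.1).1 ∧
    barN rows (barN rows p.1) = p.1 ∧
    sgN rows (barN rows (sgN rows (barN rows (sgN rows (barN rows p.1))))) = p.1 ∧
    sgN rows (barN rows p.1) ≠ p.1 ∧
    cM W (en rows (sgN rows p.1)).1 (en rows p.1).1
      (en rows (sgN rows (barN rows (sgN rows p.1)))).1 = true ∧
    (∀ j, j < dg rows p.1.1 → (en rows p.1).1 = (en rows (p.1.1, j)).1 → p.1.2 = j) ∧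
    (∀ j, j < dg rows p.1.1 → cAdj W (en rows p.1).1 (en rows (p.1.1, j)).1 = true →
      j = (p.1.2 + 1) % dg rows p.1.1 ∨ p.1.2 = (j + 1) % dg rows p.1.1) ∧
    (∀ c j, c < 30 → j < dg rows p.1.1 → p.1.2 ≠ j → cAdj W c (en rows p.1).1 = true →
      cAdj W c (en rows (p.1.1, j)).1 = true → ∃ m, m < dg rows p.1.1 ∧ (en rows (p.1.1, m)).1 = c) := by
  have h1 := chkR_D h p
  simp only [chkD, Bool.and_eq_true] at h1
  obtain ⟨⟨⟨⟨⟨⟨⟨⟨⟨⟨a1, a2⟩, a3⟩, a4⟩, a5⟩, a6⟩, a7⟩, a8⟩, a9⟩, a10⟩, a11⟩ := h1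
  refine ⟨Nat.blt_eq.mp a1, Nat.blt_eq.mp a2, Nat.blt_eq.mp a3, Nat.eq_of_beq_eq_true a4,
    peq_eq a5, peq_eq a6, ?_, a8, ?_, ?_, ?_⟩
  · intro hh
    have hh' : sgN rows (barN rows (p.1.1, p.1.2)) = (p.1.1, p.1.2) := hh
    rw [hh', peq_self] at a7
    simp at a7
  · intro j hj he
    have := allN_spec a9 j hj
    have he' : (en rows (p.1.1, p.1.2)).1 = (en rows (p.1.1, j)).1 := he
    rw [he'] at this
    simp only [Nat.beq_refl, Bool.not_true, Bool.false_or] at this
    exact Nat.eq_of_beq_eq_true this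
  · intro j hj he
    have := allN_spec a10 j hj
    have he' : cAdj W (en rows (p.1.1, p.1.2)).1 (en rows (p.1.1, j)).1 = true := he
    rw [he'] at this
    simp only [Bool.not_true, Bool.false_or, Bool.or_eq_true] at this
    rcases this with h2 | h2
    · exact Or.inl (Nat.eq_of_beq_eq_true h2)
    · exact Or.inr (Nat.eq_of_beq_eq_true h2)
  · intro c j hc hj hne hc1 hc2
    have := allN_spec a11 c hc
    have hc1' : cAdj W c (en rows (p.1.1, p.1.2)).1 = true := hc1
    rw [hc1'] at this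
    simp only [Bool.not_true, Bool.false_or, Bool.or_eq_true] at this
    rcases this with h2 | h2
    · rw [List.any_eq_true] at h2
      obtain ⟨e, he, h3⟩ := h2
      obtain ⟨m, hm, h4⟩ := List.mem_iff_getElem.1 he
      refine ⟨m, hm, ?_⟩
      rw [← Nat.eq_of_beq_eq_true h3, ← h4]
      show ((rows.getD p.1.1 []).getD m (0, 0, 0)).1 = _
      rw [List.getD_eq_getElem _ _ hm]
    · have h3 := allN_spec h2 j hj
      rw [hc2] at h3
      rw [beq_false hne] at h3
      simp at h3

/-- the surface of a checked table -/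
def surfT (h1 : Fun3 T) (h2 : NoFour T) (hT : relOK (rot (nat3 15 T)) W = true) :
    SSurf (locF T h1 h2) :=
  have key : ∀ (n : ℕ) (d : DT rows), ((fun d : DT rows => (⟨sgN rows d.1, d.2.1,
      Nat.mod_lt _ (by have := chkR_deg h d.2.1; omega)⟩ : DT rows))^[n] d).1 =
      (d.1.1, (d.1.2 + n) % dg rows d.1.1) := by
    intro n
    induction n with
    | zero =>
      intro d
      exact Prod.ext rfl (Nat.mod_eq_of_lt d.2.2).symm
    | succ n ih =>
      intro d
      rw [Function.iterate_succ_apply, ih]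
      refine Prod.ext rfl ?_
      show ((d.1.2 + 1) % dg rows d.1.1 + n) % dg rows d.1.1 = _
      rw [Nat.mod_add_mod]
      congr 1
      omega
  { D := DT rows
    fin := by
      have hinj : Function.Injective (fun d : DT rows =>
          (⟨⟨d.1.1, d.2.1⟩, ⟨d.1.2, d.2.2⟩⟩ : Σ v : Fin rows.length, Fin (dg rows v.1))) := by
        rintro ⟨⟨v, i⟩, hv, hi⟩ ⟨⟨w, j⟩, hw, hj⟩ he
        simp only [Sigma.mk.injEq, Fin.mk.injEq] at he
        obtain ⟨e1, e2⟩ := he
        subst e1
        have e3 := eq_of_heq e2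
        simp only [Fin.mk.injEq] at e3
        subst e3
        rfl
      exact Finite.of_injective _ hinj
    bar := fun d => ⟨barN rows d.1, (facts h d).2.1, (facts h d).2.2.1⟩
    σ := fun d => ⟨sgN rows d.1, d.2.1, Nat.mod_lt _ (by have := chkR_deg h d.2.1; omega)⟩
    lab := fun d => dec (en rows d.1).1
    bb := fun d => Subtype.ext (facts h d).2.2.2.2.1
    inj := by
      intro d e he
      have he' : sgN rows d.1 = sgN rows e.1 := congrArg Subtype.val he
      have e1 := congrArg Prod.fst he'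
      have e2 := congrArg Prod.snd he'
      change d.1.1 = e.1.1 at e1
      change (d.1.2 + 1) % dg rows d.1.1 = (e.1.2 + 1) % dg rows e.1.1 at e2
      apply Subtype.ext
      refine Prod.ext e1 ?_
      rw [← e1] at e2
      have hd := d.2.2
      have he2 := e.2.2
      rw [← e1] at he2
      rcases Nat.lt_or_ge (d.1.2 + 1) (dg rows d.1.1) with c1 | c1 <;>
        rcases Nat.lt_or_ge (e.1.2 + 1) (dg rows d.1.1) with c2 | c2
      · rw [Nat.mod_eq_of_lt c1, Nat.mod_eq_of_lt c2] at e2; omega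
      · have c3 : e.1.2 + 1 = dg rows d.1.1 := by omega
        rw [c3, Nat.mod_self, Nat.mod_eq_of_lt c1] at e2; omega
      · have c3 : d.1.2 + 1 = dg rows d.1.1 := by omega
        rw [c3, Nat.mod_self, Nat.mod_eq_of_lt c2] at e2; omega
      · omega
    lb := by
      intro d
      have e1 := (facts h d).2.2.2.1
      have e2 := (facts h d).1
      show dec (en rows (barN rows d.1)).1 = (locF T h1 h2).inv (dec (en rows d.1).1)
      rw [e1]
      show _ = ((dec (en rows d.1).1).1, !(dec (en rows d.1).1).2)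
      simp only [dec, cinv_div, Prod.mk.injEq, true_and]
      rcases Nat.mod_two_eq_zero_or_one (en rows d.1).1 with h3 | h3
      · rw [cinv_mod0 h3, h3]; rfl
      · rw [cinv_mod1 h3, h3]; rfl
    f3 := fun d => Subtype.ext (facts h d).2.2.2.2.2.1
    fne := fun d he => (facts h d).2.2.2.2.2.2.1 (congrArg Subtype.val he)
    tri := by
      intro d
      have e1 := (facts h d).2.2.2.2.2.2.2.1
      have hs : sgN rows d.1 = (⟨sgN rows d.1, d.2.1,
        Nat.mod_lt _ (by have := chkR_deg h d.2.1; omega)⟩ : DT rows).1 := rfl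
      have b1 := (facts h d).1
      have b2 := (facts h ⟨sgN rows d.1, d.2.1,
        Nat.mod_lt _ (by have := chkR_deg h d.2.1; omega)⟩)
      have b3 := (facts h (⟨barN rows (sgN rows d.1), b2.2.1, b2.2.2.1⟩ : DT rows))
      have b4 := (facts h (⟨sgN rows (barN rows (sgN rows d.1)), b2.2.1,
        Nat.mod_lt _ (by have := chkR_deg h b2.2.1; exact Nat.lt_of_lt_of_le (by decide) this)⟩ :
        DT rows)).1
      show MF T _ _ _
      rw [cM_iff hT, enc_dec b2.1, enc_dec b1, enc_dec b4]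
      exact e1
    linj := by
      intro d n hl
      apply Subtype.ext
      rw [key] at hl ⊢
      have e1 := congrArg enc hl
      have hlt : (d.1.2 + n) % dg rows d.1.1 < dg rows d.1.1 :=
        Nat.mod_lt _ (by have := chkR_deg h d.2.1; omega)
      have b2 := (facts h ⟨(d.1.1, (d.1.2 + n) % dg rows d.1.1), d.2.1, hlt⟩).1
      rw [enc_dec (facts h d).1, enc_dec b2] at e1
      have e2 := (facts h d).2.2.2.2.2.2.2.2.1 _ hlt e1.symm
      exact Prod.ext rfl e2.symm
    ind := by
      intro d n c hM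
      have hlt : (d.1.2 + n) % dg rows d.1.1 < dg rows d.1.1 :=
        Nat.mod_lt _ (by have := chkR_deg h d.2.1; omega)
      rw [key] at hM
      have b2 := (facts h ⟨(d.1.1, (d.1.2 + n) % dg rows d.1.1), d.2.1, hlt⟩).1
      have e1 := cAdj_of hT hM
      rw [enc_dec (facts h d).1, enc_dec b2] at e1
      rcases (facts h d).2.2.2.2.2.2.2.2.2.1 _ hlt e1 with e2 | e2
      · left
        apply Subtype.ext
        rw [key]
        exact Prod.ext rfl e2
      · right
        apply Subtype.ext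
        show sgN rows _ = d.1
        rw [key]
        exact Prod.ext rfl e2.symm
    conv := by
      intro d n c x y hne hx hy
      have hlt : (d.1.2 + n) % dg rows d.1.1 < dg rows d.1.1 :=
        Nat.mod_lt _ (by have := chkR_deg h d.2.1; omega)
      rw [key] at hy
      have b2 := (facts h ⟨(d.1.1, (d.1.2 + n) % dg rows d.1.1), d.2.1, hlt⟩).1
      have e1 := cAdj_of hT hx
      have e2 := cAdj_of hT hy
      rw [enc_dec (facts h d).1] at e1
      rw [enc_dec b2] at e2
      obtain ⟨m, hm, hc⟩ := (facts h d).2.2.2.2.2.2.2.2.2.2 (enc c) _ (enc_lt c) hlt (by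
        intro he
        apply hne
        apply Subtype.ext
        rw [key]
        exact Prod.ext rfl he.symm) e1 e2
      refine ⟨m + dg rows d.1.1 - d.1.2, ?_⟩
      rw [key]
      have hd := d.2.2
      have e3 : (d.1.2 + (m + dg rows d.1.1 - d.1.2)) % dg rows d.1.1 = m := by
        rw [show d.1.2 + (m + dg rows d.1.1 - d.1.2) = m + dg rows d.1.1 by omega,
          Nat.add_mod_right, Nat.mod_eq_of_lt hm]
      rw [e3, hc]
      exact dec_enc c
    len := by
      intro d n h3 h4 he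
      have he' := congrArg Subtype.val he
      rw [key] at he'
      have e1 : (d.1.2 + n) % dg rows d.1.1 = d.1.2 := congrArg Prod.snd he'
      have e2 := chkR_deg h d.2.1
      have e3 := d.2.2
      rcases Nat.lt_or_ge (d.1.2 + n) (dg rows d.1.1) with c1 | c1
      · rw [Nat.mod_eq_of_lt c1] at e1; omega
      · rw [Nat.mod_eq_sub_mod c1, Nat.mod_eq_of_lt (by omega)] at e1; omega }

end

/-- existence of surface subgroups for all branched covers, from checked tables -/
theorem surface_of_table {T : List (Fin 15 × Fin 15 × Fin 15)} {lam : List ℕ}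
    (hg : chkGQ (nat3 15 T) lam = true) {W : ℕ} (hT : relOK (rot (nat3 15 T)) W = true)
    {rows : List (List (ℕ × ℕ × ℕ))} (h : chkR W rows = true) (h0 : Nat.blt 0 rows.length = true)
    {k' : ℕ} (hk : 0 < k') {T' : List (Fin k' × Fin k' × Fin k')} {π : Fin k' → Fin 15}
    (B : BCov T' T π) : HasSurfaceSubgroup (TriGroup k' T') := by
  have h0' : 0 < rows.length := Nat.blt_eq.mp h0
  exact hasSurface_bcov B hk (chkGQ_Fun hg) (chkGQ_four hg) (codeT hg).conn
    (surfT h (chkGQ_Fun hg) (chkGQ_four hg) hT)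
    ⟨(0, 0), h0', by have := chkR_deg h h0'; exact Nat.lt_of_lt_of_le (by decide) this⟩

/-- there is a presentation with the table `V` all of whose branched covers have surface subgroups -/
def SurfFor (V : ℕ) : Prop := ∃ T0 : List (Fin 15 × Fin 15 × Fin 15),
  relOK (rot (nat3 15 T0)) V = true ∧ ∀ (k' : ℕ) (_ : 0 < k')
    (T' : List (Fin k' × Fin k' × Fin k')) (π : Fin k' → Fin 15), BCov T' T0 π →
    HasSurfaceSubgroup (TriGroup k' T')

theorem surfFor_of_table {T : List (Fin 15 × Fin 15 × Fin 15)} {lam : List ℕ}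
    (hg : chkGQ (nat3 15 T) lam = true) {W : ℕ} (hT : relOK (rot (nat3 15 T)) W = true)
    {rows : List (List (ℕ × ℕ × ℕ))} (h : chkR W rows = true) (h0 : Nat.blt 0 rows.length = true) :
    SurfFor W :=
  ⟨T, hT, fun _ hk _ _ B => surface_of_table hg hT h h0 hk B⟩

end Pool.Agent.TriSurf
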