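import Pool.Agent.TriSurf.Doily
import Pool.Agent.TriSurf.SData

/-!
# The link conditions for presentations over the quadrangle; reversed presentations
-/

set_option autoImplicit false
set_option maxRecDepth 100000

namespace Pool.Agent.TriSurf

namespace En

theorem adj_inc : ∀ l p : Fin 15, adjN l.1 (15 + p.1) = true ↔ incB l.1 p.1 = true := by
  decide +kernel

section

variable {T : List (Fin 15 × Fin 15 × Fin 15)} {p l : Fin 15 ≃ Fin 15}
  (hL : ∀ x y, Lk T x y ↔ incB (l x).1 (p y).1 = true)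

include hL

theorem lk_adj (x y : Fin 15) : Lk T x y ↔ adjN (l x).1 (15 + (p y).1) = true := by
  rw [hL, adj_inc]

theorem gq_NoFour : NoFour T := by
  intro x x' y y' h1 h2 h3 h4
  rw [lk_adj hL] at h1 h2 h3 h4
  have l1 := (l x).2
  have l2 := (l x').2
  have l3 := (p y).2
  have l4 := (p y').2
  rcases gq_four _ (by omega) _ (by omega) h1 _ (by omega) h3 _ (by omega) h2 h4 with h5 | h5
  · exact Or.inl (l.injective (Fin.ext h5))
  · exact Or.inr (p.injective (Fin.ext (by omega)))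

theorem gq_NoSix : NoSix T := by
  intro x x' x'' y y' y'' h1 h2 h3 h4 h5 h6
  rw [lk_adj hL] at h1 h2 h3 h4 h5 h6
  have l1 := (l x).2
  have l2 := (l x').2
  have l3 := (l x'').2
  have l4 := (p y).2
  have l5 := (p y').2
  have l6 := (p y'').2
  have s2 := adjN_symm _ (by omega) _ (by omega) h2
  have s4 := adjN_symm _ (by omega) _ (by omega) h4
  have s6 := adjN_symm _ (by omega) _ (by omega) h6
  rcases gq_six _ (by omega) _ (by omega) h1 _ (by omega) s2 _ (by omega) h3 _ (by omega) s4 _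
    (by omega) h5 s6 with h | h7 | h | h7 | h | h7
  · exact Or.inl (l.injective (Fin.ext h))
  · exact Or.inr (Or.inr (Or.inr (Or.inl (p.injective (Fin.ext (by omega))))))
  · exact Or.inr (Or.inl (l.injective (Fin.ext h)))
  · exact Or.inr (Or.inr (Or.inr (Or.inr (Or.inl (p.injective (Fin.ext (by omega)))))))
  · exact Or.inr (Or.inr (Or.inl (l.injective (Fin.ext h))))
  · exact Or.inr (Or.inr (Or.inr (Or.inr (Or.inr (p.injective (Fin.ext (by omega)))))))

/-- the identification of the link with the quadrangle -/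
def codeG (h1 : Fun3 T) (h2 : NoFour T) : Code (locF T h1 h2) where
  g := fun a : Fin 15 × Bool => if a.2 then 15 + (p a.1).1 else (l a.1).1
  lt := by
    rintro ⟨x, b⟩
    have := (l x).2
    have := (p x).2
    cases b
    · show (l x).1 < 30; omega
    · show 15 + (p x).1 < 30; omega
  inj := by
    rintro ⟨x, b⟩ ⟨x', b'⟩ hxx
    have l1 := (l x).2
    have l2 := (l x').2
    cases b <;> cases b'
    · have hxx : (l x).1 = (l x').1 := hxx
      rw [l.injective (Fin.ext hxx)]
    · have hxx : (l x).1 = 15 + (p x').1 := hxx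
      omega
    · have hxx : 15 + (p x).1 = (l x').1 := hxx
      omega
    · have hxx : 15 + (p x).1 = 15 + (p x').1 := hxx
      have : p x = p x' := Fin.ext (by omega)
      rw [p.injective this]
  surj := by
    intro n hn
    by_cases hn' : n < 15
    · refine ⟨((l.symm ⟨n, hn'⟩, false) : Fin 15 × Bool), ?_⟩
      show (l (l.symm ⟨n, hn'⟩)).1 = n
      rw [l.apply_symm_apply]
    · refine ⟨((p.symm ⟨n - 15, by omega⟩, true) : Fin 15 × Bool), ?_⟩
      show 15 + (p (p.symm ⟨n - 15, by omega⟩)).1 = n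
      rw [p.apply_symm_apply]
      show 15 + (n - 15) = n
      omega
  adj_iff := by
    rintro ⟨x, b⟩ ⟨x', b'⟩
    have l1 := (l x).2
    have l2 := (l x').2
    have l3 := (p x).2
    have l4 := (p x').2
    refine Iff.trans (locF_adj T) ?_
    cases b <;> cases b'
    · show _ ↔ adjN (l x).1 (l x').1 = true
      constructor
      · rintro (⟨_, h2, _⟩ | ⟨h2, _⟩) <;> cases h2
      · intro h2
        rcases adjN_kind _ (by omega) _ (by omega) h2 with ⟨h3, h4⟩ | ⟨h3, h4⟩ <;> omega
    · show _ ↔ adjN (l x).1 (15 + (p x').1) = true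
      rw [← lk_adj hL]
      constructor
      · rintro (⟨_, _, h2⟩ | ⟨h2, _⟩)
        · exact h2
        · cases h2
      · intro h2
        exact Or.inl ⟨rfl, rfl, h2⟩
    · show _ ↔ adjN (15 + (p x).1) (l x').1 = true
      have : adjN (15 + (p x).1) (l x').1 = true ↔ adjN (l x').1 (15 + (p x).1) = true :=
        ⟨adjN_symm _ (by omega) _ (by omega), adjN_symm _ (by omega) _ (by omega)⟩
      rw [this, ← lk_adj hL]
      constructor
      · rintro (⟨h2, _⟩ | ⟨_, _, h2⟩)
        · cases h2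
        · exact h2
      · intro h2
        exact Or.inr ⟨rfl, rfl, h2⟩
    · show _ ↔ adjN (15 + (p x).1) (15 + (p x').1) = true
      constructor
      · rintro (⟨h2, _⟩ | ⟨_, h2, _⟩) <;> cases h2
      · intro h2
        rcases adjN_kind _ (by omega) _ (by omega) h2 with ⟨h3, h4⟩ | ⟨h3, h4⟩ <;> omega

end

end En

/-- branched covers with connected link of presentations over the quadrangle -/
theorem oneEnded_cover {T : List (Fin 15 × Fin 15 × Fin 15)} (hF : Fun3 T) (hG : LinkGQ T) {k' : ℕ}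
    (hk : 0 < k') {T' : List (Fin k' × Fin k' × Fin k')} {π : Fin k' → Fin 15} (B : BCov T' T π)
    (hl : LinkConn T') : OneEndedHyperbolic (TriGroup k' T') := by
  obtain ⟨p, l, hL⟩ := En.exists_codes hG
  have h2 := En.gq_NoFour hL
  have K := En.codeG hL hF h2
  exact oneEnded_bcov B hk hl hF h2 (En.gq_NoSix hL) K.conn K.two

/-! ### Reversed presentations -/

/-- the reversed presentation -/
def opT {k : ℕ} (T : List (Fin k × Fin k × Fin k)) : List (Fin k × Fin k × Fin k) :=
  T.map fun t => (t.2.2, t.2.1, t.1)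

theorem mem_opT {k : ℕ} {T : List (Fin k × Fin k × Fin k)} {x y z : Fin k} :
    (x, y, z) ∈ opT T ↔ (z, y, x) ∈ T := by
  rw [opT, List.mem_map]
  constructor
  · rintro ⟨⟨a, b, c⟩, h, h'⟩
    simp only [Prod.mk.injEq] at h'
    obtain ⟨rfl, rfl, rfl⟩ := h'
    exact h
  · intro h
    exact ⟨_, h, rfl⟩

theorem Rel3_opT {k : ℕ} {T : List (Fin k × Fin k × Fin k)} {x y z : Fin k} :
    Rel3 (opT T) x y z ↔ Rel3 T z y x := by
  simp only [Rel3, mem_opT]
  tauto

theorem BCov.op {k' k : ℕ} {T' : List (Fin k' × Fin k' × Fin k')} {T : List (Fin k × Fin k × Fin k)}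
    {π : Fin k' → Fin k} (B : BCov T' T π) : BCov (opT T') (opT T) π where
  map := by
    intro x y z h
    rw [Rel3_opT] at h ⊢
    exact B.map _ _ _ h
  lift := by
    intro x y z h
    rw [Rel3_opT] at h
    -- `Rel3 T z y (π x)`, rotate to `Rel3 T (π x) z y`
    obtain ⟨q, ⟨h1, h2, h3⟩, h4⟩ := B.lift x z y (Rel3_rot (Rel3_rot h))
    refine ⟨(q.2, q.1), ⟨?_, h3, h2⟩, ?_⟩
    · rw [Rel3_opT]
      exact Rel3_rot h1
    · rintro ⟨a, b⟩ ⟨k1, k2, k3⟩
      rw [Rel3_opT] at k1
      have := h4 (b, a) ⟨Rel3_rot (Rel3_rot k1), k3, k2⟩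
      rw [← this]

/-- the group of the reversed presentation is isomorphic to the group of the presentation -/
theorem opT_hom {k : ℕ} (T : List (Fin k × Fin k × Fin k)) : ∃ f : TriGroup k (opT T) →* TriGroup k T,
    ∀ x, f (PresentedGroup.of x) = (PresentedGroup.of x)⁻¹ := by
  have h : ∀ r ∈ triRel k (opT T),
      FreeGroup.lift (fun x => (PresentedGroup.of x : TriGroup k T)⁻¹) r = 1 := by
    rintro r ⟨⟨x, y, z⟩, ht, rfl⟩
    rw [mem_opT] at ht
    simp only [map_mul, FreeGroup.lift_apply_of]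
    have := of_rel (T := T) (Or.inl ht)
    rw [← mul_inv_rev, ← mul_inv_rev, ← mul_assoc, this, inv_one]
  exact ⟨PresentedGroup.toGroup h, fun x => PresentedGroup.toGroup.of h⟩

theorem opT_opT {k : ℕ} (T : List (Fin k × Fin k × Fin k)) : opT (opT T) = T := by
  simp [opT, List.map_map, Function.comp_def]

theorem hasSurface_op {k : ℕ} {T : List (Fin k × Fin k × Fin k)}
    (h : HasSurfaceSubgroup (TriGroup k (opT T))) : HasSurfaceSubgroup (TriGroup k T) := by
  obtain ⟨g, hg, f, hf⟩ := h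
  obtain ⟨u, hu⟩ := opT_hom T
  obtain ⟨v, hv⟩ : ∃ v : TriGroup k T →* TriGroup k (opT T),
      ∀ x, v (PresentedGroup.of x) = (PresentedGroup.of x)⁻¹ := by
    have := opT_hom (opT T)
    rwa [opT_opT] at this
  have hvu : v.comp u = MonoidHom.id _ := by
    apply PresentedGroup.ext
    intro x
    rw [MonoidHom.comp_apply, hu, map_inv, hv, inv_inv]
    rfl
  refine ⟨g, hg, u.comp f, ?_⟩
  have hui : Function.Injective u := by
    intro a b hab
    have e1 : v.comp u a = v.comp u b := congrArg v hab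
    rw [hvu] at e1
    exact e1
  exact hui.comp hf

/-! ### Surfaces from the list -/

theorem BCov.iso {k' k : ℕ} {T' : List (Fin k' × Fin k' × Fin k')} {T T0 : List (Fin k × Fin k × Fin k)}
    {π : Fin k' → Fin k} (B : BCov T' T π) (ρ : Fin k ≃ Fin k)
    (h : ∀ x y z, Rel3 T x y z ↔ Rel3 T0 (ρ x) (ρ y) (ρ z)) : BCov T' T0 (fun a => ρ (π a)) where
  map := fun _ _ _ hr => (h _ _ _).1 (B.map _ _ _ hr)
  lift := by
    intro x y z hr
    have hr' : Rel3 T (π x) (ρ.symm y) (ρ.symm z) := by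
      rw [h, ρ.apply_symm_apply, ρ.apply_symm_apply]; exact hr
    obtain ⟨q, ⟨h1, h2, h3⟩, h4⟩ := B.lift _ _ _ hr'
    refine ⟨q, ⟨h1, by rw [h2, ρ.apply_symm_apply], by rw [h3, ρ.apply_symm_apply]⟩, ?_⟩
    rintro q' ⟨k1, k2, k3⟩
    apply h4
    exact ⟨k1, by rw [← k2, ρ.symm_apply_apply], by rw [← k3, ρ.symm_apply_apply]⟩

theorem surface_cover {WTs : List ℕ} (hS : ∀ V ∈ WTs, SurfFor V)
    {T : List (Fin 15 × Fin 15 × Fin 15)} {p : Fin 15 ≃ Fin 15} (hgood : En.Good WTs (En.relP T p))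
    {k' : ℕ} (hk : 0 < k') {T' : List (Fin k' × Fin k' × Fin k')} {π : Fin k' → Fin 15}
    (B : BCov T' T π) : HasSurfaceSubgroup (TriGroup k' T') := by
  obtain ⟨i, hi, r, hiso⟩ := hgood
  obtain ⟨T0, h0, hT0⟩ := hS _ (En.getD_mem (d := 0) hi)
  obtain ⟨ρ, hρ⟩ := En.iso_of hiso
  by_cases hr : r = 0
  · subst hr
    refine hT0 k' hk T' _ (B.iso (T0 := T0) ρ fun x y z => ?_)
    rw [hρ, if_pos rfl, rel_iff h0]
  · apply hasSurface_op
    refine hT0 k' hk (opT T') _ (B.op.iso (T0 := T0) ρ fun x y z => ?_)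
    rw [Rel3_opT, hρ, if_neg hr, ← rel_iff h0]
    exact ⟨fun h => Rel3_rot (Rel3_rot h), fun h => Rel3_rot h⟩

end Pool.Agent.TriSurf
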