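import Mathlib

/-!
# Triangle presentations over the generalized quadrangle of order (2, 2)
-/

set_option autoImplicit false

namespace Pool.Agent.TriSurf

/-- relators `x y z` of presentation 0 -/
def T0 : List (Fin 15 × Fin 15 × Fin 15) :=
  [(0, 1, 2), (0, 6, 7), (0, 14, 10), (1, 8, 5), (1, 10, 12), (2, 9, 3), (2, 14, 6), (3, 5, 8), (3, 14, 4), (4, 8, 13), (4, 9, 11), (5, 12, 13), (6, 11, 9), (7, 10, 11), (7, 13, 12)]

/-- relators `x y z` of presentation 1 -/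
def T1 : List (Fin 15 × Fin 15 × Fin 15) :=
  [(0, 0, 9), (0, 14, 8), (1, 3, 4), (1, 8, 13), (1, 9, 11), (2, 4, 14), (2, 5, 5), (2, 12, 6), (3, 7, 10), (3, 9, 12), (4, 6, 7), (5, 14, 10), (6, 11, 7), (8, 10, 13), (11, 13, 12)]

/-- relators `x y z` of presentation 2 -/
def T2 : List (Fin 15 × Fin 15 × Fin 15) :=
  [(0, 0, 14), (0, 9, 1), (1, 11, 4), (1, 12, 5), (2, 2, 8), (2, 10, 3), (3, 5, 6), (3, 14, 13), (4, 8, 7), (4, 12, 12), (5, 14, 10), (6, 8, 11), (6, 9, 13), (7, 7, 9), (10, 13, 11)]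

/-- relators `x y z` of presentation 3 -/
def T3 : List (Fin 15 × Fin 15 × Fin 15) :=
  [(0, 0, 9), (0, 14, 3), (1, 2, 10), (1, 7, 7), (1, 11, 4), (2, 2, 8), (3, 10, 6), (3, 13, 13), (4, 8, 5), (4, 12, 12), (5, 7, 13), (5, 9, 12), (6, 8, 14), (6, 9, 11), (10, 14, 11)]

/-- relators `x y z` of presentation 4 -/
def T4 : List (Fin 15 × Fin 15 × Fin 15) :=
  [(0, 0, 14), (0, 9, 13), (1, 4, 2), (1, 5, 9), (1, 12, 6), (2, 6, 8), (2, 14, 11), (3, 4, 10), (3, 6, 12), (3, 10, 5), (4, 8, 7), (5, 8, 11), (7, 7, 9), (10, 13, 13), (11, 14, 12)]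

/-- relators `x y z` of presentation 5 -/
def T5 : List (Fin 15 × Fin 15 × Fin 15) :=
  [(0, 0, 14), (0, 9, 3), (1, 2, 4), (1, 5, 7), (1, 14, 13), (2, 6, 12), (2, 10, 5), (3, 11, 11), (3, 12, 10), (4, 7, 8), (4, 13, 6), (5, 11, 6), (7, 12, 8), (8, 9, 9), (10, 13, 14)]

/-- relators `x y z` of presentation 6 -/
def T6 : List (Fin 15 × Fin 15 × Fin 15) :=
  [(0, 0, 14), (0, 9, 1), (1, 10, 11), (1, 13, 7), (2, 4, 3), (2, 5, 10), (2, 12, 5), (3, 5, 8), (3, 14, 12), (4, 6, 6), (4, 11, 13), (6, 10, 7), (7, 14, 11), (8, 8, 9), (9, 12, 13)]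

/-- relators `x y z` of presentation 7 -/
def T7 : List (Fin 15 × Fin 15 × Fin 15) :=
  [(0, 0, 9), (0, 14, 4), (1, 3, 7), (1, 5, 8), (1, 13, 6), (2, 4, 10), (2, 6, 12), (2, 10, 5), (3, 4, 13), (3, 9, 11), (5, 10, 14), (6, 8, 7), (7, 14, 12), (8, 13, 11), (9, 12, 11)]

/-- relators `x y z` of presentation 8 -/
def T8 : List (Fin 15 × Fin 15 × Fin 15) :=
  [(0, 1, 13), (0, 6, 4), (0, 14, 1), (1, 10, 2), (2, 7, 3), (2, 13, 11), (3, 5, 9), (3, 14, 12), (4, 9, 5), (4, 14, 8), (5, 7, 6), (6, 12, 8), (7, 11, 10), (8, 10, 11), (9, 13, 12)]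

/-- relators `x y z` of presentation 9 -/
def T9 : List (Fin 15 × Fin 15 × Fin 15) :=
  [(0, 0, 9), (0, 14, 12), (1, 4, 6), (1, 6, 7), (1, 10, 14), (2, 4, 3), (2, 5, 8), (2, 12, 10), (3, 8, 11), (3, 10, 5), (4, 11, 13), (5, 9, 11), (6, 13, 7), (7, 14, 8), (9, 12, 13)]

/-- relators `x y z` of presentation 10 -/
def T10 : List (Fin 15 × Fin 15 × Fin 15) :=
  [(0, 0, 9), (0, 14, 1), (1, 10, 2), (1, 13, 8), (2, 8, 13), (2, 12, 6), (3, 3, 11), (3, 6, 5), (4, 4, 7), (4, 9, 12), (5, 8, 7), (5, 9, 11), (6, 14, 14), (7, 12, 10), (10, 11, 13)]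

/-- relators `x y z` of presentation 11 -/
def T11 : List (Fin 15 × Fin 15 × Fin 15) :=
  [(0, 0, 14), (0, 9, 6), (1, 2, 12), (1, 8, 7), (1, 10, 4), (2, 4, 8), (2, 5, 3), (3, 5, 9), (3, 14, 11), (4, 12, 13), (5, 8, 11), (6, 10, 10), (6, 13, 7), (7, 14, 12), (9, 11, 13)]

/-- relators `x y z` of presentation 12 -/
def T12 : List (Fin 15 × Fin 15 × Fin 15) :=
  [(0, 0, 14), (0, 9, 1), (1, 11, 10), (1, 12, 2), (2, 6, 3), (2, 14, 13), (3, 7, 5), (3, 11, 4), (4, 8, 7), (4, 9, 8), (5, 5, 13), (6, 6, 11), (7, 12, 10), (8, 9, 12), (10, 13, 14)]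

/-- relators `x y z` of presentation 13 -/
def T13 : List (Fin 15 × Fin 15 × Fin 15) :=
  [(0, 0, 14), (0, 9, 6), (1, 4, 8), (1, 7, 4), (1, 9, 3), (2, 4, 12), (2, 5, 5), (2, 12, 11), (3, 7, 10), (3, 13, 13), (5, 14, 13), (6, 11, 8), (6, 12, 7), (8, 14, 10), (9, 11, 10)]

/-- relators `x y z` of presentation 14 -/
def T14 : List (Fin 15 × Fin 15 × Fin 15) :=
  [(0, 0, 14), (0, 9, 1), (1, 11, 5), (1, 12, 2), (2, 8, 7), (2, 12, 11), (3, 3, 13), (3, 5, 6), (4, 4, 10), (4, 6, 8), (5, 14, 10), (6, 9, 13), (7, 8, 9), (7, 10, 12), (11, 14, 13)]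

/-- relators `x y z` of presentation 15 -/
def T15 : List (Fin 15 × Fin 15 × Fin 15) :=
  [(0, 0, 9), (0, 14, 3), (1, 4, 5), (1, 6, 8), (1, 10, 7), (2, 4, 13), (2, 7, 6), (2, 9, 10), (3, 11, 11), (3, 12, 4), (5, 8, 13), (5, 12, 12), (6, 10, 11), (7, 14, 8), (9, 13, 14)]

/-- relators `x y z` of presentation 16 -/
def T16 : List (Fin 15 × Fin 15 × Fin 15) :=
  [(0, 0, 9), (0, 14, 4), (1, 2, 10), (1, 5, 11), (1, 14, 7), (2, 2, 8), (3, 4, 12), (3, 6, 5), (3, 10, 6), (4, 11, 13), (5, 6, 13), (7, 8, 11), (7, 12, 8), (9, 10, 14), (9, 13, 12)]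

/-- relators `x y z` of presentation 17 -/
def T17 : List (Fin 15 × Fin 15 × Fin 15) :=
  [(0, 0, 9), (0, 14, 3), (1, 3, 10), (1, 5, 4), (1, 13, 7), (2, 3, 13), (2, 8, 6), (2, 9, 12), (4, 7, 8), (4, 13, 11), (5, 7, 12), (5, 9, 11), (6, 8, 10), (6, 10, 14), (11, 12, 14)]

/-- relators `x y z` of presentation 18 -/
def T18 : List (Fin 15 × Fin 15 × Fin 15) :=
  [(0, 0, 9), (0, 14, 1), (1, 11, 3), (1, 12, 4), (2, 4, 6), (2, 7, 13), (2, 9, 10), (3, 7, 5), (3, 13, 7), (4, 14, 8), (5, 6, 10), (5, 11, 8), (6, 8, 12), (9, 13, 11), (10, 14, 12)]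

/-- relators `x y z` of presentation 19 -/
def T19 : List (Fin 15 × Fin 15 × Fin 15) :=
  [(0, 0, 9), (0, 14, 2), (1, 2, 11), (1, 8, 5), (1, 10, 12), (2, 12, 6), (3, 4, 8), (3, 7, 4), (3, 9, 13), (4, 9, 10), (5, 7, 10), (5, 13, 6), (6, 14, 7), (8, 13, 11), (11, 12, 14)]

/-- relators `x y z` of presentation 20 -/
def T20 : List (Fin 15 × Fin 15 × Fin 15) :=
  [(0, 0, 9), (0, 14, 1), (1, 11, 8), (1, 12, 11), (2, 4, 13), (2, 5, 6), (2, 12, 3), (3, 5, 4), (3, 14, 7), (4, 5, 10), (6, 7, 8), (6, 11, 12), (7, 9, 10), (8, 14, 13), (9, 13, 10)]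

/-- relators `x y z` of presentation 21 -/
def T21 : List (Fin 15 × Fin 15 × Fin 15) :=
  [(0, 0, 9), (0, 14, 10), (1, 2, 4), (1, 8, 5), (1, 10, 11), (2, 7, 6), (2, 9, 13), (3, 4, 7), (3, 5, 12), (3, 12, 8), (4, 13, 14), (5, 8, 13), (6, 7, 11), (6, 11, 14), (9, 10, 12)]

/-- relators `x y z` of presentation 22 -/
def T22 : List (Fin 15 × Fin 15 × Fin 15) :=
  [(0, 0, 14), (0, 9, 10), (1, 4, 6), (1, 5, 8), (1, 12, 5), (2, 3, 7), (2, 5, 12), (2, 13, 3), (3, 11, 4), (4, 11, 9), (6, 7, 8), (6, 13, 9), (7, 10, 11), (8, 14, 13), (10, 12, 14)]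

end Pool.Agent.TriSurf
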