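import Pool.Agent.TriSurf.SData
import Pool.Agent.TriSurf.Pres

/-!
# Surfaces
-/

set_option autoImplicit false
set_option maxRecDepth 100000

namespace Pool.Agent.TriSurf

/-- the multiplication table of presentation 0 -/
def W0 : ℕ :=
  8061505744862946466783462418753662976685555737308391771309026094930106132259632917110273043258011760055339390324124890782167852451408141744267510192275125775330941694701011441476059906999157473079113220018401308416762441722203389688234064387897256319889459256492080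

/-- a surface for presentation 0 -/
def rows0 : List (List (ℕ × ℕ × ℕ)) :=
  [[(2, 1, 7), (11, 2, 1), (24, 3, 3), (27, 4, 1), (10, 5, 3), (7, 6, 3), (4, 7, 4), (13, 8, 4), (14, 6, 6), (25, 9, 1)],
   [(12, 8, 9), (1, 10, 0), (28, 11, 0), (5, 12, 9), (18, 5, 7), (9, 3, 0), (16, 2, 2), (3, 0, 0), (20, 9, 0), (29, 11, 7)],
   [(27, 3, 4), (10, 0, 1), (17, 1, 6), (26, 3, 7), (25, 13, 7), (14, 14, 5), (23, 15, 1), (8, 11, 4)],
   [(8, 1, 5), (23, 5, 6), (14, 4, 2), (25, 0, 2), (26, 2, 0), (17, 11, 3), (10, 13, 8), (27, 2, 3)],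
   [(25, 5, 4), (26, 0, 3), (15, 3, 2), (20, 5, 5), (3, 4, 7), (16, 7, 0), (11, 7, 1), (2, 4, 4)],
   [(6, 12, 8), (9, 9, 3), (16, 6, 4), (11, 0, 4), (24, 4, 0), (21, 4, 3), (22, 3, 1), (19, 1, 4)],
   [(21, 10, 2), (22, 8, 7), (19, 7, 5), (6, 0, 5), (17, 5, 2), (26, 9, 2), (15, 0, 8), (0, 8, 3)],
   [(17, 4, 5), (10, 4, 6), (7, 7, 7), (28, 8, 5), (5, 0, 6), (18, 6, 2), (9, 8, 6), (6, 7, 2)],
   [(4, 11, 6), (7, 15, 7), (28, 10, 3), (1, 6, 7), (12, 0, 7), (29, 7, 3), (8, 7, 6), (23, 6, 1), (14, 10, 1), (13, 1, 0)],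
   [(21, 1, 8), (24, 0, 9), (27, 6, 5), (8, 5, 1), (29, 12, 7), (20, 16, 7), (15, 12, 1), (0, 11, 8)],
   [(0, 1, 1), (15, 8, 8), (20, 6, 0), (29, 8, 2), (8, 15, 6), (27, 16, 2), (24, 13, 0), (21, 11, 1)],
   [(29, 1, 2), (20, 10, 7), (3, 13, 9), (16, 3, 5), (9, 2, 7), (18, 15, 0), (5, 8, 0), (28, 1, 9), (1, 9, 7), (12, 12, 0)],
   [(13, 11, 9), (14, 9, 6), (23, 16, 6), (8, 17, 1), (29, 17, 4), (12, 13, 2), (1, 16, 0), (28, 9, 4), (7, 5, 0), (4, 1, 3)],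
   [(25, 10, 6), (14, 16, 1), (13, 12, 5), (4, 17, 3), (7, 16, 4), (10, 15, 4), (27, 14, 6), (24, 2, 4), (11, 3, 6), (2, 11, 2)],
   [(2, 14, 3), (11, 17, 6), (16, 17, 7), (3, 14, 0), (20, 15, 2), (15, 2, 5), (26, 13, 6), (25, 15, 3)],
   [(19, 11, 5), (22, 2, 6), (21, 14, 4), (24, 14, 7), (11, 13, 5), (16, 16, 3), (9, 10, 4), (6, 8, 1)],
   [(0, 12, 6), (15, 13, 1), (26, 10, 5), (17, 15, 5), (6, 13, 4), (19, 17, 2), (22, 12, 2), (21, 9, 5)],
   [(6, 17, 5), (9, 12, 3), (18, 16, 5), (5, 13, 3), (28, 12, 4), (7, 17, 0), (10, 14, 1), (17, 14, 2)]]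

theorem sf0 : SurfFor W0 :=
  surfFor_of_table (T := T0) (lam := [3, 8, 0, 6, 11, 5, 7, 1, 9, 10, 2, 14, 4, 12, 13]) (rows := rows0)
    (by decide +kernel) (by decide +kernel) (by decide +kernel) (by decide +kernel)

/-- the multiplication table of presentation 1 -/
def W1 : ℕ :=
  48398297698078267773092319137701780622361095113200846526188841085479210568753301485416346205612764446461003733489230429668854889769675769789579041016618360467473986811192947365372337656985721686505912541488373259938842130648241432634361189647359628278191546108477450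

/-- a surface for presentation 1 -/
def rows1 : List (List (ℕ × ℕ × ℕ)) :=
  [[(2, 0, 5), (23, 1, 1), (14, 2, 5), (7, 2, 0), (18, 1, 2), (3, 0, 0), (16, 3, 4), (27, 3, 5)],
   [(13, 2, 6), (22, 0, 1), (19, 0, 4), (24, 2, 7), (5, 1, 7), (10, 4, 1), (11, 4, 2), (4, 1, 4)],
   [(6, 0, 3), (21, 2, 4), (26, 5, 0), (17, 5, 1), (20, 2, 1), (15, 0, 2), (12, 1, 0), (25, 1, 3)],
   [(25, 4, 4), (12, 4, 7), (15, 5, 5), (20, 3, 6), (17, 0, 6), (26, 0, 7), (21, 3, 3), (6, 5, 4)],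
   [(4, 4, 3), (11, 1, 5), (10, 1, 6), (5, 4, 0), (24, 3, 0), (19, 5, 3), (22, 5, 6), (13, 3, 1)],
   [(27, 2, 2), (16, 2, 3), (3, 5, 7), (18, 4, 5), (7, 3, 7), (14, 3, 2), (23, 4, 6), (2, 5, 2)]]

theorem sf1 : SurfFor W1 :=
  surfFor_of_table (T := T1) (lam := [0, 11, 12, 14, 3, 6, 7, 13, 1, 2, 9, 4, 10, 5, 8]) (rows := rows1)
    (by decide +kernel) (by decide +kernel) (by decide +kernel) (by decide +kernel)

/-- the multiplication table of presentation 2 -/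
def W2 : ℕ :=
  132121999592797147648263143030727410665815612866528906837765901026534320576941567777779288846764547998598630441867228115377747149882430337329058974064256401777756059268180373738917600407133243155072694368199020283397266231439951891318912506247041225641751725706408099855

/-- a surface for presentation 2 -/
def rows2 : List (List (ℕ × ℕ × ℕ)) :=
  [[(4, 1, 6), (5, 1, 7), (16, 0, 7), (13, 2, 4), (6, 3, 8), (27, 3, 1), (22, 2, 5), (17, 0, 2)],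
   [(17, 1, 5), (22, 3, 4), (27, 2, 8), (6, 2, 1), (13, 3, 5), (16, 1, 0), (5, 0, 0), (4, 0, 1)],
   [(10, 3, 6), (7, 1, 3), (28, 2, 7), (11, 3, 9), (12, 0, 3), (23, 0, 6), (20, 3, 0), (29, 2, 2), (26, 1, 2), (21, 3, 3)],
   [(21, 2, 6), (26, 0, 5), (29, 3, 7), (20, 2, 9), (23, 1, 1), (12, 1, 4), (11, 2, 0), (28, 3, 2), (7, 0, 4), (10, 2, 3)]]

theorem sf2 : SurfFor W2 :=
  surfFor_of_table (T := T2) (lam := [0, 2, 8, 6, 5, 3, 11, 14, 7, 4, 9, 13, 12, 10, 1]) (rows := rows2)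
    (by decide +kernel) (by decide +kernel) (by decide +kernel) (by decide +kernel)

/-- the multiplication table of presentation 3 -/
def W3 : ℕ :=
  1418760834229407693484342897476254416091989316060901916601436138931350070142381618036137896868903154669160100063505674289928368774139766389399359084145378368170236361355671772293584704560044865521622003874653376742169530833959603585634685581031232375320317362857574410

/-- a surface for presentation 3 -/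
def rows3 : List (List (ℕ × ℕ × ℕ)) :=
  [[(8, 1, 1), (23, 1, 4), (12, 2, 4), (29, 3, 1), (22, 4, 5), (19, 5, 5), (24, 6, 7), (25, 7, 3)],
   [(2, 1, 5), (9, 0, 0), (24, 7, 2), (19, 2, 5), (22, 0, 1), (3, 1, 0), (4, 8, 0), (17, 9, 4), (28, 10, 4), (21, 8, 1)],
   [(23, 8, 5), (20, 11, 0), (5, 4, 0), (16, 3, 2), (13, 0, 2), (18, 1, 3), (11, 7, 1), (8, 12, 1)],
   [(21, 4, 6), (28, 0, 3), (17, 2, 3), (4, 4, 7), (3, 3, 9), (22, 10, 6), (19, 9, 2), (24, 13, 5), (9, 10, 7), (2, 3, 4)],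
   [(4, 2, 2), (3, 11, 7), (22, 9, 7), (29, 12, 6), (12, 5, 6), (23, 0, 4), (20, 3, 0), (5, 3, 3)],
   [(17, 7, 5), (10, 6, 5), (25, 10, 1), (8, 13, 3), (11, 6, 8), (18, 0, 5), (13, 4, 4), (16, 12, 5), (5, 13, 0), (4, 11, 4)],
   [(4, 12, 3), (5, 7, 7), (16, 11, 2), (13, 8, 3), (18, 10, 2), (11, 5, 1), (8, 7, 4), (25, 0, 6), (10, 5, 4), (17, 13, 2)],
   [(17, 12, 2), (10, 2, 6), (25, 1, 2), (24, 0, 7), (9, 6, 6), (16, 5, 0), (5, 11, 3), (4, 6, 1)],
   [(5, 1, 6), (20, 1, 9), (23, 10, 3), (12, 6, 3), (29, 11, 1), (22, 2, 0), (3, 12, 0), (4, 9, 5)],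
   [(8, 11, 6), (11, 13, 6), (18, 3, 6), (13, 10, 5), (16, 1, 7), (5, 8, 7), (20, 12, 7), (23, 4, 2)],
   [(25, 13, 4), (24, 5, 2), (19, 6, 4), (22, 8, 2), (29, 1, 8), (12, 9, 3), (23, 3, 5), (8, 3, 8)],
   [(21, 2, 1), (28, 8, 4), (17, 6, 2), (4, 7, 6), (5, 5, 9), (16, 13, 7), (9, 9, 0), (2, 4, 1)],
   [(2, 8, 6), (9, 2, 7), (16, 7, 0), (5, 6, 0), (4, 13, 1), (17, 5, 7), (28, 4, 3), (21, 9, 6)],
   [(4, 5, 8), (5, 12, 4), (16, 6, 9), (9, 5, 3), (24, 10, 0), (25, 3, 7), (10, 9, 1), (17, 11, 5)]]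

theorem sf3 : SurfFor W3 :=
  surfFor_of_table (T := T3) (lam := [0, 7, 8, 1, 5, 14, 11, 4, 6, 2, 3, 13, 12, 9, 10]) (rows := rows3)
    (by decide +kernel) (by decide +kernel) (by decide +kernel) (by decide +kernel)

/-- the multiplication table of presentation 4 -/
def W4 : ℕ :=
  25150740618030945888556878145309672879452162379700114875998797817012707155594290169355936765635064163930007119258201188014902640204177694733989823407211555360304131792615472091448583495543502082418621849178828275786262022847275770905830562506411155700391669904462315535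

/-- a surface for presentation 4 -/
def rows4 : List (List (ℕ × ℕ × ℕ)) :=
  [[(4, 1, 4), (9, 2, 3), (20, 0, 5), (27, 3, 5), (26, 3, 6), (21, 0, 2), (6, 2, 2), (25, 1, 1), (22, 4, 0), (17, 2, 7)],
   [(29, 4, 1), (24, 0, 7), (13, 2, 1), (2, 2, 4), (5, 0, 0), (12, 2, 6), (7, 2, 9), (20, 4, 8), (27, 5, 6), (0, 5, 1)],
   [(25, 2, 5), (12, 1, 2), (7, 0, 6), (8, 0, 1), (3, 1, 3), (24, 2, 0), (13, 1, 5), (16, 0, 9), (11, 4, 9), (6, 1, 6)],
   [(17, 6, 2), (22, 7, 9), (25, 8, 8), (6, 6, 7), (21, 3, 7), (26, 0, 3), (27, 0, 4), (20, 3, 4), (9, 6, 6), (4, 8, 5)],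
   [(23, 0, 8), (28, 1, 0), (1, 5, 0), (18, 4, 6), (15, 9, 3), (14, 9, 4), (19, 4, 3), (26, 5, 7), (21, 1, 7), (10, 2, 8)],
   [(0, 4, 2), (1, 1, 9), (18, 5, 5), (15, 7, 4), (14, 7, 5), (19, 5, 2), (26, 1, 8), (27, 4, 7)],
   [(6, 8, 3), (11, 7, 0), (16, 3, 0), (13, 8, 4), (24, 6, 9), (3, 8, 6), (8, 3, 8), (7, 3, 3), (12, 8, 7), (25, 6, 4)],
   [(10, 6, 1), (21, 8, 2), (26, 9, 0), (19, 7, 6), (14, 5, 3), (15, 5, 4), (18, 7, 3), (1, 9, 7), (28, 8, 9), (23, 3, 1)],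
   [(0, 9, 6), (27, 9, 1), (20, 7, 1), (7, 6, 0), (12, 6, 3), (5, 3, 9), (2, 6, 5), (13, 6, 8), (24, 3, 2), (29, 7, 8)],
   [(27, 7, 2), (26, 8, 1), (19, 9, 5), (14, 4, 4), (15, 4, 5), (18, 9, 2), (1, 8, 0), (0, 7, 7)]]

theorem sf4 : SurfFor W4 :=
  surfFor_of_table (T := T4) (lam := [0, 12, 3, 13, 8, 11, 5, 14, 7, 4, 9, 6, 10, 1, 2]) (rows := rows4)
    (by decide +kernel) (by decide +kernel) (by decide +kernel) (by decide +kernel)

/-- the multiplication table of presentation 5 -/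
def W5 : ℕ :=
  66149672279346768529954800733829645386564911581816724841835626579862108193266788048135277900354688455369767556604054339703283053963001757854969545206729808055644176259253545180249601124574453329877534599706473194547810658955268279248598833406263188375979844594932121615

/-- a surface for presentation 5 -/
def rows5 : List (List (ℕ × ℕ × ℕ)) :=
  [[(4, 1, 1), (3, 2, 0), (10, 3, 6), (21, 4, 3), (6, 5, 3), (23, 6, 3), (12, 3, 2), (5, 7, 7), (20, 8, 1), (25, 8, 4)],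
   [(8, 2, 1), (5, 0, 0), (12, 8, 3), (23, 7, 5), (22, 9, 4), (11, 10, 6), (14, 10, 9), (17, 5, 6)],
   [(2, 0, 1), (9, 1, 0), (14, 5, 5), (17, 4, 1), (8, 10, 1), (5, 10, 4), (20, 9, 6), (25, 7, 3), (16, 4, 6), (15, 3, 7)],
   [(15, 6, 1), (24, 7, 0), (13, 0, 6), (10, 6, 2), (3, 3, 9), (4, 4, 4), (11, 0, 2), (14, 2, 9), (9, 4, 5), (2, 3, 4)],
   [(15, 10, 2), (16, 2, 3), (25, 5, 4), (20, 0, 3), (5, 3, 5), (8, 3, 8), (17, 2, 8), (14, 7, 2), (9, 6, 7), (2, 9, 8)],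
   [(4, 9, 2), (11, 11, 5), (22, 6, 4), (7, 0, 4), (24, 4, 2), (15, 2, 2), (16, 1, 7), (25, 10, 8)],
   [(17, 7, 1), (14, 3, 0), (11, 3, 3), (22, 0, 5), (23, 5, 2), (12, 11, 4), (5, 9, 9), (8, 4, 8)],
   [(25, 3, 1), (16, 6, 0), (15, 4, 7), (24, 2, 7), (7, 9, 5), (22, 1, 3), (11, 8, 2), (4, 0, 7)],
   [(6, 8, 5), (21, 0, 8), (10, 7, 6), (13, 1, 2), (24, 0, 9), (7, 8, 0), (22, 11, 0), (23, 11, 1)],
   [(25, 11, 3), (20, 11, 6), (5, 5, 0), (12, 10, 7), (23, 1, 4), (6, 7, 4), (21, 2, 6), (10, 10, 3), (3, 4, 9), (4, 6, 6)],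
   [(2, 10, 5), (9, 2, 4), (14, 4, 0), (11, 9, 7), (4, 2, 5), (3, 10, 0), (10, 1, 5), (13, 9, 3), (24, 5, 7), (15, 1, 6)],
   [(23, 8, 6), (22, 8, 7), (7, 11, 7), (24, 9, 0), (13, 6, 5), (10, 5, 1), (21, 9, 1), (6, 11, 2)]]

theorem sf5 : SurfFor W5 :=
  surfFor_of_table (T := T5) (lam := [0, 6, 13, 2, 4, 7, 12, 5, 14, 11, 9, 10, 8, 3, 1]) (rows := rows5)
    (by decide +kernel) (by decide +kernel) (by decide +kernel) (by decide +kernel)

end Pool.Agent.TriSurf
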