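import Pool.Agent.TriSurf.SData
import Pool.Agent.TriSurf.Pres

/-!
# Surfaces
-/

set_option autoImplicit false
set_option maxRecDepth 100000

namespace Pool.Agent.TriSurf

/-- the multiplication table of presentation 6 -/
def W6 : ℕ :=
  9286427305119122990102310265270464296407153257154848325721235807273883224574245156827862004372360806717219249911011005966384030475391192610190352042519844727971712680028890704507190422278541139620985238389719832165777663413807495381303906559236953244034180583186759695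

/-- a surface for presentation 6 -/
def rows6 : List (List (ℕ × ℕ × ℕ)) :=
  [[(2, 1, 4), (15, 2, 6), (12, 3, 1), (13, 4, 4), (20, 0, 7), (11, 5, 1), (4, 5, 2), (21, 0, 4), (14, 4, 3), (23, 6, 3)],
   [(27, 7, 8), (14, 8, 8), (23, 9, 2), (26, 2, 7), (3, 0, 0), (20, 6, 2), (13, 10, 7), (8, 11, 2)],
   [(8, 9, 1), (5, 8, 5), (24, 12, 0), (29, 11, 5), (22, 10, 0), (21, 3, 2), (14, 0, 1), (27, 1, 3)],
   [(8, 4, 5), (13, 0, 2), (20, 2, 5), (3, 10, 9), (26, 6, 0), (23, 5, 5), (14, 7, 1), (27, 8, 1)],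
   [(4, 13, 5), (7, 13, 0), (28, 6, 4), (15, 0, 8), (12, 0, 3), (9, 3, 0), (22, 8, 0), (21, 7, 6)],
   [(25, 5, 3), (10, 0, 5), (5, 0, 6), (24, 5, 0), (29, 7, 2), (22, 3, 5), (9, 6, 7), (6, 7, 3)],
   [(27, 3, 4), (14, 10, 8), (21, 1, 5), (22, 0, 9), (29, 4, 2), (24, 13, 7), (5, 7, 4), (8, 5, 6)],
   [(2, 8, 2), (15, 3, 6), (28, 5, 4), (7, 5, 7), (4, 6, 6), (11, 13, 6), (20, 4, 7), (3, 8, 9), (26, 1, 0), (23, 11, 1)],
   [(23, 4, 6), (26, 3, 7), (3, 7, 0), (20, 11, 0), (11, 12, 1), (4, 2, 1), (7, 9, 0), (28, 9, 3), (15, 1, 1), (2, 7, 7)],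
   [(6, 8, 6), (9, 2, 0), (22, 1, 2), (29, 8, 7), (24, 9, 7), (5, 10, 3), (10, 10, 4), (25, 9, 4)],
   [(23, 2, 4), (14, 11, 4), (21, 10, 5), (4, 9, 5), (11, 9, 6), (20, 10, 2), (13, 11, 3), (12, 1, 6), (15, 6, 1), (2, 3, 3)],
   [(21, 8, 3), (22, 7, 9), (9, 1, 7), (12, 10, 6), (15, 10, 1), (28, 2, 3), (7, 12, 7), (4, 12, 2)],
   [(25, 2, 2), (10, 8, 4), (5, 11, 7), (8, 12, 6), (13, 13, 2), (12, 13, 3), (9, 12, 3), (6, 11, 6)],
   [(6, 4, 1), (9, 13, 4), (12, 12, 4), (13, 12, 5), (8, 13, 1), (5, 4, 0), (10, 7, 5), (25, 6, 5)]]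

theorem sf6 : SurfFor W6 :=
  surfFor_of_table (T := T6) (lam := [0, 1, 12, 6, 10, 8, 13, 3, 11, 5, 7, 4, 9, 14, 2]) (rows := rows6)
    (by decide +kernel) (by decide +kernel) (by decide +kernel) (by decide +kernel)

/-- the multiplication table of presentation 7 -/
def W7 : ℕ :=
  16509204183034689586217099163145000193303555977229828572821936510967295142820734304879967862785735553039166081893160633189909269026128854755677846377974147912026653183255548315161249860453420658910700913141538297237770267828358870085127736201233980161255967147897651210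

/-- a surface for presentation 7 -/
def rows7 : List (List (ℕ × ℕ × ℕ)) :=
  [[(4, 1, 6), (11, 0, 6), (20, 2, 2), (5, 3, 4), (8, 4, 0), (29, 2, 3), (10, 0, 1), (21, 1, 5)],
   [(7, 5, 4), (14, 6, 7), (17, 7, 5), (26, 5, 5), (9, 1, 7), (20, 0, 7), (5, 0, 0), (8, 1, 4)],
   [(29, 4, 5), (10, 3, 5), (21, 0, 2), (28, 0, 5), (1, 4, 7), (18, 5, 7), (7, 7, 3), (8, 5, 1)],
   [(0, 8, 3), (1, 9, 7), (28, 8, 7), (21, 4, 1), (4, 0, 3), (11, 2, 1), (20, 4, 4), (9, 10, 3)],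
   [(9, 0, 4), (20, 3, 3), (11, 8, 6), (4, 10, 4), (21, 3, 6), (28, 2, 0), (1, 5, 0), (0, 2, 4)],
   [(0, 4, 6), (9, 2, 7), (26, 7, 2), (3, 6, 0), (6, 1, 0), (27, 1, 3), (22, 7, 4), (19, 2, 5)],
   [(2, 5, 3), (13, 7, 1), (16, 11, 5), (23, 9, 1), (6, 8, 1), (27, 9, 5), (12, 7, 6), (15, 1, 1)],
   [(15, 11, 6), (12, 6, 1), (27, 5, 2), (6, 2, 6), (23, 5, 6), (16, 1, 2), (13, 6, 6), (2, 9, 4)],
   [(8, 9, 6), (7, 6, 4), (18, 9, 0), (1, 3, 0), (28, 10, 2), (21, 10, 5), (10, 4, 2), (29, 3, 2)],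
   [(19, 8, 2), (22, 6, 3), (27, 11, 4), (6, 11, 7), (3, 7, 7), (26, 6, 5), (9, 8, 0), (0, 3, 1)],
   [(21, 11, 2), (10, 10, 6), (29, 8, 4), (8, 3, 7), (5, 4, 3), (20, 8, 5), (11, 10, 1), (4, 11, 1)],
   [(8, 11, 3), (5, 10, 7), (20, 10, 0), (9, 11, 0), (26, 9, 2), (17, 6, 2), (14, 7, 0), (7, 9, 3)]]

theorem sf7 : SurfFor W7 :=
  surfFor_of_table (T := T7) (lam := [0, 9, 13, 14, 1, 8, 5, 3, 4, 2, 6, 11, 7, 10, 12]) (rows := rows7)
    (by decide +kernel) (by decide +kernel) (by decide +kernel) (by decide +kernel)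

/-- the multiplication table of presentation 8 -/
def W8 : ℕ :=
  8254759493034212411787653161836191725096140933907308939272849376890724752284536915590080792849288882381313874662188889354623061691494868386168657417870355211560687517789620840975899348255468685959964358918471178717566624065715329939975940349417990960643979102079942880

/-- a surface for presentation 8 -/
def rows8 : List (List (ℕ × ℕ × ℕ)) :=
  [[(0, 1, 6), (3, 2, 7), (20, 3, 9), (17, 4, 5), (8, 4, 0), (13, 5, 1), (24, 6, 5), (27, 7, 2)],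
   [(29, 8, 1), (16, 9, 4), (25, 10, 4), (18, 11, 6), (9, 12, 0), (28, 2, 0), (1, 0, 0), (2, 7, 1)],
   [(29, 1, 5), (16, 12, 7), (25, 13, 1), (18, 8, 6), (11, 9, 7), (14, 7, 5), (5, 3, 0), (2, 0, 1)],
   [(4, 2, 6), (7, 7, 4), (10, 6, 3), (13, 8, 3), (8, 7, 9), (17, 14, 6), (12, 15, 2), (15, 16, 2), (22, 4, 6), (21, 0, 2)],
   [(9, 0, 4), (28, 4, 4), (1, 17, 0), (2, 17, 1), (29, 4, 1), (16, 0, 3), (23, 3, 8), (20, 16, 1), (3, 18, 0), (0, 5, 2)],
   [(17, 6, 6), (12, 0, 5), (1, 4, 9), (28, 18, 9), (9, 16, 4), (18, 15, 0), (11, 18, 4), (8, 14, 3)],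
   [(2, 13, 6), (5, 9, 9), (14, 8, 4), (11, 3, 2), (18, 7, 3), (25, 0, 6), (16, 5, 0), (29, 14, 2)],
   [(0, 8, 2), (3, 1, 7), (26, 0, 7), (19, 6, 4), (6, 3, 1), (15, 2, 5), (12, 9, 6), (1, 8, 9), (28, 14, 7), (9, 3, 4)],
   [(9, 9, 5), (28, 1, 0), (1, 7, 0), (12, 3, 3), (15, 6, 2), (6, 9, 8), (19, 2, 3), (26, 13, 0), (3, 14, 0), (0, 7, 7)],
   [(21, 13, 5), (22, 19, 3), (15, 20, 5), (12, 10, 5), (17, 1, 1), (8, 8, 0), (13, 7, 6), (10, 2, 4), (7, 8, 5), (4, 6, 1)],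
   [(6, 11, 4), (15, 21, 3), (22, 20, 0), (27, 11, 7), (24, 1, 2), (13, 9, 3), (10, 20, 4), (19, 12, 2)],
   [(29, 12, 4), (16, 20, 2), (23, 21, 1), (4, 21, 4), (7, 10, 0), (10, 12, 1), (19, 1, 3), (26, 10, 3), (5, 20, 7), (2, 19, 1)],
   [(8, 1, 4), (11, 11, 5), (18, 10, 7), (9, 20, 3), (28, 11, 0), (1, 19, 0), (12, 13, 2), (17, 2, 1)],
   [(27, 8, 7), (24, 2, 2), (13, 12, 6), (8, 19, 9), (17, 19, 4), (20, 9, 0), (3, 6, 0), (0, 14, 1)],
   [(2, 8, 8), (1, 13, 7), (28, 6, 7), (9, 5, 7), (18, 18, 3), (25, 15, 3), (16, 3, 5), (29, 7, 8)],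
   [(19, 5, 5), (10, 16, 3), (13, 3, 6), (24, 14, 5), (27, 18, 2), (22, 16, 7), (15, 17, 4), (6, 18, 5)],
   [(4, 18, 1), (21, 4, 7), (14, 3, 7), (11, 15, 1), (8, 5, 4), (17, 18, 8), (20, 17, 5), (23, 15, 5)],
   [(0, 4, 2), (3, 4, 3), (26, 17, 7), (5, 18, 6), (14, 15, 6), (21, 16, 6), (22, 18, 7), (27, 17, 2)],
   [(2, 4, 8), (5, 16, 0), (26, 15, 4), (19, 14, 4), (10, 5, 6), (7, 15, 7), (4, 17, 3), (23, 17, 6), (16, 16, 5), (29, 5, 3)],
   [(0, 12, 5), (3, 11, 9), (20, 20, 6), (23, 9, 1), (16, 13, 4), (29, 19, 8), (2, 21, 6), (1, 21, 7), (28, 19, 5), (9, 13, 3)],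
   [(23, 10, 2), (20, 21, 2), (17, 11, 1), (8, 12, 3), (11, 10, 6), (14, 9, 2), (21, 19, 2), (4, 11, 8)],
   [(27, 21, 5), (22, 11, 2), (21, 20, 1), (14, 10, 1), (5, 11, 3), (26, 21, 0), (3, 19, 6), (0, 19, 7)]]

theorem sf8 : SurfFor W8 :=
  surfFor_of_table (T := T8) (lam := [3, 1, 4, 6, 0, 14, 12, 10, 13, 9, 7, 8, 11, 2, 5]) (rows := rows8)
    (by decide +kernel) (by decide +kernel) (by decide +kernel) (by decide +kernel)

/-- the multiplication table of presentation 9 -/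
def W9 : ℕ :=
  2063902422712903705979617933258251106473903899052116182227401816602575453919684968987704211113710671812372051533658594279274217659166491812369313699425555518246199225923730141505496016842614282444187356533130315256359602635379689091930266469748842555941235777570078730

/-- a surface for presentation 9 -/
def rows9 : List (List (ℕ × ℕ × ℕ)) :=
  [[(4, 1, 4), (7, 2, 0), (20, 3, 0), (25, 2, 4), (26, 2, 7), (23, 1, 7), (10, 1, 0), (21, 3, 5)],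
   [(11, 0, 6), (18, 1, 6), (27, 3, 3), (8, 2, 1), (5, 0, 0), (24, 3, 4), (19, 1, 1), (22, 0, 5), (9, 2, 6), (6, 3, 6)],
   [(6, 0, 1), (9, 1, 3), (22, 3, 2), (19, 2, 8), (24, 0, 3), (5, 3, 7), (8, 1, 8), (27, 0, 4), (18, 2, 3), (11, 3, 1)],
   [(21, 0, 2), (10, 2, 9), (23, 2, 2), (26, 1, 2), (25, 1, 5), (20, 0, 7), (7, 1, 9), (4, 2, 5)]]

theorem sf9 : SurfFor W9 :=
  surfFor_of_table (T := T9) (lam := [0, 13, 12, 8, 10, 11, 4, 3, 7, 2, 6, 9, 1, 14, 5]) (rows := rows9)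
    (by decide +kernel) (by decide +kernel) (by decide +kernel) (by decide +kernel)

/-- the multiplication table of presentation 10 -/
def W10 : ℕ :=
  3698061719794704177618456030669981596843243911984331156636697328696077179408520069402203773521063786047206860699066091517141520031709414832747544966762275320030453031366080369344085861243727374738382837185356332962178957330254635585275487444774415775371816157950844600330

/-- a surface for presentation 10 -/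
def rows10 : List (List (ℕ × ℕ × ℕ)) :=
  [[(4, 1, 2), (13, 2, 1), (28, 3, 6), (1, 3, 9), (18, 4, 7), (9, 5, 4), (14, 6, 2), (21, 7, 6)],
   [(19, 8, 3), (24, 2, 2), (5, 0, 0), (2, 7, 5), (17, 9, 6), (26, 10, 5), (3, 5, 0), (0, 9, 1)],
   [(29, 3, 7), (12, 0, 1), (25, 1, 1), (8, 8, 2), (9, 11, 4), (14, 12, 6), (17, 13, 5), (2, 4, 1)],
   [(3, 3, 5), (20, 13, 2), (27, 12, 3), (16, 4, 3), (5, 13, 3), (2, 3, 0), (29, 0, 2), (28, 2, 0), (1, 4, 0), (0, 0, 3)],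
   [(0, 3, 8), (3, 2, 7), (26, 13, 4), (17, 3, 3), (2, 12, 2), (5, 8, 7), (24, 5, 5), (19, 0, 4)],
   [(2, 1, 6), (17, 10, 4), (14, 7, 1), (9, 6, 3), (8, 0, 5), (25, 4, 6), (12, 8, 6), (29, 9, 2)],
   [(19, 6, 5), (24, 7, 7), (15, 0, 6), (8, 5, 3), (9, 7, 0), (18, 6, 0), (1, 11, 0), (0, 11, 1)],
   [(8, 6, 4), (15, 5, 2), (10, 10, 3), (23, 10, 8), (26, 9, 7), (3, 1, 3), (20, 0, 7), (25, 6, 1)],
   [(21, 12, 1), (14, 11, 5), (9, 2, 3), (18, 1, 0), (1, 9, 0), (28, 9, 3), (13, 5, 6), (4, 4, 5)],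
   [(0, 8, 4), (1, 1, 7), (28, 5, 7), (29, 8, 5), (2, 9, 9), (5, 10, 6), (16, 1, 4), (27, 7, 4), (20, 10, 7), (3, 9, 4)],
   [(0, 13, 8), (1, 13, 9), (18, 10, 9), (11, 7, 2), (16, 5, 1), (27, 1, 5), (4, 9, 5), (21, 9, 8), (22, 7, 3), (19, 10, 2)],
   [(0, 6, 6), (1, 6, 7), (18, 11, 7), (9, 12, 7), (8, 2, 4), (15, 8, 1), (24, 12, 0), (19, 11, 2)],
   [(25, 11, 6), (20, 8, 0), (3, 4, 4), (26, 3, 2), (23, 13, 1), (10, 13, 6), (15, 2, 5), (8, 11, 3)],
   [(19, 13, 7), (22, 12, 4), (21, 3, 1), (4, 3, 4), (27, 4, 2), (16, 2, 6), (11, 12, 5), (18, 13, 0), (1, 10, 0), (0, 10, 1)]]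

theorem sf10 : SurfFor W10 :=
  surfFor_of_table (T := T10) (lam := [0, 1, 5, 10, 14, 11, 6, 12, 4, 2, 7, 9, 13, 8, 3]) (rows := rows10)
    (by decide +kernel) (by decide +kernel) (by decide +kernel) (by decide +kernel)

/-- the multiplication table of presentation 11 -/
def W11 : ℕ :=
  17025116726051719372216234123864852174647911309013805694775185604913047268634051094101383795660207981945677888942140324401543526248681354191710167558896102553702819452067984518647432987804195697385105512282939254061910253436374803919065667476214329455454378830940078095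

/-- a surface for presentation 11 -/
def rows11 : List (List (ℕ × ℕ × ℕ)) :=
  [[(2, 1, 8), (15, 2, 8), (12, 0, 5), (21, 3, 3), (20, 3, 4), (13, 0, 2), (26, 2, 7), (25, 1, 5)],
   [(17, 2, 2), (14, 3, 6), (27, 3, 1), (8, 2, 3), (5, 1, 9), (24, 0, 7), (9, 2, 6), (16, 2, 9), (3, 0, 0), (4, 1, 4)],
   [(4, 2, 5), (3, 3, 7), (16, 1, 0), (9, 1, 3), (24, 3, 0), (5, 2, 0), (8, 1, 6), (27, 0, 6), (14, 0, 1), (17, 1, 7)],
   [(25, 2, 4), (26, 1, 2), (13, 3, 5), (20, 0, 3), (21, 0, 4), (12, 3, 2), (15, 1, 1), (2, 2, 1)]]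

theorem sf11 : SurfFor W11 :=
  surfFor_of_table (T := T11) (lam := [0, 8, 12, 6, 5, 11, 1, 3, 7, 10, 13, 9, 4, 14, 2]) (rows := rows11)
    (by decide +kernel) (by decide +kernel) (by decide +kernel) (by decide +kernel)

end Pool.Agent.TriSurf
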