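import Pool.Agent.TriSurf.SData
import Pool.Agent.TriSurf.Pres

/-!
# Surfaces
-/

set_option autoImplicit false
set_option maxRecDepth 100000

namespace Pool.Agent.TriSurf

/-- the multiplication table of presentation 12 -/
def W12 : ℕ :=
  99168080475325846426976036797701758071689787985116731058139891793687086930394823004249144641285474030314860440027765764351166749805321300671122757156155641673944706475335794208340994551534356105958386011136070190420805005381529056455453371691176295596123170011674050575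

/-- a surface for presentation 12 -/
def rows12 : List (List (ℕ × ℕ × ℕ)) :=
  [[(2, 1, 6), (5, 2, 7), (12, 3, 7), (23, 4, 2), (8, 2, 2), (15, 5, 0), (24, 5, 5), (19, 6, 2)],
   [(29, 7, 7), (20, 6, 5), (25, 8, 1), (16, 8, 4), (19, 5, 2), (24, 2, 0), (3, 0, 0), (0, 6, 1)],
   [(25, 1, 5), (16, 5, 1), (9, 0, 4), (6, 4, 1), (13, 4, 4), (22, 3, 5), (7, 3, 0), (4, 0, 1)],
   [(6, 2, 6), (9, 3, 4), (18, 7, 2), (17, 7, 3), (8, 3, 1), (23, 2, 5), (12, 4, 3), (13, 0, 2)],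
   [(4, 4, 5), (7, 2, 3), (22, 0, 3), (13, 3, 6), (12, 2, 4), (5, 4, 0), (28, 5, 7), (27, 5, 8)],
   [(14, 0, 5), (17, 2, 1), (18, 1, 4), (9, 8, 3), (16, 6, 3), (25, 0, 6), (20, 5, 9), (29, 4, 6), (26, 4, 7), (21, 5, 6)],
   [(0, 7, 8), (1, 1, 7), (18, 0, 7), (17, 5, 4), (14, 8, 2), (21, 1, 1), (26, 7, 6), (29, 8, 7)],
   [(3, 8, 9), (24, 7, 4), (19, 3, 2), (16, 3, 3), (25, 7, 1), (4, 8, 8), (27, 6, 6), (28, 1, 0), (1, 6, 0), (0, 8, 6)],
   [(19, 8, 5), (24, 1, 2), (15, 6, 4), (8, 5, 3), (17, 1, 3), (18, 8, 0), (1, 7, 9), (28, 6, 7), (5, 7, 5), (2, 7, 0)]]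

theorem sf12 : SurfFor W12 :=
  surfFor_of_table (T := T12) (lam := [0, 2, 3, 7, 11, 9, 10, 12, 14, 5, 4, 13, 8, 6, 1]) (rows := rows12)
    (by decide +kernel) (by decide +kernel) (by decide +kernel) (by decide +kernel)

/-- the multiplication table of presentation 13 -/
def W13 : ℕ :=
  198182999389195717919324760300550823840878953301312598867104783871538225232774333520713136397870477250378266164356709416374708102978654738887259160106032968747096044953220367014101826114362500967968414929995365716106988565981707187433234412694485013843226172606403051535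

/-- a surface for presentation 13 -/
def rows13 : List (List (ℕ × ℕ × ℕ)) :=
  [[(2, 1, 2), (9, 0, 4), (24, 2, 7), (5, 2, 0), (8, 0, 1), (15, 1, 1), (12, 3, 2), (17, 3, 5)],
   [(25, 3, 3), (14, 0, 5), (3, 0, 0), (8, 3, 4), (5, 1, 7), (10, 4, 1), (11, 4, 2), (4, 1, 4)],
   [(4, 0, 3), (23, 2, 6), (16, 5, 0), (9, 4, 4), (24, 4, 7), (13, 5, 1), (22, 2, 1), (25, 0, 2)],
   [(25, 5, 5), (22, 3, 6), (13, 0, 6), (24, 1, 0), (9, 1, 3), (16, 0, 7), (23, 3, 1), (4, 5, 4)],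
   [(4, 4, 3), (11, 1, 5), (10, 1, 6), (5, 4, 0), (8, 2, 3), (3, 5, 7), (14, 5, 2), (25, 2, 4)],
   [(17, 2, 2), (12, 2, 5), (15, 4, 6), (8, 5, 6), (5, 3, 7), (24, 3, 0), (9, 5, 3), (2, 4, 5)]]

theorem sf13 : SurfFor W13 :=
  surfFor_of_table (T := T13) (lam := [0, 14, 12, 4, 5, 6, 2, 13, 3, 10, 11, 8, 7, 9, 1]) (rows := rows13)
    (by decide +kernel) (by decide +kernel) (by decide +kernel) (by decide +kernel)

/-- the multiplication table of presentation 14 -/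
def W14 : ℕ :=
  396269265160629770824880518362425368941424036096316249524401513358977055191622810345505802235229839393636746922796826864200809506063968016132723817563121787665286621662753857151895062957454069206434720430345715844564832177740092015988854705074574034523938107380224491535

/-- a surface for presentation 14 -/
def rows14 : List (List (ℕ × ℕ × ℕ)) :=
  [[(0, 1, 6), (1, 1, 7), (28, 0, 7), (23, 2, 1), (10, 3, 6), (7, 4, 7), (26, 2, 2), (29, 0, 2)],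
   [(29, 1, 5), (26, 5, 5), (7, 6, 0), (10, 7, 1), (23, 5, 6), (28, 1, 0), (1, 0, 0), (0, 0, 1)],
   [(3, 3, 7), (22, 0, 3), (27, 0, 6), (6, 4, 6), (13, 8, 4), (18, 8, 7), (1, 8, 0), (0, 4, 2)],
   [(19, 4, 1), (26, 3, 4), (7, 7, 4), (6, 7, 5), (27, 3, 1), (12, 4, 0), (11, 0, 4), (2, 2, 0)],
   [(13, 3, 5), (18, 3, 0), (1, 2, 7), (28, 8, 9), (23, 8, 2), (10, 8, 5), (7, 2, 3), (6, 0, 5)],
   [(0, 6, 5), (1, 9, 9), (18, 9, 2), (13, 9, 5), (6, 6, 1), (27, 1, 1), (22, 1, 4), (3, 7, 0)],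
   [(6, 1, 2), (7, 5, 4), (10, 9, 4), (23, 9, 7), (28, 9, 0), (1, 5, 0), (18, 7, 7), (13, 7, 2)],
   [(2, 5, 7), (11, 1, 3), (12, 6, 7), (27, 7, 6), (6, 3, 2), (7, 3, 3), (26, 7, 3), (19, 6, 6)],
   [(0, 2, 6), (3, 8, 6), (22, 4, 4), (27, 8, 8), (12, 2, 4), (11, 4, 5), (2, 8, 1), (19, 2, 5), (26, 8, 3), (29, 4, 3)],
   [(29, 6, 4), (26, 9, 6), (19, 5, 2), (2, 9, 8), (11, 6, 2), (12, 5, 3), (27, 9, 1), (22, 6, 3), (3, 9, 3), (0, 5, 1)]]

theorem sf14 : SurfFor W14 :=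
  surfFor_of_table (T := T14) (lam := [0, 2, 5, 9, 13, 3, 11, 8, 14, 4, 12, 6, 7, 10, 1]) (rows := rows14)
    (by decide +kernel) (by decide +kernel) (by decide +kernel) (by decide +kernel)

/-- the multiplication table of presentation 15 -/
def W15 : ℕ :=
  7305403454743155239107412546748928954004200611062975857573854316762787318909513238759099878884894082884079289227589900850951870207300415128465225695289886882444194210703193206177285089057404082407672521624399216433805277710922108824094939458923358872141340816179210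

/-- a surface for presentation 15 -/
def rows15 : List (List (ℕ × ℕ × ℕ)) :=
  [[(4, 1, 7), (13, 2, 7), (16, 3, 9), (29, 4, 2), (6, 5, 8), (23, 6, 3), (12, 2, 4), (15, 7, 4), (28, 8, 3), (27, 9, 8)],
   [(8, 9, 7), (3, 10, 3), (12, 11, 2), (23, 9, 2), (22, 12, 4), (21, 3, 4), (14, 2, 8), (5, 0, 0)],
   [(17, 12, 7), (14, 11, 6), (21, 13, 1), (4, 7, 5), (13, 0, 6), (20, 6, 2), (3, 3, 0), (12, 0, 1), (15, 1, 6), (2, 3, 3)],
   [(2, 2, 6), (15, 6, 1), (12, 12, 8), (3, 2, 9), (20, 1, 5), (13, 12, 3), (4, 14, 4), (21, 15, 6), (14, 4, 3), (17, 0, 2)],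
   [(0, 10, 8), (1, 5, 9), (28, 0, 3), (15, 3, 8), (2, 15, 5), (11, 7, 0), (16, 8, 7), (13, 6, 5), (20, 5, 6), (19, 15, 2)],
   [(19, 10, 7), (26, 12, 0), (9, 6, 7), (10, 8, 5), (27, 7, 2), (4, 15, 3), (21, 4, 8), (22, 6, 4), (7, 0, 4), (0, 4, 1)],
   [(5, 12, 9), (14, 3, 1), (21, 2, 5), (22, 0, 5), (23, 5, 7), (12, 4, 7), (3, 8, 6), (8, 5, 2)],
   [(10, 4, 5), (9, 15, 4), (26, 5, 4), (17, 8, 4), (14, 0, 7), (5, 2, 3), (18, 13, 0), (1, 16, 0), (28, 16, 3), (27, 8, 8)],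
   [(0, 13, 6), (1, 11, 9), (18, 9, 9), (29, 0, 8), (16, 7, 3), (11, 5, 3), (2, 6, 6), (17, 4, 6), (26, 7, 9), (19, 16, 2)],
   [(0, 11, 8), (7, 12, 5), (22, 1, 3), (21, 11, 1), (4, 13, 4), (27, 14, 7), (10, 10, 4), (9, 1, 0), (26, 0, 9), (19, 8, 2)],
   [(19, 17, 5), (26, 14, 0), (17, 11, 3), (2, 1, 1), (11, 9, 6), (16, 14, 6), (29, 12, 1), (18, 5, 0), (1, 4, 0), (0, 15, 1)],
   [(19, 13, 5), (20, 9, 3), (13, 1, 2), (16, 10, 2), (11, 14, 9), (2, 13, 2), (15, 2, 1), (28, 12, 6), (1, 9, 0), (0, 8, 1)],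
   [(27, 5, 1), (28, 10, 6), (15, 14, 5), (12, 3, 5), (23, 1, 4), (6, 9, 1), (29, 11, 7), (16, 2, 0), (13, 3, 2), (4, 6, 0)],
   [(19, 7, 6), (20, 2, 2), (3, 11, 5), (8, 14, 8), (5, 9, 4), (18, 11, 0), (1, 8, 0), (0, 16, 1)],
   [(27, 10, 1), (28, 17, 4), (1, 17, 7), (18, 15, 7), (5, 3, 6), (14, 12, 2), (17, 10, 5), (26, 9, 5), (9, 13, 3), (10, 11, 4)],
   [(0, 17, 6), (1, 10, 9), (18, 4, 9), (5, 5, 5), (8, 7, 1), (3, 4, 4), (20, 3, 7), (19, 14, 3)],
   [(0, 7, 7), (1, 13, 7), (18, 8, 9), (29, 7, 8), (6, 16, 7), (23, 17, 1), (22, 17, 2), (7, 16, 4)],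
   [(7, 17, 3), (22, 16, 5), (23, 16, 6), (6, 17, 0), (29, 14, 1), (18, 10, 0), (1, 15, 0), (0, 14, 2)]]

theorem sf15 : SurfFor W15 :=
  surfFor_of_table (T := T15) (lam := [0, 13, 14, 2, 9, 5, 8, 3, 4, 1, 7, 10, 12, 6, 11]) (rows := rows15)
    (by decide +kernel) (by decide +kernel) (by decide +kernel) (by decide +kernel)

/-- the multiplication table of presentation 16 -/
def W16 : ℕ :=
  5545966765725860314722921163257888679875515112141285874121860541744139365189613746252722276067173639480931290871495554085851659690504220340055924144545538689711713931562352940975220456322198817474919768551004353406099202433036330376568136732178107822479239104430090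

/-- a surface for presentation 16 -/
def rows16 : List (List (ℕ × ℕ × ℕ)) :=
  [[(0, 1, 6), (1, 1, 7), (18, 0, 7), (25, 2, 8), (6, 3, 4), (13, 4, 5), (26, 2, 9), (19, 0, 2)],
   [(19, 1, 5), (26, 4, 0), (13, 2, 4), (6, 5, 5), (25, 4, 1), (18, 1, 0), (1, 0, 0), (0, 0, 1)],
   [(10, 4, 4), (3, 3, 9), (28, 6, 5), (21, 5, 6), (12, 1, 2), (11, 4, 9), (22, 5, 9), (9, 3, 5), (24, 0, 3), (27, 0, 6)],
   [(23, 4, 3), (26, 5, 3), (19, 7, 3), (20, 4, 6), (7, 0, 4), (8, 2, 7), (27, 5, 8), (24, 6, 3), (15, 6, 6), (2, 2, 1)],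
   [(27, 1, 1), (24, 1, 4), (9, 5, 4), (22, 3, 0), (11, 2, 0), (12, 0, 5), (21, 3, 3), (28, 7, 2), (3, 5, 0), (10, 2, 5)],
   [(2, 4, 8), (15, 7, 1), (24, 7, 4), (27, 3, 1), (8, 4, 2), (7, 1, 3), (20, 2, 3), (19, 6, 4), (26, 3, 6), (23, 2, 6)],
   [(4, 7, 6), (5, 7, 7), (16, 6, 7), (25, 3, 7), (18, 5, 7), (29, 2, 2), (14, 3, 8), (17, 6, 2)],
   [(17, 7, 5), (14, 5, 1), (29, 4, 7), (18, 3, 2), (25, 5, 2), (16, 7, 0), (5, 6, 0), (4, 6, 1)]]

theorem sf16 : SurfFor W16 :=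
  surfFor_of_table (T := T16) (lam := [0, 6, 8, 13, 2, 10, 9, 5, 7, 1, 3, 4, 11, 12, 14]) (rows := rows16)
    (by decide +kernel) (by decide +kernel) (by decide +kernel) (by decide +kernel)

/-- the multiplication table of presentation 17 -/
def W17 : ℕ :=
  1676717394266805571830979722353920551730803115789143490040619321035009138875188106112342318257592076213682405674754823540846186532570966660906050019527139735112708095661074861794921111153404868529618655124670250349652682968587214071448406332911926711485145557908848650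

/-- a surface for presentation 17 -/
def rows17 : List (List (ℕ × ℕ × ℕ)) :=
  [[(6, 1, 9), (3, 2, 7), (26, 3, 9), (9, 4, 3), (14, 5, 0), (27, 6, 2), (22, 7, 2), (29, 8, 7)],
   [(0, 8, 6), (1, 7, 9), (28, 8, 2), (25, 9, 2), (10, 10, 8), (23, 10, 1), (8, 11, 4), (17, 6, 8), (20, 2, 0), (7, 0, 0)],
   [(21, 1, 8), (12, 6, 7), (17, 10, 5), (8, 12, 3), (23, 13, 8), (24, 4, 6), (15, 3, 0), (2, 0, 1)],
   [(14, 2, 6), (11, 4, 5), (18, 3, 7), (5, 5, 3), (16, 9, 5), (15, 7, 5), (24, 5, 4), (19, 3, 2), (22, 4, 4), (27, 0, 2)],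
   [(7, 11, 7), (20, 9, 7), (17, 5, 1), (8, 0, 3), (23, 3, 8), (10, 3, 1), (25, 2, 5), (28, 13, 7), (1, 12, 0), (0, 13, 3)],
   [(15, 0, 4), (16, 4, 2), (13, 9, 6), (4, 3, 3), (25, 3, 6), (10, 7, 4), (3, 6, 0), (26, 11, 2), (9, 12, 6), (2, 6, 3)],
   [(2, 5, 6), (9, 7, 3), (26, 0, 5), (3, 5, 9), (10, 12, 5), (25, 10, 3), (4, 10, 6), (13, 2, 1), (16, 1, 7), (15, 11, 3)],
   [(19, 8, 5), (24, 8, 8), (23, 0, 6), (8, 6, 1), (11, 5, 5), (14, 3, 5), (9, 9, 4), (26, 8, 0), (7, 8, 3), (0, 1, 1)],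
   [(27, 7, 7), (22, 9, 3), (29, 1, 2), (6, 7, 8), (5, 8, 9), (18, 7, 0), (1, 1, 0), (28, 0, 7), (25, 7, 1), (4, 8, 4)],
   [(2, 11, 6), (15, 10, 9), (24, 1, 3), (23, 8, 1), (8, 7, 6), (17, 3, 4), (12, 5, 2), (21, 4, 1)],
   [(27, 11, 5), (22, 1, 5), (19, 10, 7), (24, 6, 5), (15, 12, 4), (16, 2, 2), (5, 6, 6), (18, 10, 2), (11, 1, 4), (14, 9, 1)],
   [(29, 13, 2), (22, 12, 7), (27, 5, 7), (14, 6, 9), (9, 1, 6), (26, 10, 0), (3, 9, 0), (6, 4, 0)],
   [(0, 4, 8), (7, 13, 6), (26, 13, 9), (9, 2, 3), (14, 10, 4), (11, 6, 4), (8, 5, 8), (23, 11, 1), (24, 13, 1), (19, 13, 4)],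
   [(4, 13, 5), (25, 12, 8), (28, 11, 0), (1, 4, 9), (18, 12, 9), (5, 13, 0), (6, 12, 1), (29, 4, 7), (22, 2, 4), (27, 12, 2)]]

theorem sf17 : SurfFor W17 :=
  surfFor_of_table (T := T17) (lam := [0, 9, 11, 1, 4, 14, 8, 5, 13, 2, 3, 12, 6, 7, 10]) (rows := rows17)
    (by decide +kernel) (by decide +kernel) (by decide +kernel) (by decide +kernel)

end Pool.Agent.TriSurf
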