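import Pool.Agent.TriSurf.SData
import Pool.Agent.TriSurf.Pres

/-!
# Surfaces
-/

set_option autoImplicit false
set_option maxRecDepth 100000

namespace Pool.Agent.TriSurf

/-- the multiplication table of presentation 18 -/
def W18 : ℕ :=
  22700313078775058974618231063680931668784738070631372081265178667328673546339115250935941231829629882653424059741746098433748395770691495400260503909644314999290374701462598301519168122508870108067940381572428337455911162820421066290943001066182265471202662185319792650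

/-- a surface for presentation 18 -/
def rows18 : List (List (ℕ × ℕ × ℕ)) :=
  [[(4, 1, 8), (21, 2, 3), (10, 3, 2), (17, 1, 5), (8, 4, 0), (25, 5, 3), (12, 6, 5), (11, 3, 7), (22, 7, 3), (27, 6, 2)],
   [(27, 4, 7), (22, 8, 4), (3, 9, 0), (24, 10, 2), (29, 4, 1), (16, 0, 3), (23, 3, 1), (18, 2, 4), (5, 0, 0), (14, 6, 1)],
   [(23, 11, 2), (16, 11, 5), (13, 3, 3), (20, 0, 1), (19, 1, 7), (26, 3, 0), (15, 7, 0), (6, 12, 1)],
   [(27, 2, 5), (22, 1, 6), (11, 0, 2), (12, 2, 2), (25, 11, 4), (8, 12, 9), (17, 7, 4), (10, 0, 7), (21, 6, 4), (4, 7, 1)],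
   [(9, 0, 4), (28, 1, 4), (21, 10, 1), (4, 10, 4), (13, 9, 8), (20, 13, 1), (19, 8, 5), (26, 1, 0), (7, 6, 0), (2, 5, 4)],
   [(15, 13, 6), (10, 5, 6), (17, 6, 6), (24, 0, 5), (3, 4, 9), (22, 6, 7), (11, 5, 1), (6, 13, 5)],
   [(6, 4, 8), (15, 1, 9), (26, 0, 9), (19, 7, 2), (20, 3, 8), (13, 0, 6), (16, 5, 2), (23, 5, 5)],
   [(14, 2, 6), (5, 3, 9), (18, 6, 3), (23, 0, 8), (16, 3, 6), (29, 12, 8), (24, 14, 5), (3, 8, 9), (22, 9, 5), (27, 12, 2)],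
   [(9, 14, 4), (12, 12, 5), (11, 15, 5), (6, 9, 1), (23, 1, 1), (18, 4, 6), (5, 13, 0), (14, 13, 3), (7, 9, 6), (2, 7, 7)],
   [(2, 1, 2), (7, 8, 3), (14, 15, 4), (5, 15, 7), (18, 12, 3), (23, 7, 8), (6, 8, 8), (11, 13, 2), (12, 4, 4), (9, 10, 3)],
   [(19, 10, 5), (20, 4, 2), (25, 1, 3), (8, 9, 9), (5, 4, 3), (18, 10, 0), (1, 14, 0), (0, 14, 1)],
   [(6, 15, 2), (11, 11, 6), (22, 2, 0), (3, 12, 0), (24, 3, 4), (17, 2, 1), (10, 11, 1), (15, 15, 1)],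
   [(2, 11, 3), (7, 2, 7), (26, 7, 9), (19, 9, 4), (20, 15, 6), (13, 8, 1), (4, 14, 3), (21, 14, 6), (28, 7, 5), (9, 3, 5)],
   [(4, 8, 6), (21, 4, 5), (10, 9, 7), (15, 8, 7), (26, 13, 7), (7, 5, 7), (14, 5, 0), (27, 13, 4)],
   [(0, 10, 6), (1, 10, 7), (18, 14, 7), (5, 12, 6), (8, 8, 0), (25, 7, 6), (20, 12, 7), (19, 14, 2)],
   [(27, 15, 3), (14, 11, 7), (7, 11, 0), (26, 15, 0), (15, 9, 2), (10, 8, 2), (21, 12, 4), (4, 9, 3)]]

theorem sf18 : SurfFor W18 :=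
  surfFor_of_table (T := T18) (lam := [0, 2, 14, 4, 3, 10, 8, 9, 12, 1, 6, 11, 13, 7, 5]) (rows := rows18)
    (by decide +kernel) (by decide +kernel) (by decide +kernel) (by decide +kernel)

/-- the multiplication table of presentation 19 -/
def W19 : ℕ :=
  1676729817557380420927507549169869487702175179445123342853655408981885755196401401004280492099192118490468556093784631272334814341000335864439210707022297386001812130393829911899523221418930513205092855633424561773506280581329036086118118351494063490873949546977689610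

/-- a surface for presentation 19 -/
def rows19 : List (List (ℕ × ℕ × ℕ)) :=
  [[(4, 1, 6), (3, 2, 4), (20, 3, 0), (19, 4, 2), (26, 5, 2), (17, 4, 4), (6, 3, 6), (27, 5, 5), (22, 3, 2), (29, 2, 2)],
   [(19, 6, 3), (26, 7, 4), (11, 8, 1), (14, 9, 7), (29, 10, 4), (22, 2, 5), (5, 0, 0), (0, 2, 1)],
   [(0, 6, 4), (1, 1, 7), (28, 0, 9), (25, 3, 1), (2, 0, 1), (23, 1, 5), (24, 10, 3), (5, 11, 0)],
   [(21, 0, 2), (24, 2, 3), (23, 0, 8), (16, 5, 4), (9, 4, 0), (18, 5, 6), (7, 0, 6), (8, 4, 3)],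
   [(8, 3, 4), (7, 5, 3), (18, 0, 3), (9, 3, 7), (16, 0, 5), (23, 5, 1), (24, 12, 4), (21, 5, 7)],
   [(29, 12, 5), (22, 4, 5), (27, 0, 4), (6, 4, 1), (17, 3, 3), (26, 0, 7), (19, 3, 5), (20, 4, 7), (3, 12, 3), (4, 13, 1)],
   [(29, 11, 2), (14, 10, 1), (7, 7, 5), (18, 1, 0), (1, 2, 0), (28, 11, 7), (13, 8, 5), (4, 12, 0)],
   [(19, 7, 7), (20, 10, 7), (15, 13, 4), (12, 8, 2), (27, 1, 1), (6, 6, 2), (9, 10, 0), (18, 7, 0), (1, 9, 0), (0, 9, 1)],
   [(21, 9, 8), (10, 1, 2), (13, 7, 3), (28, 13, 3), (25, 12, 1), (12, 6, 6), (15, 11, 6), (8, 9, 3)],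
   [(0, 7, 8), (1, 7, 9), (18, 9, 9), (9, 8, 7), (6, 11, 5), (27, 13, 6), (12, 10, 5), (15, 1, 3), (20, 8, 0), (19, 9, 2)],
   [(8, 7, 6), (15, 6, 1), (12, 11, 1), (25, 2, 6), (28, 1, 4), (13, 9, 6), (10, 13, 5), (21, 7, 1)],
   [(4, 2, 7), (13, 10, 2), (28, 6, 0), (1, 12, 7), (18, 13, 7), (7, 9, 4), (14, 8, 6), (29, 6, 5)],
   [(5, 6, 7), (24, 8, 4), (23, 13, 2), (2, 5, 8), (25, 4, 6), (28, 5, 0), (1, 13, 0), (0, 11, 3)],
   [(0, 12, 6), (5, 5, 9), (22, 12, 2), (29, 8, 3), (14, 7, 2), (11, 10, 6), (26, 9, 5), (19, 11, 4)]]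

theorem sf19 : SurfFor W19 :=
  surfFor_of_table (T := T19) (lam := [0, 8, 2, 14, 11, 4, 6, 13, 9, 1, 12, 5, 3, 10, 7]) (rows := rows19)
    (by decide +kernel) (by decide +kernel) (by decide +kernel) (by decide +kernel)

/-- the multiplication table of presentation 20 -/
def W20 : ℕ :=
  297165681636013784658929256313052946257754538260018288639543559561148683103038951197628495726129078419345565079002034054196425258137508397484080897557541385394258003742919848422332122895583688488967886160754710409305843393977758631407686344702014885448281814843711815690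

/-- a surface for presentation 20 -/
def rows20 : List (List (ℕ × ℕ × ℕ)) :=
  [[(4, 1, 6), (13, 2, 6), (14, 0, 7), (29, 1, 3), (26, 3, 0), (9, 2, 0), (6, 1, 4), (15, 0, 2), (16, 2, 5), (27, 3, 5)],
   [(11, 2, 2), (12, 3, 8), (17, 3, 1), (28, 0, 3), (7, 0, 6), (10, 2, 7), (5, 0, 0), (8, 3, 4)],
   [(8, 0, 5), (5, 3, 9), (10, 1, 0), (7, 3, 3), (28, 3, 6), (17, 0, 8), (12, 0, 1), (11, 1, 5)],
   [(27, 0, 4), (16, 1, 2), (15, 3, 7), (6, 2, 3), (9, 1, 7), (26, 0, 9), (29, 2, 4), (14, 3, 2), (13, 1, 1), (4, 2, 1)]]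

theorem sf20 : SurfFor W20 :=
  surfFor_of_table (T := T20) (lam := [0, 2, 12, 6, 9, 13, 7, 11, 3, 1, 14, 5, 10, 8, 4]) (rows := rows20)
    (by decide +kernel) (by decide +kernel) (by decide +kernel) (by decide +kernel)

/-- the multiplication table of presentation 21 -/
def W21 : ℕ :=
  8062617578077501920530208580202821468606901157025983603084703058066577556003957793850681973274338445565079418313658748114520397944112900946689261841490862239937176018918322774299677894014023059311457008737473239991617444851190630106159222508287901213575258298122250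

/-- a surface for presentation 21 -/
def rows21 : List (List (ℕ × ℕ × ℕ)) :=
  [[(0, 1, 6), (1, 2, 0), (28, 3, 4), (27, 4, 1), (4, 5, 3), (13, 6, 1), (14, 7, 5), (9, 8, 5), (26, 9, 0), (19, 10, 2)],
   [(19, 11, 5), (20, 6, 4), (3, 12, 9), (16, 12, 4), (25, 3, 1), (18, 2, 1), (1, 0, 0), (0, 10, 1)],
   [(0, 0, 1), (19, 1, 5), (20, 3, 0), (29, 13, 7), (8, 10, 5), (7, 14, 6), (24, 15, 3), (21, 3, 5)],
   [(21, 2, 2), (24, 1, 4), (7, 12, 3), (8, 4, 2), (29, 0, 2), (20, 2, 7), (19, 15, 2), (0, 13, 8)],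
   [(19, 5, 4), (26, 0, 3), (9, 3, 3), (14, 12, 2), (5, 5, 0), (18, 13, 0), (1, 15, 0), (0, 7, 1)],
   [(4, 4, 4), (13, 12, 1), (14, 6, 2), (5, 0, 4), (18, 4, 0), (1, 7, 0), (28, 16, 5), (27, 13, 1)],
   [(23, 7, 6), (12, 0, 5), (15, 5, 2), (22, 12, 0), (21, 1, 1), (24, 11, 4), (11, 16, 2), (2, 16, 7)],
   [(0, 5, 5), (1, 4, 7), (18, 15, 7), (25, 17, 2), (6, 8, 6), (15, 0, 6), (22, 6, 0), (21, 16, 6)],
   [(25, 12, 7), (16, 8, 8), (3, 17, 0), (20, 11, 0), (29, 9, 1), (8, 0, 7), (7, 7, 4), (10, 17, 1), (17, 8, 1), (6, 12, 6)],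
   [(27, 0, 8), (28, 8, 4), (1, 11, 7), (18, 10, 7), (5, 13, 5), (14, 17, 5), (13, 14, 8), (4, 10, 3)],
   [(0, 11, 6), (1, 1, 7), (18, 0, 9), (5, 9, 7), (14, 14, 7), (9, 2, 4), (26, 13, 6), (19, 9, 3)],
   [(21, 8, 3), (22, 17, 7), (15, 13, 3), (6, 16, 3), (25, 6, 5), (18, 1, 0), (1, 10, 0), (0, 9, 2)],
   [(23, 6, 3), (12, 5, 1), (15, 4, 3), (6, 3, 2), (17, 1, 3), (10, 12, 8), (7, 8, 9), (24, 8, 0), (11, 12, 5), (2, 1, 2)],
   [(19, 4, 5), (26, 5, 7), (9, 16, 4), (14, 11, 2), (13, 17, 6), (4, 9, 4), (27, 10, 6), (28, 2, 3), (1, 3, 7), (0, 15, 1)],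
   [(2, 15, 5), (11, 14, 4), (24, 16, 9), (7, 16, 0), (10, 14, 1), (17, 15, 4), (6, 2, 5), (15, 10, 4), (12, 9, 6), (23, 17, 4)],
   [(0, 4, 6), (1, 13, 9), (18, 3, 6), (25, 2, 6), (16, 14, 5), (3, 14, 0), (20, 17, 3), (19, 7, 2)],
   [(6, 14, 3), (17, 16, 8), (10, 6, 6), (7, 11, 3), (8, 13, 2), (29, 5, 6), (20, 7, 7), (3, 6, 7), (16, 16, 1), (25, 14, 2)],
   [(2, 8, 2), (11, 8, 7), (24, 7, 3), (21, 15, 6), (22, 14, 9), (15, 9, 5), (12, 13, 4), (23, 11, 1)]]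

theorem sf21 : SurfFor W21 :=
  surfFor_of_table (T := T21) (lam := [0, 8, 14, 12, 4, 5, 7, 10, 9, 1, 2, 3, 11, 6, 13]) (rows := rows21)
    (by decide +kernel) (by decide +kernel) (by decide +kernel) (by decide +kernel)

/-- the multiplication table of presentation 22 -/
def W22 : ℕ :=
  297270468516386837314095132647280454000166051034108252007027505641289320695085381678067834142526468455734503852491293426024020048725040381174524955384029515296598747194357204280740808849765711492879745244273509287487260909944866764548549979260635527413253036894123458575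

/-- a surface for presentation 22 -/
def rows22 : List (List (ℕ × ℕ × ℕ)) :=
  [[(14, 1, 4), (7, 2, 0), (22, 3, 2), (21, 4, 3), (24, 5, 7), (11, 6, 5), (16, 5, 9), (27, 4, 1), (18, 2, 5), (23, 7, 4)],
   [(17, 8, 3), (28, 9, 5), (25, 8, 5), (4, 2, 1), (15, 0, 0), (20, 7, 3), (29, 10, 3), (26, 11, 6), (13, 7, 6), (2, 2, 3)],
   [(6, 0, 1), (5, 1, 3), (10, 8, 4), (3, 1, 9), (8, 7, 5), (19, 0, 8), (12, 4, 0), (9, 3, 3)],
   [(13, 12, 1), (14, 4, 4), (23, 0, 2), (8, 2, 7), (3, 4, 7), (24, 11, 0), (11, 10, 5), (2, 7, 1)],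
   [(13, 2, 6), (26, 0, 7), (29, 5, 8), (20, 0, 3), (15, 3, 1), (16, 12, 0), (11, 11, 1), (2, 3, 4)],
   [(2, 6, 4), (13, 13, 1), (26, 14, 3), (29, 15, 4), (20, 13, 4), (15, 8, 9), (4, 6, 6), (25, 0, 4), (28, 4, 2), (17, 0, 6)],
   [(9, 16, 4), (12, 9, 7), (19, 8, 1), (8, 13, 2), (3, 5, 0), (10, 0, 5), (5, 5, 6), (6, 8, 8)],
   [(8, 12, 2), (3, 3, 7), (24, 10, 4), (21, 1, 5), (22, 0, 9), (9, 2, 4), (12, 1, 8), (19, 11, 5)],
   [(23, 13, 3), (18, 6, 2), (27, 9, 6), (16, 1, 0), (11, 2, 2), (24, 1, 2), (21, 9, 4), (22, 16, 5), (7, 6, 7), (14, 5, 5)],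
   [(2, 16, 3), (11, 14, 8), (16, 17, 7), (15, 16, 6), (20, 8, 6), (29, 1, 1), (26, 8, 2), (13, 6, 1)],
   [(9, 11, 3), (12, 12, 6), (17, 11, 7), (28, 1, 6), (25, 7, 2), (10, 3, 6), (5, 11, 9), (6, 12, 4)],
   [(25, 3, 5), (10, 4, 6), (3, 12, 7), (8, 10, 0), (23, 12, 3), (18, 7, 7), (27, 1, 7), (16, 10, 2), (15, 12, 5), (4, 10, 6)],
   [(17, 4, 5), (12, 3, 0), (9, 7, 0), (22, 11, 4), (7, 10, 7), (14, 11, 8), (13, 10, 1), (2, 11, 2)],
   [(19, 14, 4), (12, 5, 1), (9, 6, 3), (22, 8, 0), (21, 5, 4), (24, 15, 3), (3, 16, 0), (8, 17, 5)],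
   [(4, 15, 1), (15, 17, 2), (16, 15, 5), (27, 5, 2), (18, 13, 0), (23, 17, 4), (8, 15, 7), (3, 17, 0), (10, 9, 1), (25, 16, 2)],
   [(6, 17, 3), (5, 14, 0), (10, 16, 1), (25, 13, 5), (28, 5, 3), (17, 14, 2), (12, 17, 1), (9, 14, 6)],
   [(2, 13, 6), (11, 15, 2), (24, 14, 9), (3, 9, 0), (8, 6, 0), (23, 8, 7), (14, 9, 3), (13, 17, 6)],
   [(2, 14, 7), (13, 15, 6), (14, 14, 1), (7, 15, 0), (22, 14, 5), (9, 13, 7), (12, 16, 7), (17, 9, 2)]]

theorem sf22 : SurfFor W22 :=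
  surfFor_of_table (T := T22) (lam := [0, 12, 9, 7, 10, 5, 4, 8, 3, 13, 2, 14, 6, 11, 1]) (rows := rows22)
    (by decide +kernel) (by decide +kernel) (by decide +kernel) (by decide +kernel)

end Pool.Agent.TriSurf
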