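import Mathlib

/-!
# Triangle presentations with cubes over the generalized quadrangle of order (2, 2)
-/

set_option autoImplicit false

namespace Pool.Agent.TriSurf

/-- relators `x y z` of presentation 23 -/
def T23 : List (Fin 15 × Fin 15 × Fin 15) :=
  [(0, 0, 0), (0, 9, 14), (0, 14, 13), (1, 1, 8), (1, 12, 9), (2, 2, 10), (2, 8, 7), (3, 3, 3), (3, 5, 12), (3, 13, 11), (4, 4, 4), (4, 7, 5), (4, 9, 6), (5, 5, 5), (6, 6, 6), (6, 10, 11), (7, 14, 10), (8, 13, 12), (11, 11, 11)]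

/-- relators `x y z` of presentation 24 -/
def T24 : List (Fin 15 × Fin 15 × Fin 15) :=
  [(0, 0, 9), (0, 14, 11), (1, 1, 1), (1, 8, 5), (1, 12, 6), (2, 2, 2), (2, 5, 7), (2, 14, 3), (3, 7, 10), (3, 11, 13), (4, 4, 4), (4, 7, 8), (4, 9, 12), (5, 13, 13), (6, 6, 14), (8, 12, 10), (9, 11, 10)]

/-- relators `x y z` of presentation 25 -/
def T25 : List (Fin 15 × Fin 15 × Fin 15) :=
  [(0, 0, 0), (0, 9, 5), (0, 14, 3), (1, 4, 10), (1, 5, 13), (1, 12, 2), (2, 6, 7), (2, 14, 6), (3, 11, 9), (3, 12, 8), (4, 4, 4), (4, 6, 11), (5, 10, 7), (7, 14, 11), (8, 8, 8), (8, 9, 13), (10, 13, 12)]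

/-- relators `x y z` of presentation 26 -/
def T26 : List (Fin 15 × Fin 15 × Fin 15) :=
  [(0, 0, 0), (0, 9, 11), (0, 14, 3), (1, 3, 13), (1, 8, 5), (1, 9, 7), (2, 4, 6), (2, 6, 8), (2, 10, 9), (3, 10, 4), (4, 11, 12), (5, 8, 14), (5, 12, 12), (6, 10, 7), (7, 14, 13), (11, 11, 11), (13, 13, 13)]

/-- relators `x y z` of presentation 27 -/
def T27 : List (Fin 15 × Fin 15 × Fin 15) :=
  [(0, 0, 0), (0, 9, 2), (0, 14, 3), (1, 2, 13), (1, 7, 5), (1, 11, 4), (2, 10, 12), (3, 11, 7), (3, 12, 8), (4, 6, 10), (4, 14, 6), (5, 8, 9), (5, 12, 10), (6, 6, 6), (7, 13, 13), (8, 8, 8), (9, 14, 11)]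

/-- relators `x y z` of presentation 28 -/
def T28 : List (Fin 15 × Fin 15 × Fin 15) :=
  [(0, 0, 0), (0, 9, 7), (0, 14, 8), (1, 4, 13), (1, 6, 4), (1, 10, 12), (2, 3, 9), (2, 5, 5), (2, 13, 14), (3, 3, 3), (3, 8, 11), (4, 7, 10), (5, 14, 10), (6, 7, 13), (6, 9, 11), (8, 12, 12), (11, 11, 11)]

/-- relators `x y z` of presentation 29 -/
def T29 : List (Fin 15 × Fin 15 × Fin 15) :=
  [(0, 0, 14), (0, 9, 2), (1, 1, 1), (1, 6, 4), (1, 14, 10), (2, 11, 11), (2, 12, 5), (3, 4, 8), (3, 6, 7), (3, 10, 13), (4, 12, 12), (5, 5, 5), (5, 14, 13), (6, 9, 8), (7, 8, 11), (7, 9, 10), (13, 13, 13)]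

/-- relators `x y z` of presentation 30 -/
def T30 : List (Fin 15 × Fin 15 × Fin 15) :=
  [(0, 0, 0), (0, 9, 3), (0, 14, 6), (1, 4, 14), (1, 7, 12), (1, 9, 5), (2, 3, 10), (2, 8, 4), (2, 9, 13), (3, 13, 11), (4, 5, 7), (5, 13, 7), (6, 11, 11), (6, 12, 8), (8, 10, 10), (12, 12, 12), (14, 14, 14)]

/-- relators `x y z` of presentation 31 -/
def T31 : List (Fin 15 × Fin 15 × Fin 15) :=
  [(0, 0, 14), (0, 9, 4), (1, 2, 12), (1, 8, 13), (1, 10, 2), (2, 8, 5), (3, 3, 8), (3, 9, 7), (4, 10, 11), (4, 13, 6), (5, 5, 5), (5, 14, 11), (6, 6, 6), (6, 10, 7), (7, 11, 12), (9, 9, 9), (12, 13, 14)]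

/-- relators `x y z` of presentation 32 -/
def T32 : List (Fin 15 × Fin 15 × Fin 15) :=
  [(0, 0, 0), (0, 9, 3), (0, 14, 11), (1, 4, 13), (1, 5, 4), (1, 12, 8), (2, 2, 14), (2, 5, 7), (3, 10, 6), (3, 13, 12), (4, 7, 10), (5, 9, 6), (6, 13, 8), (7, 8, 14), (9, 11, 12), (10, 10, 10), (11, 11, 11)]

/-- relators `x y z` of presentation 33 -/
def T33 : List (Fin 15 × Fin 15 × Fin 15) :=
  [(0, 0, 14), (0, 9, 10), (1, 2, 3), (1, 5, 12), (1, 14, 13), (2, 5, 4), (2, 13, 7), (3, 8, 8), (3, 12, 6), (4, 8, 9), (4, 10, 11), (5, 5, 5), (6, 6, 6), (6, 11, 9), (7, 7, 11), (10, 12, 14), (13, 13, 13)]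

/-- relators `x y z` of presentation 34 -/
def T34 : List (Fin 15 × Fin 15 × Fin 15) :=
  [(0, 0, 0), (0, 9, 3), (0, 14, 13), (1, 4, 14), (1, 6, 5), (1, 10, 4), (2, 4, 6), (2, 5, 12), (2, 12, 11), (3, 11, 8), (3, 12, 7), (5, 8, 9), (6, 14, 7), (7, 11, 10), (8, 8, 8), (9, 13, 10), (13, 13, 13)]

/-- relators `x y z` of presentation 35 -/
def T35 : List (Fin 15 × Fin 15 × Fin 15) :=
  [(0, 0, 0), (0, 9, 2), (0, 14, 7), (1, 1, 1), (1, 8, 14), (1, 12, 6), (2, 10, 8), (2, 13, 10), (3, 3, 3), (3, 5, 12), (3, 13, 4), (4, 8, 5), (4, 9, 11), (5, 5, 5), (6, 6, 6), (6, 14, 13), (7, 11, 9), (7, 12, 11), (10, 10, 10)]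

/-- relators `x y z` of presentation 36 -/
def T36 : List (Fin 15 × Fin 15 × Fin 15) :=
  [(0, 0, 0), (0, 9, 1), (0, 14, 5), (1, 10, 4), (1, 13, 8), (2, 3, 13), (2, 8, 6), (2, 9, 7), (3, 3, 3), (3, 5, 12), (4, 8, 14), (4, 12, 11), (5, 11, 6), (6, 14, 12), (7, 7, 7), (7, 11, 10), (9, 13, 10)]

/-- relators `x y z` of presentation 37 -/
def T37 : List (Fin 15 × Fin 15 × Fin 15) :=
  [(0, 0, 0), (0, 9, 11), (0, 14, 2), (1, 2, 12), (1, 7, 4), (1, 11, 10), (2, 11, 13), (3, 3, 3), (3, 8, 9), (3, 9, 6), (4, 6, 5), (4, 14, 8), (5, 6, 13), (5, 10, 7), (7, 12, 8), (10, 13, 14), (12, 12, 12)]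

/-- relators `x y z` of presentation 38 -/
def T38 : List (Fin 15 × Fin 15 × Fin 15) :=
  [(0, 0, 0), (0, 9, 6), (0, 14, 12), (1, 4, 2), (1, 7, 3), (1, 9, 10), (2, 7, 11), (2, 13, 5), (3, 8, 8), (3, 12, 13), (4, 8, 9), (4, 10, 14), (5, 5, 14), (6, 11, 7), (6, 12, 10), (11, 11, 11), (13, 13, 13)]

/-- relators `x y z` of presentation 39 -/
def T39 : List (Fin 15 × Fin 15 × Fin 15) :=
  [(0, 0, 0), (0, 9, 11), (0, 14, 9), (1, 1, 8), (1, 12, 13), (2, 2, 2), (2, 5, 4), (2, 14, 7), (3, 3, 3), (3, 8, 6), (3, 9, 12), (4, 8, 14), (4, 10, 10), (5, 5, 12), (6, 6, 6), (6, 11, 10), (7, 7, 7), (7, 11, 13), (13, 13, 13)]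

/-- relators `x y z` of presentation 40 -/
def T40 : List (Fin 15 × Fin 15 × Fin 15) :=
  [(0, 0, 0), (0, 9, 13), (0, 14, 3), (1, 2, 5), (1, 8, 9), (1, 10, 11), (2, 3, 12), (2, 13, 10), (3, 11, 8), (4, 4, 6), (4, 10, 7), (5, 6, 12), (5, 14, 6), (7, 7, 9), (8, 8, 8), (11, 12, 14), (13, 13, 13)]

/-- relators `x y z` of presentation 41 -/
def T41 : List (Fin 15 × Fin 15 × Fin 15) :=
  [(0, 0, 0), (0, 9, 8), (0, 14, 6), (1, 1, 7), (1, 13, 2), (2, 6, 12), (2, 14, 4), (3, 3, 3), (3, 5, 9), (3, 13, 11), (4, 8, 10), (4, 10, 5), (5, 7, 12), (6, 11, 11), (7, 8, 13), (9, 9, 9), (10, 12, 14)]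

/-- relators `x y z` of presentation 42 -/
def T42 : List (Fin 15 × Fin 15 × Fin 15) :=
  [(0, 0, 0), (0, 9, 13), (0, 14, 1), (1, 10, 4), (1, 13, 12), (2, 2, 2), (2, 5, 3), (2, 14, 6), (3, 7, 9), (3, 11, 7), (4, 7, 8), (4, 13, 11), (5, 6, 8), (5, 11, 9), (6, 10, 10), (8, 12, 12), (14, 14, 14)]

/-- relators `x y z` of presentation 43 -/
def T43 : List (Fin 15 × Fin 15 × Fin 15) :=
  [(0, 0, 0), (0, 9, 3), (0, 14, 8), (1, 2, 10), (1, 7, 6), (1, 11, 5), (2, 2, 2), (2, 8, 11), (3, 10, 14), (3, 13, 4), (4, 5, 12), (4, 13, 7), (5, 8, 12), (6, 7, 10), (6, 13, 9), (9, 11, 14), (12, 12, 12)]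

/-- relators `x y z` of presentation 44 -/
def T44 : List (Fin 15 × Fin 15 × Fin 15) :=
  [(0, 0, 9), (0, 14, 13), (1, 3, 4), (1, 8, 10), (1, 9, 12), (2, 2, 7), (2, 11, 6), (3, 7, 14), (3, 9, 11), (4, 6, 8), (4, 14, 5), (5, 5, 5), (5, 12, 7), (6, 10, 8), (10, 12, 13), (11, 11, 11), (13, 13, 13)]

/-- relators `x y z` of presentation 45 -/
def T45 : List (Fin 15 × Fin 15 × Fin 15) :=
  [(0, 0, 0), (0, 9, 4), (0, 14, 10), (1, 1, 1), (1, 7, 13), (1, 13, 6), (2, 2, 8), (2, 10, 11), (3, 3, 3), (3, 8, 5), (3, 9, 7), (4, 10, 12), (4, 13, 14), (5, 6, 12), (5, 11, 7), (6, 8, 14), (9, 9, 9), (11, 11, 11), (12, 12, 12)]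

/-- relators `x y z` of presentation 46 -/
def T46 : List (Fin 15 × Fin 15 × Fin 15) :=
  [(0, 0, 0), (0, 9, 11), (0, 14, 13), (1, 2, 5), (1, 7, 14), (1, 11, 12), (2, 4, 7), (2, 12, 8), (3, 3, 9), (3, 8, 10), (4, 4, 4), (4, 9, 6), (5, 6, 10), (5, 14, 7), (6, 6, 6), (8, 8, 8), (10, 13, 13), (11, 11, 11), (12, 12, 12)]

/-- relators `x y z` of presentation 47 -/
def T47 : List (Fin 15 × Fin 15 × Fin 15) :=
  [(0, 0, 0), (0, 9, 2), (0, 14, 4), (1, 1, 1), (1, 6, 11), (1, 14, 10), (2, 10, 12), (2, 13, 3), (3, 5, 5), (3, 14, 6), (4, 11, 7), (4, 12, 8), (5, 13, 8), (6, 6, 6), (7, 7, 9), (8, 12, 10), (9, 11, 13)]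

/-- relators `x y z` of presentation 48 -/
def T48 : List (Fin 15 × Fin 15 × Fin 15) :=
  [(0, 0, 0), (0, 9, 4), (0, 14, 13), (1, 2, 11), (1, 8, 5), (1, 10, 6), (2, 2, 2), (2, 7, 8), (3, 3, 3), (3, 6, 7), (3, 11, 14), (4, 10, 10), (4, 13, 12), (5, 8, 14), (5, 12, 12), (6, 13, 11), (7, 9, 9)]

/-- relators `x y z` of presentation 49 -/
def T49 : List (Fin 15 × Fin 15 × Fin 15) :=
  [(0, 0, 0), (0, 9, 8), (0, 14, 5), (1, 4, 2), (1, 5, 10), (1, 12, 6), (2, 6, 13), (2, 14, 14), (3, 3, 3), (3, 6, 7), (3, 11, 9), (4, 8, 11), (4, 10, 12), (5, 13, 7), (7, 13, 11), (8, 12, 10), (9, 9, 9)]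

/-- relators `x y z` of presentation 50 -/
def T50 : List (Fin 15 × Fin 15 × Fin 15) :=
  [(0, 0, 0), (0, 9, 8), (0, 14, 7), (1, 3, 9), (1, 6, 6), (1, 11, 14), (2, 2, 2), (2, 8, 11), (2, 10, 4), (3, 3, 3), (3, 8, 12), (4, 7, 13), (4, 11, 5), (5, 7, 10), (5, 9, 12), (6, 14, 13), (10, 12, 13)]

/-- relators `x y z` of presentation 51 -/
def T51 : List (Fin 15 × Fin 15 × Fin 15) :=
  [(0, 0, 0), (0, 9, 5), (0, 14, 7), (1, 2, 10), (1, 7, 12), (1, 11, 8), (2, 4, 11), (2, 6, 3), (3, 5, 13), (3, 14, 4), (4, 6, 9), (5, 10, 13), (6, 8, 12), (7, 11, 10), (8, 8, 8), (9, 12, 14), (13, 13, 13)]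

/-- relators `x y z` of presentation 52 -/
def T52 : List (Fin 15 × Fin 15 × Fin 15) :=
  [(0, 0, 0), (0, 9, 2), (0, 14, 8), (1, 1, 12), (1, 8, 11), (2, 10, 7), (2, 13, 5), (3, 4, 6), (3, 5, 14), (3, 12, 13), (4, 4, 10), (5, 5, 5), (6, 6, 11), (7, 8, 12), (7, 10, 9), (9, 11, 14), (13, 13, 13)]

/-- relators `x y z` of presentation 53 -/
def T53 : List (Fin 15 × Fin 15 × Fin 15) :=
  [(0, 0, 14), (0, 9, 11), (1, 1, 1), (1, 6, 12), (1, 14, 10), (2, 2, 8), (2, 10, 7), (3, 3, 5), (3, 13, 9), (4, 4, 6), (4, 10, 13), (5, 8, 7), (5, 9, 6), (7, 14, 13), (8, 11, 12), (11, 11, 11), (12, 12, 12)]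

/-- relators `x y z` of presentation 54 -/
def T54 : List (Fin 15 × Fin 15 × Fin 15) :=
  [(0, 0, 0), (0, 9, 4), (0, 14, 6), (1, 2, 11), (1, 5, 7), (1, 14, 14), (2, 3, 5), (2, 6, 13), (3, 3, 3), (3, 13, 10), (4, 11, 8), (4, 12, 12), (5, 11, 12), (6, 10, 9), (7, 7, 7), (7, 13, 8), (8, 9, 10)]

/-- relators `x y z` of presentation 55 -/
def T55 : List (Fin 15 × Fin 15 × Fin 15) :=
  [(0, 0, 9), (0, 14, 2), (1, 1, 1), (1, 8, 6), (1, 12, 8), (2, 11, 12), (2, 12, 10), (3, 3, 3), (3, 6, 13), (3, 11, 5), (4, 4, 4), (4, 6, 7), (4, 10, 11), (5, 8, 14), (5, 9, 13), (7, 7, 7), (7, 9, 10), (13, 13, 13), (14, 14, 14)]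

/-- relators `x y z` of presentation 56 -/
def T56 : List (Fin 15 × Fin 15 × Fin 15) :=
  [(0, 0, 9), (0, 14, 10), (1, 1, 12), (1, 8, 5), (2, 2, 14), (2, 5, 7), (3, 3, 3), (3, 8, 4), (3, 9, 11), (4, 5, 13), (4, 13, 6), (6, 7, 11), (6, 9, 12), (7, 7, 7), (8, 12, 14), (10, 10, 13), (11, 11, 11)]

/-- relators `x y z` of presentation 57 -/
def T57 : List (Fin 15 × Fin 15 × Fin 15) :=
  [(0, 0, 0), (0, 9, 13), (0, 14, 8), (1, 3, 4), (1, 6, 14), (1, 11, 9), (2, 4, 6), (2, 7, 10), (2, 9, 7), (3, 6, 5), (3, 10, 11), (4, 14, 12), (5, 5, 5), (5, 13, 12), (7, 8, 10), (8, 13, 11), (12, 12, 12)]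

/-- relators `x y z` of presentation 58 -/
def T58 : List (Fin 15 × Fin 15 × Fin 15) :=
  [(0, 0, 0), (0, 9, 2), (0, 14, 8), (1, 4, 6), (1, 7, 4), (1, 9, 14), (2, 11, 11), (2, 12, 10), (3, 3, 3), (3, 8, 13), (3, 9, 5), (4, 14, 12), (5, 6, 13), (5, 11, 7), (6, 7, 12), (8, 10, 10), (13, 13, 13)]

/-- relators `x y z` of presentation 59 -/
def T59 : List (Fin 15 × Fin 15 × Fin 15) :=
  [(0, 0, 9), (0, 14, 10), (1, 1, 1), (1, 8, 3), (1, 12, 7), (2, 2, 5), (2, 14, 4), (3, 6, 11), (3, 14, 6), (4, 8, 13), (4, 10, 12), (5, 7, 13), (5, 11, 8), (6, 6, 6), (7, 7, 7), (9, 10, 11), (9, 13, 12)]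

/-- relators `x y z` of presentation 60 -/
def T60 : List (Fin 15 × Fin 15 × Fin 15) :=
  [(0, 0, 9), (0, 14, 3), (1, 1, 1), (1, 7, 8), (1, 13, 5), (2, 2, 2), (2, 8, 12), (2, 10, 4), (3, 10, 7), (3, 13, 13), (4, 5, 6), (4, 14, 11), (5, 14, 6), (6, 12, 11), (7, 9, 12), (8, 8, 8), (9, 11, 10)]

/-- relators `x y z` of presentation 61 -/
def T61 : List (Fin 15 × Fin 15 × Fin 15) :=
  [(0, 0, 14), (0, 9, 3), (1, 1, 1), (1, 6, 8), (1, 14, 11), (2, 3, 13), (2, 8, 7), (2, 9, 6), (3, 10, 5), (4, 4, 4), (4, 6, 10), (4, 10, 12), (5, 5, 5), (5, 13, 7), (7, 14, 12), (8, 13, 11), (9, 11, 12)]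

/-- relators `x y z` of presentation 62 -/
def T62 : List (Fin 15 × Fin 15 × Fin 15) :=
  [(0, 0, 0), (0, 9, 13), (0, 14, 5), (1, 4, 8), (1, 5, 11), (1, 12, 4), (2, 2, 2), (2, 7, 10), (2, 11, 14), (3, 3, 3), (3, 6, 9), (3, 11, 6), (4, 12, 7), (5, 12, 9), (6, 8, 7), (8, 13, 10), (10, 10, 10), (13, 13, 13), (14, 14, 14)]

/-- relators `x y z` of presentation 63 -/
def T63 : List (Fin 15 × Fin 15 × Fin 15) :=
  [(0, 0, 0), (0, 9, 3), (0, 14, 7), (1, 1, 8), (1, 12, 2), (2, 7, 10), (2, 13, 4), (3, 11, 5), (3, 12, 11), (4, 8, 6), (4, 10, 14), (5, 6, 10), (5, 11, 13), (6, 6, 6), (7, 13, 12), (8, 14, 9), (9, 9, 9)]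

/-- relators `x y z` of presentation 64 -/
def T64 : List (Fin 15 × Fin 15 × Fin 15) :=
  [(0, 0, 0), (0, 9, 6), (0, 14, 3), (1, 1, 1), (1, 7, 2), (1, 13, 12), (2, 6, 10), (2, 14, 5), (3, 11, 4), (3, 12, 8), (4, 6, 13), (4, 11, 9), (5, 5, 5), (5, 14, 13), (7, 7, 11), (8, 8, 8), (8, 9, 10), (10, 10, 10), (12, 12, 12)]

/-- relators `x y z` of presentation 65 -/
def T65 : List (Fin 15 × Fin 15 × Fin 15) :=
  [(0, 0, 0), (0, 9, 6), (0, 14, 1), (1, 10, 11), (1, 13, 3), (2, 2, 10), (2, 8, 5), (3, 6, 12), (3, 14, 7), (4, 4, 9), (4, 7, 8), (5, 5, 5), (5, 14, 13), (6, 11, 12), (7, 9, 10), (8, 12, 11), (13, 13, 13)]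

/-- relators `x y z` of presentation 66 -/
def T66 : List (Fin 15 × Fin 15 × Fin 15) :=
  [(0, 0, 0), (0, 9, 8), (0, 14, 11), (1, 1, 1), (1, 7, 5), (1, 13, 9), (2, 2, 7), (2, 11, 10), (3, 4, 13), (3, 5, 14), (3, 12, 4), (4, 5, 6), (6, 7, 14), (6, 9, 12), (8, 11, 13), (8, 12, 10), (10, 10, 10)]

/-- relators `x y z` of presentation 67 -/
def T67 : List (Fin 15 × Fin 15 × Fin 15) :=
  [(0, 0, 0), (0, 9, 12), (0, 14, 8), (1, 1, 1), (1, 7, 14), (1, 13, 7), (2, 2, 2), (2, 8, 13), (2, 10, 11), (3, 4, 10), (3, 7, 6), (3, 9, 5), (4, 4, 4), (4, 6, 9), (5, 5, 5), (5, 13, 11), (6, 8, 10), (11, 14, 12), (12, 12, 12)]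

/-- relators `x y z` of presentation 68 -/
def T68 : List (Fin 15 × Fin 15 × Fin 15) :=
  [(0, 0, 0), (0, 9, 3), (0, 14, 12), (1, 1, 1), (1, 8, 10), (1, 12, 11), (2, 2, 2), (2, 8, 4), (2, 10, 13), (3, 10, 7), (3, 13, 5), (4, 7, 6), (4, 11, 14), (5, 5, 5), (5, 13, 14), (6, 7, 11), (6, 9, 8), (9, 9, 9), (12, 12, 12)]

/-- relators `x y z` of presentation 69 -/
def T69 : List (Fin 15 × Fin 15 × Fin 15) :=
  [(0, 0, 9), (0, 14, 5), (1, 4, 11), (1, 5, 13), (1, 12, 12), (2, 3, 4), (2, 5, 10), (2, 13, 14), (3, 6, 6), (3, 10, 8), (4, 7, 7), (6, 11, 13), (7, 9, 11), (8, 8, 8), (8, 9, 12), (10, 10, 10), (14, 14, 14)]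

/-- relators `x y z` of presentation 70 -/
def T70 : List (Fin 15 × Fin 15 × Fin 15) :=
  [(0, 0, 0), (0, 9, 13), (0, 14, 3), (1, 1, 1), (1, 6, 5), (1, 14, 9), (2, 2, 7), (2, 11, 6), (3, 11, 11), (3, 12, 4), (4, 5, 8), (4, 13, 10), (5, 12, 12), (6, 14, 8), (7, 8, 10), (7, 10, 9), (13, 13, 13)]

/-- relators `x y z` of presentation 71 -/
def T71 : List (Fin 15 × Fin 15 × Fin 15) :=
  [(0, 0, 0), (0, 9, 7), (0, 14, 1), (1, 11, 13), (1, 12, 3), (2, 4, 9), (2, 5, 8), (2, 12, 6), (3, 8, 5), (3, 12, 11), (4, 4, 4), (4, 7, 10), (5, 9, 11), (6, 8, 14), (6, 10, 10), (7, 13, 13), (14, 14, 14)]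

/-- relators `x y z` of presentation 72 -/
def T72 : List (Fin 15 × Fin 15 × Fin 15) :=
  [(0, 0, 0), (0, 9, 4), (0, 14, 11), (1, 1, 1), (1, 8, 10), (1, 12, 2), (2, 7, 5), (2, 13, 8), (3, 4, 13), (3, 5, 14), (3, 12, 7), (4, 10, 6), (5, 5, 5), (6, 6, 6), (6, 10, 14), (7, 13, 9), (8, 8, 8), (9, 9, 9), (11, 11, 12)]

/-- relators `x y z` of presentation 73 -/
def T73 : List (Fin 15 × Fin 15 × Fin 15) :=
  [(0, 0, 0), (0, 9, 3), (0, 14, 10), (1, 1, 6), (1, 14, 4), (2, 2, 8), (2, 10, 11), (3, 10, 12), (3, 13, 13), (4, 7, 7), (4, 13, 5), (5, 5, 5), (5, 12, 8), (6, 8, 14), (6, 12, 9), (7, 9, 11), (11, 11, 11)]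

/-- relators `x y z` of presentation 74 -/
def T74 : List (Fin 15 × Fin 15 × Fin 15) :=
  [(0, 0, 0), (0, 9, 1), (0, 14, 11), (1, 10, 3), (1, 13, 12), (2, 4, 8), (2, 6, 7), (2, 10, 5), (3, 7, 14), (3, 13, 4), (4, 9, 6), (5, 8, 7), (5, 10, 13), (6, 9, 14), (8, 11, 12), (11, 11, 11), (12, 12, 12)]

/-- relators `x y z` of presentation 75 -/
def T75 : List (Fin 15 × Fin 15 × Fin 15) :=
  [(0, 0, 9), (0, 14, 5), (1, 1, 1), (1, 8, 3), (1, 12, 10), (2, 2, 2), (2, 7, 12), (2, 11, 6), (3, 6, 14), (3, 14, 13), (4, 4, 7), (4, 9, 11), (5, 10, 7), (5, 13, 6), (8, 8, 8), (8, 9, 12), (10, 13, 11)]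

/-- relators `x y z` of presentation 76 -/
def T76 : List (Fin 15 × Fin 15 × Fin 15) :=
  [(0, 0, 0), (0, 9, 11), (0, 14, 5), (1, 3, 4), (1, 8, 2), (1, 9, 6), (2, 6, 7), (2, 14, 12), (3, 6, 13), (3, 10, 9), (4, 8, 14), (4, 12, 10), (5, 11, 13), (5, 12, 8), (7, 7, 7), (7, 11, 10), (13, 13, 13)]

/-- relators `x y z` of presentation 77 -/
def T77 : List (Fin 15 × Fin 15 × Fin 15) :=
  [(0, 0, 0), (0, 9, 4), (0, 14, 7), (1, 3, 10), (1, 8, 8), (1, 9, 5), (2, 2, 2), (2, 8, 12), (2, 10, 6), (3, 4, 13), (3, 6, 11), (4, 10, 14), (5, 7, 12), (5, 13, 13), (6, 7, 11), (9, 12, 14), (11, 11, 11)]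

/-- relators `x y z` of presentation 78 -/
def T78 : List (Fin 15 × Fin 15 × Fin 15) :=
  [(0, 0, 0), (0, 9, 3), (0, 14, 5), (1, 1, 1), (1, 6, 4), (1, 14, 13), (2, 2, 10), (2, 8, 7), (3, 10, 14), (3, 13, 12), (4, 7, 11), (4, 13, 8), (5, 11, 10), (5, 12, 6), (6, 12, 11), (7, 7, 7), (8, 9, 9)]

/-- relators `x y z` of presentation 79 -/
def T79 : List (Fin 15 × Fin 15 × Fin 15) :=
  [(0, 0, 0), (0, 9, 8), (0, 14, 11), (1, 1, 1), (1, 6, 9), (1, 14, 7), (2, 2, 14), (2, 5, 4), (3, 3, 3), (3, 8, 13), (3, 9, 12), (4, 8, 10), (4, 10, 6), (5, 5, 12), (6, 7, 13), (7, 7, 7), (10, 10, 10), (11, 11, 11), (11, 12, 13)]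

/-- relators `x y z` of presentation 80 -/
def T80 : List (Fin 15 × Fin 15 × Fin 15) :=
  [(0, 0, 0), (0, 9, 1), (0, 14, 13), (1, 11, 8), (1, 12, 5), (2, 4, 11), (2, 6, 12), (2, 10, 4), (3, 3, 3), (3, 8, 14), (3, 9, 7), (4, 7, 6), (5, 8, 6), (5, 12, 14), (7, 11, 10), (9, 13, 10), (13, 13, 13)]

/-- relators `x y z` of presentation 81 -/
def T81 : List (Fin 15 × Fin 15 × Fin 15) :=
  [(0, 0, 0), (0, 9, 13), (0, 14, 2), (1, 3, 4), (1, 8, 6), (1, 9, 5), (2, 10, 7), (2, 13, 11), (3, 6, 8), (3, 10, 9), (4, 7, 10), (4, 13, 12), (5, 6, 12), (5, 14, 14), (7, 8, 11), (11, 11, 11), (12, 12, 12)]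

/-- relators `x y z` of presentation 82 -/
def T82 : List (Fin 15 × Fin 15 × Fin 15) :=
  [(0, 0, 0), (0, 9, 12), (0, 14, 1), (1, 11, 10), (1, 12, 13), (2, 3, 7), (2, 8, 3), (2, 9, 5), (3, 11, 4), (4, 6, 9), (4, 11, 6), (5, 5, 5), (5, 14, 8), (6, 7, 10), (7, 8, 13), (10, 14, 12), (13, 13, 13)]

/-- relators `x y z` of presentation 83 -/
def T83 : List (Fin 15 × Fin 15 × Fin 15) :=
  [(0, 0, 0), (0, 9, 1), (0, 14, 12), (1, 11, 2), (1, 12, 10), (2, 8, 3), (2, 12, 13), (3, 5, 6), (3, 14, 4), (4, 6, 5), (4, 11, 7), (5, 10, 14), (6, 13, 10), (7, 7, 9), (8, 8, 8), (8, 9, 13), (11, 11, 11)]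

/-- relators `x y z` of presentation 84 -/
def T84 : List (Fin 15 × Fin 15 × Fin 15) :=
  [(0, 0, 0), (0, 9, 13), (0, 14, 9), (1, 1, 1), (1, 6, 2), (1, 14, 8), (2, 7, 5), (2, 13, 11), (3, 3, 3), (3, 5, 14), (3, 13, 12), (4, 4, 7), (4, 9, 10), (5, 5, 5), (6, 8, 12), (6, 10, 10), (7, 12, 11), (8, 8, 8), (11, 11, 11)]

/-- relators `x y z` of presentation 85 -/
def T85 : List (Fin 15 × Fin 15 × Fin 15) :=
  [(0, 0, 9), (0, 14, 11), (1, 1, 13), (1, 7, 5), (2, 2, 2), (2, 5, 12), (2, 14, 6), (3, 3, 3), (3, 5, 8), (3, 13, 14), (4, 4, 10), (4, 6, 7), (6, 11, 13), (7, 12, 10), (8, 8, 8), (8, 9, 12), (9, 11, 10)]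

/-- relators `x y z` of presentation 86 -/
def T86 : List (Fin 15 × Fin 15 × Fin 15) :=
  [(0, 0, 0), (0, 9, 7), (0, 14, 12), (1, 3, 5), (1, 6, 11), (1, 11, 8), (2, 3, 13), (2, 8, 6), (2, 9, 4), (3, 3, 3), (4, 8, 14), (4, 10, 10), (5, 7, 13), (5, 13, 14), (6, 7, 10), (9, 9, 9), (11, 12, 12)]

/-- relators `x y z` of presentation 87 -/
def T87 : List (Fin 15 × Fin 15 × Fin 15) :=
  [(0, 0, 0), (0, 9, 10), (0, 14, 5), (1, 1, 6), (1, 14, 2), (2, 7, 8), (2, 13, 9), (3, 3, 3), (3, 5, 11), (3, 13, 7), (4, 4, 4), (4, 6, 12), (4, 10, 13), (5, 12, 12), (6, 8, 11), (7, 9, 8), (10, 10, 10), (11, 11, 11), (14, 14, 14)]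

/-- relators `x y z` of presentation 88 -/
def T88 : List (Fin 15 × Fin 15 × Fin 15) :=
  [(0, 0, 14), (0, 9, 13), (1, 3, 11), (1, 8, 10), (1, 9, 5), (2, 4, 12), (2, 6, 3), (2, 10, 8), (3, 7, 9), (4, 4, 4), (4, 5, 7), (5, 13, 12), (6, 6, 11), (7, 7, 7), (8, 8, 8), (10, 12, 14), (11, 14, 13)]

/-- relators `x y z` of presentation 89 -/
def T89 : List (Fin 15 × Fin 15 × Fin 15) :=
  [(0, 0, 0), (0, 9, 2), (0, 14, 1), (1, 10, 8), (1, 13, 4), (2, 11, 7), (2, 12, 10), (3, 3, 3), (3, 5, 6), (3, 13, 5), (4, 7, 11), (4, 13, 12), (5, 11, 9), (6, 8, 12), (6, 9, 14), (7, 7, 7), (8, 8, 8), (10, 10, 10), (14, 14, 14)]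

/-- relators `x y z` of presentation 90 -/
def T90 : List (Fin 15 × Fin 15 × Fin 15) :=
  [(0, 0, 0), (0, 9, 13), (0, 14, 8), (1, 3, 4), (1, 6, 6), (1, 11, 12), (2, 2, 7), (2, 11, 5), (3, 6, 14), (3, 10, 9), (4, 7, 10), (4, 13, 11), (5, 5, 5), (5, 14, 9), (7, 8, 10), (8, 13, 12), (12, 12, 12)]

/-- relators `x y z` of presentation 91 -/
def T91 : List (Fin 15 × Fin 15 × Fin 15) :=
  [(0, 0, 0), (0, 9, 10), (0, 14, 12), (1, 1, 1), (1, 8, 2), (1, 12, 11), (2, 6, 9), (2, 14, 4), (3, 3, 3), (3, 6, 7), (3, 11, 13), (4, 5, 6), (4, 14, 5), (5, 10, 13), (7, 8, 11), (7, 9, 8), (10, 10, 10), (12, 12, 12), (13, 13, 13)]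

/-- relators `x y z` of presentation 92 -/
def T92 : List (Fin 15 × Fin 15 × Fin 15) :=
  [(0, 0, 0), (0, 9, 10), (0, 14, 7), (1, 3, 6), (1, 8, 5), (1, 9, 4), (2, 2, 8), (2, 10, 13), (3, 3, 11), (4, 8, 14), (4, 12, 12), (5, 7, 12), (5, 13, 11), (6, 6, 6), (6, 14, 9), (7, 11, 13), (10, 10, 10)]

/-- relators `x y z` of presentation 93 -/
def T93 : List (Fin 15 × Fin 15 × Fin 15) :=
  [(0, 0, 9), (0, 14, 11), (1, 2, 13), (1, 5, 8), (1, 14, 2), (2, 7, 5), (3, 4, 7), (3, 5, 10), (3, 12, 6), (4, 4, 4), (4, 9, 12), (6, 6, 6), (6, 11, 13), (7, 13, 14), (8, 8, 8), (8, 12, 10), (9, 11, 10)]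

/-- relators `x y z` of presentation 94 -/
def T94 : List (Fin 15 × Fin 15 × Fin 15) :=
  [(0, 0, 9), (0, 14, 13), (1, 1, 8), (1, 12, 6), (2, 4, 5), (2, 7, 7), (2, 9, 11), (3, 3, 3), (3, 6, 14), (3, 11, 10), (4, 4, 12), (5, 5, 14), (6, 6, 6), (7, 11, 8), (8, 13, 10), (9, 12, 10), (13, 13, 13)]

/-- relators `x y z` of presentation 95 -/
def T95 : List (Fin 15 × Fin 15 × Fin 15) :=
  [(0, 0, 14), (0, 9, 3), (1, 1, 1), (1, 8, 5), (1, 12, 7), (2, 3, 13), (2, 8, 12), (2, 9, 11), (3, 10, 4), (4, 5, 6), (4, 13, 8), (5, 14, 11), (6, 6, 6), (6, 10, 9), (7, 7, 7), (7, 13, 10), (11, 14, 12)]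

/-- relators `x y z` of presentation 96 -/
def T96 : List (Fin 15 × Fin 15 × Fin 15) :=
  [(0, 0, 0), (0, 9, 11), (0, 14, 4), (1, 1, 6), (1, 14, 10), (2, 4, 12), (2, 5, 3), (2, 12, 7), (3, 8, 9), (3, 10, 8), (4, 11, 13), (5, 5, 5), (5, 13, 7), (6, 7, 14), (6, 13, 9), (8, 8, 8), (10, 12, 11)]

/-- relators `x y z` of presentation 97 -/
def T97 : List (Fin 15 × Fin 15 × Fin 15) :=
  [(0, 0, 0), (0, 9, 6), (0, 14, 11), (1, 1, 8), (1, 12, 9), (2, 3, 5), (2, 8, 13), (2, 9, 14), (3, 4, 10), (3, 12, 7), (4, 4, 4), (4, 6, 12), (5, 5, 5), (5, 14, 7), (6, 11, 10), (7, 13, 8), (10, 11, 13)]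

/-- relators `x y z` of presentation 98 -/
def T98 : List (Fin 15 × Fin 15 × Fin 15) :=
  [(0, 0, 0), (0, 9, 12), (0, 14, 3), (1, 2, 9), (1, 5, 10), (1, 14, 8), (2, 4, 5), (2, 7, 7), (3, 10, 13), (3, 13, 6), (4, 4, 4), (4, 12, 11), (5, 8, 6), (6, 13, 11), (7, 11, 10), (8, 14, 9), (12, 12, 12)]

/-- relators `x y z` of presentation 99 -/
def T99 : List (Fin 15 × Fin 15 × Fin 15) :=
  [(0, 0, 0), (0, 9, 3), (0, 14, 10), (1, 2, 4), (1, 8, 11), (1, 10, 13), (2, 7, 12), (2, 9, 8), (3, 11, 6), (3, 12, 5), (4, 8, 7), (4, 12, 14), (5, 5, 5), (5, 13, 7), (6, 6, 6), (6, 11, 14), (9, 9, 9), (10, 10, 10), (13, 13, 13)]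

/-- relators `x y z` of presentation 100 -/
def T100 : List (Fin 15 × Fin 15 × Fin 15) :=
  [(0, 0, 0), (0, 9, 8), (0, 14, 7), (1, 3, 2), (1, 8, 13), (1, 9, 10), (2, 6, 5), (2, 14, 9), (3, 7, 11), (3, 11, 6), (4, 4, 12), (4, 5, 14), (5, 5, 5), (6, 13, 12), (7, 12, 10), (8, 10, 13), (11, 11, 11)]

/-- relators `x y z` of presentation 101 -/
def T101 : List (Fin 15 × Fin 15 × Fin 15) :=
  [(0, 0, 0), (0, 9, 12), (0, 14, 1), (1, 10, 7), (1, 13, 9), (2, 3, 4), (2, 8, 10), (2, 9, 8), (3, 6, 5), (3, 10, 11), (4, 5, 13), (4, 14, 6), (5, 5, 5), (6, 12, 11), (7, 7, 13), (8, 8, 8), (11, 11, 11), (12, 12, 12), (14, 14, 14)]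

/-- relators `x y z` of presentation 102 -/
def T102 : List (Fin 15 × Fin 15 × Fin 15) :=
  [(0, 0, 0), (0, 9, 1), (0, 14, 5), (1, 10, 6), (1, 13, 2), (2, 7, 3), (2, 13, 8), (3, 5, 12), (3, 14, 4), (4, 5, 11), (4, 13, 10), (6, 6, 6), (6, 14, 12), (7, 8, 11), (7, 9, 8), (9, 12, 11), (10, 10, 10)]

/-- relators `x y z` of presentation 103 -/
def T103 : List (Fin 15 × Fin 15 × Fin 15) :=
  [(0, 0, 14), (0, 9, 6), (1, 3, 11), (1, 8, 2), (1, 9, 4), (2, 6, 10), (2, 14, 12), (3, 3, 3), (3, 6, 13), (4, 7, 7), (4, 13, 5), (5, 5, 5), (5, 12, 8), (7, 9, 10), (8, 14, 11), (10, 11, 12), (13, 13, 13)]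

/-- relators `x y z` of presentation 104 -/
def T104 : List (Fin 15 × Fin 15 × Fin 15) :=
  [(0, 0, 14), (0, 9, 12), (1, 1, 1), (1, 7, 8), (1, 13, 2), (2, 6, 10), (2, 14, 11), (3, 3, 3), (3, 6, 4), (3, 11, 7), (4, 5, 9), (4, 13, 5), (5, 7, 9), (6, 6, 6), (8, 8, 8), (8, 12, 10), (10, 10, 10), (11, 11, 11), (12, 13, 14)]

/-- relators `x y z` of presentation 105 -/
def T105 : List (Fin 15 × Fin 15 × Fin 15) :=
  [(0, 0, 0), (0, 9, 8), (0, 14, 4), (1, 2, 9), (1, 7, 10), (1, 11, 6), (2, 3, 7), (2, 8, 13), (3, 4, 11), (3, 9, 12), (4, 12, 5), (5, 5, 5), (5, 12, 13), (6, 6, 14), (7, 8, 10), (10, 13, 14), (11, 11, 11)]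

/-- relators `x y z` of presentation 106 -/
def T106 : List (Fin 15 × Fin 15 × Fin 15) :=
  [(0, 0, 0), (0, 9, 13), (0, 14, 12), (1, 2, 14), (1, 7, 4), (1, 11, 9), (2, 2, 5), (3, 4, 6), (3, 5, 10), (3, 12, 11), (4, 14, 8), (5, 8, 10), (6, 6, 6), (6, 11, 8), (7, 7, 9), (10, 13, 13), (12, 12, 12)]

/-- relators `x y z` of presentation 107 -/
def T107 : List (Fin 15 × Fin 15 × Fin 15) :=
  [(0, 0, 0), (0, 9, 11), (0, 14, 13), (1, 1, 1), (1, 6, 14), (1, 14, 7), (2, 3, 9), (2, 5, 6), (2, 13, 10), (3, 3, 3), (3, 8, 4), (4, 6, 5), (4, 11, 12), (5, 10, 8), (7, 8, 12), (7, 12, 9), (10, 10, 10), (11, 11, 11), (13, 13, 13)]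

/-- relators `x y z` of presentation 108 -/
def T108 : List (Fin 15 × Fin 15 × Fin 15) :=
  [(0, 0, 9), (0, 14, 3), (1, 1, 1), (1, 6, 8), (1, 14, 6), (2, 4, 10), (2, 7, 13), (2, 9, 11), (3, 10, 5), (3, 13, 7), (4, 4, 4), (4, 6, 12), (5, 8, 7), (5, 9, 12), (8, 13, 11), (10, 14, 11), (12, 12, 12)]

/-- relators `x y z` of presentation 109 -/
def T109 : List (Fin 15 × Fin 15 × Fin 15) :=
  [(0, 0, 0), (0, 9, 5), (0, 14, 11), (1, 1, 6), (1, 14, 7), (2, 3, 9), (2, 8, 13), (2, 9, 14), (3, 4, 12), (3, 7, 8), (4, 4, 4), (4, 5, 10), (5, 13, 8), (6, 7, 12), (6, 13, 10), (10, 10, 10), (11, 11, 12)]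

/-- relators `x y z` of presentation 110 -/
def T110 : List (Fin 15 × Fin 15 × Fin 15) :=
  [(0, 0, 0), (0, 9, 8), (0, 14, 13), (1, 3, 4), (1, 8, 12), (1, 9, 2), (2, 7, 6), (2, 13, 10), (3, 6, 7), (3, 10, 14), (4, 6, 11), (4, 14, 5), (5, 7, 11), (5, 9, 10), (8, 11, 12), (12, 12, 12), (13, 13, 13)]

/-- relators `x y z` of presentation 111 -/
def T111 : List (Fin 15 × Fin 15 × Fin 15) :=
  [(0, 0, 0), (0, 9, 7), (0, 14, 11), (1, 1, 1), (1, 6, 9), (1, 14, 3), (2, 3, 8), (2, 5, 12), (2, 13, 4), (3, 12, 10), (4, 5, 5), (4, 14, 6), (6, 7, 13), (7, 10, 8), (8, 11, 12), (9, 13, 10), (11, 11, 11)]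

/-- relators `x y z` of presentation 112 -/
def T112 : List (Fin 15 × Fin 15 × Fin 15) :=
  [(0, 0, 0), (0, 9, 11), (0, 14, 6), (1, 1, 1), (1, 6, 10), (1, 14, 3), (2, 4, 9), (2, 6, 13), (2, 10, 12), (3, 7, 4), (3, 13, 8), (4, 8, 5), (5, 5, 12), (7, 7, 9), (8, 13, 10), (11, 11, 11), (11, 12, 14)]

/-- relators `x y z` of presentation 113 -/
def T113 : List (Fin 15 × Fin 15 × Fin 15) :=
  [(0, 0, 0), (0, 9, 1), (0, 14, 5), (1, 11, 10), (1, 12, 4), (2, 4, 14), (2, 7, 6), (2, 9, 13), (3, 3, 8), (3, 9, 7), (4, 6, 11), (5, 10, 12), (5, 13, 8), (6, 7, 11), (8, 13, 10), (12, 12, 12), (14, 14, 14)]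

/-- relators `x y z` of presentation 114 -/
def T114 : List (Fin 15 × Fin 15 × Fin 15) :=
  [(0, 0, 0), (0, 9, 4), (0, 14, 8), (1, 2, 7), (1, 8, 11), (1, 10, 14), (2, 4, 13), (2, 9, 10), (3, 3, 3), (3, 8, 12), (3, 9, 6), (4, 10, 5), (5, 5, 5), (5, 12, 6), (6, 13, 11), (7, 7, 13), (11, 14, 12)]

/-- relators `x y z` of presentation 115 -/
def T115 : List (Fin 15 × Fin 15 × Fin 15) :=
  [(0, 0, 14), (0, 9, 7), (1, 2, 5), (1, 5, 6), (1, 14, 11), (2, 3, 9), (2, 13, 10), (3, 3, 3), (3, 8, 4), (4, 6, 13), (4, 11, 12), (5, 14, 12), (6, 7, 13), (7, 10, 8), (8, 9, 11), (10, 10, 10), (12, 12, 12)]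

/-- relators `x y z` of presentation 116 -/
def T116 : List (Fin 15 × Fin 15 × Fin 15) :=
  [(0, 0, 0), (0, 9, 1), (0, 14, 2), (1, 10, 5), (1, 13, 11), (2, 11, 12), (2, 12, 8), (3, 4, 7), (3, 5, 13), (3, 12, 10), (4, 4, 4), (4, 9, 6), (5, 7, 8), (6, 6, 6), (6, 10, 13), (7, 9, 14), (8, 14, 11)]

/-- relators `x y z` of presentation 117 -/
def T117 : List (Fin 15 × Fin 15 × Fin 15) :=
  [(0, 0, 0), (0, 9, 10), (0, 14, 9), (1, 4, 11), (1, 6, 8), (1, 10, 12), (2, 3, 6), (2, 5, 7), (2, 13, 4), (3, 3, 3), (3, 11, 14), (4, 7, 5), (5, 9, 13), (6, 10, 11), (7, 14, 8), (8, 13, 12), (12, 12, 12)]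

/-- relators `x y z` of presentation 118 -/
def T118 : List (Fin 15 × Fin 15 × Fin 15) :=
  [(0, 0, 0), (0, 9, 1), (0, 14, 2), (1, 10, 7), (1, 13, 4), (2, 11, 6), (2, 12, 3), (3, 7, 8), (3, 11, 11), (4, 6, 10), (4, 14, 5), (5, 5, 5), (5, 12, 8), (6, 8, 13), (7, 12, 9), (9, 13, 10), (14, 14, 14)]

/-- relators `x y z` of presentation 119 -/
def T119 : List (Fin 15 × Fin 15 × Fin 15) :=
  [(0, 0, 0), (0, 9, 3), (0, 14, 10), (1, 3, 12), (1, 6, 2), (1, 11, 5), (2, 6, 14), (2, 14, 8), (3, 11, 4), (4, 8, 7), (4, 9, 13), (5, 7, 6), (5, 13, 9), (7, 10, 13), (8, 11, 12), (10, 10, 10), (12, 12, 12)]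

/-- relators `x y z` of presentation 120 -/
def T120 : List (Fin 15 × Fin 15 × Fin 15) :=
  [(0, 0, 0), (0, 9, 3), (0, 14, 5), (1, 4, 2), (1, 5, 13), (1, 12, 12), (2, 6, 10), (2, 14, 14), (3, 11, 7), (3, 12, 8), (4, 8, 6), (4, 10, 11), (5, 10, 7), (6, 6, 6), (7, 13, 13), (8, 11, 9), (9, 9, 9)]

/-- relators `x y z` of presentation 121 -/
def T121 : List (Fin 15 × Fin 15 × Fin 15) :=
  [(0, 0, 14), (0, 9, 1), (1, 11, 6), (1, 12, 5), (2, 2, 2), (2, 8, 3), (2, 10, 4), (3, 7, 12), (3, 11, 11), (4, 5, 7), (4, 14, 13), (5, 13, 7), (6, 6, 6), (6, 14, 10), (8, 8, 9), (9, 12, 13), (10, 10, 10)]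

/-- relators `x y z` of presentation 122 -/
def T122 : List (Fin 15 × Fin 15 × Fin 15) :=
  [(0, 0, 0), (0, 9, 12), (0, 14, 13), (1, 2, 10), (1, 5, 9), (1, 14, 3), (2, 2, 8), (3, 6, 6), (3, 14, 5), (4, 4, 4), (4, 6, 11), (4, 10, 7), (5, 8, 7), (7, 12, 11), (8, 11, 9), (10, 13, 13), (12, 12, 12)]

/-- relators `x y z` of presentation 123 -/
def T123 : List (Fin 15 × Fin 15 × Fin 15) :=
  [(0, 0, 0), (0, 9, 7), (0, 14, 2), (1, 4, 3), (1, 5, 11), (1, 12, 8), (2, 11, 12), (2, 12, 10), (3, 7, 13), (3, 13, 5), (4, 8, 6), (4, 9, 9), (5, 6, 10), (6, 6, 6), (7, 10, 14), (8, 14, 11), (13, 13, 13)]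

/-- relators `x y z` of presentation 124 -/
def T124 : List (Fin 15 × Fin 15 × Fin 15) :=
  [(0, 0, 9), (0, 14, 2), (1, 1, 1), (1, 7, 10), (1, 13, 3), (2, 10, 6), (2, 13, 11), (3, 8, 4), (3, 12, 5), (4, 8, 7), (4, 9, 12), (5, 5, 5), (5, 13, 6), (6, 14, 7), (8, 9, 11), (10, 14, 11), (12, 12, 12)]

/-- relators `x y z` of presentation 125 -/
def T125 : List (Fin 15 × Fin 15 × Fin 15) :=
  [(0, 0, 0), (0, 9, 12), (0, 14, 13), (1, 3, 10), (1, 6, 6), (1, 11, 9), (2, 2, 2), (2, 8, 4), (2, 10, 7), (3, 4, 11), (3, 6, 14), (4, 7, 5), (5, 7, 14), (5, 9, 8), (8, 12, 11), (10, 13, 13), (12, 12, 12)]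

/-- relators `x y z` of presentation 126 -/
def T126 : List (Fin 15 × Fin 15 × Fin 15) :=
  [(0, 0, 0), (0, 9, 6), (0, 14, 4), (1, 1, 1), (1, 6, 13), (1, 14, 12), (2, 2, 11), (2, 7, 5), (3, 3, 9), (3, 8, 7), (4, 11, 10), (4, 12, 8), (5, 5, 14), (6, 10, 10), (7, 13, 13), (8, 9, 11), (12, 12, 12)]

/-- relators `x y z` of presentation 127 -/
def T127 : List (Fin 15 × Fin 15 × Fin 15) :=
  [(0, 0, 0), (0, 9, 10), (0, 14, 8), (1, 2, 12), (1, 5, 13), (1, 14, 2), (2, 8, 11), (3, 3, 3), (3, 6, 5), (3, 11, 7), (4, 4, 4), (4, 7, 9), (4, 9, 6), (5, 5, 5), (6, 12, 13), (7, 8, 12), (10, 10, 10), (10, 13, 14), (11, 11, 11)]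

/-- relators `x y z` of presentation 128 -/
def T128 : List (Fin 15 × Fin 15 × Fin 15) :=
  [(0, 0, 0), (0, 9, 3), (0, 14, 13), (1, 4, 5), (1, 7, 14), (1, 9, 8), (2, 2, 7), (2, 11, 6), (3, 11, 11), (3, 12, 10), (4, 4, 12), (5, 6, 10), (5, 14, 7), (6, 8, 12), (8, 8, 8), (9, 9, 9), (10, 13, 13)]

/-- relators `x y z` of presentation 129 -/
def T129 : List (Fin 15 × Fin 15 × Fin 15) :=
  [(0, 0, 0), (0, 9, 14), (0, 14, 11), (1, 4, 9), (1, 6, 3), (1, 10, 8), (2, 3, 7), (2, 6, 5), (2, 11, 10), (3, 13, 4), (4, 8, 12), (5, 5, 5), (5, 14, 12), (6, 13, 9), (7, 7, 7), (7, 11, 13), (8, 8, 8), (10, 10, 10), (12, 12, 12)]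

/-- relators `x y z` of presentation 130 -/
def T130 : List (Fin 15 × Fin 15 × Fin 15) :=
  [(0, 0, 14), (0, 9, 7), (1, 2, 3), (1, 5, 4), (1, 14, 10), (2, 5, 6), (2, 13, 8), (3, 6, 11), (3, 14, 13), (4, 7, 12), (4, 13, 9), (5, 10, 12), (6, 7, 11), (8, 8, 10), (9, 9, 9), (11, 11, 11), (12, 12, 12)]

/-- relators `x y z` of presentation 131 -/
def T131 : List (Fin 15 × Fin 15 × Fin 15) :=
  [(0, 0, 9), (0, 14, 11), (1, 1, 13), (1, 7, 6), (2, 4, 3), (2, 6, 14), (2, 10, 5), (3, 5, 8), (3, 14, 7), (4, 5, 10), (4, 13, 12), (6, 6, 6), (7, 11, 12), (8, 8, 8), (8, 9, 13), (9, 10, 12), (11, 11, 11)]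

/-- relators `x y z` of presentation 132 -/
def T132 : List (Fin 15 × Fin 15 × Fin 15) :=
  [(0, 0, 0), (0, 9, 3), (0, 14, 12), (1, 3, 10), (1, 5, 14), (1, 13, 6), (2, 4, 11), (2, 7, 5), (2, 9, 8), (3, 13, 4), (4, 6, 7), (5, 5, 5), (6, 13, 10), (7, 12, 11), (8, 8, 8), (8, 10, 14), (9, 9, 9), (11, 11, 11), (12, 12, 12)]

/-- relators `x y z` of presentation 133 -/
def T133 : List (Fin 15 × Fin 15 × Fin 15) :=
  [(0, 0, 0), (0, 9, 3), (0, 14, 2), (1, 1, 1), (1, 6, 10), (1, 14, 8), (2, 11, 11), (2, 12, 7), (3, 10, 13), (3, 13, 5), (4, 4, 12), (4, 5, 6), (5, 11, 7), (6, 6, 6), (7, 14, 10), (8, 8, 8), (8, 12, 9), (9, 9, 9), (13, 13, 13)]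

/-- relators `x y z` of presentation 134 -/
def T134 : List (Fin 15 × Fin 15 × Fin 15) :=
  [(0, 0, 0), (0, 9, 8), (0, 14, 13), (1, 2, 5), (1, 5, 14), (1, 14, 7), (2, 4, 6), (2, 12, 11), (3, 4, 10), (3, 7, 12), (3, 9, 9), (4, 4, 4), (5, 6, 10), (6, 8, 12), (7, 8, 11), (10, 13, 13), (11, 11, 11)]

/-- relators `x y z` of presentation 135 -/
def T135 : List (Fin 15 × Fin 15 × Fin 15) :=
  [(0, 0, 0), (0, 9, 13), (0, 14, 8), (1, 4, 3), (1, 6, 12), (1, 10, 9), (2, 3, 14), (2, 8, 11), (2, 9, 7), (3, 6, 5), (4, 5, 6), (4, 13, 10), (5, 11, 7), (7, 14, 10), (8, 12, 12), (11, 11, 11), (13, 13, 13)]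

/-- relators `x y z` of presentation 136 -/
def T136 : List (Fin 15 × Fin 15 × Fin 15) :=
  [(0, 0, 0), (0, 9, 14), (0, 14, 10), (1, 3, 2), (1, 5, 12), (1, 13, 5), (2, 7, 9), (2, 13, 4), (3, 8, 8), (3, 10, 11), (4, 7, 7), (4, 11, 6), (5, 8, 9), (6, 6, 6), (6, 10, 12), (11, 11, 11), (12, 14, 13)]

/-- relators `x y z` of presentation 137 -/
def T137 : List (Fin 15 × Fin 15 × Fin 15) :=
  [(0, 0, 0), (0, 9, 1), (0, 14, 6), (1, 11, 2), (1, 12, 7), (2, 7, 12), (2, 13, 8), (3, 3, 13), (3, 5, 4), (4, 6, 10), (4, 11, 14), (5, 5, 5), (5, 12, 11), (6, 13, 9), (7, 8, 10), (8, 8, 8), (9, 14, 10)]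

/-- relators `x y z` of presentation 138 -/
def T138 : List (Fin 15 × Fin 15 × Fin 15) :=
  [(0, 0, 0), (0, 9, 10), (0, 14, 1), (1, 11, 4), (1, 12, 7), (2, 4, 13), (2, 5, 3), (2, 12, 9), (3, 5, 8), (3, 14, 6), (4, 7, 12), (5, 9, 8), (6, 6, 11), (7, 8, 13), (10, 10, 10), (10, 13, 11), (14, 14, 14)]

/-- relators `x y z` of presentation 139 -/
def T139 : List (Fin 15 × Fin 15 × Fin 15) :=
  [(0, 0, 0), (0, 9, 10), (0, 14, 3), (1, 4, 11), (1, 7, 2), (1, 9, 8), (2, 6, 4), (2, 14, 9), (3, 11, 12), (3, 12, 13), (4, 7, 5), (5, 5, 12), (6, 6, 6), (6, 10, 13), (7, 14, 8), (8, 13, 11), (10, 10, 10)]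

/-- relators `x y z` of presentation 140 -/
def T140 : List (Fin 15 × Fin 15 × Fin 15) :=
  [(0, 0, 0), (0, 9, 13), (0, 14, 1), (1, 11, 5), (1, 12, 9), (2, 2, 2), (2, 8, 10), (2, 10, 11), (3, 3, 3), (3, 8, 6), (3, 9, 7), (4, 4, 12), (4, 5, 8), (5, 12, 7), (6, 6, 6), (6, 11, 14), (7, 13, 10), (13, 13, 13), (14, 14, 14)]

/-- relators `x y z` of presentation 141 -/
def T141 : List (Fin 15 × Fin 15 × Fin 15) :=
  [(0, 0, 0), (0, 9, 11), (0, 14, 1), (1, 10, 4), (1, 13, 2), (2, 6, 5), (2, 14, 12), (3, 4, 7), (3, 7, 9), (3, 9, 6), (4, 13, 8), (5, 5, 5), (5, 14, 8), (6, 13, 10), (7, 8, 12), (10, 10, 10), (11, 11, 12)]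

/-- relators `x y z` of presentation 142 -/
def T142 : List (Fin 15 × Fin 15 × Fin 15) :=
  [(0, 0, 14), (0, 9, 3), (1, 1, 1), (1, 6, 5), (1, 14, 11), (2, 3, 10), (2, 6, 12), (2, 11, 8), (3, 13, 4), (4, 5, 7), (4, 13, 6), (5, 13, 10), (7, 7, 7), (7, 9, 8), (8, 11, 12), (9, 9, 9), (10, 14, 12)]

/-- relators `x y z` of presentation 143 -/
def T143 : List (Fin 15 × Fin 15 × Fin 15) :=
  [(0, 0, 0), (0, 9, 7), (0, 14, 5), (1, 3, 9), (1, 8, 4), (1, 9, 13), (2, 4, 14), (2, 5, 12), (2, 12, 11), (3, 4, 6), (3, 7, 10), (5, 11, 10), (6, 6, 6), (6, 11, 8), (7, 13, 12), (8, 10, 13), (14, 14, 14)]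

/-- relators `x y z` of presentation 144 -/
def T144 : List (Fin 15 × Fin 15 × Fin 15) :=
  [(0, 0, 0), (0, 9, 2), (0, 14, 12), (1, 1, 1), (1, 7, 14), (1, 13, 11), (2, 10, 13), (2, 13, 7), (3, 4, 10), (3, 7, 5), (3, 9, 8), (4, 4, 6), (5, 8, 6), (5, 9, 10), (6, 12, 11), (8, 11, 14), (12, 12, 12)]

/-- relators `x y z` of presentation 145 -/
def T145 : List (Fin 15 × Fin 15 × Fin 15) :=
  [(0, 0, 0), (0, 9, 7), (0, 14, 1), (1, 10, 2), (1, 13, 12), (2, 8, 5), (2, 12, 6), (3, 3, 3), (3, 6, 8), (3, 11, 4), (4, 8, 13), (4, 9, 9), (5, 5, 5), (5, 14, 13), (6, 10, 11), (7, 11, 10), (7, 12, 14)]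

/-- relators `x y z` of presentation 146 -/
def T146 : List (Fin 15 × Fin 15 × Fin 15) :=
  [(0, 0, 9), (0, 14, 5), (1, 4, 11), (1, 7, 2), (1, 9, 12), (2, 6, 4), (2, 14, 14), (3, 3, 3), (3, 5, 13), (3, 13, 8), (4, 7, 10), (5, 10, 6), (6, 12, 8), (7, 8, 11), (9, 11, 13), (10, 10, 10), (12, 12, 12)]

/-- relators `x y z` of presentation 147 -/
def T147 : List (Fin 15 × Fin 15 × Fin 15) :=
  [(0, 0, 0), (0, 9, 11), (0, 14, 1), (1, 11, 10), (1, 12, 8), (2, 3, 9), (2, 6, 12), (2, 11, 13), (3, 3, 3), (3, 8, 7), (4, 4, 4), (4, 6, 5), (4, 10, 6), (5, 7, 13), (5, 9, 7), (8, 13, 14), (10, 14, 12)]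

/-- relators `x y z` of presentation 148 -/
def T148 : List (Fin 15 × Fin 15 × Fin 15) :=
  [(0, 0, 0), (0, 9, 4), (0, 14, 2), (1, 1, 8), (1, 12, 13), (2, 10, 3), (2, 13, 7), (3, 5, 12), (3, 14, 11), (4, 11, 6), (4, 12, 5), (5, 5, 5), (6, 6, 6), (6, 10, 8), (7, 8, 14), (7, 10, 9), (9, 9, 9), (11, 11, 11), (13, 13, 13)]

/-- relators `x y z` of presentation 149 -/
def T149 : List (Fin 15 × Fin 15 × Fin 15) :=
  [(0, 0, 0), (0, 9, 12), (0, 14, 7), (1, 4, 5), (1, 6, 8), (1, 10, 9), (2, 2, 2), (2, 8, 14), (2, 10, 4), (3, 3, 3), (3, 5, 13), (3, 13, 6), (4, 14, 11), (5, 7, 11), (6, 9, 8), (7, 12, 10), (11, 12, 13)]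

/-- relators `x y z` of presentation 150 -/
def T150 : List (Fin 15 × Fin 15 × Fin 15) :=
  [(0, 0, 9), (0, 14, 5), (1, 4, 8), (1, 7, 3), (1, 9, 12), (2, 3, 14), (2, 5, 13), (2, 13, 10), (3, 6, 4), (4, 9, 11), (5, 10, 11), (6, 6, 6), (6, 10, 7), (7, 11, 12), (8, 8, 8), (8, 12, 13), (14, 14, 14)]

/-- relators `x y z` of presentation 151 -/
def T151 : List (Fin 15 × Fin 15 × Fin 15) :=
  [(0, 0, 0), (0, 9, 8), (0, 14, 11), (1, 2, 9), (1, 5, 7), (1, 14, 6), (2, 3, 10), (2, 8, 13), (3, 4, 12), (3, 6, 14), (4, 4, 5), (5, 9, 12), (6, 6, 6), (7, 7, 13), (8, 10, 10), (11, 11, 11), (11, 12, 13)]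

/-- relators `x y z` of presentation 152 -/
def T152 : List (Fin 15 × Fin 15 × Fin 15) :=
  [(0, 0, 0), (0, 9, 7), (0, 14, 8), (1, 4, 5), (1, 6, 2), (1, 10, 14), (2, 7, 10), (2, 13, 9), (3, 4, 12), (3, 7, 13), (3, 9, 11), (4, 4, 4), (5, 6, 10), (5, 14, 12), (6, 8, 11), (8, 12, 13), (11, 11, 11)]

/-- relators `x y z` of presentation 153 -/
def T153 : List (Fin 15 × Fin 15 × Fin 15) :=
  [(0, 0, 0), (0, 9, 11), (0, 14, 9), (1, 3, 10), (1, 5, 12), (1, 13, 2), (2, 6, 4), (2, 14, 3), (3, 8, 7), (4, 5, 5), (4, 14, 8), (6, 6, 6), (6, 10, 7), (7, 11, 13), (8, 9, 12), (10, 13, 11), (12, 12, 12)]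

/-- relators `x y z` of presentation 154 -/
def T154 : List (Fin 15 × Fin 15 × Fin 15) :=
  [(0, 0, 0), (0, 9, 2), (0, 14, 13), (1, 1, 14), (1, 6, 12), (2, 11, 4), (2, 12, 8), (3, 3, 5), (3, 13, 10), (4, 5, 6), (4, 14, 7), (5, 11, 6), (7, 7, 9), (8, 8, 10), (9, 11, 10), (12, 12, 12), (13, 13, 13)]

/-- relators `x y z` of presentation 155 -/
def T155 : List (Fin 15 × Fin 15 × Fin 15) :=
  [(0, 0, 0), (0, 9, 3), (0, 14, 4), (1, 2, 11), (1, 7, 6), (1, 11, 7), (2, 3, 12), (2, 6, 8), (3, 11, 13), (4, 10, 10), (4, 13, 5), (5, 7, 14), (5, 9, 8), (6, 12, 10), (8, 14, 12), (9, 9, 9), (13, 13, 13)]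

/-- relators `x y z` of presentation 156 -/
def T156 : List (Fin 15 × Fin 15 × Fin 15) :=
  [(0, 0, 0), (0, 9, 4), (0, 14, 8), (1, 3, 7), (1, 5, 6), (1, 13, 14), (2, 2, 11), (2, 7, 13), (3, 4, 10), (3, 9, 12), (4, 13, 5), (5, 10, 9), (6, 6, 6), (6, 14, 12), (7, 7, 7), (8, 11, 10), (8, 12, 11)]

/-- relators `x y z` of presentation 157 -/
def T157 : List (Fin 15 × Fin 15 × Fin 15) :=
  [(0, 0, 0), (0, 9, 5), (0, 14, 1), (1, 10, 7), (1, 13, 12), (2, 2, 2), (2, 7, 6), (2, 11, 3), (3, 8, 4), (3, 10, 9), (4, 8, 10), (4, 9, 13), (5, 11, 6), (5, 12, 13), (6, 14, 8), (7, 14, 12), (11, 11, 11)]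

/-- relators `x y z` of presentation 158 -/
def T158 : List (Fin 15 × Fin 15 × Fin 15) :=
  [(0, 0, 0), (0, 9, 1), (0, 14, 4), (1, 10, 7), (1, 13, 2), (2, 7, 12), (2, 13, 11), (3, 3, 8), (3, 9, 6), (4, 11, 5), (4, 12, 10), (5, 5, 5), (5, 12, 8), (6, 6, 6), (6, 11, 14), (7, 8, 13), (9, 14, 10)]

/-- relators `x y z` of presentation 159 -/
def T159 : List (Fin 15 × Fin 15 × Fin 15) :=
  [(0, 0, 0), (0, 9, 2), (0, 14, 10), (1, 2, 13), (1, 5, 3), (1, 14, 4), (2, 10, 12), (3, 6, 8), (3, 14, 6), (4, 8, 11), (4, 12, 7), (5, 5, 5), (5, 13, 7), (6, 9, 8), (7, 12, 11), (9, 10, 11), (13, 13, 13)]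

/-- relators `x y z` of presentation 160 -/
def T160 : List (Fin 15 × Fin 15 × Fin 15) :=
  [(0, 0, 9), (0, 14, 2), (1, 1, 1), (1, 7, 10), (1, 13, 5), (2, 11, 11), (2, 12, 8), (3, 3, 3), (3, 5, 6), (3, 13, 12), (4, 4, 7), (4, 9, 13), (5, 14, 8), (6, 6, 6), (6, 11, 7), (8, 14, 10), (9, 10, 12)]

/-- relators `x y z` of presentation 161 -/
def T161 : List (Fin 15 × Fin 15 × Fin 15) :=
  [(0, 0, 0), (0, 9, 13), (0, 14, 8), (1, 1, 1), (1, 6, 14), (1, 14, 12), (2, 3, 6), (2, 6, 5), (2, 11, 7), (3, 4, 9), (3, 10, 4), (4, 8, 11), (5, 7, 10), (5, 11, 9), (7, 8, 12), (10, 12, 13), (13, 13, 13)]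

/-- relators `x y z` of presentation 162 -/
def T162 : List (Fin 15 × Fin 15 × Fin 15) :=
  [(0, 0, 0), (0, 9, 5), (0, 14, 13), (1, 4, 2), (1, 5, 12), (1, 12, 14), (2, 8, 3), (2, 12, 6), (3, 8, 9), (3, 10, 7), (4, 7, 11), (4, 11, 10), (5, 11, 6), (6, 14, 7), (8, 8, 8), (9, 13, 10), (13, 13, 13)]

/-- relators `x y z` of presentation 163 -/
def T163 : List (Fin 15 × Fin 15 × Fin 15) :=
  [(0, 0, 0), (0, 9, 4), (0, 14, 3), (1, 4, 11), (1, 6, 10), (1, 10, 8), (2, 3, 13), (2, 8, 6), (2, 9, 7), (3, 10, 12), (4, 12, 5), (5, 5, 5), (5, 12, 13), (6, 8, 14), (7, 7, 11), (9, 9, 9), (11, 13, 14)]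

/-- relators `x y z` of presentation 164 -/
def T164 : List (Fin 15 × Fin 15 × Fin 15) :=
  [(0, 0, 0), (0, 9, 5), (0, 14, 8), (1, 3, 13), (1, 8, 12), (1, 9, 14), (2, 2, 2), (2, 7, 4), (2, 11, 9), (3, 3, 3), (3, 5, 10), (4, 8, 11), (4, 10, 6), (5, 13, 6), (6, 12, 7), (7, 10, 11), (12, 13, 14)]

/-- relators `x y z` of presentation 165 -/
def T165 : List (Fin 15 × Fin 15 × Fin 15) :=
  [(0, 0, 0), (0, 9, 4), (0, 14, 7), (1, 3, 8), (1, 5, 10), (1, 13, 2), (2, 7, 11), (2, 13, 14), (3, 3, 3), (3, 9, 12), (4, 10, 6), (4, 13, 5), (5, 6, 9), (6, 7, 12), (8, 8, 8), (8, 12, 11), (10, 14, 11)]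

/-- relators `x y z` of presentation 166 -/
def T166 : List (Fin 15 × Fin 15 × Fin 15) :=
  [(0, 0, 0), (0, 9, 3), (0, 14, 10), (1, 2, 13), (1, 5, 2), (1, 14, 4), (2, 7, 8), (3, 11, 11), (3, 12, 7), (4, 6, 12), (4, 14, 6), (5, 7, 9), (5, 11, 6), (8, 8, 8), (8, 10, 13), (9, 13, 12), (10, 10, 10)]

/-- relators `x y z` of presentation 167 -/
def T167 : List (Fin 15 × Fin 15 × Fin 15) :=
  [(0, 0, 0), (0, 9, 4), (0, 14, 3), (1, 1, 1), (1, 6, 11), (1, 14, 5), (2, 3, 10), (2, 8, 7), (2, 9, 12), (3, 13, 6), (4, 11, 13), (4, 12, 8), (5, 8, 9), (5, 12, 10), (6, 6, 6), (7, 7, 11), (10, 14, 13)]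

/-- relators `x y z` of presentation 168 -/
def T168 : List (Fin 15 × Fin 15 × Fin 15) :=
  [(0, 0, 0), (0, 9, 12), (0, 14, 13), (1, 3, 9), (1, 6, 10), (1, 11, 4), (2, 2, 8), (2, 10, 7), (3, 3, 3), (3, 8, 14), (4, 6, 6), (4, 14, 5), (5, 7, 11), (5, 9, 8), (7, 7, 7), (10, 13, 12), (11, 12, 13)]

/-- relators `x y z` of presentation 169 -/
def T169 : List (Fin 15 × Fin 15 × Fin 15) :=
  [(0, 0, 0), (0, 9, 3), (0, 14, 2), (1, 1, 1), (1, 6, 11), (1, 14, 5), (2, 10, 4), (2, 13, 6), (3, 11, 8), (3, 12, 7), (4, 8, 13), (4, 10, 12), (5, 7, 8), (5, 13, 10), (6, 7, 9), (9, 11, 12), (14, 14, 14)]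

/-- relators `x y z` of presentation 170 -/
def T170 : List (Fin 15 × Fin 15 × Fin 15) :=
  [(0, 0, 0), (0, 9, 7), (0, 14, 5), (1, 4, 9), (1, 6, 12), (1, 10, 11), (2, 4, 8), (2, 7, 10), (2, 9, 13), (3, 3, 3), (3, 6, 4), (3, 11, 14), (5, 11, 6), (5, 12, 8), (7, 13, 10), (8, 14, 13), (12, 12, 12)]

/-- relators `x y z` of presentation 171 -/
def T171 : List (Fin 15 × Fin 15 × Fin 15) :=
  [(0, 0, 0), (0, 9, 1), (0, 14, 2), (1, 11, 4), (1, 12, 13), (2, 10, 6), (2, 13, 7), (3, 3, 8), (3, 9, 12), (4, 6, 5), (4, 14, 10), (5, 5, 12), (6, 14, 8), (7, 7, 11), (8, 11, 9), (10, 10, 10), (13, 13, 13)]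

/-- relators `x y z` of presentation 172 -/
def T172 : List (Fin 15 × Fin 15 × Fin 15) :=
  [(0, 0, 0), (0, 9, 12), (0, 14, 7), (1, 3, 13), (1, 6, 9), (1, 11, 3), (2, 4, 14), (2, 6, 4), (2, 10, 8), (3, 7, 10), (4, 5, 5), (5, 12, 11), (6, 7, 13), (8, 8, 8), (8, 10, 9), (11, 13, 14), (12, 12, 12)]

/-- relators `x y z` of presentation 173 -/
def T173 : List (Fin 15 × Fin 15 × Fin 15) :=
  [(0, 0, 0), (0, 9, 13), (0, 14, 12), (1, 3, 4), (1, 6, 14), (1, 11, 9), (2, 2, 10), (2, 8, 6), (3, 5, 7), (3, 12, 11), (4, 6, 5), (4, 14, 8), (5, 9, 7), (7, 13, 10), (8, 10, 11), (12, 12, 12), (13, 13, 13)]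

/-- relators `x y z` of presentation 174 -/
def T174 : List (Fin 15 × Fin 15 × Fin 15) :=
  [(0, 0, 0), (0, 9, 10), (0, 14, 3), (1, 2, 6), (1, 7, 8), (1, 11, 4), (2, 3, 12), (2, 11, 9), (3, 11, 7), (4, 8, 13), (4, 12, 5), (5, 6, 14), (5, 10, 13), (6, 6, 6), (7, 9, 8), (10, 10, 10), (12, 14, 13)]

/-- relators `x y z` of presentation 175 -/
def T175 : List (Fin 15 × Fin 15 × Fin 15) :=
  [(0, 0, 0), (0, 9, 3), (0, 14, 1), (1, 10, 8), (1, 13, 2), (2, 6, 10), (2, 14, 12), (3, 11, 5), (3, 12, 11), (4, 4, 4), (4, 5, 6), (4, 12, 7), (5, 11, 13), (6, 6, 6), (7, 7, 7), (7, 9, 8), (8, 13, 14), (9, 9, 9), (10, 10, 10)]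

/-- relators `x y z` of presentation 176 -/
def T176 : List (Fin 15 × Fin 15 × Fin 15) :=
  [(0, 0, 14), (0, 9, 12), (1, 3, 5), (1, 6, 9), (1, 11, 2), (2, 7, 4), (2, 13, 3), (3, 14, 10), (4, 8, 6), (4, 10, 8), (5, 6, 7), (5, 14, 13), (7, 12, 11), (8, 10, 9), (11, 11, 11), (12, 12, 12), (13, 13, 13)]

/-- relators `x y z` of presentation 177 -/
def T177 : List (Fin 15 × Fin 15 × Fin 15) :=
  [(0, 0, 0), (0, 9, 13), (0, 14, 2), (1, 3, 11), (1, 5, 9), (1, 13, 10), (2, 11, 12), (2, 12, 8), (3, 3, 3), (3, 6, 4), (4, 8, 5), (4, 9, 7), (5, 7, 6), (6, 12, 10), (7, 10, 14), (8, 14, 11), (13, 13, 13)]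

/-- relators `x y z` of presentation 178 -/
def T178 : List (Fin 15 × Fin 15 × Fin 15) :=
  [(0, 0, 0), (0, 9, 8), (0, 14, 5), (1, 4, 10), (1, 7, 12), (1, 9, 3), (2, 2, 2), (2, 7, 4), (2, 11, 6), (3, 6, 14), (3, 14, 13), (4, 8, 11), (5, 10, 7), (5, 13, 6), (8, 12, 12), (9, 9, 9), (10, 13, 11)]

/-- relators `x y z` of presentation 179 -/
def T179 : List (Fin 15 × Fin 15 × Fin 15) :=
  [(0, 0, 14), (0, 9, 6), (1, 3, 9), (1, 6, 10), (1, 11, 7), (2, 2, 2), (2, 7, 13), (2, 11, 4), (3, 3, 3), (3, 8, 12), (4, 8, 5), (4, 10, 8), (5, 6, 13), (5, 10, 12), (7, 7, 7), (9, 14, 11), (12, 13, 14)]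

/-- relators `x y z` of presentation 180 -/
def T180 : List (Fin 15 × Fin 15 × Fin 15) :=
  [(0, 0, 0), (0, 9, 14), (0, 14, 10), (1, 3, 9), (1, 5, 4), (1, 13, 6), (2, 4, 7), (2, 6, 12), (2, 10, 11), (3, 4, 13), (3, 7, 8), (5, 5, 5), (5, 12, 11), (6, 8, 9), (7, 10, 12), (8, 8, 8), (11, 14, 13)]

/-- relators `x y z` of presentation 181 -/
def T181 : List (Fin 15 × Fin 15 × Fin 15) :=
  [(0, 0, 0), (0, 9, 6), (0, 14, 5), (1, 1, 1), (1, 8, 2), (1, 12, 10), (2, 6, 12), (2, 14, 14), (3, 3, 3), (3, 8, 11), (3, 9, 4), (4, 5, 13), (4, 13, 7), (5, 10, 7), (6, 11, 11), (7, 12, 8), (9, 10, 13)]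

/-- relators `x y z` of presentation 182 -/
def T182 : List (Fin 15 × Fin 15 × Fin 15) :=
  [(0, 0, 0), (0, 9, 4), (0, 14, 8), (1, 3, 14), (1, 8, 13), (1, 9, 7), (2, 4, 11), (2, 5, 6), (2, 12, 3), (3, 5, 10), (4, 12, 5), (6, 7, 13), (6, 11, 10), (7, 7, 7), (8, 10, 11), (9, 9, 9), (12, 13, 14)]

/-- relators `x y z` of presentation 183 -/
def T183 : List (Fin 15 × Fin 15 × Fin 15) :=
  [(0, 0, 9), (0, 14, 1), (1, 10, 8), (1, 13, 5), (2, 2, 2), (2, 8, 12), (2, 10, 3), (3, 5, 13), (3, 14, 6), (4, 4, 4), (4, 5, 7), (4, 12, 11), (6, 6, 11), (7, 7, 7), (7, 9, 12), (8, 8, 8), (9, 11, 10), (13, 13, 13), (14, 14, 14)]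

/-- relators `x y z` of presentation 184 -/
def T184 : List (Fin 15 × Fin 15 × Fin 15) :=
  [(0, 0, 0), (0, 9, 1), (0, 14, 11), (1, 11, 10), (1, 12, 2), (2, 8, 8), (2, 12, 14), (3, 3, 6), (3, 11, 13), (4, 4, 4), (4, 5, 7), (4, 12, 5), (5, 9, 13), (6, 8, 10), (6, 9, 7), (7, 10, 14), (13, 13, 13)]

/-- relators `x y z` of presentation 185 -/
def T185 : List (Fin 15 × Fin 15 × Fin 15) :=
  [(0, 0, 0), (0, 9, 2), (0, 14, 7), (1, 2, 11), (1, 7, 13), (1, 11, 14), (2, 12, 8), (3, 3, 3), (3, 5, 4), (3, 13, 12), (4, 6, 10), (4, 11, 6), (5, 7, 10), (5, 9, 8), (6, 6, 6), (8, 14, 13), (9, 10, 12)]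

/-- relators `x y z` of presentation 186 -/
def T186 : List (Fin 15 × Fin 15 × Fin 15) :=
  [(0, 0, 0), (0, 9, 5), (0, 14, 1), (1, 10, 2), (1, 13, 3), (2, 8, 9), (2, 12, 11), (3, 6, 12), (3, 14, 7), (4, 4, 6), (4, 10, 8), (5, 11, 7), (5, 12, 6), (7, 13, 8), (9, 14, 13), (10, 10, 10), (11, 11, 11)]

/-- relators `x y z` of presentation 187 -/
def T187 : List (Fin 15 × Fin 15 × Fin 15) :=
  [(0, 0, 0), (0, 9, 10), (0, 14, 3), (1, 1, 1), (1, 8, 12), (1, 12, 7), (2, 2, 2), (2, 7, 6), (2, 11, 9), (3, 10, 11), (3, 13, 4), (4, 6, 5), (4, 11, 8), (5, 7, 14), (5, 9, 8), (6, 14, 13), (10, 12, 13)]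

/-- relators `x y z` of presentation 188 -/
def T188 : List (Fin 15 × Fin 15 × Fin 15) :=
  [(0, 0, 0), (0, 9, 1), (0, 14, 5), (1, 10, 2), (1, 13, 6), (2, 6, 8), (2, 14, 3), (3, 5, 11), (3, 14, 13), (4, 4, 4), (4, 6, 12), (4, 10, 7), (5, 12, 7), (7, 12, 9), (8, 8, 8), (8, 10, 11), (9, 13, 11)]

/-- relators `x y z` of presentation 189 -/
def T189 : List (Fin 15 × Fin 15 × Fin 15) :=
  [(0, 0, 0), (0, 9, 7), (0, 14, 5), (1, 3, 4), (1, 8, 10), (1, 9, 11), (2, 3, 12), (2, 6, 9), (2, 11, 14), (3, 5, 13), (4, 8, 6), (4, 12, 8), (5, 10, 13), (6, 7, 11), (7, 12, 10), (13, 13, 13), (14, 14, 14)]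

/-- relators `x y z` of presentation 190 -/
def T190 : List (Fin 15 × Fin 15 × Fin 15) :=
  [(0, 0, 0), (0, 9, 10), (0, 14, 8), (1, 4, 5), (1, 5, 6), (1, 12, 14), (2, 2, 2), (2, 8, 12), (2, 10, 13), (3, 3, 3), (3, 8, 11), (3, 9, 4), (4, 13, 7), (5, 14, 12), (6, 7, 9), (6, 13, 11), (7, 7, 7), (10, 10, 10), (11, 11, 11)]

/-- relators `x y z` of presentation 191 -/
def T191 : List (Fin 15 × Fin 15 × Fin 15) :=
  [(0, 0, 0), (0, 9, 11), (0, 14, 9), (1, 2, 3), (1, 7, 10), (1, 11, 13), (2, 5, 7), (2, 13, 6), (3, 7, 8), (3, 13, 14), (4, 4, 4), (4, 6, 5), (4, 10, 12), (5, 9, 12), (6, 14, 8), (8, 11, 10), (12, 12, 12)]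

end Pool.Agent.TriSurf
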