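import Pool.Agent.TriSurf.SData
import Pool.Agent.TriSurf.PresT

/-!
# Surfaces
-/

set_option autoImplicit false
set_option maxRecDepth 100000

namespace Pool.Agent.TriSurf

/-- the multiplication table of presentation 23 -/
def W23 : ℕ :=
  33082897274486922865689753783702345521101313451541406393376368685387106664351112605696463155259231546484144062857743999483478727627179954248571241141879598784738426261768853074151578641355366887119780970548346288081288489788630594913232748625059306566683644643134930945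

/-- a surface for presentation 23 -/
def rows23 : List (List (ℕ × ℕ × ℕ)) :=
  [[(4, 1, 6), (5, 2, 7), (20, 3, 7), (13, 4, 4), (12, 3, 3), (23, 4, 6), (22, 3, 5), (21, 4, 2)],
   [(21, 5, 5), (22, 2, 2), (23, 5, 1), (12, 2, 4), (13, 5, 3), (20, 2, 0), (5, 0, 0), (4, 4, 1)],
   [(21, 1, 5), (22, 5, 2), (23, 1, 1), (12, 5, 4), (13, 1, 3), (20, 5, 0), (5, 3, 0), (4, 0, 1)],
   [(4, 2, 6), (5, 5, 7), (20, 4, 7), (13, 0, 4), (12, 4, 3), (23, 0, 6), (22, 4, 5), (21, 0, 2)],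
   [(4, 5, 6), (5, 1, 7), (20, 0, 7), (13, 3, 4), (12, 0, 3), (23, 3, 6), (22, 0, 5), (21, 3, 2)],
   [(21, 2, 5), (22, 1, 2), (23, 2, 1), (12, 1, 4), (13, 2, 3), (20, 1, 0), (5, 4, 0), (4, 3, 1)]]

theorem sf23 : SurfFor W23 :=
  surfFor_of_table (T := T23) (lam := [0, 5, 8, 9, 14, 12, 13, 6, 4, 3, 7, 10, 11, 2, 1]) (rows := rows23)
    (by decide +kernel) (by decide +kernel) (by decide +kernel) (by decide +kernel)

/-- the multiplication table of presentation 24 -/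
def W24 : ℕ :=
  128979018127723708767779187508204075476639964053075478018690023000990959046301622865122799929357971296765713026343249698354072532785496714562095840066214786623360153766177488176382445497925328033953565437420212107926269151168514502421252800742604887224266558275584010

/-- a surface for presentation 24 -/
def rows24 : List (List (ℕ × ℕ × ℕ)) :=
  [[(2, 1, 1), (3, 2, 0), (16, 3, 4), (21, 4, 1), (6, 2, 5), (29, 5, 1), (12, 6, 3), (13, 7, 6)],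
   [(2, 2, 1), (3, 0, 0), (24, 7, 5), (17, 8, 5), (8, 9, 5), (9, 5, 5), (14, 3, 0), (11, 10, 5)],
   [(2, 0, 1), (3, 1, 0), (16, 10, 4), (15, 11, 2), (4, 5, 2), (7, 0, 4), (14, 4, 0), (11, 3, 5)],
   [(15, 1, 6), (16, 5, 4), (3, 11, 0), (24, 4, 2), (17, 0, 2), (10, 2, 7), (5, 4, 7), (4, 10, 6)],
   [(15, 2, 6), (20, 0, 3), (25, 3, 3), (12, 11, 9), (13, 12, 1), (28, 8, 0), (5, 10, 7), (4, 3, 6)],
   [(13, 6, 4), (28, 0, 5), (5, 2, 4), (10, 11, 1), (17, 3, 1), (8, 1, 5), (9, 9, 4), (14, 13, 4), (11, 11, 6), (2, 14, 5)],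
   [(4, 14, 1), (5, 9, 0), (28, 7, 7), (13, 0, 6), (12, 5, 0), (25, 14, 4), (20, 12, 4), (15, 13, 1)],
   [(6, 9, 7), (21, 8, 3), (16, 15, 4), (15, 10, 1), (20, 8, 6), (25, 1, 2), (12, 0, 7), (29, 6, 2)],
   [(29, 4, 5), (12, 12, 0), (25, 15, 5), (20, 7, 1), (15, 9, 6), (16, 1, 3), (21, 7, 4), (6, 10, 0)],
   [(4, 6, 1), (5, 14, 0), (10, 15, 0), (17, 13, 5), (8, 5, 6), (9, 1, 4), (14, 8, 4), (7, 7, 0)],
   [(7, 8, 7), (14, 7, 3), (9, 15, 3), (8, 11, 3), (17, 2, 2), (10, 1, 7), (5, 3, 7), (4, 4, 6)],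
   [(2, 3, 2), (11, 5, 3), (14, 2, 3), (9, 10, 3), (8, 15, 2), (17, 14, 6), (10, 5, 8), (5, 13, 3), (28, 12, 2), (13, 4, 3)],
   [(13, 8, 1), (12, 4, 4), (29, 11, 8), (6, 13, 2), (21, 6, 6), (16, 14, 3), (3, 13, 7), (2, 15, 6)],
   [(11, 14, 2), (14, 6, 7), (7, 12, 3), (4, 11, 7), (15, 5, 7), (16, 9, 3), (3, 15, 7), (2, 12, 6)],
   [(4, 9, 1), (5, 6, 0), (10, 13, 0), (17, 12, 5), (24, 6, 5), (3, 5, 9), (16, 11, 5), (15, 15, 1)],
   [(11, 9, 2), (14, 14, 7), (9, 11, 4), (8, 10, 2), (17, 7, 2), (24, 8, 2), (3, 12, 7), (2, 13, 6)]]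

theorem sf24 : SurfFor W24 :=
  surfFor_of_table (T := T24) (lam := [0, 5, 6, 7, 14, 4, 3, 8, 12, 2, 11, 1, 13, 9, 10]) (rows := rows24)
    (by decide +kernel) (by decide +kernel) (by decide +kernel) (by decide +kernel)

/-- the multiplication table of presentation 25 -/
def W25 : ℕ :=
  1031825625163843440695277712700616239468314430360460934177516032044952948656696322019158875295766055826730471816998511130640674515334229505647017100062870032449406434739168970531309548024063976986541579081741220118321067835808953249342372481287354044201830997162983425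

/-- a surface for presentation 25 -/
def rows25 : List (List (ℕ × ℕ × ℕ)) :=
  [[(4, 1, 5), (13, 1, 6), (14, 0, 7), (21, 2, 6), (26, 3, 4), (19, 4, 5), (10, 2, 7), (15, 0, 2)],
   [(6, 3, 6), (17, 2, 4), (18, 5, 2), (1, 3, 7), (28, 1, 7), (5, 0, 0), (12, 0, 1), (29, 1, 4)],
   [(0, 4, 4), (7, 4, 7), (24, 3, 2), (27, 5, 3), (16, 1, 1), (25, 3, 5), (20, 0, 3), (11, 0, 6)],
   [(11, 5, 1), (20, 5, 4), (25, 2, 2), (16, 4, 6), (27, 0, 4), (24, 2, 5), (7, 1, 0), (0, 1, 3)],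
   [(29, 4, 3), (12, 5, 6), (5, 5, 7), (28, 4, 0), (1, 2, 0), (18, 0, 5), (17, 3, 3), (6, 2, 1)],
   [(15, 5, 5), (10, 3, 0), (19, 1, 2), (26, 2, 3), (21, 3, 1), (14, 5, 0), (13, 4, 1), (4, 4, 2)]]

theorem sf25 : SurfFor W25 :=
  surfFor_of_table (T := T25) (lam := [0, 12, 3, 2, 13, 1, 7, 6, 11, 9, 4, 14, 8, 5, 10]) (rows := rows25)
    (by decide +kernel) (by decide +kernel) (by decide +kernel) (by decide +kernel)

/-- the multiplication table of presentation 26 -/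
def W26 : ℕ :=
  264147265637051928738693909042417663325140295527805382146180291773979295998930163274086161167358070041092671191412939252898485009373576402727298126378667341710381114315474106995384370424684648944984846888603922142459270908707454942361751287008111710060067486277906202625

/-- a surface for presentation 26 -/
def rows26 : List (List (ℕ × ℕ × ℕ)) :=
  [[(6, 1, 6), (3, 2, 7), (18, 3, 7), (1, 1, 7), (28, 0, 7), (17, 4, 7), (10, 4, 8), (29, 0, 4)],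
   [(23, 3, 6), (24, 5, 2), (25, 6, 1), (10, 7, 5), (29, 8, 1), (26, 2, 0), (7, 0, 0), (0, 0, 3)],
   [(27, 1, 5), (14, 8, 0), (19, 7, 2), (4, 9, 6), (17, 10, 4), (28, 10, 9), (15, 3, 8), (2, 0, 1)],
   [(2, 3, 3), (11, 11, 1), (16, 11, 2), (3, 3, 0), (6, 10, 7), (9, 5, 3), (22, 1, 0), (19, 0, 2), (14, 2, 6), (27, 10, 8)],
   [(27, 12, 1), (14, 13, 1), (19, 11, 5), (22, 14, 7), (9, 15, 6), (6, 12, 2), (3, 4, 9), (16, 0, 5), (11, 0, 6), (2, 4, 6)],
   [(29, 16, 2), (10, 6, 2), (25, 1, 1), (8, 3, 5), (21, 10, 6), (14, 9, 4), (19, 16, 4), (22, 17, 9), (9, 18, 7), (6, 17, 1)],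
   [(25, 7, 6), (24, 1, 2), (11, 5, 1), (16, 16, 1), (3, 17, 6), (18, 15, 3), (1, 9, 9), (28, 15, 9), (17, 16, 6), (10, 9, 2)],
   [(8, 15, 1), (21, 9, 7), (18, 2, 2), (3, 8, 7), (16, 8, 2), (11, 1, 3), (24, 6, 0), (25, 9, 1)],
   [(15, 2, 1), (28, 1, 4), (17, 7, 4), (10, 8, 6), (25, 19, 2), (24, 19, 3), (11, 8, 3), (2, 7, 3)],
   [(23, 15, 2), (24, 7, 7), (11, 6, 9), (2, 16, 5), (15, 5, 5), (12, 10, 5), (5, 2, 3), (20, 7, 1), (7, 15, 0), (0, 6, 6)],
   [(10, 10, 3), (25, 12, 7), (24, 12, 8), (11, 10, 0), (16, 2, 4), (13, 9, 5), (20, 5, 4), (7, 3, 4), (26, 3, 9), (29, 2, 5)],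
   [(29, 11, 3), (10, 3, 1), (17, 3, 2), (28, 11, 0), (1, 14, 0), (18, 4, 2), (3, 13, 0), (6, 14, 1)],
   [(29, 13, 2), (26, 4, 0), (7, 4, 5), (20, 15, 5), (13, 17, 4), (16, 13, 3), (11, 12, 9), (24, 10, 1), (25, 10, 2), (10, 12, 6)],
   [(2, 11, 6), (15, 4, 1), (28, 12, 0), (17, 12, 5), (4, 17, 3), (19, 18, 5), (14, 19, 7), (27, 14, 2)],
   [(0, 11, 4), (7, 11, 7), (26, 13, 7), (29, 19, 6), (10, 18, 2), (25, 16, 8), (24, 15, 7), (23, 4, 3)],
   [(6, 9, 8), (9, 7, 0), (22, 9, 0), (19, 6, 5), (14, 17, 5), (21, 12, 3), (8, 4, 4), (25, 14, 6), (10, 16, 7), (29, 6, 7)],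
   [(10, 17, 7), (17, 6, 3), (28, 5, 0), (1, 17, 0), (18, 5, 6), (3, 9, 3), (16, 6, 8), (11, 15, 8), (24, 14, 5), (25, 18, 1)],
   [(0, 16, 3), (7, 5, 9), (20, 18, 6), (5, 13, 4), (12, 12, 4), (15, 15, 4), (2, 6, 4), (11, 16, 0), (24, 18, 0), (23, 5, 7)],
   [(25, 17, 8), (24, 16, 9), (11, 14, 4), (16, 19, 5), (3, 19, 0), (18, 13, 5), (21, 17, 2), (8, 5, 8)],
   [(2, 18, 4), (11, 19, 4), (24, 8, 4), (25, 8, 5), (10, 19, 1), (17, 18, 3), (28, 14, 3), (15, 13, 6)]]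

theorem sf26 : SurfFor W26 :=
  surfFor_of_table (T := T26) (lam := [0, 11, 13, 1, 10, 5, 8, 3, 6, 7, 14, 2, 12, 4, 9]) (rows := rows26)
    (by decide +kernel) (by decide +kernel) (by decide +kernel) (by decide +kernel)

/-- the multiplication table of presentation 27 -/
def W27 : ℕ :=
  1289782185201241642459908939139684732545826441042989861290598800414205512295525670979759619934126406005188445904795089485893205756739664457051268570496848313473720755962738587178985140888723358555832969788676398625145404865654351833663206933271579235939694599160725505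

/-- a surface for presentation 27 -/
def rows27 : List (List (ℕ × ℕ × ℕ)) :=
  [[(6, 1, 7), (17, 2, 1), (18, 3, 4), (23, 4, 6), (14, 3, 6), (3, 2, 7), (22, 5, 4), (29, 6, 7)],
   [(0, 6, 6), (5, 7, 0), (20, 8, 7), (25, 9, 3), (16, 10, 7), (11, 11, 1), (24, 2, 2), (7, 0, 0)],
   [(11, 3, 5), (16, 0, 1), (25, 1, 6), (20, 11, 0), (13, 12, 2), (12, 9, 8), (9, 5, 5), (2, 0, 5)],
   [(17, 9, 5), (18, 8, 5), (1, 8, 0), (28, 4, 7), (19, 0, 2), (10, 2, 0), (15, 0, 4), (6, 4, 5)],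
   [(6, 8, 9), (17, 7, 8), (16, 13, 5), (11, 5, 7), (24, 9, 6), (7, 3, 7), (22, 0, 3), (29, 3, 3)],
   [(25, 14, 1), (16, 15, 6), (17, 6, 3), (18, 6, 8), (23, 0, 6), (8, 2, 6), (21, 9, 7), (10, 4, 3), (19, 13, 4), (4, 16, 6)],
   [(21, 8, 2), (24, 8, 3), (11, 6, 9), (16, 5, 2), (17, 15, 5), (18, 7, 1), (1, 1, 0), (28, 0, 7), (19, 5, 3), (10, 6, 2)],
   [(4, 1, 1), (19, 6, 5), (10, 15, 4), (21, 17, 2), (8, 18, 1), (23, 19, 1), (18, 13, 1), (17, 13, 6), (16, 4, 1), (25, 8, 8)],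
   [(0, 3, 2), (5, 8, 4), (20, 6, 0), (25, 6, 1), (4, 8, 1), (19, 3, 1), (10, 9, 4), (21, 1, 2), (24, 7, 9), (7, 4, 0)],
   [(29, 11, 3), (22, 10, 5), (7, 10, 0), (24, 1, 3), (11, 8, 6), (16, 3, 0), (25, 4, 4), (20, 5, 6), (13, 2, 5), (12, 12, 1)],
   [(6, 9, 2), (15, 10, 4), (26, 20, 4), (27, 20, 5), (14, 10, 1), (23, 9, 1), (18, 11, 2), (17, 1, 4)],
   [(21, 2, 3), (10, 1, 5), (19, 10, 6), (28, 9, 0), (9, 12, 0), (12, 18, 3), (13, 17, 0), (8, 12, 3)],
   [(8, 11, 4), (13, 9, 9), (12, 2, 4), (9, 11, 7), (28, 17, 9), (19, 20, 1), (10, 16, 2), (21, 18, 4)],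
   [(10, 13, 7), (19, 7, 6), (28, 19, 0), (1, 16, 7), (18, 5, 8), (17, 4, 2), (16, 7, 7), (11, 13, 0), (24, 14, 6), (21, 14, 7)],
   [(7, 15, 7), (24, 5, 0), (21, 16, 5), (10, 17, 5), (19, 21, 6), (4, 14, 8), (25, 13, 8), (20, 13, 9), (5, 14, 5), (0, 21, 5)],
   [(29, 21, 4), (22, 19, 4), (7, 21, 0), (24, 17, 3), (11, 7, 2), (16, 6, 4), (17, 5, 1), (6, 14, 0)],
   [(7, 19, 7), (24, 18, 5), (11, 12, 6), (16, 20, 0), (25, 17, 6), (20, 14, 2), (5, 5, 9), (0, 13, 3)],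
   [(12, 11, 6), (13, 18, 2), (20, 7, 3), (25, 15, 3), (16, 21, 7), (11, 14, 3), (24, 16, 4), (7, 20, 7), (22, 20, 2), (29, 12, 4)],
   [(2, 19, 2), (9, 7, 4), (12, 17, 1), (13, 11, 5), (20, 12, 7), (25, 16, 1), (16, 19, 6), (11, 21, 2)],
   [(29, 13, 2), (22, 7, 5), (3, 18, 0), (14, 21, 1), (23, 15, 1), (18, 21, 3), (17, 18, 6), (6, 16, 0)],
   [(17, 16, 3), (18, 12, 5), (23, 17, 8), (14, 20, 6), (27, 10, 2), (26, 10, 3), (15, 20, 3), (6, 17, 7)],
   [(6, 15, 2), (15, 19, 3), (10, 18, 7), (19, 19, 5), (28, 15, 0), (1, 14, 9), (18, 14, 4), (17, 17, 4)]]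

theorem sf27 : SurfFor W27 :=
  surfFor_of_table (T := T27) (lam := [0, 7, 1, 2, 3, 5, 13, 9, 11, 6, 12, 14, 8, 4, 10]) (rows := rows27)
    (by decide +kernel) (by decide +kernel) (by decide +kernel) (by decide +kernel)

/-- the multiplication table of presentation 28 -/
def W28 : ℕ :=
  48398297714971533825813462044206397443701038768482742215721384094281944474203166076848217099597788663572166518269851017081340431886068434382644840128038800928073732328138953048144783682637293003847478009239564551656153116030982971700508920267815383298492329281716225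

/-- a surface for presentation 28 -/
def rows28 : List (List (ℕ × ℕ × ℕ)) :=
  [[(6, 1, 1), (7, 2, 0), (16, 1, 5), (25, 3, 3), (24, 4, 4), (17, 2, 2), (22, 1, 7), (23, 2, 6)],
   [(6, 2, 1), (7, 0, 0), (16, 2, 5), (25, 5, 3), (24, 3, 4), (17, 0, 2), (22, 2, 7), (23, 0, 6)],
   [(6, 0, 1), (7, 1, 0), (16, 0, 5), (25, 4, 3), (24, 5, 4), (17, 1, 2), (22, 0, 7), (23, 1, 6)],
   [(23, 4, 1), (22, 5, 0), (17, 4, 5), (24, 0, 3), (25, 1, 4), (16, 5, 2), (7, 4, 7), (6, 5, 6)],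
   [(23, 5, 1), (22, 3, 0), (17, 5, 5), (24, 2, 3), (25, 0, 4), (16, 3, 2), (7, 5, 7), (6, 3, 6)],
   [(23, 3, 1), (22, 4, 0), (17, 3, 5), (24, 1, 3), (25, 2, 4), (16, 4, 2), (7, 3, 7), (6, 4, 6)]]

theorem sf28 : SurfFor W28 :=
  surfFor_of_table (T := T28) (lam := [0, 13, 9, 11, 4, 6, 14, 1, 2, 7, 12, 10, 5, 3, 8]) (rows := rows28)
    (by decide +kernel) (by decide +kernel) (by decide +kernel) (by decide +kernel)

/-- the multiplication table of presentation 29 -/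
def W29 : ℕ :=
  198126571445501418023760882332902720875904918996399809136020955071101959560268173823277472672049272878818697534728528790995896376166107116530685020948078152686600735640080845349813485705965415828771059034504910382787405983054131789789053594938909766028128744154322698255

/-- a surface for presentation 29 -/
def rows29 : List (List (ℕ × ℕ × ℕ)) :=
  [[(0, 1, 6), (1, 1, 7), (28, 0, 7), (11, 2, 4), (10, 3, 3), (27, 3, 6), (26, 2, 5), (29, 0, 2)],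
   [(29, 1, 5), (26, 4, 2), (27, 5, 1), (10, 5, 4), (11, 4, 3), (28, 1, 0), (1, 0, 0), (0, 0, 1)],
   [(0, 4, 6), (1, 4, 7), (28, 2, 7), (11, 3, 4), (10, 0, 3), (27, 0, 6), (26, 3, 5), (29, 2, 2)],
   [(0, 5, 6), (1, 5, 7), (28, 3, 7), (11, 0, 4), (10, 2, 3), (27, 2, 6), (26, 0, 5), (29, 3, 2)],
   [(29, 4, 5), (26, 5, 2), (27, 1, 1), (10, 1, 4), (11, 5, 3), (28, 4, 0), (1, 2, 0), (0, 2, 1)],
   [(29, 5, 5), (26, 1, 2), (27, 4, 1), (10, 4, 4), (11, 1, 3), (28, 5, 0), (1, 3, 0), (0, 3, 1)]]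

theorem sf29 : SurfFor W29 :=
  surfFor_of_table (T := T29) (lam := [0, 3, 2, 13, 5, 6, 14, 11, 10, 8, 4, 7, 12, 9, 1]) (rows := rows29)
    (by decide +kernel) (by decide +kernel) (by decide +kernel) (by decide +kernel)

end Pool.Agent.TriSurf
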