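import Pool.Agent.TriSurf.SData
import Pool.Agent.TriSurf.PresT

/-!
# Surfaces
-/

set_option autoImplicit false
set_option maxRecDepth 100000

namespace Pool.Agent.TriSurf

/-- the multiplication table of presentation 30 -/
def W30 : ℕ :=
  7924417967157982437533432725798614631487198149212319363824750662679395166753018481560441294340672282100034716999779793625684452269947890750439494689737522254871753058300540850979588819057151893683051578934656790470909143122538895466131771707829675707333250899834205896705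

/-- a surface for presentation 30 -/
def rows30 : List (List (ℕ × ℕ × ℕ)) :=
  [[(0, 1, 1), (1, 2, 0), (28, 2, 3), (29, 1, 2), (12, 0, 7), (23, 3, 1), (22, 3, 2), (13, 0, 4)],
   [(0, 2, 1), (1, 0, 0), (28, 0, 3), (29, 2, 2), (12, 1, 7), (23, 4, 1), (22, 4, 2), (13, 1, 4)],
   [(0, 0, 1), (1, 1, 0), (28, 1, 3), (29, 0, 2), (12, 2, 7), (23, 5, 1), (22, 5, 2), (13, 2, 4)],
   [(13, 3, 3), (22, 0, 5), (23, 0, 6), (12, 3, 0), (29, 5, 5), (28, 4, 4), (1, 4, 7), (0, 5, 6)],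
   [(13, 4, 3), (22, 1, 5), (23, 1, 6), (12, 4, 0), (29, 3, 5), (28, 5, 4), (1, 5, 7), (0, 3, 6)],
   [(13, 5, 3), (22, 2, 5), (23, 2, 6), (12, 5, 0), (29, 4, 5), (28, 3, 4), (1, 3, 7), (0, 4, 6)]]

theorem sf30 : SurfFor W30 :=
  surfFor_of_table (T := T30) (lam := [0, 14, 11, 1, 6, 4, 2, 12, 13, 9, 8, 10, 5, 7, 3]) (rows := rows30)
    (by decide +kernel) (by decide +kernel) (by decide +kernel) (by decide +kernel)

/-- the multiplication table of presentation 31 -/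
def W31 : ℕ :=
  29664976113574966086556435925257375107569526149538762687971568802540314806722591400619666599824830128438929484064261717837330062345851160785879278272823138044200496806916428509850957546252019541619899507161375132863290399597393923670923846470811661501403729284216913935

/-- a surface for presentation 31 -/
def rows31 : List (List (ℕ × ℕ × ℕ)) :=
  [[(12, 1, 1), (13, 2, 0), (20, 3, 2), (9, 4, 6), (26, 5, 3), (25, 4, 8), (14, 3, 0), (21, 6, 7), (22, 7, 2), (15, 6, 3)],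
   [(12, 2, 1), (13, 0, 0), (20, 6, 2), (9, 8, 6), (26, 4, 3), (25, 8, 8), (14, 6, 0), (21, 9, 7), (22, 10, 2), (15, 9, 3)],
   [(12, 0, 1), (13, 1, 0), (20, 9, 2), (9, 5, 6), (26, 8, 3), (25, 5, 8), (14, 9, 0), (21, 3, 7), (22, 11, 2), (15, 3, 3)],
   [(15, 0, 6), (22, 4, 7), (21, 0, 2), (14, 2, 9), (25, 11, 1), (26, 10, 6), (9, 11, 3), (20, 2, 7), (13, 9, 9), (12, 6, 8)],
   [(0, 11, 8), (1, 7, 9), (28, 8, 9), (27, 1, 4), (12, 8, 5), (13, 5, 4), (8, 0, 3), (23, 3, 1), (24, 0, 5), (29, 5, 2)],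
   [(0, 10, 8), (1, 11, 9), (28, 4, 9), (27, 0, 4), (12, 4, 5), (13, 8, 4), (8, 2, 3), (23, 9, 1), (24, 2, 5), (29, 8, 2)],
   [(15, 1, 6), (22, 8, 7), (21, 1, 2), (14, 0, 9), (25, 7, 1), (26, 11, 6), (9, 7, 3), (20, 0, 7), (13, 3, 9), (12, 9, 8)],
   [(29, 11, 7), (24, 6, 4), (23, 0, 8), (8, 6, 6), (13, 11, 5), (12, 10, 4), (27, 9, 5), (28, 10, 0), (1, 8, 0), (0, 4, 1)],
   [(0, 7, 8), (1, 10, 9), (28, 5, 9), (27, 2, 4), (12, 5, 5), (13, 4, 4), (8, 1, 3), (23, 6, 1), (24, 1, 5), (29, 4, 2)],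
   [(15, 2, 6), (22, 5, 7), (21, 2, 2), (14, 1, 9), (25, 10, 1), (26, 7, 6), (9, 10, 3), (20, 1, 7), (13, 6, 9), (12, 3, 8)],
   [(29, 7, 7), (24, 9, 4), (23, 1, 8), (8, 9, 6), (13, 7, 5), (12, 11, 4), (27, 3, 5), (28, 11, 0), (1, 5, 0), (0, 8, 1)],
   [(29, 10, 7), (24, 3, 4), (23, 2, 8), (8, 3, 6), (13, 10, 5), (12, 7, 4), (27, 6, 5), (28, 7, 0), (1, 4, 0), (0, 5, 1)]]

theorem sf31 : SurfFor W31 :=
  surfFor_of_table (T := T31) (lam := [0, 8, 5, 11, 1, 6, 13, 10, 9, 14, 7, 12, 4, 3, 2]) (rows := rows31)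
    (by decide +kernel) (by decide +kernel) (by decide +kernel) (by decide +kernel)

/-- the multiplication table of presentation 32 -/
def W32 : ℕ :=
  128995869475598049430793665435897251037221537983305197741283706646285920190303931733734351724109508755270841868133522666262261552161439158490446826084849193510393751583078241612130858513225577858786393640108562080846288539229566695876643950335950823972982472545665025

/-- a surface for presentation 32 -/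
def rows32 : List (List (ℕ × ℕ × ℕ)) :=
  [[(0, 1, 1), (1, 2, 0), (28, 1, 5), (5, 3, 3), (4, 4, 4), (29, 2, 2), (22, 1, 7), (23, 2, 6)],
   [(0, 2, 1), (1, 0, 0), (28, 2, 5), (5, 5, 3), (4, 3, 4), (29, 0, 2), (22, 2, 7), (23, 0, 6)],
   [(0, 0, 1), (1, 1, 0), (28, 0, 5), (5, 4, 3), (4, 5, 4), (29, 1, 2), (22, 0, 7), (23, 1, 6)],
   [(23, 4, 1), (22, 5, 0), (29, 4, 5), (4, 0, 3), (5, 1, 4), (28, 5, 2), (1, 4, 7), (0, 5, 6)],
   [(23, 5, 1), (22, 3, 0), (29, 5, 5), (4, 2, 3), (5, 0, 4), (28, 3, 2), (1, 5, 7), (0, 3, 6)],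
   [(23, 3, 1), (22, 4, 0), (29, 3, 5), (4, 1, 3), (5, 2, 4), (28, 4, 2), (1, 3, 7), (0, 4, 6)]]

theorem sf32 : SurfFor W32 :=
  surfFor_of_table (T := T32) (lam := [0, 12, 6, 1, 4, 14, 9, 8, 3, 10, 13, 2, 11, 5, 7]) (rows := rows32)
    (by decide +kernel) (by decide +kernel) (by decide +kernel) (by decide +kernel)

/-- the multiplication table of presentation 33 -/
def W33 : ℕ :=
  66141611144533292435887668078148496717857006167027570818839254869707111194983769746335616909533681840212137544164622803615268858729210523394921468691136458535733447065091452000789213728033520987761466034554659655119428569752943303292223443445584185569446491441688739855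

/-- a surface for presentation 33 -/
def rows33 : List (List (ℕ × ℕ × ℕ)) :=
  [[(0, 1, 6), (21, 2, 1), (24, 2, 4), (7, 3, 0), (16, 4, 4), (9, 5, 4), (20, 6, 4), (29, 7, 2)],
   [(29, 4, 1), (20, 8, 0), (19, 9, 4), (8, 10, 2), (23, 3, 2), (18, 2, 2), (1, 0, 0), (0, 7, 1)],
   [(29, 2, 5), (20, 0, 1), (19, 1, 5), (12, 3, 1), (25, 0, 2), (28, 2, 0), (1, 11, 0), (0, 11, 1)],
   [(6, 0, 3), (13, 2, 3), (22, 1, 4), (21, 10, 1), (24, 8, 6), (7, 12, 0), (16, 13, 5), (17, 4, 5)],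
   [(25, 8, 1), (28, 1, 0), (1, 7, 0), (18, 5, 5), (17, 0, 4), (16, 3, 7), (7, 13, 4), (2, 14, 6)],
   [(0, 8, 8), (1, 10, 7), (18, 11, 5), (23, 6, 5), (8, 0, 5), (19, 4, 3), (20, 7, 9), (29, 9, 6)],
   [(17, 9, 2), (16, 14, 2), (7, 15, 7), (24, 7, 3), (21, 0, 6), (22, 5, 3), (13, 11, 4), (6, 10, 4)],
   [(0, 4, 2), (1, 1, 7), (28, 0, 7), (25, 6, 3), (12, 15, 6), (19, 15, 1), (8, 14, 0), (11, 13, 2), (24, 9, 7), (21, 5, 6)],
   [(21, 1, 1), (24, 4, 0), (11, 14, 5), (8, 13, 7), (19, 12, 6), (12, 12, 1), (25, 3, 4), (28, 10, 0), (1, 5, 0), (0, 9, 5)],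
   [(2, 13, 1), (7, 14, 3), (16, 6, 0), (17, 10, 3), (18, 1, 2), (1, 8, 9), (28, 5, 7), (25, 7, 8)],
   [(29, 8, 7), (20, 3, 3), (9, 1, 3), (16, 9, 3), (7, 6, 7), (24, 11, 3), (21, 11, 6), (0, 5, 1)],
   [(0, 2, 6), (1, 2, 7), (28, 11, 7), (25, 10, 5), (12, 6, 6), (19, 5, 2), (20, 10, 6), (29, 11, 2)],
   [(6, 3, 5), (13, 8, 5), (22, 12, 5), (15, 15, 3), (14, 15, 4), (23, 12, 2), (18, 8, 4), (17, 13, 6)],
   [(4, 14, 4), (3, 9, 0), (10, 7, 7), (5, 14, 7), (6, 4, 6), (17, 3, 6), (16, 12, 7), (9, 8, 3)],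
   [(9, 7, 6), (16, 15, 0), (17, 6, 1), (6, 9, 1), (5, 13, 0), (10, 8, 2), (3, 4, 7), (4, 13, 3)],
   [(17, 14, 1), (18, 7, 5), (23, 15, 5), (14, 12, 3), (15, 12, 4), (22, 15, 2), (13, 7, 4), (6, 6, 2)]]

theorem sf33 : SurfFor W33 :=
  surfFor_of_table (T := T33) (lam := [0, 6, 9, 5, 8, 12, 10, 7, 11, 13, 2, 14, 3, 4, 1]) (rows := rows33)
    (by decide +kernel) (by decide +kernel) (by decide +kernel) (by decide +kernel)

/-- the multiplication table of presentation 34 -/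
def W34 : ℕ :=
  33018421972333105814043420581071161434791978738338397613980746114188508022564002972917600399629970063512926960997369632171605741065642260620534264420027702458265709034451099900705314345539418850425365320337954173383775855056791238713716926941351510732515078109768187905

/-- a surface for presentation 34 -/
def rows34 : List (List (ℕ × ℕ × ℕ)) :=
  [[(2, 1, 2), (9, 2, 3), (12, 3, 3), (15, 4, 6), (6, 2, 0), (19, 5, 7), (26, 6, 0), (29, 7, 5)],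
   [(27, 8, 8), (20, 2, 4), (3, 0, 0), (8, 7, 4), (5, 9, 0), (10, 8, 1), (13, 10, 2), (28, 9, 5), (1, 7, 7), (0, 6, 8)],
   [(7, 0, 4), (24, 4, 5), (5, 3, 4), (8, 0, 1), (21, 1, 1), (18, 8, 7), (1, 11, 9), (0, 5, 8)],
   [(0, 12, 1), (1, 13, 0), (28, 4, 7), (13, 0, 2), (4, 2, 2), (23, 4, 4), (16, 14, 7), (11, 15, 9), (24, 13, 5), (7, 16, 3)],
   [(10, 11, 2), (5, 5, 3), (24, 17, 4), (7, 14, 0), (22, 3, 5), (25, 2, 1), (14, 0, 3), (29, 3, 2), (26, 13, 9), (19, 17, 1)],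
   [(27, 15, 1), (20, 14, 5), (23, 17, 5), (4, 4, 1), (25, 11, 1), (14, 8, 5), (21, 6, 1), (18, 0, 5), (1, 2, 7), (0, 11, 8)],
   [(27, 0, 6), (20, 5, 6), (23, 8, 4), (16, 10, 7), (11, 9, 2), (2, 7, 2), (9, 10, 4), (28, 8, 9), (1, 1, 9), (0, 7, 6)],
   [(27, 9, 4), (20, 10, 5), (3, 6, 5), (12, 9, 1), (9, 1, 3), (28, 0, 7), (1, 6, 9), (0, 1, 8)],
   [(2, 10, 3), (11, 1, 5), (24, 9, 7), (7, 10, 0), (22, 6, 2), (15, 5, 5), (6, 11, 0), (19, 2, 5), (26, 1, 0), (29, 6, 7)],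
   [(4, 1, 4), (13, 7, 3), (10, 6, 4), (19, 10, 6), (26, 7, 0), (29, 1, 7), (14, 10, 1), (25, 8, 2)],
   [(6, 8, 3), (15, 9, 6), (12, 1, 6), (3, 8, 0), (8, 6, 6), (21, 7, 1), (18, 9, 3), (17, 6, 3)],
   [(7, 8, 6), (24, 5, 4), (11, 4, 0), (16, 17, 0), (23, 15, 5), (4, 12, 5), (13, 18, 5), (28, 15, 2), (1, 5, 9), (0, 2, 6)],
   [(0, 13, 1), (1, 3, 0), (18, 16, 2), (21, 19, 8), (8, 18, 6), (5, 11, 5), (24, 15, 4), (7, 18, 3)],
   [(0, 3, 1), (1, 12, 0), (18, 18, 2), (21, 20, 8), (14, 16, 4), (25, 3, 8), (4, 15, 8), (23, 14, 2), (20, 17, 2), (27, 4, 8)],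
   [(6, 4, 3), (15, 17, 3), (22, 13, 7), (25, 15, 7), (14, 17, 6), (21, 5, 1), (18, 15, 0), (17, 3, 6)],
   [(19, 14, 6), (26, 5, 0), (29, 11, 7), (14, 18, 4), (25, 12, 6), (22, 11, 4), (7, 17, 7), (24, 14, 3), (5, 13, 6), (10, 3, 7)],
   [(29, 20, 2), (26, 19, 9), (19, 12, 2), (6, 3, 9), (15, 13, 4), (22, 20, 7), (7, 21, 7), (24, 22, 0), (11, 19, 4), (2, 21, 4)],
   [(17, 11, 3), (18, 4, 9), (21, 13, 8), (14, 14, 1), (25, 4, 2), (22, 5, 2), (15, 14, 4), (6, 15, 6)],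
   [(29, 23, 2), (26, 20, 9), (19, 13, 2), (6, 12, 7), (15, 15, 3), (12, 11, 6), (9, 12, 4), (2, 19, 7)],
   [(0, 20, 1), (1, 23, 0), (28, 22, 2), (13, 21, 5), (10, 16, 8), (5, 22, 7), (8, 23, 3), (3, 18, 7), (20, 12, 3), (27, 16, 1)],
   [(0, 23, 1), (1, 19, 0), (28, 16, 0), (9, 21, 3), (2, 23, 5), (11, 22, 5), (16, 21, 0), (23, 16, 5), (20, 13, 3), (27, 18, 1)],
   [(17, 20, 6), (18, 22, 4), (21, 23, 6), (8, 20, 3), (3, 16, 9), (12, 19, 3), (15, 22, 1), (6, 16, 6)],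
   [(25, 16, 7), (14, 21, 6), (29, 19, 2), (26, 23, 7), (19, 21, 1), (10, 20, 5), (13, 23, 4), (4, 19, 5)],
   [(0, 19, 1), (1, 20, 0), (28, 18, 0), (9, 19, 6), (12, 22, 6), (3, 20, 4), (20, 21, 2), (27, 22, 3)]]

theorem sf34 : SurfFor W34 :=
  surfFor_of_table (T := T34) (lam := [0, 13, 12, 2, 3, 5, 6, 10, 11, 9, 14, 8, 7, 1, 4]) (rows := rows34)
    (by decide +kernel) (by decide +kernel) (by decide +kernel) (by decide +kernel)

/-- the multiplication table of presentation 35 -/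
def W35 : ℕ :=
  231128859339905092593903021009201399756012408024817995445743463397326795450650964953307698244819149457095598627160918429801688533557635019388866729861714192541553793491854725222845439882063153250072661477425757739249839321437249214772779858795544424052736079149603487745

/-- a surface for presentation 35 -/
def rows35 : List (List (ℕ × ℕ × ℕ)) :=
  [[(6, 1, 2), (9, 0, 6), (16, 2, 3), (3, 1, 7), (24, 3, 0), (11, 2, 4), (8, 0, 1), (27, 1, 1), (12, 2, 1), (25, 3, 5)],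
   [(29, 2, 2), (26, 0, 7), (7, 0, 0), (10, 3, 4), (17, 3, 7), (28, 2, 7), (13, 3, 1), (2, 0, 3)],
   [(2, 3, 6), (13, 0, 8), (28, 1, 0), (17, 0, 2), (10, 0, 5), (7, 3, 9), (26, 3, 2), (29, 1, 5)],
   [(25, 0, 4), (12, 1, 6), (27, 2, 6), (8, 3, 8), (11, 1, 3), (24, 0, 9), (3, 2, 0), (16, 1, 4), (9, 3, 3), (6, 2, 5)]]

theorem sf35 : SurfFor W35 :=
  surfFor_of_table (T := T35) (lam := [0, 5, 1, 9, 11, 12, 3, 2, 6, 7, 8, 14, 10, 13, 4]) (rows := rows35)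
    (by decide +kernel) (by decide +kernel) (by decide +kernel) (by decide +kernel)

/-- the multiplication table of presentation 36 -/
def W36 : ℕ :=
  14445553597752873506104285185165313418163503882986352446890066558628411662126918799145529084512950296121944434506123608356770704507828543096624090037308216806234207912527790440683351633181960506504251525733617599229737909073386657401035110230805560610013420273600036865

/-- a surface for presentation 36 -/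
def rows36 : List (List (ℕ × ℕ × ℕ)) :=
  [[(0, 1, 4), (3, 2, 5), (26, 3, 2), (19, 4, 4), (2, 2, 8), (17, 5, 4), (12, 1, 6), (25, 6, 3), (22, 7, 2), (11, 6, 5)],
   [(15, 8, 3), (14, 9, 2), (21, 5, 6), (18, 2, 6), (1, 0, 0), (28, 6, 4), (13, 0, 6), (4, 5, 3)],
   [(11, 10, 2), (22, 11, 5), (25, 10, 4), (12, 4, 1), (17, 3, 3), (2, 0, 1), (19, 1, 3), (26, 5, 5), (3, 0, 4), (0, 4, 3)],
   [(23, 12, 8), (20, 4, 5), (27, 0, 2), (16, 2, 4), (5, 4, 0), (18, 13, 3), (21, 14, 3), (8, 7, 6)],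
   [(4, 3, 4), (13, 2, 3), (28, 10, 3), (1, 2, 9), (18, 0, 3), (21, 3, 1), (14, 12, 7), (15, 13, 4)],
   [(8, 11, 1), (21, 15, 6), (18, 8, 4), (5, 1, 7), (16, 0, 5), (27, 2, 7), (20, 1, 2), (23, 9, 1)],
   [(27, 16, 2), (16, 14, 8), (9, 7, 3), (24, 0, 7), (29, 1, 5), (10, 0, 9), (13, 7, 1), (4, 17, 1)],
   [(17, 17, 2), (12, 6, 6), (23, 0, 8), (8, 6, 2), (29, 14, 7), (24, 12, 9), (9, 3, 7), (2, 14, 2)],
   [(25, 16, 8), (22, 17, 5), (15, 9, 3), (14, 1, 0), (19, 5, 2), (26, 15, 5), (7, 16, 4), (6, 17, 9)],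
   [(25, 11, 2), (22, 5, 7), (15, 1, 1), (14, 8, 2), (21, 17, 4), (18, 14, 0), (1, 16, 0), (28, 17, 7), (17, 16, 6), (12, 15, 3)],
   [(4, 18, 8), (13, 11, 6), (10, 2, 0), (29, 4, 2), (24, 2, 2), (9, 11, 4), (16, 15, 1), (27, 19, 7)],
   [(2, 15, 7), (9, 5, 0), (24, 9, 0), (29, 15, 2), (8, 10, 5), (23, 2, 1), (12, 10, 1), (17, 18, 7)],
   [(12, 14, 6), (17, 19, 3), (28, 18, 2), (1, 19, 9), (18, 15, 9), (21, 18, 5), (14, 13, 5), (15, 4, 6), (22, 3, 0), (25, 7, 5)],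
   [(6, 18, 0), (7, 19, 5), (26, 14, 4), (19, 3, 5), (14, 4, 7), (15, 12, 6), (22, 18, 4), (25, 19, 1)],
   [(19, 9, 5), (26, 17, 3), (3, 7, 7), (20, 3, 6), (27, 13, 2), (4, 19, 4), (13, 12, 0), (28, 7, 4), (17, 6, 1), (2, 16, 1)],
   [(2, 19, 8), (17, 10, 6), (28, 11, 3), (13, 9, 9), (4, 16, 5), (27, 8, 5), (20, 5, 1), (3, 11, 0), (26, 18, 6), (19, 12, 4)],
   [(0, 9, 6), (3, 14, 9), (26, 6, 0), (7, 17, 0), (6, 8, 6), (5, 15, 4), (16, 9, 8), (9, 17, 6), (24, 8, 0), (11, 17, 8)],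
   [(6, 16, 3), (5, 6, 7), (16, 7, 0), (27, 14, 1), (20, 9, 4), (23, 8, 1), (8, 16, 7), (29, 9, 7), (10, 16, 9), (7, 8, 7)],
   [(7, 13, 0), (10, 19, 0), (29, 12, 2), (8, 19, 2), (23, 13, 6), (20, 12, 5), (27, 15, 8), (16, 11, 7), (5, 10, 0), (6, 19, 6)],
   [(11, 18, 1), (24, 13, 7), (9, 18, 3), (16, 12, 1), (5, 14, 5), (6, 13, 1), (7, 18, 9), (26, 10, 7), (3, 15, 0), (0, 12, 3)]]

theorem sf36 : SurfFor W36 :=
  surfFor_of_table (T := T36) (lam := [0, 1, 11, 9, 5, 2, 6, 7, 3, 4, 14, 13, 10, 8, 12]) (rows := rows36)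
    (by decide +kernel) (by decide +kernel) (by decide +kernel) (by decide +kernel)

end Pool.Agent.TriSurf
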