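import Pool.Agent.TriSurf.SData
import Pool.Agent.TriSurf.PresT

/-!
# Surfaces
-/

set_option autoImplicit false
set_option maxRecDepth 100000

namespace Pool.Agent.TriSurf

/-- the multiplication table of presentation 93 -/
def W93 : ℕ :=
  129005709726182679740063598299261074155010492266924654705748193622904380653666274146636955254845064618148614241484236242290191450585789382531821140823450440048981064484103698689380597957856275676005126980917962229968511626644099928898694349506739102120332698488668170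

/-- a surface for presentation 93 -/
def rows93 : List (List (ℕ × ℕ × ℕ)) :=
  [[(0, 1, 8), (1, 1, 9), (18, 0, 9), (9, 2, 4), (14, 3, 5), (5, 4, 3), (2, 5, 6), (17, 6, 4), (24, 2, 5), (19, 0, 2)],
   [(19, 1, 7), (24, 7, 2), (17, 4, 5), (2, 3, 3), (5, 6, 6), (14, 5, 4), (9, 7, 3), (18, 1, 0), (1, 0, 0), (0, 0, 1)],
   [(0, 3, 1), (19, 8, 5), (24, 9, 2), (7, 3, 6), (8, 0, 3), (25, 0, 8), (20, 6, 3), (23, 6, 8)],
   [(0, 8, 6), (1, 2, 0), (28, 6, 7), (3, 1, 3), (10, 4, 4), (15, 0, 4), (6, 2, 3), (13, 9, 1), (22, 10, 4), (19, 11, 4)],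
   [(19, 4, 7), (22, 7, 0), (29, 5, 7), (4, 0, 5), (11, 3, 4), (16, 1, 2), (21, 7, 1), (18, 4, 0), (1, 6, 0), (0, 6, 1)],
   [(19, 12, 3), (22, 13, 3), (13, 14, 6), (6, 7, 4), (15, 1, 5), (10, 6, 5), (3, 0, 6), (28, 4, 2), (1, 7, 7), (0, 15, 1)],
   [(0, 4, 8), (1, 4, 9), (18, 6, 9), (21, 2, 6), (16, 0, 7), (11, 5, 5), (4, 1, 4), (29, 3, 2), (22, 2, 7), (19, 6, 2)],
   [(23, 4, 1), (20, 4, 6), (25, 1, 1), (8, 1, 6), (7, 5, 3), (24, 14, 5), (19, 15, 2), (0, 5, 8)],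
   [(23, 16, 6), (26, 10, 0), (5, 11, 0), (14, 17, 4), (9, 9, 3), (18, 2, 1), (1, 3, 0), (0, 11, 3)],
   [(27, 10, 5), (12, 3, 7), (25, 2, 2), (8, 8, 4), (7, 17, 3), (24, 13, 5), (17, 12, 1), (2, 16, 1)],
   [(27, 8, 1), (12, 16, 5), (25, 14, 2), (20, 11, 5), (23, 3, 8), (26, 9, 0), (5, 16, 0), (2, 11, 1)],
   [(4, 8, 2), (3, 10, 7), (28, 16, 7), (1, 8, 7), (18, 3, 9), (21, 10, 3), (16, 14, 1), (11, 17, 5)],
   [(11, 16, 2), (16, 9, 6), (21, 13, 4), (18, 5, 0), (1, 15, 0), (28, 17, 0), (3, 13, 0), (4, 15, 5)],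
   [(2, 12, 6), (5, 17, 7), (26, 14, 7), (23, 5, 1), (20, 12, 2), (25, 9, 5), (12, 17, 2), (27, 15, 6)],
   [(2, 17, 6), (17, 11, 6), (24, 10, 2), (7, 16, 4), (8, 15, 3), (25, 7, 5), (12, 5, 2), (27, 13, 2)],
   [(0, 12, 4), (1, 5, 9), (18, 7, 6), (9, 14, 4), (14, 16, 3), (5, 12, 7), (26, 13, 7), (23, 17, 1)],
   [(4, 10, 6), (3, 9, 7), (10, 12, 0), (15, 15, 4), (6, 14, 3), (13, 10, 1), (22, 8, 0), (29, 11, 2)],
   [(29, 12, 5), (22, 15, 7), (13, 13, 6), (6, 9, 4), (15, 8, 3), (10, 11, 7), (3, 14, 0), (4, 13, 1)]]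

theorem sf93 : SurfFor W93 :=
  surfFor_of_table (T := T93) (lam := [0, 6, 4, 12, 14, 8, 10, 9, 5, 2, 11, 1, 13, 3, 7]) (rows := rows93)
    (by decide +kernel) (by decide +kernel) (by decide +kernel) (by decide +kernel)

/-- the multiplication table of presentation 94 -/
def W94 : ℕ :=
  33018408242315472165411428514431568287423980669182699944607752460250128213056054885130314461464590966790517964295413517655437622930070647601379589543455096494332718262453341423143062375429125830552516733139066233199902157087716523558107048354706480330988267920278159370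

/-- a surface for presentation 94 -/
def rows94 : List (List (ℕ × ℕ × ℕ)) :=
  [[(6, 1, 1), (7, 2, 0), (12, 1, 3), (13, 2, 2), (28, 1, 7), (11, 3, 1), (10, 4, 2), (29, 2, 4)],
   [(6, 2, 1), (7, 0, 0), (12, 2, 3), (13, 0, 2), (28, 2, 7), (11, 5, 1), (10, 3, 2), (29, 0, 4)],
   [(6, 0, 1), (7, 1, 0), (12, 0, 3), (13, 1, 2), (28, 0, 7), (11, 4, 1), (10, 5, 2), (29, 1, 4)],
   [(29, 4, 3), (10, 0, 5), (11, 1, 6), (28, 5, 0), (13, 4, 5), (12, 5, 4), (7, 4, 7), (6, 5, 6)],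
   [(29, 5, 3), (10, 2, 5), (11, 0, 6), (28, 3, 0), (13, 5, 5), (12, 3, 4), (7, 5, 7), (6, 3, 6)],
   [(29, 3, 3), (10, 1, 5), (11, 2, 6), (28, 4, 0), (13, 3, 5), (12, 4, 4), (7, 3, 7), (6, 4, 6)]]

theorem sf94 : SurfFor W94 :=
  surfFor_of_table (T := T94) (lam := [0, 5, 14, 10, 12, 6, 3, 7, 4, 2, 11, 8, 13, 1, 9]) (rows := rows94)
    (by decide +kernel) (by decide +kernel) (by decide +kernel) (by decide +kernel)

/-- the multiplication table of presentation 95 -/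
def W95 : ℕ :=
  25537675089077575392592837699520956406928009689612626543405958081666685118345977182546630282743913143701014972959406617154087508960511229112428345044572330375406205655447960249793509375299579266017483440881016711130663257524774335132781878319763784059333369800320614415

/-- a surface for presentation 95 -/
def rows95 : List (List (ℕ × ℕ × ℕ)) :=
  [[(0, 1, 3), (1, 2, 7), (18, 3, 3), (21, 4, 2), (8, 5, 2), (17, 2, 3), (10, 6, 6), (9, 7, 3), (26, 8, 0), (7, 9, 3)],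
   [(4, 10, 5), (23, 11, 8), (28, 2, 0), (1, 0, 0), (18, 9, 2), (5, 10, 0), (16, 4, 5), (27, 12, 1)],
   [(29, 1, 2), (24, 11, 7), (3, 6, 7), (16, 0, 5), (27, 5, 1), (20, 13, 6), (7, 3, 4), (0, 0, 1)],
   [(2, 14, 5), (11, 12, 3), (12, 4, 3), (19, 0, 2), (6, 2, 6), (9, 13, 5), (26, 15, 4), (15, 16, 3)],
   [(0, 17, 6), (7, 5, 3), (20, 0, 3), (13, 3, 2), (8, 12, 2), (17, 1, 6), (24, 10, 9), (29, 9, 7)],
   [(15, 13, 7), (26, 2, 4), (9, 0, 4), (6, 4, 1), (19, 17, 5), (12, 18, 5), (11, 16, 7), (2, 19, 7)],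
   [(15, 11, 6), (26, 20, 3), (9, 19, 4), (6, 14, 1), (19, 12, 7), (12, 7, 4), (11, 0, 6), (2, 2, 2)],
   [(29, 10, 2), (24, 9, 0), (17, 8, 1), (8, 0, 7), (13, 6, 5), (20, 12, 6), (7, 21, 4), (0, 18, 1)],
   [(27, 0, 8), (16, 7, 2), (5, 9, 9), (18, 10, 7), (1, 12, 9), (28, 14, 7), (23, 16, 1), (4, 9, 4)],
   [(25, 7, 1), (22, 10, 1), (19, 1, 4), (6, 0, 9), (5, 8, 7), (18, 16, 0), (1, 17, 7), (28, 4, 7), (23, 10, 8), (4, 8, 2)],
   [(4, 1, 5), (23, 9, 1), (28, 7, 0), (1, 18, 0), (18, 11, 9), (5, 1, 0), (6, 12, 0), (19, 8, 3), (22, 9, 8), (25, 4, 6)],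
   [(6, 18, 7), (9, 17, 3), (10, 21, 1), (17, 13, 1), (8, 15, 0), (21, 20, 4), (14, 6, 0), (25, 2, 1), (22, 1, 1), (19, 10, 4)],
   [(7, 10, 6), (26, 1, 7), (9, 4, 4), (10, 3, 1), (17, 14, 4), (8, 21, 5), (21, 7, 5), (18, 6, 4), (1, 14, 0), (0, 8, 4)],
   [(27, 15, 1), (16, 11, 3), (3, 21, 0), (24, 19, 1), (17, 15, 5), (8, 3, 5), (21, 2, 5), (14, 5, 0), (25, 19, 6), (4, 20, 1)],
   [(0, 12, 8), (7, 6, 3), (20, 19, 3), (27, 21, 6), (16, 12, 4), (3, 3, 0), (24, 16, 2), (29, 8, 5)],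
   [(9, 11, 4), (26, 13, 0), (7, 20, 0), (20, 16, 4), (27, 3, 6), (16, 13, 4), (5, 19, 0), (6, 20, 5)],
   [(19, 9, 5), (22, 8, 6), (25, 14, 6), (14, 3, 7), (21, 15, 3), (8, 20, 7), (17, 19, 8), (10, 5, 6), (9, 18, 4), (6, 17, 0)],
   [(7, 16, 9), (20, 18, 3), (13, 21, 2), (8, 11, 1), (21, 18, 6), (18, 5, 4), (1, 4, 0), (0, 9, 6)],
   [(0, 10, 3), (1, 7, 7), (18, 21, 3), (21, 17, 1), (8, 16, 8), (13, 5, 5), (20, 17, 4), (7, 11, 0)],
   [(4, 15, 6), (25, 13, 3), (14, 21, 7), (21, 14, 2), (8, 6, 2), (17, 20, 2), (24, 13, 8), (3, 5, 7), (16, 16, 6), (27, 20, 6)],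
   [(6, 15, 2), (5, 13, 9), (16, 19, 5), (27, 6, 1), (20, 11, 5), (7, 15, 7), (26, 19, 9), (9, 16, 5)],
   [(2, 13, 2), (11, 11, 2), (12, 17, 2), (19, 18, 2), (6, 7, 6), (9, 12, 5), (26, 14, 3), (15, 19, 2)]]

theorem sf95 : SurfFor W95 :=
  surfFor_of_table (T := T95) (lam := [0, 5, 11, 1, 9, 3, 13, 4, 12, 10, 14, 6, 7, 8, 2]) (rows := rows95)
    (by decide +kernel) (by decide +kernel) (by decide +kernel) (by decide +kernel)

/-- the multiplication table of presentation 96 -/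
def W96 : ℕ :=
  16123254132669771265643470188763278535565575170785779430569351209236709798135218924833052130000104415321216294302904537838188123432269855352176120200319723066726391178366636566900301966241190938590844501789007759716584469588598594301808685910916670637134725538381825

/-- a surface for presentation 96 -/
def rows96 : List (List (ℕ × ℕ × ℕ)) :=
  [[(2, 1, 1), (3, 2, 7), (12, 3, 8), (29, 4, 7), (8, 5, 6), (5, 4, 9), (24, 3, 6), (21, 6, 6)],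
   [(12, 2, 0), (3, 0, 0), (28, 6, 5), (1, 6, 0), (18, 3, 4), (17, 7, 6), (16, 8, 5), (7, 9, 3), (20, 3, 0), (29, 2, 5)],
   [(13, 1, 0), (14, 2, 4), (25, 6, 2), (4, 6, 3), (15, 2, 1), (28, 1, 9), (3, 3, 9), (2, 0, 1)],
   [(21, 1, 8), (16, 9, 2), (17, 10, 1), (6, 7, 7), (19, 1, 4), (22, 6, 7), (25, 0, 6), (14, 4, 8), (13, 0, 2), (2, 2, 6)],
   [(25, 5, 5), (22, 5, 0), (19, 4, 5), (6, 5, 2), (17, 5, 3), (18, 4, 2), (1, 5, 7), (28, 0, 3), (15, 3, 7), (4, 0, 5)],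
   [(23, 4, 1), (20, 5, 4), (7, 4, 3), (16, 4, 4), (21, 5, 1), (24, 4, 0), (9, 0, 4), (0, 4, 6)],
   [(0, 1, 3), (9, 6, 4), (24, 2, 2), (5, 2, 3), (8, 6, 1), (29, 1, 2), (20, 0, 7), (23, 3, 5)],
   [(12, 11, 0), (3, 12, 0), (28, 13, 5), (1, 13, 0), (18, 10, 4), (17, 8, 6), (16, 1, 5), (7, 3, 3), (20, 10, 0), (29, 11, 5)],
   [(12, 14, 0), (3, 15, 0), (28, 16, 5), (1, 16, 0), (18, 9, 4), (17, 1, 6), (16, 7, 5), (7, 10, 3), (20, 9, 0), (29, 14, 5)],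
   [(21, 8, 8), (16, 10, 2), (17, 3, 1), (6, 1, 7), (19, 8, 4), (22, 16, 7), (25, 15, 6), (14, 17, 8), (13, 15, 2), (2, 14, 6)],
   [(21, 7, 8), (16, 3, 2), (17, 9, 1), (6, 8, 7), (19, 7, 4), (22, 13, 7), (25, 12, 6), (14, 18, 8), (13, 12, 2), (2, 11, 6)],
   [(13, 7, 0), (14, 11, 4), (25, 13, 2), (4, 13, 3), (15, 11, 1), (28, 7, 9), (3, 10, 9), (2, 12, 1)],
   [(2, 7, 1), (3, 11, 7), (12, 10, 8), (29, 18, 7), (8, 19, 6), (5, 18, 9), (24, 10, 6), (21, 13, 6)],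
   [(0, 7, 3), (9, 13, 4), (24, 11, 2), (5, 11, 3), (8, 13, 1), (29, 7, 2), (20, 12, 7), (23, 10, 5)],
   [(13, 8, 0), (14, 14, 4), (25, 16, 2), (4, 16, 3), (15, 14, 1), (28, 8, 9), (3, 9, 9), (2, 15, 1)],
   [(2, 8, 1), (3, 14, 7), (12, 9, 8), (29, 17, 7), (8, 20, 6), (5, 17, 9), (24, 9, 6), (21, 16, 6)],
   [(0, 8, 3), (9, 16, 4), (24, 14, 2), (5, 14, 3), (8, 16, 1), (29, 8, 2), (20, 15, 7), (23, 9, 5)],
   [(25, 20, 5), (22, 20, 0), (19, 17, 5), (6, 20, 2), (17, 20, 3), (18, 17, 2), (1, 20, 7), (28, 15, 3), (15, 9, 7), (4, 15, 5)],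
   [(25, 19, 5), (22, 19, 0), (19, 18, 5), (6, 19, 2), (17, 19, 3), (18, 18, 2), (1, 19, 7), (28, 12, 3), (15, 10, 7), (4, 12, 5)],
   [(23, 18, 1), (20, 19, 4), (7, 18, 3), (16, 18, 4), (21, 19, 1), (24, 18, 0), (9, 12, 4), (0, 18, 6)],
   [(23, 17, 1), (20, 20, 4), (7, 17, 3), (16, 17, 4), (21, 20, 1), (24, 17, 0), (9, 15, 4), (0, 17, 6)]]

theorem sf96 : SurfFor W96 :=
  surfFor_of_table (T := T96) (lam := [0, 3, 12, 8, 2, 9, 4, 6, 11, 10, 5, 1, 7, 14, 13]) (rows := rows96)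
    (by decide +kernel) (by decide +kernel) (by decide +kernel) (by decide +kernel)

/-- the multiplication table of presentation 97 -/
def W97 : ℕ :=
  128989965337261486267395005567034539718505981452964055460153711251747285935128926918083199577326023198880321080720941853803285063084769353939970689165997086322624001161152671661364062182142411444056083451316304340393916496167146042848972215011687740908031230863212545

/-- a surface for presentation 97 -/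
def rows97 : List (List (ℕ × ℕ × ℕ)) :=
  [[(2, 1, 6), (3, 2, 0), (24, 3, 4), (7, 3, 7), (10, 4, 2), (15, 2, 2), (26, 1, 4), (17, 5, 5)],
   [(19, 6, 4), (28, 6, 7), (11, 7, 6), (4, 5, 6), (27, 0, 6), (16, 2, 1), (3, 0, 0), (2, 5, 4)],
   [(2, 0, 1), (17, 1, 5), (14, 0, 5), (29, 4, 1), (4, 8, 1), (11, 9, 3), (28, 4, 4), (19, 3, 5)],
   [(15, 3, 3), (26, 6, 1), (17, 6, 2), (14, 3, 0), (25, 0, 2), (18, 2, 7), (5, 4, 3), (6, 0, 3)],
   [(19, 8, 2), (28, 2, 3), (11, 0, 4), (4, 3, 6), (29, 2, 6), (14, 9, 2), (17, 10, 2), (2, 9, 6)],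
   [(15, 11, 1), (10, 10, 5), (7, 7, 0), (24, 6, 5), (3, 1, 7), (16, 0, 7), (5, 1, 3), (6, 7, 5)],
   [(4, 6, 3), (27, 3, 1), (16, 3, 2), (5, 6, 0), (18, 1, 0), (25, 5, 3), (14, 7, 7), (29, 1, 1)],
   [(6, 5, 2), (5, 10, 4), (16, 9, 0), (3, 10, 0), (24, 11, 2), (7, 5, 7), (10, 1, 2), (15, 6, 6)],
   [(6, 9, 4), (5, 2, 4), (18, 4, 0), (25, 9, 5), (14, 8, 7), (17, 11, 5), (26, 11, 6), (15, 8, 4)],
   [(17, 7, 2), (26, 10, 3), (15, 4, 5), (10, 2, 5), (7, 8, 0), (24, 8, 3), (3, 4, 7), (2, 10, 1)],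
   [(2, 7, 3), (3, 9, 7), (16, 4, 6), (27, 9, 1), (4, 7, 1), (11, 5, 1), (28, 11, 0), (19, 11, 3)],
   [(29, 10, 6), (14, 5, 0), (25, 7, 4), (18, 10, 7), (5, 11, 7), (16, 8, 5), (27, 8, 6), (4, 11, 4)]]

theorem sf97 : SurfFor W97 :=
  surfFor_of_table (T := T97) (lam := [0, 5, 11, 12, 13, 6, 2, 9, 4, 3, 10, 1, 14, 8, 7]) (rows := rows97)
    (by decide +kernel) (by decide +kernel) (by decide +kernel) (by decide +kernel)

/-- the multiplication table of presentation 98 -/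
def W98 : ℕ :=
  4597365978338007029746123184732489037942428177292903188184037854354034016513146009346763378760942146495548244127753231854796417440158313272354835579186864438656429201135942117557781961153980819952203447827836235601843549432936794660444977439438387946273858549448705

/-- a surface for presentation 98 -/
def rows98 : List (List (ℕ × ℕ × ℕ)) :=
  [[(2, 1, 3), (17, 2, 4), (12, 3, 2), (23, 4, 5), (8, 5, 4), (9, 6, 4), (24, 7, 0), (19, 8, 2)],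
   [(0, 9, 1), (1, 10, 0), (28, 2, 5), (3, 0, 0), (4, 8, 1), (11, 9, 4), (20, 11, 7), (7, 12, 0)],
   [(0, 13, 4), (7, 5, 9), (20, 14, 0), (11, 3, 3), (16, 0, 1), (29, 1, 2), (6, 10, 7), (27, 15, 8), (22, 14, 6), (25, 16, 1)],
   [(21, 17, 1), (26, 4, 6), (13, 0, 2), (10, 2, 3), (3, 14, 9), (28, 10, 3), (17, 4, 1), (2, 18, 4)],
   [(29, 18, 5), (16, 3, 6), (19, 10, 2), (24, 9, 7), (25, 5, 5), (22, 0, 3), (27, 3, 1), (6, 17, 0)],
   [(29, 13, 3), (18, 15, 1), (5, 15, 4), (8, 6, 5), (9, 0, 4), (24, 4, 4), (25, 9, 6), (22, 8, 7), (27, 14, 1), (6, 2, 1)],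
   [(2, 11, 3), (17, 19, 3), (12, 20, 2), (23, 7, 1), (8, 0, 5), (9, 5, 3), (10, 15, 3), (13, 13, 1), (26, 21, 1), (21, 7, 7)],
   [(25, 0, 6), (22, 6, 3), (27, 20, 1), (6, 19, 0), (29, 17, 5), (16, 16, 6), (11, 11, 4), (20, 6, 9), (7, 21, 0), (0, 8, 3)],
   [(8, 9, 5), (5, 1, 4), (18, 0, 7), (1, 7, 9), (28, 21, 9), (17, 20, 7), (12, 14, 2), (23, 5, 7)],
   [(0, 10, 1), (1, 1, 0), (28, 12, 7), (3, 11, 0), (10, 1, 5), (9, 8, 0), (24, 5, 6), (25, 4, 3)],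
   [(0, 1, 1), (1, 9, 0), (18, 4, 2), (29, 3, 5), (16, 14, 8), (11, 15, 6), (20, 15, 9), (7, 2, 6)],
   [(2, 9, 3), (17, 12, 6), (28, 19, 4), (3, 6, 0), (10, 7, 6), (13, 16, 5), (26, 12, 1), (21, 1, 6)],
   [(6, 1, 7), (27, 11, 6), (22, 16, 4), (25, 21, 4), (24, 18, 0), (19, 19, 5), (16, 11, 1), (29, 9, 2)],
   [(23, 21, 2), (12, 6, 7), (17, 15, 2), (28, 5, 0), (1, 2, 0), (18, 16, 0), (5, 17, 3), (8, 18, 2)],
   [(21, 2, 2), (26, 5, 8), (13, 8, 6), (10, 20, 6), (9, 21, 6), (8, 16, 2), (23, 2, 8), (12, 15, 7), (17, 10, 4), (2, 3, 4)],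
   [(2, 15, 5), (19, 5, 1), (16, 13, 2), (11, 6, 6), (4, 5, 2), (3, 15, 0), (10, 10, 5), (13, 14, 7), (26, 2, 7), (21, 10, 6)],
   [(19, 13, 5), (24, 2, 9), (9, 14, 5), (8, 21, 5), (23, 12, 2), (12, 11, 5), (17, 7, 5), (2, 17, 4)],
   [(7, 4, 7), (20, 3, 0), (11, 18, 3), (4, 13, 6), (3, 16, 7), (28, 7, 4), (1, 19, 7), (0, 18, 6)],
   [(25, 12, 4), (24, 21, 3), (9, 13, 7), (10, 17, 2), (3, 3, 7), (28, 4, 0), (1, 17, 7), (0, 19, 6)],
   [(7, 7, 3), (20, 20, 0), (11, 20, 3), (16, 6, 1), (29, 11, 2), (18, 12, 5), (1, 18, 7), (0, 17, 6)],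
   [(21, 19, 1), (26, 7, 2), (13, 6, 2), (10, 19, 2), (3, 20, 9), (4, 21, 7), (11, 14, 3), (16, 8, 5), (19, 21, 8), (2, 20, 4)],
   [(6, 7, 8), (27, 6, 8), (22, 13, 0), (25, 18, 1), (24, 12, 3), (9, 16, 3), (8, 14, 4), (5, 20, 5), (18, 20, 8), (29, 8, 4)]]

theorem sf98 : SurfFor W98 :=
  surfFor_of_table (T := T98) (lam := [0, 6, 14, 1, 12, 8, 9, 7, 3, 5, 4, 13, 2, 10, 11]) (rows := rows98)
    (by decide +kernel) (by decide +kernel) (by decide +kernel) (by decide +kernel)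

/-- the multiplication table of presentation 99 -/
def W99 : ℕ :=
  8062617097594534709380956557490104043789539194101879013546014428290209929166178113350964260986894531474795324436741377439165593853866504592881194811131195229757707944855776760219266074577396792595721014197323175056952911920807897079208301014593113764112223566823425

/-- a surface for presentation 99 -/
def rows99 : List (List (ℕ × ℕ × ℕ)) :=
  [[(0, 1, 1), (1, 2, 0), (18, 2, 3), (19, 1, 2), (6, 0, 7), (13, 3, 3), (22, 3, 4), (7, 0, 4)],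
   [(0, 2, 1), (1, 0, 0), (18, 0, 3), (19, 2, 2), (6, 1, 7), (13, 4, 3), (22, 4, 4), (7, 1, 4)],
   [(0, 0, 1), (1, 1, 0), (18, 1, 3), (19, 0, 2), (6, 2, 7), (13, 5, 3), (22, 5, 4), (7, 2, 4)],
   [(21, 5, 1), (20, 4, 0), (29, 3, 5), (12, 0, 5), (23, 0, 6), (28, 3, 2), (1, 4, 7), (0, 5, 6)],
   [(21, 3, 1), (20, 5, 0), (29, 4, 5), (12, 1, 5), (23, 1, 6), (28, 4, 2), (1, 5, 7), (0, 3, 6)],
   [(21, 4, 1), (20, 3, 0), (29, 5, 5), (12, 2, 5), (23, 2, 6), (28, 5, 2), (1, 3, 7), (0, 4, 6)]]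

theorem sf99 : SurfFor W99 :=
  surfFor_of_table (T := T99) (lam := [0, 8, 14, 2, 5, 9, 10, 12, 7, 11, 1, 3, 6, 4, 13]) (rows := rows99)
    (by decide +kernel) (by decide +kernel) (by decide +kernel) (by decide +kernel)

end Pool.Agent.TriSurf
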