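import Pool.Agent.TriSurf.SData
import Pool.Agent.TriSurf.PresT

/-!
# Surfaces
-/

set_option autoImplicit false
set_option maxRecDepth 100000

namespace Pool.Agent.TriSurf

/-- the multiplication table of presentation 100 -/
def W100 : ℕ :=
  1513433710903942701044581697218013169707373507922764573072116391146197433366993307439217948448845969782704069901466970517584189244746699405208095778693226329150700314817502396467358870266348092343194850481600927025237280596846054970052911040837719377132850128093185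

/-- a surface for presentation 100 -/
def rows100 : List (List (ℕ × ℕ × ℕ)) :=
  [[(0, 1, 1), (1, 2, 0), (18, 3, 2), (3, 4, 0), (16, 5, 4), (27, 6, 1), (2, 7, 3), (21, 8, 4), (26, 9, 4), (17, 10, 3)],
   [(0, 2, 1), (1, 0, 0), (18, 10, 2), (3, 8, 0), (16, 11, 4), (27, 9, 1), (2, 12, 3), (21, 13, 4), (26, 14, 4), (17, 15, 3)],
   [(0, 0, 1), (1, 1, 0), (18, 15, 2), (3, 13, 0), (16, 16, 4), (27, 14, 1), (2, 17, 3), (21, 4, 4), (26, 6, 4), (17, 3, 3)],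
   [(17, 16, 1), (20, 4, 1), (19, 0, 2), (16, 2, 9), (3, 6, 3), (18, 5, 2), (1, 10, 7), (0, 15, 6)],
   [(2, 0, 3), (21, 3, 1), (26, 16, 0), (17, 6, 5), (20, 2, 7), (19, 17, 2), (16, 7, 7), (27, 5, 5)],
   [(27, 8, 2), (16, 10, 0), (19, 3, 5), (20, 6, 2), (17, 0, 4), (26, 4, 7), (21, 7, 6), (2, 9, 6)],
   [(17, 7, 4), (26, 0, 5), (21, 5, 3), (2, 3, 4), (27, 2, 8), (16, 4, 3), (3, 16, 7), (18, 17, 5), (1, 14, 9), (0, 9, 8)],
   [(0, 17, 1), (1, 12, 0), (18, 8, 5), (3, 0, 6), (16, 6, 0), (19, 9, 7), (20, 5, 6), (17, 4, 6)],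
   [(2, 1, 3), (21, 10, 1), (26, 5, 0), (17, 9, 5), (20, 0, 7), (19, 7, 2), (16, 12, 7), (27, 11, 5)],
   [(17, 12, 4), (26, 1, 5), (21, 11, 3), (2, 10, 4), (27, 0, 8), (16, 8, 3), (3, 5, 7), (18, 7, 5), (1, 6, 9), (0, 14, 8)],
   [(17, 5, 1), (20, 8, 1), (19, 1, 2), (16, 0, 9), (3, 9, 3), (18, 11, 2), (1, 15, 7), (0, 3, 6)],
   [(27, 13, 2), (16, 15, 0), (19, 10, 5), (20, 9, 2), (17, 1, 4), (26, 8, 7), (21, 12, 6), (2, 14, 6)],
   [(0, 7, 1), (1, 17, 0), (18, 13, 5), (3, 1, 6), (16, 9, 0), (19, 14, 7), (20, 11, 6), (17, 8, 6)],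
   [(2, 2, 3), (21, 15, 1), (26, 11, 0), (17, 14, 5), (20, 1, 7), (19, 12, 2), (16, 17, 7), (27, 16, 5)],
   [(17, 17, 4), (26, 2, 5), (21, 16, 3), (2, 15, 4), (27, 1, 8), (16, 13, 3), (3, 11, 7), (18, 12, 5), (1, 9, 9), (0, 6, 8)],
   [(17, 11, 1), (20, 13, 1), (19, 2, 2), (16, 1, 9), (3, 14, 3), (18, 16, 2), (1, 3, 7), (0, 10, 6)],
   [(27, 4, 2), (16, 3, 0), (19, 15, 5), (20, 14, 2), (17, 2, 4), (26, 13, 7), (21, 17, 6), (2, 6, 6)],
   [(0, 12, 1), (1, 7, 0), (18, 4, 5), (3, 2, 6), (16, 14, 0), (19, 6, 7), (20, 16, 6), (17, 13, 6)]]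

theorem sf100 : SurfFor W100 :=
  surfFor_of_table (T := T100) (lam := [0, 11, 3, 7, 12, 6, 9, 2, 1, 8, 4, 10, 13, 5, 14]) (rows := rows100)
    (by decide +kernel) (by decide +kernel) (by decide +kernel) (by decide +kernel)

/-- the multiplication table of presentation 101 -/
def W101 : ℕ :=
  7924417967649994591205729154309009239897560077680561792528185031952735626155314779948703362875765531048263528380926915933566111345860978578228168766793389181929534797534428193066318381572759988996315425846263288525029579727799459029504989479354607196989891121921543634945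

/-- a surface for presentation 101 -/
def rows101 : List (List (ℕ × ℕ × ℕ)) :=
  [[(2, 1, 3), (15, 1, 6), (26, 2, 4), (3, 3, 7), (20, 4, 6), (17, 5, 6), (16, 6, 1), (19, 7, 3)],
   [(4, 8, 5), (17, 8, 6), (20, 1, 7), (3, 0, 0), (26, 7, 2), (15, 2, 5), (14, 0, 1), (21, 1, 2)],
   [(19, 5, 8), (16, 4, 4), (5, 9, 4), (18, 3, 0), (27, 0, 2), (14, 1, 5), (15, 7, 1), (2, 5, 3)],
   [(19, 2, 3), (16, 9, 3), (5, 10, 7), (6, 11, 2), (11, 12, 9), (26, 10, 2), (15, 4, 7), (2, 0, 3)],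
   [(29, 8, 2), (12, 13, 3), (7, 14, 0), (20, 9, 5), (17, 2, 1), (4, 5, 7), (21, 0, 4), (14, 3, 6), (15, 10, 1), (2, 9, 1)],
   [(14, 15, 8), (15, 15, 9), (26, 5, 9), (3, 2, 7), (20, 7, 0), (17, 6, 2), (16, 0, 5), (5, 4, 5), (18, 2, 0), (27, 5, 2)],
   [(4, 7, 4), (17, 0, 6), (16, 5, 5), (5, 7, 7), (18, 16, 0), (27, 17, 3), (14, 18, 1), (21, 15, 5)],
   [(21, 5, 4), (14, 2, 6), (27, 1, 4), (18, 0, 7), (5, 6, 0), (16, 15, 4), (17, 16, 1), (4, 6, 3)],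
   [(10, 19, 3), (9, 13, 4), (28, 4, 0), (1, 9, 0), (18, 8, 7), (5, 1, 0), (16, 1, 1), (19, 8, 4), (24, 9, 7), (13, 14, 8)],
   [(0, 8, 3), (3, 4, 9), (20, 10, 0), (17, 3, 1), (4, 2, 2), (21, 4, 3), (22, 14, 9), (25, 8, 8)],
   [(21, 9, 2), (14, 4, 8), (27, 3, 5), (8, 12, 8), (13, 20, 8), (10, 11, 8), (9, 11, 3), (4, 3, 2)],
   [(23, 21, 1), (12, 12, 0), (7, 3, 3), (8, 10, 6), (27, 11, 7), (14, 14, 3), (15, 14, 4), (26, 11, 4), (11, 10, 5), (6, 20, 7)],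
   [(13, 11, 1), (24, 21, 0), (19, 12, 5), (16, 17, 6), (5, 17, 7), (18, 12, 2), (1, 21, 7), (28, 20, 9), (9, 10, 3), (10, 3, 4)],
   [(4, 19, 5), (9, 14, 6), (10, 14, 1), (13, 4, 1), (8, 8, 1), (27, 19, 2), (14, 20, 1), (21, 21, 5)],
   [(6, 4, 2), (11, 13, 2), (26, 14, 5), (15, 11, 5), (14, 11, 6), (27, 14, 2), (8, 13, 1), (7, 19, 4), (12, 8, 9), (23, 9, 6)],
   [(27, 15, 7), (18, 18, 7), (5, 20, 4), (16, 16, 2), (17, 7, 5), (20, 6, 7), (3, 18, 0), (26, 15, 0), (15, 5, 0), (14, 5, 1)],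
   [(19, 6, 4), (16, 7, 6), (17, 15, 3), (20, 20, 3), (3, 19, 0), (26, 18, 3), (15, 17, 1), (2, 17, 4)],
   [(21, 17, 5), (14, 16, 6), (15, 18, 2), (26, 6, 5), (3, 16, 7), (20, 17, 0), (17, 12, 3), (4, 12, 4)],
   [(2, 15, 6), (15, 6, 6), (14, 17, 2), (27, 16, 5), (18, 19, 7), (5, 21, 3), (16, 20, 5), (19, 15, 1)],
   [(2, 16, 4), (15, 20, 2), (26, 13, 5), (11, 8, 0), (6, 14, 7), (5, 13, 0), (16, 21, 4), (19, 18, 4)],
   [(2, 21, 6), (15, 13, 6), (14, 19, 1), (21, 16, 3), (4, 15, 2), (17, 18, 6), (20, 21, 2), (7, 11, 9), (12, 10, 4), (29, 12, 7)],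
   [(25, 12, 1), (22, 11, 0), (21, 20, 6), (4, 18, 5), (17, 19, 6), (20, 13, 7), (3, 20, 0), (0, 12, 6)]]

theorem sf101 : SurfFor W101 :=
  surfFor_of_table (T := T101) (lam := [0, 1, 11, 13, 6, 9, 12, 4, 8, 5, 7, 10, 2, 14, 3]) (rows := rows101)
    (by decide +kernel) (by decide +kernel) (by decide +kernel) (by decide +kernel)

/-- the multiplication table of presentation 102 -/
def W102 : ℕ :=
  14445553595350468120851848824248547035170017832582193492710740044643334066014320576125218992164460460189787764303348433294119915108029733044241722624514772877965071700356852932351177060384717511203846756255665196986814501614351924793119271199985840575207108957882548225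

/-- a surface for presentation 102 -/
def rows102 : List (List (ℕ × ℕ × ℕ)) :=
  [[(8, 1, 3), (21, 2, 2), (12, 3, 6), (13, 4, 3), (28, 1, 5), (1, 4, 9), (18, 1, 7), (23, 4, 1)],
   [(2, 4, 8), (5, 5, 7), (26, 2, 3), (9, 0, 0), (10, 4, 0), (29, 0, 4), (24, 4, 2), (19, 0, 6)],
   [(0, 6, 6), (3, 3, 7), (20, 0, 1), (27, 1, 2), (16, 5, 6), (19, 7, 4), (24, 8, 6), (11, 9, 0)],
   [(19, 6, 5), (24, 6, 0), (29, 9, 2), (8, 8, 4), (21, 10, 8), (12, 4, 4), (13, 0, 2), (2, 2, 1)],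
   [(11, 1, 4), (22, 0, 7), (25, 1, 6), (12, 0, 3), (13, 3, 5), (2, 10, 7), (5, 8, 9), (26, 5, 0), (3, 1, 0), (0, 0, 5)],
   [(27, 4, 7), (16, 8, 8), (15, 7, 2), (18, 11, 2), (23, 10, 2), (14, 7, 5), (17, 2, 4), (4, 1, 1)],
   [(25, 3, 1), (22, 6, 4), (17, 12, 3), (14, 12, 4), (23, 6, 1), (18, 3, 0), (1, 2, 0), (28, 9, 9), (13, 13, 6), (12, 9, 3)],
   [(4, 14, 6), (17, 11, 3), (14, 5, 2), (23, 8, 7), (18, 2, 5), (15, 5, 5), (16, 10, 1), (27, 15, 2)],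
   [(27, 10, 6), (20, 16, 3), (3, 15, 4), (26, 10, 9), (9, 3, 3), (6, 9, 1), (25, 2, 6), (22, 7, 3), (17, 5, 1), (4, 4, 6)],
   [(10, 2, 7), (7, 8, 5), (28, 3, 2), (13, 6, 9), (12, 13, 5), (25, 17, 6), (22, 17, 1), (11, 18, 5), (24, 13, 7), (29, 6, 7)],
   [(4, 15, 3), (17, 7, 6), (22, 5, 4), (25, 11, 1), (6, 19, 8), (9, 16, 4), (26, 8, 0), (3, 4, 5), (20, 3, 4), (27, 8, 3)],
   [(11, 19, 9), (24, 10, 3), (19, 5, 3), (16, 7, 1), (27, 14, 5), (20, 20, 6), (3, 16, 0), (0, 21, 3)],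
   [(29, 18, 3), (24, 19, 4), (19, 12, 5), (16, 6, 2), (15, 6, 3), (18, 12, 2), (23, 19, 3), (8, 13, 1)],
   [(6, 18, 4), (9, 12, 7), (10, 19, 2), (7, 18, 7), (28, 17, 7), (13, 9, 4), (12, 6, 8), (25, 9, 8)],
   [(19, 20, 1), (24, 15, 7), (29, 20, 3), (10, 15, 9), (9, 20, 7), (26, 11, 4), (5, 7, 0), (2, 15, 1)],
   [(0, 20, 2), (3, 14, 7), (26, 7, 7), (5, 10, 0), (2, 8, 2), (13, 16, 2), (12, 20, 4), (25, 14, 1), (22, 20, 0), (11, 14, 3)],
   [(2, 11, 6), (13, 20, 5), (12, 15, 5), (21, 8, 1), (8, 10, 5), (29, 19, 7), (24, 21, 9), (19, 21, 4)],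
   [(8, 18, 6), (23, 9, 6), (18, 17, 5), (15, 21, 6), (16, 21, 7), (19, 17, 2), (24, 9, 5), (29, 13, 4)],
   [(25, 19, 1), (12, 21, 1), (13, 19, 5), (28, 12, 0), (7, 13, 0), (10, 9, 7), (9, 17, 0), (6, 13, 3)],
   [(29, 21, 2), (24, 18, 0), (11, 13, 2), (22, 12, 6), (25, 12, 1), (12, 18, 2), (13, 21, 0), (28, 16, 5), (7, 10, 4), (10, 11, 0)],
   [(23, 15, 8), (18, 14, 0), (1, 15, 0), (28, 14, 2), (13, 15, 6), (12, 16, 1), (21, 11, 5), (8, 14, 4)],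
   [(12, 19, 6), (13, 18, 1), (28, 19, 0), (1, 11, 7), (18, 16, 7), (23, 21, 8), (14, 17, 3), (17, 17, 4), (22, 21, 5), (25, 16, 6)]]

theorem sf102 : SurfFor W102 :=
  surfFor_of_table (T := T102) (lam := [0, 1, 4, 6, 9, 2, 3, 11, 7, 5, 13, 14, 10, 8, 12]) (rows := rows102)
    (by decide +kernel) (by decide +kernel) (by decide +kernel) (by decide +kernel)

/-- the multiplication table of presentation 103 -/
def W103 : ℕ :=
  7351754949885974295512692723969310294081164646894951451585919179109389097930419349561813768436083622669407484385591904714461611802677989643406198687345635239505879107392941126451951431541410392181482850318754493562862813576953504499943359777611000420622574442659184655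

/-- a surface for presentation 103 -/
def rows103 : List (List (ℕ × ℕ × ℕ)) :=
  [[(8, 1, 5), (11, 2, 2), (10, 1, 1), (27, 2, 4), (26, 1, 3), (9, 2, 0), (14, 3, 0), (15, 4, 1)],
   [(8, 2, 5), (11, 0, 2), (10, 2, 1), (27, 0, 4), (26, 2, 3), (9, 0, 0), (14, 4, 0), (15, 5, 1)],
   [(8, 0, 5), (11, 1, 2), (10, 0, 1), (27, 1, 4), (26, 0, 3), (9, 1, 0), (14, 5, 0), (15, 3, 1)],
   [(15, 0, 6), (14, 2, 7), (9, 5, 7), (26, 4, 4), (27, 5, 3), (10, 4, 6), (11, 5, 5), (8, 4, 2)],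
   [(15, 1, 6), (14, 0, 7), (9, 3, 7), (26, 5, 4), (27, 3, 3), (10, 5, 6), (11, 3, 5), (8, 5, 2)],
   [(15, 2, 6), (14, 1, 7), (9, 4, 7), (26, 3, 4), (27, 4, 3), (10, 3, 6), (11, 4, 5), (8, 3, 2)]]

theorem sf103 : SurfFor W103 :=
  surfFor_of_table (T := T103) (lam := [0, 11, 3, 10, 4, 12, 1, 14, 6, 13, 7, 5, 8, 9, 2]) (rows := rows103)
    (by decide +kernel) (by decide +kernel) (by decide +kernel) (by decide +kernel)

/-- the multiplication table of presentation 104 -/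
def W104 : ℕ :=
  29278041642528336267450717809252980984210878602196238777252110025375187618313950562893005880347219886843701852370255652389070029968782360659355577790200470858408223563309926537035736104642981491972239364539361045535288503784722133687641478905912660688305279545030737935

/-- a surface for presentation 104 -/
def rows104 : List (List (ℕ × ℕ × ℕ)) :=
  [[(2, 1, 1), (3, 2, 0), (14, 0, 7), (23, 1, 4), (22, 2, 3), (7, 2, 6), (6, 1, 5), (15, 0, 2), (16, 2, 9), (17, 1, 8)],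
   [(2, 2, 1), (3, 0, 0), (14, 1, 7), (23, 2, 4), (22, 0, 3), (7, 0, 6), (6, 2, 5), (15, 1, 2), (16, 0, 9), (17, 2, 8)],
   [(2, 0, 1), (3, 1, 0), (14, 2, 7), (23, 0, 4), (22, 1, 3), (7, 1, 6), (6, 0, 5), (15, 2, 2), (16, 1, 9), (17, 0, 8)]]

theorem sf104 : SurfFor W104 :=
  surfFor_of_table (T := T104) (lam := [0, 4, 3, 10, 9, 14, 13, 11, 5, 12, 8, 7, 1, 6, 2]) (rows := rows104)
    (by decide +kernel) (by decide +kernel) (by decide +kernel) (by decide +kernel)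

/-- the multiplication table of presentation 105 -/
def W105 : ℕ :=
  112856748891176543349884832581447473160520555520794137285441434422929595669615242724261639388424181973227204411065587711790948920165872257086082793322831016756759032056934692877808941053341726280627519208521473941216363466884700418404371699899208427073747501788954625

/-- a surface for presentation 105 -/
def rows105 : List (List (ℕ × ℕ × ℕ)) :=
  [[(2, 1, 6), (13, 2, 3), (12, 3, 2), (29, 4, 2), (8, 5, 7), (11, 1, 1), (24, 6, 0), (19, 7, 3)],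
   [(27, 6, 1), (10, 0, 5), (25, 5, 6), (6, 6, 6), (23, 4, 6), (22, 2, 4), (3, 0, 0), (4, 7, 2)],
   [(15, 8, 2), (20, 9, 7), (29, 3, 3), (12, 0, 1), (23, 1, 5), (22, 4, 5), (3, 10, 3), (4, 11, 1)],
   [(29, 10, 5), (12, 4, 3), (13, 0, 2), (28, 2, 2), (27, 9, 6), (10, 12, 5), (11, 13, 3), (8, 14, 0)],
   [(0, 12, 1), (1, 5, 0), (28, 0, 3), (13, 3, 1), (12, 10, 4), (23, 2, 5), (22, 1, 4), (9, 6, 5)],
   [(0, 4, 1), (1, 12, 0), (28, 15, 7), (13, 16, 3), (2, 17, 1), (19, 6, 7), (24, 1, 2), (9, 0, 4)],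
   [(25, 0, 6), (26, 1, 0), (17, 7, 1), (20, 18, 2), (29, 12, 2), (8, 4, 7), (7, 1, 3), (18, 5, 5), (5, 17, 0), (6, 7, 4)],
   [(15, 18, 3), (16, 6, 2), (5, 1, 7), (18, 0, 7), (7, 6, 9), (14, 17, 7), (3, 13, 7), (4, 19, 1)],
   [(4, 18, 6), (3, 9, 0), (14, 2, 0), (7, 11, 0), (18, 20, 0), (5, 21, 0), (16, 11, 7), (15, 19, 4)],
   [(2, 8, 1), (19, 18, 5), (24, 19, 7), (11, 14, 3), (10, 15, 1), (25, 12, 6), (26, 3, 4), (21, 2, 1)],
   [(9, 20, 3), (24, 21, 5), (19, 11, 2), (2, 2, 6), (13, 4, 4), (28, 3, 0), (1, 14, 7), (0, 16, 6)],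
   [(6, 8, 3), (5, 2, 7), (18, 10, 2), (7, 21, 4), (8, 16, 0), (29, 14, 5), (20, 19, 5), (17, 8, 6), (26, 21, 7), (25, 20, 1)],
   [(0, 5, 1), (1, 4, 0), (28, 6, 4), (27, 18, 1), (10, 13, 4), (11, 3, 5), (24, 9, 5), (9, 15, 0)],
   [(21, 17, 6), (26, 15, 3), (25, 14, 1), (10, 3, 6), (11, 12, 4), (24, 18, 0), (19, 19, 2), (2, 7, 6)],
   [(9, 3, 7), (24, 13, 2), (11, 15, 2), (10, 9, 3), (27, 19, 6), (28, 11, 5), (1, 16, 7), (0, 10, 6)],
   [(8, 12, 7), (11, 9, 4), (10, 14, 2), (27, 13, 1), (28, 17, 5), (13, 20, 5), (12, 16, 4), (29, 5, 2)],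
   [(9, 11, 4), (22, 21, 3), (23, 17, 2), (12, 5, 3), (13, 15, 6), (28, 20, 4), (1, 10, 7), (0, 14, 6)],
   [(4, 6, 8), (3, 5, 4), (22, 16, 2), (23, 21, 2), (12, 20, 6), (29, 15, 4), (20, 13, 0), (15, 7, 5)],
   [(25, 13, 5), (26, 12, 3), (21, 6, 3), (14, 7, 0), (7, 19, 0), (18, 9, 1), (5, 8, 0), (6, 19, 3)],
   [(6, 18, 4), (5, 7, 7), (18, 13, 6), (7, 18, 7), (14, 8, 7), (21, 11, 6), (26, 14, 4), (25, 9, 2)],
   [(19, 8, 4), (24, 11, 9), (11, 21, 6), (8, 10, 0), (29, 16, 5), (12, 15, 5), (13, 17, 4), (2, 21, 1)],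
   [(4, 8, 5), (3, 20, 7), (22, 17, 3), (23, 16, 1), (6, 11, 3), (25, 10, 1), (10, 20, 2), (27, 11, 8)]]

theorem sf105 : SurfFor W105 :=
  surfFor_of_table (T := T105) (lam := [0, 7, 11, 14, 2, 12, 3, 8, 1, 5, 4, 10, 9, 6, 13]) (rows := rows105)
    (by decide +kernel) (by decide +kernel) (by decide +kernel) (by decide +kernel)

/-- the multiplication table of presentation 106 -/
def W106 : ℕ :=
  2063807956288370212887974331738694243894390896380510896097992152353462872545285294464485892319542902415269314337531740275828658537422221384244663854268447029223756408299463002968771054023503239044912199578015055007674496691836582616570774392412791894512288197261656065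

/-- a surface for presentation 106 -/
def rows106 : List (List (ℕ × ℕ × ℕ)) :=
  [[(6, 1, 5), (13, 2, 5), (22, 3, 3), (3, 4, 9), (14, 5, 5), (19, 1, 2), (26, 6, 7), (21, 3, 6)],
   [(0, 3, 1), (1, 6, 0), (18, 0, 5), (15, 5, 4), (8, 2, 6), (7, 0, 0), (10, 3, 5), (21, 2, 3), (26, 7, 7), (27, 4, 1)],
   [(19, 8, 4), (26, 5, 9), (27, 7, 8), (20, 1, 7), (17, 3, 4), (12, 0, 1), (9, 1, 4), (2, 5, 3)],
   [(0, 6, 1), (1, 1, 0), (18, 4, 0), (23, 0, 2), (16, 2, 4), (11, 1, 6), (20, 0, 7), (27, 6, 6)],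
   [(19, 3, 2), (26, 1, 9), (21, 7, 6), (6, 9, 8), (23, 10, 7), (18, 11, 7), (1, 10, 9), (28, 9, 6), (9, 5, 6), (2, 0, 3)],
   [(0, 8, 3), (25, 7, 2), (22, 8, 5), (3, 2, 7), (14, 1, 3), (15, 0, 4), (8, 4, 8), (17, 9, 5), (20, 7, 9), (27, 2, 1)],
   [(0, 1, 1), (1, 3, 0), (18, 6, 5), (15, 12, 3), (14, 12, 4), (19, 6, 2), (26, 3, 7), (27, 0, 6)],
   [(10, 9, 4), (7, 8, 6), (24, 5, 1), (29, 8, 2), (16, 10, 2), (11, 9, 9), (20, 4, 2), (27, 1, 8), (26, 2, 2), (21, 5, 8)],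
   [(2, 13, 4), (9, 10, 3), (28, 7, 3), (1, 5, 0), (18, 2, 0), (23, 5, 2), (6, 7, 1), (21, 9, 3), (26, 14, 0), (19, 15, 5)],
   [(21, 10, 1), (26, 11, 5), (27, 14, 1), (20, 8, 7), (11, 7, 0), (16, 5, 7), (29, 4, 7), (24, 10, 8), (7, 4, 3), (10, 7, 5)],
   [(27, 11, 6), (20, 9, 0), (17, 7, 4), (8, 8, 1), (15, 13, 3), (14, 14, 6), (3, 11, 0), (22, 4, 4), (25, 9, 7), (0, 4, 6)],
   [(2, 10, 6), (9, 14, 5), (12, 13, 6), (17, 15, 3), (20, 14, 2), (27, 9, 1), (26, 10, 0), (19, 4, 5)],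
   [(27, 13, 1), (26, 15, 0), (19, 12, 5), (14, 6, 3), (15, 6, 4), (18, 12, 2), (1, 15, 7), (0, 14, 8)],
   [(21, 15, 1), (26, 12, 0), (19, 14, 7), (14, 10, 4), (3, 8, 0), (22, 15, 4), (13, 11, 2), (6, 14, 4)],
   [(27, 8, 8), (26, 9, 2), (21, 11, 4), (10, 15, 2), (7, 13, 7), (8, 11, 1), (15, 10, 5), (18, 13, 2), (1, 12, 7), (0, 15, 6)],
   [(27, 12, 1), (20, 13, 0), (11, 14, 3), (16, 11, 3), (23, 13, 5), (18, 8, 9), (1, 14, 9), (0, 12, 6)]]

theorem sf106 : SurfFor W106 :=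
  surfFor_of_table (T := T106) (lam := [0, 7, 6, 12, 3, 8, 10, 14, 13, 4, 9, 11, 2, 1, 5]) (rows := rows106)
    (by decide +kernel) (by decide +kernel) (by decide +kernel) (by decide +kernel)

end Pool.Agent.TriSurf
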