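import Pool.Agent.TriSurf.SData
import Pool.Agent.TriSurf.PresT

/-!
# Surfaces
-/

set_option autoImplicit false
set_option maxRecDepth 100000

namespace Pool.Agent.TriSurf

/-- the multiplication table of presentation 107 -/
def W107 : ℕ :=
  33018412132080882572998691860843733392761669788271635033220135498798709517917824579099958021649263499082098099952981864968417435650610803614238796841435199011768280239223061681607095123823799446595188015096355471643946526532935531559032029806789244438818846349128105985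

/-- a surface for presentation 107 -/
def rows107 : List (List (ℕ × ℕ × ℕ)) :=
  [[(4, 0, 3), (13, 1, 1), (10, 1, 2), (5, 0, 0), (6, 2, 5), (7, 3, 4), (18, 2, 9), (25, 4, 5), (14, 1, 6), (19, 2, 6)],
   [(9, 1, 3), (12, 0, 1), (11, 0, 2), (8, 1, 0), (17, 4, 7), (24, 2, 7), (15, 0, 8), (16, 4, 4), (7, 5, 9), (6, 4, 8)],
   [(4, 3, 3), (13, 4, 1), (10, 5, 2), (5, 3, 0), (6, 3, 5), (7, 0, 4), (18, 0, 9), (25, 1, 5), (14, 4, 6), (19, 0, 6)],
   [(4, 2, 3), (13, 5, 1), (10, 4, 2), (5, 2, 0), (6, 0, 5), (7, 2, 4), (18, 3, 9), (25, 5, 5), (14, 5, 6), (19, 3, 6)],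
   [(9, 5, 3), (12, 2, 1), (11, 3, 2), (8, 5, 0), (17, 1, 7), (24, 0, 7), (15, 2, 8), (16, 1, 4), (7, 1, 9), (6, 5, 8)],
   [(9, 4, 3), (12, 3, 1), (11, 2, 2), (8, 4, 0), (17, 5, 7), (24, 3, 7), (15, 3, 8), (16, 5, 4), (7, 4, 9), (6, 1, 8)]]

theorem sf107 : SurfFor W107 :=
  surfFor_of_table (T := T107) (lam := [0, 3, 9, 11, 10, 13, 6, 5, 12, 7, 8, 2, 14, 1, 4]) (rows := rows107)
    (by decide +kernel) (by decide +kernel) (by decide +kernel) (by decide +kernel)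

/-- the multiplication table of presentation 108 -/
def W108 : ℕ :=
  1418759973207317517982110488879191415437239180038288178824271278910958290221012687497703516998977349339663784933425686253340651741398222124276525972887882308207416054986877605645371897687008401483193476539705823512624771650186689600268864469032160018922170752801177610

/-- a surface for presentation 108 -/
def rows108 : List (List (ℕ × ℕ × ℕ)) :=
  [[(4, 0, 5), (21, 1, 3), (10, 2, 6), (25, 3, 4), (8, 1, 4), (5, 0, 0), (14, 4, 0), (27, 4, 1)],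
   [(17, 5, 8), (26, 6, 5), (7, 2, 7), (20, 0, 1), (9, 0, 4), (12, 3, 3), (3, 7, 7), (2, 8, 8)],
   [(15, 6, 4), (26, 5, 5), (17, 9, 2), (14, 7, 2), (5, 10, 7), (18, 3, 5), (11, 0, 2), (6, 1, 2)],
   [(4, 11, 3), (23, 10, 1), (16, 7, 0), (13, 1, 5), (24, 0, 3), (19, 2, 5), (22, 10, 6), (27, 12, 6)],
   [(15, 0, 6), (26, 0, 7), (7, 4, 7), (20, 12, 3), (23, 8, 5), (16, 11, 5), (11, 12, 4), (6, 4, 2)],
   [(2, 12, 1), (3, 13, 0), (12, 8, 0), (29, 7, 5), (22, 9, 3), (27, 2, 1), (4, 6, 3), (23, 6, 6), (16, 1, 0), (13, 8, 7)],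
   [(0, 14, 6), (1, 14, 7), (18, 6, 7), (5, 5, 6), (14, 2, 0), (27, 1, 1), (22, 5, 7), (19, 6, 2)],
   [(17, 3, 2), (26, 10, 0), (15, 2, 3), (10, 9, 1), (21, 9, 4), (28, 5, 3), (3, 8, 9), (2, 1, 6)],
   [(13, 5, 2), (16, 13, 7), (23, 14, 1), (4, 14, 4), (27, 11, 6), (22, 4, 4), (29, 12, 2), (12, 5, 9), (3, 1, 7), (2, 7, 6)],
   [(6, 9, 5), (11, 7, 3), (16, 2, 2), (23, 5, 4), (20, 7, 4), (7, 9, 0), (26, 15, 0), (15, 15, 1)],
   [(27, 7, 1), (22, 3, 1), (19, 11, 2), (24, 15, 4), (13, 13, 2), (16, 12, 7), (23, 3, 6), (4, 2, 4)],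
   [(6, 13, 5), (11, 15, 5), (18, 10, 2), (5, 3, 0), (14, 12, 5), (17, 4, 5), (26, 8, 4), (15, 14, 3)],
   [(2, 13, 1), (3, 5, 0), (28, 8, 6), (21, 4, 3), (10, 4, 6), (15, 11, 4), (26, 3, 7), (17, 10, 5)],
   [(2, 5, 1), (3, 12, 0), (12, 10, 4), (9, 15, 3), (20, 15, 6), (7, 11, 0), (26, 14, 2), (17, 8, 1)],
   [(19, 14, 5), (22, 8, 2), (27, 13, 6), (14, 11, 7), (5, 8, 3), (18, 14, 0), (1, 6, 0), (0, 6, 1)],
   [(27, 9, 6), (14, 9, 7), (5, 15, 7), (8, 13, 3), (25, 10, 3), (10, 11, 1), (21, 13, 4), (4, 15, 2)]]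

theorem sf108 : SurfFor W108 :=
  surfFor_of_table (T := T108) (lam := [0, 3, 14, 1, 13, 11, 5, 9, 4, 2, 6, 8, 12, 7, 10]) (rows := rows108)
    (by decide +kernel) (by decide +kernel) (by decide +kernel) (by decide +kernel)

/-- the multiplication table of presentation 109 -/
def W109 : ℕ :=
  128982093135295205515032439446291532424907658356143219212293425645216023060194999233787779000481160936004302866083484033253097105023299246387968499967638071379251079158840754243313494687050272319604406387196213906682328275738408217971517067453098262287294432337199105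

/-- a surface for presentation 109 -/
def rows109 : List (List (ℕ × ℕ × ℕ)) :=
  [[(6, 1, 6), (5, 2, 3), (16, 3, 1), (15, 4, 5), (24, 5, 0), (9, 6, 0), (8, 7, 7), (21, 8, 2), (12, 7, 3), (25, 5, 5)],
   [(9, 4, 7), (24, 3, 9), (15, 9, 5), (16, 8, 5), (5, 10, 3), (18, 2, 4), (7, 0, 0), (8, 5, 4)],
   [(11, 11, 3), (20, 9, 2), (27, 3, 2), (4, 0, 1), (19, 1, 5), (28, 10, 2), (1, 11, 7), (0, 10, 8)],
   [(6, 4, 6), (17, 0, 2), (26, 2, 2), (13, 9, 1), (14, 6, 5), (7, 12, 3), (8, 13, 5), (21, 14, 6), (12, 9, 6), (25, 1, 1)],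
   [(9, 5, 3), (10, 12, 6), (17, 15, 4), (26, 12, 8), (13, 5, 1), (14, 0, 3), (7, 3, 0), (8, 1, 0)],
   [(25, 0, 4), (12, 4, 4), (21, 12, 7), (8, 4, 0), (9, 1, 7), (24, 0, 9), (15, 7, 2), (16, 9, 8), (5, 14, 4), (6, 6, 1)],
   [(8, 0, 5), (7, 5, 9), (18, 14, 3), (5, 15, 6), (16, 12, 4), (15, 3, 4), (24, 9, 0), (9, 7, 0)],
   [(8, 6, 7), (7, 9, 9), (14, 5, 6), (13, 0, 8), (26, 8, 1), (17, 10, 5), (10, 8, 3), (9, 0, 6)],
   [(4, 10, 6), (27, 7, 4), (20, 0, 7), (11, 7, 6), (26, 10, 4), (17, 1, 3), (6, 9, 4), (25, 11, 1), (22, 10, 0), (29, 11, 5)],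
   [(25, 6, 6), (12, 3, 3), (21, 2, 1), (8, 11, 2), (7, 8, 6), (14, 1, 2), (13, 3, 8), (26, 14, 5), (17, 5, 7), (6, 7, 1)],
   [(23, 8, 8), (22, 11, 0), (29, 2, 5), (4, 1, 4), (27, 8, 4), (16, 7, 5), (5, 8, 0), (18, 11, 4), (1, 2, 7), (0, 11, 6)],
   [(23, 10, 1), (24, 8, 7), (9, 9, 3), (10, 2, 0), (19, 10, 7), (28, 8, 9), (1, 10, 9), (0, 2, 6)],
   [(29, 13, 2), (22, 15, 9), (25, 13, 6), (6, 3, 5), (17, 6, 4), (26, 15, 5), (11, 4, 1), (20, 5, 2), (27, 4, 3), (4, 15, 3)],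
   [(0, 14, 1), (1, 15, 0), (28, 12, 0), (19, 15, 2), (10, 14, 7), (9, 3, 6), (24, 12, 2), (23, 15, 8)],
   [(0, 15, 1), (1, 13, 0), (28, 15, 7), (19, 6, 2), (4, 5, 8), (27, 9, 7), (20, 3, 7), (11, 13, 4)],
   [(0, 13, 1), (1, 14, 0), (18, 13, 3), (5, 12, 9), (16, 4, 2), (27, 12, 5), (4, 6, 3), (29, 14, 2), (22, 13, 7), (23, 12, 1)]]

theorem sf109 : SurfFor W109 :=
  surfFor_of_table (T := T109) (lam := [0, 3, 11, 14, 12, 1, 4, 5, 9, 6, 13, 2, 10, 8, 7]) (rows := rows109)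
    (by decide +kernel) (by decide +kernel) (by decide +kernel) (by decide +kernel)

/-- the multiplication table of presentation 110 -/
def W110 : ℕ :=
  33018408234747895201934339163208812794021238474553202098396497673343338713823986901863296883182367421085481136169850930079026914773348259912748458006130771924574304994271933068239321955117786266764299151865886128081941141286111463868804173002452557998248474426814234625

/-- a surface for presentation 110 -/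
def rows110 : List (List (ℕ × ℕ × ℕ)) :=
  [[(2, 0, 5), (5, 1, 7), (14, 2, 3), (11, 3, 1), (18, 1, 0), (3, 0, 0), (6, 4, 5), (15, 5, 5), (12, 6, 8), (9, 4, 6)],
   [(19, 0, 4), (20, 3, 0), (27, 7, 3), (26, 5, 2), (5, 8, 9), (14, 9, 7), (13, 2, 4), (4, 0, 1)],
   [(4, 10, 3), (13, 11, 1), (22, 3, 2), (15, 0, 2), (12, 1, 6), (7, 9, 6), (8, 12, 9), (23, 3, 7), (10, 13, 6), (21, 14, 6)],
   [(21, 1, 1), (10, 0, 3), (23, 2, 2), (8, 11, 0), (7, 15, 3), (12, 14, 1), (15, 13, 7), (22, 2, 7), (13, 12, 8), (4, 7, 4)],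
   [(4, 16, 3), (13, 13, 1), (22, 6, 2), (15, 9, 2), (12, 5, 6), (7, 0, 6), (8, 0, 9), (23, 6, 7), (10, 15, 6), (21, 10, 6)],
   [(19, 12, 4), (20, 8, 0), (27, 1, 3), (26, 7, 2), (5, 6, 9), (14, 0, 7), (13, 4, 4), (4, 9, 1)],
   [(21, 7, 1), (10, 9, 3), (23, 4, 2), (8, 13, 0), (7, 13, 3), (12, 16, 1), (15, 15, 7), (22, 4, 7), (13, 0, 8), (4, 5, 4)],
   [(19, 9, 4), (20, 6, 0), (27, 5, 3), (26, 1, 2), (5, 3, 9), (14, 12, 7), (13, 17, 4), (4, 12, 1)],
   [(21, 5, 1), (10, 12, 3), (23, 17, 2), (8, 15, 0), (7, 11, 3), (12, 10, 1), (15, 11, 7), (22, 17, 7), (13, 9, 8), (4, 1, 4)],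
   [(2, 12, 5), (5, 5, 7), (14, 4, 3), (11, 6, 1), (18, 7, 0), (3, 12, 0), (6, 2, 5), (15, 1, 5), (12, 8, 8), (9, 17, 6)],
   [(4, 11, 8), (13, 8, 5), (14, 11, 2), (5, 2, 0), (26, 14, 5), (27, 16, 4), (20, 4, 9), (19, 15, 5)],
   [(9, 3, 3), (12, 2, 1), (15, 10, 2), (6, 8, 4), (3, 15, 9), (18, 16, 7), (11, 17, 8), (14, 8, 6), (5, 10, 0), (2, 15, 4)],
   [(2, 9, 5), (5, 7, 7), (14, 17, 3), (11, 8, 1), (18, 5, 0), (3, 9, 0), (6, 17, 5), (15, 7, 5), (12, 3, 8), (9, 2, 6)],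
   [(9, 6, 3), (12, 4, 1), (15, 16, 2), (6, 6, 4), (3, 13, 9), (18, 14, 7), (11, 2, 8), (14, 3, 6), (5, 14, 0), (2, 13, 4)],
   [(4, 13, 8), (13, 3, 5), (14, 15, 2), (5, 17, 0), (26, 16, 5), (27, 10, 4), (20, 2, 9), (19, 13, 5)],
   [(9, 8, 3), (12, 17, 1), (15, 14, 2), (6, 3, 4), (3, 11, 9), (18, 10, 7), (11, 4, 8), (14, 6, 6), (5, 16, 0), (2, 11, 4)],
   [(4, 15, 8), (13, 6, 5), (14, 13, 2), (5, 4, 0), (26, 10, 5), (27, 14, 4), (20, 17, 9), (19, 11, 5)],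
   [(4, 14, 3), (13, 15, 1), (22, 8, 2), (15, 12, 2), (12, 7, 6), (7, 12, 6), (8, 9, 9), (23, 8, 7), (10, 11, 6), (21, 16, 6)]]

theorem sf110 : SurfFor W110 :=
  surfFor_of_table (T := T110) (lam := [0, 11, 4, 13, 3, 14, 7, 10, 2, 8, 6, 12, 5, 1, 9]) (rows := rows110)
    (by decide +kernel) (by decide +kernel) (by decide +kernel) (by decide +kernel)

/-- the multiplication table of presentation 111 -/
def W111 : ℕ :=
  128978772091382023416639700154705990384624269085656429744874337446876319428023071883528380448178085598056955667300884830709456301067089030798747509926333396011942247560193530097879692211107363821278989151918615127303020394333062238730133148515874433411361108031176705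

/-- a surface for presentation 111 -/
def rows111 : List (List (ℕ × ℕ × ℕ)) :=
  [[(2, 1, 1), (3, 2, 0), (12, 3, 4), (27, 4, 6), (20, 5, 4), (25, 6, 5), (16, 1, 5), (7, 7, 6)],
   [(2, 2, 1), (3, 0, 0), (28, 7, 5), (9, 8, 0), (4, 7, 7), (17, 0, 6), (22, 6, 4), (23, 9, 3), (24, 10, 3), (7, 11, 3)],
   [(2, 0, 1), (3, 1, 0), (28, 11, 2), (1, 12, 9), (18, 6, 0), (13, 13, 1), (14, 14, 0), (19, 3, 5)],
   [(15, 4, 4), (26, 15, 4), (19, 16, 2), (14, 4, 7), (13, 0, 2), (18, 2, 7), (1, 14, 9), (0, 5, 6)],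
   [(0, 16, 1), (1, 7, 0), (18, 17, 0), (13, 15, 5), (14, 3, 0), (19, 5, 5), (26, 0, 3), (15, 3, 3)],
   [(23, 12, 1), (22, 11, 0), (29, 13, 3), (6, 6, 6), (21, 0, 4), (18, 4, 5), (1, 3, 7), (0, 14, 8)],
   [(19, 2, 4), (14, 12, 8), (17, 18, 4), (22, 9, 4), (23, 1, 6), (24, 0, 5), (7, 5, 3), (2, 13, 2)],
   [(0, 4, 1), (1, 16, 0), (28, 10, 7), (3, 19, 0), (12, 8, 1), (29, 1, 2), (6, 0, 7), (5, 1, 4), (26, 8, 7), (15, 17, 1)],
   [(8, 1, 3), (13, 7, 4), (18, 19, 7), (1, 18, 0), (28, 16, 5), (3, 20, 0), (12, 17, 2), (27, 7, 8)],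
   [(19, 13, 5), (14, 11, 8), (17, 10, 4), (22, 1, 7), (23, 6, 3), (24, 18, 3), (7, 12, 3), (2, 14, 6)],
   [(0, 17, 4), (15, 20, 6), (20, 11, 4), (25, 1, 8), (16, 9, 2), (21, 11, 7), (6, 19, 1), (29, 7, 2), (22, 16, 7), (23, 18, 8)],
   [(23, 5, 1), (22, 12, 0), (29, 2, 2), (6, 1, 9), (21, 10, 2), (16, 20, 5), (25, 19, 2), (20, 10, 5), (15, 9, 1), (0, 13, 4)],
   [(23, 11, 1), (22, 5, 0), (29, 14, 7), (6, 9, 6), (21, 18, 2), (16, 19, 5), (25, 21, 1), (20, 18, 5), (15, 6, 1), (0, 2, 3)],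
   [(27, 14, 1), (12, 2, 5), (3, 6, 7), (28, 5, 2), (1, 11, 9), (18, 9, 0), (13, 14, 5), (8, 21, 6)],
   [(15, 2, 6), (26, 13, 0), (5, 21, 5), (6, 15, 0), (29, 21, 7), (12, 13, 6), (3, 9, 7), (28, 12, 2), (1, 5, 7), (0, 3, 6)],
   [(7, 14, 3), (16, 21, 4), (25, 20, 2), (20, 16, 3), (27, 3, 1), (12, 4, 3), (3, 17, 7), (2, 21, 8)],
   [(0, 7, 1), (1, 4, 0), (18, 3, 2), (21, 15, 3), (6, 20, 1), (29, 8, 4), (22, 18, 9), (23, 10, 8)],
   [(19, 4, 2), (14, 7, 9), (13, 8, 6), (18, 20, 7), (1, 10, 0), (28, 18, 7), (3, 21, 9), (2, 15, 6)],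
   [(0, 8, 3), (15, 19, 6), (20, 12, 4), (25, 9, 5), (16, 6, 2), (21, 12, 7), (6, 21, 0), (29, 17, 5), (22, 10, 9), (23, 16, 6)],
   [(2, 7, 3), (7, 10, 6), (24, 11, 6), (23, 20, 4), (22, 21, 2), (17, 12, 5), (14, 18, 1), (19, 8, 2)],
   [(2, 8, 5), (7, 16, 4), (24, 15, 2), (23, 21, 3), (22, 19, 3), (17, 11, 5), (14, 10, 1), (19, 17, 3)],
   [(7, 18, 6), (24, 12, 6), (23, 19, 4), (22, 20, 3), (17, 15, 1), (4, 14, 2), (9, 13, 7), (28, 14, 4), (3, 15, 7), (2, 17, 6)]]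

theorem sf111 : SurfFor W111 :=
  surfFor_of_table (T := T111) (lam := [0, 3, 9, 5, 6, 12, 14, 1, 7, 4, 11, 2, 8, 13, 10]) (rows := rows111)
    (by decide +kernel) (by decide +kernel) (by decide +kernel) (by decide +kernel)

/-- the multiplication table of presentation 112 -/
def W112 : ℕ :=
  1676716164265278407287792366489319567610564712611899524407818409221981613534792341659979306176787389552636245514171205731334993795671759553814904626729023867556146464447441191312602401108598821348229152663266056749074572614469385383130104334360889861721753606772752385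

/-- a surface for presentation 112 -/
def rows112 : List (List (ℕ × ℕ × ℕ)) :=
  [[(0, 1, 1), (1, 2, 0), (18, 1, 5), (15, 3, 3), (14, 4, 4), (19, 2, 2), (22, 1, 7), (23, 2, 6)],
   [(0, 2, 1), (1, 0, 0), (18, 2, 5), (15, 5, 3), (14, 3, 4), (19, 0, 2), (22, 2, 7), (23, 0, 6)],
   [(0, 0, 1), (1, 1, 0), (18, 0, 5), (15, 4, 3), (14, 5, 4), (19, 1, 2), (22, 0, 7), (23, 1, 6)],
   [(23, 4, 1), (22, 5, 0), (19, 4, 5), (14, 0, 3), (15, 1, 4), (18, 5, 2), (1, 4, 7), (0, 5, 6)],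
   [(23, 5, 1), (22, 3, 0), (19, 5, 5), (14, 2, 3), (15, 0, 4), (18, 3, 2), (1, 5, 7), (0, 3, 6)],
   [(23, 3, 1), (22, 4, 0), (19, 3, 5), (14, 1, 3), (15, 2, 4), (18, 4, 2), (1, 3, 7), (0, 4, 6)]]

theorem sf112 : SurfFor W112 :=
  surfFor_of_table (T := T112) (lam := [0, 3, 13, 4, 11, 12, 1, 14, 9, 7, 5, 2, 6, 8, 10]) (rows := rows112)
    (by decide +kernel) (by decide +kernel) (by decide +kernel) (by decide +kernel)

/-- the multiplication table of presentation 113 -/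
def W113 : ℕ :=
  7924417967042675776913891883810783751852301332263337466166188198576990379764376909640205572894063430025209536935157779059696537320903819332401996669054884390598253589276825788046596450778779209584719336467286684201361359564905351517799203970970546208953397065551953526785

/-- a surface for presentation 113 -/
def rows113 : List (List (ℕ × ℕ × ℕ)) :=
  [[(10, 1, 3), (17, 2, 3), (26, 3, 4), (11, 4, 0), (20, 1, 7), (27, 2, 7), (16, 3, 8), (21, 4, 4), (24, 1, 9), (25, 4, 8)],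
   [(10, 4, 3), (17, 5, 3), (26, 2, 4), (11, 0, 0), (20, 4, 7), (27, 5, 7), (16, 2, 8), (21, 0, 4), (24, 4, 9), (25, 0, 8)],
   [(25, 3, 1), (24, 5, 0), (21, 3, 5), (16, 0, 1), (27, 1, 2), (20, 5, 2), (11, 3, 9), (26, 0, 5), (17, 1, 6), (10, 5, 6)],
   [(25, 5, 1), (24, 2, 0), (21, 5, 5), (16, 4, 1), (27, 0, 2), (20, 2, 2), (11, 5, 9), (26, 4, 5), (17, 0, 6), (10, 2, 6)],
   [(10, 0, 3), (17, 3, 3), (26, 5, 4), (11, 1, 0), (20, 0, 7), (27, 3, 7), (16, 5, 8), (21, 1, 4), (24, 0, 9), (25, 1, 8)],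
   [(25, 2, 1), (24, 3, 0), (21, 2, 5), (16, 1, 1), (27, 4, 2), (20, 3, 2), (11, 2, 9), (26, 1, 5), (17, 4, 6), (10, 3, 6)]]

theorem sf113 : SurfFor W113 :=
  surfFor_of_table (T := T113) (lam := [0, 2, 14, 11, 3, 1, 7, 10, 9, 4, 5, 13, 12, 8, 6]) (rows := rows113)
    (by decide +kernel) (by decide +kernel) (by decide +kernel) (by decide +kernel)

end Pool.Agent.TriSurf
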