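import Pool.Agent.TriSurf.SData
import Pool.Agent.TriSurf.PresT

/-!
# Surfaces
-/

set_option autoImplicit false
set_option maxRecDepth 100000

namespace Pool.Agent.TriSurf

/-- the multiplication table of presentation 114 -/
def W114 : ℕ :=
  24763837635793463900873380279882847054444101735368531722084143316592773791479690656900724477378722747788986393647088786803986360714594477156144696769317453725049825361294119010118927516676403820423449898527921100158646843723559629558019079932422282058659033839612985345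

/-- a surface for presentation 114 -/
def rows114 : List (List (ℕ × ℕ × ℕ)) :=
  [[(0, 1, 1), (1, 2, 0), (18, 3, 2), (7, 4, 0), (16, 5, 0), (29, 6, 1), (2, 7, 1), (15, 8, 3), (26, 9, 6), (9, 7, 4)],
   [(0, 2, 1), (1, 0, 0), (18, 7, 3), (5, 6, 9), (14, 10, 2), (15, 11, 2), (26, 12, 0), (9, 13, 4)],
   [(0, 0, 1), (1, 1, 0), (18, 13, 3), (5, 14, 0), (8, 15, 1), (19, 7, 6), (20, 9, 4), (9, 3, 3)],
   [(25, 15, 6), (12, 4, 1), (19, 0, 2), (8, 2, 7), (11, 9, 3), (10, 5, 2), (13, 4, 6), (6, 10, 6)],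
   [(6, 0, 3), (13, 3, 1), (10, 15, 5), (11, 11, 6), (8, 16, 0), (19, 10, 7), (12, 3, 6), (25, 5, 1)],
   [(17, 0, 4), (24, 4, 7), (11, 3, 5), (10, 9, 2), (13, 14, 4), (26, 17, 0), (9, 16, 3), (0, 6, 2)],
   [(21, 7, 2), (28, 0, 5), (1, 5, 7), (18, 16, 2), (5, 11, 4), (8, 10, 0), (19, 8, 5), (20, 7, 9), (3, 10, 3), (4, 1, 3)],
   [(4, 8, 4), (3, 0, 6), (20, 6, 0), (19, 1, 2), (8, 0, 9), (5, 9, 5), (18, 2, 5), (1, 15, 0), (28, 10, 4), (21, 6, 7)],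
   [(9, 12, 3), (26, 13, 7), (15, 9, 7), (14, 0, 7), (5, 7, 0), (18, 6, 6), (1, 10, 9), (0, 16, 6)],
   [(29, 17, 5), (24, 14, 5), (11, 5, 3), (10, 3, 4), (21, 2, 6), (4, 7, 5), (27, 0, 8), (14, 8, 2), (15, 13, 6), (2, 12, 6)],
   [(9, 6, 5), (26, 11, 3), (15, 1, 4), (2, 6, 8), (29, 7, 8), (16, 15, 7), (7, 3, 7), (18, 4, 5), (1, 16, 7), (0, 8, 6)],
   [(2, 13, 1), (15, 12, 1), (14, 1, 5), (27, 10, 1), (4, 6, 4), (21, 16, 1), (10, 4, 3), (11, 15, 4), (24, 17, 2), (29, 14, 2)],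
   [(27, 1, 6), (14, 11, 1), (5, 13, 0), (8, 8, 0), (19, 16, 5), (20, 17, 6), (3, 9, 9), (4, 13, 5)],
   [(4, 12, 2), (3, 11, 0), (20, 14, 1), (19, 2, 2), (8, 1, 7), (5, 12, 7), (14, 9, 8), (27, 8, 1)],
   [(4, 2, 3), (21, 13, 2), (28, 11, 9), (23, 17, 1), (12, 5, 4), (25, 9, 1), (22, 17, 4), (27, 15, 2)],
   [(0, 7, 7), (9, 2, 4), (26, 14, 7), (13, 17, 3), (10, 11, 7), (11, 4, 2), (24, 3, 0), (17, 10, 5)],
   [(9, 4, 4), (20, 11, 5), (19, 6, 3), (8, 5, 6), (5, 17, 7), (18, 12, 4), (1, 8, 7), (0, 10, 8)],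
   [(27, 5, 5), (22, 14, 3), (25, 11, 8), (12, 15, 3), (23, 14, 6), (28, 9, 0), (21, 12, 5), (4, 16, 4)]]

theorem sf114 : SurfFor W114 :=
  surfFor_of_table (T := T114) (lam := [0, 8, 14, 11, 1, 12, 9, 4, 2, 13, 6, 3, 10, 7, 5]) (rows := rows114)
    (by decide +kernel) (by decide +kernel) (by decide +kernel) (by decide +kernel)

/-- the multiplication table of presentation 115 -/
def W115 : ℕ :=
  12639859387523248089033821865303712192185863427791823548987271775186495475189032817786198945947181322995886028322905724747595871885501808084499913746629769713406971134862521938938104581808625820301256387723531493842256795145837197159068912237680932372334848431483781135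

/-- a surface for presentation 115 -/
def rows115 : List (List (ℕ × ℕ × ℕ)) :=
  [[(0, 1, 6), (15, 0, 4), (26, 2, 7), (13, 2, 8), (14, 0, 1), (19, 1, 5), (22, 3, 0), (29, 4, 7)],
   [(15, 5, 2), (26, 6, 4), (13, 7, 3), (14, 8, 4), (17, 3, 1), (18, 0, 5), (1, 0, 0), (0, 4, 6)],
   [(6, 9, 3), (5, 10, 0), (26, 11, 0), (13, 12, 6), (14, 13, 2), (17, 9, 4), (8, 2, 9), (27, 0, 2), (12, 0, 3), (9, 2, 6)],
   [(23, 0, 6), (16, 1, 4), (21, 8, 3), (4, 14, 5), (19, 15, 4), (14, 16, 7), (13, 17, 4), (2, 4, 8)],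
   [(25, 17, 8), (24, 18, 0), (23, 14, 2), (16, 19, 1), (7, 13, 5), (18, 5, 3), (1, 1, 7), (28, 0, 7), (3, 3, 7), (10, 17, 3)],
   [(2, 15, 1), (13, 6, 5), (14, 1, 0), (19, 4, 5), (4, 13, 4), (21, 12, 4), (16, 16, 3), (23, 20, 1)],
   [(29, 6, 7), (24, 15, 9), (25, 19, 6), (8, 7, 4), (27, 1, 1), (12, 5, 1), (11, 15, 0), (28, 6, 0), (1, 17, 0), (0, 17, 1)],
   [(21, 9, 6), (20, 13, 0), (27, 8, 5), (12, 1, 2), (9, 6, 3), (22, 19, 5), (19, 11, 5), (4, 21, 8)],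
   [(9, 9, 0), (12, 21, 6), (27, 14, 6), (20, 3, 2), (15, 1, 3), (26, 7, 2), (5, 13, 9), (6, 18, 4)],
   [(8, 8, 0), (17, 18, 3), (18, 10, 1), (7, 2, 0), (16, 2, 5), (21, 13, 1), (20, 7, 0), (27, 21, 7)],
   [(4, 2, 1), (19, 9, 2), (22, 18, 2), (9, 17, 6), (12, 16, 5), (27, 12, 2), (20, 14, 9), (21, 11, 1)],
   [(27, 2, 2), (20, 10, 7), (21, 14, 8), (16, 21, 4), (7, 21, 9), (18, 7, 6), (17, 19, 4), (8, 12, 7)],
   [(6, 19, 3), (5, 14, 0), (26, 10, 5), (15, 16, 4), (20, 5, 5), (27, 13, 3), (12, 2, 3), (9, 11, 7)],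
   [(21, 7, 1), (20, 9, 5), (15, 2, 4), (26, 12, 5), (5, 5, 4), (6, 4, 4), (9, 19, 0), (22, 15, 7), (19, 18, 5), (4, 8, 6)],
   [(4, 12, 1), (19, 19, 2), (22, 4, 2), (9, 18, 7), (6, 15, 5), (5, 3, 3), (26, 8, 2), (15, 21, 5), (20, 11, 2), (21, 10, 6)],
   [(10, 6, 6), (3, 5, 0), (28, 20, 0), (1, 16, 0), (18, 3, 4), (7, 14, 4), (16, 18, 6), (23, 13, 7), (24, 19, 7), (25, 6, 1)],
   [(0, 15, 3), (1, 20, 7), (18, 20, 2), (17, 5, 6), (14, 12, 3), (13, 10, 4), (26, 17, 5), (15, 3, 5)],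
   [(0, 6, 8), (1, 6, 9), (28, 17, 9), (11, 4, 9), (12, 3, 6), (27, 16, 6), (8, 10, 3), (25, 18, 1), (24, 4, 0), (29, 17, 2)],
   [(25, 4, 1), (24, 17, 7), (23, 10, 2), (16, 9, 1), (7, 8, 7), (18, 13, 8), (17, 15, 6), (8, 14, 3)],
   [(8, 13, 6), (17, 4, 3), (18, 14, 1), (7, 12, 0), (16, 11, 6), (23, 7, 5), (24, 6, 2), (25, 15, 8)],
   [(29, 15, 2), (22, 5, 7), (19, 16, 2), (14, 20, 6), (13, 21, 1), (26, 21, 2), (15, 20, 3), (0, 16, 1)],
   [(9, 21, 3), (12, 20, 4), (27, 20, 5), (8, 21, 0), (17, 11, 3), (14, 14, 7), (13, 8, 1), (26, 9, 7), (5, 7, 7), (6, 11, 4)]]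

theorem sf115 : SurfFor W115 :=
  surfFor_of_table (T := T115) (lam := [0, 6, 9, 11, 10, 3, 4, 1, 14, 7, 8, 5, 12, 13, 2]) (rows := rows115)
    (by decide +kernel) (by decide +kernel) (by decide +kernel) (by decide +kernel)

/-- the multiplication table of presentation 116 -/
def W116 : ℕ :=
  1160823093646682038541467488955984949014522711368631611371475481249519379504127000073419947580723500011002141814789446119213591400838454370380996206299540588518620334650203343845849125612611082649452641283888082173797060392759176696256522739201500637133090479652470785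

/-- a surface for presentation 116 -/
def rows116 : List (List (ℕ × ℕ × ℕ)) :=
  [[(0, 1, 1), (1, 2, 0), (28, 3, 7), (17, 4, 6), (4, 5, 2), (25, 6, 1), (16, 7, 3), (23, 8, 1), (24, 9, 6), (5, 10, 3)],
   [(0, 2, 1), (1, 0, 0), (28, 10, 2), (17, 11, 2), (4, 12, 0), (29, 10, 5), (22, 9, 4), (5, 13, 0)],
   [(0, 0, 1), (1, 1, 0), (28, 13, 7), (17, 14, 6), (4, 15, 0), (29, 6, 7), (22, 16, 4), (5, 3, 0)],
   [(4, 2, 7), (25, 16, 3), (16, 14, 3), (23, 17, 1), (24, 16, 6), (5, 6, 5), (22, 4, 7), (29, 0, 2)],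
   [(0, 14, 1), (1, 7, 0), (28, 11, 7), (17, 13, 2), (4, 9, 2), (25, 5, 3), (16, 0, 3), (23, 3, 6), (24, 6, 4), (5, 17, 3)],
   [(29, 17, 5), (22, 6, 2), (5, 0, 4), (24, 4, 5), (23, 9, 1), (16, 15, 6), (25, 11, 4), (4, 10, 0)],
   [(5, 7, 4), (24, 0, 5), (23, 5, 1), (16, 17, 4), (25, 4, 8), (4, 3, 5), (17, 16, 5), (28, 2, 5), (1, 15, 9), (0, 8, 6)],
   [(0, 4, 1), (1, 14, 0), (28, 8, 2), (17, 0, 6), (4, 6, 0), (29, 8, 5), (22, 12, 2), (5, 11, 0)],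
   [(5, 9, 7), (22, 0, 7), (29, 7, 2), (4, 14, 9), (17, 12, 3), (28, 7, 5), (1, 6, 9), (0, 15, 8)],
   [(29, 15, 7), (22, 5, 4), (5, 4, 4), (24, 13, 1), (23, 1, 6), (16, 10, 4), (25, 0, 8), (4, 8, 0)],
   [(5, 5, 7), (22, 11, 3), (29, 1, 2), (4, 0, 9), (17, 9, 5), (28, 1, 5), (1, 12, 9), (0, 17, 6)],
   [(4, 7, 7), (25, 12, 1), (16, 1, 3), (23, 10, 1), (24, 5, 6), (5, 15, 5), (22, 13, 3), (29, 4, 2)],
   [(5, 1, 4), (24, 11, 1), (23, 7, 6), (16, 8, 4), (25, 14, 8), (4, 13, 5), (17, 15, 3), (28, 16, 0), (1, 17, 7), (0, 10, 6)],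
   [(4, 1, 7), (25, 9, 3), (16, 4, 3), (23, 11, 6), (24, 15, 4), (5, 12, 5), (22, 14, 7), (29, 2, 2)],
   [(0, 7, 1), (1, 4, 0), (28, 17, 2), (17, 3, 2), (4, 16, 2), (25, 15, 1), (16, 2, 3), (23, 13, 6), (24, 12, 4), (5, 8, 3)],
   [(5, 2, 4), (24, 14, 5), (23, 16, 1), (16, 12, 6), (25, 13, 4), (4, 11, 5), (17, 5, 5), (28, 9, 0), (1, 8, 7), (0, 6, 8)],
   [(29, 12, 7), (22, 15, 2), (5, 14, 4), (24, 3, 1), (23, 2, 6), (16, 6, 6), (25, 3, 4), (4, 17, 0)],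
   [(5, 16, 7), (22, 3, 3), (29, 14, 2), (4, 4, 9), (17, 6, 3), (28, 5, 0), (1, 10, 7), (0, 12, 8)]]

theorem sf116 : SurfFor W116 :=
  surfFor_of_table (T := T116) (lam := [0, 1, 2, 12, 14, 4, 13, 11, 6, 3, 9, 5, 8, 10, 7]) (rows := rows116)
    (by decide +kernel) (by decide +kernel) (by decide +kernel) (by decide +kernel)

/-- the multiplication table of presentation 117 -/
def W117 : ℕ :=
  755731749123772757449987829744028210762819383191673428888936712822089013073815725684406787239919327063622001846435651640184453583950944435758149660971590089683817494482502458678132454277062624846683594574638621650279782195819403711600308884919170548571354571997185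

/-- a surface for presentation 117 -/
def rows117 : List (List (ℕ × ℕ × ℕ)) :=
  [[(2, 1, 5), (23, 2, 3), (12, 3, 2), (3, 4, 0), (8, 5, 6), (11, 6, 6), (18, 7, 1), (29, 8, 4), (16, 9, 4), (25, 10, 6)],
   [(2, 11, 4), (17, 12, 5), (14, 4, 7), (11, 12, 1), (8, 2, 4), (3, 0, 0), (20, 10, 5), (13, 13, 7), (16, 14, 8), (25, 15, 1)],
   [(27, 16, 4), (24, 13, 0), (21, 3, 3), (22, 0, 1), (9, 1, 4), (14, 12, 0), (11, 17, 5), (8, 16, 1)],
   [(25, 7, 6), (16, 4, 1), (13, 0, 2), (20, 2, 2), (3, 13, 9), (8, 10, 3), (11, 18, 6), (14, 14, 2), (17, 18, 2), (2, 19, 3)],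
   [(2, 0, 3), (17, 3, 1), (26, 7, 5), (19, 5, 3), (20, 19, 7), (13, 5, 9), (4, 12, 2), (15, 1, 2), (28, 12, 4), (23, 5, 7)],
   [(23, 19, 6), (28, 8, 7), (1, 19, 0), (18, 4, 3), (11, 7, 4), (14, 6, 7), (9, 0, 4), (22, 4, 9), (7, 12, 3), (12, 4, 5)],
   [(4, 7, 3), (9, 6, 4), (14, 9, 0), (11, 9, 1), (8, 6, 1), (27, 7, 2), (10, 0, 5), (15, 5, 5)],
   [(0, 8, 5), (19, 0, 6), (26, 6, 5), (5, 6, 0), (10, 5, 4), (27, 4, 2), (24, 3, 0), (21, 19, 2)],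
   [(6, 19, 5), (5, 18, 0), (10, 10, 1), (15, 9, 5), (28, 0, 7), (1, 7, 0), (18, 19, 1), (29, 5, 1)],
   [(15, 6, 2), (10, 6, 3), (5, 9, 7), (26, 10, 7), (17, 0, 8), (14, 8, 3), (9, 10, 0), (4, 9, 2)],
   [(8, 9, 6), (11, 8, 2), (14, 18, 7), (9, 3, 5), (22, 13, 8), (21, 1, 6), (24, 0, 9), (27, 9, 3)],
   [(21, 14, 5), (22, 20, 9), (7, 17, 7), (12, 12, 6), (3, 1, 0), (20, 15, 0), (19, 17, 1), (0, 20, 7)],
   [(15, 2, 5), (10, 1, 3), (5, 4, 6), (6, 5, 8), (29, 4, 8), (16, 1, 1), (13, 11, 3), (4, 17, 6)],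
   [(25, 2, 1), (16, 16, 3), (29, 17, 3), (18, 15, 6), (11, 21, 1), (8, 20, 3), (3, 14, 9), (12, 1, 7), (23, 10, 4), (2, 3, 4)],
   [(23, 20, 2), (28, 18, 3), (15, 3, 7), (4, 18, 5), (13, 20, 0), (20, 11, 0), (19, 20, 6), (26, 15, 2), (17, 1, 8), (2, 13, 6)],
   [(21, 11, 5), (24, 1, 9), (27, 14, 7), (10, 20, 5), (5, 21, 7), (26, 21, 2), (19, 13, 3), (0, 17, 2)],
   [(4, 16, 5), (9, 2, 7), (14, 17, 4), (17, 13, 1), (26, 2, 0), (5, 16, 0), (10, 21, 4), (15, 21, 5)],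
   [(29, 20, 8), (18, 11, 6), (1, 15, 7), (28, 13, 2), (15, 16, 2), (10, 2, 6), (5, 12, 7), (6, 11, 2)],
   [(4, 8, 1), (13, 19, 4), (16, 3, 8), (29, 14, 1), (6, 20, 1), (5, 14, 3), (10, 3, 6), (15, 10, 2)],
   [(0, 5, 2), (19, 8, 6), (20, 7, 7), (3, 3, 9), (12, 18, 1), (7, 8, 0), (22, 5, 0), (21, 4, 4)],
   [(12, 14, 4), (7, 18, 4), (22, 14, 0), (9, 13, 5), (14, 21, 0), (11, 15, 3), (18, 14, 6), (1, 11, 7), (28, 17, 0), (23, 11, 1)],
   [(15, 20, 4), (10, 13, 4), (27, 15, 5), (8, 21, 6), (11, 16, 6), (14, 16, 7), (9, 21, 3), (4, 15, 4)]]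

theorem sf117 : SurfFor W117 :=
  surfFor_of_table (T := T117) (lam := [0, 13, 9, 10, 7, 14, 8, 6, 4, 1, 2, 3, 5, 12, 11]) (rows := rows117)
    (by decide +kernel) (by decide +kernel) (by decide +kernel) (by decide +kernel)

/-- the multiplication table of presentation 118 -/
def W118 : ℕ :=
  7924417967073419058327853960260306212372706310183669399598165122411132149424555878638387721709920030260404669002859990495909702106147805066486795981330185899558146444711869714456468094184460024611586906056128908377511305017118902480572407222566181231491280243028891009025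

/-- a surface for presentation 118 -/
def rows118 : List (List (ℕ × ℕ × ℕ)) :=
  [[(0, 1, 1), (1, 2, 0), (18, 3, 9), (25, 4, 4), (16, 5, 2), (13, 2, 4), (20, 6, 3), (3, 7, 0)],
   [(0, 2, 1), (1, 0, 0), (18, 7, 7), (25, 8, 1), (6, 9, 6), (17, 10, 5), (10, 5, 4), (11, 4, 2), (24, 11, 0), (5, 3, 6)],
   [(0, 0, 1), (1, 1, 0), (28, 3, 5), (9, 6, 4), (12, 0, 5), (27, 5, 1), (20, 8, 6), (3, 3, 0)],
   [(2, 2, 7), (15, 8, 5), (24, 12, 4), (11, 13, 2), (10, 6, 5), (29, 2, 2), (4, 1, 9), (7, 11, 7), (14, 4, 5), (19, 0, 2)],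
   [(6, 14, 2), (17, 11, 1), (10, 1, 7), (11, 5, 3), (24, 0, 3), (15, 3, 8), (16, 11, 6), (25, 15, 1)],
   [(19, 8, 7), (26, 2, 5), (17, 0, 4), (10, 4, 3), (11, 1, 6), (24, 10, 4), (15, 16, 1), (2, 12, 0)],
   [(4, 17, 9), (7, 15, 5), (14, 7, 1), (21, 0, 6), (8, 2, 3), (11, 3, 4), (10, 13, 1), (29, 18, 2)],
   [(2, 0, 7), (15, 6, 2), (16, 15, 4), (25, 19, 2), (18, 13, 5), (21, 20, 1), (14, 8, 2), (19, 1, 2)],
   [(5, 9, 7), (24, 1, 3), (15, 7, 6), (2, 20, 0), (19, 12, 5), (14, 3, 1), (21, 2, 6), (18, 5, 0), (1, 12, 7), (0, 20, 6)],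
   [(29, 20, 5), (10, 16, 6), (11, 14, 5), (8, 21, 4), (21, 22, 1), (14, 10, 6), (7, 1, 4), (4, 8, 0)],
   [(19, 15, 7), (14, 17, 7), (21, 18, 6), (18, 16, 2), (25, 5, 5), (16, 1, 5), (15, 9, 5), (2, 22, 0)],
   [(25, 1, 8), (16, 4, 1), (15, 14, 1), (24, 22, 4), (11, 19, 4), (10, 15, 2), (17, 4, 6), (6, 3, 7)],
   [(3, 5, 7), (20, 16, 0), (13, 20, 3), (16, 13, 3), (25, 3, 2), (18, 8, 4), (1, 20, 7), (0, 8, 8)],
   [(8, 18, 3), (11, 6, 6), (10, 3, 3), (17, 12, 3), (26, 20, 2), (19, 7, 4), (14, 19, 1), (21, 23, 6)],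
   [(19, 22, 5), (14, 11, 2), (7, 4, 0), (4, 15, 0), (29, 21, 5), (10, 9, 2), (11, 16, 5), (24, 23, 3), (15, 17, 4), (2, 21, 0)],
   [(5, 14, 3), (24, 4, 7), (11, 11, 5), (10, 19, 3), (17, 7, 2), (6, 6, 1), (25, 17, 8), (18, 10, 0), (1, 22, 7), (0, 21, 6)],
   [(21, 12, 1), (14, 5, 6), (19, 10, 3), (26, 18, 5), (17, 23, 4), (10, 14, 6), (11, 9, 1), (8, 20, 4)],
   [(0, 18, 1), (1, 23, 0), (18, 19, 7), (21, 21, 1), (14, 14, 8), (19, 23, 2), (2, 18, 7), (15, 10, 1), (24, 15, 6), (5, 6, 0)],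
   [(0, 23, 1), (1, 17, 0), (28, 6, 7), (9, 13, 0), (12, 23, 5), (27, 16, 3), (20, 10, 2), (3, 17, 6)],
   [(2, 23, 7), (15, 13, 6), (24, 7, 3), (11, 15, 3), (10, 11, 4), (17, 22, 3), (26, 21, 2), (19, 17, 2)],
   [(3, 8, 3), (20, 7, 5), (27, 13, 4), (12, 12, 2), (9, 16, 7), (28, 9, 0), (1, 8, 9), (0, 12, 6)],
   [(3, 14, 9), (20, 17, 3), (27, 19, 6), (12, 22, 2), (9, 9, 3), (28, 14, 4), (1, 15, 9), (0, 22, 6)],
   [(3, 10, 7), (20, 9, 4), (13, 21, 3), (16, 19, 5), (25, 11, 3), (18, 14, 0), (1, 21, 7), (0, 15, 8)],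
   [(0, 17, 1), (1, 18, 0), (18, 17, 5), (25, 14, 7), (16, 16, 4), (13, 18, 4), (20, 13, 7), (3, 19, 0)]]

theorem sf118 : SurfFor W118 :=
  surfFor_of_table (T := T118) (lam := [0, 1, 2, 7, 3, 12, 8, 5, 9, 4, 14, 10, 11, 13, 6]) (rows := rows118)
    (by decide +kernel) (by decide +kernel) (by decide +kernel) (by decide +kernel)

/-- the multiplication table of presentation 119 -/
def W119 : ℕ :=
  8155601250204977625931533833029302993362672988346749266282045599719242374753716422079625700831054359429768525146898188266389634287728596954104477854990269247510171755282995552092491600409935698867564652343790040576817676818158257321974134909195287008607660559826945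

/-- a surface for presentation 119 -/
def rows119 : List (List (ℕ × ℕ × ℕ)) :=
  [[(4, 1, 3), (17, 0, 6), (14, 2, 6), (27, 3, 3), (18, 1, 9), (9, 2, 7), (16, 0, 1), (29, 1, 2)],
   [(10, 3, 2), (13, 1, 4), (28, 0, 7), (5, 0, 0), (12, 1, 1), (15, 3, 1), (20, 4, 7), (21, 5, 6), (26, 2, 0), (19, 0, 4)],
   [(27, 1, 8), (14, 5, 5), (11, 5, 0), (26, 6, 3), (21, 7, 5), (20, 3, 4), (15, 0, 2), (8, 0, 5)],
   [(27, 4, 8), (14, 1, 5), (11, 1, 0), (26, 0, 3), (21, 2, 5), (20, 7, 4), (15, 8, 2), (8, 8, 5)],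
   [(10, 7, 2), (13, 4, 4), (28, 8, 7), (5, 8, 0), (12, 4, 1), (15, 7, 1), (20, 5, 7), (21, 1, 6), (26, 3, 0), (19, 8, 4)],
   [(10, 2, 2), (13, 5, 4), (28, 6, 7), (5, 6, 0), (12, 5, 1), (15, 2, 1), (20, 1, 7), (21, 4, 6), (26, 7, 0), (19, 6, 4)],
   [(4, 5, 3), (17, 6, 6), (14, 7, 6), (27, 2, 3), (18, 5, 9), (9, 7, 7), (16, 6, 1), (29, 5, 2)],
   [(27, 5, 8), (14, 4, 5), (11, 4, 0), (26, 8, 3), (21, 3, 5), (20, 2, 4), (15, 6, 2), (8, 6, 5)],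
   [(4, 4, 3), (17, 8, 6), (14, 3, 6), (27, 7, 3), (18, 4, 9), (9, 3, 7), (16, 8, 1), (29, 4, 2)]]

theorem sf119 : SurfFor W119 :=
  surfFor_of_table (T := T119) (lam := [0, 10, 3, 2, 11, 4, 6, 13, 7, 9, 1, 12, 5, 14, 8]) (rows := rows119)
    (by decide +kernel) (by decide +kernel) (by decide +kernel) (by decide +kernel)

/-- the multiplication table of presentation 120 -/
def W120 : ℕ :=
  1584883593414711589706934640656866704432908919677516806369696513701534382283365165072114085251483021952672700528789982755324848029181220371285565262700048021938311872094775612640749929616092921326290651162881843022553318174838540048454746204549469240097538050998826696705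

/-- a surface for presentation 120 -/
def rows120 : List (List (ℕ × ℕ × ℕ)) :=
  [[(8, 1, 4), (13, 2, 3), (20, 3, 6), (9, 1, 7), (16, 4, 3), (19, 5, 6), (18, 6, 5), (23, 7, 2)],
   [(23, 3, 5), (18, 8, 2), (19, 9, 1), (16, 2, 4), (9, 0, 0), (20, 7, 1), (13, 4, 4), (8, 0, 3)],
   [(29, 7, 6), (28, 10, 7), (5, 3, 7), (12, 0, 1), (17, 1, 3), (22, 9, 0), (21, 6, 2), (4, 11, 2)],
   [(29, 10, 6), (28, 4, 7), (5, 11, 7), (12, 5, 1), (17, 8, 3), (22, 1, 0), (21, 0, 2), (4, 2, 2)],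
   [(4, 10, 5), (21, 8, 5), (22, 5, 7), (17, 0, 4), (12, 1, 6), (5, 7, 0), (28, 11, 0), (29, 3, 1)],
   [(8, 8, 4), (13, 3, 3), (20, 11, 6), (9, 8, 7), (16, 10, 3), (19, 6, 6), (18, 0, 5), (23, 4, 2)],
   [(8, 9, 4), (13, 11, 3), (20, 2, 6), (9, 9, 7), (16, 7, 3), (19, 0, 6), (18, 5, 5), (23, 10, 2)],
   [(4, 4, 5), (21, 1, 5), (22, 0, 7), (17, 6, 4), (12, 9, 6), (5, 10, 0), (28, 2, 0), (29, 11, 1)],
   [(23, 11, 5), (18, 9, 2), (19, 1, 1), (16, 3, 4), (9, 5, 0), (20, 4, 1), (13, 10, 4), (8, 5, 3)],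
   [(23, 2, 5), (18, 1, 2), (19, 8, 1), (16, 11, 4), (9, 6, 0), (20, 10, 1), (13, 7, 4), (8, 6, 3)],
   [(4, 7, 5), (21, 9, 5), (22, 6, 7), (17, 5, 4), (12, 8, 6), (5, 4, 0), (28, 3, 0), (29, 2, 1)],
   [(29, 4, 6), (28, 7, 7), (5, 2, 7), (12, 6, 1), (17, 9, 3), (22, 8, 0), (21, 5, 2), (4, 3, 2)]]

theorem sf120 : SurfFor W120 :=
  surfFor_of_table (T := T120) (lam := [0, 12, 3, 2, 8, 1, 13, 9, 10, 11, 7, 14, 5, 4, 6]) (rows := rows120)
    (by decide +kernel) (by decide +kernel) (by decide +kernel) (by decide +kernel)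

end Pool.Agent.TriSurf
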