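import Pool.Agent.TriSurf.SData
import Pool.Agent.TriSurf.PresT

/-!
# Surfaces
-/

set_option autoImplicit false
set_option maxRecDepth 100000

namespace Pool.Agent.TriSurf

/-- the multiplication table of presentation 121 -/
def W121 : ℕ :=
  165148468923589696998624194251562866557216624645130997190300943721068816879110919639355166097549079955301329942257073809503278797828217499738200278435427336717942484666807486527065920271263383168452990600346768369143734105062074951605065541136876284185729591281335664655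

/-- a surface for presentation 121 -/
def rows121 : List (List (ℕ × ℕ × ℕ)) :=
  [[(0, 1, 6), (1, 1, 7), (28, 0, 7), (13, 2, 4), (12, 3, 3), (21, 3, 6), (20, 2, 5), (29, 0, 2)],
   [(29, 1, 5), (20, 4, 2), (21, 5, 1), (12, 5, 4), (13, 4, 3), (28, 1, 0), (1, 0, 0), (0, 0, 1)],
   [(0, 4, 6), (1, 4, 7), (28, 2, 7), (13, 3, 4), (12, 0, 3), (21, 0, 6), (20, 3, 5), (29, 2, 2)],
   [(0, 5, 6), (1, 5, 7), (28, 3, 7), (13, 0, 4), (12, 2, 3), (21, 2, 6), (20, 0, 5), (29, 3, 2)],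
   [(29, 4, 5), (20, 5, 2), (21, 1, 1), (12, 1, 4), (13, 5, 3), (28, 4, 0), (1, 2, 0), (0, 2, 1)],
   [(29, 5, 5), (20, 1, 2), (21, 4, 1), (12, 4, 4), (13, 1, 3), (28, 5, 0), (1, 3, 0), (0, 3, 1)]]

theorem sf121 : SurfFor W121 :=
  surfFor_of_table (T := T121) (lam := [0, 2, 8, 7, 6, 4, 3, 12, 11, 5, 13, 10, 9, 14, 1]) (rows := rows121)
    (by decide +kernel) (by decide +kernel) (by decide +kernel) (by decide +kernel)

/-- the multiplication table of presentation 122 -/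
def W122 : ℕ :=
  33018408226789927277561556282936187711129322273519183907823022565686879361040554996871935747166090569236444653151670574524009079733715304981357562785820568775232889197758893056416942310240327048657831850404140233476813124645262018326468812557782557868909235735252434945

/-- a surface for presentation 122 -/
def rows122 : List (List (ℕ × ℕ × ℕ)) :=
  [[(4, 1, 2), (3, 2, 7), (28, 2, 2), (1, 3, 7), (18, 1, 4), (23, 4, 8), (8, 5, 1), (9, 4, 4), (20, 6, 0), (5, 4, 0)],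
   [(27, 3, 1), (20, 2, 0), (5, 0, 0), (16, 4, 9), (19, 0, 4), (24, 3, 6), (25, 7, 5), (0, 5, 5)],
   [(21, 1, 1), (26, 3, 0), (29, 0, 2), (6, 2, 6), (13, 8, 2), (12, 8, 3), (7, 2, 3), (2, 0, 1)],
   [(27, 2, 1), (26, 1, 0), (29, 5, 4), (10, 9, 3), (15, 10, 0), (24, 7, 6), (25, 1, 5), (0, 0, 3)],
   [(4, 0, 9), (3, 6, 9), (10, 10, 7), (15, 6, 1), (8, 0, 7), (9, 5, 0), (12, 9, 5), (13, 5, 2), (22, 0, 5), (17, 1, 3)],
   [(8, 4, 5), (9, 0, 6), (12, 4, 7), (7, 9, 4), (28, 3, 2), (1, 1, 7), (18, 7, 4), (23, 9, 6)],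
   [(21, 0, 8), (14, 4, 3), (17, 10, 6), (22, 11, 0), (13, 12, 3), (6, 11, 4), (11, 13, 4), (16, 7, 8), (19, 10, 8), (2, 4, 1)],
   [(23, 10, 2), (18, 9, 1), (11, 12, 7), (16, 9, 7), (19, 5, 6), (24, 1, 6), (25, 3, 5), (22, 10, 9), (17, 6, 7), (14, 13, 3)],
   [(2, 14, 8), (7, 8, 4), (12, 2, 4), (13, 2, 5), (6, 8, 1), (29, 14, 7), (26, 13, 7), (21, 15, 6)],
   [(2, 12, 8), (19, 7, 1), (16, 10, 1), (11, 3, 3), (6, 5, 3), (13, 4, 6), (22, 5, 7), (17, 7, 3), (14, 12, 6), (21, 14, 1)],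
   [(14, 3, 4), (17, 9, 2), (22, 7, 0), (25, 13, 2), (24, 15, 1), (19, 11, 1), (16, 6, 2), (11, 4, 2), (18, 6, 8), (23, 7, 7)],
   [(23, 6, 3), (18, 10, 5), (1, 15, 0), (28, 13, 5), (7, 6, 5), (12, 12, 2), (9, 14, 3), (8, 12, 4)],
   [(17, 15, 4), (22, 14, 4), (13, 11, 5), (12, 6, 4), (9, 11, 7), (8, 14, 2), (15, 9, 8), (10, 7, 2), (3, 9, 0), (4, 14, 0)],
   [(0, 14, 6), (25, 15, 2), (24, 10, 3), (15, 7, 9), (10, 6, 6), (29, 11, 3), (26, 15, 7), (27, 8, 6)],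
   [(5, 12, 9), (20, 9, 9), (9, 12, 5), (8, 11, 6), (23, 12, 1), (18, 15, 3), (1, 13, 0), (28, 8, 5), (3, 8, 0), (4, 15, 5)],
   [(0, 11, 2), (25, 10, 4), (24, 13, 1), (19, 14, 5), (16, 12, 0), (5, 14, 9), (20, 8, 7), (27, 13, 6)]]

theorem sf122 : SurfFor W122 :=
  surfFor_of_table (T := T122) (lam := [0, 6, 8, 3, 13, 11, 10, 12, 7, 5, 4, 14, 2, 1, 9]) (rows := rows122)
    (by decide +kernel) (by decide +kernel) (by decide +kernel) (by decide +kernel)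

/-- the multiplication table of presentation 123 -/
def W123 : ℕ :=
  1160825061697174009441716849455130515462457191482047759565897792491648108653672556338595232892590196352332071912007574428250506989302354028064336450631582885542061277244494713457068377088775571992872009800950080800825799970519072321729283655886326913929783380598063105

/-- a surface for presentation 123 -/
def rows123 : List (List (ℕ × ℕ × ℕ)) :=
  [[(8, 1, 5), (3, 2, 0), (24, 3, 4), (5, 4, 0), (22, 5, 0), (11, 6, 5), (12, 7, 5), (13, 8, 6)],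
   [(2, 9, 4), (7, 10, 0), (26, 7, 9), (27, 11, 6), (6, 2, 1), (9, 0, 0), (16, 8, 5), (23, 12, 2)],
   [(2, 0, 1), (7, 1, 4), (14, 11, 5), (29, 13, 7), (22, 14, 0), (11, 15, 2), (12, 4, 5), (17, 3, 5)],
   [(11, 13, 9), (12, 11, 3), (13, 16, 9), (20, 4, 1), (25, 0, 2), (16, 2, 7), (9, 4, 4), (6, 17, 6)],
   [(4, 0, 3), (21, 3, 3), (10, 16, 8), (3, 17, 7), (8, 3, 6), (13, 2, 6), (20, 15, 1), (25, 5, 1)],
   [(23, 0, 4), (24, 4, 7), (5, 15, 0), (22, 18, 2), (29, 14, 7), (14, 12, 7), (7, 14, 3), (2, 6, 6)],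
   [(13, 13, 5), (12, 19, 0), (17, 17, 1), (28, 16, 6), (21, 7, 6), (10, 0, 5), (3, 5, 7), (8, 14, 2)],
   [(10, 10, 7), (21, 20, 3), (28, 21, 4), (17, 22, 8), (12, 8, 7), (13, 0, 6), (20, 6, 4), (15, 16, 5), (26, 11, 7), (27, 1, 2)],
   [(8, 22, 7), (3, 23, 0), (10, 19, 2), (21, 13, 3), (28, 12, 3), (17, 1, 6), (12, 0, 7), (13, 7, 4)],
   [(25, 23, 6), (20, 18, 6), (13, 21, 1), (8, 10, 1), (3, 1, 0), (10, 12, 1), (21, 10, 4), (4, 19, 4)],
   [(6, 1, 1), (9, 9, 3), (16, 21, 0), (25, 19, 5), (20, 9, 6), (13, 12, 0), (12, 20, 4), (11, 7, 0)],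
   [(6, 16, 4), (11, 22, 4), (12, 16, 0), (13, 3, 1), (20, 13, 8), (15, 2, 2), (26, 1, 3), (27, 7, 8)],
   [(12, 10, 5), (11, 9, 5), (22, 1, 7), (29, 8, 4), (14, 13, 2), (7, 20, 7), (26, 14, 4), (15, 5, 5), (20, 14, 6), (13, 20, 5)],
   [(27, 17, 5), (26, 20, 0), (15, 12, 4), (20, 8, 3), (13, 19, 1), (12, 6, 0), (17, 14, 1), (28, 2, 3), (21, 11, 4), (10, 3, 0)],
   [(23, 2, 4), (16, 13, 6), (9, 6, 7), (6, 5, 6), (27, 12, 6), (10, 20, 6), (21, 12, 8), (28, 5, 4), (17, 18, 1), (2, 15, 3)],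
   [(4, 5, 2), (21, 4, 6), (10, 2, 5), (3, 14, 9), (24, 18, 0), (23, 23, 4), (16, 22, 1), (25, 18, 3)],
   [(13, 11, 2), (20, 22, 3), (15, 23, 2), (26, 22, 5), (7, 11, 0), (14, 7, 7), (29, 6, 3), (22, 17, 0), (11, 4, 2), (12, 3, 2)],
   [(23, 16, 7), (16, 6, 2), (9, 19, 7), (6, 21, 6), (27, 20, 1), (26, 13, 0), (7, 3, 7), (2, 4, 3)],
   [(25, 15, 4), (16, 14, 8), (23, 5, 3), (24, 15, 7), (3, 22, 0), (10, 21, 2), (21, 9, 1), (4, 23, 5)],
   [(13, 6, 1), (12, 13, 4), (11, 8, 2), (22, 23, 7), (5, 9, 7), (24, 10, 3), (3, 21, 7), (8, 17, 2)],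
   [(27, 13, 1), (26, 17, 4), (15, 21, 5), (20, 7, 1), (13, 10, 6), (12, 12, 9), (11, 14, 5), (6, 12, 5)],
   [(17, 10, 2), (12, 9, 2), (11, 18, 5), (22, 22, 9), (29, 7, 2), (14, 20, 2), (7, 17, 3), (2, 19, 6)],
   [(2, 18, 4), (17, 15, 6), (28, 23, 3), (21, 16, 1), (10, 11, 1), (27, 16, 3), (6, 23, 1), (9, 8, 0), (16, 7, 3), (23, 21, 3)],
   [(2, 8, 1), (7, 22, 6), (14, 16, 2), (29, 22, 2), (22, 15, 5), (5, 18, 7), (24, 9, 0), (23, 19, 3)]]

theorem sf123 : SurfFor W123 :=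
  surfFor_of_table (T := T123) (lam := [0, 12, 2, 4, 11, 10, 13, 1, 3, 14, 6, 5, 8, 9, 7]) (rows := rows123)
    (by decide +kernel) (by decide +kernel) (by decide +kernel) (by decide +kernel)

/-- the multiplication table of presentation 124 -/
def W124 : ℕ :=
  1418773503526293874185804827768464510016488965286137609675742167446731998394739991352549546657894388723757919168182027101465256588308240793243415254821123415589566181955554186108754567738839171015993824243100268434350293945601411971281455047259368497166284356583424010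

/-- a surface for presentation 124 -/
def rows124 : List (List (ℕ × ℕ × ℕ)) :=
  [[(0, 1, 5), (1, 2, 9), (28, 3, 7), (13, 4, 1), (10, 5, 1), (25, 2, 1), (8, 1, 3), (15, 5, 4), (20, 6, 5), (5, 7, 0)],
   [(2, 8, 3), (7, 9, 4), (16, 5, 5), (9, 0, 6), (18, 2, 0), (1, 0, 0), (28, 7, 9), (21, 10, 6)],
   [(19, 1, 4), (24, 0, 5), (7, 5, 0), (2, 4, 6), (21, 11, 1), (12, 12, 8), (15, 13, 6), (20, 9, 7), (5, 3, 0), (0, 0, 1)],
   [(4, 2, 8), (13, 9, 6), (10, 8, 1), (25, 14, 1), (8, 12, 4), (17, 15, 5), (14, 4, 2), (29, 0, 2)],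
   [(27, 5, 2), (12, 0, 3), (15, 3, 6), (8, 15, 4), (17, 16, 5), (14, 11, 2), (3, 2, 3), (26, 5, 9), (11, 11, 5), (6, 6, 7)],
   [(6, 2, 2), (11, 0, 4), (26, 4, 0), (3, 6, 6), (14, 0, 7), (17, 1, 2), (8, 9, 3), (15, 17, 1), (12, 11, 6), (27, 4, 7)],
   [(0, 11, 8), (5, 17, 7), (20, 15, 0), (15, 18, 1), (12, 7, 1), (21, 0, 8), (2, 5, 3), (7, 4, 9), (24, 11, 4), (19, 16, 3)],
   [(4, 0, 9), (13, 6, 4), (28, 18, 0), (1, 19, 9), (18, 20, 9), (9, 17, 3), (6, 9, 1), (27, 13, 4), (22, 10, 7), (29, 1, 6)],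
   [(6, 14, 2), (11, 3, 2), (26, 9, 5), (3, 1, 0), (14, 10, 5), (29, 21, 5), (22, 13, 1), (27, 22, 8)],
   [(2, 13, 5), (7, 7, 6), (16, 17, 2), (9, 5, 6), (6, 1, 1), (27, 8, 2), (12, 3, 1), (21, 2, 7)],
   [(4, 13, 3), (13, 21, 3), (28, 23, 2), (21, 18, 5), (12, 21, 6), (15, 8, 4), (20, 1, 7), (23, 7, 8)],
   [(5, 12, 9), (20, 2, 4), (15, 4, 5), (8, 16, 4), (25, 6, 8), (10, 4, 8), (13, 5, 8), (28, 17, 0), (1, 6, 0), (0, 16, 2)],
   [(29, 16, 1), (22, 21, 0), (27, 18, 3), (6, 15, 6), (9, 3, 4), (18, 14, 0), (1, 22, 0), (28, 13, 7), (13, 2, 5), (4, 11, 0)],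
   [(4, 22, 9), (23, 8, 6), (20, 21, 4), (5, 10, 0), (26, 7, 7), (3, 9, 0), (14, 2, 6), (29, 12, 7)],
   [(19, 12, 5), (24, 3, 3), (7, 8, 0), (2, 22, 7), (21, 20, 2), (12, 22, 3), (15, 19, 3), (20, 20, 5), (5, 19, 5), (0, 22, 1)],
   [(21, 6, 2), (12, 17, 6), (27, 23, 5), (6, 16, 6), (9, 4, 3), (16, 3, 5), (7, 12, 3), (2, 18, 2)],
   [(21, 21, 1), (28, 12, 0), (1, 11, 9), (18, 6, 9), (9, 11, 3), (16, 4, 4), (7, 15, 3), (2, 23, 4)],
   [(29, 11, 7), (14, 5, 7), (17, 9, 2), (8, 7, 5), (25, 20, 8), (10, 23, 6), (13, 15, 1), (4, 6, 1)],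
   [(29, 7, 2), (14, 6, 3), (3, 15, 7), (26, 12, 2), (5, 21, 7), (20, 10, 3), (23, 23, 1), (4, 19, 0)],
   [(5, 18, 7), (26, 23, 0), (3, 20, 6), (14, 14, 6), (29, 22, 2), (4, 14, 8), (13, 20, 4), (28, 22, 5), (1, 20, 0), (0, 7, 3)],
   [(0, 19, 8), (5, 22, 4), (20, 14, 4), (15, 22, 6), (12, 19, 6), (21, 14, 7), (2, 19, 2), (7, 23, 7), (24, 17, 4), (19, 7, 4)],
   [(23, 12, 1), (20, 16, 0), (15, 23, 3), (12, 10, 1), (21, 13, 2), (28, 8, 5), (13, 10, 4), (4, 18, 4)],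
   [(0, 12, 6), (1, 14, 9), (28, 19, 4), (13, 14, 5), (4, 20, 1), (29, 19, 7), (14, 20, 3), (3, 14, 3), (26, 8, 7), (5, 13, 0)],
   [(27, 19, 1), (22, 18, 6), (29, 10, 2), (14, 21, 2), (3, 16, 7), (26, 15, 2), (11, 17, 5), (6, 20, 7)]]

theorem sf124 : SurfFor W124 :=
  surfFor_of_table (T := T124) (lam := [0, 4, 1, 5, 11, 9, 6, 13, 14, 2, 3, 8, 12, 10, 7]) (rows := rows124)
    (by decide +kernel) (by decide +kernel) (by decide +kernel) (by decide +kernel)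

/-- the multiplication table of presentation 125 -/
def W125 : ℕ :=
  33018408257690866544921702429497472785942455895447180703317539450637355039635618456013552417219677055229065281950218153376698006503498449854103151677273626346977085622732775493808155701607558603528501275157219342717920318739511792100562452728266313555132062877922361345

/-- a surface for presentation 125 -/
def rows125 : List (List (ℕ × ℕ × ℕ)) :=
  [[(6, 1, 4), (23, 1, 7), (18, 2, 7), (11, 1, 1), (8, 3, 5), (17, 4, 2), (10, 5, 5), (29, 6, 4)],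
   [(15, 3, 6), (10, 0, 3), (17, 2, 6), (8, 1, 8), (7, 0, 0), (12, 6, 3), (3, 2, 0), (22, 0, 1), (9, 1, 3), (4, 2, 5)],
   [(2, 1, 6), (13, 6, 2), (12, 7, 6), (7, 8, 7), (20, 3, 7), (5, 1, 9), (16, 1, 2), (19, 0, 2)],
   [(2, 8, 6), (13, 9, 5), (28, 6, 7), (15, 10, 1), (4, 4, 3), (9, 0, 4), (14, 1, 0), (21, 2, 4)],
   [(2, 11, 6), (19, 5, 6), (16, 0, 5), (5, 3, 4), (20, 10, 0), (7, 5, 0), (8, 11, 4), (11, 8, 1), (14, 7, 4), (21, 10, 5)],
   [(6, 4, 5), (3, 10, 9), (22, 11, 0), (9, 10, 3), (14, 6, 5), (11, 0, 6), (18, 4, 1), (23, 11, 5)],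
   [(6, 9, 4), (3, 7, 7), (12, 2, 1), (13, 1, 5), (28, 0, 7), (15, 5, 4), (10, 10, 2), (29, 3, 2)],
   [(21, 9, 3), (14, 12, 9), (9, 13, 3), (4, 10, 6), (15, 4, 8), (28, 8, 0), (13, 2, 2), (2, 6, 1)],
   [(29, 7, 5), (10, 4, 7), (15, 11, 3), (28, 13, 0), (13, 12, 4), (12, 9, 6), (3, 3, 0), (6, 2, 3)],
   [(19, 13, 5), (16, 12, 7), (5, 12, 0), (20, 7, 0), (7, 6, 0), (12, 3, 1), (13, 8, 5), (2, 12, 3)],
   [(21, 4, 4), (14, 3, 3), (11, 6, 6), (8, 5, 3), (7, 11, 7), (20, 4, 9), (5, 7, 3), (16, 13, 2), (19, 11, 1), (2, 5, 1)],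
   [(23, 5, 2), (18, 10, 8), (11, 13, 1), (14, 8, 2), (9, 4, 6), (22, 5, 7), (3, 4, 0), (6, 10, 4)],
   [(4, 9, 2), (9, 12, 6), (22, 13, 6), (3, 9, 7), (12, 8, 4), (7, 13, 7), (8, 12, 1), (17, 9, 1), (10, 13, 4), (15, 7, 1)],
   [(29, 8, 3), (10, 11, 2), (17, 10, 7), (8, 7, 2), (11, 12, 8), (18, 9, 0), (23, 12, 2), (6, 12, 5)]]

theorem sf125 : SurfFor W125 :=
  surfFor_of_table (T := T125) (lam := [0, 10, 8, 13, 7, 14, 3, 6, 12, 5, 4, 11, 2, 1, 9]) (rows := rows125)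
    (by decide +kernel) (by decide +kernel) (by decide +kernel) (by decide +kernel)

/-- the multiplication table of presentation 126 -/
def W126 : ℕ :=
  4127301071104049439458488843285362279860683883734516854401347706002997223194620215850106431630748555263932756055148780010813015941482081127869702356132814381638957650420123507501597538932853621336269055809497453144174285657244836832721306868139009530851859652006641665

/-- a surface for presentation 126 -/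
def rows126 : List (List (ℕ × ℕ × ℕ)) :=
  [[(2, 1, 1), (3, 2, 0), (28, 0, 5), (11, 3, 3), (10, 3, 4), (29, 0, 2), (24, 2, 7), (25, 1, 6)],
   [(2, 2, 1), (3, 0, 0), (28, 1, 5), (11, 4, 3), (10, 4, 4), (29, 1, 2), (24, 0, 7), (25, 2, 6)],
   [(2, 0, 1), (3, 1, 0), (28, 2, 5), (11, 5, 3), (10, 5, 4), (29, 2, 2), (24, 1, 7), (25, 0, 6)],
   [(25, 5, 1), (24, 4, 0), (29, 3, 5), (10, 0, 3), (11, 0, 4), (28, 3, 2), (3, 4, 7), (2, 5, 6)],
   [(25, 3, 1), (24, 5, 0), (29, 4, 5), (10, 1, 3), (11, 1, 4), (28, 4, 2), (3, 5, 7), (2, 3, 6)],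
   [(25, 4, 1), (24, 3, 0), (29, 5, 5), (10, 2, 3), (11, 2, 4), (28, 5, 2), (3, 3, 7), (2, 4, 6)]]

theorem sf126 : SurfFor W126 :=
  surfFor_of_table (T := T126) (lam := [0, 3, 7, 11, 2, 6, 1, 9, 14, 10, 13, 8, 5, 4, 12]) (rows := rows126)
    (by decide +kernel) (by decide +kernel) (by decide +kernel) (by decide +kernel)

/-- the multiplication table of presentation 127 -/
def W127 : ℕ :=
  112887376200224285636721062241525594653819822684678254814343931110164693555241105271682866097930395065189911186179422486518622210642351277979327577004564051403631077365158087692929168948866939027328567759599936598535931928401661631531118693508102491237705842167906305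

/-- a surface for presentation 127 -/
def rows127 : List (List (ℕ × ℕ × ℕ)) :=
  [[(6, 1, 1), (7, 2, 0), (12, 0, 5), (19, 3, 1), (8, 3, 2), (13, 0, 2), (10, 2, 7), (11, 1, 6)],
   [(6, 2, 1), (7, 0, 0), (12, 1, 5), (19, 4, 1), (8, 4, 2), (13, 1, 2), (10, 0, 7), (11, 2, 6)],
   [(6, 0, 1), (7, 1, 0), (12, 2, 5), (19, 5, 1), (8, 5, 2), (13, 2, 2), (10, 1, 7), (11, 0, 6)],
   [(15, 3, 3), (18, 0, 3), (9, 0, 4), (14, 3, 0), (23, 5, 5), (22, 4, 4), (7, 4, 7), (6, 5, 6)],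
   [(15, 4, 3), (18, 1, 3), (9, 1, 4), (14, 4, 0), (23, 3, 5), (22, 5, 4), (7, 5, 7), (6, 3, 6)],
   [(15, 5, 3), (18, 2, 3), (9, 2, 4), (14, 5, 0), (23, 4, 5), (22, 3, 4), (7, 3, 7), (6, 4, 6)]]

theorem sf127 : SurfFor W127 :=
  surfFor_of_table (T := T127) (lam := [0, 6, 5, 10, 14, 9, 12, 11, 2, 13, 1, 7, 4, 3, 8]) (rows := rows127)
    (by decide +kernel) (by decide +kernel) (by decide +kernel) (by decide +kernel)

end Pool.Agent.TriSurf
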