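import Pool.Agent.TriSurf.SData
import Pool.Agent.TriSurf.PresT

/-!
# Surfaces
-/

set_option autoImplicit false
set_option maxRecDepth 100000

namespace Pool.Agent.TriSurf

/-- the multiplication table of presentation 128 -/
def W128 : ℕ :=
  33018420004282966072826689640018280492008319365838374175034004216461452150761786030111416254246865333168585536527000416417526684722278221130025995686406606894811931726968948925634020586322637568949989523664384686838590113789240412134646456954575054147014185653081473025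

/-- a surface for presentation 128 -/
def rows128 : List (List (ℕ × ℕ × ℕ)) :=
  [[(0, 1, 1), (1, 2, 0), (18, 2, 3), (19, 1, 2), (6, 0, 7), (23, 3, 1), (22, 3, 2), (7, 0, 4)],
   [(0, 2, 1), (1, 0, 0), (18, 0, 3), (19, 2, 2), (6, 1, 7), (23, 4, 1), (22, 4, 2), (7, 1, 4)],
   [(0, 0, 1), (1, 1, 0), (18, 1, 3), (19, 0, 2), (6, 2, 7), (23, 5, 1), (22, 5, 2), (7, 2, 4)],
   [(7, 3, 3), (22, 0, 5), (23, 0, 6), (6, 3, 0), (19, 5, 5), (18, 4, 4), (1, 4, 7), (0, 5, 6)],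
   [(7, 4, 3), (22, 1, 5), (23, 1, 6), (6, 4, 0), (19, 3, 5), (18, 5, 4), (1, 5, 7), (0, 3, 6)],
   [(7, 5, 3), (22, 2, 5), (23, 2, 6), (6, 5, 0), (19, 4, 5), (18, 3, 4), (1, 3, 7), (0, 4, 6)]]

theorem sf128 : SurfFor W128 :=
  surfFor_of_table (T := T128) (lam := [0, 14, 7, 2, 12, 3, 8, 6, 5, 11, 9, 10, 13, 1, 4]) (rows := rows128)
    (by decide +kernel) (by decide +kernel) (by decide +kernel) (by decide +kernel)

/-- the multiplication table of presentation 129 -/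
def W129 : ℕ :=
  12510881230507770800015313660947879148733716383925722126620809604730345275991223980021979048685368174226483717064074890801463212026134409546687208483221820941527823529328565672601948460550494850270203726184701321314342672099050925646209435523926103692352135795262357505

/-- a surface for presentation 129 -/
def rows129 : List (List (ℕ × ℕ × ℕ)) :=
  [[(0, 1, 1), (1, 2, 0), (18, 3, 0), (9, 4, 0), (6, 5, 1), (13, 6, 5), (10, 7, 2), (25, 1, 8), (24, 2, 7), (29, 8, 1)],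
   [(0, 2, 1), (1, 0, 0), (18, 8, 0), (9, 9, 0), (6, 10, 1), (13, 11, 5), (10, 3, 2), (25, 2, 8), (24, 0, 7), (29, 7, 1)],
   [(0, 0, 1), (1, 1, 0), (18, 7, 0), (9, 12, 0), (6, 13, 1), (13, 14, 5), (10, 8, 2), (25, 0, 8), (24, 1, 7), (29, 3, 1)],
   [(19, 0, 2), (28, 2, 9), (11, 1, 6), (4, 11, 4), (21, 8, 5), (20, 7, 4), (23, 6, 3), (26, 11, 0), (7, 15, 5), (2, 4, 1)],
   [(8, 0, 3), (3, 3, 9), (12, 15, 4), (5, 5, 6), (22, 10, 3), (15, 9, 6), (14, 12, 5), (27, 5, 2)],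
   [(2, 6, 6), (7, 0, 4), (26, 4, 7), (23, 12, 4), (20, 13, 5), (21, 10, 4), (4, 4, 3), (11, 15, 3), (28, 16, 0), (19, 17, 7)],
   [(27, 7, 7), (14, 14, 2), (15, 11, 1), (22, 3, 6), (5, 7, 3), (12, 0, 5), (3, 5, 0), (8, 17, 6)],
   [(19, 2, 2), (28, 1, 9), (11, 0, 6), (4, 6, 4), (21, 3, 5), (20, 8, 4), (23, 14, 3), (26, 6, 0), (7, 17, 5), (2, 12, 1)],
   [(19, 1, 2), (28, 0, 9), (11, 2, 6), (4, 14, 4), (21, 7, 5), (20, 3, 4), (23, 11, 3), (26, 14, 0), (7, 16, 5), (2, 9, 1)],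
   [(8, 1, 3), (3, 8, 9), (12, 16, 4), (5, 10, 6), (22, 13, 3), (15, 12, 6), (14, 4, 5), (27, 10, 2)],
   [(2, 11, 6), (7, 1, 4), (26, 9, 7), (23, 4, 4), (20, 5, 5), (21, 13, 4), (4, 9, 3), (11, 16, 3), (28, 17, 0), (19, 15, 7)],
   [(27, 3, 7), (14, 6, 2), (15, 14, 1), (22, 8, 6), (5, 3, 3), (12, 1, 5), (3, 10, 0), (8, 15, 6)],
   [(8, 2, 3), (3, 7, 9), (12, 17, 4), (5, 13, 6), (22, 5, 3), (15, 4, 6), (14, 9, 5), (27, 13, 2)],
   [(2, 14, 6), (7, 2, 4), (26, 12, 7), (23, 9, 4), (20, 10, 5), (21, 5, 4), (4, 12, 3), (11, 17, 3), (28, 15, 0), (19, 16, 7)],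
   [(27, 8, 7), (14, 11, 2), (15, 6, 1), (22, 7, 6), (5, 8, 3), (12, 2, 5), (3, 13, 0), (8, 16, 6)],
   [(29, 13, 8), (24, 17, 2), (25, 16, 1), (10, 5, 7), (13, 4, 2), (6, 3, 8), (9, 11, 7), (18, 10, 9), (1, 17, 9), (0, 16, 8)],
   [(29, 5, 8), (24, 15, 2), (25, 17, 1), (10, 10, 7), (13, 9, 2), (6, 8, 8), (9, 14, 7), (18, 13, 9), (1, 15, 9), (0, 17, 8)],
   [(29, 10, 8), (24, 16, 2), (25, 15, 1), (10, 13, 7), (13, 12, 2), (6, 7, 8), (9, 6, 7), (18, 5, 9), (1, 16, 9), (0, 15, 8)]]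

theorem sf129 : SurfFor W129 :=
  surfFor_of_table (T := T129) (lam := [0, 13, 10, 4, 11, 6, 9, 7, 5, 3, 8, 1, 12, 14, 2]) (rows := rows129)
    (by decide +kernel) (by decide +kernel) (by decide +kernel) (by decide +kernel)

/-- the multiplication table of presentation 130 -/
def W130 : ℕ :=
  132089755053543261828776021171303376742219956944192135995754911271287781284855029875644774168822025304654695225539581598559840714764553068165090484647461491402719736311278956435080747139242190910035157451104297010016312259635916759938590554292904010634957064558157496335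

/-- a surface for presentation 130 -/
def rows130 : List (List (ℕ × ℕ × ℕ)) :=
  [[(8, 1, 0), (11, 2, 4), (12, 3, 8), (7, 4, 0), (28, 5, 2), (3, 6, 9), (10, 7, 6), (25, 8, 4)],
   [(9, 0, 0), (14, 8, 3), (13, 9, 2), (22, 10, 3), (23, 11, 5), (12, 12, 5), (7, 3, 5), (2, 2, 5)],
   [(2, 13, 2), (9, 14, 0), (26, 15, 5), (5, 3, 9), (10, 0, 1), (3, 1, 7), (4, 3, 4), (17, 8, 6), (16, 7, 4), (21, 16, 8)],
   [(17, 15, 4), (20, 17, 0), (29, 18, 4), (26, 8, 7), (5, 2, 6), (6, 1, 6), (23, 12, 4), (22, 4, 1), (13, 0, 2), (4, 2, 3)],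
   [(6, 0, 3), (23, 3, 7), (22, 12, 3), (15, 19, 1), (24, 20, 7), (21, 21, 5), (16, 22, 7), (27, 5, 3)],
   [(17, 23, 4), (20, 6, 0), (29, 0, 4), (26, 4, 7), (5, 22, 6), (6, 19, 6), (23, 24, 4), (22, 25, 1), (13, 20, 2), (4, 22, 3)],
   [(21, 5, 1), (16, 23, 3), (17, 26, 1), (4, 10, 5), (3, 9, 0), (10, 27, 6), (5, 10, 0), (26, 21, 2), (9, 7, 7), (2, 0, 5)],
   [(19, 21, 1), (18, 28, 0), (27, 17, 7), (16, 16, 9), (17, 2, 8), (20, 8, 5), (11, 0, 6), (8, 6, 8)],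
   [(6, 18, 3), (23, 29, 7), (22, 9, 3), (15, 1, 1), (24, 0, 7), (21, 7, 5), (16, 2, 7), (27, 3, 3)],
   [(2, 6, 4), (7, 10, 4), (12, 1, 2), (23, 8, 2), (22, 29, 6), (13, 30, 5), (14, 26, 4), (9, 27, 7)],
   [(4, 6, 6), (13, 27, 5), (22, 11, 6), (23, 1, 3), (6, 9, 1), (5, 6, 3), (26, 26, 0), (29, 31, 3), (20, 22, 9), (17, 21, 3)],
   [(27, 32, 6), (16, 33, 2), (21, 14, 2), (24, 13, 0), (15, 12, 6), (22, 1, 4), (23, 10, 2), (6, 27, 4)],
   [(2, 33, 4), (7, 32, 4), (12, 19, 2), (23, 4, 2), (22, 3, 6), (13, 1, 5), (14, 11, 4), (9, 13, 7)],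
   [(25, 11, 3), (10, 14, 1), (3, 2, 0), (28, 16, 7), (7, 34, 7), (12, 32, 1), (11, 33, 5), (8, 12, 7)],
   [(8, 2, 1), (11, 13, 1), (20, 11, 2), (17, 33, 1), (16, 29, 0), (27, 35, 2), (18, 23, 7), (19, 15, 6)],
   [(8, 22, 1), (11, 31, 1), (20, 34, 2), (17, 17, 1), (16, 3, 0), (27, 2, 2), (18, 14, 7), (19, 23, 6)],
   [(4, 17, 6), (13, 31, 5), (22, 26, 6), (23, 30, 3), (6, 24, 1), (5, 17, 3), (26, 34, 0), (29, 13, 3), (20, 2, 9), (17, 7, 3)],
   [(21, 3, 1), (16, 15, 3), (17, 34, 1), (4, 16, 5), (3, 24, 0), (10, 31, 6), (5, 16, 0), (26, 7, 2), (9, 28, 7), (2, 18, 5)],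
   [(8, 30, 0), (11, 35, 4), (12, 29, 8), (7, 8, 0), (28, 3, 2), (3, 17, 9), (10, 28, 6), (25, 25, 4)],
   [(9, 20, 0), (14, 4, 3), (13, 12, 2), (22, 32, 3), (23, 34, 5), (12, 24, 5), (7, 5, 5), (2, 22, 5)],
   [(8, 19, 0), (11, 22, 4), (12, 5, 8), (7, 25, 0), (28, 29, 2), (3, 33, 9), (10, 21, 6), (25, 4, 4)],
   [(19, 28, 1), (18, 7, 0), (27, 6, 7), (16, 10, 9), (17, 22, 8), (20, 4, 5), (11, 20, 6), (8, 33, 8)],
   [(2, 31, 2), (9, 15, 0), (26, 23, 5), (5, 5, 9), (10, 20, 1), (3, 19, 7), (4, 5, 4), (17, 4, 6), (16, 21, 4), (21, 10, 8)],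
   [(8, 35, 1), (11, 27, 1), (20, 26, 2), (17, 6, 1), (16, 5, 0), (27, 22, 2), (18, 15, 7), (19, 14, 6)],
   [(2, 17, 4), (7, 16, 4), (12, 30, 2), (23, 25, 2), (22, 5, 6), (13, 19, 5), (14, 34, 4), (9, 31, 7)],
   [(6, 20, 3), (23, 5, 7), (22, 24, 3), (15, 30, 1), (24, 18, 7), (21, 28, 5), (16, 35, 7), (27, 29, 3)],
   [(27, 10, 6), (16, 6, 2), (21, 23, 2), (24, 27, 0), (15, 9, 6), (22, 30, 4), (23, 16, 2), (6, 31, 4)],
   [(25, 26, 3), (10, 23, 1), (3, 35, 0), (28, 32, 7), (7, 11, 7), (12, 10, 1), (11, 6, 5), (8, 9, 7)],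
   [(19, 7, 1), (18, 21, 0), (27, 33, 7), (16, 32, 9), (17, 35, 8), (20, 25, 5), (11, 18, 6), (8, 17, 8)],
   [(17, 14, 4), (20, 33, 0), (29, 20, 4), (26, 25, 7), (5, 35, 6), (6, 30, 6), (23, 9, 4), (22, 8, 1), (13, 18, 2), (4, 35, 3)],
   [(9, 18, 0), (14, 25, 3), (13, 24, 2), (22, 16, 3), (23, 26, 5), (12, 9, 5), (7, 29, 5), (2, 35, 5)],
   [(25, 34, 3), (10, 15, 1), (3, 22, 0), (28, 10, 7), (7, 26, 7), (12, 16, 1), (11, 17, 5), (8, 24, 7)],
   [(4, 33, 6), (13, 13, 5), (22, 34, 6), (23, 19, 3), (6, 12, 1), (5, 33, 3), (26, 11, 0), (29, 27, 3), (20, 35, 9), (17, 28, 3)],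
   [(21, 29, 1), (16, 14, 3), (17, 11, 1), (4, 32, 5), (3, 12, 0), (10, 13, 6), (5, 32, 0), (26, 28, 2), (9, 21, 7), (2, 20, 5)],
   [(27, 16, 6), (16, 17, 2), (21, 15, 2), (24, 31, 0), (15, 24, 6), (22, 19, 4), (23, 32, 2), (6, 13, 4)],
   [(2, 27, 2), (9, 23, 0), (26, 14, 5), (5, 29, 9), (10, 18, 1), (3, 30, 7), (4, 29, 4), (17, 25, 6), (16, 28, 4), (21, 32, 8)]]

theorem sf130 : SurfFor W130 :=
  surfFor_of_table (T := T130) (lam := [0, 6, 9, 3, 4, 13, 7, 2, 8, 14, 5, 10, 12, 11, 1]) (rows := rows130)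
    (by decide +kernel) (by decide +kernel) (by decide +kernel) (by decide +kernel)

/-- the multiplication table of presentation 131 -/
def W131 : ℕ :=
  128986029230647717152926369335784816287571727660600198946754640948997793872617013614222086355748188067313405665882484645281357616859924465556474121287233369372795220883444497089500319430441518988675681638132597639026635407290757433800227395988509921275702218829332490

/-- a surface for presentation 131 -/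
def rows131 : List (List (ℕ × ℕ × ℕ)) :=
  [[(4, 1, 4), (7, 2, 0), (10, 3, 0), (21, 2, 4), (24, 2, 7), (27, 1, 7), (16, 1, 0), (11, 3, 5)],
   [(17, 0, 6), (18, 1, 6), (25, 3, 3), (8, 2, 1), (5, 0, 0), (20, 3, 4), (19, 1, 1), (26, 0, 5), (9, 2, 6), (6, 3, 6)],
   [(6, 0, 1), (9, 1, 3), (26, 3, 2), (19, 2, 8), (20, 0, 3), (5, 3, 7), (8, 1, 8), (25, 0, 4), (18, 2, 3), (17, 3, 1)],
   [(11, 0, 2), (16, 2, 9), (27, 2, 2), (24, 1, 2), (21, 1, 5), (10, 0, 7), (7, 1, 9), (4, 2, 5)]]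

theorem sf131 : SurfFor W131 :=
  surfFor_of_table (T := T131) (lam := [0, 4, 13, 6, 9, 8, 3, 10, 11, 1, 12, 2, 14, 5, 7]) (rows := rows131)
    (by decide +kernel) (by decide +kernel) (by decide +kernel) (by decide +kernel)

/-- the multiplication table of presentation 132 -/
def W132 : ℕ :=
  2063996889135912549878798438246644211948573528936985513276931115013863557494773677585930820936103797021422102640587908002001132416679210413440588954569399169779571695719669288483706879076279486809340453471375950671224190276004496314984599957559511289873033926597935105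

/-- a surface for presentation 132 -/
def rows132 : List (List (ℕ × ℕ × ℕ)) :=
  [[(8, 1, 6), (15, 2, 3), (24, 3, 0), (29, 4, 4), (16, 5, 5), (17, 6, 4), (20, 7, 3), (27, 8, 2)],
   [(19, 9, 1), (18, 10, 0), (1, 11, 0), (28, 12, 4), (21, 13, 1), (12, 2, 4), (9, 0, 0), (6, 8, 1)],
   [(25, 6, 2), (22, 14, 2), (23, 3, 1), (14, 0, 1), (13, 1, 5), (26, 13, 0), (7, 4, 0), (0, 7, 5)],
   [(25, 0, 2), (22, 2, 2), (23, 14, 1), (14, 5, 1), (13, 10, 5), (26, 15, 0), (7, 16, 0), (0, 4, 5)],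
   [(6, 2, 6), (9, 13, 7), (12, 11, 3), (21, 5, 6), (28, 0, 3), (1, 3, 7), (18, 16, 7), (19, 7, 6)],
   [(8, 10, 6), (15, 3, 3), (24, 14, 0), (29, 16, 4), (16, 6, 5), (17, 0, 4), (20, 4, 3), (27, 11, 2)],
   [(8, 9, 6), (15, 14, 3), (24, 2, 0), (29, 7, 4), (16, 0, 5), (17, 5, 4), (20, 16, 3), (27, 17, 2)],
   [(6, 14, 6), (9, 12, 7), (12, 8, 3), (21, 0, 6), (28, 6, 3), (1, 2, 7), (18, 4, 7), (19, 16, 6)],
   [(0, 9, 2), (7, 1, 7), (26, 0, 7), (13, 7, 2), (14, 12, 6), (23, 11, 6), (22, 17, 5), (25, 15, 5)],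
   [(19, 10, 1), (18, 1, 0), (1, 8, 0), (28, 15, 4), (21, 12, 1), (12, 14, 4), (9, 6, 0), (6, 17, 1)],
   [(19, 1, 1), (18, 9, 0), (1, 17, 0), (28, 13, 4), (21, 15, 1), (12, 3, 4), (9, 5, 0), (6, 11, 1)],
   [(0, 1, 2), (7, 10, 7), (26, 5, 7), (13, 4, 2), (14, 13, 6), (23, 17, 6), (22, 8, 5), (25, 12, 5)],
   [(27, 14, 5), (20, 9, 4), (17, 15, 3), (16, 13, 2), (29, 1, 3), (24, 11, 7), (15, 8, 4), (8, 7, 1)],
   [(27, 2, 5), (20, 1, 4), (17, 12, 3), (16, 15, 2), (29, 10, 3), (24, 17, 7), (15, 11, 4), (8, 4, 1)],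
   [(25, 5, 2), (22, 3, 2), (23, 2, 1), (14, 6, 1), (13, 9, 5), (26, 12, 0), (7, 7, 0), (0, 16, 5)],
   [(27, 3, 5), (20, 10, 4), (17, 13, 3), (16, 12, 2), (29, 9, 3), (24, 8, 7), (15, 17, 4), (8, 16, 1)],
   [(6, 3, 6), (9, 15, 7), (12, 17, 3), (21, 6, 6), (28, 5, 3), (1, 14, 7), (18, 7, 7), (19, 4, 6)],
   [(0, 10, 2), (7, 9, 7), (26, 6, 7), (13, 16, 2), (14, 15, 6), (23, 8, 6), (22, 11, 5), (25, 13, 5)]]

theorem sf132 : SurfFor W132 :=
  surfFor_of_table (T := T132) (lam := [0, 9, 14, 1, 10, 6, 4, 12, 8, 11, 3, 7, 2, 13, 5]) (rows := rows132)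
    (by decide +kernel) (by decide +kernel) (by decide +kernel) (by decide +kernel)

/-- the multiplication table of presentation 133 -/
def W133 : ℕ :=
  64552056125379162408262401209679407057867543501544879502112408942868783209292193368901427779010052261724531261169692746310581193614904675625928384703888941817409648458966554249364324337012240165440226526952140208078141245344615322478955082542079949137430633464725505

/-- a surface for presentation 133 -/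
def rows133 : List (List (ℕ × ℕ × ℕ)) :=
  [[(8, 1, 6), (9, 1, 7), (24, 0, 7), (17, 2, 4), (16, 3, 3), (19, 3, 6), (18, 2, 5), (25, 0, 2)],
   [(25, 1, 5), (18, 4, 2), (19, 5, 1), (16, 5, 4), (17, 4, 3), (24, 1, 0), (9, 0, 0), (8, 0, 1)],
   [(8, 5, 6), (9, 5, 7), (24, 2, 7), (17, 3, 4), (16, 0, 3), (19, 0, 6), (18, 3, 5), (25, 2, 2)],
   [(8, 4, 6), (9, 4, 7), (24, 3, 7), (17, 0, 4), (16, 2, 3), (19, 2, 6), (18, 0, 5), (25, 3, 2)],
   [(25, 4, 5), (18, 5, 2), (19, 1, 1), (16, 1, 4), (17, 5, 3), (24, 4, 0), (9, 3, 0), (8, 3, 1)],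
   [(25, 5, 5), (18, 1, 2), (19, 4, 1), (16, 4, 4), (17, 1, 3), (24, 5, 0), (9, 2, 0), (8, 2, 1)]]

theorem sf133 : SurfFor W133 :=
  surfFor_of_table (T := T133) (lam := [0, 3, 2, 1, 12, 10, 13, 6, 5, 11, 4, 7, 14, 9, 8]) (rows := rows133)
    (by decide +kernel) (by decide +kernel) (by decide +kernel) (by decide +kernel)

/-- the multiplication table of presentation 134 -/
def W134 : ℕ :=
  33018412132080765182208441150899442167282651140209382925468591602552558927634200219027315920559862359023238596607084588979123107667556939034616668544177557821529668824587142426705985062265780825027893571063890736536731905142107016417274583626811146647632630072070897665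

/-- a surface for presentation 134 -/
def rows134 : List (List (ℕ × ℕ × ℕ)) :=
  [[(6, 1, 3), (19, 2, 7), (18, 3, 8), (7, 4, 0), (8, 4, 5), (9, 1, 4), (20, 0, 9), (27, 3, 1), (26, 3, 2), (21, 0, 6)],
   [(6, 4, 3), (19, 5, 7), (18, 2, 8), (7, 0, 0), (8, 0, 5), (9, 4, 4), (20, 1, 9), (27, 5, 1), (26, 5, 2), (21, 1, 6)],
   [(21, 2, 3), (26, 4, 7), (27, 4, 8), (20, 2, 0), (9, 5, 5), (8, 3, 4), (7, 3, 9), (18, 0, 1), (19, 1, 2), (6, 5, 6)],
   [(21, 3, 3), (26, 0, 7), (27, 0, 8), (20, 3, 0), (9, 2, 5), (8, 5, 4), (7, 5, 9), (18, 4, 1), (19, 0, 2), (6, 2, 6)],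
   [(6, 0, 3), (19, 3, 7), (18, 5, 8), (7, 1, 0), (8, 1, 5), (9, 0, 4), (20, 4, 9), (27, 2, 1), (26, 2, 2), (21, 4, 6)],
   [(21, 5, 3), (26, 1, 7), (27, 1, 8), (20, 5, 0), (9, 3, 5), (8, 2, 4), (7, 2, 9), (18, 1, 1), (19, 4, 2), (6, 3, 6)]]

theorem sf134 : SurfFor W134 :=
  surfFor_of_table (T := T134) (lam := [0, 6, 12, 14, 13, 3, 8, 5, 2, 11, 9, 7, 10, 1, 4]) (rows := rows134)
    (by decide +kernel) (by decide +kernel) (by decide +kernel) (by decide +kernel)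

end Pool.Agent.TriSurf
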