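import Pool.Agent.TriSurf.SData
import Pool.Agent.TriSurf.PresT

/-!
# Surfaces
-/

set_option autoImplicit false
set_option maxRecDepth 100000

namespace Pool.Agent.TriSurf

/-- the multiplication table of presentation 135 -/
def W135 : ℕ :=
  64520567323144677195432129986897628876289191097217882430982411177950189275012644574731855754209949527795863850907875475214838607401002406559199906652499060076923035362194600261670159129885789469625308978063701329292676239043862055988112109422125587092960578365292545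

/-- a surface for presentation 135 -/
def rows135 : List (List (ℕ × ℕ × ℕ)) :=
  [[(2, 1, 5), (7, 2, 3), (28, 3, 7), (15, 4, 3), (10, 5, 4), (9, 6, 4), (26, 7, 0), (19, 8, 5)],
   [(0, 6, 1), (1, 9, 0), (18, 10, 0), (21, 8, 1), (8, 2, 4), (3, 0, 0), (20, 8, 4), (27, 11, 2)],
   [(25, 12, 3), (16, 13, 5), (5, 3, 0), (6, 0, 1), (9, 1, 4), (26, 8, 0), (19, 14, 5), (2, 9, 5)],
   [(4, 2, 2), (23, 13, 4), (22, 15, 5), (11, 10, 3), (12, 14, 2), (3, 16, 7), (20, 4, 4), (29, 0, 2)],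
   [(11, 17, 2), (22, 16, 4), (23, 5, 5), (14, 0, 3), (21, 3, 6), (18, 16, 6), (5, 17, 0), (6, 7, 4)],
   [(29, 10, 5), (20, 15, 3), (3, 13, 0), (12, 6, 5), (11, 0, 4), (22, 4, 2), (23, 16, 3), (4, 11, 5)],
   [(0, 9, 1), (1, 1, 0), (18, 11, 1), (21, 7, 1), (8, 0, 5), (13, 5, 3), (24, 13, 7), (17, 12, 1)],
   [(27, 0, 6), (20, 6, 3), (3, 11, 0), (12, 17, 3), (7, 4, 7), (28, 17, 7), (1, 14, 7), (0, 8, 6)],
   [(27, 2, 5), (20, 1, 3), (3, 10, 7), (8, 11, 3), (21, 1, 6), (18, 0, 7), (1, 7, 7), (0, 14, 6)],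
   [(0, 1, 1), (1, 6, 0), (28, 12, 0), (7, 15, 0), (12, 12, 4), (3, 2, 7), (20, 14, 4), (27, 10, 1)],
   [(19, 1, 2), (26, 9, 7), (9, 14, 3), (10, 3, 3), (15, 15, 4), (28, 5, 0), (7, 11, 4), (2, 8, 2)],
   [(2, 7, 2), (19, 6, 2), (26, 1, 7), (9, 8, 3), (6, 10, 6), (5, 5, 7), (16, 16, 2), (25, 17, 4)],
   [(29, 9, 2), (16, 6, 7), (25, 13, 6), (24, 2, 0), (13, 9, 4), (10, 15, 7), (15, 13, 2), (4, 15, 1)],
   [(2, 5, 2), (19, 15, 2), (14, 12, 6), (23, 15, 6), (22, 3, 1), (17, 2, 1), (24, 12, 2), (25, 6, 6)],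
   [(17, 17, 6), (24, 16, 0), (13, 3, 4), (8, 10, 2), (21, 9, 6), (18, 2, 6), (1, 8, 7), (0, 7, 6)],
   [(6, 9, 3), (5, 12, 7), (18, 13, 1), (21, 5, 1), (14, 10, 4), (23, 3, 2), (22, 13, 3), (11, 12, 5)],
   [(25, 14, 1), (24, 17, 5), (17, 11, 6), (22, 5, 6), (23, 4, 1), (14, 17, 1), (19, 4, 5), (2, 3, 5)],
   [(4, 4, 6), (15, 16, 5), (10, 4, 0), (13, 7, 3), (24, 11, 7), (25, 16, 1), (16, 14, 0), (29, 7, 5)]]

theorem sf135 : SurfFor W135 :=
  surfFor_of_table (T := T135) (lam := [0, 13, 11, 3, 9, 10, 12, 6, 2, 4, 14, 7, 5, 1, 8]) (rows := rows135)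
    (by decide +kernel) (by decide +kernel) (by decide +kernel) (by decide +kernel)

/-- the multiplication table of presentation 136 -/
def W136 : ℕ :=
  429247367682541557458283781429058357120013607001735273662465777000131072080770359329190180020375308707237155452970928301283518423250261676751030745694034312290296211697576866287266479831425298791913331161343596216251749445367308168893922669585384630649705324536706105345

/-- a surface for presentation 136 -/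
def rows136 : List (List (ℕ × ℕ × ℕ)) :=
  [[(8, 0, 5), (13, 1, 2), (12, 2, 1), (23, 2, 4), (22, 1, 3), (9, 0, 0), (14, 3, 0), (15, 3, 1)],
   [(8, 1, 5), (13, 2, 2), (12, 0, 1), (23, 0, 4), (22, 2, 3), (9, 1, 0), (14, 4, 0), (15, 4, 1)],
   [(8, 2, 5), (13, 0, 2), (12, 1, 1), (23, 1, 4), (22, 0, 3), (9, 2, 0), (14, 5, 0), (15, 5, 1)],
   [(15, 0, 6), (14, 0, 7), (9, 3, 7), (22, 4, 4), (23, 5, 3), (12, 5, 6), (13, 4, 5), (8, 3, 2)],
   [(15, 1, 6), (14, 1, 7), (9, 4, 7), (22, 5, 4), (23, 3, 3), (12, 3, 6), (13, 5, 5), (8, 4, 2)],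
   [(15, 2, 6), (14, 2, 7), (9, 5, 7), (22, 3, 4), (23, 4, 3), (12, 4, 6), (13, 3, 5), (8, 5, 2)]]

theorem sf136 : SurfFor W136 :=
  surfFor_of_table (T := T136) (lam := [0, 9, 4, 8, 7, 5, 13, 14, 11, 6, 2, 10, 3, 12, 1]) (rows := rows136)
    (by decide +kernel) (by decide +kernel) (by decide +kernel) (by decide +kernel)

/-- the multiplication table of presentation 137 -/
def W137 : ℕ :=
  80611476903643193308383749401625706739475265242897396266443710720523595185323659333431137132786859396574919405338356783651017837347893727703856961442082989562756837111887274921522438521034547641770734496366564912271032445679805611945270997600816644583575326612783105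

/-- a surface for presentation 137 -/
def rows137 : List (List (ℕ × ℕ × ℕ)) :=
  [[(2, 1, 2), (5, 2, 0), (14, 3, 0), (25, 4, 1), (4, 5, 1), (23, 6, 1), (10, 7, 7), (11, 2, 2), (24, 1, 0), (15, 8, 5)],
   [(25, 0, 8), (22, 2, 1), (3, 0, 0), (24, 8, 4), (11, 6, 5), (10, 3, 2), (23, 2, 6), (4, 8, 6)],
   [(4, 0, 1), (23, 1, 1), (10, 0, 7), (11, 7, 6), (24, 9, 3), (3, 8, 7), (22, 1, 6), (25, 3, 1)],
   [(15, 0, 2), (24, 2, 7), (11, 1, 5), (10, 6, 4), (23, 4, 3), (4, 3, 8), (25, 9, 6), (14, 9, 7), (5, 3, 5), (2, 4, 2)],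
   [(15, 5, 2), (24, 0, 3), (3, 3, 9), (22, 3, 4), (25, 6, 3), (14, 5, 7), (5, 10, 5), (2, 11, 5)],
   [(2, 6, 2), (5, 0, 4), (14, 4, 0), (25, 11, 4), (22, 12, 5), (3, 12, 0), (24, 10, 6), (15, 4, 5)],
   [(25, 7, 8), (22, 0, 5), (3, 5, 0), (24, 4, 4), (11, 3, 3), (10, 1, 4), (23, 8, 3), (4, 13, 8)],
   [(2, 14, 5), (5, 11, 0), (14, 13, 0), (25, 8, 1), (4, 9, 1), (23, 9, 4), (10, 2, 3), (11, 0, 6), (24, 6, 0), (15, 13, 7)],
   [(15, 9, 2), (24, 7, 3), (3, 13, 9), (22, 6, 6), (25, 1, 3), (14, 0, 9), (5, 1, 7), (2, 2, 5)],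
   [(2, 9, 5), (5, 7, 4), (14, 8, 0), (25, 2, 4), (22, 7, 5), (3, 9, 0), (24, 3, 6), (15, 3, 7)],
   [(15, 14, 2), (24, 15, 7), (11, 16, 5), (10, 13, 2), (23, 11, 6), (4, 4, 6), (25, 5, 6), (14, 12, 9), (5, 16, 7), (2, 15, 5)],
   [(4, 7, 1), (23, 14, 4), (10, 15, 3), (11, 12, 6), (24, 5, 3), (3, 4, 7), (22, 10, 4), (25, 13, 1)],
   [(2, 5, 5), (5, 12, 4), (14, 17, 0), (25, 17, 1), (4, 12, 1), (23, 5, 4), (10, 11, 3), (11, 15, 2), (24, 16, 0), (15, 10, 7)],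
   [(15, 7, 2), (24, 11, 7), (11, 10, 3), (10, 16, 4), (23, 17, 3), (4, 17, 6), (25, 14, 6), (14, 7, 9), (5, 6, 7), (2, 8, 2)],
   [(2, 16, 2), (5, 15, 0), (14, 10, 0), (25, 15, 4), (22, 11, 1), (3, 7, 0), (24, 13, 6), (15, 17, 5)],
   [(4, 14, 1), (23, 16, 1), (10, 12, 7), (11, 11, 2), (24, 14, 3), (3, 10, 9), (22, 16, 6), (25, 10, 1)],
   [(25, 12, 8), (22, 15, 1), (3, 14, 0), (24, 17, 4), (11, 13, 3), (10, 10, 2), (23, 15, 6), (4, 10, 8)],
   [(15, 12, 2), (24, 12, 3), (3, 17, 7), (22, 13, 4), (25, 16, 3), (14, 14, 7), (5, 13, 5), (2, 17, 2)]]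

theorem sf137 : SurfFor W137 :=
  surfFor_of_table (T := T137) (lam := [0, 2, 4, 9, 10, 12, 1, 5, 8, 3, 14, 6, 7, 11, 13]) (rows := rows137)
    (by decide +kernel) (by decide +kernel) (by decide +kernel) (by decide +kernel)

/-- the multiplication table of presentation 138 -/
def W138 : ℕ :=
  7924417967526991435483822651358440345825437059242176482426792021359636181655163144597662881291671182031452132581827643409413596021101126190374468519491695198355805333321802258755908985847224170605003353077650709185247032372221920059303067736934321299065691947149373210625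

/-- a surface for presentation 138 -/
def rows138 : List (List (ℕ × ℕ × ℕ)) :=
  [[(12, 1, 6), (23, 2, 6), (20, 3, 0), (19, 0, 6), (16, 1, 0), (11, 1, 1), (18, 0, 3), (1, 3, 7), (28, 4, 7), (29, 1, 3)],
   [(17, 0, 4), (10, 0, 5), (7, 1, 7), (28, 0, 9), (29, 4, 6), (12, 2, 7), (13, 0, 0), (6, 1, 2)],
   [(6, 4, 5), (11, 3, 3), (18, 5, 4), (25, 6, 2), (14, 5, 6), (27, 3, 1), (22, 0, 1), (13, 1, 5)],
   [(21, 0, 2), (26, 2, 5), (17, 5, 5), (10, 2, 1), (5, 4, 4), (24, 7, 4), (3, 4, 0), (0, 0, 7)],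
   [(2, 3, 6), (15, 7, 3), (16, 6, 5), (19, 7, 5), (4, 3, 4), (7, 2, 0), (28, 1, 4), (29, 0, 8)],
   [(29, 8, 1), (28, 9, 3), (7, 7, 7), (4, 6, 3), (19, 2, 2), (16, 3, 2), (15, 2, 4), (2, 6, 1)],
   [(0, 8, 2), (3, 5, 7), (24, 2, 3), (5, 5, 3), (10, 7, 6), (17, 4, 2), (26, 7, 2), (21, 8, 7)],
   [(13, 9, 2), (22, 8, 8), (27, 6, 6), (14, 4, 1), (25, 3, 5), (18, 4, 3), (11, 6, 4), (6, 5, 2)],
   [(29, 9, 4), (28, 5, 0), (1, 6, 0), (18, 8, 6), (11, 9, 6), (16, 9, 7), (19, 8, 3), (20, 6, 7), (23, 7, 1), (12, 9, 1)],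
   [(6, 9, 5), (13, 8, 9), (12, 7, 0), (29, 5, 1), (28, 8, 0), (7, 9, 0), (10, 8, 4), (17, 8, 5)]]

theorem sf138 : SurfFor W138 :=
  surfFor_of_table (T := T138) (lam := [0, 2, 12, 6, 4, 11, 10, 5, 9, 8, 1, 13, 14, 7, 3]) (rows := rows138)
    (by decide +kernel) (by decide +kernel) (by decide +kernel) (by decide +kernel)

/-- the multiplication table of presentation 139 -/
def W139 : ℕ :=
  1763373270476949008085101722907074213139112317571170501876424160090082265426935675078784975988064821594780280123572287169773110659908989386275504928523135895981726971124297450467526968267520845874509232408242386792158547969014797420799562830959992668047662848671745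

/-- a surface for presentation 139 -/
def rows139 : List (List (ℕ × ℕ × ℕ)) :=
  [[(4, 1, 1), (15, 2, 0), (10, 3, 7), (11, 4, 5), (24, 5, 1), (23, 4, 1), (16, 6, 0), (19, 7, 7)],
   [(2, 2, 1), (5, 0, 0), (28, 7, 6), (15, 8, 3), (10, 9, 7), (25, 10, 3), (26, 11, 7), (17, 12, 1)],
   [(14, 0, 1), (3, 1, 0), (18, 12, 0), (29, 6, 5), (16, 13, 3), (23, 14, 3), (24, 15, 3), (7, 8, 7), (22, 14, 0), (9, 3, 0)],
   [(8, 2, 9), (3, 14, 9), (18, 16, 5), (29, 17, 5), (16, 18, 4), (23, 5, 6), (24, 4, 6), (11, 0, 2)],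
   [(27, 6, 1), (22, 0, 5), (7, 5, 0), (24, 18, 2), (11, 5, 2), (10, 0, 3), (25, 3, 6), (6, 5, 5)],
   [(6, 4, 2), (25, 0, 4), (10, 4, 4), (11, 18, 1), (24, 6, 2), (7, 4, 7), (22, 3, 5), (27, 18, 3)],
   [(17, 0, 6), (26, 4, 0), (25, 5, 4), (10, 18, 0), (15, 13, 4), (28, 2, 3), (5, 12, 7), (2, 7, 8)],
   [(9, 19, 7), (22, 15, 9), (7, 13, 0), (24, 14, 6), (23, 15, 6), (16, 8, 4), (29, 1, 2), (18, 0, 7), (3, 6, 7), (14, 12, 6)],
   [(27, 15, 2), (22, 17, 0), (9, 9, 0), (14, 1, 3), (17, 7, 5), (26, 15, 5), (25, 14, 1), (6, 2, 7)],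
   [(8, 8, 2), (3, 17, 7), (14, 16, 3), (17, 19, 3), (26, 10, 0), (25, 11, 4), (10, 10, 4), (11, 1, 4)],
   [(27, 9, 4), (22, 19, 2), (7, 11, 0), (24, 1, 5), (11, 9, 6), (10, 11, 3), (25, 12, 3), (6, 11, 5)],
   [(6, 10, 2), (25, 19, 1), (10, 12, 4), (11, 10, 5), (24, 9, 5), (7, 10, 7), (22, 12, 2), (27, 1, 6)],
   [(19, 2, 2), (16, 1, 7), (23, 11, 6), (24, 10, 6), (11, 11, 2), (10, 19, 0), (15, 7, 9), (4, 6, 6)],
   [(6, 7, 2), (25, 15, 8), (26, 14, 4), (17, 2, 4), (14, 6, 4), (9, 18, 7), (22, 16, 7), (27, 14, 7)],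
   [(23, 2, 8), (24, 8, 6), (7, 15, 4), (22, 2, 5), (27, 13, 2), (6, 15, 7), (25, 7, 3), (26, 13, 7), (17, 16, 6), (2, 3, 1)],
   [(2, 19, 6), (17, 17, 1), (26, 8, 0), (25, 2, 6), (6, 14, 2), (27, 8, 5), (22, 7, 4), (7, 14, 5), (24, 13, 1), (23, 7, 1)],
   [(2, 18, 6), (5, 17, 3), (28, 19, 4), (15, 9, 2), (4, 17, 6), (19, 3, 2), (16, 14, 8), (23, 13, 6)],
   [(23, 8, 1), (16, 15, 1), (19, 19, 5), (4, 16, 1), (15, 18, 5), (28, 3, 3), (5, 16, 4), (2, 9, 1)],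
   [(11, 6, 3), (10, 5, 3), (25, 4, 3), (26, 5, 7), (17, 3, 4), (14, 17, 4), (3, 16, 0), (8, 13, 5)],
   [(11, 12, 5), (24, 11, 1), (23, 10, 1), (16, 9, 3), (29, 16, 2), (18, 17, 2), (3, 15, 0), (8, 7, 0)]]

theorem sf139 : SurfFor W139 :=
  surfFor_of_table (T := T139) (lam := [0, 14, 3, 2, 7, 12, 13, 6, 4, 8, 1, 5, 9, 10, 11]) (rows := rows139)
    (by decide +kernel) (by decide +kernel) (by decide +kernel) (by decide +kernel)

/-- the multiplication table of presentation 140 -/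
def W140 : ℕ :=
  7924417968511016681668682316853224855142340038959461811176955937952164555506447979990495547113677689472000511512275751240078917877276044605866078782605515092431721944466182749707908393348959346989061960559806327429800897245165592917250348121661565013734823927362527166465

/-- a surface for presentation 140 -/
def rows140 : List (List (ℕ × ℕ × ℕ)) :=
  [[(6, 1, 1), (7, 2, 0), (16, 1, 5), (5, 3, 0), (20, 4, 1), (17, 2, 2), (12, 1, 7), (13, 2, 6)],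
   [(6, 2, 1), (7, 0, 0), (16, 2, 5), (5, 5, 0), (20, 3, 1), (17, 0, 2), (12, 2, 7), (13, 0, 6)],
   [(6, 0, 1), (7, 1, 0), (16, 0, 5), (5, 4, 0), (20, 5, 1), (17, 1, 2), (12, 0, 7), (13, 1, 6)],
   [(4, 0, 3), (21, 1, 4), (22, 5, 7), (13, 4, 4), (12, 5, 3), (29, 4, 6), (28, 5, 5), (23, 4, 2)],
   [(4, 2, 3), (21, 0, 4), (22, 3, 7), (13, 5, 4), (12, 3, 3), (29, 5, 6), (28, 3, 5), (23, 5, 2)],
   [(4, 1, 3), (21, 2, 4), (22, 4, 7), (13, 3, 4), (12, 4, 3), (29, 3, 6), (28, 4, 5), (23, 3, 2)]]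

theorem sf140 : SurfFor W140 :=
  surfFor_of_table (T := T140) (lam := [0, 2, 8, 11, 12, 5, 10, 9, 13, 4, 7, 6, 14, 1, 3]) (rows := rows140)
    (by decide +kernel) (by decide +kernel) (by decide +kernel) (by decide +kernel)

/-- the multiplication table of presentation 141 -/
def W141 : ℕ :=
  6191140469593385147907372141863804943059599547300294793555853225729219359442908213099365450303947975413691189767621378149439000835325753233377274505766835579337923580865770043983772789759833373258728770597102124915222080774109473787265510203670361007026200136525021185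

/-- a surface for presentation 141 -/
def rows141 : List (List (ℕ × ℕ × ℕ)) :=
  [[(4, 1, 6), (11, 2, 5), (28, 3, 2), (5, 4, 4), (12, 5, 2), (21, 6, 4), (8, 4, 7), (7, 7, 6), (14, 3, 4), (25, 2, 3)],
   [(27, 8, 4), (16, 9, 7), (15, 10, 1), (6, 11, 2), (19, 9, 2), (12, 2, 6), (5, 0, 0), (28, 2, 2), (11, 12, 9), (4, 13, 1)],
   [(15, 8, 2), (16, 12, 0), (29, 1, 7), (24, 0, 9), (17, 3, 3), (10, 0, 1), (13, 1, 5), (6, 9, 1)],
   [(17, 7, 8), (24, 4, 5), (29, 0, 2), (16, 2, 4), (15, 0, 8), (18, 7, 5), (7, 14, 0), (8, 15, 4)],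
   [(2, 6, 3), (5, 15, 7), (28, 6, 7), (11, 5, 3), (4, 0, 3), (25, 3, 1), (14, 7, 7), (9, 0, 6)],
   [(9, 5, 5), (26, 6, 5), (13, 0, 4), (10, 4, 3), (17, 6, 6), (8, 5, 0), (21, 15, 1), (12, 6, 1), (5, 7, 0), (2, 15, 2)],
   [(10, 7, 1), (13, 5, 7), (26, 15, 0), (3, 4, 0), (20, 0, 5), (27, 5, 1), (16, 5, 4), (29, 4, 2), (24, 15, 6), (17, 14, 6)],
   [(4, 5, 8), (11, 6, 0), (28, 14, 5), (5, 11, 9), (12, 14, 1), (19, 3, 5), (6, 0, 7), (15, 4, 6), (16, 3, 0), (27, 15, 3)],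
   [(4, 10, 6), (25, 12, 1), (14, 2, 0), (9, 9, 0), (26, 1, 0), (3, 13, 0), (20, 13, 3), (27, 12, 7)],
   [(8, 8, 3), (7, 2, 7), (18, 1, 4), (15, 11, 1), (16, 14, 3), (29, 11, 7), (24, 10, 2), (17, 1, 1)],
   [(9, 11, 3), (14, 1, 2), (25, 9, 6), (4, 11, 6), (11, 13, 6), (28, 12, 2), (5, 8, 0), (2, 12, 6)],
   [(25, 14, 4), (14, 9, 3), (7, 1, 3), (8, 10, 0), (21, 12, 5), (12, 13, 7), (5, 10, 3), (28, 9, 5), (11, 14, 2), (4, 7, 3)],
   [(17, 2, 1), (24, 8, 1), (29, 10, 5), (16, 13, 5), (27, 13, 8), (20, 11, 4), (3, 10, 7), (26, 8, 7), (13, 13, 2), (10, 1, 8)],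
   [(2, 8, 5), (5, 1, 9), (12, 12, 8), (21, 8, 6), (8, 13, 9), (17, 12, 3), (10, 10, 4), (13, 11, 5), (26, 12, 4), (9, 13, 4)],
   [(6, 3, 6), (13, 7, 4), (10, 11, 8), (17, 9, 4), (24, 11, 0), (29, 7, 2), (16, 6, 9), (15, 15, 5)],
   [(27, 6, 2), (20, 5, 6), (3, 5, 9), (26, 7, 9), (9, 3, 7), (14, 14, 7), (25, 6, 8), (4, 4, 1)]]

theorem sf141 : SurfFor W141 :=
  surfFor_of_table (T := T141) (lam := [0, 1, 3, 14, 4, 6, 9, 11, 12, 10, 13, 2, 7, 8, 5]) (rows := rows141)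
    (by decide +kernel) (by decide +kernel) (by decide +kernel) (by decide +kernel)

end Pool.Agent.TriSurf
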