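import Pool.Agent.TriSurf.SData
import Pool.Agent.TriSurf.PresT

/-!
# Surfaces
-/

set_option autoImplicit false
set_option maxRecDepth 100000

namespace Pool.Agent.TriSurf

/-- the multiplication table of presentation 142 -/
def W142 : ℕ :=
  22958111948766709931873933727845395936993531936758937749973221304881653719427574685734529764497370222198717727743118701456277291065065547649318609377100809970103338278976349169527415577516157479395371253191751114792523022425598727838843223744263142798312237646993162255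

/-- a surface for presentation 142 -/
def rows142 : List (List (ℕ × ℕ × ℕ)) :=
  [[(4, 1, 6), (21, 2, 1), (28, 3, 0), (1, 4, 0), (18, 5, 7), (19, 6, 1), (16, 7, 2), (25, 8, 8)],
   [(23, 9, 8), (24, 10, 0), (13, 8, 2), (10, 11, 7), (9, 12, 3), (6, 2, 2), (5, 0, 0), (12, 8, 7), (3, 13, 7), (2, 9, 3)],
   [(25, 3, 1), (20, 0, 1), (7, 1, 5), (26, 12, 2), (11, 14, 5), (14, 15, 2), (17, 16, 4), (4, 11, 3)],
   [(29, 0, 2), (24, 2, 0), (13, 11, 2), (10, 7, 4), (9, 6, 7), (26, 15, 4), (7, 14, 3), (0, 4, 1)],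
   [(0, 0, 3), (1, 3, 7), (18, 14, 2), (15, 13, 1), (8, 8, 5), (27, 17, 4), (20, 18, 1), (7, 5, 0)],
   [(6, 4, 7), (5, 18, 0), (12, 16, 1), (27, 19, 2), (8, 18, 3), (15, 17, 2), (18, 6, 2), (19, 0, 4)],
   [(15, 7, 3), (18, 0, 5), (19, 5, 6), (16, 17, 1), (23, 13, 3), (24, 14, 0), (13, 15, 5), (8, 3, 4)],
   [(29, 7, 7), (22, 8, 9), (17, 0, 6), (14, 6, 0), (11, 3, 3), (2, 11, 1), (3, 8, 0), (28, 7, 0), (1, 9, 0), (0, 9, 1)],
   [(2, 7, 6), (3, 11, 0), (12, 1, 2), (5, 10, 7), (6, 17, 5), (9, 4, 4), (10, 13, 0), (13, 1, 7), (24, 0, 7), (23, 7, 1)],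
   [(0, 7, 8), (1, 7, 9), (28, 9, 9), (3, 1, 9), (2, 13, 6), (11, 19, 4), (14, 16, 7), (17, 10, 1), (22, 1, 0), (29, 9, 2)],
   [(25, 1, 1), (16, 9, 7), (19, 16, 6), (18, 15, 0), (1, 12, 7), (28, 19, 7), (21, 17, 6), (4, 8, 3)],
   [(2, 8, 1), (3, 7, 5), (12, 3, 2), (5, 2, 7), (22, 16, 3), (17, 18, 6), (14, 12, 4), (11, 1, 3)],
   [(7, 15, 7), (20, 14, 6), (27, 2, 3), (8, 1, 4), (15, 11, 6), (18, 18, 5), (1, 19, 0), (0, 10, 4)],
   [(11, 8, 6), (14, 4, 3), (17, 14, 1), (22, 6, 4), (5, 17, 0), (12, 19, 5), (3, 9, 4), (2, 1, 8)],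
   [(25, 6, 5), (16, 13, 2), (19, 4, 2), (6, 3, 6), (9, 15, 3), (10, 2, 4), (21, 12, 1), (4, 15, 6)],
   [(19, 10, 3), (18, 16, 5), (15, 2, 5), (8, 14, 4), (27, 3, 5), (12, 6, 6), (5, 14, 7), (6, 12, 0)],
   [(8, 19, 3), (13, 5, 2), (24, 18, 7), (23, 11, 4), (16, 2, 6), (19, 15, 1), (18, 10, 2), (15, 9, 6)],
   [(4, 13, 4), (17, 6, 3), (14, 5, 5), (11, 18, 2), (26, 4, 5), (7, 8, 4), (20, 10, 6), (25, 19, 6)],
   [(4, 5, 1), (21, 4, 6), (10, 17, 3), (9, 5, 4), (6, 19, 1), (19, 12, 5), (16, 11, 5), (25, 16, 2)],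
   [(0, 12, 6), (7, 18, 4), (26, 5, 3), (9, 16, 0), (10, 9, 5), (13, 13, 5), (24, 17, 7), (29, 10, 5)]]

theorem sf142 : SurfFor W142 :=
  surfFor_of_table (T := T142) (lam := [0, 3, 10, 1, 9, 4, 12, 14, 7, 11, 6, 5, 8, 13, 2]) (rows := rows142)
    (by decide +kernel) (by decide +kernel) (by decide +kernel) (by decide +kernel)

/-- the multiplication table of presentation 143 -/
def W143 : ℕ :=
  7924417967042675776928148545051823813105502409110797834992490353947283573948238584394845207981538051993564336315384419893617346372772845090577494325106956139701210936893656041116816074288164590667981726478102315444627156473159733516460316640330709290343950811796502216705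

/-- a surface for presentation 143 -/
def rows143 : List (List (ℕ × ℕ × ℕ)) :=
  [[(4, 1, 2), (25, 2, 5), (14, 3, 3), (7, 4, 7), (8, 5, 5), (5, 1, 7), (10, 6, 1), (29, 7, 3)],
   [(29, 5, 4), (10, 2, 6), (5, 0, 0), (8, 7, 2), (7, 8, 0), (14, 9, 4), (25, 6, 2), (4, 0, 5)],
   [(15, 9, 1), (26, 10, 7), (19, 11, 5), (2, 7, 6), (27, 3, 4), (24, 0, 1), (11, 1, 1), (0, 5, 3)],
   [(4, 12, 8), (23, 13, 3), (20, 4, 0), (15, 0, 2), (26, 2, 4), (19, 7, 5), (14, 6, 7), (25, 14, 1)],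
   [(21, 3, 2), (10, 13, 2), (5, 15, 4), (8, 16, 1), (17, 17, 3), (12, 12, 4), (13, 5, 6), (6, 0, 3)],
   [(6, 18, 3), (3, 6, 4), (18, 9, 2), (1, 2, 7), (28, 1, 0), (9, 0, 4), (12, 4, 6), (13, 12, 3)],
   [(0, 7, 4), (11, 0, 6), (24, 1, 6), (27, 9, 3), (2, 5, 1), (19, 18, 2), (26, 14, 2), (15, 3, 6)],
   [(13, 19, 6), (12, 8, 1), (9, 1, 3), (28, 0, 7), (1, 6, 0), (18, 3, 5), (3, 2, 3), (6, 11, 4)],
   [(6, 1, 4), (13, 7, 1), (12, 19, 5), (17, 20, 4), (8, 13, 8), (5, 21, 5), (10, 16, 7), (21, 9, 5)],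
   [(25, 10, 8), (14, 2, 0), (19, 5, 2), (26, 6, 3), (15, 1, 5), (20, 8, 7), (23, 16, 6), (4, 19, 1)],
   [(0, 15, 1), (1, 20, 0), (18, 14, 4), (7, 18, 0), (14, 17, 0), (19, 14, 7), (2, 11, 6), (27, 2, 1), (24, 9, 0), (11, 19, 0)],
   [(21, 20, 6), (10, 19, 3), (5, 16, 4), (8, 19, 7), (7, 7, 7), (18, 2, 2), (3, 10, 6), (6, 14, 6)],
   [(29, 21, 7), (28, 13, 6), (9, 18, 4), (12, 5, 7), (13, 4, 5), (22, 17, 2), (11, 18, 6), (24, 13, 4), (5, 3, 0), (10, 14, 0)],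
   [(27, 21, 1), (24, 15, 5), (11, 4, 1), (22, 3, 1), (25, 12, 7), (4, 18, 5), (29, 12, 1), (28, 21, 6), (9, 8, 4), (2, 20, 3)],
   [(11, 12, 9), (24, 3, 7), (27, 6, 6), (2, 18, 1), (19, 10, 2), (14, 20, 7), (7, 11, 7), (18, 10, 5), (1, 17, 7), (0, 21, 8)],
   [(0, 20, 1), (1, 10, 0), (28, 19, 9), (29, 16, 2), (4, 4, 2), (25, 13, 1), (14, 21, 0), (19, 17, 5), (26, 16, 9), (15, 21, 3)],
   [(2, 17, 4), (9, 4, 3), (28, 15, 3), (29, 19, 8), (4, 11, 2), (25, 19, 2), (22, 9, 6), (11, 8, 6), (24, 21, 4), (27, 15, 8)],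
   [(15, 10, 4), (20, 18, 7), (23, 12, 5), (16, 4, 4), (3, 16, 0), (18, 15, 7), (1, 21, 9), (0, 14, 8)],
   [(6, 10, 3), (3, 14, 3), (18, 6, 5), (7, 5, 0), (8, 12, 2), (5, 13, 5), (10, 12, 6), (21, 17, 1)],
   [(10, 10, 9), (5, 9, 7), (24, 16, 5), (11, 11, 1), (22, 20, 5), (13, 8, 2), (12, 7, 0), (9, 11, 3), (28, 16, 3), (29, 15, 2)],
   [(0, 10, 1), (1, 15, 0), (18, 21, 2), (3, 13, 9), (16, 8, 3), (23, 19, 4), (20, 11, 0), (15, 14, 5)],
   [(15, 15, 6), (26, 13, 0), (19, 20, 2), (14, 15, 9), (25, 16, 8), (4, 8, 5), (29, 13, 7), (28, 12, 0), (1, 14, 9), (0, 17, 6)]]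

theorem sf143 : SurfFor W143 :=
  surfFor_of_table (T := T143) (lam := [0, 11, 12, 14, 3, 2, 10, 1, 13, 4, 9, 8, 7, 5, 6]) (rows := rows143)
    (by decide +kernel) (by decide +kernel) (by decide +kernel) (by decide +kernel)

/-- the multiplication table of presentation 144 -/
def W144 : ℕ :=
  2064028377944012282823894857634249624345512650733469464958666901345451542061560468037399647019143183482919562407408704288638450338966800062809487446972427493242379236263027185559679931920565183692118972280938060212645020957692838070658432643036162643176107636345012225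

/-- a surface for presentation 144 -/
def rows144 : List (List (ℕ × ℕ × ℕ)) :=
  [[(0, 1, 1), (1, 2, 0), (28, 3, 3), (23, 4, 1), (12, 5, 2), (17, 6, 2), (6, 4, 6), (21, 7, 1), (26, 6, 7), (5, 8, 0)],
   [(0, 2, 1), (1, 0, 0), (18, 8, 9), (11, 8, 2), (6, 6, 5), (17, 9, 4), (12, 10, 0), (9, 2, 4), (20, 11, 2), (5, 12, 7)],
   [(0, 0, 1), (1, 1, 0), (18, 12, 6), (7, 11, 3), (8, 1, 7), (9, 10, 7), (12, 13, 3), (17, 5, 5), (22, 11, 6), (25, 3, 4)],
   [(6, 14, 2), (11, 15, 5), (16, 4, 2), (29, 0, 2), (24, 2, 9), (13, 11, 5), (10, 12, 4), (21, 16, 1)],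
   [(25, 5, 3), (22, 0, 3), (17, 3, 2), (12, 15, 4), (9, 17, 0), (8, 7, 2), (7, 0, 6), (18, 6, 1), (1, 7, 9), (0, 11, 8)],
   [(21, 9, 6), (10, 6, 3), (13, 0, 4), (24, 4, 0), (29, 11, 7), (16, 2, 7), (11, 13, 2), (6, 18, 5)],
   [(4, 7, 0), (19, 4, 7), (16, 0, 5), (11, 5, 1), (18, 9, 5), (7, 1, 4), (14, 8, 1), (27, 0, 8)],
   [(5, 6, 0), (20, 0, 7), (9, 4, 5), (12, 17, 7), (17, 16, 3), (6, 12, 2), (11, 19, 7), (18, 19, 0), (1, 11, 9), (0, 4, 8)],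
   [(4, 0, 9), (15, 6, 6), (10, 1, 3), (21, 8, 8), (6, 16, 6), (17, 20, 2), (12, 14, 4), (9, 16, 7), (20, 8, 3), (19, 1, 2)],
   [(8, 19, 2), (7, 19, 5), (18, 21, 4), (11, 10, 1), (16, 1, 5), (19, 6, 4), (20, 5, 0), (9, 18, 4)],
   [(13, 1, 6), (10, 9, 3), (21, 21, 3), (26, 13, 7), (5, 18, 0), (20, 21, 0), (9, 13, 4), (8, 2, 5)],
   [(5, 19, 9), (26, 12, 0), (21, 1, 8), (6, 2, 3), (17, 12, 5), (12, 3, 5), (23, 2, 8), (28, 5, 4), (1, 4, 9), (0, 7, 8)],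
   [(27, 11, 1), (14, 19, 8), (7, 7, 5), (18, 16, 2), (11, 3, 6), (16, 11, 4), (19, 2, 2), (4, 1, 9)],
   [(4, 21, 2), (15, 18, 6), (10, 5, 6), (13, 2, 6), (8, 10, 6), (7, 21, 7), (14, 18, 1), (27, 10, 3)],
   [(27, 20, 6), (14, 15, 6), (7, 3, 0), (8, 16, 0), (13, 8, 6), (10, 20, 1), (15, 15, 1), (4, 17, 3)],
   [(27, 17, 4), (14, 14, 6), (7, 20, 0), (8, 17, 1), (13, 4, 3), (10, 3, 1), (15, 14, 1), (4, 20, 5)],
   [(9, 14, 3), (20, 3, 7), (19, 12, 3), (16, 7, 4), (11, 17, 6), (18, 20, 3), (7, 8, 4), (8, 8, 7)],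
   [(8, 4, 4), (9, 15, 3), (20, 20, 7), (5, 14, 7), (26, 15, 0), (21, 20, 4), (10, 16, 4), (13, 7, 3)],
   [(4, 10, 4), (15, 13, 6), (10, 21, 6), (13, 19, 3), (8, 9, 7), (7, 5, 7), (14, 13, 1), (27, 21, 1)],
   [(19, 7, 7), (20, 19, 6), (9, 9, 0), (12, 18, 3), (17, 21, 5), (6, 9, 1), (21, 19, 1), (10, 7, 6), (15, 12, 1), (4, 11, 0)],
   [(6, 15, 2), (11, 14, 5), (16, 8, 5), (19, 16, 5), (20, 17, 5), (5, 15, 7), (26, 14, 0), (21, 17, 2)],
   [(21, 10, 5), (26, 18, 7), (5, 13, 0), (20, 10, 2), (19, 9, 2), (16, 19, 4), (11, 18, 2), (6, 13, 5)]]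

theorem sf144 : SurfFor W144 :=
  surfFor_of_table (T := T144) (lam := [0, 4, 1, 14, 13, 11, 12, 6, 10, 8, 9, 3, 2, 7, 5]) (rows := rows144)
    (by decide +kernel) (by decide +kernel) (by decide +kernel) (by decide +kernel)

/-- the multiplication table of presentation 145 -/
def W145 : ℕ :=
  198110474760530975102989114622984286796231071509454869575514045513976650526512916207995190717320687921725997540674695964591362151781327337625058385528606185714718982298450003839464254720872237865922125035448124044476633232579504539010819587916671555866407114814210965505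

/-- a surface for presentation 145 -/
def rows145 : List (List (ℕ × ℕ × ℕ)) :=
  [[(2, 1, 5), (5, 2, 7), (16, 3, 3), (9, 4, 3), (18, 2, 2), (1, 5, 7), (28, 6, 7), (25, 3, 6)],
   [(2, 7, 6), (25, 6, 2), (12, 8, 3), (23, 5, 1), (20, 2, 0), (3, 0, 0), (26, 3, 5), (29, 2, 5)],
   [(21, 1, 4), (14, 5, 0), (19, 0, 4), (18, 4, 2), (1, 7, 7), (28, 1, 7), (11, 3, 4), (4, 0, 1)],
   [(0, 9, 3), (3, 10, 7), (26, 4, 4), (17, 0, 2), (10, 2, 6), (27, 1, 6), (24, 0, 7), (15, 6, 6)],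
   [(29, 11, 1), (14, 7, 0), (19, 2, 3), (8, 0, 3), (27, 3, 2), (24, 10, 6), (5, 5, 3), (2, 8, 1)],
   [(15, 2, 1), (22, 1, 3), (21, 8, 2), (4, 4, 6), (13, 10, 5), (20, 8, 5), (3, 6, 0), (0, 0, 5)],
   [(2, 5, 6), (5, 8, 4), (24, 1, 1), (27, 7, 5), (8, 11, 4), (19, 9, 4), (14, 3, 7), (29, 0, 6)],
   [(15, 4, 1), (24, 11, 0), (27, 10, 1), (10, 9, 1), (17, 11, 5), (26, 6, 3), (3, 1, 0), (0, 2, 4)],
   [(0, 11, 2), (3, 4, 7), (20, 5, 2), (13, 1, 2), (4, 6, 1), (21, 5, 5), (22, 10, 4), (15, 9, 6)],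
   [(4, 11, 6), (11, 7, 3), (28, 10, 0), (1, 3, 0), (18, 6, 5), (19, 11, 3), (14, 8, 7), (21, 10, 3)],
   [(29, 9, 2), (26, 7, 2), (3, 11, 7), (20, 9, 7), (23, 8, 6), (12, 5, 4), (25, 4, 5), (2, 3, 1)],
   [(25, 7, 1), (28, 4, 0), (1, 8, 0), (18, 9, 5), (9, 6, 4), (16, 7, 4), (5, 9, 0), (2, 10, 2)]]

theorem sf145 : SurfFor W145 :=
  surfFor_of_table (T := T145) (lam := [0, 1, 5, 10, 11, 6, 8, 2, 9, 14, 7, 13, 3, 12, 4]) (rows := rows145)
    (by decide +kernel) (by decide +kernel) (by decide +kernel) (by decide +kernel)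

/-- the multiplication table of presentation 146 -/
def W146 : ℕ :=
  1584883593414711589477828738599733905359644039149154395306512063669968364227066236780235299922376350212387490901733492028764594534176651024196248043182235714031814607069376785935900016037645512091284040925802195167667183191263909157302779698407476148368250969292747571210

/-- a surface for presentation 146 -/
def rows146 : List (List (ℕ × ℕ × ℕ)) :=
  [[(6, 1, 1), (7, 2, 0), (10, 3, 4), (13, 4, 1), (24, 1, 5), (25, 2, 4), (16, 3, 0), (27, 4, 5)],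
   [(6, 2, 1), (7, 0, 0), (10, 4, 4), (13, 5, 1), (24, 2, 5), (25, 0, 4), (16, 4, 0), (27, 5, 5)],
   [(6, 0, 1), (7, 1, 0), (10, 5, 4), (13, 3, 1), (24, 0, 5), (25, 1, 4), (16, 5, 0), (27, 3, 5)],
   [(17, 0, 6), (12, 2, 3), (21, 5, 3), (20, 4, 2), (11, 0, 2), (26, 2, 7), (7, 5, 7), (6, 4, 6)],
   [(17, 1, 6), (12, 0, 3), (21, 3, 3), (20, 5, 2), (11, 1, 2), (26, 0, 7), (7, 3, 7), (6, 5, 6)],
   [(17, 2, 6), (12, 1, 3), (21, 4, 3), (20, 3, 2), (11, 2, 2), (26, 1, 7), (7, 4, 7), (6, 3, 6)]]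

theorem sf146 : SurfFor W146 :=
  surfFor_of_table (T := T146) (lam := [0, 14, 3, 9, 7, 1, 12, 8, 10, 2, 13, 4, 5, 11, 6]) (rows := rows146)
    (by decide +kernel) (by decide +kernel) (by decide +kernel) (by decide +kernel)

/-- the multiplication table of presentation 147 -/
def W147 : ℕ :=
  22700596478045849203326221685583227007277542931729149678986795216020062969371442144003844147890461387384356481756259721998855266968120299175355970808634248882551859749843270402923522826027528586487362438592938021068257191064749217116786152659954859176834927819902418945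

/-- a surface for presentation 147 -/
def rows147 : List (List (ℕ × ℕ × ℕ)) :=
  [[(0, 1, 2), (3, 2, 9), (22, 3, 0), (19, 4, 4), (14, 2, 4), (17, 5, 1), (26, 6, 0), (23, 7, 4)],
   [(27, 8, 6), (28, 2, 0), (1, 0, 0), (18, 7, 3), (11, 9, 1), (14, 10, 0), (17, 11, 6), (26, 2, 6), (15, 4, 2), (10, 12, 4)],
   [(29, 1, 1), (16, 8, 5), (7, 12, 7), (6, 5, 2), (15, 0, 4), (10, 4, 3), (27, 1, 7), (28, 11, 5), (21, 3, 1), (2, 0, 1)],
   [(23, 0, 2), (20, 2, 8), (25, 11, 4), (16, 13, 6), (29, 13, 1), (24, 14, 3), (3, 7, 0), (0, 4, 5)],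
   [(4, 5, 4), (19, 12, 5), (14, 1, 8), (11, 2, 5), (18, 0, 3), (1, 3, 7), (28, 7, 9), (27, 15, 1)],
   [(29, 6, 1), (16, 0, 5), (7, 2, 3), (6, 12, 6), (5, 4, 0), (22, 15, 0), (19, 16, 6), (14, 17, 7), (17, 10, 5), (2, 18, 1)],
   [(27, 0, 6), (28, 5, 0), (1, 18, 0), (18, 15, 4), (11, 19, 4), (14, 16, 1), (19, 8, 2), (4, 7, 5)],
   [(2, 3, 6), (17, 14, 2), (14, 9, 2), (19, 1, 3), (22, 0, 7), (5, 6, 7), (6, 8, 1), (7, 19, 6), (16, 15, 2), (29, 4, 6)],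
   [(6, 19, 7), (7, 7, 6), (18, 6, 6), (11, 16, 0), (14, 12, 0), (17, 2, 1), (26, 1, 0), (15, 12, 3)],
   [(27, 10, 1), (10, 1, 4), (15, 7, 2), (6, 14, 1), (7, 20, 7), (18, 9, 8), (11, 13, 3), (14, 13, 4), (19, 9, 5), (4, 20, 6)],
   [(15, 1, 5), (26, 9, 0), (23, 20, 5), (20, 21, 7), (25, 18, 2), (16, 5, 8), (7, 17, 6), (6, 11, 7)],
   [(6, 17, 5), (5, 17, 0), (22, 14, 5), (3, 13, 7), (24, 3, 2), (29, 2, 7), (16, 1, 6), (7, 10, 7)],
   [(15, 8, 4), (26, 16, 9), (17, 19, 8), (14, 8, 7), (11, 1, 9), (18, 4, 1), (7, 5, 3), (6, 2, 2)],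
   [(21, 14, 4), (28, 3, 4), (27, 13, 5), (10, 9, 6), (15, 9, 7), (26, 13, 2), (17, 3, 3), (2, 11, 3)],
   [(6, 20, 0), (7, 9, 3), (16, 7, 1), (25, 3, 5), (20, 13, 0), (23, 11, 2), (26, 17, 9), (15, 16, 4)],
   [(23, 5, 5), (26, 4, 7), (17, 7, 8), (14, 19, 5), (19, 6, 3), (22, 18, 7), (3, 19, 0), (0, 16, 7)],
   [(10, 8, 3), (15, 6, 5), (26, 19, 3), (17, 20, 1), (14, 14, 7), (11, 17, 8), (18, 5, 6), (1, 15, 7), (28, 19, 9), (27, 12, 1)],
   [(4, 11, 1), (19, 17, 4), (14, 21, 3), (11, 21, 4), (18, 17, 1), (7, 11, 0), (6, 10, 6), (15, 5, 7), (10, 16, 5), (27, 14, 6)],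
   [(0, 6, 2), (3, 5, 9), (24, 10, 4), (29, 21, 6), (16, 21, 1), (25, 20, 3), (20, 19, 1), (23, 15, 5)],
   [(2, 15, 6), (21, 18, 6), (28, 20, 2), (27, 16, 2), (10, 6, 4), (15, 15, 3), (6, 7, 7), (7, 8, 0), (16, 12, 2), (29, 16, 8)],
   [(7, 14, 0), (16, 16, 3), (29, 19, 2), (24, 18, 5), (3, 21, 0), (22, 10, 2), (5, 9, 9), (6, 9, 4)],
   [(2, 20, 4), (17, 18, 4), (26, 21, 5), (15, 17, 2), (10, 17, 3), (27, 21, 2), (28, 18, 3), (21, 10, 3)]]

theorem sf147 : SurfFor W147 :=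
  surfFor_of_table (T := T147) (lam := [0, 2, 10, 11, 13, 14, 12, 9, 4, 7, 3, 1, 8, 6, 5]) (rows := rows147)
    (by decide +kernel) (by decide +kernel) (by decide +kernel) (by decide +kernel)

/-- the multiplication table of presentation 148 -/
def W148 : ℕ :=
  515930340518474503906851745983358981190812819276756569575564848875130843894004353219546132574357488431030760117751362491444364284401716103434830538669156496200840377375995343797546383411191393167122757202974019205119940659960229277849658292029527666988449008487235585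

/-- a surface for presentation 148 -/
def rows148 : List (List (ℕ × ℕ × ℕ)) :=
  [[(0, 1, 1), (1, 2, 0), (18, 1, 3), (19, 2, 2), (8, 1, 9), (13, 2, 6), (12, 1, 5), (23, 2, 8), (22, 1, 7), (9, 2, 4)],
   [(0, 2, 1), (1, 0, 0), (18, 2, 3), (19, 0, 2), (8, 2, 9), (13, 0, 6), (12, 2, 5), (23, 0, 8), (22, 2, 7), (9, 0, 4)],
   [(0, 0, 1), (1, 1, 0), (18, 0, 3), (19, 1, 2), (8, 0, 9), (13, 1, 6), (12, 0, 5), (23, 1, 8), (22, 0, 7), (9, 1, 4)]]

theorem sf148 : SurfFor W148 :=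
  surfFor_of_table (T := T148) (lam := [0, 5, 1, 6, 2, 12, 13, 8, 3, 14, 11, 10, 9, 4, 7]) (rows := rows148)
    (by decide +kernel) (by decide +kernel) (by decide +kernel) (by decide +kernel)

end Pool.Agent.TriSurf
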