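import Pool.Agent.TriSurf.SData
import Pool.Agent.TriSurf.PresT

/-!
# Surfaces
-/

set_option autoImplicit false
set_option maxRecDepth 100000

namespace Pool.Agent.TriSurf

/-- the multiplication table of presentation 149 -/
def W149 : ℕ :=
  644892753145099849674663454105279936460655191349800158282817133128645367617801571625739869671466702829598786334730652309875350284847257875163876999054693380360666272851996663175614225971102733963258984898040226609101263765263912047952735579075539172338883172461707265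

/-- a surface for presentation 149 -/
def rows149 : List (List (ℕ × ℕ × ℕ)) :=
  [[(0, 1, 3), (15, 2, 6), (24, 3, 6), (23, 4, 2), (10, 5, 5), (7, 6, 5), (26, 5, 9), (25, 7, 1)],
   [(2, 8, 2), (17, 8, 5), (28, 2, 7), (1, 0, 0), (18, 7, 0), (21, 9, 4), (8, 10, 6), (23, 3, 1), (24, 11, 0), (19, 7, 5)],
   [(4, 8, 4), (9, 7, 3), (28, 5, 7), (1, 4, 0), (18, 12, 0), (21, 3, 7), (14, 0, 1), (29, 1, 2)],
   [(27, 11, 1), (22, 1, 7), (29, 10, 5), (14, 6, 8), (11, 11, 3), (26, 4, 3), (25, 0, 2), (20, 2, 5), (3, 12, 9), (12, 4, 5)],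
   [(0, 2, 3), (15, 5, 6), (22, 0, 3), (27, 3, 5), (6, 11, 2), (13, 3, 9), (16, 12, 8), (5, 13, 4), (20, 14, 6), (25, 12, 1)],
   [(12, 6, 4), (3, 13, 0), (20, 10, 2), (25, 11, 5), (26, 6, 6), (11, 0, 4), (14, 4, 1), (29, 2, 2), (22, 7, 2), (27, 0, 6)],
   [(25, 13, 8), (20, 15, 1), (5, 12, 5), (16, 13, 1), (13, 5, 0), (6, 0, 5), (27, 5, 4), (22, 11, 4), (15, 3, 3), (0, 10, 4)],
   [(19, 1, 4), (24, 0, 7), (23, 5, 8), (8, 2, 1), (21, 8, 3), (18, 1, 9), (1, 11, 7), (28, 10, 0), (17, 9, 2), (2, 9, 5)],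
   [(27, 14, 3), (12, 8, 6), (3, 1, 0), (20, 7, 4), (5, 2, 0), (16, 1, 1), (13, 8, 1), (6, 14, 2)],
   [(6, 15, 5), (13, 9, 6), (16, 7, 8), (5, 10, 7), (20, 1, 5), (3, 7, 9), (12, 9, 1), (27, 15, 4)],
   [(29, 7, 7), (14, 11, 6), (21, 5, 2), (18, 13, 9), (1, 6, 9), (28, 3, 2), (9, 1, 6), (4, 9, 3)],
   [(25, 1, 8), (26, 3, 0), (7, 4, 4), (10, 3, 4), (23, 6, 7), (24, 5, 3), (15, 10, 1), (0, 7, 6)],
   [(19, 2, 4), (24, 4, 9), (15, 14, 5), (22, 14, 0), (29, 13, 2), (4, 6, 2), (9, 15, 0), (28, 13, 5), (17, 4, 6), (2, 3, 8)],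
   [(2, 5, 1), (17, 6, 3), (28, 12, 4), (9, 14, 7), (4, 4, 7), (29, 12, 7), (22, 15, 7), (15, 15, 2), (24, 6, 0), (19, 10, 3)],
   [(23, 12, 3), (10, 14, 4), (7, 8, 7), (26, 8, 0), (11, 14, 1), (14, 12, 2), (21, 4, 8), (8, 13, 3)],
   [(8, 12, 6), (21, 6, 1), (14, 13, 7), (11, 15, 6), (26, 9, 7), (7, 9, 0), (10, 15, 3), (23, 13, 6)]]

theorem sf149 : SurfFor W149 :=
  surfFor_of_table (T := T149) (lam := [0, 13, 8, 9, 6, 4, 11, 2, 3, 5, 14, 12, 1, 10, 7]) (rows := rows149)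
    (by decide +kernel) (by decide +kernel) (by decide +kernel) (by decide +kernel)

/-- the multiplication table of presentation 150 -/
def W150 : ℕ :=
  7924417967042673900034642922301617738508142694600126290262233441344786620716298133996846857762413855367271254653993774001247134742300948168384965845710133391618176827853506431092121747695049503211815692204225751243809104971480695946262824065535479149719099762396343828490

/-- a surface for presentation 150 -/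
def rows150 : List (List (ℕ × ℕ × ℕ)) :=
  [[(0, 1, 7), (1, 2, 7), (28, 3, 0), (7, 4, 4), (12, 1, 3), (15, 5, 7), (6, 6, 8), (5, 7, 9), (26, 8, 1), (11, 9, 4)],
   [(4, 10, 5), (27, 11, 8), (20, 5, 8), (13, 0, 4), (8, 4, 3), (3, 12, 4), (18, 2, 0), (1, 0, 0), (28, 9, 3), (29, 13, 8)],
   [(19, 1, 6), (24, 12, 3), (17, 3, 5), (2, 14, 4), (25, 12, 6), (26, 4, 1), (11, 3, 1), (0, 0, 1)],
   [(29, 0, 2), (10, 2, 6), (5, 4, 0), (6, 15, 6), (9, 14, 5), (16, 2, 2), (27, 12, 2), (4, 4, 5)],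
   [(4, 3, 2), (27, 2, 5), (16, 12, 5), (9, 1, 4), (6, 0, 3), (5, 3, 7), (10, 12, 1), (29, 15, 7)],
   [(29, 16, 7), (28, 14, 0), (7, 17, 3), (12, 18, 4), (13, 7, 3), (8, 16, 2), (3, 6, 9), (14, 0, 5), (21, 1, 2), (4, 11, 7)],
   [(17, 16, 1), (16, 17, 0), (9, 7, 5), (6, 18, 2), (5, 19, 9), (10, 20, 0), (29, 21, 1), (28, 7, 0), (7, 0, 6), (2, 5, 6)],
   [(29, 6, 7), (28, 21, 0), (7, 16, 3), (12, 5, 4), (13, 18, 3), (8, 6, 2), (3, 17, 9), (14, 22, 5), (21, 8, 2), (4, 0, 7)],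
   [(4, 9, 5), (27, 0, 8), (20, 7, 8), (13, 22, 4), (8, 23, 3), (3, 24, 4), (18, 25, 0), (1, 22, 0), (28, 26, 3), (29, 27, 8)],
   [(2, 28, 3), (7, 29, 3), (28, 13, 9), (29, 1, 8), (10, 0, 9), (5, 8, 0), (6, 27, 7), (9, 13, 4), (16, 26, 9), (17, 10, 8)],
   [(2, 27, 3), (7, 20, 3), (28, 28, 9), (29, 30, 8), (10, 11, 9), (5, 1, 0), (6, 13, 7), (9, 28, 4), (16, 9, 9), (17, 26, 8)],
   [(0, 30, 7), (1, 31, 7), (28, 32, 0), (7, 33, 4), (12, 30, 3), (15, 18, 7), (6, 16, 8), (5, 5, 9), (26, 1, 1), (11, 10, 4)],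
   [(0, 15, 8), (11, 4, 6), (26, 3, 6), (25, 2, 1), (2, 1, 5), (17, 4, 2), (24, 2, 4), (19, 14, 3)],
   [(4, 29, 2), (21, 14, 7), (14, 15, 4), (3, 26, 0), (8, 9, 7), (13, 27, 6), (12, 28, 5), (7, 10, 6), (28, 1, 9), (29, 9, 2)],
   [(29, 5, 1), (28, 16, 6), (1, 15, 9), (18, 12, 7), (3, 2, 3), (8, 3, 4), (13, 15, 5), (20, 13, 1), (27, 29, 1), (4, 17, 4)],
   [(11, 16, 5), (26, 21, 8), (5, 27, 0), (6, 26, 1), (15, 13, 2), (12, 14, 6), (7, 3, 3), (28, 4, 7), (1, 12, 0), (0, 14, 2)],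
   [(17, 17, 1), (16, 6, 0), (9, 5, 5), (6, 7, 2), (5, 21, 9), (10, 15, 0), (29, 14, 1), (28, 5, 0), (7, 11, 6), (2, 18, 6)],
   [(17, 6, 1), (16, 16, 0), (9, 18, 5), (6, 5, 2), (5, 14, 9), (10, 29, 0), (29, 19, 1), (28, 18, 0), (7, 22, 6), (2, 7, 6)],
   [(29, 17, 7), (28, 19, 0), (7, 6, 3), (12, 7, 4), (13, 5, 3), (8, 17, 2), (3, 16, 9), (14, 11, 5), (21, 30, 2), (4, 22, 7)],
   [(29, 18, 1), (28, 17, 6), (1, 29, 9), (18, 34, 7), (3, 31, 3), (8, 32, 4), (13, 29, 5), (20, 28, 1), (27, 20, 1), (4, 6, 4)],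
   [(11, 6, 5), (26, 19, 8), (5, 28, 0), (6, 10, 1), (15, 27, 2), (12, 21, 6), (7, 35, 3), (28, 23, 7), (1, 24, 0), (0, 21, 2)],
   [(29, 7, 1), (28, 6, 6), (1, 20, 9), (18, 24, 7), (3, 25, 3), (8, 35, 4), (13, 20, 5), (20, 27, 1), (27, 15, 1), (4, 16, 4)],
   [(0, 8, 7), (1, 25, 7), (28, 35, 0), (7, 23, 4), (12, 8, 3), (15, 7, 7), (6, 17, 8), (5, 18, 9), (26, 30, 1), (11, 26, 4)],
   [(4, 35, 2), (27, 25, 5), (16, 24, 5), (9, 8, 4), (6, 22, 3), (5, 35, 7), (10, 24, 1), (29, 20, 7)],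
   [(0, 20, 8), (11, 23, 6), (26, 35, 6), (25, 25, 1), (2, 8, 5), (17, 23, 2), (24, 25, 4), (19, 21, 3)],
   [(19, 8, 6), (24, 24, 3), (17, 35, 5), (2, 21, 4), (25, 24, 6), (26, 23, 1), (11, 35, 1), (0, 22, 1)],
   [(2, 13, 3), (7, 15, 3), (28, 27, 9), (29, 8, 8), (10, 22, 9), (5, 30, 0), (6, 28, 7), (9, 27, 4), (16, 10, 9), (17, 9, 8)],
   [(4, 15, 2), (21, 21, 7), (14, 20, 4), (3, 10, 0), (8, 26, 7), (13, 28, 6), (12, 13, 5), (7, 9, 6), (28, 8, 9), (29, 26, 2)],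
   [(4, 20, 2), (21, 19, 7), (14, 29, 4), (3, 9, 0), (8, 10, 7), (13, 13, 6), (12, 27, 5), (7, 26, 6), (28, 30, 9), (29, 10, 2)],
   [(11, 17, 5), (26, 14, 8), (5, 13, 0), (6, 9, 1), (15, 28, 2), (12, 19, 6), (7, 32, 3), (28, 33, 7), (1, 34, 0), (0, 19, 2)],
   [(4, 26, 5), (27, 22, 8), (20, 18, 8), (13, 11, 4), (8, 33, 3), (3, 34, 4), (18, 31, 0), (1, 11, 0), (28, 10, 3), (29, 28, 8)],
   [(19, 30, 6), (24, 34, 3), (17, 32, 5), (2, 19, 4), (25, 34, 6), (26, 33, 1), (11, 32, 1), (0, 11, 1)],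
   [(29, 11, 2), (10, 31, 6), (5, 33, 0), (6, 29, 6), (9, 19, 5), (16, 31, 2), (27, 34, 2), (4, 33, 5)],
   [(4, 32, 2), (27, 31, 5), (16, 34, 5), (9, 30, 4), (6, 11, 3), (5, 32, 7), (10, 34, 1), (29, 29, 7)],
   [(0, 29, 8), (11, 33, 6), (26, 32, 6), (25, 31, 1), (2, 30, 5), (17, 33, 2), (24, 31, 4), (19, 19, 3)],
   [(29, 22, 2), (10, 25, 6), (5, 23, 0), (6, 20, 6), (9, 21, 5), (16, 25, 2), (27, 24, 2), (4, 23, 5)]]

theorem sf150 : SurfFor W150 :=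
  surfFor_of_table (T := T150) (lam := [0, 14, 9, 3, 11, 1, 13, 10, 5, 2, 7, 12, 4, 8, 6]) (rows := rows150)
    (by decide +kernel) (by decide +kernel) (by decide +kernel) (by decide +kernel)

/-- the multiplication table of presentation 151 -/
def W151 : ℕ :=
  128978403232065191968520943154238577647267724443224888284526016324802355774131962657060889622302041397181092521408392136341084109114127431034991498601433267561398746855252287095140955658935334046618625566074991466984828279878880283857069060596260275157535614958567425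

/-- a surface for presentation 151 -/
def rows151 : List (List (ℕ × ℕ × ℕ)) :=
  [[(4, 1, 4), (3, 2, 7), (10, 3, 5), (25, 4, 3), (26, 5, 5), (15, 6, 1), (14, 7, 4), (27, 8, 4)],
   [(13, 9, 5), (28, 10, 7), (1, 11, 9), (18, 2, 0), (5, 0, 0), (16, 8, 3), (21, 12, 2), (20, 13, 5), (7, 11, 3), (12, 3, 1)],
   [(19, 1, 3), (16, 11, 8), (21, 14, 2), (4, 12, 5), (27, 9, 1), (14, 15, 2), (15, 3, 6), (2, 0, 1)],
   [(12, 9, 6), (13, 1, 9), (28, 11, 2), (1, 7, 7), (18, 4, 4), (11, 0, 2), (14, 2, 6), (27, 15, 1), (22, 16, 0), (29, 17, 2)],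
   [(29, 14, 8), (22, 12, 9), (23, 5, 6), (24, 0, 3), (19, 3, 4), (16, 7, 6), (5, 6, 7), (6, 18, 3)],
   [(0, 19, 6), (17, 10, 2), (26, 8, 7), (15, 20, 1), (14, 6, 2), (27, 0, 4), (22, 4, 2), (23, 12, 8)],
   [(27, 7, 5), (14, 0, 5), (15, 5, 4), (26, 20, 0), (17, 14, 4), (20, 11, 6), (21, 18, 4), (4, 4, 6)],
   [(23, 11, 1), (22, 10, 5), (27, 20, 3), (14, 8, 5), (15, 0, 6), (26, 6, 0), (17, 4, 5), (0, 3, 3)],
   [(4, 10, 1), (21, 9, 3), (20, 12, 3), (17, 1, 5), (26, 0, 7), (15, 7, 3), (14, 20, 2), (27, 5, 2)],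
   [(15, 15, 3), (26, 2, 4), (17, 12, 4), (20, 8, 1), (7, 10, 0), (12, 1, 0), (13, 3, 0), (2, 17, 1)],
   [(6, 9, 4), (5, 8, 0), (16, 5, 1), (19, 19, 5), (24, 20, 4), (23, 7, 1), (22, 11, 0), (29, 1, 1)],
   [(23, 10, 6), (22, 7, 0), (29, 3, 2), (6, 1, 8), (5, 13, 4), (16, 18, 5), (21, 6, 5), (20, 14, 3), (17, 2, 1), (0, 1, 2)],
   [(0, 14, 7), (17, 13, 6), (20, 1, 6), (21, 8, 2), (16, 9, 2), (5, 2, 3), (6, 14, 1), (29, 19, 7), (22, 5, 7), (23, 4, 1)],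
   [(2, 20, 6), (15, 19, 3), (14, 17, 7), (27, 18, 6), (4, 11, 4), (21, 1, 7), (16, 12, 1), (19, 14, 6)],
   [(12, 19, 8), (7, 12, 6), (20, 2, 2), (21, 11, 7), (16, 6, 4), (5, 20, 7), (18, 13, 7), (1, 12, 0), (28, 4, 0), (13, 18, 2)],
   [(25, 16, 1), (26, 3, 7), (15, 2, 5), (14, 9, 0), (11, 17, 0), (18, 21, 5), (1, 21, 0), (28, 19, 0), (3, 18, 0), (10, 17, 5)],
   [(23, 3, 8), (24, 15, 0), (19, 17, 4), (16, 16, 6), (21, 21, 2), (20, 21, 3), (17, 16, 3), (0, 17, 3)],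
   [(10, 15, 4), (3, 9, 7), (28, 3, 9), (1, 16, 7), (18, 16, 2), (11, 15, 9), (14, 18, 7), (15, 13, 2), (26, 19, 2), (25, 21, 6)],
   [(2, 15, 8), (13, 19, 9), (12, 14, 9), (7, 4, 7), (20, 6, 6), (17, 11, 5), (26, 13, 3), (15, 17, 6)],
   [(29, 15, 7), (22, 21, 7), (27, 17, 8), (14, 13, 1), (11, 20, 5), (18, 10, 3), (1, 5, 0), (28, 12, 7), (13, 14, 0), (12, 18, 1)],
   [(27, 6, 3), (14, 5, 3), (15, 8, 6), (26, 7, 2), (25, 10, 4), (10, 19, 4), (3, 13, 0), (4, 14, 5)],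
   [(0, 15, 6), (17, 21, 4), (20, 16, 4), (21, 16, 5), (16, 21, 1), (19, 15, 5), (24, 17, 9), (23, 19, 1)]]

theorem sf151 : SurfFor W151 :=
  surfFor_of_table (T := T151) (lam := [0, 6, 11, 13, 12, 14, 3, 4, 1, 5, 8, 2, 9, 7, 10]) (rows := rows151)
    (by decide +kernel) (by decide +kernel) (by decide +kernel) (by decide +kernel)

/-- the multiplication table of presentation 152 -/
def W152 : ℕ :=
  12381934562301309688708973929402008466732095604535920247987068408307253682841142281237241165335463940853239337481483955157338284108309305783998994819804840258626470742353914684734298511440850896049743459742696970958152909478713971630559823024858396829327004350770315265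

/-- a surface for presentation 152 -/
def rows152 : List (List (ℕ × ℕ × ℕ)) :=
  [[(2, 1, 6), (11, 2, 1), (12, 3, 2), (23, 4, 4), (6, 5, 6), (27, 6, 2), (16, 7, 0), (29, 8, 5)],
   [(19, 2, 5), (22, 9, 6), (17, 2, 7), (24, 10, 4), (9, 4, 0), (8, 2, 2), (3, 0, 0), (20, 8, 4), (13, 11, 4), (4, 10, 6)],
   [(21, 3, 3), (10, 0, 1), (9, 1, 5), (8, 4, 7), (7, 9, 7), (18, 1, 0), (27, 10, 5), (16, 1, 2), (13, 9, 5), (4, 12, 5)],
   [(27, 9, 1), (16, 4, 5), (13, 0, 2), (20, 2, 0), (15, 12, 4), (26, 13, 2), (25, 14, 6), (6, 15, 3)],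
   [(8, 1, 4), (7, 10, 3), (14, 8, 0), (19, 5, 7), (22, 0, 3), (17, 3, 1), (24, 9, 0), (9, 2, 3)],
   [(17, 16, 6), (24, 17, 5), (29, 18, 1), (2, 19, 3), (5, 20, 0), (14, 6, 3), (7, 0, 4), (18, 4, 3), (1, 8, 7), (0, 7, 6)],
   [(6, 21, 4), (25, 7, 1), (26, 0, 5), (15, 5, 5), (20, 20, 9), (13, 13, 5), (16, 22, 2), (27, 19, 6)],
   [(17, 0, 6), (24, 6, 1), (9, 21, 3), (10, 15, 7), (21, 18, 5), (28, 16, 7), (1, 5, 9), (0, 8, 6)],
   [(15, 4, 2), (26, 10, 2), (25, 12, 8), (10, 11, 5), (21, 1, 7), (28, 0, 7), (1, 7, 7), (0, 5, 8)],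
   [(25, 4, 6), (26, 3, 0), (15, 15, 2), (20, 11, 7), (3, 12, 6), (12, 2, 8), (23, 1, 1), (6, 2, 4)],
   [(29, 14, 2), (16, 12, 9), (27, 8, 1), (6, 4, 1), (25, 1, 3), (26, 2, 6), (5, 1, 9), (2, 11, 3)],
   [(4, 15, 1), (13, 21, 1), (20, 14, 3), (3, 10, 7), (12, 1, 8), (11, 8, 3), (28, 12, 7), (21, 9, 3)],
   [(0, 14, 1), (1, 17, 0), (18, 22, 4), (7, 13, 3), (14, 3, 4), (5, 2, 9), (2, 9, 4), (29, 11, 6), (24, 8, 2), (17, 10, 1)],
   [(29, 17, 2), (16, 14, 7), (27, 3, 5), (6, 12, 3), (23, 22, 3), (12, 6, 5), (11, 20, 8), (2, 23, 3)],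
   [(0, 17, 1), (1, 12, 0), (28, 10, 0), (21, 11, 2), (10, 21, 0), (9, 15, 4), (24, 3, 6), (17, 13, 1)],
   [(2, 21, 2), (5, 11, 0), (14, 9, 2), (7, 3, 7), (8, 14, 5), (3, 21, 7), (12, 18, 6), (11, 7, 3)],
   [(2, 18, 4), (5, 23, 0), (26, 20, 3), (25, 23, 6), (6, 22, 6), (27, 17, 6), (16, 5, 0), (29, 7, 5)],
   [(0, 12, 1), (1, 14, 0), (28, 13, 0), (21, 23, 2), (10, 18, 2), (25, 5, 1), (26, 16, 5), (15, 22, 5)],
   [(21, 19, 4), (28, 5, 2), (11, 17, 4), (12, 23, 1), (3, 16, 0), (20, 7, 4), (13, 15, 6), (4, 21, 6)],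
   [(6, 20, 5), (23, 23, 8), (12, 20, 1), (3, 5, 3), (20, 18, 0), (15, 21, 5), (26, 6, 7), (25, 22, 1)],
   [(4, 5, 4), (13, 19, 2), (16, 23, 7), (27, 16, 2), (18, 23, 9), (7, 19, 0), (8, 22, 0), (9, 23, 4), (10, 13, 6), (21, 6, 4)],
   [(11, 14, 4), (12, 11, 1), (3, 15, 0), (8, 7, 2), (7, 6, 0), (14, 19, 5), (5, 18, 7), (2, 15, 5)],
   [(9, 20, 6), (24, 19, 7), (17, 6, 6), (22, 13, 4), (19, 12, 2), (14, 17, 7), (7, 16, 4), (8, 23, 5)],
   [(4, 16, 1), (13, 18, 3), (20, 17, 3), (3, 13, 7), (8, 20, 7), (9, 22, 7), (24, 16, 3), (17, 20, 2), (22, 19, 1), (19, 20, 4)]]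

theorem sf152 : SurfFor W152 :=
  surfFor_of_table (T := T152) (lam := [0, 13, 4, 14, 12, 3, 8, 1, 2, 7, 6, 10, 9, 11, 5]) (rows := rows152)
    (by decide +kernel) (by decide +kernel) (by decide +kernel) (by decide +kernel)

/-- the multiplication table of presentation 153 -/
def W153 : ℕ :=
  661265055257783433515537528963585535986364034621150272827400865627941020208868633709817578305549468353426940066317919516662715701281824748787914444182999237395786739413252942285946924030905922365107502497623727463307839774382155897175446021236096332517063203487745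

/-- a surface for presentation 153 -/
def rows153 : List (List (ℕ × ℕ × ℕ)) :=
  [[(0, 1, 3), (19, 1, 4), (22, 0, 7), (27, 1, 8), (4, 2, 8), (7, 2, 3), (20, 1, 9), (23, 0, 2)],
   [(2, 2, 2), (5, 3, 3), (28, 1, 5), (1, 0, 0), (18, 0, 1), (29, 1, 2), (6, 3, 2), (3, 2, 9), (26, 0, 3), (21, 0, 6)],
   [(21, 3, 1), (26, 3, 4), (3, 1, 0), (6, 0, 5), (29, 2, 7), (18, 3, 6), (1, 3, 7), (28, 2, 4), (5, 0, 4), (2, 1, 7)],
   [(23, 3, 5), (20, 2, 0), (7, 1, 6), (4, 1, 1), (27, 2, 1), (22, 3, 0), (19, 2, 5), (0, 2, 6)]]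

theorem sf153 : SurfFor W153 :=
  surfFor_of_table (T := T153) (lam := [0, 9, 3, 8, 6, 12, 13, 10, 14, 2, 4, 1, 5, 7, 11]) (rows := rows153)
    (by decide +kernel) (by decide +kernel) (by decide +kernel) (by decide +kernel)

/-- the multiplication table of presentation 154 -/
def W154 : ℕ :=
  33018418036231770758791444670217727137057658314322081644869517881501347755582814832119667784633983562422003275395445549251932255700224245670703735589066406502697774114700478276754938130798186328385325609617268124162709632809667947622253529221778512262521642974953078785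

/-- a surface for presentation 154 -/
def rows154 : List (List (ℕ × ℕ × ℕ)) :=
  [[(0, 1, 1), (1, 2, 0), (28, 0, 5), (3, 3, 3), (2, 3, 4), (29, 0, 2), (26, 2, 7), (27, 1, 6)],
   [(0, 2, 1), (1, 0, 0), (28, 1, 5), (3, 4, 3), (2, 4, 4), (29, 1, 2), (26, 0, 7), (27, 2, 6)],
   [(0, 0, 1), (1, 1, 0), (28, 2, 5), (3, 5, 3), (2, 5, 4), (29, 2, 2), (26, 1, 7), (27, 0, 6)],
   [(27, 4, 1), (26, 5, 0), (29, 3, 5), (2, 0, 3), (3, 0, 4), (28, 3, 2), (1, 5, 7), (0, 4, 6)],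
   [(27, 5, 1), (26, 3, 0), (29, 4, 5), (2, 1, 3), (3, 1, 4), (28, 4, 2), (1, 3, 7), (0, 5, 6)],
   [(27, 3, 1), (26, 4, 0), (29, 5, 5), (2, 2, 3), (3, 2, 4), (28, 5, 2), (1, 4, 7), (0, 3, 6)]]

theorem sf154 : SurfFor W154 :=
  surfFor_of_table (T := T154) (lam := [0, 3, 2, 9, 6, 10, 12, 14, 8, 7, 11, 13, 5, 1, 4]) (rows := rows154)
    (by decide +kernel) (by decide +kernel) (by decide +kernel) (by decide +kernel)

/-- the multiplication table of presentation 155 -/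
def W155 : ℕ :=
  18572854672220290656630705554415257084898947573675062938445891462212287281859357062761370890954454867387572871536092165330290532575496599684959739166730808113932655544406824686422327567898995259264317286415452091216324087611843149874249169968800060208304513615904374785

/-- a surface for presentation 155 -/
def rows155 : List (List (ℕ × ℕ × ℕ)) :=
  [[(6, 1, 9), (5, 2, 6), (22, 3, 7), (7, 4, 7), (24, 5, 5), (13, 6, 4), (16, 6, 9), (19, 2, 2)],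
   [(0, 2, 1), (1, 7, 0), (18, 3, 3), (11, 8, 6), (14, 9, 0), (23, 10, 2), (2, 11, 2), (13, 11, 7), (24, 2, 7), (7, 0, 0)],
   [(0, 7, 1), (1, 1, 0), (18, 0, 7), (11, 6, 8), (14, 12, 4), (3, 3, 0), (4, 0, 1), (25, 1, 8), (20, 11, 6), (9, 13, 3)],
   [(2, 2, 5), (13, 12, 3), (16, 8, 7), (19, 1, 2), (6, 7, 7), (27, 14, 6), (26, 4, 0), (23, 0, 2)],
   [(27, 3, 6), (26, 14, 5), (23, 8, 2), (14, 15, 6), (3, 16, 0), (22, 17, 4), (5, 5, 6), (6, 0, 3)],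
   [(2, 13, 8), (15, 5, 8), (12, 17, 2), (21, 18, 1), (20, 6, 5), (25, 0, 4), (4, 4, 6), (3, 17, 3), (14, 5, 1), (23, 13, 7)],
   [(4, 6, 3), (3, 11, 9), (22, 11, 0), (5, 6, 0), (12, 0, 5), (21, 5, 4), (8, 18, 0), (29, 12, 5), (10, 2, 3), (17, 0, 6)],
   [(0, 1, 1), (1, 2, 0), (28, 13, 2), (15, 18, 5), (12, 19, 6), (5, 20, 7), (22, 14, 7), (7, 3, 4)],
   [(4, 12, 2), (3, 15, 7), (22, 4, 2), (7, 14, 4), (24, 16, 3), (29, 9, 1), (10, 1, 3), (17, 3, 2)],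
   [(15, 1, 4), (28, 8, 5), (17, 16, 2), (4, 15, 4), (25, 20, 3), (16, 16, 5), (13, 14, 2), (2, 10, 3)],
   [(6, 21, 4), (5, 11, 3), (22, 1, 5), (3, 9, 7), (14, 14, 1), (23, 20, 5), (26, 15, 2), (27, 19, 1)],
   [(23, 6, 2), (14, 11, 8), (3, 1, 6), (4, 10, 1), (25, 21, 3), (20, 13, 4), (21, 2, 8), (12, 1, 7), (15, 11, 1), (2, 6, 1)],
   [(7, 19, 3), (22, 15, 0), (5, 8, 0), (12, 3, 1), (15, 2, 4), (28, 6, 7), (1, 18, 9), (0, 17, 8)],
   [(17, 21, 1), (10, 18, 6), (29, 7, 2), (8, 2, 9), (21, 11, 5), (12, 21, 2), (5, 13, 9), (22, 5, 9), (3, 5, 0), (4, 13, 6)],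
   [(2, 20, 6), (15, 10, 4), (12, 9, 6), (5, 16, 4), (6, 8, 3), (27, 4, 1), (26, 3, 5), (23, 7, 6)],
   [(23, 12, 1), (26, 19, 2), (27, 10, 6), (6, 20, 4), (5, 9, 3), (12, 16, 1), (15, 4, 3), (2, 8, 1)],
   [(2, 4, 4), (13, 15, 5), (16, 9, 2), (25, 8, 4), (4, 14, 3), (17, 9, 5), (28, 20, 2), (15, 17, 5)],
   [(7, 21, 7), (24, 18, 2), (13, 5, 2), (2, 5, 7), (23, 4, 5), (14, 16, 7), (11, 20, 1), (18, 19, 4), (1, 12, 7), (0, 18, 8)],
   [(9, 6, 6), (20, 5, 3), (25, 17, 1), (4, 21, 6), (3, 19, 7), (14, 7, 3), (11, 13, 1), (18, 21, 0), (1, 17, 9), (0, 12, 6)],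
   [(23, 21, 5), (26, 10, 7), (27, 15, 1), (6, 12, 0), (19, 17, 7), (16, 20, 0), (13, 7, 4), (2, 18, 4)],
   [(17, 19, 5), (10, 17, 6), (29, 16, 6), (24, 9, 4), (7, 15, 3), (22, 10, 5), (3, 14, 0), (4, 7, 5)],
   [(19, 18, 7), (16, 13, 0), (13, 13, 5), (24, 11, 4), (7, 10, 0), (22, 19, 0), (5, 18, 3), (6, 17, 0)]]

theorem sf155 : SurfFor W155 :=
  surfFor_of_table (T := T155) (lam := [0, 7, 10, 2, 1, 14, 5, 3, 6, 11, 13, 4, 8, 9, 12]) (rows := rows155)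
    (by decide +kernel) (by decide +kernel) (by decide +kernel) (by decide +kernel)

end Pool.Agent.TriSurf
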