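import Pool.Agent.TriSurf.SData
import Pool.Agent.TriSurf.PresT

/-!
# Surfaces
-/

set_option autoImplicit false
set_option maxRecDepth 100000

namespace Pool.Agent.TriSurf

/-- the multiplication table of presentation 156 -/
def W156 : ℕ :=
  14445585074550354888567410815484768227866583177174683825413722247262534539119300141228448948257184188539792051926379234917788341602576258363162308735257136165437403554943463404831002848405161081063434210893933087918843664943019466850163621231369586826791124457461121025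

/-- a surface for presentation 156 -/
def rows156 : List (List (ℕ × ℕ × ℕ)) :=
  [[(0, 1, 1), (1, 2, 0), (18, 3, 5), (7, 4, 9), (8, 5, 3), (11, 6, 6), (20, 7, 4), (9, 8, 3)],
   [(0, 2, 1), (1, 0, 0), (18, 8, 2), (21, 9, 6), (6, 10, 6), (3, 11, 0), (26, 12, 4), (9, 13, 3)],
   [(0, 0, 1), (1, 1, 0), (18, 13, 2), (21, 14, 1), (6, 15, 3), (3, 5, 0), (26, 16, 6), (9, 3, 6)],
   [(6, 14, 4), (21, 17, 3), (16, 16, 0), (29, 18, 7), (24, 4, 0), (19, 0, 2), (8, 2, 7), (11, 16, 5), (12, 19, 3), (25, 4, 5)],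
   [(25, 3, 4), (12, 18, 6), (11, 20, 4), (8, 7, 0), (19, 14, 5), (24, 3, 9), (29, 19, 2), (16, 20, 9), (21, 5, 4), (6, 0, 3)],
   [(2, 2, 5), (15, 15, 2), (26, 6, 7), (9, 0, 4), (20, 4, 8), (23, 20, 8), (16, 12, 0), (29, 16, 7)],
   [(4, 15, 1), (23, 18, 1), (20, 11, 5), (11, 21, 4), (8, 22, 0), (19, 7, 5), (10, 0, 5), (27, 5, 2)],
   [(9, 4, 3), (26, 20, 3), (3, 17, 7), (6, 8, 4), (21, 0, 6), (18, 6, 5), (1, 22, 7), (0, 14, 6)],
   [(27, 10, 3), (10, 9, 7), (19, 1, 2), (8, 0, 7), (7, 7, 3), (14, 17, 6), (5, 13, 7), (4, 19, 7)],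
   [(8, 10, 2), (7, 22, 3), (14, 23, 6), (15, 18, 3), (26, 15, 7), (9, 10, 7), (20, 1, 3), (11, 8, 1)],
   [(11, 15, 6), (20, 22, 4), (9, 9, 0), (26, 8, 0), (15, 19, 6), (14, 11, 1), (7, 1, 4), (8, 9, 5)],
   [(2, 1, 5), (15, 10, 5), (14, 19, 5), (7, 16, 3), (18, 21, 5), (21, 6, 2), (16, 18, 0), (29, 12, 5)],
   [(17, 5, 6), (24, 20, 7), (19, 23, 3), (10, 13, 4), (27, 1, 6), (28, 11, 7), (1, 18, 9), (0, 16, 8)],
   [(27, 17, 5), (10, 14, 2), (19, 2, 2), (8, 1, 7), (11, 12, 3), (20, 23, 2), (23, 19, 8), (4, 8, 6)],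
   [(9, 15, 4), (20, 2, 3), (11, 13, 1), (8, 17, 4), (7, 3, 0), (18, 4, 4), (1, 7, 7), (0, 22, 6)],
   [(4, 18, 2), (5, 6, 0), (14, 5, 1), (7, 2, 4), (8, 14, 0), (19, 22, 5), (10, 10, 0), (27, 9, 4)],
   [(17, 3, 2), (22, 17, 2), (25, 21, 6), (6, 11, 3), (3, 19, 4), (10, 3, 7), (27, 2, 6), (28, 5, 7), (1, 12, 7), (0, 18, 8)],
   [(29, 20, 2), (16, 21, 7), (23, 16, 1), (20, 3, 1), (9, 14, 3), (26, 13, 0), (15, 8, 5), (2, 7, 2)],
   [(17, 11, 6), (22, 6, 1), (5, 15, 0), (14, 9, 3), (15, 23, 5), (2, 20, 5), (13, 4, 1), (28, 3, 3), (1, 16, 9), (0, 12, 6)],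
   [(0, 21, 1), (1, 20, 0), (28, 4, 6), (13, 3, 8), (2, 16, 4), (15, 11, 2), (14, 10, 4), (5, 8, 7), (22, 13, 6), (17, 23, 1)],
   [(0, 19, 1), (1, 21, 0), (28, 17, 0), (27, 7, 1), (10, 4, 2), (3, 18, 5), (6, 23, 4), (25, 12, 1), (22, 5, 5), (17, 4, 7)],
   [(0, 20, 1), (1, 19, 0), (28, 23, 0), (27, 22, 1), (10, 6, 3), (19, 11, 4), (24, 16, 2), (17, 17, 1)],
   [(9, 6, 4), (26, 21, 3), (3, 23, 7), (6, 9, 1), (21, 10, 1), (18, 15, 5), (1, 14, 7), (0, 7, 6)],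
   [(29, 21, 2), (16, 19, 9), (21, 13, 5), (18, 12, 2), (7, 20, 6), (14, 18, 4), (15, 9, 2), (2, 22, 2)]]

theorem sf156 : SurfFor W156 :=
  surfFor_of_table (T := T156) (lam := [0, 9, 7, 14, 1, 13, 3, 4, 2, 12, 11, 8, 10, 6, 5]) (rows := rows156)
    (by decide +kernel) (by decide +kernel) (by decide +kernel) (by decide +kernel)

/-- the multiplication table of presentation 157 -/
def W157 : ℕ :=
  16509424519644712117126685015369552537441725808142911893685887485622577418147570171586436883879455387753791207027735821997028969664415245926221070980598691871403945507522453191836475772728354612095377850691185075350651139236089996700254075580476511898482279978048159745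

/-- a surface for presentation 157 -/
def rows157 : List (List (ℕ × ℕ × ℕ)) :=
  [[(6, 1, 6), (19, 2, 2), (10, 3, 7), (13, 4, 6), (28, 5, 2), (15, 6, 6), (12, 7, 7), (23, 2, 6)],
   [(13, 8, 5), (10, 9, 0), (19, 10, 5), (26, 11, 7), (3, 8, 7), (20, 2, 3), (7, 0, 0), (4, 2, 5)],
   [(0, 4, 1), (1, 3, 0), (18, 0, 1), (21, 1, 5), (14, 8, 6), (5, 1, 7), (22, 0, 7), (11, 7, 6)],
   [(0, 2, 1), (1, 4, 0), (18, 12, 5), (9, 5, 7), (6, 7, 1), (23, 6, 4), (22, 4, 7), (11, 0, 2)],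
   [(0, 3, 1), (1, 2, 0), (18, 7, 5), (21, 11, 2), (8, 13, 4), (17, 5, 3), (12, 0, 3), (23, 3, 6), (22, 6, 3), (11, 12, 6)],
   [(27, 12, 4), (24, 6, 7), (29, 0, 4), (16, 4, 5), (7, 13, 3), (20, 9, 6), (17, 7, 2), (8, 3, 3)],
   [(2, 12, 3), (15, 14, 3), (12, 12, 7), (23, 4, 8), (22, 3, 5), (5, 7, 0), (14, 0, 5), (25, 5, 1)],
   [(4, 6, 5), (7, 3, 4), (16, 5, 6), (9, 9, 5), (6, 11, 3), (19, 4, 2), (10, 2, 7), (13, 0, 6)],
   [(25, 11, 6), (14, 15, 2), (5, 13, 7), (22, 10, 2), (23, 9, 1), (12, 1, 0), (15, 2, 4), (2, 1, 4)],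
   [(11, 1, 1), (22, 8, 4), (23, 10, 1), (12, 15, 4), (17, 11, 4), (8, 7, 3), (21, 5, 5), (18, 13, 2), (1, 14, 7), (0, 10, 6)],
   [(11, 15, 5), (22, 9, 2), (23, 8, 3), (6, 13, 6), (9, 11, 0), (18, 1, 2), (1, 9, 9), (0, 14, 6)],
   [(8, 10, 4), (17, 13, 5), (20, 4, 3), (7, 7, 4), (16, 9, 4), (29, 15, 3), (24, 8, 0), (27, 1, 3)],
   [(4, 14, 2), (7, 15, 7), (20, 14, 4), (3, 6, 0), (26, 5, 0), (19, 3, 2), (10, 4, 9), (13, 6, 2)],
   [(13, 15, 1), (10, 14, 0), (19, 9, 7), (6, 5, 4), (9, 4, 4), (16, 11, 1), (7, 10, 3), (4, 8, 2)],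
   [(11, 13, 1), (22, 15, 0), (5, 12, 0), (14, 6, 1), (21, 12, 2), (18, 15, 6), (1, 10, 7), (0, 9, 8)],
   [(23, 14, 1), (12, 13, 0), (15, 8, 1), (28, 11, 5), (13, 9, 3), (10, 10, 0), (19, 14, 5), (6, 12, 1)]]

theorem sf157 : SurfFor W157 :=
  surfFor_of_table (T := T157) (lam := [0, 1, 7, 8, 11, 2, 6, 3, 13, 9, 14, 10, 4, 12, 5]) (rows := rows157)
    (by decide +kernel) (by decide +kernel) (by decide +kernel) (by decide +kernel)

/-- the multiplication table of presentation 158 -/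
def W158 : ℕ :=
  80612824653064300660655650604341425159358942516763075019017859505761142176036985389852619002292325343343094737840114499664115926894463976451346244923276899809364098013712141910322793096284250441644116187937442383914005494898130565662299122688171793840008221020913665

/-- a surface for presentation 158 -/
def rows158 : List (List (ℕ × ℕ × ℕ)) :=
  [[(2, 1, 5), (5, 2, 7), (26, 3, 0), (3, 4, 0), (20, 5, 4), (25, 6, 2), (16, 2, 4), (15, 7, 1)],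
   [(4, 8, 5), (23, 6, 4), (10, 5, 2), (17, 3, 5), (26, 2, 0), (3, 0, 0), (20, 7, 0), (25, 9, 4)],
   [(27, 1, 4), (14, 3, 4), (5, 10, 7), (26, 7, 2), (17, 0, 6), (10, 6, 1), (23, 3, 1), (4, 0, 1)],
   [(27, 0, 2), (22, 2, 6), (9, 6, 0), (24, 10, 0), (15, 2, 1), (16, 1, 3), (25, 5, 1), (4, 4, 1)],
   [(2, 0, 3), (5, 3, 7), (14, 5, 0), (21, 11, 3), (8, 7, 4), (11, 10, 5), (24, 9, 1), (15, 5, 5)],
   [(15, 4, 2), (24, 3, 6), (11, 1, 2), (8, 6, 3), (21, 0, 4), (14, 4, 7), (5, 9, 0), (2, 11, 4)],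
   [(8, 3, 2), (11, 2, 5), (24, 0, 5), (9, 5, 3), (22, 1, 1), (27, 8, 4), (14, 11, 0), (21, 10, 1)],
   [(21, 1, 6), (14, 0, 7), (27, 2, 3), (22, 10, 6), (9, 4, 4), (24, 11, 2), (11, 8, 2), (8, 9, 5)],
   [(4, 11, 6), (23, 9, 6), (10, 7, 6), (17, 11, 1), (26, 6, 5), (5, 1, 0), (14, 9, 3), (27, 10, 3)],
   [(4, 5, 6), (25, 4, 6), (16, 10, 4), (15, 8, 6), (24, 1, 7), (9, 7, 7), (22, 8, 1), (27, 11, 5)],
   [(25, 3, 3), (20, 6, 7), (3, 11, 7), (26, 8, 7), (17, 9, 2), (10, 4, 5), (23, 7, 3), (4, 2, 2)],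
   [(15, 6, 6), (16, 8, 3), (25, 7, 5), (20, 4, 3), (3, 5, 7), (26, 9, 7), (5, 8, 0), (2, 10, 2)]]

theorem sf158 : SurfFor W158 :=
  surfFor_of_table (T := T158) (lam := [0, 1, 4, 11, 2, 12, 10, 5, 9, 3, 14, 6, 8, 7, 13]) (rows := rows158)
    (by decide +kernel) (by decide +kernel) (by decide +kernel) (by decide +kernel)

/-- the multiplication table of presentation 159 -/
def W159 : ℕ :=
  8061627787056902141203451877397667563489509985458942332652855207905626641731321699742616463895595129731639588397644856784677320806360992457598571802597416754022955777119591206165664779762346549810256121767910840496869985277676014639360065917861545696573954923167745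

/-- a surface for presentation 159 -/
def rows159 : List (List (ℕ × ℕ × ℕ)) :=
  [[(0, 1, 1), (1, 2, 0), (18, 3, 3), (23, 4, 6), (14, 5, 4), (27, 6, 7), (26, 5, 0), (5, 7, 3)],
   [(0, 2, 1), (1, 0, 0), (18, 7, 2), (23, 8, 1), (14, 6, 0), (27, 9, 3), (2, 10, 6), (9, 8, 5), (24, 10, 0), (21, 9, 1)],
   [(0, 0, 1), (1, 1, 0), (28, 9, 0), (3, 11, 0), (4, 12, 0), (19, 13, 7), (20, 14, 7), (5, 3, 4)],
   [(0, 10, 4), (5, 14, 0), (20, 4, 7), (19, 0, 2), (4, 2, 7), (25, 14, 6), (22, 15, 5), (21, 8, 7)],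
   [(10, 16, 3), (11, 11, 4), (26, 12, 2), (27, 11, 6), (14, 16, 1), (25, 5, 5), (22, 0, 3), (21, 3, 2), (24, 14, 9), (15, 13, 5)],
   [(27, 0, 6), (26, 6, 6), (11, 9, 5), (10, 6, 8), (15, 0, 4), (24, 4, 5), (9, 16, 0), (2, 7, 4)],
   [(15, 1, 4), (24, 8, 0), (21, 17, 5), (22, 12, 4), (25, 11, 2), (14, 9, 6), (27, 5, 1), (26, 0, 5), (11, 5, 3), (10, 9, 4)],
   [(5, 17, 3), (20, 8, 2), (19, 1, 2), (4, 0, 7), (3, 5, 7), (28, 16, 7), (1, 13, 9), (0, 12, 6)],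
   [(25, 6, 1), (22, 1, 3), (21, 7, 1), (24, 17, 2), (15, 10, 1), (8, 1, 7), (29, 10, 5), (20, 3, 7), (19, 15, 4), (4, 17, 6)],
   [(29, 2, 2), (20, 1, 9), (5, 10, 7), (26, 1, 5), (11, 6, 9), (10, 5, 2), (15, 6, 5), (8, 11, 1)],
   [(25, 1, 8), (14, 8, 4), (23, 17, 1), (18, 14, 1), (1, 3, 0), (28, 8, 6), (3, 1, 6), (4, 9, 2)],
   [(2, 2, 3), (9, 9, 7), (24, 6, 4), (15, 12, 3), (10, 4, 1), (11, 16, 2), (26, 4, 3), (27, 12, 1)],
   [(5, 2, 4), (26, 11, 7), (27, 4, 2), (14, 11, 3), (23, 6, 3), (18, 17, 4), (1, 7, 7), (0, 13, 8)],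
   [(21, 16, 6), (24, 15, 7), (9, 14, 4), (2, 15, 1), (27, 16, 4), (14, 4, 9), (23, 14, 8), (18, 2, 5), (1, 12, 7), (0, 7, 6)],
   [(4, 3, 1), (19, 10, 3), (20, 17, 0), (29, 15, 2), (8, 13, 2), (15, 15, 6), (24, 3, 5), (21, 2, 6), (22, 13, 6), (25, 4, 8)],
   [(4, 16, 5), (3, 13, 3), (28, 14, 3), (1, 17, 7), (18, 8, 8), (23, 3, 6), (14, 14, 5), (25, 13, 1)],
   [(8, 5, 6), (15, 4, 4), (10, 11, 5), (11, 4, 0), (26, 13, 4), (5, 15, 0), (20, 13, 0), (29, 7, 5)],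
   [(21, 14, 2), (22, 10, 2), (25, 8, 3), (4, 7, 0), (19, 12, 5), (20, 6, 2), (5, 8, 9), (0, 15, 3)]]

theorem sf159 : SurfFor W159 :=
  surfFor_of_table (T := T159) (lam := [0, 6, 1, 3, 5, 9, 11, 12, 10, 8, 2, 14, 7, 4, 13]) (rows := rows159)
    (by decide +kernel) (by decide +kernel) (by decide +kernel) (by decide +kernel)

/-- the multiplication table of presentation 160 -/
def W160 : ℕ :=
  72739146170310714665609438841722123031318394318063262957089841095658694508722375808912605994762993211741368481933017924974237323626340922744160644611497400084085714611148406494832910918176666741865808341073687881253378654327927763403708404803460362701895461733662730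

/-- a surface for presentation 160 -/
def rows160 : List (List (ℕ × ℕ × ℕ)) :=
  [[(6, 1, 1), (7, 2, 0), (10, 0, 5), (17, 3, 1), (28, 3, 2), (11, 0, 2), (12, 2, 7), (13, 1, 6)],
   [(6, 2, 1), (7, 0, 0), (10, 1, 5), (17, 4, 1), (28, 4, 2), (11, 1, 2), (12, 0, 7), (13, 2, 6)],
   [(6, 0, 1), (7, 1, 0), (10, 2, 5), (17, 5, 1), (28, 5, 2), (11, 2, 2), (12, 1, 7), (13, 0, 6)],
   [(21, 3, 3), (16, 0, 3), (29, 0, 4), (20, 3, 0), (15, 4, 7), (8, 6, 3), (9, 7, 4), (14, 5, 4), (3, 5, 9), (2, 4, 8)],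
   [(21, 4, 3), (16, 1, 3), (29, 1, 4), (20, 4, 0), (15, 5, 7), (8, 8, 3), (9, 6, 4), (14, 3, 4), (3, 3, 9), (2, 5, 8)],
   [(21, 5, 3), (16, 2, 3), (29, 2, 4), (20, 5, 0), (15, 3, 7), (8, 7, 3), (9, 8, 4), (14, 4, 4), (3, 4, 9), (2, 3, 8)],
   [(2, 8, 1), (3, 7, 0), (14, 7, 5), (9, 3, 5), (8, 4, 6), (15, 8, 2), (20, 6, 9), (29, 9, 3), (16, 9, 4), (21, 6, 6)],
   [(2, 6, 1), (3, 8, 0), (14, 8, 5), (9, 5, 5), (8, 3, 6), (15, 6, 2), (20, 7, 9), (29, 10, 3), (16, 10, 4), (21, 7, 6)],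
   [(2, 7, 1), (3, 6, 0), (14, 6, 5), (9, 4, 5), (8, 5, 6), (15, 7, 2), (20, 8, 9), (29, 11, 3), (16, 11, 4), (21, 8, 6)],
   [(13, 11, 1), (12, 10, 0), (11, 9, 5), (28, 6, 7), (17, 6, 8), (10, 9, 2), (7, 10, 7), (6, 11, 6)],
   [(13, 9, 1), (12, 11, 0), (11, 10, 5), (28, 7, 7), (17, 7, 8), (10, 10, 2), (7, 11, 7), (6, 9, 6)],
   [(13, 10, 1), (12, 9, 0), (11, 11, 5), (28, 8, 7), (17, 8, 8), (10, 11, 2), (7, 9, 7), (6, 10, 6)]]

theorem sf160 : SurfFor W160 :=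
  surfFor_of_table (T := T160) (lam := [0, 4, 2, 9, 14, 3, 10, 13, 6, 1, 5, 7, 11, 12, 8]) (rows := rows160)
    (by decide +kernel) (by decide +kernel) (by decide +kernel) (by decide +kernel)

/-- the multiplication table of presentation 161 -/
def W161 : ℕ :=
  4127332513306071395685748270069695254285632976493403329388926677172660236999872460174745603772553643029014505179503172714533834604905716385511060865345276993483238626930224726903773743355944465527450289112006226241177115431162510975007801717713484687046599593934454785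

/-- a surface for presentation 161 -/
def rows161 : List (List (ℕ × ℕ × ℕ)) :=
  [[(0, 1, 3), (17, 2, 8), (24, 3, 2), (21, 4, 6), (8, 5, 7), (23, 6, 8), (14, 7, 7), (25, 8, 3), (26, 9, 5), (27, 10, 6)],
   [(4, 5, 1), (13, 4, 4), (28, 2, 9), (1, 0, 0), (18, 10, 5), (9, 2, 4), (16, 11, 4), (15, 12, 7)],
   [(2, 4, 3), (25, 5, 4), (14, 13, 0), (23, 11, 5), (8, 1, 5), (7, 10, 4), (20, 14, 2), (15, 3, 3), (16, 0, 1), (29, 1, 2)],
   [(19, 10, 2), (26, 4, 7), (25, 0, 2), (14, 2, 7), (11, 14, 1), (22, 7, 3), (5, 15, 7), (6, 14, 4)],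
   [(0, 10, 1), (1, 6, 0), (28, 5, 5), (3, 2, 0), (12, 1, 1), (7, 5, 0), (20, 0, 3), (27, 3, 1)],
   [(6, 4, 5), (5, 1, 0), (22, 12, 6), (17, 13, 1), (24, 2, 1), (29, 4, 2), (16, 6, 9), (9, 0, 4)],
   [(0, 4, 1), (1, 10, 0), (18, 9, 3), (23, 8, 5), (8, 7, 5), (7, 14, 7), (12, 16, 7), (5, 7, 0), (22, 0, 5), (17, 5, 6)],
   [(4, 6, 7), (11, 16, 6), (14, 15, 0), (23, 3, 5), (18, 14, 0), (9, 6, 4), (16, 8, 4), (15, 0, 6)],
   [(13, 17, 3), (10, 18, 6), (21, 9, 6), (24, 0, 7), (17, 7, 6), (22, 6, 3), (11, 9, 2), (4, 19, 1)],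
   [(4, 20, 1), (13, 19, 2), (10, 8, 6), (19, 6, 2), (26, 10, 7), (27, 0, 8), (20, 8, 2), (15, 18, 5)],
   [(0, 6, 1), (1, 4, 0), (18, 3, 0), (9, 14, 3), (6, 2, 5), (19, 1, 4), (26, 0, 9), (27, 9, 4)],
   [(9, 21, 5), (16, 17, 0), (29, 22, 5), (24, 12, 8), (17, 1, 6), (22, 2, 3), (5, 13, 7), (6, 22, 2)],
   [(29, 13, 5), (16, 21, 8), (15, 20, 4), (20, 19, 5), (7, 23, 3), (8, 13, 2), (23, 5, 2), (14, 1, 7), (25, 11, 3), (2, 22, 4)],
   [(15, 2, 2), (16, 5, 3), (9, 12, 5), (18, 23, 2), (1, 21, 9), (28, 12, 0), (13, 22, 3), (4, 11, 6)],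
   [(19, 7, 4), (10, 3, 4), (21, 2, 6), (8, 10, 3), (7, 3, 7), (12, 15, 6), (5, 16, 0), (6, 6, 5)],
   [(15, 7, 2), (20, 16, 5), (27, 21, 1), (26, 23, 0), (19, 17, 7), (10, 16, 1), (13, 14, 5), (4, 3, 6)],
   [(4, 14, 6), (11, 15, 5), (22, 17, 6), (17, 18, 1), (24, 21, 2), (21, 15, 1), (10, 7, 1), (13, 6, 6)],
   [(17, 11, 1), (22, 21, 4), (5, 18, 7), (12, 8, 0), (7, 19, 0), (8, 18, 2), (23, 16, 2), (18, 15, 4), (1, 23, 7), (0, 22, 6)],
   [(15, 21, 3), (16, 16, 3), (9, 17, 5), (18, 19, 7), (23, 20, 2), (14, 9, 7), (11, 8, 1), (4, 17, 2)],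
   [(6, 17, 4), (5, 8, 7), (12, 9, 1), (7, 20, 0), (8, 23, 4), (21, 12, 3), (10, 20, 3), (19, 18, 3)],
   [(6, 19, 3), (5, 9, 0), (22, 18, 4), (11, 19, 6), (14, 12, 2), (25, 21, 7), (26, 22, 0), (19, 23, 5)],
   [(27, 23, 1), (26, 15, 2), (25, 16, 4), (14, 18, 0), (23, 17, 1), (8, 11, 0), (21, 22, 1), (24, 20, 5), (17, 12, 1), (0, 13, 4)],
   [(27, 20, 6), (20, 21, 6), (7, 11, 7), (12, 13, 6), (3, 12, 9), (28, 11, 2), (1, 17, 9), (0, 23, 6)],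
   [(27, 15, 3), (26, 21, 0), (19, 13, 3), (6, 12, 4), (9, 19, 4), (18, 20, 7), (1, 22, 7), (0, 17, 8)]]

theorem sf161 : SurfFor W161 :=
  surfFor_of_table (T := T161) (lam := [0, 3, 10, 13, 11, 7, 6, 8, 2, 9, 12, 14, 4, 1, 5]) (rows := rows161)
    (by decide +kernel) (by decide +kernel) (by decide +kernel) (by decide +kernel)

/-- the multiplication table of presentation 162 -/
def W162 : ℕ :=
  33018421972334044253647021168599908624102077866320057579589147924146726472046658385515212005585044776804104061220652077143647414699524380555249893049465461747751641876764365105222693302939207717883973391722551492978206473607941164075208332362215873246264703763720699905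

/-- a surface for presentation 162 -/
def rows162 : List (List (ℕ × ℕ × ℕ)) :=
  [[(8, 1, 5), (3, 2, 0), (10, 3, 4), (13, 4, 6), (28, 5, 0), (25, 6, 2), (12, 6, 5), (23, 7, 3)],
   [(2, 8, 6), (25, 4, 2), (28, 6, 9), (13, 3, 1), (4, 2, 1), (9, 0, 0), (14, 7, 2), (29, 9, 3)],
   [(2, 0, 1), (5, 1, 4), (24, 3, 0), (11, 9, 5), (22, 7, 0), (15, 8, 1), (12, 5, 4), (25, 3, 5)],
   [(25, 2, 2), (12, 1, 3), (15, 6, 8), (22, 4, 7), (11, 0, 2), (24, 2, 7), (5, 5, 3), (2, 9, 6)],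
   [(8, 6, 7), (3, 6, 0), (24, 1, 1), (11, 8, 5), (22, 9, 0), (15, 5, 1), (12, 0, 3), (23, 3, 3)],
   [(29, 0, 4), (14, 4, 5), (9, 9, 7), (4, 3, 6), (13, 2, 6), (28, 8, 0), (25, 7, 5), (2, 6, 3)],
   [(2, 4, 1), (5, 6, 6), (24, 0, 5), (3, 5, 7), (10, 7, 4), (13, 0, 6), (4, 6, 1), (9, 4, 0), (14, 3, 2), (29, 1, 2)],
   [(23, 2, 4), (12, 9, 4), (15, 1, 6), (22, 0, 7), (11, 6, 4), (24, 5, 6), (3, 8, 9), (8, 8, 2)],
   [(29, 5, 5), (14, 2, 5), (9, 7, 7), (4, 8, 8), (13, 9, 1), (10, 4, 3), (3, 1, 0), (24, 9, 2), (5, 8, 3), (2, 7, 6)],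
   [(23, 4, 4), (12, 8, 4), (25, 8, 7), (28, 1, 7), (13, 7, 1), (10, 2, 3), (3, 3, 7), (8, 5, 2)]]

theorem sf162 : SurfFor W162 :=
  surfFor_of_table (T := T162) (lam := [0, 12, 5, 8, 7, 2, 6, 10, 11, 9, 14, 13, 3, 1, 4]) (rows := rows162)
    (by decide +kernel) (by decide +kernel) (by decide +kernel) (by decide +kernel)

end Pool.Agent.TriSurf
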