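import Pool.Agent.TriSurf.SData
import Pool.Agent.TriSurf.PresT

/-!
# Surfaces
-/

set_option autoImplicit false
set_option maxRecDepth 100000

namespace Pool.Agent.TriSurf

/-- the multiplication table of presentation 37 -/
def W37 : ℕ :=
  113013331429807897907092022718483987292125763585962293191679808070733638046269483723257401119114722562431705014481161363700457458586957510708873596173683009354810665375603101430495171043396836916567731655421988292319758451307688849187317862360231592682388880122445825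

/-- a surface for presentation 37 -/
def rows37 : List (List (ℕ × ℕ × ℕ)) :=
  [[(2, 1, 6), (21, 2, 3), (14, 3, 5), (17, 0, 6), (18, 4, 7), (7, 4, 0), (16, 0, 3), (25, 3, 4)],
   [(27, 4, 2), (10, 4, 5), (15, 5, 5), (24, 5, 0), (5, 3, 0), (22, 2, 4), (3, 0, 0), (4, 3, 3)],
   [(19, 5, 3), (12, 2, 6), (11, 3, 6), (20, 0, 1), (23, 1, 5), (26, 3, 7), (13, 2, 1), (6, 5, 2)],
   [(4, 1, 4), (3, 5, 7), (22, 4, 3), (5, 1, 7), (24, 0, 7), (15, 0, 2), (10, 2, 2), (27, 2, 5)],
   [(6, 0, 5), (13, 4, 6), (26, 1, 0), (23, 3, 2), (20, 5, 6), (11, 1, 1), (12, 4, 1), (19, 0, 4)],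
   [(25, 1, 3), (16, 5, 4), (7, 2, 7), (18, 2, 0), (17, 5, 1), (14, 1, 2), (21, 4, 4), (2, 3, 1)]]

theorem sf37 : SurfFor W37 :=
  surfFor_of_table (T := T37) (lam := [0, 7, 2, 11, 3, 13, 9, 12, 14, 10, 4, 1, 5, 6, 8]) (rows := rows37)
    (by decide +kernel) (by decide +kernel) (by decide +kernel) (by decide +kernel)

/-- the multiplication table of presentation 38 -/
def W38 : ℕ :=
  2063650563660168013163069338664741260887465920966243203729101195034811716837712252812974901505504914201791440571191513943587856105479048312609398448560325409455216475511758488869886843327847327601048822183023220043997267619380629322933139876186486693258373290916839425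

/-- a surface for presentation 38 -/
def rows38 : List (List (ℕ × ℕ × ℕ)) :=
  [[(8, 1, 7), (3, 2, 0), (14, 3, 4), (5, 4, 7), (26, 5, 9), (27, 2, 2), (10, 1, 5), (29, 6, 7)],
   [(0, 4, 4), (13, 5, 4), (24, 7, 0), (29, 8, 2), (10, 6, 8), (11, 0, 6), (4, 2, 1), (9, 0, 0), (20, 6, 6), (25, 7, 7)],
   [(2, 0, 1), (5, 1, 6), (26, 0, 5), (27, 5, 8), (6, 3, 0), (15, 9, 5), (22, 8, 7), (13, 10, 1), (24, 6, 2), (7, 3, 5)],
   [(7, 2, 4), (24, 5, 7), (13, 11, 6), (22, 4, 0), (15, 0, 2), (6, 2, 9), (27, 6, 1), (26, 9, 2), (5, 7, 3), (2, 9, 6)],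
   [(23, 3, 3), (14, 11, 5), (3, 11, 0), (18, 5, 5), (1, 1, 0), (28, 7, 6), (11, 5, 0), (4, 0, 3)],
   [(10, 4, 6), (11, 7, 5), (28, 9, 0), (21, 7, 1), (12, 1, 1), (19, 4, 3), (20, 11, 7), (25, 3, 1), (26, 2, 3), (27, 0, 4)],
   [(27, 9, 3), (26, 3, 6), (25, 2, 8), (20, 10, 0), (19, 8, 4), (12, 7, 8), (21, 1, 8), (28, 0, 7), (11, 1, 4), (10, 8, 1)],
   [(25, 1, 2), (20, 5, 3), (9, 9, 7), (4, 3, 8), (11, 9, 1), (10, 5, 1), (29, 4, 5), (24, 1, 9), (13, 6, 5), (0, 8, 3)],
   [(4, 9, 4), (11, 6, 9), (28, 1, 3), (1, 7, 9), (18, 6, 4), (3, 10, 7), (14, 10, 2), (23, 2, 6)],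
   [(29, 5, 2), (10, 7, 4), (27, 3, 7), (26, 6, 0), (5, 8, 0), (14, 2, 5), (3, 3, 9), (8, 7, 2)],
   [(21, 6, 3), (12, 2, 7), (15, 8, 6), (6, 10, 6), (17, 11, 2), (16, 11, 3), (7, 10, 3), (2, 8, 5)],
   [(2, 4, 2), (7, 11, 4), (16, 10, 4), (17, 10, 5), (6, 11, 1), (15, 4, 1), (12, 3, 2), (21, 5, 6)]]

theorem sf38 : SurfFor W38 :=
  surfFor_of_table (T := T38) (lam := [0, 14, 4, 5, 8, 6, 2, 10, 11, 13, 3, 7, 1, 9, 12]) (rows := rows38)
    (by decide +kernel) (by decide +kernel) (by decide +kernel) (by decide +kernel)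

/-- the multiplication table of presentation 39 -/
def W39 : ℕ :=
  509729401646770784487835077703525668616028674050119154449296740612232042131255435171528693681309134386848883179771990739297511770873367909216384249565251597352702248593137015125690993624978397108948972502761788821864791509615266962945985232397612973477138660327425

/-- a surface for presentation 39 -/
def rows39 : List (List (ℕ × ℕ × ℕ)) :=
  [[(2, 1, 6), (3, 1, 7), (16, 0, 7), (7, 2, 4), (6, 3, 3), (13, 3, 6), (12, 2, 5), (17, 0, 2)],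
   [(17, 1, 5), (12, 4, 2), (13, 5, 1), (6, 5, 4), (7, 4, 3), (16, 1, 0), (3, 0, 0), (2, 0, 1)],
   [(2, 4, 6), (3, 4, 7), (16, 2, 7), (7, 3, 4), (6, 0, 3), (13, 0, 6), (12, 3, 5), (17, 2, 2)],
   [(2, 5, 6), (3, 5, 7), (16, 3, 7), (7, 0, 4), (6, 2, 3), (13, 2, 6), (12, 0, 5), (17, 3, 2)],
   [(17, 4, 5), (12, 5, 2), (13, 1, 1), (6, 1, 4), (7, 5, 3), (16, 4, 0), (3, 2, 0), (2, 2, 1)],
   [(17, 5, 5), (12, 1, 2), (13, 4, 1), (6, 4, 4), (7, 1, 3), (16, 5, 0), (3, 3, 0), (2, 3, 1)]]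

theorem sf39 : SurfFor W39 :=
  surfFor_of_table (T := T39) (lam := [0, 5, 6, 11, 8, 12, 10, 7, 3, 2, 13, 1, 9, 4, 14]) (rows := rows39)
    (by decide +kernel) (by decide +kernel) (by decide +kernel) (by decide +kernel)

/-- the multiplication table of presentation 40 -/
def W40 : ℕ :=
  1676716779251027356556210495284501413488607468559154886486432731370503511148243934245750123615188371461500362203692075807599739113377054084708971317103552033976513436076484692799121158105167419775477780502099673085208095539292728867716440573322605612937762227045269505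

/-- a surface for presentation 40 -/
def rows40 : List (List (ℕ × ℕ × ℕ)) :=
  [[(0, 1, 1), (1, 2, 0), (18, 1, 5), (15, 3, 3), (14, 4, 4), (19, 2, 2), (26, 1, 7), (27, 2, 6)],
   [(0, 2, 1), (1, 0, 0), (18, 2, 5), (15, 5, 3), (14, 3, 4), (19, 0, 2), (26, 2, 7), (27, 0, 6)],
   [(0, 0, 1), (1, 1, 0), (18, 0, 5), (15, 4, 3), (14, 5, 4), (19, 1, 2), (26, 0, 7), (27, 1, 6)],
   [(27, 4, 1), (26, 5, 0), (19, 4, 5), (14, 0, 3), (15, 1, 4), (18, 5, 2), (1, 4, 7), (0, 5, 6)],
   [(27, 5, 1), (26, 3, 0), (19, 5, 5), (14, 2, 3), (15, 0, 4), (18, 3, 2), (1, 5, 7), (0, 3, 6)],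
   [(27, 3, 1), (26, 4, 0), (19, 3, 5), (14, 1, 3), (15, 2, 4), (18, 4, 2), (1, 3, 7), (0, 4, 6)]]

theorem sf40 : SurfFor W40 :=
  surfFor_of_table (T := T40) (lam := [0, 8, 9, 2, 13, 3, 12, 14, 11, 4, 7, 5, 6, 1, 10]) (rows := rows40)
    (by decide +kernel) (by decide +kernel) (by decide +kernel) (by decide +kernel)

/-- the multiplication table of presentation 41 -/
def W41 : ℕ :=
  104794877019727864055341103144375522002927542587733330253511181988322902342720167969568739507440823759990139051834870752472281877689038124645824588442337688782734354393592822903143447478674115734954641737769669095545906438778589387815910101167794112950864258021720065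

/-- a surface for presentation 41 -/
def rows41 : List (List (ℕ × ℕ × ℕ)) :=
  [[(0, 1, 1), (1, 2, 0), (18, 2, 3), (19, 1, 2), (16, 0, 7), (9, 3, 3), (20, 3, 4), (17, 0, 4)],
   [(0, 2, 1), (1, 0, 0), (18, 0, 3), (19, 2, 2), (16, 1, 7), (9, 4, 3), (20, 4, 4), (17, 1, 4)],
   [(0, 0, 1), (1, 1, 0), (18, 1, 3), (19, 0, 2), (16, 2, 7), (9, 5, 3), (20, 5, 4), (17, 2, 4)],
   [(19, 4, 1), (18, 5, 0), (11, 3, 5), (8, 0, 5), (21, 0, 6), (10, 3, 2), (7, 5, 7), (6, 4, 6)],
   [(19, 5, 1), (18, 3, 0), (11, 4, 5), (8, 1, 5), (21, 1, 6), (10, 4, 2), (7, 3, 7), (6, 5, 6)],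
   [(19, 3, 1), (18, 4, 0), (11, 5, 5), (8, 2, 5), (21, 2, 6), (10, 5, 2), (7, 4, 7), (6, 3, 6)]]

theorem sf41 : SurfFor W41 :=
  surfFor_of_table (T := T41) (lam := [0, 4, 3, 9, 8, 14, 2, 5, 1, 11, 12, 10, 6, 7, 13]) (rows := rows41)
    (by decide +kernel) (by decide +kernel) (by decide +kernel) (by decide +kernel)

/-- the multiplication table of presentation 42 -/
def W42 : ℕ :=
  7924417967403988279763595066106699681973410059918415558291559672582757593068199018781521656489449146509812742419851366847083396773858547205409778531694592223653361408810267881877431422111234966194535926138476748440669345412477999085361057852831953636162092480346271514625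

/-- a surface for presentation 42 -/
def rows42 : List (List (ℕ × ℕ × ℕ)) :=
  [[(4, 1, 1), (5, 2, 0), (28, 1, 3), (29, 2, 2), (12, 1, 7), (21, 3, 1), (20, 4, 2), (13, 2, 4)],
   [(4, 2, 1), (5, 0, 0), (28, 2, 3), (29, 0, 2), (12, 2, 7), (21, 5, 1), (20, 3, 2), (13, 0, 4)],
   [(4, 0, 1), (5, 1, 0), (28, 0, 3), (29, 1, 2), (12, 0, 7), (21, 4, 1), (20, 5, 2), (13, 1, 4)],
   [(13, 4, 3), (20, 0, 5), (21, 1, 6), (12, 5, 0), (29, 4, 5), (28, 5, 4), (5, 4, 7), (4, 5, 6)],
   [(13, 5, 3), (20, 2, 5), (21, 0, 6), (12, 3, 0), (29, 5, 5), (28, 3, 4), (5, 5, 7), (4, 3, 6)],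
   [(13, 3, 3), (20, 1, 5), (21, 2, 6), (12, 4, 0), (29, 3, 5), (28, 4, 4), (5, 3, 7), (4, 4, 6)]]

theorem sf42 : SurfFor W42 :=
  surfFor_of_table (T := T42) (lam := [0, 1, 6, 7, 4, 10, 8, 11, 12, 9, 13, 14, 5, 2, 3]) (rows := rows42)
    (by decide +kernel) (by decide +kernel) (by decide +kernel) (by decide +kernel)

/-- the multiplication table of presentation 43 -/
def W43 : ℕ :=
  6077340248299454263394518496453866937972107119437832858809578786340924292957915703677339870785811366621628470924303480683046708072189260952137615324253391909565689574716872538592298427488139003987013624927036326233956514743037580406650467116544462001096643286401025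

/-- a surface for presentation 43 -/
def rows43 : List (List (ℕ × ℕ × ℕ)) :=
  [[(2, 1, 3), (13, 2, 1), (14, 3, 2), (3, 1, 0), (4, 4, 5), (5, 1, 4), (20, 0, 9), (15, 3, 7), (12, 3, 8), (21, 0, 6)],
   [(2, 0, 3), (13, 3, 1), (14, 2, 2), (3, 0, 0), (4, 0, 5), (5, 4, 4), (20, 4, 9), (15, 2, 7), (12, 5, 8), (21, 4, 6)],
   [(21, 3, 3), (12, 0, 1), (15, 1, 2), (20, 3, 0), (5, 3, 5), (4, 5, 4), (3, 5, 9), (14, 1, 7), (13, 4, 8), (2, 5, 6)],
   [(21, 2, 3), (12, 1, 1), (15, 0, 2), (20, 2, 0), (5, 5, 5), (4, 2, 4), (3, 3, 9), (14, 0, 7), (13, 0, 8), (2, 3, 6)],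
   [(2, 4, 3), (13, 5, 1), (14, 5, 2), (3, 4, 0), (4, 1, 5), (5, 0, 4), (20, 1, 9), (15, 5, 7), (12, 2, 8), (21, 1, 6)],
   [(21, 5, 3), (12, 4, 1), (15, 4, 2), (20, 5, 0), (5, 2, 5), (4, 3, 4), (3, 2, 9), (14, 4, 7), (13, 1, 8), (2, 2, 6)]]

theorem sf43 : SurfFor W43 :=
  surfFor_of_table (T := T43) (lam := [0, 7, 8, 1, 9, 5, 4, 13, 2, 10, 3, 6, 12, 14, 11]) (rows := rows43)
    (by decide +kernel) (by decide +kernel) (by decide +kernel) (by decide +kernel)

end Pool.Agent.TriSurf
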