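import Pool.Agent.TriSurf.SData
import Pool.Agent.TriSurf.PresT

/-!
# Surfaces
-/

set_option autoImplicit false
set_option maxRecDepth 100000

namespace Pool.Agent.TriSurf

/-- the multiplication table of presentation 170 -/
def W170 : ℕ :=
  297165673771859759113726112704108479115580924573019222904871185573676199690825871521215248563536585357041263355928293831351085874802558553208513738860796207911684150526922835468142367362210624754800203504806706808971005626863981160786779061729808852131048683301213569025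

/-- a surface for presentation 170 -/
def rows170 : List (List (ℕ × ℕ × ℕ)) :=
  [[(0, 1, 1), (1, 2, 0), (18, 3, 4), (5, 4, 6), (14, 5, 5), (21, 6, 1), (4, 2, 3), (27, 7, 1), (20, 8, 1), (15, 9, 3)],
   [(0, 2, 1), (1, 0, 0), (18, 9, 2), (5, 1, 6), (14, 10, 5), (21, 10, 6), (4, 1, 3), (27, 9, 1), (20, 10, 1), (15, 7, 3)],
   [(0, 0, 1), (1, 1, 0), (18, 7, 2), (5, 0, 6), (14, 6, 0), (19, 9, 5), (26, 8, 7), (15, 3, 5)],
   [(27, 11, 3), (20, 6, 4), (15, 12, 5), (26, 4, 7), (19, 0, 2), (14, 2, 7), (21, 8, 6), (4, 4, 3)],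
   [(0, 13, 1), (1, 14, 0), (18, 11, 4), (5, 3, 7), (14, 8, 5), (21, 5, 6), (4, 0, 3), (27, 3, 3), (20, 12, 4), (15, 15, 3)],
   [(4, 6, 6), (21, 11, 1), (14, 15, 0), (19, 12, 7), (26, 6, 2), (15, 0, 4), (20, 4, 5), (27, 8, 4)],
   [(15, 2, 4), (20, 0, 5), (27, 5, 4), (4, 12, 6), (21, 3, 1), (14, 11, 2), (5, 5, 0), (18, 8, 3), (1, 7, 7), (0, 9, 6)],
   [(15, 8, 2), (26, 0, 7), (19, 2, 2), (14, 1, 9), (5, 10, 0), (18, 10, 3), (1, 9, 7), (0, 6, 8)],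
   [(4, 9, 4), (21, 0, 8), (14, 7, 0), (19, 6, 7), (26, 5, 7), (15, 4, 4), (20, 3, 6), (27, 2, 6)],
   [(15, 10, 2), (26, 1, 7), (19, 1, 2), (14, 0, 9), (5, 8, 0), (18, 2, 5), (1, 6, 9), (0, 7, 6)],
   [(4, 7, 4), (21, 1, 8), (14, 9, 0), (19, 7, 5), (26, 10, 7), (15, 1, 4), (20, 1, 5), (27, 10, 4)],
   [(27, 15, 1), (20, 5, 1), (15, 6, 5), (26, 3, 0), (19, 4, 2), (14, 14, 7), (21, 12, 1), (4, 13, 3)],
   [(15, 13, 4), (20, 11, 6), (27, 14, 6), (4, 15, 4), (21, 4, 8), (14, 3, 2), (5, 6, 3), (18, 5, 3), (1, 15, 7), (0, 16, 8)],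
   [(0, 14, 1), (1, 4, 0), (18, 15, 2), (5, 11, 7), (14, 12, 0), (19, 16, 7), (26, 16, 2), (15, 17, 5)],
   [(0, 4, 1), (1, 13, 0), (18, 17, 4), (5, 17, 7), (14, 16, 0), (19, 15, 5), (26, 12, 2), (15, 11, 5)],
   [(15, 5, 2), (26, 11, 0), (19, 13, 2), (14, 4, 9), (5, 12, 3), (18, 14, 5), (1, 16, 9), (0, 12, 8)],
   [(15, 14, 4), (20, 17, 6), (27, 13, 6), (4, 16, 6), (21, 17, 1), (14, 17, 2), (5, 16, 3), (18, 13, 5), (1, 12, 9), (0, 15, 6)],
   [(27, 17, 3), (20, 16, 4), (15, 16, 5), (26, 17, 0), (19, 14, 2), (14, 13, 7), (21, 16, 1), (4, 14, 3)]]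

theorem sf170 : SurfFor W170 :=
  surfFor_of_table (T := T170) (lam := [0, 13, 14, 10, 11, 2, 12, 1, 6, 4, 7, 3, 5, 8, 9]) (rows := rows170)
    (by decide +kernel) (by decide +kernel) (by decide +kernel) (by decide +kernel)

/-- the multiplication table of presentation 171 -/
def W171 : ℕ :=
  40526095724290413061126989026443915591955128332102209966105357448477885203759853551594247692395126091392614671991353566596387943071702376683461908572982845898820027801116050461499396798919025742370350115104874706952426588105646547060416353466858309499924159506939905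

/-- a surface for presentation 171 -/
def rows171 : List (List (ℕ × ℕ × ℕ)) :=
  [[(10, 1, 6), (11, 2, 6), (24, 3, 4), (19, 4, 5), (16, 5, 5), (7, 6, 6), (18, 7, 4), (1, 8, 0), (28, 6, 9), (13, 9, 2)],
   [(23, 10, 8), (18, 11, 3), (7, 4, 7), (16, 3, 2), (19, 11, 6), (24, 2, 7), (11, 0, 0), (8, 9, 1)],
   [(6, 11, 5), (7, 10, 6), (18, 12, 6), (23, 13, 1), (8, 14, 8), (11, 3, 5), (10, 0, 1), (25, 1, 5)],
   [(3, 15, 9), (22, 11, 7), (17, 1, 3), (6, 4, 6), (25, 0, 2), (10, 2, 5), (13, 14, 7), (28, 16, 7), (1, 17, 7), (0, 13, 6)],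
   [(25, 11, 2), (10, 12, 8), (11, 10, 4), (8, 16, 1), (23, 5, 6), (18, 0, 3), (7, 3, 3), (6, 1, 2)],
   [(0, 18, 1), (1, 10, 0), (18, 9, 9), (7, 9, 4), (6, 6, 7), (17, 0, 4), (22, 4, 4), (3, 16, 0)],
   [(4, 8, 7), (15, 18, 4), (14, 14, 4), (27, 18, 6), (26, 8, 5), (25, 7, 5), (6, 0, 5), (7, 5, 4), (16, 9, 3), (29, 0, 8)],
   [(5, 19, 9), (26, 17, 2), (27, 19, 5), (2, 8, 1), (19, 0, 6), (24, 6, 5), (3, 8, 4), (0, 12, 2)],
   [(0, 0, 7), (3, 7, 3), (24, 19, 4), (19, 12, 3), (2, 7, 6), (27, 6, 4), (26, 18, 5), (5, 6, 0)],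
   [(2, 10, 9), (9, 1, 7), (12, 0, 9), (17, 6, 8), (6, 5, 3), (25, 9, 8), (10, 15, 2), (11, 15, 3), (24, 9, 5), (19, 5, 2)],
   [(0, 5, 1), (1, 18, 0), (28, 14, 2), (13, 16, 2), (10, 4, 2), (25, 12, 7), (6, 2, 1), (17, 11, 4), (22, 1, 0), (3, 9, 0)],
   [(8, 15, 8), (11, 12, 9), (24, 4, 0), (19, 1, 1), (16, 10, 7), (7, 2, 0), (18, 1, 4), (23, 3, 1)],
   [(13, 15, 7), (28, 19, 0), (1, 7, 7), (18, 8, 3), (7, 19, 3), (16, 13, 2), (19, 2, 2), (24, 10, 5), (11, 4, 1), (10, 11, 1)],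
   [(3, 14, 9), (22, 2, 3), (17, 12, 5), (6, 19, 2), (7, 15, 5), (18, 15, 0), (1, 3, 9), (0, 17, 6)],
   [(19, 17, 5), (16, 16, 3), (29, 10, 2), (4, 18, 7), (15, 6, 2), (22, 18, 3), (17, 16, 8), (12, 3, 6), (9, 2, 4), (2, 13, 0)],
   [(19, 13, 5), (24, 15, 4), (11, 9, 6), (10, 9, 7), (25, 15, 1), (6, 13, 4), (17, 19, 1), (12, 12, 0), (9, 11, 0), (2, 3, 0)],
   [(2, 5, 7), (9, 4, 3), (12, 10, 3), (17, 14, 1), (22, 17, 4), (15, 19, 7), (4, 17, 0), (29, 3, 7), (16, 14, 6), (19, 18, 2)],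
   [(5, 16, 6), (26, 19, 6), (27, 7, 1), (14, 19, 8), (23, 16, 4), (18, 14, 0), (1, 13, 7), (0, 3, 8)],
   [(0, 10, 1), (1, 5, 0), (18, 16, 9), (23, 14, 5), (14, 6, 1), (27, 8, 6), (26, 6, 3), (5, 14, 3)],
   [(29, 12, 1), (16, 15, 6), (7, 13, 3), (6, 12, 4), (25, 8, 2), (26, 7, 2), (27, 17, 1), (14, 16, 5), (15, 17, 3), (4, 7, 0)]]

theorem sf171 : SurfFor W171 :=
  surfFor_of_table (T := T171) (lam := [0, 2, 1, 11, 3, 12, 6, 7, 10, 5, 13, 14, 9, 4, 8]) (rows := rows171)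
    (by decide +kernel) (by decide +kernel) (by decide +kernel) (by decide +kernel)

/-- the multiplication table of presentation 172 -/
def W172 : ℕ :=
  1805696166277487287378245035771807659731063578554223937065719343001468698707595017961187247381081203401552565153929897550170595341800985629203936359655003835920009625596826360583691436776522134673187799100157624727038451460458792009541536819402336488706911741059006465

/-- a surface for presentation 172 -/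
def rows172 : List (List (ℕ × ℕ × ℕ)) :=
  [[(2, 1, 2), (7, 2, 7), (26, 3, 7), (15, 4, 5), (20, 5, 2), (5, 6, 0), (8, 7, 3), (11, 2, 1), (24, 1, 0), (19, 8, 1)],
   [(25, 0, 8), (22, 2, 0), (3, 0, 0), (12, 8, 0), (5, 9, 0), (20, 10, 4), (15, 11, 1), (0, 8, 2)],
   [(23, 1, 1), (10, 0, 7), (11, 7, 2), (8, 12, 3), (5, 13, 3), (12, 14, 3), (3, 3, 0), (6, 0, 1)],
   [(2, 2, 6), (19, 14, 2), (24, 15, 9), (25, 12, 6), (22, 5, 4), (3, 4, 3), (12, 4, 6), (27, 0, 2)],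
   [(25, 16, 5), (24, 17, 0), (19, 4, 7), (2, 3, 5), (7, 5, 3), (14, 0, 3), (13, 3, 6), (18, 4, 2), (1, 17, 7), (0, 18, 6)],
   [(17, 19, 2), (16, 6, 1), (21, 0, 4), (6, 4, 4), (23, 3, 4), (10, 12, 5), (9, 7, 0), (4, 20, 3)],
   [(4, 0, 5), (17, 5, 1), (16, 19, 1), (21, 18, 1), (6, 21, 1), (23, 10, 1), (26, 13, 0), (7, 19, 4), (14, 20, 1), (29, 7, 4)],
   [(8, 5, 6), (11, 12, 4), (10, 2, 2), (9, 0, 6), (28, 6, 9), (1, 20, 0), (18, 22, 0), (13, 20, 4)],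
   [(13, 1, 3), (18, 0, 9), (1, 1, 7), (28, 11, 0), (9, 22, 3), (10, 23, 5), (11, 17, 3), (8, 9, 1)],
   [(4, 1, 4), (9, 8, 7), (10, 17, 2), (23, 16, 3), (6, 15, 5), (21, 22, 5), (16, 11, 8), (17, 10, 5)],
   [(29, 13, 1), (22, 6, 5), (3, 21, 0), (6, 11, 2), (21, 1, 5), (16, 9, 7), (17, 11, 7), (4, 14, 5)],
   [(29, 8, 3), (14, 1, 6), (7, 10, 3), (26, 21, 7), (23, 19, 6), (6, 13, 6), (21, 14, 6), (16, 10, 6), (17, 9, 6), (4, 22, 4)],
   [(0, 15, 1), (1, 14, 0), (28, 13, 4), (9, 2, 3), (10, 7, 1), (11, 5, 5), (24, 3, 3), (25, 15, 8)],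
   [(27, 6, 6), (28, 10, 0), (9, 14, 4), (4, 2, 4), (29, 12, 2), (14, 14, 7), (7, 11, 5), (2, 19, 5)],
   [(0, 12, 1), (1, 15, 0), (18, 3, 1), (13, 2, 5), (8, 13, 2), (5, 10, 7), (20, 11, 6), (15, 13, 5)],
   [(0, 14, 1), (1, 12, 0), (18, 15, 7), (13, 16, 1), (14, 22, 6), (7, 9, 4), (2, 16, 2), (19, 15, 2), (24, 12, 7), (25, 3, 2)],
   [(27, 22, 7), (12, 15, 3), (3, 15, 6), (22, 9, 3), (25, 17, 1), (24, 4, 0), (19, 18, 5), (2, 23, 1)],
   [(25, 4, 1), (24, 16, 4), (11, 9, 2), (10, 8, 6), (9, 23, 4), (28, 21, 3), (1, 18, 7), (0, 4, 8)],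
   [(15, 21, 2), (20, 6, 3), (5, 19, 0), (8, 21, 5), (13, 23, 2), (18, 16, 6), (1, 4, 9), (0, 17, 6)],
   [(4, 18, 2), (17, 6, 2), (16, 5, 0), (21, 20, 2), (6, 6, 7), (3, 13, 7), (22, 11, 4), (29, 21, 6)],
   [(0, 7, 5), (15, 6, 8), (20, 19, 3), (5, 5, 7), (12, 7, 7), (3, 22, 9), (22, 23, 7), (25, 22, 1)],
   [(2, 10, 2), (7, 6, 4), (14, 18, 0), (29, 17, 5), (4, 23, 3), (9, 18, 3), (28, 19, 7), (27, 11, 3)],
   [(19, 7, 6), (24, 20, 7), (11, 23, 6), (8, 8, 4), (5, 11, 9), (20, 9, 5), (15, 15, 4), (26, 16, 0), (7, 23, 0), (2, 20, 5)],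
   [(6, 22, 8), (3, 16, 7), (12, 18, 4), (5, 21, 4), (8, 17, 4), (11, 8, 5), (10, 22, 2), (23, 20, 6)]]

theorem sf172 : SurfFor W172 :=
  surfFor_of_table (T := T172) (lam := [0, 10, 13, 4, 6, 12, 14, 1, 8, 5, 11, 9, 2, 3, 7]) (rows := rows172)
    (by decide +kernel) (by decide +kernel) (by decide +kernel) (by decide +kernel)

/-- the multiplication table of presentation 173 -/
def W173 : ℕ :=
  2063807956288839518564534861516122498054926697931014351542495529844439907654845934781246545735332753520150230162707236388545940545820566373151678690693802598856505957547453117271297867317210464956301911558442128491563807528354261278261509530833528347809121933201506305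

/-- a surface for presentation 173 -/
def rows173 : List (List (ℕ × ℕ × ℕ)) :=
  [[(0, 1, 1), (1, 2, 0), (28, 3, 0), (13, 4, 2), (10, 5, 7), (15, 6, 1), (26, 6, 4), (27, 7, 8)],
   [(0, 2, 1), (1, 0, 0), (18, 7, 7), (11, 3, 3), (14, 8, 6), (19, 9, 6), (2, 10, 3), (29, 11, 3), (24, 12, 8), (25, 13, 1)],
   [(0, 0, 1), (1, 1, 0), (28, 13, 0), (13, 9, 2), (10, 8, 2), (15, 9, 8), (6, 8, 4), (3, 9, 0), (22, 8, 0), (25, 3, 1)],
   [(29, 0, 2), (24, 2, 9), (7, 8, 7), (10, 1, 3), (15, 7, 6), (6, 5, 1), (3, 4, 0), (12, 14, 4), (9, 11, 7), (2, 4, 3)],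
   [(2, 3, 6), (9, 5, 0), (12, 0, 3), (3, 3, 9), (6, 11, 6), (15, 12, 3), (10, 15, 6), (7, 16, 0), (24, 17, 0), (29, 14, 5)],
   [(8, 4, 1), (7, 3, 5), (10, 7, 5), (13, 13, 5), (28, 15, 2), (1, 7, 0), (18, 6, 2), (11, 0, 4)],
   [(21, 6, 5), (14, 0, 5), (19, 5, 6), (26, 7, 9), (27, 0, 6), (20, 6, 0), (5, 18, 0), (4, 18, 1)],
   [(0, 5, 5), (25, 15, 1), (24, 10, 5), (7, 9, 4), (8, 13, 6), (11, 5, 2), (14, 3, 4), (19, 1, 2), (26, 0, 7), (27, 6, 3)],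
   [(23, 2, 8), (18, 9, 9), (11, 2, 4), (8, 9, 1), (7, 2, 6), (10, 9, 7), (15, 1, 4), (6, 3, 2)],
   [(2, 2, 7), (9, 8, 3), (12, 2, 3), (3, 13, 7), (6, 7, 3), (23, 10, 4), (18, 1, 5), (11, 8, 5), (14, 2, 5), (19, 8, 1)],
   [(2, 19, 6), (9, 12, 5), (12, 11, 4), (3, 1, 6), (22, 9, 5), (25, 7, 2), (24, 15, 0), (29, 17, 7)],
   [(11, 14, 3), (18, 18, 5), (1, 12, 9), (28, 1, 7), (13, 10, 2), (10, 12, 4), (7, 4, 4), (8, 3, 8)],
   [(27, 18, 4), (26, 14, 0), (19, 15, 7), (14, 4, 5), (11, 11, 5), (8, 10, 1), (7, 19, 5), (24, 13, 2), (25, 1, 8), (0, 11, 2)],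
   [(29, 2, 2), (24, 1, 9), (25, 12, 7), (22, 19, 4), (3, 15, 3), (12, 5, 3), (9, 7, 4), (2, 9, 3)],
   [(27, 12, 1), (26, 18, 3), (15, 18, 6), (10, 11, 0), (13, 3, 7), (28, 4, 9), (1, 17, 9), (0, 15, 8)],
   [(25, 10, 6), (24, 7, 1), (29, 5, 4), (2, 13, 4), (19, 19, 3), (14, 16, 1), (11, 4, 6), (18, 12, 2), (1, 14, 7), (0, 17, 8)],
   [(6, 4, 7), (15, 15, 5), (10, 19, 2), (7, 17, 3), (8, 19, 8), (11, 17, 5), (18, 19, 0), (23, 17, 1)],
   [(25, 4, 8), (22, 16, 7), (3, 19, 9), (6, 16, 3), (15, 19, 1), (10, 16, 5), (13, 19, 7), (28, 10, 7), (1, 15, 9), (0, 14, 6)],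
   [(4, 6, 6), (5, 6, 7), (20, 18, 7), (27, 14, 1), (26, 12, 0), (19, 11, 1), (14, 14, 2), (21, 18, 2)],
   [(19, 16, 6), (14, 17, 4), (11, 16, 2), (18, 15, 4), (23, 13, 3), (6, 12, 6), (3, 10, 0), (12, 17, 6), (9, 16, 4), (2, 17, 2)]]

theorem sf173 : SurfFor W173 :=
  surfFor_of_table (T := T173) (lam := [0, 10, 8, 12, 3, 14, 6, 9, 13, 4, 7, 11, 2, 1, 5]) (rows := rows173)
    (by decide +kernel) (by decide +kernel) (by decide +kernel) (by decide +kernel)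

/-- the multiplication table of presentation 174 -/
def W174 : ℕ :=
  429239306601571923384312357794692084362296610430209498488204330868944689760363851161291227470726787153981273888172293449128617030369138755940686667139133049901138485238361703972681594385169647072708350087749281387821655946864368210268963437558643387764088945605475303425

/-- a surface for presentation 174 -/
def rows174 : List (List (ℕ × ℕ × ℕ)) :=
  [[(0, 1, 1), (1, 2, 0), (28, 3, 7), (13, 4, 2), (12, 5, 4), (11, 4, 6), (20, 6, 5), (21, 1, 6)],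
   [(0, 2, 1), (1, 0, 0), (18, 1, 5), (15, 7, 6), (16, 7, 7), (19, 1, 2), (20, 0, 7), (21, 6, 4)],
   [(0, 0, 1), (1, 1, 0), (18, 6, 3), (15, 8, 2), (16, 4, 9), (9, 9, 4), (24, 10, 0), (7, 3, 0)],
   [(6, 2, 7), (5, 10, 7), (12, 11, 8), (13, 12, 3), (28, 11, 2), (25, 13, 3), (10, 4, 3), (29, 0, 2)],
   [(2, 8, 1), (13, 5, 5), (12, 0, 3), (11, 3, 6), (8, 13, 2), (27, 6, 6), (10, 0, 5), (29, 5, 3), (26, 9, 5), (17, 2, 4)],
   [(29, 12, 5), (10, 11, 6), (25, 9, 6), (28, 4, 7), (13, 0, 4), (12, 4, 1), (5, 8, 0), (6, 14, 0)],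
   [(2, 15, 4), (9, 16, 0), (16, 8, 3), (19, 2, 2), (20, 1, 7), (21, 0, 6), (26, 4, 5), (17, 13, 1)],
   [(2, 7, 5), (13, 13, 7), (28, 8, 5), (25, 16, 6), (4, 13, 8), (3, 7, 0), (14, 1, 3), (17, 1, 4)],
   [(4, 5, 6), (3, 4, 0), (14, 2, 3), (17, 6, 2), (26, 16, 7), (29, 7, 2), (10, 13, 6), (25, 14, 1)],
   [(6, 15, 2), (5, 17, 3), (12, 17, 6), (11, 10, 1), (8, 2, 5), (27, 4, 8), (24, 5, 2), (9, 11, 5), (16, 18, 0), (15, 16, 2)],
   [(25, 2, 6), (10, 9, 3), (29, 17, 5), (26, 15, 0), (17, 18, 5), (14, 14, 4), (3, 11, 9), (4, 3, 1)],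
   [(17, 14, 3), (26, 13, 4), (29, 3, 4), (10, 12, 2), (27, 18, 1), (8, 9, 7), (11, 5, 1), (12, 12, 4), (13, 3, 2), (2, 10, 6)],
   [(21, 19, 1), (20, 18, 2), (11, 11, 3), (12, 3, 3), (13, 11, 7), (28, 5, 0), (1, 14, 7), (0, 19, 6)],
   [(15, 15, 5), (16, 6, 7), (9, 4, 4), (24, 3, 5), (27, 11, 1), (8, 14, 2), (11, 8, 6), (12, 7, 1), (5, 7, 4), (6, 16, 5)],
   [(7, 5, 7), (24, 8, 7), (9, 13, 5), (16, 11, 0), (15, 10, 5), (18, 18, 4), (1, 19, 7), (0, 12, 6)],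
   [(27, 10, 3), (24, 17, 4), (7, 9, 0), (22, 16, 1), (3, 6, 0), (14, 13, 0), (23, 16, 4), (8, 18, 6)],
   [(8, 6, 1), (23, 15, 3), (14, 9, 9), (3, 18, 7), (22, 15, 6), (7, 13, 9), (24, 7, 3), (27, 8, 4)],
   [(17, 19, 3), (14, 19, 4), (3, 17, 7), (4, 9, 1), (25, 15, 1), (28, 10, 2), (13, 9, 2), (2, 17, 2)],
   [(17, 9, 8), (26, 11, 4), (21, 12, 1), (20, 19, 0), (19, 14, 5), (16, 10, 4), (9, 15, 7), (2, 16, 3)],
   [(21, 18, 3), (20, 12, 0), (19, 19, 5), (16, 17, 0), (15, 17, 1), (18, 19, 2), (1, 12, 7), (0, 14, 6)]]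

theorem sf174 : SurfFor W174 :=
  surfFor_of_table (T := T174) (lam := [0, 7, 10, 2, 5, 13, 3, 11, 4, 8, 1, 14, 6, 12, 9]) (rows := rows174)
    (by decide +kernel) (by decide +kernel) (by decide +kernel) (by decide +kernel)

/-- the multiplication table of presentation 175 -/
def W175 : ℕ :=
  6191392380056310254815603433597861453268579697702639855515089516398711960551282764497999922946031656327434843164042429346295107015747314104693118764971258194635421052809013370505015246188081321660531511727017579512450554113217592481355448595036622060719932219267743745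

/-- a surface for presentation 175 -/
def rows175 : List (List (ℕ × ℕ × ℕ)) :=
  [[(6, 1, 4), (11, 0, 6), (12, 2, 3), (13, 3, 2), (8, 3, 5), (9, 2, 4), (10, 0, 1), (23, 1, 3)],
   [(15, 4, 1), (14, 5, 0), (25, 1, 5), (22, 0, 7), (7, 0, 0), (24, 1, 2), (9, 5, 7), (8, 4, 6)],
   [(6, 4, 4), (11, 2, 6), (12, 3, 3), (13, 0, 2), (8, 0, 5), (9, 3, 4), (10, 2, 1), (23, 4, 3)],
   [(6, 5, 4), (11, 3, 6), (12, 0, 3), (13, 2, 2), (8, 2, 5), (9, 0, 4), (10, 3, 1), (23, 5, 3)],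
   [(15, 5, 1), (14, 1, 0), (25, 4, 5), (22, 2, 7), (7, 2, 0), (24, 4, 2), (9, 1, 7), (8, 5, 6)],
   [(15, 1, 1), (14, 4, 0), (25, 5, 5), (22, 3, 7), (7, 3, 0), (24, 5, 2), (9, 4, 7), (8, 1, 6)]]

theorem sf175 : SurfFor W175 :=
  surfFor_of_table (T := T175) (lam := [0, 1, 3, 2, 12, 10, 13, 14, 4, 11, 8, 9, 7, 6, 5]) (rows := rows175)
    (by decide +kernel) (by decide +kernel) (by decide +kernel) (by decide +kernel)

/-- the multiplication table of presentation 176 -/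
def W176 : ℕ :=
  198142693715128360932890287233357080930216126120398248569137108884413639801109025896438877317717691335958374862460302065419180669100891168378660621806372278315780383211485288460918434995839743483859970271998873615415365161218456168600985957679150774804034053955020390415

/-- a surface for presentation 176 -/
def rows176 : List (List (ℕ × ℕ × ℕ)) :=
  [[(8, 1, 2), (13, 2, 4), (14, 3, 0), (5, 4, 4), (26, 5, 7), (27, 2, 8), (10, 6, 6), (15, 3, 5)],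
   [(19, 7, 1), (16, 2, 5), (9, 0, 0), (4, 3, 4), (7, 8, 7), (28, 8, 2), (11, 6, 9), (2, 7, 6)],
   [(10, 4, 1), (7, 9, 0), (28, 6, 2), (11, 3, 1), (12, 0, 1), (17, 1, 1), (20, 7, 0), (29, 6, 7), (26, 0, 5), (27, 5, 6)],
   [(15, 0, 2), (10, 2, 3), (27, 6, 1), (26, 8, 0), (5, 1, 3), (14, 0, 7), (13, 6, 5), (8, 4, 5)],
   [(2, 9, 1), (11, 2, 0), (28, 5, 5), (7, 5, 0), (4, 0, 3), (9, 3, 7), (16, 6, 4), (19, 9, 6)],
   [(6, 4, 3), (21, 5, 4), (16, 9, 3), (9, 9, 4), (20, 5, 1), (29, 4, 2), (26, 2, 9), (27, 0, 4)],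
   [(27, 8, 1), (26, 3, 2), (29, 2, 2), (20, 9, 7), (17, 4, 6), (12, 3, 6), (11, 0, 6), (28, 2, 7), (7, 7, 7), (10, 1, 6)],
   [(21, 2, 6), (18, 1, 0), (13, 7, 5), (8, 8, 4), (17, 8, 5), (12, 7, 2), (3, 1, 7), (6, 6, 8)],
   [(27, 3, 3), (26, 6, 0), (29, 1, 5), (20, 8, 6), (9, 7, 3), (16, 7, 4), (21, 8, 3), (6, 1, 4)],
   [(6, 2, 1), (3, 4, 0), (12, 9, 5), (17, 5, 2), (8, 5, 3), (13, 9, 2), (18, 4, 7), (21, 6, 3)]]

theorem sf176 : SurfFor W176 :=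
  surfFor_of_table (T := T176) (lam := [0, 10, 4, 6, 8, 3, 14, 12, 13, 5, 11, 7, 2, 9, 1]) (rows := rows176)
    (by decide +kernel) (by decide +kernel) (by decide +kernel) (by decide +kernel)

end Pool.Agent.TriSurf
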