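import Pool.Agent.TriSurf.SData
import Pool.Agent.TriSurf.PresT

/-!
# Surfaces
-/

set_option autoImplicit false
set_option maxRecDepth 100000

namespace Pool.Agent.TriSurf

/-- the multiplication table of presentation 177 -/
def W177 : ℕ :=
  1160825061697174009455700662378703776231482180216528306187135897838765996100683426192049100701872781876857238280922308202332004247027081362018882223157363007094270155896963736635565522535448416524597095885747554595092800312982714594009357323862405579725398815522422785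

/-- a surface for presentation 177 -/
def rows177 : List (List (ℕ × ℕ × ℕ)) :=
  [[(4, 1, 7), (25, 2, 1), (16, 1, 3), (23, 3, 1), (24, 4, 6), (5, 2, 5), (22, 5, 7), (29, 6, 2)],
   [(0, 6, 1), (1, 7, 0), (28, 3, 2), (17, 0, 2), (4, 2, 0), (29, 8, 5), (22, 2, 2), (5, 0, 0)],
   [(5, 1, 4), (24, 0, 1), (23, 1, 6), (16, 8, 4), (25, 5, 8), (4, 0, 5), (17, 4, 5), (28, 9, 5), (1, 10, 9), (0, 8, 6)],
   [(5, 4, 7), (22, 0, 3), (29, 1, 2), (4, 7, 9), (17, 10, 3), (28, 11, 0), (1, 12, 7), (0, 13, 8)],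
   [(29, 13, 7), (22, 13, 2), (5, 5, 4), (24, 14, 1), (23, 9, 6), (16, 2, 6), (25, 0, 4), (4, 3, 0)],
   [(0, 15, 1), (1, 9, 0), (28, 14, 7), (17, 14, 2), (4, 4, 2), (25, 13, 1), (16, 6, 3), (23, 0, 6), (24, 2, 4), (5, 8, 3)],
   [(0, 7, 1), (1, 1, 0), (28, 0, 7), (17, 5, 6), (4, 13, 0), (29, 12, 5), (22, 11, 4), (5, 16, 0)],
   [(0, 1, 1), (1, 6, 0), (28, 16, 7), (17, 7, 6), (4, 17, 2), (25, 17, 3), (16, 7, 3), (23, 16, 6), (24, 10, 4), (5, 3, 3)],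
   [(5, 17, 7), (22, 16, 3), (29, 15, 2), (4, 5, 9), (17, 2, 3), (28, 1, 5), (1, 2, 9), (0, 10, 8)],
   [(0, 5, 1), (1, 15, 0), (28, 12, 2), (17, 15, 6), (4, 10, 0), (29, 2, 7), (22, 4, 4), (5, 14, 0)],
   [(5, 9, 4), (24, 15, 5), (23, 11, 1), (16, 3, 4), (25, 7, 8), (4, 16, 5), (17, 17, 5), (28, 17, 0), (1, 8, 7), (0, 2, 8)],
   [(29, 3, 5), (22, 10, 2), (5, 15, 4), (24, 16, 1), (23, 6, 6), (16, 12, 4), (25, 15, 8), (4, 12, 0)],
   [(5, 11, 7), (22, 15, 7), (29, 9, 2), (4, 15, 9), (17, 11, 5), (28, 6, 5), (1, 13, 9), (0, 3, 6)],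
   [(5, 6, 4), (24, 5, 5), (23, 4, 1), (16, 13, 6), (25, 14, 4), (4, 14, 5), (17, 13, 3), (28, 4, 0), (1, 3, 7), (0, 12, 6)],
   [(4, 9, 7), (25, 4, 3), (16, 5, 3), (23, 14, 6), (24, 13, 4), (5, 13, 5), (22, 14, 3), (29, 5, 2)],
   [(0, 9, 1), (1, 5, 0), (28, 8, 2), (17, 16, 2), (4, 11, 2), (25, 10, 1), (16, 9, 3), (23, 12, 1), (24, 11, 6), (5, 12, 3)],
   [(4, 6, 7), (25, 11, 3), (16, 15, 3), (23, 8, 1), (24, 17, 6), (5, 10, 5), (22, 7, 7), (29, 7, 2)],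
   [(29, 10, 7), (22, 17, 4), (5, 7, 4), (24, 7, 5), (23, 17, 1), (16, 10, 6), (25, 16, 4), (4, 8, 0)]]

theorem sf177 : SurfFor W177 :=
  surfFor_of_table (T := T177) (lam := [0, 9, 2, 10, 11, 14, 12, 13, 6, 4, 3, 5, 8, 1, 7]) (rows := rows177)
    (by decide +kernel) (by decide +kernel) (by decide +kernel) (by decide +kernel)

/-- the multiplication table of presentation 178 -/
def W178 : ℕ :=
  132073632791814219293218069414325870055755474417124286694308399943536535799884743417703186402214337881497911276383017886629772669932910630340209512830427259833331484757825654293551699838805404552936735836847507405957559624843404807895858446439605840442593651649543143425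

/-- a surface for presentation 178 -/
def rows178 : List (List (ℕ × ℕ × ℕ)) :=
  [[(0, 1, 1), (1, 2, 0), (18, 2, 3), (19, 1, 2), (16, 0, 7), (25, 3, 1), (24, 3, 2), (17, 0, 4)],
   [(0, 2, 1), (1, 0, 0), (18, 0, 3), (19, 2, 2), (16, 1, 7), (25, 4, 1), (24, 4, 2), (17, 1, 4)],
   [(0, 0, 1), (1, 1, 0), (18, 1, 3), (19, 0, 2), (16, 2, 7), (25, 5, 1), (24, 5, 2), (17, 2, 4)],
   [(17, 3, 3), (24, 0, 5), (25, 0, 6), (16, 3, 0), (19, 4, 5), (18, 5, 4), (1, 5, 7), (0, 4, 6)],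
   [(17, 4, 3), (24, 1, 5), (25, 1, 6), (16, 4, 0), (19, 5, 5), (18, 3, 4), (1, 3, 7), (0, 5, 6)],
   [(17, 5, 3), (24, 2, 5), (25, 2, 6), (16, 5, 0), (19, 3, 5), (18, 4, 4), (1, 4, 7), (0, 3, 6)]]

theorem sf178 : SurfFor W178 :=
  surfFor_of_table (T := T178) (lam := [0, 14, 7, 3, 8, 1, 6, 12, 2, 11, 4, 13, 5, 10, 9]) (rows := rows178)
    (by decide +kernel) (by decide +kernel) (by decide +kernel) (by decide +kernel)

/-- the multiplication table of presentation 179 -/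
def W179 : ℕ :=
  30180888741637139178697392259711965009151653572236714894285827382324005877838293534199721168310249727099581876882698215200196089752898231525956514753197057287214543650459582639669252642007651492724366632809663926516035058462980907625074775899336197275086913976485806095

/-- a surface for presentation 179 -/
def rows179 : List (List (ℕ × ℕ × ℕ)) :=
  [[(6, 1, 1), (7, 2, 0), (16, 3, 2), (9, 4, 3), (20, 5, 2), (11, 1, 6), (8, 4, 6), (17, 6, 4), (10, 7, 5), (25, 8, 1)],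
   [(6, 2, 1), (7, 0, 0), (16, 8, 0), (21, 9, 5), (24, 10, 0), (17, 4, 7), (10, 0, 5), (25, 5, 1)],
   [(6, 0, 1), (7, 1, 0), (16, 5, 0), (21, 11, 2), (24, 9, 0), (17, 12, 7), (10, 13, 5), (25, 3, 3)],
   [(25, 6, 6), (10, 4, 4), (17, 0, 2), (24, 2, 7), (21, 13, 4), (16, 14, 7), (7, 4, 9), (6, 10, 6)],
   [(25, 14, 6), (10, 12, 4), (17, 5, 3), (8, 0, 3), (11, 3, 1), (20, 6, 5), (9, 0, 6), (16, 1, 5), (7, 10, 7), (6, 3, 6)],
   [(17, 2, 2), (24, 1, 7), (21, 0, 4), (16, 4, 2), (9, 12, 3), (20, 15, 2), (11, 7, 8), (8, 11, 3)],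
   [(8, 15, 4), (11, 12, 1), (20, 11, 5), (9, 7, 6), (16, 0, 7), (21, 4, 5), (24, 3, 0), (17, 10, 5)],
   [(6, 16, 1), (7, 13, 0), (16, 10, 2), (9, 9, 3), (20, 8, 2), (11, 0, 8), (8, 6, 3), (17, 11, 4), (10, 5, 6), (25, 15, 1)],
   [(17, 1, 2), (24, 0, 9), (21, 7, 4), (16, 9, 2), (9, 11, 0), (20, 17, 4), (11, 16, 6), (8, 9, 6)],
   [(25, 2, 4), (10, 11, 1), (17, 8, 3), (8, 7, 3), (11, 10, 1), (20, 1, 3), (9, 8, 7), (16, 16, 5), (7, 17, 7), (6, 12, 8)],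
   [(25, 1, 4), (10, 9, 4), (17, 7, 2), (24, 13, 9), (21, 15, 5), (16, 6, 7), (7, 3, 7), (6, 4, 8)],
   [(8, 8, 4), (11, 9, 1), (20, 2, 3), (9, 5, 7), (16, 7, 7), (21, 6, 2), (24, 12, 0), (17, 17, 5)],
   [(25, 11, 6), (10, 6, 1), (17, 15, 3), (8, 5, 4), (11, 4, 1), (20, 14, 5), (9, 13, 6), (16, 2, 5), (7, 9, 9), (6, 17, 6)],
   [(6, 7, 1), (7, 16, 0), (16, 17, 2), (9, 14, 0), (20, 3, 4), (11, 2, 6), (8, 12, 6), (17, 14, 4), (10, 15, 6), (25, 10, 3)],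
   [(8, 13, 3), (11, 17, 1), (20, 16, 3), (9, 15, 7), (16, 13, 7), (21, 12, 5), (24, 4, 0), (17, 3, 5)],
   [(17, 16, 2), (24, 7, 9), (21, 5, 5), (16, 12, 2), (9, 6, 0), (20, 10, 4), (11, 13, 8), (8, 14, 3)],
   [(6, 13, 1), (7, 7, 0), (16, 15, 0), (21, 14, 2), (24, 17, 0), (17, 9, 7), (10, 8, 6), (25, 17, 3)],
   [(25, 16, 4), (10, 14, 1), (17, 13, 2), (24, 16, 7), (21, 8, 5), (16, 11, 7), (7, 12, 9), (6, 9, 8)]]

theorem sf179 : SurfFor W179 :=
  surfFor_of_table (T := T179) (lam := [0, 10, 7, 11, 8, 13, 1, 4, 12, 3, 5, 14, 9, 6, 2]) (rows := rows179)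
    (by decide +kernel) (by decide +kernel) (by decide +kernel) (by decide +kernel)

/-- the multiplication table of presentation 180 -/
def W180 : ℕ :=
  396228959486562479536091633423599344714994659255101533603453442278947548867681944054819818042717972164375573151225590736821978551673316556424755406583316307268609242060900392970891434820550423640697120633814555203373029115284345165448228599591037547077793037761069973505

/-- a surface for presentation 180 -/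
def rows180 : List (List (ℕ × ℕ × ℕ)) :=
  [[(6, 1, 3), (3, 2, 5), (10, 3, 3), (23, 4, 1), (28, 5, 0), (19, 6, 5), (12, 7, 0), (27, 8, 2)],
   [(0, 9, 1), (1, 10, 0), (18, 2, 6), (7, 0, 0), (8, 8, 1), (11, 7, 5), (24, 9, 7), (21, 11, 1)],
   [(21, 12, 2), (22, 8, 5), (25, 13, 1), (14, 10, 5), (9, 3, 4), (2, 0, 1), (19, 1, 2), (28, 10, 7), (1, 13, 7), (0, 11, 6)],
   [(0, 14, 3), (21, 15, 8), (24, 4, 2), (11, 0, 2), (8, 2, 4), (5, 10, 4), (20, 6, 0), (29, 16, 7)],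
   [(27, 5, 1), (22, 0, 3), (25, 3, 2), (14, 15, 7), (7, 5, 3), (18, 15, 3), (1, 17, 7), (28, 16, 0), (19, 5, 5), (12, 15, 5)],
   [(29, 0, 4), (26, 4, 0), (3, 15, 4), (6, 4, 4), (17, 15, 6), (18, 4, 8), (1, 16, 9), (0, 6, 6)],
   [(21, 3, 6), (22, 10, 3), (27, 18, 3), (6, 12, 7), (17, 7, 1), (18, 0, 5), (1, 5, 7), (0, 16, 8)],
   [(13, 0, 6), (16, 6, 4), (15, 12, 6), (4, 18, 6), (23, 9, 8), (10, 1, 5), (3, 8, 0), (26, 19, 0), (9, 13, 3), (2, 8, 3)],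
   [(2, 7, 6), (9, 1, 4), (26, 0, 7), (3, 7, 9), (10, 13, 2), (23, 2, 1), (4, 12, 1), (15, 18, 1), (16, 20, 3), (13, 19, 1)],
   [(0, 10, 1), (1, 1, 0), (28, 11, 0), (19, 13, 5), (2, 19, 6), (9, 17, 3), (14, 11, 2), (25, 1, 6), (22, 7, 4), (21, 18, 5)],
   [(0, 1, 1), (1, 9, 0), (28, 18, 4), (23, 6, 1), (4, 3, 5), (15, 2, 3), (20, 13, 0), (29, 2, 7)],
   [(29, 9, 2), (20, 1, 7), (15, 9, 6), (4, 17, 2), (23, 20, 6), (28, 12, 3), (1, 2, 9), (0, 13, 6)],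
   [(8, 18, 2), (5, 8, 6), (20, 2, 0), (29, 11, 5), (26, 20, 5), (9, 18, 7), (14, 7, 2), (7, 6, 3)],
   [(21, 10, 6), (24, 2, 2), (11, 8, 4), (8, 7, 8), (7, 19, 7), (18, 9, 3), (1, 11, 7), (0, 2, 8)],
   [(12, 16, 4), (19, 21, 2), (28, 15, 9), (1, 3, 0), (18, 16, 6), (7, 21, 4), (14, 16, 2), (25, 17, 5), (22, 19, 4), (27, 21, 6)],
   [(0, 21, 1), (1, 20, 0), (28, 17, 0), (19, 4, 5), (2, 5, 2), (13, 4, 9), (16, 5, 4), (15, 4, 3), (20, 3, 1), (29, 14, 2)],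
   [(29, 4, 7), (20, 17, 6), (15, 14, 6), (16, 21, 3), (13, 14, 0), (2, 21, 5), (19, 14, 4), (28, 3, 7), (1, 6, 7), (0, 5, 6)],
   [(29, 15, 2), (20, 20, 7), (5, 11, 3), (8, 9, 5), (11, 19, 5), (24, 14, 7), (21, 16, 1), (0, 4, 6)],
   [(7, 20, 4), (14, 8, 7), (9, 12, 0), (26, 6, 2), (29, 10, 2), (20, 9, 9), (5, 7, 3), (8, 12, 5)],
   [(27, 7, 7), (12, 8, 9), (19, 20, 2), (28, 21, 7), (23, 14, 8), (10, 17, 4), (3, 9, 4), (6, 13, 4)],
   [(0, 15, 1), (1, 21, 0), (18, 19, 2), (17, 8, 8), (6, 18, 0), (27, 12, 4), (22, 11, 4), (21, 17, 1)],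
   [(0, 20, 1), (1, 15, 0), (18, 14, 1), (17, 16, 3), (6, 14, 5), (3, 16, 5), (26, 14, 9), (29, 19, 3)]]

theorem sf180 : SurfFor W180 :=
  surfFor_of_table (T := T180) (lam := [0, 9, 13, 14, 4, 12, 5, 8, 11, 3, 2, 6, 7, 10, 1]) (rows := rows180)
    (by decide +kernel) (by decide +kernel) (by decide +kernel) (by decide +kernel)

/-- the multiplication table of presentation 181 -/
def W181 : ℕ :=
  1584883593414711589477828200893394261732084118655379160032128163352720455603774105195012359950666882509767151166184647584370630402402636302494873087475714212097452643832140381530066508507819172593104814452058511945176944310106948224707334961749851127668717538842482049025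

/-- a surface for presentation 181 -/
def rows181 : List (List (ℕ × ℕ × ℕ)) :=
  [[(4, 1, 0), (17, 2, 5), (14, 1, 6), (27, 3, 2), (8, 4, 8), (15, 5, 4), (10, 6, 1), (29, 4, 1)],
   [(5, 0, 0), (28, 4, 0), (1, 3, 0), (18, 7, 5), (27, 8, 6), (8, 3, 3), (15, 0, 2), (24, 2, 4), (3, 9, 7), (2, 2, 6)],
   [(5, 10, 0), (12, 11, 0), (19, 12, 6), (20, 9, 0), (25, 1, 7), (16, 0, 1), (3, 1, 9), (2, 9, 6)],
   [(0, 1, 2), (11, 4, 9), (26, 0, 3), (9, 1, 5), (10, 8, 5), (15, 13, 6), (24, 14, 0), (13, 7, 6)],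
   [(29, 1, 1), (28, 0, 7), (1, 6, 0), (18, 6, 3), (27, 5, 2), (14, 15, 2), (21, 16, 5), (26, 5, 5), (9, 0, 4), (10, 3, 1)],
   [(10, 11, 6), (9, 15, 3), (26, 4, 4), (21, 6, 2), (14, 0, 5), (27, 4, 7), (18, 16, 4), (1, 16, 7), (28, 15, 0), (29, 12, 8)],
   [(0, 4, 2), (11, 0, 6), (20, 5, 3), (19, 4, 3), (12, 6, 7), (23, 16, 1), (22, 16, 2), (13, 6, 4)],
   [(2, 8, 1), (3, 12, 0), (16, 15, 6), (25, 12, 2), (20, 8, 7), (19, 1, 3), (12, 3, 7), (5, 14, 9)],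
   [(2, 12, 1), (3, 7, 0), (16, 14, 8), (25, 14, 3), (20, 13, 7), (11, 3, 4), (26, 1, 4), (21, 7, 4)],
   [(21, 2, 3), (26, 12, 5), (11, 11, 3), (20, 17, 0), (25, 10, 6), (16, 10, 1), (3, 2, 7), (2, 1, 8)],
   [(4, 2, 0), (17, 9, 5), (14, 10, 5), (27, 18, 7), (8, 18, 8), (15, 10, 2), (24, 9, 4), (3, 17, 7), (16, 17, 2), (25, 11, 1)],
   [(13, 2, 1), (24, 10, 9), (15, 17, 1), (10, 9, 2), (9, 12, 4), (26, 15, 4), (11, 5, 0), (0, 12, 7)],
   [(2, 7, 1), (3, 8, 0), (24, 7, 3), (15, 15, 5), (8, 11, 4), (27, 9, 1), (18, 2, 2), (1, 11, 7), (28, 5, 9), (5, 15, 7)],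
   [(2, 14, 2), (5, 13, 4), (28, 17, 4), (29, 17, 5), (4, 13, 1), (17, 14, 1), (14, 3, 5), (21, 8, 4)],
   [(25, 3, 6), (16, 13, 5), (3, 13, 0), (24, 8, 3), (15, 14, 7), (8, 19, 1), (27, 19, 2), (14, 14, 4), (17, 8, 2), (4, 7, 7)],
   [(29, 5, 8), (10, 16, 6), (15, 4, 5), (8, 5, 1), (27, 11, 5), (14, 12, 3), (17, 7, 2), (4, 12, 9)],
   [(13, 16, 3), (22, 6, 5), (23, 6, 6), (12, 16, 0), (19, 5, 6), (20, 4, 6), (11, 15, 1), (0, 5, 7)],
   [(21, 9, 3), (14, 11, 2), (17, 10, 8), (4, 17, 6), (29, 13, 2), (28, 13, 3), (5, 17, 3), (2, 10, 7)],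
   [(15, 20, 6), (24, 19, 5), (3, 21, 7), (16, 21, 2), (25, 19, 8), (20, 20, 7), (11, 18, 9), (26, 10, 3), (9, 10, 4), (10, 18, 6)],
   [(10, 19, 3), (9, 14, 5), (26, 14, 6), (11, 19, 0), (20, 21, 0), (25, 18, 1), (16, 20, 5), (3, 20, 0), (24, 18, 4), (15, 21, 1)],
   [(2, 19, 7), (5, 20, 4), (28, 21, 4), (29, 21, 5), (4, 20, 1), (17, 19, 6), (14, 18, 0), (21, 18, 5)],
   [(21, 19, 4), (14, 19, 9), (17, 18, 3), (4, 21, 6), (29, 20, 2), (28, 20, 3), (5, 21, 3), (2, 18, 2)]]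

theorem sf181 : SurfFor W181 :=
  surfFor_of_table (T := T181) (lam := [0, 5, 3, 11, 9, 1, 2, 12, 7, 13, 4, 10, 8, 14, 6]) (rows := rows181)
    (by decide +kernel) (by decide +kernel) (by decide +kernel) (by decide +kernel)

/-- the multiplication table of presentation 182 -/
def W182 : ℕ :=
  28891138660290033459456791546631676034377543539602962291498147366727089199908454137361429937087965262239355660512116623281781433846936085464119047560159807066250994327304956451800648267422835361315081141827056644773007353762471417747731903369872383643607508546605809665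

/-- a surface for presentation 182 -/
def rows182 : List (List (ℕ × ℕ × ℕ)) :=
  [[(4, 1, 2), (13, 2, 2), (22, 3, 0), (9, 4, 3), (24, 3, 6), (5, 5, 0), (8, 4, 6), (11, 5, 2), (20, 3, 4), (23, 6, 6)],
   [(25, 7, 3), (10, 2, 3), (5, 0, 0), (8, 6, 5), (11, 2, 6), (12, 4, 8), (21, 5, 8), (6, 6, 1)],
   [(6, 7, 6), (21, 3, 1), (12, 0, 1), (11, 1, 1), (8, 7, 2), (5, 4, 9), (10, 1, 4), (25, 6, 4)],
   [(23, 0, 2), (20, 2, 1), (11, 7, 5), (12, 6, 7), (21, 0, 8), (6, 5, 1), (25, 0, 4), (10, 4, 2), (7, 5, 4), (4, 4, 4)],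
   [(23, 7, 1), (20, 5, 5), (11, 3, 7), (8, 0, 3), (5, 3, 9), (24, 5, 3), (9, 0, 6), (22, 5, 9), (13, 1, 5), (4, 2, 5)],
   [(4, 0, 5), (7, 3, 5), (10, 0, 7), (25, 4, 5), (6, 3, 8), (21, 4, 1), (12, 7, 0), (11, 6, 2), (20, 1, 6), (23, 4, 7)],
   [(4, 7, 4), (7, 1, 7), (10, 5, 7), (5, 7, 7), (24, 2, 7), (9, 1, 3), (22, 0, 9), (13, 3, 3)],
   [(13, 5, 6), (22, 4, 0), (9, 2, 4), (24, 1, 0), (5, 6, 0), (10, 3, 2), (7, 2, 0), (4, 6, 3)]]

theorem sf182 : SurfFor W182 :=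
  surfFor_of_table (T := T182) (lam := [0, 11, 12, 6, 2, 13, 7, 4, 1, 14, 10, 8, 9, 3, 5]) (rows := rows182)
    (by decide +kernel) (by decide +kernel) (by decide +kernel) (by decide +kernel)

/-- the multiplication table of presentation 183 -/
def W183 : ℕ :=
  7924417967526991435883536712964721749131322022450867939053646637273482399184381181723754129327808192347437049049590923194427052066211461117500883489300186192612749906544701728064061237191415067132245152636983435275083883144963792055114296915538974345432950266872809390090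

/-- a surface for presentation 183 -/
def rows183 : List (List (ℕ × ℕ × ℕ)) :=
  [[(4, 1, 1), (5, 2, 0), (20, 3, 2), (3, 4, 7), (26, 2, 5), (27, 1, 4), (10, 5, 6), (7, 4, 3)],
   [(4, 2, 1), (5, 0, 0), (20, 4, 2), (3, 5, 7), (26, 0, 5), (27, 2, 4), (10, 3, 6), (7, 5, 3)],
   [(4, 0, 1), (5, 1, 0), (20, 5, 2), (3, 3, 7), (26, 1, 5), (27, 0, 4), (10, 4, 6), (7, 3, 3)],
   [(17, 5, 1), (16, 4, 0), (21, 0, 2), (6, 2, 7), (27, 4, 5), (26, 5, 4), (11, 1, 6), (2, 2, 3)],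
   [(17, 3, 1), (16, 5, 0), (21, 1, 2), (6, 0, 7), (27, 5, 5), (26, 3, 4), (11, 2, 6), (2, 0, 3)],
   [(17, 4, 1), (16, 3, 0), (21, 2, 2), (6, 1, 7), (27, 3, 5), (26, 4, 4), (11, 0, 6), (2, 1, 3)]]

theorem sf183 : SurfFor W183 :=
  surfFor_of_table (T := T183) (lam := [0, 1, 8, 6, 12, 4, 10, 14, 5, 2, 11, 13, 7, 9, 3]) (rows := rows183)
    (by decide +kernel) (by decide +kernel) (by decide +kernel) (by decide +kernel)

end Pool.Agent.TriSurf
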