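import Pool.Agent.TriSurf.SData
import Pool.Agent.TriSurf.PresT

/-!
# Surfaces
-/

set_option autoImplicit false
set_option maxRecDepth 100000

namespace Pool.Agent.TriSurf

/-- the multiplication table of presentation 184 -/
def W184 : ℕ :=
  128999805595350375646217347842248006550388611275215567265588601082643008807252383579087364295345785170259380926770362769811788755759266254089926539358796177610632568941015866137874792733418424953906683067668712133654573466225514646346301152448231238672751830629351425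

/-- a surface for presentation 184 -/
def rows184 : List (List (ℕ × ℕ × ℕ)) :=
  [[(0, 1, 1), (1, 2, 0), (18, 3, 9), (11, 4, 6), (8, 1, 5), (9, 2, 4), (24, 5, 5), (3, 5, 0)],
   [(0, 2, 1), (1, 0, 0), (18, 5, 9), (11, 3, 6), (8, 2, 5), (9, 0, 4), (24, 4, 5), (3, 4, 0)],
   [(0, 0, 1), (1, 1, 0), (18, 4, 9), (11, 5, 6), (8, 0, 5), (9, 1, 4), (24, 3, 5), (3, 3, 0)],
   [(2, 2, 7), (5, 3, 4), (16, 6, 6), (17, 6, 7), (4, 3, 1), (25, 2, 6), (10, 1, 3), (27, 5, 8), (26, 4, 7), (19, 0, 2)],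
   [(2, 1, 7), (5, 4, 4), (16, 7, 6), (17, 7, 7), (4, 4, 1), (25, 1, 6), (10, 0, 3), (27, 3, 8), (26, 5, 7), (19, 2, 2)],
   [(2, 0, 7), (5, 5, 4), (16, 8, 6), (17, 8, 7), (4, 5, 1), (25, 0, 6), (10, 2, 3), (27, 4, 8), (26, 3, 7), (19, 1, 2)],
   [(19, 9, 5), (26, 7, 2), (27, 8, 1), (10, 10, 4), (25, 11, 1), (4, 6, 8), (17, 3, 2), (16, 3, 3), (5, 6, 5), (2, 11, 0)],
   [(19, 11, 5), (26, 8, 2), (27, 6, 1), (10, 9, 4), (25, 10, 1), (4, 7, 8), (17, 4, 2), (16, 4, 3), (5, 7, 5), (2, 10, 0)],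
   [(19, 10, 5), (26, 6, 2), (27, 7, 1), (10, 11, 4), (25, 9, 1), (4, 8, 8), (17, 5, 2), (16, 5, 3), (5, 8, 5), (2, 9, 0)],
   [(3, 8, 9), (24, 8, 4), (9, 11, 3), (8, 10, 2), (11, 7, 3), (18, 6, 0), (1, 11, 7), (0, 10, 6)],
   [(3, 7, 9), (24, 7, 4), (9, 9, 3), (8, 11, 2), (11, 6, 3), (18, 8, 0), (1, 9, 7), (0, 11, 6)],
   [(3, 6, 9), (24, 6, 4), (9, 10, 3), (8, 9, 2), (11, 8, 3), (18, 7, 0), (1, 10, 7), (0, 9, 6)]]

theorem sf184 : SurfFor W184 :=
  surfFor_of_table (T := T184) (lam := [0, 2, 5, 10, 12, 14, 11, 13, 8, 4, 3, 1, 6, 9, 7]) (rows := rows184)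
    (by decide +kernel) (by decide +kernel) (by decide +kernel) (by decide +kernel)

/-- the multiplication table of presentation 185 -/
def W185 : ℕ :=
  297165675731863600309936002644819184096459271565354389745802092383900354255417885055691653081147089760847784521561925056947424753491922114697163185386717630935710134704059401363225223821211099480169547061521265550423720152185585753732839648015799527759732678274867789825

/-- a surface for presentation 185 -/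
def rows185 : List (List (ℕ × ℕ × ℕ)) :=
  [[(2, 1, 5), (27, 2, 4), (16, 3, 4), (19, 4, 2), (4, 1, 7), (3, 5, 0), (14, 6, 0), (29, 5, 2)],
   [(0, 4, 1), (1, 7, 0), (18, 8, 2), (11, 9, 3), (14, 2, 5), (3, 0, 0), (22, 5, 1), (5, 0, 4)],
   [(4, 6, 6), (3, 10, 0), (14, 11, 0), (29, 3, 5), (26, 0, 1), (15, 1, 4), (20, 9, 2), (19, 5, 4)],
   [(5, 10, 4), (24, 12, 3), (21, 13, 1), (10, 4, 3), (17, 0, 2), (28, 2, 3), (1, 11, 7), (0, 14, 6)],
   [(0, 7, 1), (1, 1, 0), (18, 0, 3), (11, 3, 3), (14, 13, 0), (29, 9, 5), (26, 8, 0), (15, 15, 5)],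
   [(2, 0, 5), (23, 1, 6), (28, 0, 7), (1, 6, 7), (18, 2, 7), (25, 9, 1), (16, 16, 3), (27, 6, 1)],
   [(15, 0, 6), (26, 5, 7), (29, 16, 2), (14, 12, 9), (3, 17, 3), (22, 10, 1), (5, 2, 0), (0, 5, 3)],
   [(0, 1, 1), (1, 4, 0), (28, 15, 4), (17, 18, 5), (10, 11, 4), (21, 16, 6), (24, 17, 6), (5, 8, 3)],
   [(27, 4, 6), (16, 9, 4), (19, 1, 2), (4, 7, 7), (17, 17, 5), (28, 12, 7), (23, 19, 2), (2, 15, 6)],
   [(5, 16, 4), (24, 5, 5), (21, 2, 6), (10, 1, 3), (17, 8, 1), (28, 4, 5), (1, 13, 7), (0, 17, 8)],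
   [(2, 2, 1), (23, 6, 5), (28, 17, 2), (17, 12, 4), (4, 3, 0), (19, 14, 5), (16, 20, 3), (27, 11, 1)],
   [(15, 2, 2), (26, 10, 7), (29, 20, 2), (14, 16, 7), (11, 7, 4), (18, 18, 4), (1, 14, 7), (0, 3, 6)],
   [(0, 16, 1), (1, 20, 0), (18, 13, 2), (25, 3, 1), (16, 10, 3), (27, 17, 1), (2, 19, 3), (29, 8, 5), (26, 17, 4), (15, 6, 3)],
   [(15, 4, 4), (20, 3, 2), (19, 12, 2), (4, 20, 7), (17, 21, 1), (28, 19, 5), (1, 17, 9), (0, 9, 6)],
   [(5, 18, 3), (22, 21, 6), (3, 18, 7), (14, 15, 2), (11, 20, 4), (18, 10, 5), (1, 3, 7), (0, 11, 6)],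
   [(19, 21, 3), (20, 20, 5), (15, 14, 3), (26, 18, 6), (29, 7, 2), (14, 4, 7), (3, 8, 7), (4, 19, 1)],
   [(0, 20, 1), (1, 12, 0), (28, 6, 2), (17, 5, 6), (4, 9, 0), (19, 17, 7), (20, 7, 5), (15, 11, 3)],
   [(15, 19, 4), (26, 12, 5), (29, 10, 2), (2, 6, 4), (27, 12, 8), (16, 8, 4), (25, 7, 6), (18, 16, 5), (1, 9, 7), (0, 13, 6)],
   [(29, 21, 5), (14, 19, 7), (3, 21, 7), (4, 14, 0), (19, 11, 5), (16, 7, 3), (27, 15, 3), (2, 14, 2)],
   [(0, 21, 4), (5, 15, 7), (22, 8, 6), (3, 12, 6), (14, 17, 0), (29, 13, 5), (26, 21, 0), (15, 18, 1)],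
   [(0, 12, 1), (1, 16, 0), (28, 11, 2), (17, 10, 6), (10, 14, 4), (21, 15, 1), (24, 21, 2), (5, 13, 3)],
   [(27, 19, 6), (16, 13, 4), (25, 20, 6), (18, 15, 0), (1, 19, 0), (28, 18, 0), (23, 14, 1), (2, 18, 2)]]

theorem sf185 : SurfFor W185 :=
  surfFor_of_table (T := T185) (lam := [0, 7, 2, 9, 10, 14, 13, 1, 6, 8, 12, 3, 11, 5, 4]) (rows := rows185)
    (by decide +kernel) (by decide +kernel) (by decide +kernel) (by decide +kernel)

/-- the multiplication table of presentation 186 -/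
def W186 : ℕ :=
  330184089831992862555886937410957752781991509776846378815281997949907718951269897448291976981686371978815403959862218011411640363734333383596173326090659959642078674719835080387319810982937789206778185954703103100882637636440158314416525928944504226158536228220325330945

/-- a surface for presentation 186 -/
def rows186 : List (List (ℕ × ℕ × ℕ)) :=
  [[(4, 1, 7), (19, 2, 4), (10, 3, 9), (13, 4, 6), (8, 5, 4), (9, 6, 5), (12, 7, 3), (25, 8, 8), (22, 4, 9), (23, 7, 8)],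
   [(0, 9, 3), (3, 10, 7), (26, 11, 4), (15, 10, 1), (6, 9, 1), (27, 11, 7), (16, 2, 5), (5, 0, 0), (24, 7, 7), (11, 4, 2)],
   [(2, 12, 8), (7, 8, 4), (28, 13, 0), (1, 3, 0), (18, 0, 1), (17, 1, 6), (14, 11, 6), (29, 10, 5)],
   [(0, 2, 3), (3, 13, 7), (26, 14, 4), (15, 15, 1), (6, 16, 1), (27, 14, 7), (16, 16, 5), (5, 7, 0), (24, 4, 7), (11, 0, 2)],
   [(4, 8, 7), (19, 9, 4), (10, 1, 9), (13, 7, 6), (8, 17, 4), (9, 5, 5), (12, 0, 3), (25, 3, 8), (22, 7, 9), (23, 0, 8)],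
   [(23, 6, 1), (22, 17, 0), (25, 14, 1), (12, 6, 6), (9, 0, 4), (8, 4, 5), (13, 17, 3), (10, 12, 0), (19, 10, 3), (4, 11, 2)],
   [(23, 17, 1), (22, 5, 0), (25, 11, 1), (12, 17, 6), (9, 7, 4), (8, 0, 5), (13, 5, 3), (10, 14, 0), (19, 13, 3), (4, 12, 2)],
   [(4, 3, 7), (19, 16, 4), (10, 8, 9), (13, 0, 6), (8, 6, 4), (9, 17, 5), (12, 4, 3), (25, 1, 8), (22, 0, 9), (23, 4, 8)],
   [(0, 16, 3), (3, 15, 7), (26, 12, 4), (15, 13, 1), (6, 2, 1), (27, 12, 7), (16, 9, 5), (5, 4, 0), (24, 0, 7), (11, 7, 2)],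
   [(2, 11, 8), (7, 1, 4), (28, 10, 0), (1, 1, 0), (18, 4, 1), (17, 8, 6), (14, 12, 6), (29, 15, 5)],
   [(29, 9, 2), (14, 1, 3), (17, 11, 3), (18, 5, 8), (1, 12, 9), (28, 2, 7), (7, 11, 5), (2, 1, 1)],
   [(11, 17, 7), (24, 6, 2), (5, 5, 9), (16, 10, 2), (27, 1, 2), (6, 10, 6), (15, 2, 6), (26, 1, 5), (3, 9, 0), (0, 15, 4)],
   [(11, 5, 7), (24, 17, 2), (5, 6, 9), (16, 13, 2), (27, 8, 2), (6, 15, 6), (15, 9, 6), (26, 8, 5), (3, 2, 0), (0, 10, 4)],
   [(29, 2, 2), (14, 8, 3), (17, 12, 3), (18, 6, 8), (1, 14, 9), (28, 16, 7), (7, 14, 5), (2, 3, 1)],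
   [(11, 6, 7), (24, 5, 2), (5, 17, 9), (16, 15, 2), (27, 3, 2), (6, 13, 6), (15, 16, 6), (26, 3, 5), (3, 16, 0), (0, 13, 4)],
   [(29, 16, 2), (14, 3, 3), (17, 14, 3), (18, 17, 8), (1, 11, 9), (28, 9, 7), (7, 12, 5), (2, 8, 1)],
   [(2, 14, 8), (7, 3, 4), (28, 15, 0), (1, 8, 0), (18, 7, 1), (17, 3, 6), (14, 14, 6), (29, 13, 5)],
   [(23, 5, 1), (22, 6, 0), (25, 12, 1), (12, 5, 6), (9, 4, 4), (8, 7, 5), (13, 6, 3), (10, 11, 0), (19, 15, 3), (4, 14, 2)]]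

theorem sf186 : SurfFor W186 :=
  surfFor_of_table (T := T186) (lam := [0, 1, 5, 3, 13, 2, 12, 9, 14, 6, 8, 7, 10, 11, 4]) (rows := rows186)
    (by decide +kernel) (by decide +kernel) (by decide +kernel) (by decide +kernel)

/-- the multiplication table of presentation 187 -/
def W187 : ℕ :=
  231128857433385153208122875546535720135996619140644563224078647906350270450601186438224335237438620470374264400654950157405088096924850661378675823411053611328369018052898552090678484314639521440296965971950588621194504480764912772414370969274200923021940736321560510465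

/-- a surface for presentation 187 -/
def rows187 : List (List (ℕ × ℕ × ℕ)) :=
  [[(8, 1, 3), (11, 2, 7), (18, 2, 0), (23, 1, 4), (16, 0, 7), (3, 3, 7), (24, 3, 0), (17, 0, 4)],
   [(2, 4, 5), (15, 1, 6), (12, 2, 8), (9, 0, 0), (22, 0, 3), (5, 2, 9), (14, 1, 1), (25, 4, 4)],
   [(19, 0, 2), (16, 2, 6), (23, 3, 3), (18, 4, 7), (11, 4, 2), (8, 3, 4), (17, 2, 1), (10, 0, 1), (13, 1, 2), (4, 1, 5)],
   [(25, 0, 6), (14, 3, 6), (5, 4, 0), (22, 2, 2), (9, 2, 5), (12, 4, 1), (15, 3, 1), (2, 0, 5)],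
   [(4, 3, 2), (13, 3, 5), (10, 2, 4), (17, 4, 6), (24, 1, 7), (3, 1, 0), (16, 4, 3), (19, 2, 3)]]

theorem sf187 : SurfFor W187 :=
  surfFor_of_table (T := T187) (lam := [0, 5, 7, 1, 10, 14, 6, 3, 12, 8, 2, 11, 4, 13, 9]) (rows := rows187)
    (by decide +kernel) (by decide +kernel) (by decide +kernel) (by decide +kernel)

/-- the multiplication table of presentation 188 -/
def W188 : ℕ :=
  132073632791694099023845323065461864997141962244694784096824068675815425021703797032764203684843577565581529086926422934045743376246573968045644685967035609821795488197407241251922908953157124230743691858142296839806513922663525171463060251994646489263290849425509842945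

/-- a surface for presentation 188 -/
def rows188 : List (List (ℕ × ℕ × ℕ)) :=
  [[(8, 1, 2), (15, 2, 3), (24, 3, 0), (13, 4, 4), (16, 4, 7), (23, 5, 2), (18, 5, 5), (25, 3, 5)],
   [(17, 3, 3), (20, 2, 4), (9, 0, 0), (12, 3, 4), (5, 1, 7), (28, 5, 7), (7, 5, 0), (4, 1, 4)],
   [(29, 4, 2), (26, 2, 6), (19, 3, 1), (14, 0, 1), (21, 1, 1), (22, 3, 2), (27, 2, 1), (6, 4, 1)],
   [(25, 0, 2), (18, 2, 2), (23, 2, 5), (16, 1, 0), (13, 1, 3), (24, 0, 7), (15, 5, 4), (8, 4, 5)],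
   [(4, 4, 3), (7, 2, 7), (28, 2, 0), (5, 4, 0), (12, 0, 3), (9, 3, 7), (20, 5, 3), (17, 0, 4)],
   [(6, 1, 6), (27, 5, 6), (22, 0, 5), (21, 4, 6), (14, 3, 6), (19, 0, 6), (26, 5, 1), (29, 1, 5)]]

theorem sf188 : SurfFor W188 :=
  surfFor_of_table (T := T188) (lam := [0, 1, 3, 6, 13, 2, 5, 12, 8, 4, 7, 11, 14, 10, 9]) (rows := rows188)
    (by decide +kernel) (by decide +kernel) (by decide +kernel) (by decide +kernel)

/-- the multiplication table of presentation 189 -/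
def W189 : ℕ :=
  7924417967042688915469223855816083373947858525647385340989809614444967099989711096127191362665890004335630319041927069794058683691278080691179028603699014372333535033798391210275707845731282770916194938462505097716402238051357626946536074298581162469474816851026613633025

/-- a surface for presentation 189 -/
def rows189 : List (List (ℕ × ℕ × ℕ)) :=
  [[(0, 1, 1), (1, 2, 0), (28, 3, 5), (29, 2, 2), (10, 1, 7), (7, 4, 7), (24, 5, 2), (15, 6, 2)],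
   [(0, 2, 1), (1, 0, 0), (18, 6, 1), (13, 7, 5), (14, 4, 4), (21, 6, 6), (26, 4, 0), (11, 0, 4)],
   [(0, 0, 1), (1, 1, 0), (28, 0, 3), (29, 3, 4), (4, 8, 1), (25, 9, 1), (20, 10, 4), (11, 3, 6)],
   [(6, 8, 5), (5, 10, 7), (12, 11, 4), (23, 8, 2), (28, 2, 3), (29, 0, 2), (10, 2, 7), (27, 10, 3)],
   [(27, 1, 6), (10, 6, 5), (7, 7, 7), (24, 6, 7), (15, 1, 4), (22, 7, 4), (5, 5, 3), (6, 0, 5)],
   [(11, 7, 1), (20, 6, 3), (25, 0, 6), (4, 4, 6), (29, 7, 3), (28, 9, 4), (1, 11, 7), (0, 9, 6)],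
   [(4, 7, 6), (19, 1, 2), (14, 0, 7), (21, 5, 1), (26, 7, 0), (11, 4, 1), (20, 1, 5), (25, 4, 3)],
   [(27, 6, 4), (10, 5, 0), (29, 9, 5), (28, 5, 4), (23, 4, 5), (12, 1, 3), (5, 6, 0), (6, 4, 2)],
   [(6, 9, 2), (5, 2, 4), (22, 3, 3), (15, 11, 3), (24, 10, 0), (7, 3, 0), (10, 10, 2), (27, 11, 1)],
   [(15, 10, 5), (24, 2, 5), (7, 8, 0), (10, 11, 0), (29, 5, 5), (28, 7, 2), (1, 5, 7), (0, 11, 6)],
   [(25, 8, 4), (20, 11, 2), (11, 8, 6), (26, 3, 7), (21, 2, 6), (14, 9, 0), (19, 11, 5), (4, 3, 1)],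
   [(11, 9, 3), (26, 8, 7), (21, 10, 1), (14, 8, 3), (13, 3, 2), (18, 10, 6), (1, 9, 7), (0, 5, 6)]]

theorem sf189 : SurfFor W189 :=
  surfFor_of_table (T := T189) (lam := [0, 11, 10, 12, 5, 1, 14, 2, 13, 7, 4, 3, 8, 9, 6]) (rows := rows189)
    (by decide +kernel) (by decide +kernel) (by decide +kernel) (by decide +kernel)

/-- the multiplication table of presentation 190 -/
def W190 : ℕ :=
  12381934562301544299391311596758859628809210629152378088384162086405677644722786761008347067498601313515080002576991993309558321989004745945822299906076178799368155764989445200944101784761386581342893771344310847446039470451147985210510870973524574161929035123286605825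

/-- a surface for presentation 190 -/
def rows190 : List (List (ℕ × ℕ × ℕ)) :=
  [[(0, 1, 1), (1, 2, 0), (18, 3, 3), (15, 4, 8), (8, 2, 7), (3, 3, 0), (10, 4, 1), (9, 2, 4), (26, 5, 7), (21, 4, 4)],
   [(0, 2, 1), (1, 0, 0), (18, 4, 3), (15, 3, 8), (8, 1, 7), (3, 5, 0), (10, 5, 1), (9, 1, 4), (26, 3, 7), (21, 5, 4)],
   [(0, 0, 1), (1, 1, 0), (18, 5, 3), (15, 5, 8), (8, 0, 7), (3, 4, 0), (10, 3, 1), (9, 0, 4), (26, 4, 7), (21, 3, 4)],
   [(2, 0, 5), (11, 2, 6), (12, 4, 9), (19, 0, 2), (20, 2, 9), (5, 4, 6), (4, 5, 5), (27, 1, 8), (14, 1, 3), (13, 4, 2)],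
   [(2, 2, 5), (11, 0, 6), (12, 3, 9), (19, 1, 2), (20, 0, 9), (5, 5, 6), (4, 3, 5), (27, 2, 8), (14, 0, 3), (13, 3, 2)],
   [(2, 1, 5), (11, 1, 6), (12, 5, 9), (19, 2, 2), (20, 1, 9), (5, 3, 6), (4, 4, 5), (27, 0, 8), (14, 2, 3), (13, 5, 2)]]

theorem sf190 : SurfFor W190 :=
  surfFor_of_table (T := T190) (lam := [0, 12, 8, 11, 9, 3, 4, 14, 2, 13, 1, 10, 6, 7, 5]) (rows := rows190)
    (by decide +kernel) (by decide +kernel) (by decide +kernel) (by decide +kernel)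

end Pool.Agent.TriSurf
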