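import Pool.Agent.TriSurf.SData
import Pool.Agent.TriSurf.PresT

/-!
# Surfaces
-/

set_option autoImplicit false
set_option maxRecDepth 100000

namespace Pool.Agent.TriSurf

/-- the multiplication table of presentation 191 -/
def W191 : ℕ :=
  724243001320601298961801113774483010874617352264758876380226549450325756645812669173151768962074310031528387311319044117232516065448215695319089752318935678321166535257034621699661605332633520130910888605033892037493991085054582401772330962432921825865818255130625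

/-- a surface for presentation 191 -/
def rows191 : List (List (ℕ × ℕ × ℕ)) :=
  [[(10, 1, 7), (13, 2, 4), (28, 3, 5), (1, 2, 0), (18, 4, 1), (29, 3, 2), (16, 4, 3), (21, 2, 6), (24, 1, 5), (25, 5, 1)],
   [(6, 6, 4), (17, 7, 6), (22, 8, 0), (19, 9, 5), (24, 5, 2), (25, 0, 8), (8, 2, 5), (11, 0, 0), (18, 5, 0), (29, 8, 7)],
   [(0, 0, 3), (19, 3, 4), (22, 4, 7), (17, 3, 6), (12, 0, 1), (9, 1, 6), (20, 0, 7), (23, 4, 2)],
   [(10, 10, 1), (13, 4, 4), (28, 0, 5), (1, 4, 0), (18, 2, 1), (29, 0, 2), (16, 2, 3), (21, 4, 6), (24, 10, 7), (25, 9, 1)],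
   [(0, 3, 3), (19, 0, 4), (22, 2, 7), (17, 0, 6), (12, 3, 1), (9, 10, 0), (20, 3, 7), (23, 2, 2)],
   [(19, 1, 8), (24, 0, 9), (25, 1, 4), (10, 9, 4), (13, 11, 0), (28, 10, 3), (1, 9, 7), (0, 8, 8)],
   [(17, 12, 3), (22, 6, 6), (3, 8, 5), (14, 7, 7), (7, 1, 0), (26, 8, 6), (23, 6, 1), (20, 12, 2), (9, 13, 4), (12, 14, 3)],
   [(0, 13, 1), (1, 14, 0), (28, 15, 0), (27, 11, 4), (2, 11, 7), (21, 8, 1), (16, 1, 1), (15, 6, 3), (20, 8, 4), (23, 15, 7)],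
   [(23, 1, 2), (20, 7, 5), (15, 11, 6), (16, 15, 8), (21, 7, 8), (2, 6, 2), (27, 6, 5), (28, 1, 9), (1, 5, 7), (0, 9, 6)],
   [(19, 10, 2), (24, 3, 9), (25, 10, 6), (8, 11, 1), (11, 5, 3), (18, 1, 3), (1, 8, 9), (0, 5, 6)],
   [(8, 4, 5), (11, 3, 0), (18, 9, 0), (29, 5, 5), (16, 11, 9), (21, 11, 2), (24, 9, 2), (25, 3, 8)],
   [(12, 5, 4), (9, 9, 3), (20, 10, 5), (23, 11, 8), (26, 7, 3), (7, 15, 9), (14, 8, 2), (3, 7, 4), (22, 11, 3), (17, 10, 4)],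
   [(25, 16, 1), (24, 13, 5), (21, 6, 7), (16, 6, 0), (29, 14, 2), (18, 13, 7), (11, 16, 9), (8, 17, 2)],
   [(0, 14, 1), (1, 7, 0), (18, 15, 6), (11, 14, 4), (8, 6, 8), (25, 12, 1), (24, 16, 0), (19, 12, 5)],
   [(0, 7, 1), (1, 13, 0), (28, 12, 4), (13, 6, 9), (10, 13, 3), (25, 15, 5), (24, 18, 0), (19, 15, 1)],
   [(29, 7, 2), (18, 14, 7), (11, 18, 9), (8, 19, 2), (25, 18, 1), (24, 14, 5), (19, 13, 2), (22, 7, 9), (17, 8, 3), (6, 11, 5)],
   [(25, 13, 6), (24, 12, 0), (21, 17, 1), (16, 19, 4), (29, 18, 7), (18, 19, 6), (1, 17, 7), (28, 18, 4), (13, 17, 3), (10, 12, 6)],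
   [(23, 19, 5), (20, 16, 2), (9, 12, 7), (12, 16, 8), (17, 18, 3), (22, 19, 0), (19, 18, 5), (0, 16, 6)],
   [(25, 14, 6), (24, 15, 4), (21, 19, 1), (16, 17, 4), (29, 16, 7), (18, 17, 6), (1, 19, 7), (28, 16, 4), (13, 19, 3), (10, 15, 2)],
   [(23, 17, 5), (20, 18, 2), (9, 15, 3), (12, 18, 8), (17, 16, 3), (22, 17, 0), (19, 16, 5), (0, 18, 6)]]

theorem sf191 : SurfFor W191 :=
  surfFor_of_table (T := T191) (lam := [0, 7, 9, 4, 13, 14, 6, 8, 10, 2, 5, 1, 12, 3, 11]) (rows := rows191)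
    (by decide +kernel) (by decide +kernel) (by decide +kernel) (by decide +kernel)

end Pool.Agent.TriSurf
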