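import Pool.Agent.TriSurf.SData
import Pool.Agent.TriSurf.PresT

/-!
# Surfaces
-/

set_option autoImplicit false
set_option maxRecDepth 100000

namespace Pool.Agent.TriSurf

/-- the multiplication table of presentation 44 -/
def W44 : ℕ :=
  33018408234657805000058601959468873415488276592972927710251434153188998240562011100485576675237151478636683162574482725102769650856771351676623491895641293174484517906369742846510583093077790138324025976330402992145091639509671103999620632637255769312198727946070917130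

/-- a surface for presentation 44 -/
def rows44 : List (List (ℕ × ℕ × ℕ)) :=
  [[(6, 1, 6), (3, 2, 0), (18, 3, 2), (7, 1, 9), (8, 4, 6), (11, 5, 4), (24, 6, 0), (19, 3, 7), (22, 7, 9), (23, 8, 8)],
   [(23, 3, 1), (22, 9, 0), (19, 8, 2), (24, 10, 7), (11, 11, 3), (8, 2, 1), (7, 0, 0), (18, 8, 7), (3, 4, 7), (6, 0, 3)],
   [(2, 0, 1), (9, 1, 5), (28, 11, 2), (1, 12, 7), (18, 13, 6), (7, 14, 3), (14, 12, 4), (25, 3, 3)],
   [(23, 9, 1), (22, 1, 0), (19, 0, 2), (24, 2, 7), (11, 12, 3), (8, 15, 1), (7, 7, 0), (18, 0, 7), (3, 6, 7), (6, 7, 3)],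
   [(25, 8, 6), (14, 16, 3), (7, 17, 4), (18, 18, 1), (1, 16, 0), (28, 5, 5), (9, 0, 4), (2, 1, 8)],
   [(0, 6, 4), (1, 17, 0), (28, 19, 5), (15, 6, 1), (10, 0, 5), (29, 4, 5), (26, 16, 7), (27, 20, 6)],
   [(25, 0, 6), (14, 5, 3), (7, 19, 4), (18, 17, 1), (1, 5, 0), (28, 20, 5), (9, 7, 4), (2, 3, 8)],
   [(6, 3, 6), (3, 15, 0), (18, 9, 2), (7, 3, 9), (8, 6, 6), (11, 20, 4), (24, 21, 0), (19, 9, 7), (22, 8, 9), (23, 0, 8)],
   [(6, 9, 6), (3, 10, 0), (18, 1, 2), (7, 9, 9), (8, 21, 6), (11, 16, 4), (24, 4, 0), (19, 1, 7), (22, 0, 9), (23, 7, 8)],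
   [(23, 1, 1), (22, 3, 0), (19, 7, 2), (24, 15, 7), (11, 22, 3), (8, 10, 1), (7, 8, 0), (18, 7, 7), (3, 21, 7), (6, 8, 3)],
   [(2, 8, 1), (9, 9, 5), (28, 22, 2), (1, 11, 7), (18, 14, 6), (7, 23, 3), (14, 11, 4), (25, 1, 3)],
   [(27, 22, 1), (26, 12, 0), (29, 2, 2), (10, 1, 4), (15, 10, 6), (28, 23, 2), (1, 14, 7), (0, 10, 3)],
   [(27, 11, 1), (26, 22, 0), (29, 15, 2), (10, 3, 4), (15, 2, 6), (28, 14, 2), (1, 13, 7), (0, 2, 3)],
   [(27, 14, 1), (26, 23, 0), (29, 22, 5), (6, 15, 5), (23, 23, 5), (22, 14, 4), (19, 2, 4), (0, 12, 6)],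
   [(27, 23, 1), (26, 13, 0), (29, 12, 5), (6, 2, 5), (23, 13, 5), (22, 23, 4), (19, 10, 4), (0, 11, 6)],
   [(2, 7, 1), (9, 3, 5), (28, 12, 2), (1, 22, 7), (18, 23, 6), (7, 13, 3), (14, 22, 4), (25, 9, 3)],
   [(0, 4, 4), (1, 18, 0), (28, 17, 5), (15, 4, 1), (10, 8, 5), (29, 21, 5), (26, 20, 7), (27, 5, 6)],
   [(0, 5, 1), (19, 6, 3), (22, 19, 3), (23, 18, 2), (6, 4, 2), (29, 16, 2), (26, 18, 7), (27, 19, 6)],
   [(0, 16, 1), (19, 4, 3), (22, 17, 3), (23, 19, 2), (6, 21, 2), (29, 20, 2), (26, 19, 7), (27, 17, 6)],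
   [(0, 20, 1), (19, 21, 3), (22, 18, 3), (23, 17, 2), (6, 6, 2), (29, 5, 2), (26, 17, 7), (27, 18, 6)],
   [(0, 21, 4), (1, 19, 0), (28, 18, 5), (15, 21, 1), (10, 7, 5), (29, 6, 5), (26, 5, 7), (27, 16, 6)],
   [(25, 7, 6), (14, 20, 3), (7, 18, 4), (18, 19, 1), (1, 20, 0), (28, 16, 5), (9, 8, 4), (2, 9, 8)],
   [(27, 12, 1), (26, 11, 0), (29, 10, 2), (10, 9, 4), (15, 15, 6), (28, 13, 2), (1, 23, 7), (0, 15, 3)],
   [(27, 13, 1), (26, 14, 0), (29, 11, 5), (6, 10, 5), (23, 14, 5), (22, 13, 4), (19, 15, 4), (0, 22, 6)]]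

theorem sf44 : SurfFor W44 :=
  surfFor_of_table (T := T44) (lam := [0, 11, 7, 14, 3, 12, 8, 6, 13, 2, 5, 10, 4, 1, 9]) (rows := rows44)
    (by decide +kernel) (by decide +kernel) (by decide +kernel) (by decide +kernel)

/-- the multiplication table of presentation 45 -/
def W45 : ℕ :=
  8062248568610332511904658386726382706786156099806437644009383023477579177116658039538169601728584322258665481990361604331120737318663728829954855941739458362729468684511786852160892659818933166334003614532395631904476897416955377218485410826986633040541567936364545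

/-- a surface for presentation 45 -/
def rows45 : List (List (ℕ × ℕ × ℕ)) :=
  [[(2, 1, 1), (3, 2, 0), (26, 3, 0), (15, 4, 5), (10, 5, 2), (25, 1, 6), (24, 2, 5), (13, 4, 1)],
   [(2, 2, 1), (3, 0, 0), (26, 4, 0), (15, 5, 5), (10, 3, 2), (25, 2, 6), (24, 0, 5), (13, 5, 1)],
   [(2, 0, 1), (3, 1, 0), (26, 5, 0), (15, 3, 5), (10, 4, 2), (25, 0, 6), (24, 1, 5), (13, 3, 1)],
   [(27, 0, 2), (12, 2, 7), (11, 1, 4), (22, 5, 4), (23, 4, 3), (14, 2, 3), (3, 5, 7), (2, 4, 6)],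
   [(27, 1, 2), (12, 0, 7), (11, 2, 4), (22, 3, 4), (23, 5, 3), (14, 0, 3), (3, 3, 7), (2, 5, 6)],
   [(27, 2, 2), (12, 1, 7), (11, 0, 4), (22, 4, 4), (23, 3, 3), (14, 1, 3), (3, 4, 7), (2, 3, 6)]]

theorem sf45 : SurfFor W45 :=
  surfFor_of_table (T := T45) (lam := [0, 4, 8, 11, 1, 10, 5, 9, 6, 14, 2, 7, 12, 3, 13]) (rows := rows45)
    (by decide +kernel) (by decide +kernel) (by decide +kernel) (by decide +kernel)

/-- the multiplication table of presentation 46 -/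
def W46 : ℕ :=
  33018420004282966072826689640018280512166866704551735633597821363001125917616178736313929337802498038895695897556775848817660928155795717473041983609666254671694179283977327058183017812204676008785022140711101947681389361360847532404972753921703908883829720448094961665

/-- a surface for presentation 46 -/
def rows46 : List (List (ℕ × ℕ × ℕ)) :=
  [[(6, 1, 6), (7, 2, 7), (18, 3, 7), (9, 4, 4), (8, 3, 3), (13, 4, 6), (12, 3, 5), (19, 4, 2)],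
   [(19, 5, 5), (12, 2, 2), (13, 5, 1), (8, 2, 4), (9, 5, 3), (18, 2, 0), (7, 0, 0), (6, 4, 1)],
   [(19, 1, 5), (12, 5, 2), (13, 1, 1), (8, 5, 4), (9, 1, 3), (18, 5, 0), (7, 3, 0), (6, 0, 1)],
   [(6, 2, 6), (7, 5, 7), (18, 4, 7), (9, 0, 4), (8, 4, 3), (13, 0, 6), (12, 4, 5), (19, 0, 2)],
   [(6, 5, 6), (7, 1, 7), (18, 0, 7), (9, 3, 4), (8, 0, 3), (13, 3, 6), (12, 0, 5), (19, 3, 2)],
   [(19, 2, 5), (12, 1, 2), (13, 2, 1), (8, 1, 4), (9, 2, 3), (18, 1, 0), (7, 4, 0), (6, 3, 1)]]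

theorem sf46 : SurfFor W46 :=
  surfFor_of_table (T := T46) (lam := [0, 7, 12, 11, 14, 3, 13, 6, 8, 10, 9, 2, 5, 1, 4]) (rows := rows46)
    (by decide +kernel) (by decide +kernel) (by decide +kernel) (by decide +kernel)

/-- the multiplication table of presentation 47 -/
def W47 : ℕ :=
  16122762120046878723147799898002136594671816252556298831230170433467380927936992291702126756980215156033036344631956594599742596086460560545462069553424198576313148013652228387202274054617233721196824424324656820110979623052100321671626107543307753176938782836916225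

/-- a surface for presentation 47 -/
def rows47 : List (List (ℕ × ℕ × ℕ)) :=
  [[(6, 0, 3), (11, 1, 5), (10, 1, 6), (7, 0, 0), (28, 2, 2), (3, 3, 0), (12, 4, 7), (13, 2, 3)],
   [(13, 5, 6), (12, 6, 2), (3, 7, 7), (28, 5, 7), (7, 1, 7), (10, 0, 1), (11, 0, 2), (6, 1, 4)],
   [(25, 8, 1), (20, 3, 1), (29, 0, 4), (12, 0, 7), (13, 4, 6), (6, 9, 1), (11, 10, 2), (10, 11, 6), (7, 3, 4), (4, 12, 2)],
   [(2, 0, 5), (21, 2, 1), (16, 8, 0), (27, 12, 3), (6, 2, 8), (11, 11, 5), (26, 9, 5), (23, 4, 8)],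
   [(4, 13, 6), (7, 14, 7), (10, 15, 3), (17, 16, 6), (8, 13, 0), (29, 9, 2), (12, 2, 4), (13, 0, 6), (22, 3, 7), (19, 9, 4)],
   [(4, 10, 5), (7, 7, 3), (10, 17, 1), (11, 12, 5), (6, 8, 8), (13, 6, 3), (12, 1, 0), (29, 1, 3), (20, 7, 6), (25, 9, 8)],
   [(19, 8, 5), (22, 7, 0), (13, 1, 1), (12, 5, 5), (29, 8, 7), (8, 15, 7), (17, 14, 1), (10, 13, 4), (7, 16, 0), (4, 15, 1)],
   [(23, 6, 1), (26, 8, 4), (11, 17, 2), (6, 5, 1), (27, 10, 4), (16, 9, 9), (21, 5, 8), (2, 1, 2)],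
   [(17, 3, 2), (24, 2, 0), (21, 12, 1), (16, 17, 3), (27, 7, 1), (18, 6, 0), (1, 15, 0), (28, 6, 4), (7, 5, 4), (10, 12, 4)],
   [(10, 10, 3), (7, 2, 5), (28, 4, 5), (1, 13, 7), (18, 4, 9), (27, 3, 6), (16, 11, 4), (21, 10, 6), (24, 5, 9), (17, 7, 5)],
   [(4, 16, 3), (7, 11, 7), (10, 2, 6), (11, 9, 0), (26, 7, 4), (5, 5, 0), (20, 9, 7), (25, 11, 3)],
   [(27, 16, 2), (16, 13, 2), (21, 16, 4), (24, 10, 7), (17, 9, 6), (10, 3, 5), (11, 2, 7), (6, 10, 1)],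
   [(25, 17, 4), (20, 8, 2), (5, 2, 9), (26, 3, 3), (11, 8, 9), (10, 5, 3), (7, 17, 0), (4, 14, 4)],
   [(9, 4, 4), (24, 16, 5), (17, 11, 1), (10, 16, 1), (11, 6, 7), (26, 14, 0), (5, 4, 0), (0, 9, 3)],
   [(27, 13, 5), (16, 6, 6), (25, 15, 6), (20, 17, 5), (5, 12, 7), (26, 17, 7), (11, 15, 4), (6, 4, 1)],
   [(0, 8, 6), (5, 6, 9), (26, 16, 7), (11, 4, 2), (10, 14, 6), (17, 17, 6), (24, 14, 2), (9, 6, 5)],
   [(6, 6, 8), (11, 13, 3), (26, 11, 0), (5, 10, 0), (20, 11, 2), (25, 13, 1), (16, 4, 3), (27, 15, 2)],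
   [(6, 12, 6), (11, 5, 2), (10, 7, 2), (17, 8, 3), (24, 12, 0), (21, 14, 3), (16, 15, 5), (27, 14, 5)]]

theorem sf47 : SurfFor W47 :=
  surfFor_of_table (T := T47) (lam := [0, 3, 1, 6, 2, 9, 10, 14, 12, 7, 5, 4, 8, 11, 13]) (rows := rows47)
    (by decide +kernel) (by decide +kernel) (by decide +kernel) (by decide +kernel)

/-- the multiplication table of presentation 48 -/
def W48 : ℕ :=
  33018408265528713808800731991279413291466609132517955594730784484164748818776233386376890147854638517647353593149300831131125553711742356025268548505772604683640582918374238028546997043977342451291532447905011309455438708132397542726393282833997629123491099527782334465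

/-- a surface for presentation 48 -/
def rows48 : List (List (ℕ × ℕ × ℕ)) :=
  [[(6, 1, 5), (15, 0, 4), (18, 2, 4), (19, 2, 5), (14, 0, 1), (13, 1, 4), (26, 3, 0), (29, 4, 5)],
   [(0, 5, 1), (1, 6, 0), (28, 7, 0), (23, 3, 1), (12, 0, 5), (7, 0, 0), (22, 4, 4), (27, 2, 1)],
   [(29, 5, 2), (26, 1, 7), (13, 4, 3), (14, 2, 6), (19, 0, 2), (18, 0, 3), (15, 2, 3), (6, 4, 2)],
   [(27, 0, 6), (22, 1, 3), (7, 7, 7), (12, 7, 2), (23, 6, 6), (28, 8, 7), (1, 9, 7), (0, 4, 6)],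
   [(27, 10, 6), (22, 5, 3), (7, 2, 7), (12, 2, 2), (23, 1, 6), (28, 0, 7), (1, 3, 7), (0, 9, 6)],
   [(0, 6, 1), (1, 1, 0), (28, 2, 0), (23, 4, 1), (12, 10, 5), (7, 10, 0), (22, 9, 4), (27, 11, 1)],
   [(0, 1, 1), (1, 5, 0), (28, 11, 0), (23, 9, 1), (12, 8, 5), (7, 8, 0), (22, 3, 4), (27, 7, 1)],
   [(29, 1, 2), (26, 6, 7), (13, 3, 3), (14, 7, 6), (19, 10, 2), (18, 10, 3), (15, 7, 3), (6, 3, 2)],
   [(6, 6, 5), (15, 8, 4), (18, 11, 4), (19, 11, 5), (14, 8, 1), (13, 6, 4), (26, 9, 0), (29, 3, 5)],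
   [(27, 8, 6), (22, 6, 3), (7, 11, 7), (12, 11, 2), (23, 5, 6), (28, 10, 7), (1, 4, 7), (0, 3, 6)],
   [(6, 5, 5), (15, 10, 4), (18, 7, 4), (19, 7, 5), (14, 10, 1), (13, 5, 4), (26, 4, 0), (29, 9, 5)],
   [(29, 6, 2), (26, 5, 7), (13, 9, 3), (14, 11, 6), (19, 8, 2), (18, 8, 3), (15, 11, 3), (6, 9, 2)]]

theorem sf48 : SurfFor W48 :=
  surfFor_of_table (T := T48) (lam := [0, 8, 7, 10, 1, 5, 4, 11, 6, 14, 13, 3, 12, 2, 9]) (rows := rows48)
    (by decide +kernel) (by decide +kernel) (by decide +kernel) (by decide +kernel)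

/-- the multiplication table of presentation 49 -/
def W49 : ℕ :=
  1584883593414711589478718361400436583851728515892597333241317894944556880368974555613424492483451384042296612151392559422815780327700036975674584490218608973749570659638825004136924960830737751248598981194338309206568834816637393204420273094139140141465997337644964511745

/-- a surface for presentation 49 -/
def rows49 : List (List (ℕ × ℕ × ℕ)) :=
  [[(6, 1, 4), (15, 2, 3), (26, 3, 1), (13, 4, 4), (14, 5, 6), (23, 6, 5), (18, 7, 7), (19, 8, 6)],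
   [(29, 9, 6), (28, 4, 7), (5, 10, 7), (12, 2, 4), (7, 0, 0), (22, 8, 5), (27, 11, 5), (4, 6, 2)],
   [(19, 5, 1), (18, 11, 0), (23, 3, 2), (14, 0, 1), (13, 1, 3), (26, 10, 6), (15, 7, 4), (6, 9, 3)],
   [(4, 4, 5), (27, 0, 2), (22, 2, 2), (7, 11, 7), (12, 8, 3), (5, 9, 0), (28, 6, 0), (29, 10, 1)],
   [(4, 9, 5), (27, 7, 2), (22, 11, 2), (7, 5, 7), (12, 0, 3), (5, 3, 0), (28, 10, 0), (29, 1, 1)],
   [(19, 11, 1), (18, 2, 0), (23, 9, 2), (14, 8, 1), (13, 10, 3), (26, 6, 6), (15, 0, 4), (6, 4, 3)],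
   [(29, 3, 6), (28, 9, 7), (5, 1, 7), (12, 11, 4), (7, 7, 0), (22, 0, 5), (27, 5, 5), (4, 10, 2)],
   [(6, 6, 4), (15, 11, 3), (26, 4, 1), (13, 9, 4), (14, 2, 6), (23, 10, 5), (18, 8, 7), (19, 0, 6)],
   [(6, 10, 4), (15, 5, 3), (26, 9, 1), (13, 3, 4), (14, 11, 6), (23, 1, 5), (18, 0, 7), (19, 7, 6)],
   [(4, 3, 5), (27, 8, 2), (22, 5, 2), (7, 2, 7), (12, 7, 3), (5, 4, 0), (28, 1, 0), (29, 6, 1)],
   [(29, 4, 6), (28, 3, 7), (5, 6, 7), (12, 5, 4), (7, 8, 0), (22, 7, 5), (27, 2, 5), (4, 1, 2)],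
   [(19, 2, 1), (18, 5, 0), (23, 4, 2), (14, 7, 1), (13, 6, 3), (26, 1, 6), (15, 8, 4), (6, 3, 3)]]

theorem sf49 : SurfFor W49 :=
  surfFor_of_table (T := T49) (lam := [0, 12, 3, 10, 8, 1, 4, 9, 2, 11, 5, 14, 13, 7, 6]) (rows := rows49)
    (by decide +kernel) (by decide +kernel) (by decide +kernel) (by decide +kernel)

/-- the multiplication table of presentation 50 -/
def W50 : ℕ :=
  231128859339905444508824290430211397795469249208069827937865050150162395363714474899475804316986015195559077629601236877980705361227143733726127044119963240679671522012747551130048542512746638840055053829177117019273773141720968476295853045933665620594275028876881035265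

/-- a surface for presentation 50 -/
def rows50 : List (List (ℕ × ℕ × ℕ)) :=
  [[(0, 1, 2), (15, 2, 6), (26, 3, 3), (25, 4, 6), (6, 1, 4), (3, 2, 0), (22, 1, 0), (17, 2, 2)],
   [(23, 0, 6), (28, 2, 7), (1, 0, 0), (18, 2, 1), (7, 0, 4), (16, 4, 5), (5, 5, 7), (4, 2, 3)],
   [(2, 0, 5), (19, 1, 3), (16, 0, 7), (5, 1, 7), (4, 5, 6), (9, 3, 4), (14, 0, 1), (29, 1, 1)],
   [(4, 6, 1), (5, 7, 3), (20, 4, 7), (27, 0, 2), (8, 2, 5), (21, 5, 5), (10, 4, 1), (23, 7, 1)],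
   [(8, 7, 2), (11, 3, 6), (14, 5, 4), (9, 8, 7), (22, 5, 0), (17, 1, 5), (24, 0, 3), (21, 3, 2)],
   [(23, 4, 4), (10, 8, 6), (25, 9, 5), (26, 8, 0), (15, 4, 2), (20, 3, 5), (5, 2, 4), (4, 1, 6)],
   [(4, 7, 4), (5, 3, 0), (16, 7, 0), (19, 10, 2), (24, 11, 5), (17, 8, 3), (22, 11, 7), (9, 10, 0)],
   [(17, 6, 2), (22, 3, 7), (9, 4, 0), (4, 3, 1), (5, 6, 0), (20, 10, 7), (15, 9, 1), (0, 10, 3)],
   [(27, 5, 3), (20, 9, 4), (5, 11, 0), (16, 6, 5), (7, 11, 4), (18, 9, 6), (11, 5, 1), (8, 4, 3)],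
   [(29, 10, 4), (14, 7, 6), (11, 10, 6), (8, 11, 1), (21, 8, 1), (24, 5, 2), (19, 8, 5), (2, 11, 3)],
   [(8, 6, 7), (11, 11, 6), (18, 6, 3), (1, 7, 7), (28, 9, 0), (23, 11, 2), (10, 9, 2), (21, 7, 5)],
   [(4, 8, 2), (9, 9, 3), (22, 10, 5), (3, 9, 7), (6, 8, 4), (25, 6, 4), (10, 10, 1), (23, 6, 6)]]

theorem sf50 : SurfFor W50 :=
  surfFor_of_table (T := T50) (lam := [0, 10, 8, 11, 7, 14, 3, 1, 2, 5, 12, 6, 9, 13, 4]) (rows := rows50)
    (by decide +kernel) (by decide +kernel) (by decide +kernel) (by decide +kernel)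

end Pool.Agent.TriSurf
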