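import Pool.Agent.TriSurf.SData
import Pool.Agent.TriSurf.PresT

/-!
# Surfaces
-/

set_option autoImplicit false
set_option maxRecDepth 100000

namespace Pool.Agent.TriSurf

/-- the multiplication table of presentation 51 -/
def W51 : ℕ :=
  6551642008361836131816017479916781570120092301891733081505513655729364901516020002419033369656937493905500800171541173132122934948438843097537486629672105637552598954342863638942342947267222222913235610329140876356572054428149240298864221026500556216717345317453825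

/-- a surface for presentation 51 -/
def rows51 : List (List (ℕ × ℕ × ℕ)) :=
  [[(2, 1, 4), (21, 2, 1), (14, 3, 6), (3, 1, 7), (4, 4, 5), (7, 3, 9), (28, 5, 7), (25, 6, 4)],
   [(25, 3, 5), (28, 7, 0), (7, 6, 0), (4, 2, 2), (3, 0, 0), (14, 6, 3), (21, 4, 6), (2, 0, 3)],
   [(23, 3, 7), (20, 0, 1), (5, 1, 3), (12, 6, 9), (9, 8, 3), (22, 9, 9), (3, 10, 0), (4, 5, 1)],
   [(13, 4, 4), (18, 11, 3), (29, 9, 2), (8, 9, 5), (19, 7, 1), (24, 1, 0), (15, 0, 2), (22, 2, 0), (9, 5, 0), (6, 0, 5)],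
   [(4, 7, 6), (3, 12, 7), (22, 13, 0), (9, 11, 4), (12, 3, 0), (5, 0, 4), (20, 1, 6), (23, 6, 2)],
   [(8, 3, 8), (5, 2, 7), (20, 10, 7), (23, 12, 3), (16, 8, 6), (13, 13, 5), (18, 6, 5), (29, 0, 6)],
   [(6, 1, 2), (9, 7, 7), (22, 4, 7), (15, 1, 5), (24, 0, 7), (19, 5, 6), (8, 13, 4), (29, 13, 7), (18, 8, 4), (13, 2, 3)],
   [(29, 1, 1), (18, 3, 4), (13, 9, 4), (16, 11, 1), (23, 10, 4), (20, 12, 0), (5, 4, 0), (8, 6, 1)],
   [(25, 10, 2), (12, 9, 7), (5, 9, 0), (8, 2, 4), (19, 6, 8), (24, 13, 6), (17, 5, 4), (2, 12, 2)],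
   [(4, 8, 2), (7, 9, 6), (28, 3, 2), (25, 11, 2), (12, 7, 2), (9, 3, 3), (6, 9, 1), (13, 8, 1), (16, 10, 1), (23, 2, 5)],
   [(2, 2, 6), (17, 9, 8), (24, 8, 0), (15, 12, 1), (22, 7, 4), (3, 11, 0), (14, 12, 4), (21, 5, 2)],
   [(2, 10, 5), (17, 7, 3), (24, 9, 3), (19, 3, 1), (8, 4, 3), (5, 13, 9), (12, 13, 2), (25, 12, 5)],
   [(21, 7, 5), (14, 10, 3), (3, 8, 7), (22, 5, 3), (15, 10, 6), (24, 11, 7), (17, 13, 1), (2, 4, 1)],
   [(23, 4, 2), (16, 12, 6), (13, 11, 6), (6, 13, 8), (9, 6, 6), (12, 5, 5), (25, 8, 5), (28, 6, 7), (7, 13, 3), (4, 11, 5)]]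

theorem sf51 : SurfFor W51 :=
  surfFor_of_table (T := T51) (lam := [0, 7, 13, 6, 10, 1, 11, 2, 5, 12, 4, 8, 3, 9, 14]) (rows := rows51)
    (by decide +kernel) (by decide +kernel) (by decide +kernel) (by decide +kernel)

/-- the multiplication table of presentation 52 -/
def W52 : ℕ :=
  6077340098149518628887891206550867287063871022099962854267785288300519258863537042381856262177872896159424215654567050989958684595325518552498477027253735217950801703857911098756020665868612376852092574645266121423526136852979997946243452730085623293736744317353985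

/-- a surface for presentation 52 -/
def rows52 : List (List (ℕ × ℕ × ℕ)) :=
  [[(0, 1, 1), (1, 2, 0), (18, 0, 5), (21, 3, 1), (14, 3, 2), (19, 0, 2), (4, 2, 9), (15, 3, 5), (20, 4, 6), (5, 2, 6)],
   [(0, 2, 1), (1, 0, 0), (18, 2, 5), (21, 4, 1), (14, 5, 2), (19, 2, 2), (4, 1, 9), (15, 5, 5), (20, 5, 6), (5, 1, 6)],
   [(0, 0, 1), (1, 1, 0), (18, 1, 5), (21, 5, 1), (14, 4, 2), (19, 1, 2), (4, 0, 9), (15, 4, 5), (20, 3, 6), (5, 0, 6)],
   [(5, 3, 3), (20, 0, 3), (15, 0, 4), (4, 3, 0), (19, 4, 7), (14, 0, 7), (21, 2, 8), (18, 4, 4), (1, 5, 9), (0, 4, 8)],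
   [(5, 5, 3), (20, 1, 3), (15, 2, 4), (4, 5, 0), (19, 3, 7), (14, 2, 7), (21, 0, 8), (18, 3, 4), (1, 3, 9), (0, 5, 8)],
   [(5, 4, 3), (20, 2, 3), (15, 1, 4), (4, 4, 0), (19, 5, 7), (14, 1, 7), (21, 1, 8), (18, 5, 4), (1, 4, 9), (0, 3, 8)]]

theorem sf52 : SurfFor W52 :=
  surfFor_of_table (T := T52) (lam := [0, 5, 1, 12, 13, 6, 10, 8, 2, 7, 14, 3, 4, 9, 11]) (rows := rows52)
    (by decide +kernel) (by decide +kernel) (by decide +kernel) (by decide +kernel)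

/-- the multiplication table of presentation 53 -/
def W53 : ℕ :=
  264163387837459573416860474078246282140721804989568138183218924783238373055827606161560781171860756757021506901232210020147481680070075619403360996431983743753599516064359647213610785378864596123293307903440854316696183793688475176081904676220880584709419783281946132495

/-- a surface for presentation 53 -/
def rows53 : List (List (ℕ × ℕ × ℕ)) :=
  [[(2, 1, 1), (3, 2, 0), (12, 1, 5), (9, 3, 3), (8, 4, 4), (13, 2, 2), (24, 1, 7), (25, 2, 6)],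
   [(2, 2, 1), (3, 0, 0), (12, 2, 5), (9, 5, 3), (8, 3, 4), (13, 0, 2), (24, 2, 7), (25, 0, 6)],
   [(2, 0, 1), (3, 1, 0), (12, 0, 5), (9, 4, 3), (8, 5, 4), (13, 1, 2), (24, 0, 7), (25, 1, 6)],
   [(25, 4, 1), (24, 5, 0), (13, 4, 5), (8, 0, 3), (9, 1, 4), (12, 5, 2), (3, 4, 7), (2, 5, 6)],
   [(25, 5, 1), (24, 3, 0), (13, 5, 5), (8, 2, 3), (9, 0, 4), (12, 3, 2), (3, 5, 7), (2, 3, 6)],
   [(25, 3, 1), (24, 4, 0), (13, 3, 5), (8, 1, 3), (9, 2, 4), (12, 4, 2), (3, 3, 7), (2, 4, 6)]]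

theorem sf53 : SurfFor W53 :=
  surfFor_of_table (T := T53) (lam := [0, 3, 8, 9, 13, 11, 12, 6, 7, 10, 4, 2, 5, 14, 1]) (rows := rows53)
    (by decide +kernel) (by decide +kernel) (by decide +kernel) (by decide +kernel)

/-- the multiplication table of presentation 54 -/
def W54 : ℕ :=
  1056589062394335408002100715679613278062609901430132841463471168894641600731183206425603488855772960034327926213127601628786908259720090817322010175447701583097071529043795204578910836386922027649422038883864580871293828487751984333550570414537233934845259510464804552705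

/-- a surface for presentation 54 -/
def rows54 : List (List (ℕ × ℕ × ℕ)) :=
  [[(10, 1, 7), (3, 2, 0), (28, 3, 0), (29, 4, 5), (12, 5, 9), (19, 6, 6), (20, 7, 4), (13, 6, 2), (26, 8, 7), (7, 5, 4)],
   [(4, 5, 3), (3, 9, 0), (28, 10, 6), (1, 11, 9), (18, 12, 2), (17, 11, 3), (14, 2, 1), (11, 0, 0)],
   [(2, 0, 1), (15, 1, 6), (26, 11, 2), (7, 13, 7), (10, 12, 6), (3, 14, 6), (28, 7, 0), (29, 3, 1)],
   [(29, 0, 2), (28, 2, 7), (3, 7, 7), (4, 15, 6), (27, 14, 8), (16, 12, 4), (23, 11, 7), (2, 4, 6)],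
   [(11, 10, 9), (14, 16, 6), (17, 5, 6), (18, 8, 5), (1, 5, 0), (28, 0, 3), (3, 3, 7), (4, 11, 6)],
   [(0, 4, 4), (9, 8, 4), (22, 9, 1), (5, 1, 0), (6, 0, 9), (21, 8, 6), (16, 4, 2), (27, 16, 5), (20, 6, 7), (13, 0, 4)],
   [(6, 16, 4), (5, 8, 0), (12, 0, 7), (19, 7, 3), (8, 15, 8), (17, 7, 5), (18, 0, 5), (21, 5, 8)],
   [(29, 2, 6), (28, 14, 5), (1, 15, 9), (18, 6, 3), (21, 0, 6), (16, 6, 5), (23, 15, 7), (2, 3, 2)],
   [(4, 6, 1), (11, 16, 3), (14, 15, 2), (17, 9, 2), (8, 5, 1), (19, 4, 3), (20, 5, 5), (27, 0, 8)],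
   [(2, 1, 1), (23, 5, 2), (16, 8, 3), (27, 15, 1), (4, 14, 3), (3, 17, 0), (28, 16, 0), (29, 10, 7)],
   [(7, 11, 5), (26, 12, 0), (13, 13, 5), (20, 17, 3), (19, 13, 1), (12, 11, 0), (29, 1, 2), (28, 9, 7), (3, 16, 7), (10, 4, 0)],
   [(13, 10, 5), (20, 13, 0), (27, 2, 2), (16, 1, 5), (21, 12, 1), (6, 10, 0), (5, 4, 7), (22, 3, 6), (9, 12, 3), (0, 1, 3)],
   [(27, 10, 1), (20, 11, 4), (19, 1, 4), (8, 11, 8), (17, 3, 5), (14, 14, 7), (11, 2, 4), (4, 13, 6)],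
   [(21, 11, 1), (18, 10, 4), (17, 17, 2), (8, 14, 1), (19, 17, 4), (12, 10, 2), (5, 12, 7), (6, 2, 3)],
   [(0, 17, 5), (9, 13, 3), (22, 17, 1), (5, 9, 4), (12, 15, 0), (29, 7, 1), (2, 2, 5), (15, 12, 5), (26, 3, 4), (13, 15, 5)],
   [(13, 14, 4), (26, 9, 3), (15, 8, 2), (2, 16, 2), (29, 17, 6), (12, 14, 9), (5, 3, 3), (22, 7, 6), (9, 6, 4), (0, 7, 2)],
   [(29, 9, 6), (28, 17, 7), (3, 15, 3), (10, 8, 1), (7, 6, 0), (26, 5, 7), (15, 4, 1), (2, 10, 8)],
   [(2, 9, 5), (23, 14, 2), (16, 13, 2), (21, 10, 3), (18, 13, 4), (1, 14, 0), (28, 15, 4), (29, 16, 1)]]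

theorem sf54 : SurfFor W54 :=
  surfFor_of_table (T := T54) (lam := [0, 6, 10, 9, 2, 7, 1, 4, 14, 13, 11, 5, 12, 8, 3]) (rows := rows54)
    (by decide +kernel) (by decide +kernel) (by decide +kernel) (by decide +kernel)

/-- the multiplication table of presentation 55 -/
def W55 : ℕ :=
  7924417967104169847659512747167732709604275896367943729281652440243549582758616036085264553062257094446004870351552707026013091293634834029475629927777969284649830167133239395230103459072404700131597350078158513607701964030670878673262974615157613741548603403974360432650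

/-- a surface for presentation 55 -/
def rows55 : List (List (ℕ × ℕ × ℕ)) :=
  [[(6, 1, 8), (11, 2, 1), (18, 1, 2), (15, 1, 5), (8, 3, 9), (23, 3, 2), (10, 2, 6), (27, 3, 6)],
   [(9, 2, 3), (20, 1, 6), (19, 0, 2), (26, 2, 0), (13, 3, 0), (14, 0, 3), (21, 1, 1), (22, 2, 2), (7, 0, 0), (12, 3, 5)],
   [(27, 1, 3), (10, 0, 1), (23, 1, 7), (8, 1, 0), (15, 3, 4), (18, 3, 7), (11, 0, 6), (6, 3, 1)],
   [(12, 1, 4), (7, 2, 7), (22, 0, 5), (21, 3, 8), (14, 2, 4), (13, 1, 9), (26, 0, 7), (19, 2, 5), (20, 3, 3), (9, 0, 4)]]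

theorem sf55 : SurfFor W55 :=
  surfFor_of_table (T := T55) (lam := [0, 5, 2, 10, 13, 11, 4, 14, 3, 1, 7, 12, 8, 9, 6]) (rows := rows55)
    (by decide +kernel) (by decide +kernel) (by decide +kernel) (by decide +kernel)

/-- the multiplication table of presentation 56 -/
def W56 : ℕ :=
  8470489321348689565331426673085189246202868844170005632193581147922663513836277492700354676273751209389060403056352335621880935827852143204802289543193341490593206064147096941703990502333232475148158105967755851510814340587074827206636308602604643122285701454888970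

/-- a surface for presentation 56 -/
def rows56 : List (List (ℕ × ℕ × ℕ)) :=
  [[(0, 1, 6), (1, 1, 7), (18, 0, 7), (7, 2, 4), (6, 3, 3), (23, 3, 6), (22, 2, 5), (19, 0, 2)],
   [(19, 1, 5), (22, 4, 2), (23, 5, 1), (6, 5, 4), (7, 4, 3), (18, 1, 0), (1, 0, 0), (0, 0, 1)],
   [(0, 4, 6), (1, 4, 7), (18, 2, 7), (7, 3, 4), (6, 0, 3), (23, 0, 6), (22, 3, 5), (19, 2, 2)],
   [(0, 5, 6), (1, 5, 7), (18, 3, 7), (7, 0, 4), (6, 2, 3), (23, 2, 6), (22, 0, 5), (19, 3, 2)],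
   [(19, 4, 5), (22, 5, 2), (23, 1, 1), (6, 1, 4), (7, 5, 3), (18, 4, 0), (1, 2, 0), (0, 2, 1)],
   [(19, 5, 5), (22, 1, 2), (23, 4, 1), (6, 4, 4), (7, 1, 3), (18, 5, 0), (1, 3, 0), (0, 3, 1)]]

theorem sf56 : SurfFor W56 :=
  surfFor_of_table (T := T56) (lam := [0, 5, 6, 11, 9, 4, 14, 7, 12, 2, 1, 10, 3, 13, 8]) (rows := rows56)
    (by decide +kernel) (by decide +kernel) (by decide +kernel) (by decide +kernel)

/-- the multiplication table of presentation 57 -/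
def W57 : ℕ :=
  10318284050052148112088105742497034389525961360106470074473562931391988859794496874074831859753593043020282741015524068968023329016641386464674178097625583492881436789578756629302293267882999960601786728523819950101167643049818598665321550282083526714476531352185339905

/-- a surface for presentation 57 -/
def rows57 : List (List (ℕ × ℕ × ℕ)) :=
  [[(2, 1, 4), (9, 2, 4), (12, 3, 6), (3, 1, 7), (6, 4, 2), (23, 5, 1), (16, 6, 1), (29, 7, 2)],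
   [(29, 3, 5), (16, 8, 6), (23, 9, 6), (6, 2, 5), (3, 0, 0), (12, 7, 1), (9, 4, 3), (2, 0, 3)],
   [(0, 10, 1), (1, 9, 0), (18, 8, 4), (5, 3, 7), (8, 0, 1), (7, 1, 3), (20, 9, 5), (17, 11, 1)],
   [(15, 8, 3), (16, 12, 2), (23, 13, 4), (18, 11, 6), (1, 8, 7), (28, 1, 0), (13, 0, 2), (4, 2, 3)],
   [(17, 14, 6), (20, 5, 2), (7, 0, 4), (8, 1, 6), (5, 7, 0), (18, 6, 3), (1, 5, 7), (0, 15, 6)],
   [(27, 6, 2), (22, 0, 5), (21, 4, 1), (14, 14, 5), (5, 16, 9), (18, 17, 7), (1, 15, 7), (0, 4, 6)],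
   [(0, 7, 3), (17, 0, 6), (26, 5, 0), (19, 4, 5), (14, 7, 7), (21, 18, 4), (22, 17, 3), (27, 14, 2)],
   [(4, 4, 4), (13, 1, 5), (28, 0, 7), (1, 6, 0), (18, 14, 1), (23, 19, 3), (16, 18, 5), (15, 6, 4)],
   [(27, 11, 5), (22, 16, 6), (21, 12, 3), (14, 3, 0), (19, 2, 2), (26, 9, 7), (17, 1, 1), (0, 3, 4)],
   [(0, 2, 1), (1, 10, 0), (18, 16, 2), (5, 17, 0), (14, 11, 2), (21, 2, 6), (22, 1, 2), (27, 8, 5)],
   [(0, 9, 1), (1, 2, 0), (28, 11, 0), (13, 13, 2), (10, 18, 7), (25, 19, 1), (24, 20, 5), (27, 16, 3)],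
   [(29, 10, 2), (16, 2, 7), (15, 9, 4), (20, 17, 9), (17, 16, 7), (26, 8, 0), (19, 3, 3), (2, 13, 3)],
   [(11, 15, 3), (26, 13, 5), (17, 3, 1), (20, 8, 2), (7, 16, 5), (12, 20, 3), (3, 21, 7), (6, 19, 6)],
   [(8, 20, 1), (7, 18, 0), (12, 10, 3), (3, 11, 7), (22, 3, 2), (27, 12, 1), (24, 15, 2), (25, 21, 1)],
   [(2, 19, 4), (19, 7, 4), (26, 6, 7), (17, 17, 2), (20, 16, 0), (15, 5, 3), (16, 4, 0), (29, 15, 5)],
   [(27, 17, 6), (24, 21, 2), (25, 13, 6), (10, 12, 0), (13, 19, 5), (28, 14, 7), (1, 4, 7), (0, 5, 6)],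
   [(21, 14, 4), (14, 17, 1), (19, 9, 2), (26, 10, 7), (11, 20, 4), (6, 12, 4), (23, 8, 1), (16, 11, 4), (15, 17, 8), (4, 5, 4)],
   [(4, 9, 3), (15, 16, 1), (16, 14, 3), (23, 6, 6), (6, 18, 3), (11, 21, 3), (26, 15, 0), (19, 5, 5), (14, 16, 8), (21, 11, 3)],
   [(6, 13, 1), (3, 20, 0), (12, 21, 4), (7, 17, 4), (20, 6, 5), (17, 7, 6), (26, 19, 2), (11, 10, 4)],
   [(25, 20, 6), (24, 10, 5), (27, 18, 6), (22, 7, 5), (3, 14, 0), (12, 15, 4), (7, 12, 7), (8, 21, 6)],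
   [(2, 18, 1), (9, 13, 0), (28, 21, 0), (13, 12, 5), (10, 16, 4), (25, 10, 6), (24, 19, 0), (29, 21, 5)],
   [(29, 20, 2), (24, 13, 7), (25, 15, 1), (10, 17, 5), (13, 18, 2), (28, 20, 7), (9, 19, 7), (2, 12, 6)]]

theorem sf57 : SurfFor W57 :=
  surfFor_of_table (T := T57) (lam := [0, 10, 14, 13, 3, 9, 6, 8, 1, 4, 7, 11, 12, 2, 5]) (rows := rows57)
    (by decide +kernel) (by decide +kernel) (by decide +kernel) (by decide +kernel)

end Pool.Agent.TriSurf
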