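import Pool.Agent.TriSurf.SData
import Pool.Agent.TriSurf.PresT

/-!
# Surfaces
-/

set_option autoImplicit false
set_option maxRecDepth 100000

namespace Pool.Agent.TriSurf

/-- the multiplication table of presentation 58 -/
def W58 : ℕ :=
  10318284050052500416137685433068235144165332269330480824638820266514386304333345332478600012745408112642719957447338589477218612351588503114048850682376159073730919249466576878732506626832013879814741304329948590140883614572608216493630881193360603124703186545388027905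

/-- a surface for presentation 58 -/
def rows58 : List (List (ℕ × ℕ × ℕ)) :=
  [[(6, 1, 1), (7, 2, 0), (16, 0, 5), (21, 3, 3), (20, 3, 4), (17, 0, 2), (26, 2, 7), (27, 1, 6)],
   [(6, 2, 1), (7, 0, 0), (16, 1, 5), (21, 4, 3), (20, 4, 4), (17, 1, 2), (26, 0, 7), (27, 2, 6)],
   [(6, 0, 1), (7, 1, 0), (16, 2, 5), (21, 5, 3), (20, 5, 4), (17, 2, 2), (26, 1, 7), (27, 0, 6)],
   [(27, 5, 1), (26, 4, 0), (17, 3, 5), (20, 0, 3), (21, 0, 4), (16, 3, 2), (7, 4, 7), (6, 5, 6)],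
   [(27, 3, 1), (26, 5, 0), (17, 4, 5), (20, 1, 3), (21, 1, 4), (16, 4, 2), (7, 5, 7), (6, 3, 6)],
   [(27, 4, 1), (26, 3, 0), (17, 5, 5), (20, 2, 3), (21, 2, 4), (16, 5, 2), (7, 3, 7), (6, 4, 6)]]

theorem sf58 : SurfFor W58 :=
  surfFor_of_table (T := T58) (lam := [0, 14, 2, 11, 3, 10, 4, 12, 1, 6, 8, 7, 13, 9, 5]) (rows := rows58)
    (by decide +kernel) (by decide +kernel) (by decide +kernel) (by decide +kernel)

/-- the multiplication table of presentation 59 -/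
def W59 : ℕ :=
  8061628267537596139354172017345090804385987926232781171357241119678257265473655838030390806397036921137571261390736488148880689669145994610702543956086060756195645831455080194925460477709077609059373398131495484946232072031782251465773740175444382252669014051389450

/-- a surface for presentation 59 -/
def rows59 : List (List (ℕ × ℕ × ℕ)) :=
  [[(0, 1, 8), (1, 2, 0), (28, 3, 7), (5, 4, 9), (10, 1, 2), (17, 1, 5), (26, 5, 2), (19, 3, 4)],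
   [(21, 2, 2), (22, 1, 6), (11, 0, 4), (4, 4, 8), (9, 5, 3), (16, 0, 5), (23, 1, 1), (18, 2, 1), (1, 0, 0), (0, 3, 3)],
   [(0, 0, 1), (19, 1, 7), (20, 1, 0), (29, 3, 2), (8, 6, 5), (27, 7, 1), (24, 4, 4), (21, 3, 8)],
   [(4, 7, 4), (5, 6, 6), (28, 2, 3), (1, 1, 9), (18, 0, 7), (25, 5, 1), (8, 4, 0), (29, 0, 2), (20, 2, 7), (9, 4, 3)],
   [(9, 3, 6), (20, 5, 0), (29, 7, 5), (8, 3, 9), (25, 2, 6), (18, 7, 0), (1, 6, 0), (28, 5, 4), (5, 1, 3), (4, 0, 3)],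
   [(21, 4, 1), (24, 3, 5), (27, 0, 6), (8, 1, 4), (29, 4, 7), (20, 6, 9), (19, 6, 2), (0, 7, 6)],
   [(0, 4, 6), (1, 7, 7), (18, 5, 6), (23, 6, 8), (16, 7, 2), (9, 2, 4), (4, 3, 1), (11, 7, 3), (22, 6, 3), (21, 5, 5)],
   [(19, 4, 5), (26, 2, 5), (17, 6, 4), (10, 6, 7), (5, 3, 0), (28, 4, 2), (1, 5, 7), (0, 6, 1)]]

theorem sf59 : SurfFor W59 :=
  surfFor_of_table (T := T59) (lam := [0, 5, 6, 3, 8, 7, 10, 4, 9, 1, 2, 11, 14, 12, 13]) (rows := rows59)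
    (by decide +kernel) (by decide +kernel) (by decide +kernel) (by decide +kernel)

/-- the multiplication table of presentation 60 -/
def W60 : ℕ :=
  644891523126680885864281922114521139228178608960021020874311356494238873798695462158263595301624874646649766761127370116070871686225091455005049718025044904005179591288864778624396304601446826000027340265568519542141731928486897644985126395305220649289639902964613130

/-- a surface for presentation 60 -/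
def rows60 : List (List (ℕ × ℕ × ℕ)) :=
  [[(2, 1, 4), (3, 2, 0), (14, 3, 2), (25, 4, 6), (4, 2, 7), (9, 3, 7), (10, 5, 3), (13, 6, 9), (24, 7, 5), (17, 8, 5)],
   [(19, 9, 5), (24, 10, 0), (17, 11, 2), (2, 2, 1), (3, 0, 0), (14, 8, 4), (21, 12, 6), (18, 8, 0), (1, 7, 0), (0, 12, 1)],
   [(2, 0, 1), (3, 1, 3), (14, 11, 1), (21, 11, 4), (8, 10, 8), (23, 4, 8), (20, 3, 0), (5, 0, 4), (16, 4, 5), (17, 3, 3)],
   [(21, 2, 6), (18, 4, 7), (15, 0, 2), (16, 2, 9), (17, 4, 4), (24, 13, 9), (13, 5, 4), (8, 0, 5)],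
   [(12, 14, 2), (23, 15, 1), (20, 16, 4), (5, 13, 0), (16, 3, 4), (17, 2, 8), (24, 0, 3), (19, 3, 1), (22, 2, 5), (29, 10, 7)],
   [(4, 17, 4), (9, 18, 5), (28, 6, 0), (11, 0, 6), (12, 3, 6), (23, 13, 8), (8, 15, 4), (21, 19, 2), (14, 13, 5), (25, 20, 8)],
   [(29, 5, 2), (22, 18, 4), (19, 21, 6), (24, 14, 6), (17, 18, 1), (16, 21, 3), (5, 9, 9), (20, 12, 3), (23, 7, 6), (12, 0, 7)],
   [(0, 1, 8), (1, 8, 9), (28, 9, 2), (9, 10, 3), (4, 8, 6), (25, 0, 8), (22, 6, 8), (19, 12, 2)],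
   [(19, 1, 7), (22, 12, 5), (29, 9, 7), (6, 12, 7), (15, 1, 5), (16, 0, 9), (5, 7, 4), (20, 10, 2), (7, 9, 3), (0, 7, 1)],
   [(25, 21, 2), (22, 10, 4), (29, 7, 2), (6, 8, 8), (15, 10, 1), (18, 1, 0), (1, 12, 0), (28, 8, 2), (9, 12, 4), (4, 6, 6)],
   [(25, 1, 1), (14, 9, 4), (21, 8, 7), (8, 7, 3), (23, 9, 1), (12, 21, 1), (11, 14, 3), (28, 4, 9), (9, 2, 4), (4, 11, 3)],
   [(6, 11, 5), (15, 2, 2), (16, 1, 2), (5, 10, 9), (20, 2, 3), (7, 11, 0), (26, 17, 0), (27, 17, 1)],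
   [(0, 9, 6), (1, 1, 9), (18, 7, 7), (21, 6, 7), (8, 9, 8), (23, 8, 1), (20, 1, 6), (7, 8, 3)],
   [(4, 4, 3), (9, 16, 3), (28, 19, 7), (1, 16, 7), (18, 20, 9), (15, 5, 8), (6, 19, 1), (29, 15, 5), (22, 5, 5), (25, 3, 5)],
   [(17, 19, 4), (24, 15, 2), (13, 4, 0), (10, 10, 6), (9, 21, 0), (4, 18, 2), (25, 6, 3), (14, 21, 5), (3, 18, 9), (2, 20, 5)],
   [(19, 16, 5), (22, 4, 1), (25, 14, 1), (4, 19, 3), (9, 5, 6), (28, 13, 7), (1, 19, 0), (0, 20, 1)],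
   [(7, 19, 6), (20, 20, 3), (23, 19, 8), (8, 13, 1), (21, 4, 2), (18, 15, 0), (1, 20, 0), (0, 13, 3)],
   [(27, 11, 6), (26, 11, 7), (7, 17, 7), (20, 18, 6), (5, 5, 0), (16, 20, 7), (15, 18, 7), (6, 17, 2)],
   [(17, 21, 4), (16, 6, 4), (5, 14, 5), (20, 21, 7), (23, 6, 1), (8, 5, 1), (21, 17, 3), (14, 17, 6), (3, 20, 6), (2, 14, 8)],
   [(0, 15, 6), (7, 13, 6), (20, 5, 7), (5, 15, 3), (16, 14, 0), (15, 20, 4), (6, 16, 0), (29, 13, 2), (22, 16, 2), (19, 20, 2)],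
   [(0, 16, 6), (1, 15, 7), (18, 19, 9), (21, 16, 1), (14, 19, 5), (3, 14, 9), (2, 18, 8), (17, 17, 5), (24, 5, 9), (19, 13, 4)],
   [(8, 14, 4), (13, 10, 5), (24, 9, 0), (17, 6, 5), (16, 18, 0), (15, 14, 7), (18, 6, 2), (21, 18, 3)]]

theorem sf60 : SurfFor W60 :=
  surfFor_of_table (T := T60) (lam := [0, 4, 8, 1, 6, 3, 12, 11, 5, 2, 14, 13, 7, 9, 10]) (rows := rows60)
    (by decide +kernel) (by decide +kernel) (by decide +kernel) (by decide +kernel)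

/-- the multiplication table of presentation 61 -/
def W61 : ℕ :=
  16767160412020632827147346526795546150347639578087868495791208023175169817970737591786847773007988355016617193077349467952346029319896184387725531713142938820373223988959527943820080578774100375732205498300648505679170350033059549744231628477483670372085680363001610255

/-- a surface for presentation 61 -/
def rows61 : List (List (ℕ × ℕ × ℕ)) :=
  [[(4, 1, 5), (13, 0, 4), (20, 2, 2), (9, 2, 3), (12, 0, 1), (19, 1, 4), (6, 3, 7), (11, 4, 1), (10, 5, 4), (15, 6, 2)],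
   [(12, 7, 2), (3, 8, 0), (28, 9, 0), (1, 3, 0), (18, 0, 5), (5, 0, 0), (16, 6, 1), (13, 10, 3), (20, 11, 2), (9, 5, 7)],
   [(29, 12, 5), (24, 2, 4), (21, 0, 2), (8, 0, 3), (25, 2, 1), (14, 12, 4), (17, 13, 1), (26, 14, 5), (7, 6, 6), (0, 15, 1)],
   [(0, 1, 3), (1, 9, 7), (28, 14, 7), (3, 13, 9), (12, 16, 2), (9, 15, 4), (20, 4, 2), (7, 0, 6)],
   [(11, 5, 5), (10, 0, 7), (21, 3, 6), (24, 15, 3), (23, 6, 4), (16, 5, 2), (5, 9, 3), (6, 7, 4)],
   [(25, 11, 1), (14, 9, 4), (17, 4, 5), (26, 6, 3), (11, 0, 8), (10, 4, 0), (21, 7, 3), (8, 1, 9)],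
   [(2, 10, 4), (17, 1, 6), (14, 0, 9), (27, 5, 3), (22, 4, 4), (19, 15, 2), (6, 2, 8), (5, 14, 4), (16, 17, 3), (23, 12, 1)],
   [(23, 18, 6), (16, 8, 1), (13, 1, 0), (20, 5, 6), (7, 4, 7), (26, 9, 2), (17, 8, 6), (2, 16, 8)],
   [(2, 1, 1), (17, 7, 1), (26, 18, 5), (7, 19, 0), (20, 20, 1), (13, 16, 9), (16, 7, 6), (23, 9, 1)],
   [(29, 1, 2), (22, 8, 7), (27, 7, 5), (4, 4, 6), (15, 5, 1), (28, 11, 0), (1, 14, 0), (0, 3, 1)],
   [(7, 21, 3), (20, 19, 5), (9, 11, 3), (12, 1, 7), (3, 6, 0), (28, 12, 0), (1, 18, 0), (0, 16, 6)],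
   [(29, 9, 5), (24, 5, 0), (21, 1, 8), (8, 10, 2), (25, 19, 4), (18, 13, 4), (1, 17, 0), (0, 14, 1)],
   [(29, 10, 5), (22, 6, 9), (27, 17, 2), (4, 13, 2), (15, 2, 5), (28, 2, 0), (1, 15, 0), (0, 18, 1)],
   [(23, 14, 6), (16, 2, 6), (5, 12, 3), (6, 17, 1), (19, 11, 5), (22, 19, 3), (27, 20, 4), (14, 21, 0), (17, 16, 3), (2, 3, 3)],
   [(0, 9, 6), (1, 11, 7), (28, 17, 9), (15, 17, 4), (4, 6, 7), (27, 2, 7), (22, 13, 0), (29, 3, 2)],
   [(0, 12, 6), (1, 2, 9), (18, 6, 5), (25, 4, 3), (8, 3, 5), (21, 16, 1), (24, 20, 7), (29, 18, 2)],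
   [(9, 20, 0), (20, 15, 5), (13, 3, 4), (16, 13, 8), (5, 21, 9), (18, 21, 4), (1, 10, 7), (28, 18, 7), (3, 7, 7), (12, 8, 5)],
   [(0, 11, 6), (7, 13, 3), (26, 12, 2), (17, 6, 8), (14, 14, 3), (25, 17, 8), (8, 21, 6), (21, 21, 7), (24, 17, 5), (29, 14, 2)],
   [(0, 10, 6), (1, 12, 7), (28, 15, 7), (15, 20, 6), (4, 19, 1), (27, 8, 2), (22, 7, 0), (29, 16, 7)],
   [(6, 8, 3), (5, 18, 4), (16, 20, 5), (23, 13, 5), (24, 11, 4), (21, 10, 1), (10, 21, 2), (11, 20, 2)],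
   [(8, 16, 0), (21, 8, 4), (10, 19, 7), (11, 21, 1), (26, 13, 6), (17, 19, 2), (14, 18, 3), (25, 15, 6)],
   [(15, 13, 7), (10, 20, 3), (11, 19, 6), (6, 10, 0), (19, 16, 5), (12, 21, 8), (9, 17, 6), (20, 17, 7), (13, 21, 5), (4, 16, 4)]]

theorem sf61 : SurfFor W61 :=
  surfFor_of_table (T := T61) (lam := [0, 3, 11, 1, 13, 9, 8, 6, 4, 10, 12, 5, 14, 7, 2]) (rows := rows61)
    (by decide +kernel) (by decide +kernel) (by decide +kernel) (by decide +kernel)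

/-- the multiplication table of presentation 62 -/
def W62 : ℕ :=
  7924417967042688915469286783021696740023681892639047866737121261797783468386572853899353456294167322916937591946737542522749077746876434422257175422583826136278988460460902274704376540245986889135258491784797039315244093559244496653017557249192663809177433380309983821825

/-- a surface for presentation 62 -/
def rows62 : List (List (ℕ × ℕ × ℕ)) :=
  [[(0, 1, 1), (1, 2, 0), (18, 3, 4), (25, 1, 8), (14, 4, 2), (5, 1, 4), (22, 3, 0), (11, 2, 4)],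
   [(0, 2, 1), (1, 0, 0), (28, 2, 3), (29, 3, 1), (4, 0, 5), (21, 4, 1), (16, 5, 1), (9, 4, 3), (24, 0, 3), (11, 3, 3)],
   [(0, 0, 1), (1, 1, 0), (28, 3, 2), (29, 1, 2), (10, 0, 7), (3, 3, 7), (8, 6, 2), (15, 7, 3), (20, 6, 4), (27, 3, 5)],
   [(23, 0, 6), (28, 1, 3), (29, 2, 2), (10, 1, 9), (19, 0, 2), (26, 2, 9), (17, 6, 3), (2, 2, 5)],
   [(27, 5, 2), (20, 1, 5), (15, 0, 4), (8, 1, 7), (3, 5, 0), (10, 7, 0), (29, 6, 7), (28, 5, 5), (1, 6, 9), (0, 7, 6)],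
   [(2, 4, 4), (17, 1, 6), (26, 4, 0), (19, 7, 5), (10, 6, 0), (29, 4, 7), (28, 6, 6), (23, 7, 1)],
   [(11, 5, 4), (24, 7, 4), (9, 2, 6), (16, 3, 6), (21, 2, 8), (4, 7, 2), (29, 5, 6), (28, 4, 6), (1, 7, 7), (0, 4, 8)],
   [(11, 4, 5), (22, 5, 7), (5, 6, 5), (14, 2, 7), (25, 6, 1), (18, 5, 3), (1, 4, 9), (0, 6, 8)]]

theorem sf62 : SurfFor W62 :=
  surfFor_of_table (T := T62) (lam := [0, 12, 7, 10, 5, 2, 11, 13, 4, 9, 8, 3, 14, 1, 6]) (rows := rows62)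
    (by decide +kernel) (by decide +kernel) (by decide +kernel) (by decide +kernel)

/-- the multiplication table of presentation 63 -/
def W63 : ℕ :=
  4536361668361125169943216274158809702935205315303212281242115704995525959654446601210112688676486802259457497817643335110751865681035001889335618787239900302227734740464618238972784716410540907426314145509271428604994536324324519397186730140551761135268015567273985

/-- a surface for presentation 63 -/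
def rows63 : List (List (ℕ × ℕ × ℕ)) :=
  [[(0, 1, 1), (1, 2, 0), (18, 1, 3), (19, 2, 2), (6, 1, 7), (11, 3, 2), (22, 4, 3), (7, 2, 4)],
   [(0, 2, 1), (1, 0, 0), (18, 2, 3), (19, 0, 2), (6, 2, 7), (11, 5, 2), (22, 3, 3), (7, 0, 4)],
   [(0, 0, 1), (1, 1, 0), (18, 0, 3), (19, 1, 2), (6, 0, 7), (11, 4, 2), (22, 5, 3), (7, 1, 4)],
   [(8, 6, 5), (27, 4, 4), (10, 0, 5), (23, 1, 6), (26, 5, 1), (5, 7, 4), (14, 8, 0), (29, 9, 5)],
   [(8, 10, 5), (27, 5, 4), (10, 2, 5), (23, 0, 6), (26, 3, 1), (5, 6, 4), (14, 11, 0), (29, 8, 5)],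
   [(8, 7, 5), (27, 3, 4), (10, 1, 5), (23, 2, 6), (26, 4, 1), (5, 10, 4), (14, 9, 0), (29, 11, 5)],
   [(0, 7, 1), (1, 10, 0), (28, 12, 0), (21, 11, 1), (4, 4, 5), (9, 3, 0), (20, 9, 4), (15, 13, 1)],
   [(0, 10, 1), (1, 6, 0), (28, 13, 0), (21, 8, 1), (4, 3, 5), (9, 5, 0), (20, 11, 4), (15, 14, 1)],
   [(15, 3, 6), (20, 7, 3), (9, 13, 7), (4, 12, 2), (21, 10, 6), (28, 4, 7), (1, 11, 7), (0, 9, 6)],
   [(15, 5, 6), (20, 10, 3), (9, 14, 7), (4, 13, 2), (21, 6, 6), (28, 3, 7), (1, 8, 7), (0, 11, 6)],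
   [(0, 6, 1), (1, 7, 0), (28, 14, 0), (21, 9, 1), (4, 5, 5), (9, 4, 0), (20, 8, 4), (15, 12, 1)],
   [(15, 4, 6), (20, 6, 3), (9, 12, 7), (4, 14, 2), (21, 7, 6), (28, 5, 7), (1, 9, 7), (0, 8, 6)],
   [(29, 6, 2), (14, 10, 7), (5, 8, 3), (26, 13, 6), (23, 15, 1), (10, 16, 2), (27, 14, 3), (8, 11, 2)],
   [(29, 7, 2), (14, 6, 7), (5, 9, 3), (26, 14, 6), (23, 17, 1), (10, 15, 2), (27, 12, 3), (8, 8, 2)],
   [(29, 10, 2), (14, 7, 7), (5, 11, 3), (26, 12, 6), (23, 16, 1), (10, 17, 2), (27, 13, 3), (8, 9, 2)],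
   [(7, 16, 3), (22, 12, 4), (11, 13, 5), (6, 17, 0), (19, 16, 5), (18, 17, 4), (1, 16, 7), (0, 17, 6)],
   [(7, 17, 3), (22, 14, 4), (11, 12, 5), (6, 15, 0), (19, 17, 5), (18, 15, 4), (1, 17, 7), (0, 15, 6)],
   [(7, 15, 3), (22, 13, 4), (11, 14, 5), (6, 16, 0), (19, 15, 5), (18, 16, 4), (1, 15, 7), (0, 16, 6)]]

theorem sf63 : SurfFor W63 :=
  surfFor_of_table (T := T63) (lam := [0, 5, 4, 2, 8, 10, 13, 1, 3, 11, 6, 9, 7, 12, 14]) (rows := rows63)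
    (by decide +kernel) (by decide +kernel) (by decide +kernel) (by decide +kernel)

/-- the multiplication table of presentation 64 -/
def W64 : ℕ :=
  198110449198967589151110540343831851494272149674852406327080338255441305665030063174326876670749308948890886004488067595943929272796078190357152864397666286450199873229526854490584535102522013880219678598742581636001663099408445568887811487306128287328745618491880505345

/-- a surface for presentation 64 -/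
def rows64 : List (List (ℕ × ℕ × ℕ)) :=
  [[(6, 1, 3), (9, 2, 7), (22, 3, 0), (7, 4, 0), (24, 1, 5), (25, 4, 4), (16, 1, 7), (17, 4, 6)],
   [(6, 4, 3), (9, 5, 7), (22, 2, 0), (7, 0, 0), (24, 4, 5), (25, 0, 4), (16, 4, 7), (17, 0, 6)],
   [(23, 1, 2), (18, 5, 6), (17, 3, 3), (16, 5, 2), (21, 3, 5), (20, 5, 4), (19, 3, 1), (8, 0, 1)],
   [(23, 0, 2), (18, 2, 6), (17, 5, 3), (16, 2, 2), (21, 5, 5), (20, 2, 4), (19, 5, 1), (8, 4, 1)],
   [(6, 0, 3), (9, 3, 7), (22, 5, 0), (7, 1, 0), (24, 0, 5), (25, 1, 4), (16, 0, 7), (17, 1, 6)],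
   [(23, 4, 2), (18, 3, 6), (17, 2, 3), (16, 3, 2), (21, 2, 5), (20, 3, 4), (19, 2, 1), (8, 1, 1)]]

theorem sf64 : SurfFor W64 :=
  surfFor_of_table (T := T64) (lam := [0, 4, 3, 2, 10, 6, 1, 7, 11, 13, 8, 14, 5, 12, 9]) (rows := rows64)
    (by decide +kernel) (by decide +kernel) (by decide +kernel) (by decide +kernel)

end Pool.Agent.TriSurf
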