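import Pool.Agent.TriSurf.SData
import Pool.Agent.TriSurf.PresT

/-!
# Surfaces
-/

set_option autoImplicit false
set_option maxRecDepth 100000

namespace Pool.Agent.TriSurf

/-- the multiplication table of presentation 65 -/
def W65 : ℕ :=
  198110457048076551368739872718093239688912217784210187287577203839943077393442422026299967935705784192314216510621427290624490651952495703619033759052451746479753102472020796388545173827963682756905174753043744460175688497467971833770057744465818278712602113822460739585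

/-- a surface for presentation 65 -/
def rows65 : List (List (ℕ × ℕ × ℕ)) :=
  [[(0, 1, 1), (1, 2, 0), (18, 3, 4), (9, 4, 4), (14, 2, 3), (21, 5, 1), (22, 6, 6), (13, 1, 6)],
   [(0, 2, 1), (1, 0, 0), (18, 1, 5), (9, 7, 5), (8, 7, 6), (19, 1, 2), (12, 0, 7), (25, 6, 5), (22, 8, 2), (13, 5, 3)],
   [(0, 0, 1), (1, 1, 0), (18, 5, 2), (15, 0, 4), (16, 4, 3), (23, 7, 1), (24, 9, 5), (13, 3, 5)],
   [(13, 10, 4), (24, 11, 4), (17, 11, 7), (8, 4, 5), (19, 0, 2), (12, 2, 7), (7, 9, 4), (28, 11, 0), (1, 12, 7), (0, 5, 8)],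
   [(2, 9, 9), (23, 13, 1), (24, 7, 2), (17, 2, 4), (8, 0, 3), (9, 3, 3), (14, 11, 6), (29, 10, 2)],
   [(3, 6, 7), (20, 0, 5), (19, 2, 2), (12, 1, 9), (25, 8, 1), (6, 14, 3), (15, 15, 8), (18, 10, 5), (1, 3, 9), (0, 12, 6)],
   [(29, 12, 5), (14, 15, 3), (9, 14, 6), (8, 13, 4), (17, 8, 3), (24, 1, 7), (23, 0, 6), (2, 5, 0)],
   [(13, 9, 6), (22, 2, 5), (25, 4, 2), (12, 13, 0), (19, 7, 7), (8, 1, 3), (9, 1, 4), (18, 7, 4), (1, 13, 7), (0, 8, 6)],
   [(13, 14, 4), (24, 5, 4), (23, 1, 8), (16, 6, 4), (15, 13, 3), (18, 9, 7), (1, 7, 9), (0, 13, 6)],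
   [(0, 10, 1), (1, 14, 0), (18, 12, 2), (15, 11, 1), (6, 3, 6), (25, 2, 6), (12, 7, 0), (19, 8, 5), (20, 13, 2), (3, 4, 0)],
   [(0, 14, 1), (1, 9, 0), (28, 4, 7), (7, 11, 5), (12, 3, 0), (19, 5, 7), (20, 15, 7), (3, 15, 0)],
   [(29, 3, 7), (14, 9, 3), (21, 12, 1), (22, 11, 8), (25, 3, 1), (6, 10, 3), (15, 4, 6), (16, 3, 2), (23, 11, 3), (2, 12, 0)],
   [(3, 11, 9), (20, 11, 2), (19, 9, 2), (12, 14, 9), (7, 15, 4), (28, 6, 0), (1, 5, 9), (0, 3, 8)],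
   [(13, 7, 3), (22, 4, 1), (21, 9, 8), (14, 8, 4), (9, 6, 3), (18, 14, 5), (1, 8, 7), (0, 7, 8)],
   [(0, 9, 1), (1, 10, 0), (28, 15, 9), (7, 5, 5), (12, 8, 0), (19, 13, 5), (8, 6, 2), (17, 15, 2), (24, 15, 5), (13, 12, 3)],
   [(2, 10, 7), (23, 15, 6), (16, 14, 7), (15, 6, 1), (6, 12, 4), (25, 14, 8), (22, 15, 1), (21, 10, 6), (14, 5, 6), (29, 14, 2)]]

theorem sf65 : SurfFor W65 :=
  surfFor_of_table (T := T65) (lam := [0, 1, 8, 3, 14, 6, 2, 11, 12, 13, 7, 5, 10, 9, 4]) (rows := rows65)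
    (by decide +kernel) (by decide +kernel) (by decide +kernel) (by decide +kernel)

/-- the multiplication table of presentation 66 -/
def W66 : ℕ :=
  128979141220969462017422289964159183423386012985462339000822836324625311643833205298842395845154466782656118780914170799450418606355565796528140750647402358455590636063684482091161371031835511497411145698387531557699178794012959471452850958980039397719027653986484225

/-- a surface for presentation 66 -/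
def rows66 : List (List (ℕ × ℕ × ℕ)) :=
  [[(0, 1, 1), (1, 2, 0), (28, 3, 0), (11, 4, 3), (12, 5, 4), (25, 6, 6), (20, 5, 0), (23, 7, 5)],
   [(0, 2, 1), (1, 0, 0), (28, 7, 4), (11, 8, 2), (2, 6, 1), (3, 9, 0), (14, 10, 1), (5, 11, 0), (22, 10, 5), (17, 3, 5)],
   [(0, 0, 1), (1, 1, 0), (18, 3, 4), (13, 12, 1), (8, 13, 4), (7, 14, 0), (10, 15, 4), (9, 8, 4), (26, 7, 2), (23, 3, 1)],
   [(29, 0, 2), (22, 2, 9), (17, 7, 1), (24, 12, 2), (19, 2, 2), (16, 1, 9), (27, 10, 4), (6, 4, 4)],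
   [(23, 14, 6), (26, 16, 5), (9, 5, 5), (10, 0, 3), (7, 3, 7), (8, 10, 3), (13, 9, 6), (18, 14, 3), (1, 17, 9), (0, 15, 6)],
   [(21, 0, 6), (16, 6, 5), (27, 9, 2), (18, 6, 7), (13, 0, 4), (8, 4, 2), (7, 16, 4), (10, 17, 6), (15, 18, 5), (4, 7, 6)],
   [(2, 9, 1), (3, 1, 4), (14, 8, 1), (5, 16, 0), (22, 9, 3), (17, 5, 1), (24, 0, 5), (19, 5, 3)],
   [(21, 12, 3), (16, 3, 2), (27, 2, 8), (6, 8, 3), (29, 1, 2), (22, 0, 7), (5, 5, 9), (4, 18, 4)],
   [(4, 16, 1), (15, 6, 2), (10, 1, 3), (7, 7, 3), (8, 2, 7), (13, 15, 3), (18, 18, 0), (27, 12, 5), (16, 18, 2), (21, 15, 1)],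
   [(2, 1, 5), (3, 6, 0), (26, 5, 2), (23, 6, 4), (20, 16, 7), (25, 14, 4), (12, 4, 6), (11, 10, 2)],
   [(4, 11, 1), (15, 1, 6), (10, 9, 7), (9, 4, 5), (26, 3, 6), (23, 1, 8), (20, 11, 9), (21, 19, 4)],
   [(4, 1, 7), (5, 10, 0), (22, 19, 3), (17, 19, 6), (24, 11, 7), (7, 19, 0), (8, 19, 1), (25, 11, 4), (20, 19, 5), (21, 10, 6)],
   [(11, 13, 5), (12, 2, 3), (25, 3, 3), (20, 7, 0), (23, 18, 3), (26, 8, 7), (3, 18, 7), (2, 17, 4)],
   [(21, 20, 3), (20, 21, 0), (23, 17, 1), (26, 14, 1), (9, 2, 4), (10, 12, 0), (15, 17, 3), (4, 21, 8)],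
   [(6, 2, 5), (27, 13, 3), (16, 17, 0), (19, 4, 7), (24, 9, 5), (17, 16, 6), (22, 4, 0), (29, 15, 5)],
   [(23, 16, 2), (20, 8, 9), (25, 18, 1), (12, 8, 5), (11, 2, 6), (28, 14, 7), (1, 4, 9), (0, 17, 8)],
   [(4, 6, 3), (5, 8, 0), (22, 15, 0), (29, 17, 7), (6, 5, 6), (27, 4, 1), (16, 14, 5), (21, 9, 4)],
   [(17, 14, 2), (22, 13, 2), (5, 21, 9), (14, 13, 6), (3, 12, 7), (2, 18, 6), (11, 5, 7), (28, 16, 3), (1, 15, 7), (0, 4, 8)],
   [(19, 8, 6), (24, 15, 2), (17, 8, 8), (22, 12, 4), (5, 7, 7), (14, 5, 8), (3, 17, 5), (2, 12, 6)],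
   [(6, 11, 5), (9, 11, 6), (26, 19, 7), (23, 11, 2), (20, 10, 7), (21, 11, 8), (16, 11, 3), (27, 19, 2)],
   [(27, 20, 5), (16, 21, 6), (21, 21, 1), (20, 13, 0), (23, 21, 7), (26, 20, 0), (9, 21, 3), (6, 21, 4)],
   [(21, 13, 1), (20, 20, 2), (25, 21, 5), (8, 20, 6), (7, 20, 7), (24, 21, 2), (17, 20, 1), (22, 20, 4), (5, 13, 7), (4, 17, 2)]]

theorem sf66 : SurfFor W66 :=
  surfFor_of_table (T := T66) (lam := [0, 4, 7, 12, 9, 3, 14, 6, 2, 5, 8, 1, 13, 11, 10]) (rows := rows66)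
    (by decide +kernel) (by decide +kernel) (by decide +kernel) (by decide +kernel)

/-- the multiplication table of presentation 67 -/
def W67 : ℕ :=
  24763837635793111985910149099064367188793542754731626867638359720433650227226814606968159088076249339740712258837791942437131473245616850060147748503172563500797743084461820932730755567378433820861966754613398279531520636470605135648817515763715224318664690111048843265

/-- a surface for presentation 67 -/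
def rows67 : List (List (ℕ × ℕ × ℕ)) :=
  [[(0, 1, 1), (1, 2, 0), (28, 3, 0), (15, 4, 5), (2, 2, 5), (3, 1, 4), (26, 3, 4), (17, 5, 1)],
   [(0, 2, 1), (1, 0, 0), (28, 5, 0), (15, 3, 5), (2, 0, 5), (3, 2, 4), (26, 5, 4), (17, 4, 1)],
   [(0, 0, 1), (1, 1, 0), (28, 4, 0), (15, 5, 5), (2, 1, 5), (3, 0, 4), (26, 4, 4), (17, 3, 1)],
   [(29, 0, 2), (16, 2, 7), (5, 4, 3), (4, 5, 2), (27, 0, 6), (14, 1, 3), (3, 5, 7), (2, 4, 6)],
   [(29, 2, 2), (16, 1, 7), (5, 5, 3), (4, 3, 2), (27, 2, 6), (14, 0, 3), (3, 3, 7), (2, 5, 6)],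
   [(29, 1, 2), (16, 0, 7), (5, 3, 3), (4, 4, 2), (27, 1, 6), (14, 2, 3), (3, 4, 7), (2, 3, 6)]]

theorem sf67 : SurfFor W67 :=
  surfFor_of_table (T := T67) (lam := [0, 4, 8, 14, 13, 9, 11, 3, 1, 12, 10, 6, 2, 7, 5]) (rows := rows67)
    (by decide +kernel) (by decide +kernel) (by decide +kernel) (by decide +kernel)

/-- the multiplication table of presentation 68 -/
def W68 : ℕ :=
  2063650625642229300164795758600749468608213081028418640688709459811591192831168591178772191154637112468044242263175452369080969224817283851033918401422154814545014021231247024445776374096045171860349730788117170025289587861075211320855910846678471864132666703105490945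

/-- a surface for presentation 68 -/
def rows68 : List (List (ℕ × ℕ × ℕ)) :=
  [[(0, 1, 1), (1, 2, 0), (18, 2, 3), (19, 1, 2), (6, 0, 7), (11, 3, 3), (26, 3, 4), (7, 0, 4)],
   [(0, 2, 1), (1, 0, 0), (18, 0, 3), (19, 2, 2), (6, 1, 7), (11, 4, 3), (26, 4, 4), (7, 1, 4)],
   [(0, 0, 1), (1, 1, 0), (18, 1, 3), (19, 0, 2), (6, 2, 7), (11, 5, 3), (26, 5, 4), (7, 2, 4)],
   [(25, 4, 1), (24, 5, 0), (29, 3, 5), (10, 0, 5), (27, 0, 6), (28, 3, 2), (1, 5, 7), (0, 4, 6)],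
   [(25, 5, 1), (24, 3, 0), (29, 4, 5), (10, 1, 5), (27, 1, 6), (28, 4, 2), (1, 3, 7), (0, 5, 6)],
   [(25, 3, 1), (24, 4, 0), (29, 5, 5), (10, 2, 5), (27, 2, 6), (28, 5, 2), (1, 4, 7), (0, 3, 6)]]

theorem sf68 : SurfFor W68 :=
  surfFor_of_table (T := T68) (lam := [0, 5, 8, 1, 7, 9, 14, 10, 13, 11, 4, 3, 2, 6, 12]) (rows := rows68)
    (by decide +kernel) (by decide +kernel) (by decide +kernel) (by decide +kernel)

/-- the multiplication table of presentation 69 -/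
def W69 : ℕ :=
  7924417967042692670201360992601101981717938756602172526407043182945742187549694111172207314327609014885292371444318194059064139009243966394411344986028632508360780182231119658485760774155796874921983594347529524441395244446581875185009521795762815639732583800859158118410

/-- a surface for presentation 69 -/
def rows69 : List (List (ℕ × ℕ × ℕ)) :=
  [[(6, 0, 3), (13, 1, 5), (12, 1, 6), (7, 0, 0), (20, 2, 5), (21, 3, 4), (16, 3, 7), (17, 2, 6)],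
   [(17, 4, 1), (16, 5, 0), (21, 5, 3), (20, 4, 2), (7, 1, 7), (12, 0, 1), (13, 0, 2), (6, 1, 4)],
   [(6, 2, 3), (13, 5, 5), (12, 5, 6), (7, 2, 0), (20, 3, 5), (21, 0, 4), (16, 0, 7), (17, 3, 6)],
   [(6, 3, 3), (13, 4, 5), (12, 4, 6), (7, 3, 0), (20, 0, 5), (21, 2, 4), (16, 2, 7), (17, 0, 6)],
   [(17, 5, 1), (16, 1, 0), (21, 1, 3), (20, 5, 2), (7, 4, 7), (12, 3, 1), (13, 3, 2), (6, 4, 4)],
   [(17, 1, 1), (16, 4, 0), (21, 4, 3), (20, 1, 2), (7, 5, 7), (12, 2, 1), (13, 2, 2), (6, 5, 4)]]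

theorem sf69 : SurfFor W69 :=
  surfFor_of_table (T := T69) (lam := [0, 12, 9, 13, 7, 1, 10, 14, 11, 2, 8, 4, 5, 3, 6]) (rows := rows69)
    (by decide +kernel) (by decide +kernel) (by decide +kernel) (by decide +kernel)

/-- the multiplication table of presentation 70 -/
def W70 : ℕ :=
  1228063536770260201174647996931528543195806706102932712998214008526280259577276272890802160735185436925612122211635060541232893212157644982560289740048691995419472232378884101256032706768563668977617370370772468673500911673890903235986395482221607447152521153347585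

/-- a surface for presentation 70 -/
def rows70 : List (List (ℕ × ℕ × ℕ)) :=
  [[(4, 1, 2), (5, 2, 7), (22, 1, 4), (7, 3, 5), (24, 4, 3), (25, 5, 8), (10, 6, 0), (13, 3, 7)],
   [(19, 7, 6), (14, 2, 0), (5, 0, 0), (22, 3, 6), (23, 0, 2), (12, 2, 6), (3, 3, 9), (2, 6, 8)],
   [(15, 1, 1), (20, 7, 5), (17, 8, 4), (8, 5, 5), (25, 9, 3), (10, 3, 0), (13, 1, 5), (4, 0, 1)],
   [(11, 2, 5), (24, 9, 2), (25, 10, 8), (10, 11, 4), (9, 4, 4), (6, 0, 3), (23, 1, 3), (12, 0, 7), (3, 6, 9), (2, 1, 6)],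
   [(4, 9, 6), (13, 12, 2), (10, 5, 9), (25, 0, 4), (8, 3, 4), (17, 11, 3), (20, 13, 2), (15, 12, 6)],
   [(2, 12, 1), (3, 10, 0), (12, 9, 0), (23, 12, 4), (6, 9, 4), (9, 2, 3), (10, 8, 3), (25, 6, 1), (24, 0, 5), (11, 4, 2)],
   [(11, 0, 6), (24, 5, 7), (25, 8, 2), (8, 13, 6), (21, 8, 6), (18, 7, 3), (1, 11, 7), (28, 7, 7), (3, 1, 7), (2, 3, 8)],
   [(6, 11, 6), (9, 10, 6), (26, 11, 0), (19, 6, 5), (14, 8, 5), (21, 2, 1), (18, 1, 0), (29, 6, 7)],
   [(0, 10, 3), (7, 13, 7), (24, 6, 2), (11, 5, 6), (16, 2, 2), (15, 7, 4), (20, 6, 4), (27, 13, 5)],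
   [(13, 5, 2), (10, 10, 9), (25, 3, 1), (24, 2, 4), (7, 5, 4), (22, 12, 3), (5, 4, 0), (4, 12, 5)],
   [(2, 5, 1), (3, 12, 0), (28, 13, 0), (1, 8, 0), (18, 13, 4), (21, 11, 1), (8, 7, 1), (25, 11, 5), (24, 3, 2), (11, 9, 1)],
   [(27, 7, 2), (20, 10, 5), (15, 13, 3), (16, 4, 5), (11, 3, 3), (24, 10, 7), (7, 7, 0), (0, 6, 6)],
   [(2, 10, 1), (3, 5, 0), (12, 4, 1), (23, 9, 5), (22, 5, 3), (5, 9, 7), (14, 4, 7), (19, 13, 1)],
   [(29, 10, 2), (18, 12, 7), (21, 4, 6), (14, 11, 2), (19, 10, 4), (26, 8, 7), (9, 6, 3), (6, 8, 1)]]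

theorem sf70 : SurfFor W70 :=
  surfFor_of_table (T := T70) (lam := [0, 3, 7, 2, 9, 5, 6, 8, 13, 4, 14, 10, 12, 1, 11]) (rows := rows70)
    (by decide +kernel) (by decide +kernel) (by decide +kernel) (by decide +kernel)

/-- the multiplication table of presentation 71 -/
def W71 : ℕ :=
  7924417968142007214327384356177781858258106346418997155192159029530521804515484858439479222329757695021701796283429426155213794767675921068119747986303041706527602890475651290752638651637502957085313291058219815558734008433525631183830272614645482208696376935232762281985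

/-- a surface for presentation 71 -/
def rows71 : List (List (ℕ × ℕ × ℕ)) :=
  [[(2, 1, 7), (7, 2, 4), (16, 1, 3), (13, 3, 6), (20, 4, 2), (21, 5, 3), (12, 6, 3), (29, 7, 2)],
   [(0, 7, 1), (1, 8, 0), (28, 3, 7), (17, 0, 2), (10, 2, 3), (5, 9, 9), (24, 2, 5), (3, 0, 0)],
   [(4, 10, 2), (13, 11, 3), (16, 9, 0), (11, 1, 4), (6, 0, 1), (25, 1, 6), (12, 9, 8), (29, 12, 8), (28, 13, 7), (17, 11, 7)],
   [(2, 8, 7), (7, 13, 4), (16, 8, 3), (13, 6, 6), (20, 14, 2), (21, 4, 3), (12, 0, 3), (29, 1, 2)],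
   [(29, 15, 5), (12, 5, 4), (21, 0, 4), (20, 3, 5), (13, 14, 1), (16, 10, 4), (7, 11, 5), (2, 10, 0)],
   [(29, 16, 5), (12, 14, 4), (21, 6, 4), (20, 0, 5), (13, 4, 1), (16, 15, 4), (7, 9, 5), (2, 15, 0)],
   [(2, 7, 7), (7, 12, 4), (16, 7, 3), (13, 0, 6), (20, 5, 2), (21, 14, 3), (12, 3, 3), (29, 8, 2)],
   [(0, 8, 1), (1, 1, 0), (28, 0, 7), (17, 6, 2), (10, 12, 3), (5, 17, 9), (24, 12, 5), (3, 6, 0)],
   [(0, 1, 1), (1, 7, 0), (28, 6, 7), (17, 3, 2), (10, 13, 3), (5, 11, 9), (24, 13, 5), (3, 3, 0)],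
   [(17, 2, 2), (28, 11, 2), (29, 17, 1), (12, 12, 1), (25, 15, 1), (6, 5, 6), (11, 15, 3), (16, 12, 9), (13, 2, 6), (4, 1, 5)],
   [(3, 4, 7), (24, 11, 4), (5, 2, 0), (10, 11, 6), (17, 4, 5), (28, 14, 0), (1, 16, 7), (0, 15, 6)],
   [(17, 13, 2), (28, 17, 2), (29, 9, 1), (12, 2, 1), (25, 10, 1), (6, 4, 6), (11, 10, 3), (16, 2, 9), (13, 13, 6), (4, 8, 5)],
   [(4, 15, 2), (13, 9, 3), (16, 17, 0), (11, 7, 4), (6, 6, 1), (25, 7, 6), (12, 17, 8), (29, 13, 8), (28, 2, 7), (17, 9, 7)],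
   [(4, 16, 2), (13, 17, 3), (16, 11, 0), (11, 8, 4), (6, 3, 1), (25, 8, 6), (12, 11, 8), (29, 2, 8), (28, 12, 7), (17, 17, 7)],
   [(29, 10, 5), (12, 4, 4), (21, 3, 4), (20, 6, 5), (13, 5, 1), (16, 16, 4), (7, 17, 5), (2, 16, 0)],
   [(3, 5, 7), (24, 9, 4), (5, 12, 0), (10, 9, 6), (17, 5, 5), (28, 4, 0), (1, 10, 7), (0, 16, 6)],
   [(3, 14, 7), (24, 17, 4), (5, 13, 0), (10, 17, 6), (17, 14, 5), (28, 5, 0), (1, 15, 7), (0, 10, 6)],
   [(17, 12, 2), (28, 9, 2), (29, 11, 1), (12, 13, 1), (25, 16, 1), (6, 14, 6), (11, 16, 3), (16, 13, 9), (13, 12, 6), (4, 7, 5)]]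

theorem sf71 : SurfFor W71 :=
  surfFor_of_table (T := T71) (lam := [0, 2, 12, 5, 14, 11, 8, 1, 6, 7, 13, 9, 10, 4, 3]) (rows := rows71)
    (by decide +kernel) (by decide +kernel) (by decide +kernel) (by decide +kernel)

end Pool.Agent.TriSurf
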