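import Pool.Agent.TriSurf.SData
import Pool.Agent.TriSurf.PresT

/-!
# Surfaces
-/

set_option autoImplicit false
set_option maxRecDepth 100000

namespace Pool.Agent.TriSurf

/-- the multiplication table of presentation 79 -/
def W79 : ℕ :=
  128982093122157052469837094943014881339928293863429687280618545522765025996012028592441168616607080807985970102095210646703100606944760045432565231319760696538382164314272721954039360052352247386246886849999061907749623230938664964192744252651307953997521706972872705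

/-- a surface for presentation 79 -/
def rows79 : List (List (ℕ × ℕ × ℕ)) :=
  [[(0, 1, 1), (1, 2, 0), (28, 1, 7), (3, 2, 4), (2, 1, 3), (15, 2, 6), (14, 1, 5), (29, 2, 2), (22, 1, 9), (23, 2, 8)],
   [(0, 2, 1), (1, 0, 0), (28, 2, 7), (3, 0, 4), (2, 2, 3), (15, 0, 6), (14, 2, 5), (29, 0, 2), (22, 2, 9), (23, 0, 8)],
   [(0, 0, 1), (1, 1, 0), (28, 0, 7), (3, 1, 4), (2, 0, 3), (15, 1, 6), (14, 0, 5), (29, 1, 2), (22, 0, 9), (23, 1, 8)]]

theorem sf79 : SurfFor W79 :=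
  surfFor_of_table (T := T79) (lam := [0, 3, 6, 11, 8, 12, 14, 4, 1, 5, 13, 2, 9, 10, 7]) (rows := rows79)
    (by decide +kernel) (by decide +kernel) (by decide +kernel) (by decide +kernel)

/-- the multiplication table of presentation 80 -/
def W80 : ℕ :=
  33018408296189412928920949284606569721080849821230719559858379778492695642167128598778601070723546455996401087060739345381419205025044975269600024475520515700958170782859691514173428264635619499618450134237385756080645701099997779712756804764376529664648474653437722625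

/-- a surface for presentation 80 -/
def rows80 : List (List (ℕ × ℕ × ℕ)) :=
  [[(4, 1, 1), (23, 2, 3), (20, 3, 0), (5, 4, 4), (8, 5, 2), (13, 6, 1), (10, 7, 1), (25, 8, 5)],
   [(8, 2, 4), (5, 0, 0), (12, 8, 4), (15, 9, 1), (22, 10, 0), (9, 11, 3), (14, 4, 7), (21, 12, 5)],
   [(17, 4, 2), (12, 13, 5), (15, 3, 1), (22, 0, 1), (9, 1, 0), (4, 12, 4), (23, 14, 4), (16, 4, 9), (11, 11, 1), (2, 5, 4)],
   [(21, 0, 2), (14, 2, 2), (9, 13, 4), (22, 15, 7), (15, 16, 6), (12, 17, 5), (5, 12, 7), (8, 4, 5)],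
   [(2, 14, 3), (11, 13, 6), (16, 2, 0), (23, 5, 3), (4, 0, 3), (9, 3, 7), (22, 12, 6), (15, 1, 6), (12, 11, 2), (17, 2, 7)],
   [(21, 13, 2), (14, 6, 2), (9, 0, 4), (22, 4, 3), (3, 2, 9), (24, 11, 0), (13, 9, 5), (8, 15, 1)],
   [(17, 7, 2), (12, 0, 5), (15, 5, 1), (22, 13, 1), (9, 16, 0), (4, 15, 5), (23, 8, 7), (16, 7, 9), (11, 12, 1), (2, 17, 3)],
   [(2, 8, 6), (11, 0, 6), (16, 6, 0), (23, 17, 2), (4, 10, 2), (9, 9, 7), (22, 11, 6), (15, 14, 6), (12, 12, 2), (17, 6, 7)],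
   [(23, 16, 4), (20, 10, 4), (5, 17, 0), (8, 9, 2), (13, 1, 2), (24, 0, 7), (3, 7, 0), (22, 6, 6), (9, 15, 4), (4, 17, 7)],
   [(21, 10, 1), (14, 1, 3), (9, 8, 3), (22, 17, 9), (15, 15, 2), (12, 5, 6), (5, 11, 7), (8, 7, 5)],
   [(23, 1, 4), (20, 9, 0), (5, 7, 4), (8, 17, 1), (21, 8, 1), (14, 16, 3), (9, 14, 0), (4, 11, 4)],
   [(25, 5, 5), (10, 2, 8), (13, 4, 8), (8, 1, 5), (5, 10, 7), (20, 14, 7), (23, 7, 6), (4, 9, 6)],
   [(25, 17, 4), (10, 6, 8), (13, 7, 8), (8, 14, 5), (5, 2, 5), (20, 1, 7), (23, 4, 6), (4, 3, 6)],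
   [(4, 16, 1), (23, 6, 3), (20, 5, 0), (5, 15, 0), (8, 3, 2), (13, 2, 1), (10, 4, 1), (25, 14, 2)],
   [(8, 10, 6), (13, 16, 2), (24, 13, 7), (3, 4, 0), (22, 2, 6), (9, 12, 3), (14, 7, 7), (21, 11, 5)],
   [(4, 13, 3), (9, 5, 7), (14, 9, 4), (21, 17, 8), (8, 8, 8), (5, 6, 5), (20, 16, 7), (23, 3, 3)],
   [(8, 6, 4), (5, 13, 0), (12, 14, 1), (15, 10, 5), (22, 8, 0), (9, 17, 6), (14, 3, 4), (21, 15, 6)],
   [(4, 8, 2), (9, 10, 3), (22, 7, 3), (3, 6, 9), (24, 12, 0), (13, 3, 5), (8, 16, 5), (5, 8, 9), (20, 15, 3), (23, 9, 3)]]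

theorem sf80 : SurfFor W80 :=
  surfFor_of_table (T := T80) (lam := [0, 2, 13, 11, 7, 5, 12, 10, 3, 4, 14, 8, 6, 1, 9]) (rows := rows80)
    (by decide +kernel) (by decide +kernel) (by decide +kernel) (by decide +kernel)

/-- the multiplication table of presentation 81 -/
def W81 : ℕ :=
  3169767186929308813492971375836332231544848967406682124092689374947469980260161827660756859865719973678310761752907782458418163458180194331359275428837275777389899764711292228375169477072661365963928169902949952568277115562752550188961852306698377792282569945551925673985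

/-- a surface for presentation 81 -/
def rows81 : List (List (ℕ × ℕ × ℕ)) :=
  [[(2, 1, 4), (11, 2, 6), (12, 3, 0), (17, 4, 2), (22, 1, 0), (27, 5, 3), (24, 6, 2), (13, 3, 5)],
   [(23, 0, 4), (14, 4, 1), (21, 7, 2), (18, 2, 7), (3, 0, 0), (16, 3, 4), (15, 4, 6), (4, 5, 4)],
   [(6, 7, 1), (3, 8, 0), (18, 9, 0), (21, 8, 6), (8, 7, 5), (25, 3, 1), (10, 0, 1), (19, 1, 3)],
   [(13, 0, 2), (24, 2, 5), (27, 7, 4), (22, 4, 7), (17, 1, 5), (12, 0, 7), (11, 6, 1), (2, 4, 3)],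
   [(4, 7, 3), (15, 1, 1), (16, 0, 3), (3, 3, 7), (18, 6, 0), (21, 5, 5), (14, 1, 6), (23, 3, 3)],
   [(21, 10, 4), (14, 11, 4), (9, 6, 3), (26, 0, 5), (5, 1, 7), (20, 4, 5), (7, 6, 7), (8, 11, 8)],
   [(19, 4, 4), (10, 3, 6), (25, 0, 6), (8, 5, 2), (21, 11, 3), (18, 12, 7), (3, 11, 9), (6, 5, 6)],
   [(8, 8, 1), (7, 2, 0), (20, 1, 2), (5, 4, 0), (26, 3, 2), (9, 2, 4), (14, 8, 5), (21, 13, 3)],
   [(2, 2, 1), (9, 7, 0), (14, 13, 2), (23, 14, 6), (4, 13, 4), (15, 7, 6), (20, 2, 3), (7, 9, 7), (12, 15, 4), (11, 9, 1)],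
   [(19, 2, 2), (10, 8, 9), (25, 15, 3), (8, 10, 1), (7, 14, 0), (12, 13, 0), (17, 15, 5), (6, 8, 7)],
   [(2, 14, 1), (9, 9, 3), (26, 15, 2), (5, 11, 5), (20, 5, 0), (15, 11, 7), (16, 15, 0), (13, 12, 2)],
   [(11, 12, 6), (12, 14, 3), (7, 12, 0), (20, 6, 4), (15, 5, 1), (4, 10, 3), (23, 15, 1), (14, 10, 5), (9, 5, 7), (2, 6, 6)],
   [(6, 11, 2), (17, 14, 2), (12, 10, 7), (7, 15, 7), (8, 13, 6), (25, 14, 4), (10, 11, 0), (19, 6, 5)],
   [(13, 9, 5), (16, 14, 7), (15, 8, 2), (20, 7, 7), (5, 8, 4), (26, 14, 5), (9, 12, 4), (2, 15, 6)],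
   [(6, 9, 4), (3, 10, 0), (16, 12, 1), (13, 11, 1), (24, 12, 5), (27, 13, 5), (22, 8, 3), (17, 13, 1)],
   [(17, 10, 6), (22, 11, 6), (27, 10, 2), (24, 9, 2), (13, 8, 8), (16, 9, 6), (3, 13, 7), (6, 12, 3)]]

theorem sf81 : SurfFor W81 :=
  surfFor_of_table (T := T81) (lam := [0, 11, 1, 13, 4, 3, 5, 8, 10, 9, 14, 7, 12, 2, 6]) (rows := rows81)
    (by decide +kernel) (by decide +kernel) (by decide +kernel) (by decide +kernel)

/-- the multiplication table of presentation 82 -/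
def W82 : ℕ :=
  22700344567582924497313580642008340629797086549313927671629272635781623994218034726950761730183986937528489113627558198153980490461673120998957016284304142306500050294112406989718574516211740997553902483071876708182670541118946911228486391723318620802721721706510024705

/-- a surface for presentation 82 -/
def rows82 : List (List (ℕ × ℕ × ℕ)) :=
  [[(0, 1, 3), (3, 2, 9), (22, 0, 5), (9, 2, 3), (12, 2, 4), (23, 0, 2), (20, 2, 8), (25, 1, 8)],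
   [(2, 3, 6), (21, 3, 1), (28, 2, 0), (1, 0, 0), (18, 1, 7), (13, 3, 3), (8, 3, 4), (19, 1, 4), (24, 0, 7), (29, 2, 7)],
   [(29, 1, 2), (24, 3, 0), (19, 2, 5), (8, 0, 3), (13, 0, 4), (18, 2, 2), (1, 3, 7), (28, 1, 9), (21, 0, 6), (2, 0, 1)],
   [(25, 2, 1), (20, 1, 1), (23, 3, 5), (12, 1, 5), (9, 1, 6), (22, 3, 2), (3, 1, 0), (0, 2, 6)]]

theorem sf82 : SurfFor W82 :=
  surfFor_of_table (T := T82) (lam := [0, 2, 11, 7, 10, 6, 14, 8, 9, 12, 3, 13, 1, 4, 5]) (rows := rows82)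
    (by decide +kernel) (by decide +kernel) (by decide +kernel) (by decide +kernel)

/-- the multiplication table of presentation 83 -/
def W83 : ℕ :=
  2063650598735286236443190495304013594117013087339756495143278980643035410040748889795918864119010555506047959914416596125878638529798233346853150076205143269591281179748158300481512677365099849629559964882175870266743771632772565717650251475372043903641549087549947905

/-- a surface for presentation 83 -/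
def rows83 : List (List (ℕ × ℕ × ℕ)) :=
  [[(0, 1, 1), (1, 2, 0), (18, 3, 2), (17, 4, 6), (6, 5, 3), (9, 6, 7), (12, 2, 5), (11, 7, 5), (20, 3, 4), (25, 2, 8)],
   [(0, 2, 1), (1, 0, 0), (28, 2, 7), (21, 6, 5), (12, 8, 4), (11, 9, 3), (8, 10, 5), (29, 11, 2), (24, 5, 7), (3, 8, 7)],
   [(0, 0, 1), (1, 1, 0), (18, 8, 6), (17, 6, 3), (6, 7, 6), (13, 0, 6), (10, 6, 6), (29, 1, 2), (24, 0, 9), (3, 3, 3)],
   [(25, 12, 6), (26, 4, 7), (19, 0, 2), (2, 2, 9), (21, 0, 8), (28, 7, 4), (1, 9, 7), (0, 13, 6)],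
   [(4, 12, 5), (7, 14, 5), (10, 15, 2), (29, 16, 2), (24, 11, 7), (5, 5, 4), (16, 0, 3), (27, 3, 1)],
   [(0, 11, 1), (1, 16, 0), (28, 6, 0), (7, 0, 4), (4, 4, 5), (27, 11, 6), (20, 8, 0), (25, 1, 8)],
   [(29, 5, 2), (24, 16, 7), (5, 7, 7), (16, 2, 3), (27, 8, 5), (20, 1, 3), (11, 2, 6), (8, 0, 5)],
   [(27, 16, 6), (16, 15, 6), (5, 13, 3), (24, 9, 0), (29, 3, 5), (10, 0, 7), (7, 2, 4), (4, 6, 2)],
   [(21, 5, 6), (12, 11, 5), (9, 17, 3), (6, 9, 4), (13, 1, 4), (26, 6, 4), (19, 2, 2), (2, 1, 9)],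
   [(25, 7, 3), (26, 13, 2), (13, 10, 6), (10, 1, 5), (7, 8, 3), (28, 17, 2), (1, 13, 7), (0, 3, 6)],
   [(2, 17, 0), (19, 14, 7), (26, 12, 3), (13, 17, 5), (6, 11, 3), (9, 1, 6), (12, 9, 2), (21, 13, 1)],
   [(0, 16, 1), (1, 5, 0), (28, 1, 7), (7, 10, 4), (10, 17, 4), (13, 8, 1), (26, 5, 5), (25, 4, 4)],
   [(8, 15, 4), (11, 14, 3), (20, 17, 6), (27, 10, 2), (16, 14, 6), (5, 4, 0), (24, 3, 0), (29, 13, 5)],
   [(25, 17, 1), (20, 10, 7), (27, 9, 1), (4, 7, 2), (7, 15, 5), (28, 12, 7), (1, 3, 7), (0, 9, 6)],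
   [(3, 16, 4), (24, 15, 0), (29, 17, 7), (10, 12, 1), (13, 15, 3), (6, 4, 1), (17, 12, 4), (18, 10, 1), (1, 17, 9), (0, 15, 8)],
   [(25, 14, 1), (20, 16, 3), (11, 4, 2), (12, 14, 4), (9, 12, 0), (6, 13, 4), (17, 7, 1), (18, 16, 5), (1, 14, 9), (0, 17, 8)],
   [(0, 5, 1), (1, 11, 0), (28, 4, 3), (21, 15, 1), (2, 14, 0), (19, 15, 7), (26, 7, 0), (25, 6, 1)],
   [(3, 10, 0), (24, 13, 0), (29, 9, 5), (8, 8, 2), (11, 11, 4), (12, 10, 3), (21, 12, 2), (28, 14, 2), (1, 15, 9), (0, 14, 8)]]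

theorem sf83 : SurfFor W83 :=
  surfFor_of_table (T := T83) (lam := [0, 2, 5, 6, 10, 13, 9, 14, 11, 4, 3, 7, 1, 8, 12]) (rows := rows83)
    (by decide +kernel) (by decide +kernel) (by decide +kernel) (by decide +kernel)

/-- the multiplication table of presentation 84 -/
def W84 : ℕ :=
  566798721752623035731581471664423974148981106360926230101275660581594629331494513930817513813718077352623762425725576837694717887807204302062390538294479838827403352435954139653696465967340088790932196009971693784883516705982741473763442187616659795033306551025665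

/-- a surface for presentation 84 -/
def rows84 : List (List (ℕ × ℕ × ℕ)) :=
  [[(2, 1, 1), (3, 2, 0), (28, 0, 7), (11, 2, 4), (10, 1, 3), (7, 1, 6), (6, 2, 5), (29, 0, 2), (16, 2, 9), (17, 1, 8)],
   [(2, 2, 1), (3, 0, 0), (28, 1, 7), (11, 0, 4), (10, 2, 3), (7, 2, 6), (6, 0, 5), (29, 1, 2), (16, 0, 9), (17, 2, 8)],
   [(2, 0, 1), (3, 1, 0), (28, 2, 7), (11, 1, 4), (10, 0, 3), (7, 0, 6), (6, 1, 5), (29, 2, 2), (16, 1, 9), (17, 0, 8)]]

theorem sf84 : SurfFor W84 :=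
  surfFor_of_table (T := T84) (lam := [0, 3, 4, 9, 14, 6, 8, 12, 5, 1, 13, 7, 10, 2, 11]) (rows := rows84)
    (by decide +kernel) (by decide +kernel) (by decide +kernel) (by decide +kernel)

/-- the multiplication table of presentation 85 -/
def W85 : ℕ :=
  128978526445433217746780184379103505192241594783589293284912180589658040203356084685130312488109171686279551587870664856490802702968190983544083642180980443220007541397087366094087239331515320619138984913853280811257658267986731978186638634346384128435063267933552650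

/-- a surface for presentation 85 -/
def rows85 : List (List (ℕ × ℕ × ℕ)) :=
  [[(4, 1, 1), (5, 2, 0), (10, 3, 5), (7, 2, 4), (6, 4, 6), (29, 5, 2), (22, 6, 9), (13, 6, 4)],
   [(4, 2, 1), (5, 0, 0), (28, 6, 3), (1, 7, 7), (18, 8, 7), (17, 4, 1), (16, 9, 2), (25, 9, 5)],
   [(4, 0, 1), (5, 1, 0), (10, 9, 4), (7, 4, 7), (6, 0, 3), (17, 3, 4), (16, 10, 3), (25, 3, 6)],
   [(0, 11, 6), (1, 12, 7), (18, 5, 9), (17, 10, 4), (16, 2, 5), (11, 0, 2), (24, 2, 7), (19, 10, 2)],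
   [(17, 9, 3), (16, 1, 5), (25, 8, 6), (20, 13, 9), (23, 13, 2), (26, 5, 3), (7, 0, 4), (6, 2, 3)],
   [(0, 12, 6), (1, 6, 0), (28, 0, 5), (27, 4, 5), (12, 13, 1), (9, 8, 4), (8, 14, 2), (15, 15, 4), (24, 10, 5), (19, 3, 2)],
   [(0, 5, 1), (19, 12, 5), (22, 7, 0), (29, 1, 2), (12, 0, 7), (27, 6, 8), (2, 16, 2), (3, 16, 3), (26, 6, 5), (23, 0, 6)],
   [(23, 6, 2), (20, 12, 4), (25, 17, 1), (16, 18, 4), (17, 19, 1), (18, 18, 0), (1, 8, 0), (0, 1, 3)],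
   [(0, 7, 6), (1, 18, 7), (18, 15, 7), (21, 14, 3), (8, 5, 5), (15, 13, 0), (24, 4, 2), (19, 1, 4)],
   [(21, 20, 4), (18, 9, 6), (17, 1, 6), (16, 4, 0), (11, 2, 2), (24, 1, 7), (19, 9, 1), (22, 20, 3), (13, 17, 5), (14, 11, 2)],
   [(0, 21, 4), (1, 11, 7), (18, 3, 7), (17, 2, 6), (16, 3, 3), (25, 5, 8), (20, 15, 3), (23, 16, 7)],
   [(19, 21, 3), (24, 20, 5), (15, 9, 9), (8, 17, 4), (21, 22, 4), (18, 12, 0), (1, 3, 0), (0, 10, 1)],
   [(19, 11, 5), (22, 22, 3), (13, 22, 6), (14, 17, 2), (21, 7, 1), (18, 6, 1), (1, 5, 0), (0, 3, 1)],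
   [(14, 8, 5), (13, 5, 4), (22, 4, 4), (19, 13, 8), (24, 21, 0), (11, 19, 5), (16, 20, 7), (17, 21, 1), (18, 13, 3), (21, 4, 3)],
   [(27, 14, 5), (12, 15, 5), (9, 5, 6), (20, 8, 3), (23, 15, 6), (26, 14, 0), (3, 22, 0), (2, 22, 1)],
   [(0, 18, 6), (1, 17, 9), (18, 16, 8), (21, 10, 6), (14, 5, 7), (13, 14, 1), (22, 14, 4), (19, 8, 2)],
   [(23, 23, 1), (26, 16, 4), (3, 6, 6), (2, 6, 7), (27, 16, 1), (12, 23, 0), (29, 21, 5), (22, 10, 7), (19, 15, 2), (0, 17, 8)],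
   [(19, 18, 5), (24, 7, 2), (15, 12, 3), (8, 22, 5), (9, 11, 3), (12, 9, 8), (27, 20, 2), (28, 23, 2), (1, 16, 9), (0, 15, 1)],
   [(19, 7, 5), (24, 19, 0), (11, 23, 5), (16, 19, 2), (17, 7, 3), (18, 17, 0), (1, 15, 0), (0, 8, 1)],
   [(25, 18, 1), (16, 7, 4), (17, 18, 3), (6, 23, 4), (7, 20, 0), (10, 13, 5), (5, 21, 7), (4, 23, 6)],
   [(6, 19, 4), (7, 23, 3), (26, 17, 6), (23, 9, 7), (20, 9, 0), (25, 11, 1), (16, 21, 2), (17, 13, 6)],
   [(25, 13, 4), (16, 13, 7), (17, 20, 6), (18, 11, 0), (1, 10, 0), (28, 16, 6), (5, 23, 7), (4, 19, 6)],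
   [(2, 14, 6), (3, 14, 7), (26, 22, 7), (23, 12, 1), (20, 11, 4), (9, 17, 3), (12, 12, 2), (27, 22, 2)],
   [(13, 16, 5), (22, 16, 0), (29, 17, 7), (6, 20, 1), (7, 19, 3), (10, 18, 2), (5, 19, 7), (4, 21, 6)]]

theorem sf85 : SurfFor W85 :=
  surfFor_of_table (T := T85) (lam := [0, 4, 6, 9, 13, 5, 7, 12, 11, 2, 14, 1, 8, 3, 10]) (rows := rows85)
    (by decide +kernel) (by decide +kernel) (by decide +kernel) (by decide +kernel)

end Pool.Agent.TriSurf
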