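import Pool.Agent.TriSurf.SData
import Pool.Agent.TriSurf.PresT

/-!
# Surfaces
-/

set_option autoImplicit false
set_option maxRecDepth 100000

namespace Pool.Agent.TriSurf

/-- the multiplication table of presentation 86 -/
def W86 : ℕ :=
  2063650624200786069034293341106949389626624798925315279029961993335062844173060796515230543717553787036560238131094349156168853909022094265050266586935101040702522420774159194845291779828658414922863253947612572408117332990187095114711713536759806895891533018456653825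

/-- a surface for presentation 86 -/
def rows86 : List (List (ℕ × ℕ × ℕ)) :=
  [[(6, 1, 9), (5, 2, 7), (18, 3, 3), (19, 1, 2), (8, 4, 6), (21, 5, 2), (20, 6, 3), (15, 7, 2), (26, 8, 0), (7, 3, 0)],
   [(6, 3, 9), (5, 4, 7), (18, 0, 3), (19, 3, 2), (8, 8, 6), (21, 9, 2), (20, 10, 3), (15, 11, 2), (26, 2, 0), (7, 0, 0)],
   [(27, 1, 8), (10, 11, 1), (7, 10, 0), (26, 5, 9), (15, 12, 5), (20, 13, 3), (9, 3, 4), (4, 0, 1)],
   [(6, 0, 9), (5, 8, 7), (18, 1, 3), (19, 0, 2), (8, 2, 6), (21, 13, 2), (20, 14, 3), (15, 15, 2), (26, 4, 0), (7, 1, 0)],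
   [(27, 3, 8), (10, 15, 1), (7, 14, 0), (26, 9, 9), (15, 16, 5), (20, 5, 3), (9, 0, 4), (4, 1, 1)],
   [(4, 10, 7), (9, 6, 4), (20, 0, 5), (21, 4, 5), (12, 16, 4), (3, 16, 7), (6, 9, 7), (7, 13, 6), (10, 12, 6), (27, 2, 3)],
   [(6, 8, 2), (3, 7, 0), (12, 7, 3), (21, 0, 6), (8, 5, 1), (19, 10, 6), (18, 14, 5), (5, 13, 0)],
   [(2, 6, 1), (11, 8, 1), (14, 0, 7), (13, 6, 2), (22, 7, 7), (25, 12, 1), (24, 12, 2), (23, 7, 4)],
   [(27, 0, 8), (10, 7, 1), (7, 6, 0), (26, 13, 9), (15, 17, 5), (20, 9, 3), (9, 1, 4), (4, 3, 1)],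
   [(4, 14, 7), (9, 10, 4), (20, 1, 5), (21, 8, 5), (12, 17, 4), (3, 17, 7), (6, 13, 7), (7, 5, 6), (10, 16, 6), (27, 4, 3)],
   [(6, 2, 2), (3, 11, 0), (12, 11, 3), (21, 1, 6), (8, 9, 1), (19, 14, 6), (18, 6, 5), (5, 5, 0)],
   [(2, 10, 1), (11, 2, 1), (14, 1, 7), (13, 10, 2), (22, 11, 7), (25, 16, 1), (24, 16, 2), (23, 11, 4)],
   [(23, 12, 3), (24, 7, 5), (25, 7, 6), (22, 12, 0), (13, 13, 4), (14, 2, 4), (11, 5, 8), (2, 13, 5)],
   [(4, 6, 7), (9, 14, 4), (20, 3, 5), (21, 2, 5), (12, 12, 4), (3, 12, 7), (6, 5, 7), (7, 9, 6), (10, 17, 6), (27, 8, 3)],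
   [(6, 4, 2), (3, 15, 0), (12, 15, 3), (21, 3, 6), (8, 13, 1), (19, 6, 6), (18, 10, 5), (5, 9, 0)],
   [(2, 14, 1), (11, 4, 1), (14, 3, 7), (13, 14, 2), (22, 15, 7), (25, 17, 1), (24, 17, 2), (23, 15, 4)],
   [(23, 16, 3), (24, 11, 5), (25, 11, 6), (22, 16, 0), (13, 5, 4), (14, 4, 4), (11, 9, 8), (2, 5, 5)],
   [(23, 17, 3), (24, 15, 5), (25, 15, 6), (22, 17, 0), (13, 9, 4), (14, 8, 4), (11, 13, 8), (2, 9, 5)]]

theorem sf86 : SurfFor W86 :=
  surfFor_of_table (T := T86) (lam := [0, 10, 11, 9, 8, 4, 7, 1, 3, 14, 13, 5, 2, 6, 12]) (rows := rows86)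
    (by decide +kernel) (by decide +kernel) (by decide +kernel) (by decide +kernel)

/-- the multiplication table of presentation 87 -/
def W87 : ℕ :=
  7924417967042670146276208506950967207685039027590456849308297901084247912692499728702066367939270317102318435080245970333386534885305290334507015361181367085769019748042222990545330558666705940086774949654221529945433137696002935088094676520890394157953773572374977839105

/-- a surface for presentation 87 -/
def rows87 : List (List (ℕ × ℕ × ℕ)) :=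
  [[(0, 1, 1), (1, 2, 0), (28, 2, 3), (29, 1, 2), (10, 0, 9), (7, 1, 6), (6, 2, 5), (23, 2, 8), (22, 1, 7), (11, 0, 4)],
   [(0, 2, 1), (1, 0, 0), (28, 0, 3), (29, 2, 2), (10, 1, 9), (7, 2, 6), (6, 0, 5), (23, 0, 8), (22, 2, 7), (11, 1, 4)],
   [(0, 0, 1), (1, 1, 0), (28, 1, 3), (29, 0, 2), (10, 2, 9), (7, 0, 6), (6, 1, 5), (23, 1, 8), (22, 0, 7), (11, 2, 4)]]

theorem sf87 : SurfFor W87 :=
  surfFor_of_table (T := T87) (lam := [0, 3, 4, 9, 13, 2, 5, 11, 7, 8, 1, 10, 12, 14, 6]) (rows := rows87)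
    (by decide +kernel) (by decide +kernel) (by decide +kernel) (by decide +kernel)

/-- the multiplication table of presentation 88 -/
def W88 : ℕ :=
  396325693104324071017573023417186624592029589530025313342775709988437482901960499052814185480816098369243007860983549316755289877556859319306203053709363089400672126211993686164915265255852209317758758056136345241168197791072401370589849957619567591198518510853554176015

/-- a surface for presentation 88 -/
def rows88 : List (List (ℕ × ℕ × ℕ)) :=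
  [[(2, 1, 6), (11, 2, 6), (14, 3, 3), (7, 1, 7), (22, 0, 7), (13, 4, 1), (12, 4, 2), (23, 0, 4)],
   [(19, 3, 2), (10, 4, 6), (9, 5, 3), (8, 6, 2), (15, 7, 5), (18, 2, 7), (3, 0, 0), (6, 0, 3)],
   [(6, 7, 4), (3, 7, 7), (18, 6, 0), (15, 8, 2), (8, 9, 5), (9, 3, 4), (10, 0, 1), (19, 1, 5)],
   [(6, 4, 4), (3, 4, 7), (18, 1, 0), (15, 0, 2), (8, 2, 5), (9, 9, 4), (10, 10, 1), (19, 5, 5)],
   [(23, 4, 3), (12, 0, 5), (13, 0, 6), (22, 4, 0), (7, 3, 0), (14, 5, 4), (11, 1, 1), (2, 3, 1)],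
   [(19, 9, 2), (10, 11, 6), (9, 6, 3), (8, 1, 2), (15, 4, 5), (18, 3, 7), (3, 10, 0), (6, 10, 3)],
   [(19, 2, 2), (10, 7, 6), (9, 1, 3), (8, 5, 2), (15, 11, 5), (18, 9, 7), (3, 8, 0), (6, 8, 3)],
   [(23, 7, 3), (12, 10, 5), (13, 10, 6), (22, 7, 0), (7, 2, 0), (14, 1, 4), (11, 6, 1), (2, 2, 1)],
   [(2, 6, 6), (11, 9, 6), (14, 2, 3), (7, 6, 7), (22, 8, 7), (13, 11, 1), (12, 11, 2), (23, 8, 4)],
   [(6, 11, 4), (3, 11, 7), (18, 5, 0), (15, 10, 2), (8, 3, 5), (9, 2, 4), (10, 8, 1), (19, 6, 5)],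
   [(2, 5, 6), (11, 3, 6), (14, 9, 3), (7, 5, 7), (22, 10, 7), (13, 7, 1), (12, 7, 2), (23, 10, 4)],
   [(23, 11, 3), (12, 8, 5), (13, 8, 6), (22, 11, 0), (7, 9, 0), (14, 6, 4), (11, 5, 1), (2, 9, 1)]]

theorem sf88 : SurfFor W88 :=
  surfFor_of_table (T := T88) (lam := [0, 11, 13, 7, 12, 4, 10, 14, 8, 9, 5, 3, 6, 2, 1]) (rows := rows88)
    (by decide +kernel) (by decide +kernel) (by decide +kernel) (by decide +kernel)

/-- the multiplication table of presentation 89 -/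
def W89 : ℕ :=
  7924417968265010369830358967001693652826313990300423143925279393689212510651952448959902142648971576055003527558126657054251909794972174336303010164658888035692995091206952329148486475962603777878401659470609123768443485084414806323079660334386233888954471911907324329985

/-- a surface for presentation 89 -/
def rows89 : List (List (ℕ × ℕ × ℕ)) :=
  [[(4, 1, 0), (19, 2, 3), (28, 1, 4), (1, 3, 0), (18, 2, 6), (13, 3, 4), (16, 3, 7), (21, 1, 7)],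
   [(5, 0, 0), (24, 1, 6), (17, 2, 1), (2, 3, 1), (29, 0, 2), (12, 2, 2), (25, 1, 1), (20, 0, 7), (3, 3, 6), (0, 2, 4)],
   [(21, 3, 2), (16, 1, 2), (13, 1, 5), (18, 0, 1), (1, 1, 9), (28, 3, 5), (19, 0, 4), (4, 3, 9)],
   [(0, 0, 3), (3, 1, 3), (20, 2, 0), (25, 3, 8), (12, 0, 5), (29, 2, 5), (2, 1, 8), (17, 0, 6), (24, 3, 3), (5, 2, 7)]]

theorem sf89 : SurfFor W89 :=
  surfFor_of_table (T := T89) (lam := [0, 1, 2, 9, 4, 10, 11, 7, 5, 6, 8, 14, 13, 12, 3]) (rows := rows89)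
    (by decide +kernel) (by decide +kernel) (by decide +kernel) (by decide +kernel)

/-- the multiplication table of presentation 90 -/
def W90 : ℕ :=
  3054414573127406206425440560005600342528472882372832425552889302140702331863358888327581525542334103008839958107488379442752048325907629782600129195396637733003210578009072556400803337781502693310688381173745190374551521494113250833835712283129222619651289942851585

/-- a surface for presentation 90 -/
def rows90 : List (List (ℕ × ℕ × ℕ)) :=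
  [[(0, 1, 1), (1, 2, 0), (28, 3, 3), (11, 2, 4), (10, 1, 3), (19, 4, 2), (26, 3, 7), (17, 4, 4)],
   [(0, 2, 1), (1, 0, 0), (28, 4, 3), (11, 0, 4), (10, 2, 3), (19, 5, 2), (26, 4, 7), (17, 5, 4)],
   [(0, 0, 1), (1, 1, 0), (28, 5, 3), (11, 1, 4), (10, 0, 3), (19, 3, 2), (26, 5, 7), (17, 3, 4)],
   [(0, 4, 1), (1, 5, 0), (18, 2, 5), (29, 0, 2), (16, 2, 7), (25, 5, 6), (24, 4, 5), (27, 0, 6)],
   [(0, 5, 1), (1, 3, 0), (18, 0, 5), (29, 1, 2), (16, 0, 7), (25, 3, 6), (24, 5, 5), (27, 1, 6)],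
   [(0, 3, 1), (1, 4, 0), (18, 1, 5), (29, 2, 2), (16, 1, 7), (25, 4, 6), (24, 3, 5), (27, 2, 6)]]

theorem sf90 : SurfFor W90 :=
  surfFor_of_table (T := T90) (lam := [0, 10, 7, 13, 4, 6, 3, 8, 1, 9, 14, 12, 5, 2, 11]) (rows := rows90)
    (by decide +kernel) (by decide +kernel) (by decide +kernel) (by decide +kernel)

/-- the multiplication table of presentation 91 -/
def W91 : ℕ :=
  2063650552128622164119049838747111493218835031487155872271932929456257009387854673634334020258525692496447077476899408847960637131490822358601886465273932521767697875045477055632730136391583631433513648519503085923437544052777529336856834264175082093143020856487706625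

/-- a surface for presentation 91 -/
def rows91 : List (List (ℕ × ℕ × ℕ)) :=
  [[(2, 1, 1), (3, 2, 0), (24, 1, 3), (25, 2, 2), (22, 1, 9), (7, 2, 6), (6, 1, 5), (27, 2, 8), (26, 1, 7), (23, 2, 4)],
   [(2, 2, 1), (3, 0, 0), (24, 2, 3), (25, 0, 2), (22, 2, 9), (7, 0, 6), (6, 2, 5), (27, 0, 8), (26, 2, 7), (23, 0, 4)],
   [(2, 0, 1), (3, 1, 0), (24, 0, 3), (25, 1, 2), (22, 0, 9), (7, 1, 6), (6, 0, 5), (27, 1, 8), (26, 0, 7), (23, 1, 4)]]

theorem sf91 : SurfFor W91 :=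
  surfFor_of_table (T := T91) (lam := [0, 5, 3, 10, 6, 13, 14, 11, 7, 8, 1, 4, 2, 9, 12]) (rows := rows91)
    (by decide +kernel) (by decide +kernel) (by decide +kernel) (by decide +kernel)

/-- the multiplication table of presentation 92 -/
def W92 : ℕ :=
  3528718855715025614146534790025136324251592096394316878560547066283436341014083256462715600533269341320619052522523781626701650797771040465778878822043235264349597317415483374887100555844663061154506243099662892986084183877607972897426296081336345747653795894001665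

/-- a surface for presentation 92 -/
def rows92 : List (List (ℕ × ℕ × ℕ)) :=
  [[(4, 1, 3), (5, 2, 7), (16, 3, 4), (3, 4, 0), (6, 5, 1), (23, 6, 8), (26, 7, 3), (11, 8, 4), (14, 9, 3), (27, 3, 1)],
   [(2, 10, 8), (9, 11, 0), (16, 2, 0), (5, 0, 0), (20, 3, 0), (19, 12, 1), (12, 13, 5), (13, 14, 9)],
   [(17, 1, 2), (28, 11, 7), (13, 15, 1), (12, 16, 9), (19, 14, 3), (20, 7, 7), (5, 3, 5), (4, 0, 1)],
   [(21, 1, 4), (26, 0, 9), (23, 9, 2), (10, 4, 1), (17, 0, 2), (4, 2, 6), (27, 7, 6), (22, 4, 3), (15, 9, 0), (0, 12, 2)],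
   [(2, 0, 3), (11, 3, 3), (26, 9, 1), (23, 3, 7), (10, 7, 5), (25, 6, 6), (8, 8, 1), (19, 17, 1), (12, 11, 3), (13, 5, 2)],
   [(6, 6, 9), (7, 0, 4), (12, 4, 9), (13, 11, 2), (28, 10, 6), (17, 17, 3), (10, 8, 7), (23, 16, 2)],
   [(6, 16, 1), (3, 15, 7), (18, 12, 6), (29, 18, 3), (8, 9, 5), (25, 8, 2), (24, 4, 5), (15, 7, 4), (22, 0, 5), (7, 5, 0)],
   [(0, 14, 2), (15, 16, 4), (22, 8, 5), (27, 0, 6), (14, 6, 7), (11, 4, 4), (26, 3, 6), (21, 2, 5)],
   [(2, 17, 2), (9, 4, 6), (24, 6, 5), (25, 9, 4), (10, 0, 7), (23, 7, 2), (26, 16, 3), (11, 5, 6)],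
   [(14, 3, 8), (27, 4, 2), (22, 3, 2), (15, 0, 8), (24, 8, 3), (9, 6, 4), (16, 18, 2), (3, 19, 7), (18, 20, 2), (29, 12, 3)],
   [(7, 18, 7), (22, 21, 4), (15, 22, 3), (24, 20, 4), (25, 19, 5), (8, 17, 4), (29, 5, 4), (18, 11, 1), (3, 1, 0), (6, 14, 8)],
   [(8, 1, 1), (19, 10, 7), (12, 5, 3), (13, 4, 8), (28, 17, 0), (1, 23, 0), (18, 15, 2), (29, 2, 1)],
   [(29, 13, 6), (18, 1, 5), (1, 3, 9), (28, 9, 9), (13, 20, 1), (12, 18, 4), (19, 6, 2), (8, 15, 6)],
   [(4, 21, 8), (5, 23, 4), (20, 22, 0), (19, 16, 6), (12, 14, 0), (13, 1, 6), (28, 12, 0), (17, 15, 5)],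
   [(13, 13, 4), (28, 16, 5), (1, 7, 0), (18, 2, 4), (29, 16, 8), (14, 22, 6), (27, 19, 1), (22, 18, 0), (7, 10, 9), (12, 1, 7)],
   [(13, 16, 0), (12, 2, 2), (19, 11, 6), (20, 23, 9), (5, 21, 9), (16, 13, 7), (9, 12, 7), (2, 6, 1)],
   [(12, 15, 0), (7, 6, 0), (22, 5, 7), (27, 8, 6), (14, 7, 1), (29, 14, 1), (18, 13, 3), (1, 22, 7), (28, 14, 4), (13, 2, 3)],
   [(29, 11, 4), (18, 4, 7), (3, 8, 0), (16, 5, 5), (9, 10, 5), (24, 19, 4), (15, 21, 1), (22, 23, 7), (27, 20, 7), (14, 23, 1)],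
   [(23, 14, 7), (10, 19, 0), (17, 9, 6), (28, 6, 3), (13, 12, 5), (12, 20, 0), (7, 21, 5), (6, 10, 0)],
   [(11, 18, 1), (26, 14, 6), (23, 22, 5), (10, 21, 2), (25, 17, 5), (24, 10, 4), (9, 20, 3), (2, 9, 7)],
   [(13, 18, 5), (12, 12, 4), (19, 9, 8), (8, 19, 6), (25, 10, 3), (10, 22, 2), (23, 23, 2), (26, 17, 8), (11, 23, 6), (2, 21, 6)],
   [(27, 23, 8), (14, 17, 6), (11, 19, 3), (26, 22, 4), (23, 10, 1), (6, 18, 6), (3, 20, 9), (16, 23, 5), (5, 13, 0), (4, 15, 4)],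
   [(21, 13, 2), (26, 23, 3), (11, 20, 5), (14, 10, 2), (27, 21, 3), (22, 19, 2), (15, 14, 5), (0, 16, 7)],
   [(0, 11, 5), (15, 17, 9), (22, 20, 6), (27, 22, 1), (4, 13, 1), (17, 21, 7), (10, 20, 8), (23, 17, 7), (26, 21, 0), (21, 15, 3)]]

theorem sf92 : SurfFor W92 :=
  surfFor_of_table (T := T92) (lam := [0, 11, 8, 10, 5, 4, 3, 2, 6, 13, 1, 9, 12, 7, 14]) (rows := rows92)
    (by decide +kernel) (by decide +kernel) (by decide +kernel) (by decide +kernel)

end Pool.Agent.TriSurf
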