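import Pool.Agent.TriSurf.EnAllG
import Pool.Agent.TriSurf.GQLink
import Pool.Agent.TriSurf.SurfA0
import Pool.Agent.TriSurf.SurfA1
import Pool.Agent.TriSurf.SurfA2
import Pool.Agent.TriSurf.SurfA3
import Pool.Agent.TriSurf.SurfB0
import Pool.Agent.TriSurf.SurfB1
import Pool.Agent.TriSurf.SurfB2
import Pool.Agent.TriSurf.SurfB3
import Pool.Agent.TriSurf.SurfB4
import Pool.Agent.TriSurf.SurfB5
import Pool.Agent.TriSurf.SurfB6
import Pool.Agent.TriSurf.SurfB7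
import Pool.Agent.TriSurf.SurfB8
import Pool.Agent.TriSurf.SurfB9
import Pool.Agent.TriSurf.SurfB10
import Pool.Agent.TriSurf.SurfB11
import Pool.Agent.TriSurf.SurfB12
import Pool.Agent.TriSurf.SurfB13
import Pool.Agent.TriSurf.SurfB14
import Pool.Agent.TriSurf.SurfB15
import Pool.Agent.TriSurf.SurfB16
import Pool.Agent.TriSurf.SurfB17
import Pool.Agent.TriSurf.SurfB18
import Pool.Agent.TriSurf.SurfB19
import Pool.Agent.TriSurf.SurfB20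
import Pool.Agent.TriSurf.SurfB21
import Pool.Agent.TriSurf.SurfB22
import Pool.Agent.TriSurf.SurfB23
import Pool.Agent.TriSurf.SurfB24

/-!
# The surfaces of all members of the list
-/

set_option autoImplicit false
set_option maxRecDepth 100000

namespace Pool.Agent.TriSurf

theorem sfAllG : ∀ V ∈ En.WTG, SurfFor V := by
  unfold En.WTG
  refine List.forall_mem_cons.2 ⟨sf0, ?_⟩
  refine List.forall_mem_cons.2 ⟨sf1, ?_⟩
  refine List.forall_mem_cons.2 ⟨sf2, ?_⟩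
  refine List.forall_mem_cons.2 ⟨sf3, ?_⟩
  refine List.forall_mem_cons.2 ⟨sf4, ?_⟩
  refine List.forall_mem_cons.2 ⟨sf5, ?_⟩
  refine List.forall_mem_cons.2 ⟨sf6, ?_⟩
  refine List.forall_mem_cons.2 ⟨sf7, ?_⟩
  refine List.forall_mem_cons.2 ⟨sf8, ?_⟩
  refine List.forall_mem_cons.2 ⟨sf9, ?_⟩
  refine List.forall_mem_cons.2 ⟨sf10, ?_⟩
  refine List.forall_mem_cons.2 ⟨sf11, ?_⟩
  refine List.forall_mem_cons.2 ⟨sf12, ?_⟩
  refine List.forall_mem_cons.2 ⟨sf13, ?_⟩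
  refine List.forall_mem_cons.2 ⟨sf14, ?_⟩
  refine List.forall_mem_cons.2 ⟨sf15, ?_⟩
  refine List.forall_mem_cons.2 ⟨sf16, ?_⟩
  refine List.forall_mem_cons.2 ⟨sf17, ?_⟩
  refine List.forall_mem_cons.2 ⟨sf18, ?_⟩
  refine List.forall_mem_cons.2 ⟨sf19, ?_⟩
  refine List.forall_mem_cons.2 ⟨sf20, ?_⟩
  refine List.forall_mem_cons.2 ⟨sf21, ?_⟩
  refine List.forall_mem_cons.2 ⟨sf22, ?_⟩
  refine List.forall_mem_cons.2 ⟨sf23, ?_⟩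
  refine List.forall_mem_cons.2 ⟨sf24, ?_⟩
  refine List.forall_mem_cons.2 ⟨sf25, ?_⟩
  refine List.forall_mem_cons.2 ⟨sf26, ?_⟩
  refine List.forall_mem_cons.2 ⟨sf27, ?_⟩
  refine List.forall_mem_cons.2 ⟨sf28, ?_⟩
  refine List.forall_mem_cons.2 ⟨sf29, ?_⟩
  refine List.forall_mem_cons.2 ⟨sf30, ?_⟩
  refine List.forall_mem_cons.2 ⟨sf31, ?_⟩
  refine List.forall_mem_cons.2 ⟨sf32, ?_⟩
  refine List.forall_mem_cons.2 ⟨sf33, ?_⟩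
  refine List.forall_mem_cons.2 ⟨sf34, ?_⟩
  refine List.forall_mem_cons.2 ⟨sf35, ?_⟩
  refine List.forall_mem_cons.2 ⟨sf36, ?_⟩
  refine List.forall_mem_cons.2 ⟨sf37, ?_⟩
  refine List.forall_mem_cons.2 ⟨sf38, ?_⟩
  refine List.forall_mem_cons.2 ⟨sf39, ?_⟩
  refine List.forall_mem_cons.2 ⟨sf40, ?_⟩
  refine List.forall_mem_cons.2 ⟨sf41, ?_⟩
  refine List.forall_mem_cons.2 ⟨sf42, ?_⟩
  refine List.forall_mem_cons.2 ⟨sf43, ?_⟩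
  refine List.forall_mem_cons.2 ⟨sf44, ?_⟩
  refine List.forall_mem_cons.2 ⟨sf45, ?_⟩
  refine List.forall_mem_cons.2 ⟨sf46, ?_⟩
  refine List.forall_mem_cons.2 ⟨sf47, ?_⟩
  refine List.forall_mem_cons.2 ⟨sf48, ?_⟩
  refine List.forall_mem_cons.2 ⟨sf49, ?_⟩
  refine List.forall_mem_cons.2 ⟨sf50, ?_⟩
  refine List.forall_mem_cons.2 ⟨sf51, ?_⟩
  refine List.forall_mem_cons.2 ⟨sf52, ?_⟩
  refine List.forall_mem_cons.2 ⟨sf53, ?_⟩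
  refine List.forall_mem_cons.2 ⟨sf54, ?_⟩
  refine List.forall_mem_cons.2 ⟨sf55, ?_⟩
  refine List.forall_mem_cons.2 ⟨sf56, ?_⟩
  refine List.forall_mem_cons.2 ⟨sf57, ?_⟩
  refine List.forall_mem_cons.2 ⟨sf58, ?_⟩
  refine List.forall_mem_cons.2 ⟨sf59, ?_⟩
  refine List.forall_mem_cons.2 ⟨sf60, ?_⟩
  refine List.forall_mem_cons.2 ⟨sf61, ?_⟩
  refine List.forall_mem_cons.2 ⟨sf62, ?_⟩
  refine List.forall_mem_cons.2 ⟨sf63, ?_⟩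
  refine List.forall_mem_cons.2 ⟨sf64, ?_⟩
  refine List.forall_mem_cons.2 ⟨sf65, ?_⟩
  refine List.forall_mem_cons.2 ⟨sf66, ?_⟩
  refine List.forall_mem_cons.2 ⟨sf67, ?_⟩
  refine List.forall_mem_cons.2 ⟨sf68, ?_⟩
  refine List.forall_mem_cons.2 ⟨sf69, ?_⟩
  refine List.forall_mem_cons.2 ⟨sf70, ?_⟩
  refine List.forall_mem_cons.2 ⟨sf71, ?_⟩
  refine List.forall_mem_cons.2 ⟨sf72, ?_⟩
  refine List.forall_mem_cons.2 ⟨sf73, ?_⟩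
  refine List.forall_mem_cons.2 ⟨sf74, ?_⟩
  refine List.forall_mem_cons.2 ⟨sf75, ?_⟩
  refine List.forall_mem_cons.2 ⟨sf76, ?_⟩
  refine List.forall_mem_cons.2 ⟨sf77, ?_⟩
  refine List.forall_mem_cons.2 ⟨sf78, ?_⟩
  refine List.forall_mem_cons.2 ⟨sf79, ?_⟩
  refine List.forall_mem_cons.2 ⟨sf80, ?_⟩
  refine List.forall_mem_cons.2 ⟨sf81, ?_⟩
  refine List.forall_mem_cons.2 ⟨sf82, ?_⟩
  refine List.forall_mem_cons.2 ⟨sf83, ?_⟩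
  refine List.forall_mem_cons.2 ⟨sf84, ?_⟩
  refine List.forall_mem_cons.2 ⟨sf85, ?_⟩
  refine List.forall_mem_cons.2 ⟨sf86, ?_⟩
  refine List.forall_mem_cons.2 ⟨sf87, ?_⟩
  refine List.forall_mem_cons.2 ⟨sf88, ?_⟩
  refine List.forall_mem_cons.2 ⟨sf89, ?_⟩
  refine List.forall_mem_cons.2 ⟨sf90, ?_⟩
  refine List.forall_mem_cons.2 ⟨sf91, ?_⟩
  refine List.forall_mem_cons.2 ⟨sf92, ?_⟩
  refine List.forall_mem_cons.2 ⟨sf93, ?_⟩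
  refine List.forall_mem_cons.2 ⟨sf94, ?_⟩
  refine List.forall_mem_cons.2 ⟨sf95, ?_⟩
  refine List.forall_mem_cons.2 ⟨sf96, ?_⟩
  refine List.forall_mem_cons.2 ⟨sf97, ?_⟩
  refine List.forall_mem_cons.2 ⟨sf98, ?_⟩
  refine List.forall_mem_cons.2 ⟨sf99, ?_⟩
  refine List.forall_mem_cons.2 ⟨sf100, ?_⟩
  refine List.forall_mem_cons.2 ⟨sf101, ?_⟩
  refine List.forall_mem_cons.2 ⟨sf102, ?_⟩
  refine List.forall_mem_cons.2 ⟨sf103, ?_⟩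
  refine List.forall_mem_cons.2 ⟨sf104, ?_⟩
  refine List.forall_mem_cons.2 ⟨sf105, ?_⟩
  refine List.forall_mem_cons.2 ⟨sf106, ?_⟩
  refine List.forall_mem_cons.2 ⟨sf107, ?_⟩
  refine List.forall_mem_cons.2 ⟨sf108, ?_⟩
  refine List.forall_mem_cons.2 ⟨sf109, ?_⟩
  refine List.forall_mem_cons.2 ⟨sf110, ?_⟩
  refine List.forall_mem_cons.2 ⟨sf111, ?_⟩
  refine List.forall_mem_cons.2 ⟨sf112, ?_⟩
  refine List.forall_mem_cons.2 ⟨sf113, ?_⟩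
  refine List.forall_mem_cons.2 ⟨sf114, ?_⟩
  refine List.forall_mem_cons.2 ⟨sf115, ?_⟩
  refine List.forall_mem_cons.2 ⟨sf116, ?_⟩
  refine List.forall_mem_cons.2 ⟨sf117, ?_⟩
  refine List.forall_mem_cons.2 ⟨sf118, ?_⟩
  refine List.forall_mem_cons.2 ⟨sf119, ?_⟩
  refine List.forall_mem_cons.2 ⟨sf120, ?_⟩
  refine List.forall_mem_cons.2 ⟨sf121, ?_⟩
  refine List.forall_mem_cons.2 ⟨sf122, ?_⟩
  refine List.forall_mem_cons.2 ⟨sf123, ?_⟩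
  refine List.forall_mem_cons.2 ⟨sf124, ?_⟩
  refine List.forall_mem_cons.2 ⟨sf125, ?_⟩
  refine List.forall_mem_cons.2 ⟨sf126, ?_⟩
  refine List.forall_mem_cons.2 ⟨sf127, ?_⟩
  refine List.forall_mem_cons.2 ⟨sf128, ?_⟩
  refine List.forall_mem_cons.2 ⟨sf129, ?_⟩
  refine List.forall_mem_cons.2 ⟨sf130, ?_⟩
  refine List.forall_mem_cons.2 ⟨sf131, ?_⟩
  refine List.forall_mem_cons.2 ⟨sf132, ?_⟩
  refine List.forall_mem_cons.2 ⟨sf133, ?_⟩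
  refine List.forall_mem_cons.2 ⟨sf134, ?_⟩
  refine List.forall_mem_cons.2 ⟨sf135, ?_⟩
  refine List.forall_mem_cons.2 ⟨sf136, ?_⟩
  refine List.forall_mem_cons.2 ⟨sf137, ?_⟩
  refine List.forall_mem_cons.2 ⟨sf138, ?_⟩
  refine List.forall_mem_cons.2 ⟨sf139, ?_⟩
  refine List.forall_mem_cons.2 ⟨sf140, ?_⟩
  refine List.forall_mem_cons.2 ⟨sf141, ?_⟩
  refine List.forall_mem_cons.2 ⟨sf142, ?_⟩
  refine List.forall_mem_cons.2 ⟨sf143, ?_⟩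
  refine List.forall_mem_cons.2 ⟨sf144, ?_⟩
  refine List.forall_mem_cons.2 ⟨sf145, ?_⟩
  refine List.forall_mem_cons.2 ⟨sf146, ?_⟩
  refine List.forall_mem_cons.2 ⟨sf147, ?_⟩
  refine List.forall_mem_cons.2 ⟨sf148, ?_⟩
  refine List.forall_mem_cons.2 ⟨sf149, ?_⟩
  refine List.forall_mem_cons.2 ⟨sf150, ?_⟩
  refine List.forall_mem_cons.2 ⟨sf151, ?_⟩
  refine List.forall_mem_cons.2 ⟨sf152, ?_⟩
  refine List.forall_mem_cons.2 ⟨sf153, ?_⟩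
  refine List.forall_mem_cons.2 ⟨sf154, ?_⟩
  refine List.forall_mem_cons.2 ⟨sf155, ?_⟩
  refine List.forall_mem_cons.2 ⟨sf156, ?_⟩
  refine List.forall_mem_cons.2 ⟨sf157, ?_⟩
  refine List.forall_mem_cons.2 ⟨sf158, ?_⟩
  refine List.forall_mem_cons.2 ⟨sf159, ?_⟩
  refine List.forall_mem_cons.2 ⟨sf160, ?_⟩
  refine List.forall_mem_cons.2 ⟨sf161, ?_⟩
  refine List.forall_mem_cons.2 ⟨sf162, ?_⟩
  refine List.forall_mem_cons.2 ⟨sf163, ?_⟩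
  refine List.forall_mem_cons.2 ⟨sf164, ?_⟩
  refine List.forall_mem_cons.2 ⟨sf165, ?_⟩
  refine List.forall_mem_cons.2 ⟨sf166, ?_⟩
  refine List.forall_mem_cons.2 ⟨sf167, ?_⟩
  refine List.forall_mem_cons.2 ⟨sf168, ?_⟩
  refine List.forall_mem_cons.2 ⟨sf169, ?_⟩
  refine List.forall_mem_cons.2 ⟨sf170, ?_⟩
  refine List.forall_mem_cons.2 ⟨sf171, ?_⟩
  refine List.forall_mem_cons.2 ⟨sf172, ?_⟩
  refine List.forall_mem_cons.2 ⟨sf173, ?_⟩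
  refine List.forall_mem_cons.2 ⟨sf174, ?_⟩
  refine List.forall_mem_cons.2 ⟨sf175, ?_⟩
  refine List.forall_mem_cons.2 ⟨sf176, ?_⟩
  refine List.forall_mem_cons.2 ⟨sf177, ?_⟩
  refine List.forall_mem_cons.2 ⟨sf178, ?_⟩
  refine List.forall_mem_cons.2 ⟨sf179, ?_⟩
  refine List.forall_mem_cons.2 ⟨sf180, ?_⟩
  refine List.forall_mem_cons.2 ⟨sf181, ?_⟩
  refine List.forall_mem_cons.2 ⟨sf182, ?_⟩
  refine List.forall_mem_cons.2 ⟨sf183, ?_⟩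
  refine List.forall_mem_cons.2 ⟨sf184, ?_⟩
  refine List.forall_mem_cons.2 ⟨sf185, ?_⟩
  refine List.forall_mem_cons.2 ⟨sf186, ?_⟩
  refine List.forall_mem_cons.2 ⟨sf187, ?_⟩
  refine List.forall_mem_cons.2 ⟨sf188, ?_⟩
  refine List.forall_mem_cons.2 ⟨sf189, ?_⟩
  refine List.forall_mem_cons.2 ⟨sf190, ?_⟩
  refine List.forall_mem_cons.2 ⟨sf191, ?_⟩
  exact List.forall_mem_nil _

end Pool.Agent.TriSurf
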