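import Pool.Agent.TriSurf.Ext

/-!
# Full completion

The union of the iterated extensions is a full action.
-/

set_option autoImplicit false

namespace Pool.Agent.TriSurf

namespace PAct

variable {Λ : Loc} (P : PAct Λ)

/-- iterated extension -/
def it : ℕ → PAct Λ
  | 0 => P
  | n + 1 => (it n).ext

/-- all vertices that occur -/
def Y : Type := P.V ⊕ (Σ n, (P.it n).Q)

/-- the vertices of the `n`-th extension as elements of `Y` -/
def io : (n : ℕ) → (P.it n).V → P.Y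
  | 0, v => Sum.inl v
  | n + 1, v => Sum.elim (fun w => io n w) (fun q => Sum.inr ⟨n, q⟩) v

theorem io_lt (n : ℕ) (v : (P.it n).V) (k : ℕ) (q : (P.it k).Q) (h : P.io n v = Sum.inr ⟨k, q⟩) :
    k < n := by
  induction n with
  | zero => simp [io] at h
  | succ n ih =>
    rcases (v : (P.it n).V ⊕ (P.it n).Q) with w | r
    · exact (ih w h).trans (Nat.lt_succ_self n)
    · have h' : (Sum.inr ⟨n, r⟩ : P.Y) = Sum.inr ⟨k, q⟩ := h
      have h2 := Sum.inr.inj h'
      have h3 : n = k := congrArg Sigma.fst h2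
      omega

theorem io_inj (n : ℕ) : Function.Injective (P.io n) := by
  induction n with
  | zero =>
    intro v w h
    exact Sum.inl.inj h
  | succ n ih =>
    intro v w h
    rcases (v : (P.it n).V ⊕ (P.it n).Q) with v | q <;>
      rcases (w : (P.it n).V ⊕ (P.it n).Q) with w | r
    · exact congrArg Sum.inl (ih h)
    · exact absurd (P.io_lt n v n r h) (lt_irrefl n)
    · exact absurd (P.io_lt n w n q h.symm) (lt_irrefl n)
    · have h' : (Sum.inr ⟨n, q⟩ : P.Y) = Sum.inr ⟨n, r⟩ := h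
      have h2 := Sum.inr.inj h'
      have h3 : q = r := eq_of_heq (Sigma.mk.inj h2).2
      exact congrArg Sum.inr h3

theorem io_surj (y : P.Y) : ∃ n v, P.io n v = y := by
  rcases y with v | ⟨n, q⟩
  · exact ⟨0, v, rfl⟩
  · exact ⟨n + 1, (Sum.inr q : (P.it n).V ⊕ (P.it n).Q), rfl⟩

theorem io_le {n m : ℕ} (h : n ≤ m) (v : (P.it n).V) : ∃ v', P.io m v' = P.io n v := by
  induction h with
  | refl => exact ⟨v, rfl⟩
  | step h ih =>
    obtain ⟨v', hv'⟩ := ih
    exact ⟨Sum.inl v', hv'⟩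

theorem io_E {n m : ℕ} (h : n ≤ m) (v w : (P.it n).V) (a : Λ.L) (hE : (P.it n).E v a w) :
    ∃ v' w', P.io m v' = P.io n v ∧ P.io m w' = P.io n w ∧ (P.it m).E v' a w' := by
  induction h with
  | refl => exact ⟨v, w, rfl, rfl, hE⟩
  | step h ih =>
    obtain ⟨v', w', h1, h2, h3⟩ := ih
    exact ⟨Sum.inl v', Sum.inl w', h1, h2, h3⟩

/-- edges of the union -/
def EY (y : P.Y) (a : Λ.L) (z : P.Y) : Prop :=
  ∃ n v w, P.io n v = y ∧ P.io n w = z ∧ (P.it n).E v a w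

theorem EY_lift {y z : P.Y} {a : Λ.L} (h : P.EY y a z) :
    ∃ n, ∀ m, n ≤ m → ∃ v w, P.io m v = y ∧ P.io m w = z ∧ (P.it m).E v a w := by
  obtain ⟨n, v, w, h1, h2, h3⟩ := h
  refine ⟨n, fun m hm => ?_⟩
  obtain ⟨v', w', k1, k2, k3⟩ := P.io_E hm v w a h3
  exact ⟨v', w', k1.trans h1, k2.trans h2, k3⟩

theorem EY_det {y z z' : P.Y} {a : Λ.L} (h : P.EY y a z) (h' : P.EY y a z') : z = z' := by
  obtain ⟨n, hn⟩ := P.EY_lift h
  obtain ⟨n', hn'⟩ := P.EY_lift h'
  obtain ⟨v, w, h1, h2, h3⟩ := hn (max n n') (le_max_left _ _)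
  obtain ⟨v', w', k1, k2, k3⟩ := hn' (max n n') (le_max_right _ _)
  have : v = v' := P.io_inj _ (h1.trans k1.symm)
  subst this
  rw [← h2, ← k2, (P.it _).det _ _ _ _ h3 k3]

theorem EY_sym {y z : P.Y} {a : Λ.L} (h : P.EY y a z) : P.EY z (Λ.inv a) y := by
  obtain ⟨n, v, w, h1, h2, h3⟩ := h
  exact ⟨n, w, v, h2, h1, (P.it n).sym _ _ _ h3⟩

theorem EY_tri {s u w : P.Y} {a b c : Λ.L} (hM : Λ.M a b c) (h : P.EY s a u) (h' : P.EY s b w) :
    P.EY u c w := by
  obtain ⟨n, hn⟩ := P.EY_lift h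
  obtain ⟨n', hn'⟩ := P.EY_lift h'
  obtain ⟨s0, u0, h1, h2, h3⟩ := hn (max n n') (le_max_left _ _)
  obtain ⟨s1, w0, k1, k2, k3⟩ := hn' (max n n') (le_max_right _ _)
  have : s0 = s1 := P.io_inj _ (h1.trans k1.symm)
  subst this
  exact ⟨max n n', u0, w0, h2, k2, (P.it _).tri _ _ _ _ _ _ hM h3 k3⟩

theorem EY_total (y : P.Y) (a : Λ.L) : ∃ z, P.EY y a z := by
  obtain ⟨n, v, rfl⟩ := P.io_surj y
  obtain ⟨z, hz⟩ := (P.it n).complete' v a
  exact ⟨P.io (n + 1) z, n + 1, Sum.inl v, z, rfl, rfl, hz⟩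

end PAct

/-- A locally convex partial action extends to a full action by permutations. -/
theorem exists_full {Λ : Loc} (P : PAct Λ) : ∃ (Y : Type) (io : P.V → Y) (p : Λ.L → Equiv.Perm Y),
    Function.Injective io ∧ (∀ a, p (Λ.inv a) = (p a)⁻¹) ∧
    (∀ v a w, P.E v a w → p a (io v) = io w) ∧
    (∀ a b c, Λ.M a b c → ∀ y, p c (p a y) = p b y) := by
  classical
  choose f hf using P.EY_total
  have hinv : ∀ a y, f (f y a) (Λ.inv a) = y := by
    intro a y
    exact P.EY_det (hf _ _) (P.EY_sym (hf y a))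
  have hinv' : ∀ a y, f (f y (Λ.inv a)) a = y := by
    intro a y
    have := hinv (Λ.inv a) y
    rwa [Λ.inv_inv] at this
  let p : Λ.L → Equiv.Perm P.Y := fun a => ⟨fun y => f y a, fun y => f y (Λ.inv a), hinv a, hinv' a⟩
  refine ⟨P.Y, P.io 0, p, P.io_inj 0, ?_, ?_, ?_⟩
  · intro a
    ext y
    rfl
  · intro v a w h
    exact P.EY_det (hf _ _) ⟨0, v, w, rfl, rfl, h⟩
  · intro a b c hM y
    exact P.EY_det (hf _ _) (P.EY_tri hM (hf y a) (hf y b))

end Pool.Agent.TriSurf
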