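import Pool.Agent.TriSurf.Surf

/-!
# The criterion: a certified locally convex surface gives a surface subgroup
-/

set_option autoImplicit false

namespace Pool.Agent.TriSurf

/-- A table of edges: `(i, x, j, w)` is an edge labelled `x` from vertex `i` to vertex `j`, with the word
`w` in the generators of the surface group. -/
abbrev Tab := List (ℕ × ℕ × ℕ × List ℕ)

/-- each vertex has at most one outgoing and at most one incoming edge with a given label -/
def chkDet (tab : Tab) : Bool :=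
  tab.all fun e => tab.all fun f =>
    (!(Nat.beq e.1 f.1 && Nat.beq e.2.1 f.2.1) || (Nat.beq e.2.2.1 f.2.2.1 && weq e.2.2.2 f.2.2.2)) &&
    (!(Nat.beq e.2.2.1 f.2.2.1 && Nat.beq e.2.1 f.2.1) || (Nat.beq e.1 f.1 && weq e.2.2.2 f.2.2.2))

/-- the word of the relator of the surface group -/
def Rw (g : ℕ) : List ℕ := (List.ofFn fun i : Fin g => [4 * i.1, 4 * i.1 + 2, 4 * i.1 + 1, 4 * i.1 + 3]).flatten

/-- words that are visibly trivial in the surface group -/
def triv (g : ℕ) (w : List ℕ) : Bool :=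
  weq (red w) [] || weq (red w) (Rw g) || weq (red w) (winv (Rw g))

/-- triangles close up, with trivial holonomy -/
def chkTri (g : ℕ) (l : List (ℕ × ℕ × ℕ)) (tab : Tab) : Bool :=
  tab.all fun e => tab.all fun f => !(Nat.beq e.2.2.1 f.1) ||
    l.all fun t => !(Nat.beq t.1 e.2.1 && Nat.beq t.2.1 f.2.1) ||
      tab.any fun d => Nat.beq d.1 f.2.2.1 && (Nat.beq d.2.1 t.2.2 && (Nat.beq d.2.2.1 e.1 &&
        (triv g (e.2.2.2 ++ f.2.2.2 ++ d.2.2.2) || triv g (f.2.2.2 ++ d.2.2.2 ++ e.2.2.2) ||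
          triv g (d.2.2.2 ++ e.2.2.2 ++ f.2.2.2))))

/-- membership in a list of numbers -/
def nmem (a : ℕ) : List ℕ → Bool
  | [] => false
  | b :: l => Nat.beq b a || nmem a l

/-- number of vertices -/
def nV : Tab → ℕ
  | [] => 0
  | e :: t => Nat.max (Nat.max (e.1 + 1) (e.2.2.1 + 1)) (nV t)

/-- labels of the edges from `j` -/
def outs (j : ℕ) : Tab → List ℕ
  | [] => []
  | e :: t => bif Nat.beq e.1 j then e.2.1 :: outs j t else outs j t

/-- labels of the edges to `j` -/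
def ins (j : ℕ) : Tab → List ℕ
  | [] => []
  | e :: t => bif Nat.beq e.2.2.1 j then e.2.1 :: ins j t else ins j t

/-- pairs of distinct predecessors -/
def preds (l : List (ℕ × ℕ × ℕ)) : List (ℕ × ℕ × ℕ) :=
  l.flatMap fun t => (l.filter fun u => Nat.beq u.2.1 t.2.1 && !Nat.beq u.1 t.1).map fun u =>
    (t.1, u.1, t.2.1)

/-- pairs of distinct successors -/
def succs (l : List (ℕ × ℕ × ℕ)) : List (ℕ × ℕ × ℕ) :=
  l.flatMap fun t => (l.filter fun u => Nat.beq u.1 t.1 && !Nat.beq u.2.1 t.2.1).map fun u =>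
    (t.2.1, u.2.1, t.1)

/-- local convexity -/
def chkConv (l : List (ℕ × ℕ × ℕ)) (tab : Tab) : Bool :=
  (List.range (nV tab)).all fun j =>
    ((preds l).all fun p => !(nmem p.1 (ins j tab)) || (!(nmem p.2.1 (ins j tab)) ||
      nmem p.2.2 (outs j tab))) &&
    ((succs l).all fun p => !(nmem p.1 (outs j tab)) || (!(nmem p.2.1 (outs j tab)) ||
      nmem p.2.2 (ins j tab)))

theorem nmem_iff {a : ℕ} {l : List ℕ} : nmem a l = true ↔ a ∈ l := by
  induction l with
  | nil => simp [nmem]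
  | cons b l ih =>
    rw [nmem, Bool.or_eq_true, ih, List.mem_cons]
    constructor
    · rintro (h | h)
      · exact Or.inl (Nat.eq_of_beq_eq_true h).symm
      · exact Or.inr h
    · rintro (h | h)
      · subst h; exact Or.inl (Nat.beq_refl a)
      · exact Or.inr h

theorem mem_outs {j x : ℕ} {tab : Tab} : x ∈ outs j tab ↔ ∃ m w, (j, x, m, w) ∈ tab := by
  induction tab with
  | nil => simp [outs]
  | cons e t ih =>
    rw [outs]
    cases h : Nat.beq e.1 j with
    | true =>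
      have h' := Nat.eq_of_beq_eq_true h
      rw [cond_true, List.mem_cons, ih]
      constructor
      · rintro (h1 | ⟨m, w, h1⟩)
        · refine ⟨e.2.2.1, e.2.2.2, ?_⟩
          rw [← h', h1]; exact List.mem_cons_self
        · exact ⟨m, w, List.mem_cons_of_mem _ h1⟩
      · rintro ⟨m, w, h1⟩
        rcases List.mem_cons.1 h1 with h2 | h2
        · left; rw [← h2]
        · exact Or.inr ⟨m, w, h2⟩
    | false =>
      rw [cond_false, ih]
      constructor
      · rintro ⟨m, w, h1⟩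
        exact ⟨m, w, List.mem_cons_of_mem _ h1⟩
      · rintro ⟨m, w, h1⟩
        rcases List.mem_cons.1 h1 with h2 | h2
        · exfalso
          rw [← h2] at h
          simp at h
        · exact ⟨m, w, h2⟩

theorem mem_ins {j x : ℕ} {tab : Tab} : x ∈ ins j tab ↔ ∃ m w, (m, x, j, w) ∈ tab := by
  induction tab with
  | nil => simp [ins]
  | cons e t ih =>
    rw [ins]
    cases h : Nat.beq e.2.2.1 j with
    | true =>
      have h' := Nat.eq_of_beq_eq_true h
      rw [cond_true, List.mem_cons, ih]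
      constructor
      · rintro (h1 | ⟨m, w, h1⟩)
        · refine ⟨e.1, e.2.2.2, ?_⟩
          rw [← h', h1]; exact List.mem_cons_self
        · exact ⟨m, w, List.mem_cons_of_mem _ h1⟩
      · rintro ⟨m, w, h1⟩
        rcases List.mem_cons.1 h1 with h2 | h2
        · left; rw [← h2]
        · exact Or.inr ⟨m, w, h2⟩
    | false =>
      rw [cond_false, ih]
      constructor
      · rintro ⟨m, w, h1⟩
        exact ⟨m, w, List.mem_cons_of_mem _ h1⟩
      · rintro ⟨m, w, h1⟩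
        rcases List.mem_cons.1 h1 with h2 | h2
        · exfalso
          rw [← h2] at h
          simp at h
        · exact ⟨m, w, h2⟩

theorem lt_nV {i x j : ℕ} {w : List ℕ} {tab : Tab} (h : (i, x, j, w) ∈ tab) :
    i < nV tab ∧ j < nV tab := by
  induction tab with
  | nil => simp at h
  | cons e t ih =>
    have h0 : nV (e :: t) = max (max (e.1 + 1) (e.2.2.1 + 1)) (nV t) := rfl
    rw [h0]
    rcases List.mem_cons.1 h with h2 | h2
    · rw [← h2]
      constructor
      · exact lt_of_lt_of_le (Nat.lt_succ_self i) ((le_max_left _ _).trans (le_max_left _ _))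
      · exact lt_of_lt_of_le (Nat.lt_succ_self j) ((le_max_right _ _).trans (le_max_left _ _))
    · obtain ⟨h3, h4⟩ := ih h2
      exact ⟨lt_of_lt_of_le h3 (le_max_right _ _), lt_of_lt_of_le h4 (le_max_right _ _)⟩

theorem chkDet_spec {tab : Tab} (h : chkDet tab = true) :
    (∀ i x j j' w w', (i, x, j, w) ∈ tab → (i, x, j', w') ∈ tab → j = j' ∧ w = w') ∧
    (∀ i i' x j w w', (i, x, j, w) ∈ tab → (i', x, j, w') ∈ tab → i = i' ∧ w = w') := by
  simp only [chkDet, List.all_eq_true, Bool.and_eq_true] at h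
  constructor
  · intro i x j j' w w' h1 h2
    have := (h _ h1 _ h2).1
    simp only [Nat.beq_refl, Bool.and_self, Bool.not_true, Bool.false_or, Bool.and_eq_true] at this
    exact ⟨Nat.eq_of_beq_eq_true this.1, weq_eq this.2⟩
  · intro i i' x j w w' h1 h2
    have := (h _ h1 _ h2).2
    simp only [Nat.beq_refl, Bool.and_self, Bool.not_true, Bool.false_or, Bool.and_eq_true] at this
    exact ⟨Nat.eq_of_beq_eq_true this.1, weq_eq this.2⟩

/-- the relator of the surface group holds -/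
theorem ev_Rw (g : ℕ) : ev (baseH g) (Rw g) = 1 := by
  have h0 : (PresentedGroup.mk (surfRel g)) (List.ofFn (fun i : Fin g =>
      FreeGroup.of (Sum.inl i : Fin g ⊕ Fin g) * FreeGroup.of (Sum.inr i : Fin g ⊕ Fin g) *
      (FreeGroup.of (Sum.inl i : Fin g ⊕ Fin g))⁻¹ *
      (FreeGroup.of (Sum.inr i : Fin g ⊕ Fin g))⁻¹)).prod = 1 :=
    PresentedGroup.one_of_mem rfl
  rw [map_list_prod, List.map_ofFn] at h0
  have h1 : ∀ L : List (List ℕ), ev (baseH g) L.flatten = (L.map (ev (baseH g))).prod := by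
    intro L
    induction L with
    | nil => rfl
    | cons a L ih => rw [List.flatten_cons, ev_append, ih, List.map_cons, List.prod_cons]
  rw [Rw, h1, List.map_ofFn, ← h0]
  congr 2
  funext i
  have e0 : (4 * i.1) / 2 = 2 * i.1 := by omega
  have e1 : (4 * i.1 + 2) / 2 = 2 * i.1 + 1 := by omega
  have e2 : (4 * i.1 + 1) / 2 = 2 * i.1 := by omega
  have e3 : (4 * i.1 + 3) / 2 = 2 * i.1 + 1 := by omega
  have b0 : baseH g (2 * i.1) = PresentedGroup.of (Sum.inl i) := by
    have : 2 * i.1 / 2 = i.1 := by omega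
    simp only [baseH, this, i.2, dif_pos]
    rw [if_pos (by omega)]
  have b1 : baseH g (2 * i.1 + 1) = PresentedGroup.of (Sum.inr i) := by
    have : (2 * i.1 + 1) / 2 = i.1 := by omega
    simp only [baseH, this, i.2, dif_pos]
    rw [if_neg (by omega)]
  simp only [Function.comp, ev_cons, ev_nil, evl, e0, e1, e2, e3, b0, b1, map_mul, map_inv]
  rw [if_pos (by omega), if_pos (by omega), if_neg (by omega), if_neg (by omega)]
  simp [PresentedGroup.of, mul_assoc]

theorem triv_spec {g : ℕ} {w : List ℕ} (h : triv g w = true) : ev (baseH g) w = 1 := by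
  simp only [triv, Bool.or_eq_true] at h
  rw [← ev_red]
  rcases h with (h | h) | h
  · rw [weq_eq h, ev_nil]
  · rw [weq_eq h, ev_Rw]
  · rw [weq_eq h, ev_winv, ev_Rw, inv_one]

theorem chkTri_spec {g : ℕ} {l : List (ℕ × ℕ × ℕ)} {tab : Tab} (h : chkTri g l tab = true)
    {i j m x y z : ℕ} {w1 w2 : List ℕ} (h1 : (i, x, j, w1) ∈ tab) (h2 : (j, y, m, w2) ∈ tab)
    (h3 : (x, y, z) ∈ l) : ∃ w3, (m, z, i, w3) ∈ tab ∧
      ev (baseH g) w1 * ev (baseH g) w2 * ev (baseH g) w3 = 1 := by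
  simp only [chkTri, List.all_eq_true] at h
  have k1 := h _ h1 _ h2
  simp only [Nat.beq_refl, Bool.not_true, Bool.false_or, List.all_eq_true] at k1
  have k2 := k1 _ h3
  simp only [Nat.beq_refl, Bool.and_self, Bool.not_true, Bool.false_or, List.any_eq_true,
    Bool.and_eq_true, Bool.or_eq_true] at k2
  obtain ⟨⟨a, b, c, w3⟩, hd, h4, h5, h6, h7⟩ := k2
  have e1 : a = m := Nat.eq_of_beq_eq_true h4
  have e2 : b = z := Nat.eq_of_beq_eq_true h5
  have e3 : c = i := Nat.eq_of_beq_eq_true h6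
  subst e1; subst e2; subst e3
  refine ⟨w3, hd, ?_⟩
  rcases h7 with (h7 | h7) | h7
  · have := triv_spec h7
    simpa only [ev_append] using this
  · have := triv_spec h7
    simp only [ev_append] at this
    exact rot3 (rot3 this)
  · have := triv_spec h7
    simp only [ev_append] at this
    exact rot3 this

theorem beq_false {a b : ℕ} (h : a ≠ b) : Nat.beq a b = false := by
  cases hb : Nat.beq a b with
  | true => exact absurd (Nat.eq_of_beq_eq_true hb) h
  | false => rfl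

theorem chkConv_spec {l : List (ℕ × ℕ × ℕ)} {tab : Tab} (h : chkConv l tab = true) :
    (∀ i i' j x x' y p q w w', (i, x, j, w) ∈ tab → (i', x', j, w') ∈ tab → x ≠ x' →
      (x, y, p) ∈ l → (x', y, q) ∈ l → ∃ m w3, (j, y, m, w3) ∈ tab) ∧
    (∀ i j j' x y y' p q w w', (i, y, j, w) ∈ tab → (i, y', j', w') ∈ tab → y ≠ y' →
      (x, y, p) ∈ l → (x, y', q) ∈ l → ∃ m w3, (m, x, i, w3) ∈ tab) := by
  simp only [chkConv, List.all_eq_true, List.mem_range, Bool.and_eq_true] at h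
  constructor
  · intro i i' j x x' y p q w w' h1 h2 hne h3 h4
    have k1 := (h j (lt_nV h1).2).1 (x, x', y) (by
      rw [preds, List.mem_flatMap]
      refine ⟨_, h3, ?_⟩
      rw [List.mem_map]
      refine ⟨_, List.mem_filter.2 ⟨h4, ?_⟩, rfl⟩
      simp [beq_false (Ne.symm hne)])
    rw [nmem_iff.2 (mem_ins.2 ⟨_, _, h1⟩), nmem_iff.2 (mem_ins.2 ⟨_, _, h2⟩)] at k1
    simp only [Bool.not_true, Bool.false_or] at k1
    exact mem_outs.1 (nmem_iff.1 k1)
  · intro i j j' x y y' p q w w' h1 h2 hne h3 h4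
    have k1 := (h i (lt_nV h1).1).2 (y, y', x) (by
      rw [succs, List.mem_flatMap]
      refine ⟨_, h3, ?_⟩
      rw [List.mem_map]
      refine ⟨_, List.mem_filter.2 ⟨h4, ?_⟩, rfl⟩
      simp [beq_false (Ne.symm hne)])
    rw [nmem_iff.2 (mem_outs.2 ⟨_, _, h1⟩), nmem_iff.2 (mem_outs.2 ⟨_, _, h2⟩)] at k1
    simp only [Bool.not_true, Bool.false_or] at k1
    exact mem_ins.1 (nmem_iff.1 k1)

/-- the edges of the universal cover of the surface -/
def ES (g : ℕ) (tab : Tab) (s : SurfaceGroup g × ℕ) (a : ℕ) (u : SurfaceGroup g × ℕ) : Prop :=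
  (a % 2 = 0 ∧ ∃ w, (s.2, a / 2, u.2, w) ∈ tab ∧ u.1 = s.1 * ev (baseH g) w) ∨
  (a % 2 = 1 ∧ ∃ w, (u.2, a / 2, s.2, w) ∈ tab ∧ s.1 = u.1 * ev (baseH g) w)

theorem ES_sym (g : ℕ) (tab : Tab) (s : SurfaceGroup g × ℕ) (a : ℕ) (u : SurfaceGroup g × ℕ)
    (h : ES g tab s a u) : ES g tab u (cinv a) s := by
  rcases h with ⟨ha, w, hw, e⟩ | ⟨ha, w, hw, e⟩
  · refine Or.inr ⟨cinv_mod0 ha, w, ?_, e⟩
    rw [cinv_div]; exact hw
  · refine Or.inl ⟨cinv_mod1 ha, w, ?_, e⟩
    rw [cinv_div]; exact hw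

/-- the universal cover of the surface as a partial action -/
def pact (g : ℕ) (T : List (ℕ × ℕ × ℕ)) (tab : Tab) (h1 : chkFun (rot T) = true)
    (h2 : chkFour (rot T) = true) (hd : chkDet tab = true) (ht : chkTri g (rot T) tab = true)
    (hc : chkConv (rot T) tab = true) : PAct (loc T h1 h2) where
  V := SurfaceGroup g × ℕ
  E := ES g tab
  det := by
    obtain ⟨d1, d2⟩ := chkDet_spec hd
    rintro ⟨h, i⟩ a ⟨k, j⟩ ⟨k', j'⟩ (⟨ha, w, hw, e⟩ | ⟨ha, w, hw, e⟩) (⟨ha', w', hw', e'⟩ | ⟨ha', w', hw', e'⟩)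
    · obtain ⟨rfl, rfl⟩ := d1 _ _ _ _ _ _ hw hw'
      dsimp only at e e'
      rw [e, e']
    · omega
    · omega
    · obtain ⟨rfl, rfl⟩ := d2 _ _ _ _ _ _ hw hw'
      dsimp only at e e'
      rw [e] at e'
      rw [mul_right_cancel e']
  sym := fun s a u h => ES_sym g tab s a u h
  tri := by
    rintro s a b c u w (⟨ma, mb, mc, hl⟩ | ⟨ma, mb, mc, hl⟩) (⟨ha, w1, hw1, e1⟩ | ⟨ha, w1, hw1, e1⟩)
      (⟨hb, w2, hw2, e2⟩ | ⟨hb, w2, hw2, e2⟩) <;> try omega
    · obtain ⟨w3, h3, h4⟩ := chkTri_spec ht hw1 hw2 hl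
      refine Or.inr ⟨mc, w3, h3, ?_⟩
      rw [e2, e1, mul_assoc, mul_assoc, ← mul_assoc (ev (baseH g) w1), h4, mul_one]
    · obtain ⟨w3, h3, h4⟩ := chkTri_spec ht hw2 hw1 hl
      refine Or.inl ⟨mc, w3, h3, ?_⟩
      rw [e1, e2, mul_assoc, mul_assoc, ← mul_assoc (ev (baseH g) w2), h4, mul_one]
  conv := by
    obtain ⟨c1, c2⟩ := chkConv_spec hc
    rintro ⟨h, i⟩ a b c x y (⟨mc, ma, _, hl⟩ | ⟨mc, ma, _, hl⟩) (⟨mc', mb, _, hl'⟩ | ⟨mc', mb, _, hl'⟩)
      hne ⟨u, hu⟩ ⟨v, hv⟩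
    · -- `c` is odd, `a` and `b` are even
      rcases hu with ⟨_, w, hw, _⟩ | ⟨hu, _⟩
      · rcases hv with ⟨_, w', hw', _⟩ | ⟨hv, _⟩
        · obtain ⟨m, w3, h3⟩ := c2 _ _ _ _ _ _ _ _ _ _ hw hw' (fun h => hne (half_ext (by omega) h)) hl hl'
          exact ⟨(h * (ev (baseH g) w3)⁻¹, m), Or.inr ⟨mc, w3, h3, by simp⟩⟩
        · omega
      · omega
    · omega
    · omega
    · rcases hu with ⟨hu, _⟩ | ⟨_, w, hw, _⟩
      · omega
      · rcases hv with ⟨hv, _⟩ | ⟨_, w', hw', _⟩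
        · omega
        · obtain ⟨m, w3, h3⟩ := c1 _ _ _ _ _ _ _ _ _ _ hw hw' (fun h => hne (half_ext (by omega) h)) hl hl'
          exact ⟨(h * ev (baseH g) w3, m), Or.inl ⟨mc, w3, h3, rfl⟩⟩

end Pool.Agent.TriSurf
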