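import Pool.Agent.TriSurf.Sph
import Pool.Agent.TriSurf.Main

/-!
# The generalized quadrangle of order (2, 2)

The letters `0, …, 14` are the lines, the letters `15, …, 29` the points.
-/

set_option autoImplicit false
set_option maxRecDepth 100000

namespace Pool.Agent.TriSurf

/-- the adjacency matrix, as a number -/
def gqMat : ℕ :=
  574670747424218878301155311082084770075007520414532754492424575808963003804119310739403864280052922494504771321266822558739220895230698340032501326364078226563817198816197218062130307255911637856465198223960107381054463028184307491684797107455746912949355595988992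

/-- adjacency -/
def adjN (a b : ℕ) : Bool :=
  Nat.beq (Nat.land 1 (Nat.shiftRight gqMat (Nat.add (Nat.mul 30 a) b))) 1

/-- bounded universal quantification -/
def allN (n : ℕ) (p : ℕ → Bool) : Bool :=
  match n with
  | 0 => true
  | n + 1 => p n && allN n p

theorem allN_spec {n : ℕ} {p : ℕ → Bool} (h : allN n p = true) : ∀ i, i < n → p i = true := by
  induction n with
  | zero => intro i hi; omega
  | succ n ih =>
    rw [allN, Bool.and_eq_true] at h
    intro i hi
    rcases Nat.lt_succ_iff_lt_or_eq.1 hi with h1 | h1
    · exact ih h.2 i h1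
    · rw [h1]; exact h.1

/-- bounded existential quantification -/
def anyN (n : ℕ) (p : ℕ → Bool) : Bool :=
  match n with
  | 0 => false
  | n + 1 => p n || anyN n p

theorem anyN_spec {n : ℕ} {p : ℕ → Bool} (h : anyN n p = true) : ∃ i, i < n ∧ p i = true := by
  induction n with
  | zero => simp [anyN] at h
  | succ n ih =>
    rw [anyN, Bool.or_eq_true] at h
    rcases h with h | h
    · exact ⟨n, Nat.lt_succ_self n, h⟩
    · obtain ⟨i, hi, h1⟩ := ih h
      exact ⟨i, Nat.lt_succ_of_lt hi, h1⟩

theorem adjN_symm : ∀ a, a < 30 → ∀ b, b < 30 → adjN a b = true → adjN b a = true := by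
  have h : allN 30 (fun a => allN 30 fun b => !adjN a b || adjN b a) = true := by decide +kernel
  intro a ha b hb hab
  have := allN_spec (allN_spec h a ha) b hb
  rw [hab] at this
  simpa using this

/-- adjacent letters have different kinds -/
theorem adjN_kind : ∀ a, a < 30 → ∀ b, b < 30 → adjN a b = true → ((a < 15 ∧ 15 ≤ b) ∨ (b < 15 ∧ 15 ≤ a)) := by
  have h : allN 30 (fun a => allN 30 fun b => !adjN a b || (Nat.blt a 15 && Nat.ble 15 b) ||
      (Nat.blt b 15 && Nat.ble 15 a)) = true := by decide +kernel
  intro a ha b hb hab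
  have := allN_spec (allN_spec h a ha) b hb
  rw [hab] at this
  simp only [Bool.not_true, Bool.false_or, Bool.or_eq_true, Bool.and_eq_true, Nat.blt_eq,
    Nat.ble_eq] at this
  exact this

theorem gq_four : ∀ a, a < 30 → ∀ c, c < 30 → adjN a c = true → ∀ b, b < 30 → adjN b c = true →
    ∀ d, d < 30 → adjN a d = true → adjN b d = true → a = b ∨ c = d := by
  have h : allN 30 (fun a => allN 30 fun c => !adjN a c || allN 30 fun b => !adjN b c ||
      (Nat.beq a b || allN 30 fun d => !adjN a d || !adjN b d || Nat.beq c d)) = true := by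
    decide +kernel
  intro a ha c hc hac b hb hbc d hd had hbd
  have h1 := allN_spec (allN_spec h a ha) c hc
  rw [hac] at h1
  simp only [Bool.not_true, Bool.false_or] at h1
  have h2 := allN_spec h1 b hb
  rw [hbc] at h2
  simp only [Bool.not_true, Bool.false_or, Bool.or_eq_true] at h2
  rcases h2 with h2 | h2
  · exact Or.inl (Nat.eq_of_beq_eq_true h2)
  · have h3 := allN_spec h2 d hd
    rw [had, hbd] at h3
    simp only [Bool.not_true, Bool.false_or] at h3
    exact Or.inr (Nat.eq_of_beq_eq_true h3)

theorem gq_six : ∀ a, a < 30 → ∀ b, b < 30 → adjN a b = true → ∀ c, c < 30 → adjN b c = true →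
    ∀ d, d < 30 → adjN c d = true → ∀ e, e < 30 → adjN d e = true → ∀ f, f < 30 →
    adjN e f = true → adjN f a = true → a = c ∨ b = d ∨ c = e ∨ d = f ∨ e = a ∨ f = b := by
  have h : allN 30 (fun a => allN 30 fun b => !adjN a b || allN 30 fun c => !adjN b c ||
      (Nat.beq a c || allN 30 fun d => !adjN c d || (Nat.beq b d || allN 30 fun e =>
        !adjN d e || (Nat.beq c e || (Nat.beq e a || allN 30 fun f => !adjN e f ||
          (!adjN f a || (Nat.beq d f || Nat.beq f b))))))) = true := by
    decide +kernel
  intro a ha b hb hab c hc hbc d hd hcd e he hde f hf hef hfa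
  have h1 := allN_spec (allN_spec h a ha) b hb
  rw [hab] at h1
  simp only [Bool.not_true, Bool.false_or] at h1
  have h2 := allN_spec h1 c hc
  rw [hbc] at h2
  simp only [Bool.not_true, Bool.false_or, Bool.or_eq_true] at h2
  rcases h2 with h2 | h2
  · exact Or.inl (Nat.eq_of_beq_eq_true h2)
  have h3 := allN_spec h2 d hd
  rw [hcd] at h3
  simp only [Bool.not_true, Bool.false_or, Bool.or_eq_true] at h3
  rcases h3 with h3 | h3
  · exact Or.inr (Or.inl (Nat.eq_of_beq_eq_true h3))
  have h4 := allN_spec h3 e he
  rw [hde] at h4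
  simp only [Bool.not_true, Bool.false_or, Bool.or_eq_true] at h4
  rcases h4 with h4 | h4 | h4
  · exact Or.inr (Or.inr (Or.inl (Nat.eq_of_beq_eq_true h4)))
  · exact Or.inr (Or.inr (Or.inr (Or.inr (Or.inl (Nat.eq_of_beq_eq_true h4)))))
  have h5 := allN_spec h4 f hf
  rw [hef, hfa] at h5
  simp only [Bool.not_true, Bool.false_or, Bool.or_eq_true] at h5
  rcases h5 with h5 | h5
  · exact Or.inr (Or.inr (Or.inr (Or.inl (Nat.eq_of_beq_eq_true h5))))
  · exact Or.inr (Or.inr (Or.inr (Or.inr (Or.inr (Nat.eq_of_beq_eq_true h5)))))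

theorem gq_two : ∀ e, e < 30 → ∀ f, f < 30 → adjN e f = true → ∃ g, g < 30 ∧ adjN e g = true ∧ g ≠ f := by
  have h : allN 30 (fun e => allN 30 fun f => !adjN e f || anyN 30 fun g => adjN e g && !Nat.beq g f)
      = true := by decide +kernel
  intro e he f hf hef
  have h1 := allN_spec (allN_spec h e he) f hf
  rw [hef] at h1
  simp only [Bool.not_true, Bool.false_or] at h1
  obtain ⟨g, hg, h2⟩ := anyN_spec h1
  rw [Bool.and_eq_true] at h2
  refine ⟨g, hg, h2.1, ?_⟩
  intro hgf
  rw [hgf] at h2
  simp at h2

/-! ### Connectivity of complements of stars -/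

/-- neither in `F` nor adjacent to an element of `F` -/
def missN (F : List ℕ) (c : ℕ) : Bool := !nmem c F && F.all fun f => !adjN f c

/-- neighbours -/
def nbN (a : ℕ) (n : ℕ) : List ℕ :=
  match n with
  | 0 => []
  | n + 1 => bif adjN a n then n :: nbN a n else nbN a n

/-- breadth first search -/
def bfsN (F : List ℕ) : ℕ → List ℕ → List ℕ → List ℕ
  | 0, _, vis => vis
  | _ + 1, [], vis => vis
  | n + 1, a :: q, vis =>
    let new := (nbN a 30).filter fun b => missN F b && !nmem b vis
    bfsN F n (q ++ new) (new ++ vis)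

/-- first missing letter -/
def fstN (F : List ℕ) : ℕ → ℕ
  | 0 => 0
  | n + 1 => bif missN F n then n else fstN F n

/-- every element but the last is adjacent to a later one -/
def treeOK : List ℕ → Bool
  | [] => false
  | [_] => true
  | o :: O => O.any (fun p => adjN o p) && treeOK O

/-- check of a search order -/
def chkO (F O : List ℕ) : Bool :=
  O.all (fun o => Nat.blt o 30 && missN F o) && allN 30 (fun c => !missN F c || nmem c O) && treeOK O

/-- check -/
def chkC (F : List ℕ) : Bool := chkO F (bfsN F 30 [fstN F 30] [fstN F 30])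

theorem gq_conn0 : chkC [] = true := by decide +kernel

theorem gq_conn1 : ∀ f, f < 30 → chkC [f] = true := by
  have h : allN 30 (fun f => chkC [f]) = true := by decide +kernel
  exact allN_spec h

theorem gq_conn2 : ∀ f, f < 30 → ∀ f', f' < 30 → adjN f f' = true → chkC [f, f'] = true := by
  have h : allN 30 (fun f => allN 30 fun f' => !adjN f f' || chkC [f, f']) = true := by
    decide +kernel
  intro f hf f' hf' hff
  have := allN_spec (allN_spec h f hf) f' hf'
  rw [hff] at this
  simpa using this

end Pool.Agent.TriSurf
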