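import Mathlib

/-!
# Graphs with a thin level structure are hyperbolic
-/

set_option autoImplicit false

namespace Pool.Agent.TriSurf

/-- A rooted graph with a level function such that vertices have at most two parents, which are adjacent,
adjacent vertices of the same level have a common parent, and of two adjacent vertices of the same level at
most one has a second parent. -/
structure LevG {V : Type} (Γ : SimpleGraph V) where
  lev : V → ℕ
  r : V
  lev_r : lev r = 0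
  lev_zero : ∀ x, lev x = 0 → x = r
  lip : ∀ x y, Γ.Adj x y → lev y ≤ lev x + 1
  par : ∀ x, lev x ≠ 0 → ∃ y, Γ.Adj x y ∧ lev x = lev y + 1
  par_adj : ∀ x y z, Γ.Adj x y → Γ.Adj x z → lev x = lev y + 1 → lev x = lev z + 1 →
    y = z ∨ Γ.Adj y z
  sib : ∀ x y, Γ.Adj x y → lev x = lev y → ∃ v, Γ.Adj x v ∧ Γ.Adj y v ∧ lev x = lev v + 1
  thin : ∀ x y v w z, Γ.Adj x y → lev x = lev y → Γ.Adj x v → Γ.Adj y v → lev x = lev v + 1 →
    Γ.Adj x w → lev x = lev w + 1 → Γ.Adj y z → lev y = lev z + 1 → w = v ∨ z = v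

namespace LevG

variable {V : Type} {Γ : SimpleGraph V} (A : LevG Γ)

/-- `a` is an ancestor of `x`, `k` levels below -/
def Anc : ℕ → V → V → Prop
  | 0, x, a => a = x
  | k + 1, x, a => ∃ b, Anc k x b ∧ Γ.Adj b a ∧ A.lev b = A.lev a + 1

theorem Anc_lev {k : ℕ} {x a : V} (h : A.Anc k x a) : A.lev x = A.lev a + k := by
  induction k generalizing a with
  | zero => rw [show a = x from h]; rfl
  | succ k ih =>
    obtain ⟨b, h1, _, h3⟩ := h
    have := ih h1
    omega

theorem Anc_cons {k : ℕ} {x y a : V} (hxy : Γ.Adj x y) (hl : A.lev x = A.lev y + 1)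
    (h : A.Anc k y a) : A.Anc (k + 1) x a := by
  induction k generalizing a with
  | zero =>
    rw [show a = y from h]
    exact ⟨x, rfl, hxy, hl⟩
  | succ k ih =>
    obtain ⟨b, h1, h2, h3⟩ := h
    exact ⟨b, ih h1, h2, h3⟩

theorem Anc_exists (x : V) (k : ℕ) (h : k ≤ A.lev x) : ∃ a, A.Anc k x a := by
  induction k with
  | zero => exact ⟨x, rfl⟩
  | succ k ih =>
    obtain ⟨b, hb⟩ := ih (by omega)
    have hl := A.Anc_lev hb
    obtain ⟨a, h1, h2⟩ := A.par b (by omega)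
    exact ⟨a, b, hb, h1, h2⟩

/-- ancestors of a vertex at the same level are equal or adjacent -/
theorem Anc_thin {k : ℕ} {x a b : V} (ha : A.Anc k x a) (hb : A.Anc k x b) : a = b ∨ Γ.Adj a b := by
  induction k generalizing a b with
  | zero =>
    left
    rw [show a = x from ha, show b = x from hb]
  | succ k ih =>
    obtain ⟨c, hc, hca, hla⟩ := ha
    obtain ⟨d, hd, hdb, hlb⟩ := hb
    have l1 := A.Anc_lev hc
    have l2 := A.Anc_lev hd
    rcases ih hc hd with h | h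
    · subst h
      exact A.par_adj c a b hca hdb hla hlb
    · have hl : A.lev c = A.lev d := by omega
      obtain ⟨v, h1, h2, h3⟩ := A.sib c d h hl
      rcases A.thin c d v a b h hl h1 h2 h3 hca hla hdb hlb with h4 | h4
      · subst h4
        exact A.par_adj d a b h2 hdb (by omega) hlb
      · subst h4
        exact A.par_adj c a b hca h1 hla h3

/-- horizontal paths -/
def Hor : ℕ → V → V → Prop
  | 0, a, b => a = b
  | h + 1, a, b => ∃ c, Hor h a c ∧ (c = b ∨ (Γ.Adj c b ∧ A.lev c = A.lev b))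

theorem Hor_lev {h : ℕ} {a b : V} (H : A.Hor h a b) : A.lev a = A.lev b := by
  induction h generalizing b with
  | zero => rw [show a = b from H]
  | succ h ih =>
    obtain ⟨c, h1, h2⟩ := H
    have := ih h1
    rcases h2 with rfl | ⟨_, h2⟩
    · exact this
    · omega

theorem Hor_succ {h : ℕ} {a b : V} (H : A.Hor h a b) : A.Hor (h + 1) a b := ⟨b, H, Or.inl rfl⟩

theorem Hor_le {h k : ℕ} (hk : h ≤ k) {a b : V} (H : A.Hor h a b) : A.Hor k a b := by
  induction hk with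
  | refl => exact H
  | step _ ih => exact A.Hor_succ ih

/-- going down from a horizontal path -/
theorem Hor_down {h : ℕ} {a b : V} (H : A.Hor (h + 1) a b) (hl : A.lev a ≠ 0) :
    ∃ u w, Γ.Adj a u ∧ A.lev a = A.lev u + 1 ∧ Γ.Adj b w ∧ A.lev b = A.lev w + 1 ∧ A.Hor h u w := by
  induction h generalizing b with
  | zero =>
    obtain ⟨c, h1, h2⟩ := H
    have h1' : a = c := h1
    subst h1'
    rcases h2 with rfl | ⟨h2, h3⟩
    · obtain ⟨u, h4, h5⟩ := A.par a hl
      exact ⟨u, u, h4, h5, h4, h5, rfl⟩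
    · obtain ⟨v, h4, h5, h6⟩ := A.sib a b h2 h3
      exact ⟨v, v, h4, h6, h5, by omega, rfl⟩
  | succ h ih =>
    obtain ⟨c, h1, h2⟩ := H
    obtain ⟨u, w, k1, k2, k3, k4, k5⟩ := ih h1
    rcases h2 with rfl | ⟨h2, h3⟩
    · exact ⟨u, w, k1, k2, k3, k4, A.Hor_succ k5⟩
    · obtain ⟨v, h4, h5, h6⟩ := A.sib c b h2 h3
      refine ⟨u, v, k1, k2, h5, by omega, w, k5, ?_⟩
      rcases A.par_adj c w v k3 h4 k4 h6 with h7 | h7
      · exact Or.inl h7
      · exact Or.inr ⟨h7, by omega⟩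

/-- a horizontal path of length four can be shortened by going down -/
theorem Hor_four {a b : V} (H : A.Hor 4 a b) (hl : A.lev a ≠ 0) :
    ∃ u w, Γ.Adj a u ∧ A.lev a = A.lev u + 1 ∧ Γ.Adj b w ∧ A.lev b = A.lev w + 1 ∧ A.Hor 2 u w := by
  by_cases H3 : A.Hor 3 a b
  · exact A.Hor_down H3 hl
  obtain ⟨q3, hq3, h4⟩ := H
  have h4' : Γ.Adj q3 b ∧ A.lev q3 = A.lev b := by
    rcases h4 with rfl | h4
    · exact absurd hq3 H3
    · exact h4
  obtain ⟨q2, hq2, h3⟩ := hq3
  have h3' : Γ.Adj q2 q3 ∧ A.lev q2 = A.lev q3 := by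
    rcases h3 with rfl | h3
    · exact absurd ⟨q2, hq2, Or.inr h4'⟩ H3
    · exact h3
  obtain ⟨q1, hq1, h2⟩ := hq2
  have h2' : Γ.Adj q1 q2 ∧ A.lev q1 = A.lev q2 := by
    rcases h2 with rfl | h2
    · exact absurd ⟨q3, ⟨q1, hq1, Or.inr h3'⟩, Or.inr h4'⟩ H3
    · exact h2
  obtain ⟨q0, hq0, h1⟩ := hq1
  have hq0' : a = q0 := hq0
  subst hq0'
  have h1' : Γ.Adj a q1 ∧ A.lev a = A.lev q1 := by
    rcases h1 with rfl | h1
    · exact absurd ⟨q3, ⟨q2, ⟨a, rfl, Or.inr h2'⟩, Or.inr h3'⟩, Or.inr h4'⟩ H3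
    · exact h1
  obtain ⟨v1, a1, b1, c1⟩ := A.sib _ _ h1'.1 h1'.2
  obtain ⟨v2, a2, b2, c2⟩ := A.sib _ _ h2'.1 h2'.2
  obtain ⟨v3, a3, b3, c3⟩ := A.sib _ _ h3'.1 h3'.2
  obtain ⟨v4, a4, b4, c4⟩ := A.sib _ _ h4'.1 h4'.2
  have e1 := h1'.2
  have e2 := h2'.2
  have e3 := h3'.2
  have e4 := h4'.2
  refine ⟨v1, v4, a1, c1, b4, by omega, ?_⟩
  have t1 : v1 = v2 ∨ v3 = v2 := A.thin q1 q2 v2 v1 v3 h2'.1 h2'.2 a2 b2 c2 b1 (by omega) a3 c3
  have t2 : v2 = v3 ∨ v4 = v3 := A.thin q2 q3 v3 v2 v4 h3'.1 h3'.2 a3 b3 c3 b2 (by omega) a4 c4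
  have s1 : v1 = v2 ∨ (Γ.Adj v1 v2 ∧ A.lev v1 = A.lev v2) := by
    rcases A.par_adj q1 v1 v2 b1 a2 (by omega) c2 with h | h
    · exact Or.inl h
    · exact Or.inr ⟨h, by omega⟩
  have s2 : v2 = v3 ∨ (Γ.Adj v2 v3 ∧ A.lev v2 = A.lev v3) := by
    rcases A.par_adj q2 v2 v3 b2 a3 (by omega) c3 with h | h
    · exact Or.inl h
    · exact Or.inr ⟨h, by omega⟩
  have s3 : v3 = v4 ∨ (Γ.Adj v3 v4 ∧ A.lev v3 = A.lev v4) := by
    rcases A.par_adj q3 v3 v4 b3 a4 (by omega) c4 with h | h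
    · exact Or.inl h
    · exact Or.inr ⟨h, by omega⟩
  by_cases h23 : v2 = v3
  · subst h23
    exact ⟨v2, ⟨v1, rfl, s1⟩, s3⟩
  · have h12 : v1 = v2 := by
      rcases t1 with h | h
      · exact h
      · exact absurd h.symm h23
    have h34 : v4 = v3 := by
      rcases t2 with h | h
      · exact absurd h h23
      · exact h
    subst h12
    subst h34
    exact ⟨v1, ⟨v1, rfl, Or.inl rfl⟩, s2⟩

/-- `x` and `y` are joined by going down `k` steps, a horizontal path and up `l` steps -/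
def Near (x y : V) (d : ℕ) : Prop :=
  ∃ k l h a b, h ≤ 3 ∧ A.Anc k x a ∧ A.Anc l y b ∧ A.Hor h a b ∧ k + l + h ≤ d

/-- reduce the horizontal path -/
theorem Near_of_four {x y : V} {d k l h : ℕ} {a b : V} (hh : h ≤ 4) (ha : A.Anc k x a)
    (hb : A.Anc l y b) (H : A.Hor h a b) (hd : k + l + h ≤ d) : A.Near x y d := by
  by_cases h3 : h ≤ 3
  · exact ⟨k, l, h, a, b, h3, ha, hb, H, hd⟩
  have h4 : h = 4 := by omega
  subst h4
  by_cases hl : A.lev a = 0
  · have hb0 : A.lev b = 0 := by rw [← A.Hor_lev H]; exact hl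
    have e1 := A.lev_zero a hl
    have e2 := A.lev_zero b hb0
    exact ⟨k, l, 0, a, b, by omega, ha, hb, e1.trans e2.symm, by omega⟩
  · obtain ⟨u, w, k1, k2, k3, k4, k5⟩ := A.Hor_four H hl
    exact ⟨k + 1, l + 1, 2, u, w, by omega, ⟨a, ha, k1, k2⟩, ⟨b, hb, k3, k4⟩, k5, by omega⟩

theorem Near_step {x y z : V} {d : ℕ} (h : A.Near x y d) (hyz : Γ.Adj y z) : A.Near x z (d + 1) := by
  obtain ⟨k, l, h, a, b, hh, ha, hb, H, hd⟩ := h
  have hlab := A.Hor_lev H
  have hlb := A.Anc_lev hb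
  rcases lt_trichotomy (A.lev y) (A.lev z) with hlt | heq | hgt
  · -- up
    have h1 := A.lip y z hyz
    exact ⟨k, l + 1, h, a, b, hh, ha, A.Anc_cons hyz.symm (by omega) hb, H, by omega⟩
  · -- same level
    obtain ⟨v, h1, h2, h3⟩ := A.sib y z hyz heq
    rcases Nat.eq_zero_or_pos l with hl0 | hl0
    · subst hl0
      have hb' : b = y := hb
      subst hb'
      exact A.Near_of_four (h := h + 1) (by omega) ha (show A.Anc 0 z z from rfl)
        ⟨b, H, Or.inr ⟨hyz, heq⟩⟩ (by omega)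
    · obtain ⟨j, rfl⟩ : ∃ j, l = j + 1 := ⟨l - 1, by omega⟩
      obtain ⟨b', hb'⟩ := A.Anc_exists v j (by omega)
      have k1 := A.Anc_cons h1 h3 hb'
      have k2 := A.Anc_cons h2 (by omega) hb'
      have k3 := A.Anc_lev k1
      refine A.Near_of_four (h := h + 1) (by omega) ha k2 ⟨b, H, ?_⟩ (by omega)
      rcases A.Anc_thin hb k1 with h5 | h5
      · exact Or.inl h5
      · exact Or.inr ⟨h5, by omega⟩
  · -- down
    have h1 := A.lip z y hyz.symm
    rcases Nat.eq_zero_or_pos l with hl0 | hl0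
    · subst hl0
      have hb' : b = y := hb
      subst hb'
      rcases Nat.eq_zero_or_pos h with hh0 | hh0
      · subst hh0
        have H' : a = b := H
        subst H'
        exact ⟨k + 1, 0, 0, z, z, by omega, ⟨a, ha, hyz, by omega⟩, rfl, rfl, by omega⟩
      · obtain ⟨h', rfl⟩ : ∃ j, h = j + 1 := ⟨h - 1, by omega⟩
        obtain ⟨u, w, k1, k2, k3, k4, k5⟩ := A.Hor_down H (by omega)
        refine ⟨k + 1, 0, h' + 1, u, z, hh, ⟨a, ha, k1, k2⟩, rfl, ⟨w, k5, ?_⟩, by omega⟩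
        rcases A.par_adj b w z k3 hyz k4 (by omega) with h5 | h5
        · exact Or.inl h5
        · exact Or.inr ⟨h5, by omega⟩
    · obtain ⟨j, rfl⟩ : ∃ j, l = j + 1 := ⟨l - 1, by omega⟩
      obtain ⟨b', hb'⟩ := A.Anc_exists z j (by omega)
      have k1 := A.Anc_cons hyz (by omega) hb'
      have k3 := A.Anc_lev k1
      refine A.Near_of_four (h := h + 1) (by omega) ha hb' ⟨b, H, ?_⟩ (by omega)
      rcases A.Anc_thin hb k1 with h5 | h5
      · exact Or.inl h5
      · exact Or.inr ⟨h5, by omega⟩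

theorem Near_walk {x y : V} (p : Γ.Walk x y) : A.Near x y p.length := by
  have key : ∀ {u v : V} (p : Γ.Walk u v) (z : V) (d : ℕ), A.Near z u d → A.Near z v (d + p.length) := by
    intro u v p
    induction p with
    | nil => intro z d h; simpa using h
    | cons hadj p ih =>
      intro z d h
      have := ih z (d + 1) (A.Near_step h hadj)
      rw [SimpleGraph.Walk.length_cons]
      have e : d + (p.length + 1) = d + 1 + p.length := by omega
      rw [e]; exact this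
  have := key p x 0 ⟨0, 0, 0, x, x, by omega, rfl, rfl, rfl, by omega⟩
  simpa using this

/-! ### Walks -/

theorem Anc_walk {k : ℕ} {x a : V} (h : A.Anc k x a) : ∃ p : Γ.Walk x a, p.length = k := by
  induction k generalizing a with
  | zero =>
    have : a = x := h
    subst this
    exact ⟨SimpleGraph.Walk.nil, rfl⟩
  | succ k ih =>
    obtain ⟨b, h1, h2, _⟩ := h
    obtain ⟨p, hp⟩ := ih h1
    exact ⟨p.concat h2, by rw [SimpleGraph.Walk.length_concat, hp]⟩

theorem Hor_walk {h : ℕ} {a b : V} (H : A.Hor h a b) : ∃ p : Γ.Walk a b, p.length ≤ h := by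
  induction h generalizing b with
  | zero =>
    have : a = b := H
    subst this
    exact ⟨SimpleGraph.Walk.nil, le_refl _⟩
  | succ h ih =>
    obtain ⟨c, h1, h2⟩ := H
    obtain ⟨p, hp⟩ := ih h1
    rcases h2 with rfl | ⟨h2, _⟩
    · exact ⟨p, by omega⟩
    · exact ⟨p.concat h2, by rw [SimpleGraph.Walk.length_concat]; omega⟩

theorem Anc_root (x : V) : A.Anc (A.lev x) x A.r := by
  obtain ⟨a, ha⟩ := A.Anc_exists x (A.lev x) (le_refl _)
  have := A.Anc_lev ha
  have h0 := A.lev_zero a (by omega)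
  rwa [h0] at ha

include A in
theorem preconnected : Γ.Preconnected := by
  intro x y
  obtain ⟨p, _⟩ := A.Anc_walk (A.Anc_root x)
  obtain ⟨q, _⟩ := A.Anc_walk (A.Anc_root y)
  exact ⟨p.append q.reverse⟩

theorem lev_walk {x y : V} (p : Γ.Walk x y) : A.lev x ≤ A.lev y + p.length := by
  induction p with
  | nil => simp
  | cons h p ih =>
    rw [SimpleGraph.Walk.length_cons]
    have := A.lip _ _ h.symm
    omega

theorem dist_root (x : V) : Γ.dist x A.r = A.lev x := by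
  obtain ⟨p, hp⟩ := A.Anc_walk (A.Anc_root x)
  apply le_antisymm
  · rw [← hp]; exact SimpleGraph.dist_le p
  · obtain ⟨q, hq⟩ := (A.preconnected x A.r).exists_walk_length_eq_dist
    have := A.lev_walk q
    rw [A.lev_r] at this
    omega

/-- ancestors at lower levels of a near pair are near -/
theorem lower {j : ℕ} : ∀ {k l h : ℕ} {x y a b : V}, h ≤ 3 → A.Anc k x a → A.Anc l y b →
    A.Hor h a b → j ≤ A.lev a →
    ∃ a' b', A.Anc (k + j) x a' ∧ A.Anc (l + j) y b' ∧ A.Hor 3 a' b' := by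
  induction j with
  | zero =>
    intro k l h x y a b hh ha hb H _
    exact ⟨a, b, ha, hb, A.Hor_le hh H⟩
  | succ j ih =>
    intro k l h x y a b hh ha hb H hj
    rcases Nat.eq_zero_or_pos h with h0 | h0
    · subst h0
      have H' : a = b := H
      subst H'
      obtain ⟨u, h1, h2⟩ := A.par a (by omega)
      obtain ⟨a', b', k1, k2, k3⟩ := ih (k := k + 1) (l := l + 1) (h := 0) (by omega)
        (show A.Anc (k + 1) x u from ⟨a, ha, h1, h2⟩) (show A.Anc (l + 1) y u from ⟨a, hb, h1, h2⟩) rfl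
        (by omega)
      refine ⟨a', b', ?_, ?_, k3⟩
      · have e : k + (j + 1) = k + 1 + j := by omega
        rw [e]; exact k1
      · have e : l + (j + 1) = l + 1 + j := by omega
        rw [e]; exact k2
    · obtain ⟨h', rfl⟩ : ∃ i, h = i + 1 := ⟨h - 1, by omega⟩
      obtain ⟨u, w, m1, m2, m3, m4, m5⟩ := A.Hor_down H (by omega)
      obtain ⟨a', b', k1, k2, k3⟩ := ih (k := k + 1) (l := l + 1) (h := h') (by omega)
        (show A.Anc (k + 1) x u from ⟨a, ha, m1, m2⟩) (show A.Anc (l + 1) y w from ⟨b, hb, m3, m4⟩) m5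
        (by omega)
      refine ⟨a', b', ?_, ?_, k3⟩
      · have e : k + (j + 1) = k + 1 + j := by omega
        rw [e]; exact k1
      · have e : l + (j + 1) = l + 1 + j := by omega
        rw [e]; exact k2

theorem near_level {x y : V} (m : ℕ) (h : 2 * m ≤ 2 * (A.lev x + A.lev y) ∧
    ∃ k l h a b, h ≤ 3 ∧ A.Anc k x a ∧ A.Anc l y b ∧ A.Hor h a b ∧ m ≤ A.lev a) :
    ∃ k l a b, A.Anc k x a ∧ A.Anc l y b ∧ A.Hor 3 a b ∧ A.lev a = m := by
  obtain ⟨_, k, l, h, a, b, hh, ha, hb, H, hm⟩ := h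
  obtain ⟨a', b', k1, k2, k3⟩ := A.lower (j := A.lev a - m) hh ha hb H (by omega)
  refine ⟨_, _, a', b', k1, k2, k3, ?_⟩
  have e1 := A.Anc_lev ha
  have e2 := A.Anc_lev k1
  omega

/-- the four point condition at the root -/
theorem four_point (x y z : V) :
    min ((Γ.dist x A.r : ℤ) + Γ.dist y A.r - Γ.dist x y) ((Γ.dist y A.r : ℤ) + Γ.dist z A.r - Γ.dist y z)
      ≤ (Γ.dist x A.r : ℤ) + Γ.dist z A.r - Γ.dist x z + 7 := by
  rw [A.dist_root, A.dist_root, A.dist_root]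
  obtain ⟨p, hp⟩ := (A.preconnected x y).exists_walk_length_eq_dist
  obtain ⟨q, hq⟩ := (A.preconnected y z).exists_walk_length_eq_dist
  obtain ⟨k1, l1, h1, a1, b1, hh1, ha1, hb1, H1, hd1⟩ := A.Near_walk p
  obtain ⟨k2, l2, h2, a2, b2, hh2, ha2, hb2, H2, hd2⟩ := A.Near_walk q
  have e1 := A.Anc_lev ha1
  have e2 := A.Anc_lev hb1
  have e3 := A.Hor_lev H1
  have f1 := A.Anc_lev ha2
  have f2 := A.Anc_lev hb2
  have f3 := A.Hor_lev H2
  -- the lower of the two levels
  obtain ⟨m, hm1, hm2, hm3⟩ : ∃ m, m ≤ A.lev a1 ∧ m ≤ A.lev a2 ∧ (m = A.lev a1 ∨ m = A.lev a2) := by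
    rcases le_total (A.lev a1) (A.lev a2) with h | h
    · exact ⟨A.lev a1, le_refl _, h, Or.inl rfl⟩
    · exact ⟨A.lev a2, h, le_refl _, Or.inr rfl⟩
  obtain ⟨u1, u2, a, b, ka, kb, H, hla⟩ := A.near_level (x := x) (y := y) m
    ⟨by omega, k1, l1, h1, a1, b1, hh1, ha1, hb1, H1, hm1⟩
  obtain ⟨w1, w2, c, e, kc, ke, H', hlc⟩ := A.near_level (x := y) (y := z) m
    ⟨by omega, k2, l2, h2, a2, b2, hh2, ha2, hb2, H2, hm2⟩
  have g1 := A.Anc_lev ka
  have g2 := A.Anc_lev kb
  have g3 := A.Hor_lev H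
  have g4 := A.Anc_lev kc
  have g5 := A.Anc_lev ke
  have g6 := A.Hor_lev H'
  have huw : u2 = w1 := by omega
  subst huw
  obtain ⟨s1, t1⟩ := A.Anc_walk ka
  obtain ⟨s2, t2⟩ := A.Hor_walk H
  obtain ⟨s3, t3⟩ := A.Hor_walk H'
  obtain ⟨s4, t4⟩ := A.Anc_walk ke
  have hdist : Γ.dist x z ≤ u1 + 7 + w2 := by
    rcases A.Anc_thin kb kc with h | h
    · subst h
      have := SimpleGraph.dist_le (s1.append (s2.append (s3.append s4.reverse)))
      simp only [SimpleGraph.Walk.length_append, SimpleGraph.Walk.length_reverse] at this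
      omega
    · have := SimpleGraph.dist_le (s1.append (s2.append (SimpleGraph.Walk.cons h (s3.append s4.reverse))))
      simp only [SimpleGraph.Walk.length_append, SimpleGraph.Walk.length_reverse,
        SimpleGraph.Walk.length_cons] at this
      omega
  rw [min_le_iff]
  rcases hm3 with hm3 | hm3
  · left; omega
  · right; omega

end LevG

end Pool.Agent.TriSurf
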