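import Pool.Agent.TriSurf.Full
import Pool.Agent.TriSurf.Lev

/-!
# The free completion of a point is a thin level graph
-/

set_option autoImplicit false

namespace Pool.Agent.TriSurf

namespace Loc

variable (Λ : Loc)

/-- adjacency in the link -/
def adj (a b : Λ.L) : Prop := ∃ c, Λ.M a b c

variable {Λ}

theorem adj_symm {a b : Λ.L} (h : Λ.adj a b) : Λ.adj b a := by
  obtain ⟨c, h⟩ := h
  exact ⟨_, Λ.M_symm _ _ _ h⟩

theorem adj_col {a b : Λ.L} (h : Λ.adj a b) : Λ.col b = !(Λ.col a) := by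
  obtain ⟨c, h⟩ := h
  exact Λ.col_M _ _ _ h

theorem adj_four {a b c d : Λ.L} (h1 : Λ.adj a c) (h2 : Λ.adj a d) (h3 : Λ.adj b c)
    (h4 : Λ.adj b d) : a = b ∨ c = d := by
  obtain ⟨_, h1⟩ := h1
  obtain ⟨_, h2⟩ := h2
  obtain ⟨_, h3⟩ := h3
  obtain ⟨_, h4⟩ := h4
  exact Λ.no_four _ _ _ _ _ _ _ _ h1 h2 h3 h4

variable (Λ)

/-- there are no cycles of length six in the link -/
def Six : Prop := ∀ a b c d e f, Λ.adj a b → Λ.adj b c → Λ.adj c d → Λ.adj d e → Λ.adj e f →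
  Λ.adj f a → a = c ∨ b = d ∨ c = e ∨ d = f ∨ e = a ∨ f = b

/-- `c` is neither in `F` nor adjacent to an element of `F` -/
def miss (F : Λ.L → Prop) (c : Λ.L) : Prop := ¬ F c ∧ ∀ f, F f → ¬ Λ.adj f c

/-- pairwise adjacent letters -/
def Clique (F : Λ.L → Prop) : Prop := ∀ f f', F f → F f' → f = f' ∨ Λ.adj f f'

variable {Λ}

theorem not_miss {F : Λ.L → Prop} {e : Λ.L} (h : ¬ Λ.miss F e) : ∃ f, F f ∧ (e = f ∨ Λ.adj f e) := by
  by_contra hc
  apply h
  constructor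
  · intro he
    exact hc ⟨e, he, Or.inl rfl⟩
  · intro f hf ha
    exact hc ⟨f, hf, Or.inr ha⟩

/-- no path of length three outside joins two elements of the star of a clique -/
theorem thin_link (h6 : Λ.Six) {F : Λ.L → Prop} (hF : Λ.Clique F) {e c d e' : Λ.L}
    (he : ¬ Λ.miss F e) (he' : ¬ Λ.miss F e') (hc : Λ.miss F c) (hd : Λ.miss F d)
    (h1 : Λ.adj e c) (h2 : Λ.adj c d) (h3 : Λ.adj d e') : False := by
  have hed : e ≠ d := fun h => he (h ▸ hd)
  have hce : c ≠ e' := fun h => he' (h ▸ hc)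
  have k1 := adj_col h1
  have k2 := adj_col h2
  have k3 := adj_col h3
  have hcol : Λ.col e' = !(Λ.col e) := by rw [k3, k2, k1]; simp
  have hne : ¬ Λ.adj e e' := by
    intro h
    rcases adj_four h1 h (adj_symm h2) h3 with h4 | h4
    · exact hed h4
    · exact hce h4
  obtain ⟨f, hf, hfe⟩ := not_miss he
  obtain ⟨f', hf', hfe'⟩ := not_miss he'
  rcases hfe with hfe | hfe
  · subst hfe
    rcases hfe' with hfe' | hfe'
    · subst hfe'
      rcases hF _ _ hf hf' with h | h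
      · subst h; simp at hcol
      · exact hne h
    · rcases hF _ _ hf hf' with h | h
      · subst h; exact hne hfe'
      · have := adj_col h
        have := adj_col hfe'
        simp_all
  · rcases hfe' with hfe' | hfe'
    · subst hfe'
      rcases hF _ _ hf hf' with h | h
      · subst h; exact hne (adj_symm hfe)
      · have := adj_col h
        have := adj_col hfe
        simp_all
    · rcases hF _ _ hf hf' with h | h
      · subst h
        have := adj_col hfe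
        have := adj_col hfe'
        simp_all
      · rcases h6 e c d e' f' f h1 h2 h3 (adj_symm hfe') (adj_symm h) hfe with h | h | h | h | h | h
        · exact hed h
        · exact hce h
        · subst h; exact hd.1 hf'
        · subst h; exact hne (adj_symm hfe)
        · subst h; exact hne hfe'
        · subst h; exact hc.1 hf

end Loc

namespace PAct

variable {Λ : Loc} (P : PAct Λ)

/-- no loops, no double edges -/
def Simp : Prop := (∀ v a w, P.E v a w → v ≠ w) ∧ ∀ v a b w, P.E v a w → P.E v b w → a = b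

theorem At_inj (hs : P.Simp) {v : P.V} {c d : Λ.L} {q : P.Q} (h : P.At v c q) (h' : P.At v d q) :
    c = d := by
  rcases P.At_or h h' with ⟨_, h1⟩ | ⟨e, _, h2⟩
  · exact h1
  · exact absurd rfl (hs.1 _ _ _ h2)

/-- two common parents cannot exist -/
theorem two_parents (hs : P.Simp) {v v' : P.V} {c d c' d' : Λ.L} {q r : P.Q} (hc : P.At v c q)
    (hd : P.At v d r) (hc' : P.At v' c' q) (hd' : P.At v' d' r) (hM : Λ.adj c d) : v = v' := by
  by_contra hne
  rcases P.At_or hc hc' with ⟨h1, _⟩ | ⟨e, h1, h2⟩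
  · exact hne h1
  rcases P.At_or hd hd' with ⟨h3, _⟩ | ⟨e', h3, h4⟩
  · exact hne h3
  have := hs.2 _ _ _ _ h2 h4
  subst this
  have k1 := Λ.col_M _ _ _ h1
  have k2 := Λ.col_M _ _ _ h3
  have k3 := Loc.adj_col hM
  rw [k1, k2] at k3
  simp at k3

theorem Simp_ext (hs : P.Simp) : P.ext.Simp := by
  constructor
  · rintro (v | q) a (w | r) h heq
    · exact hs.1 _ _ _ h (Sum.inl.inj heq)
    · cases heq
    · cases heq
    · have heq' := Sum.inr.inj heq
      subst heq'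
      obtain ⟨v, c, d, hM, hc, hd⟩ := h
      have := P.At_inj hs hc hd
      subst this
      have := Λ.col_M _ _ _ hM
      simp at this
  · rintro (v | q) a b (w | r) h h'
    · exact hs.2 _ _ _ _ h h'
    · exact P.At_inj hs h h'
    · have := P.At_inj hs h h'
      rw [← Λ.inv_inv a, this, Λ.inv_inv]
    · obtain ⟨v, c, d, hM, hc, hd⟩ := h
      obtain ⟨v', c', d', hM', hc', hd'⟩ := h'
      have := P.two_parents hs hc hd hc' hd' ⟨_, hM⟩
      subst this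
      have := P.At_inj hs hc hc'
      subst this
      have := P.At_inj hs hd hd'
      subst this
      exact Λ.M_fun _ _ _ _ hM hM'

theorem Simp_it (hs : P.Simp) (n : ℕ) : (P.it n).Simp := by
  induction n with
  | zero => exact hs
  | succ n ih => exact (P.it n).Simp_ext ih

/-- edges between vertices of the `n`-th extension -/
theorem io_E_down {n m : ℕ} (h : n ≤ m) (v w : (P.it n).V) (v' w' : (P.it m).V) (a : Λ.L)
    (hv : P.io m v' = P.io n v) (hw : P.io m w' = P.io n w) (hE : (P.it m).E v' a w') :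
    (P.it n).E v a w := by
  induction h with
  | refl =>
    rw [← P.io_inj n hv, ← P.io_inj n hw]
    exact hE
  | step h ih =>
    rename_i m
    rcases (v' : (P.it m).V ⊕ (P.it m).Q) with v' | q
    · rcases (w' : (P.it m).V ⊕ (P.it m).Q) with w' | r
      · exact ih v' w' hv hw hE
      · have := P.io_lt n w m r hw.symm
        have h' : n ≤ m := h
        omega
    · have := P.io_lt n v m q hv.symm
      have h' : n ≤ m := h
      omega

theorem EY_iff (n : ℕ) (v w : (P.it n).V) (a : Λ.L) :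
    P.EY (P.io n v) a (P.io n w) ↔ (P.it n).E v a w := by
  constructor
  · rintro ⟨m, v', w', h1, h2, h3⟩
    rcases le_total n m with h | h
    · exact P.io_E_down h v w v' w' a h1 h2 h3
    · obtain ⟨v'', w'', k1, k2, k3⟩ := P.io_E h v' w' a h3
      rw [← P.io_inj n (k1.trans h1), ← P.io_inj n (k2.trans h2)]
      exact k3
  · intro h
    exact ⟨n, v, w, rfl, rfl, h⟩

/-- level of a vertex -/
def lev : P.Y → ℕ
  | Sum.inl _ => 0
  | Sum.inr x => x.1 + 1

theorem lev_io (n : ℕ) (v : (P.it n).V) : P.lev (P.io n v) ≤ n := by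
  rcases h : P.io n v with w | ⟨k, q⟩
  · exact Nat.zero_le _
  · exact P.io_lt n v k q h

theorem exists_io {n : ℕ} {y : P.Y} (h : P.lev y ≤ n) : ∃ v, P.io n v = y := by
  rcases y with w | ⟨k, q⟩
  · exact P.io_le (Nat.zero_le n) w
  · obtain ⟨v', hv'⟩ := P.io_le (n := k + 1) (m := n) h (Sum.inr q)
    exact ⟨v', hv'⟩

theorem lev_missing {n : ℕ} {v : (P.it n).V} {c : Λ.L} (h : ¬ ∃ u, (P.it n).E v c u) :
    P.lev (P.io n v) = n := by
  rcases n with _ | n
  · exact Nat.le_zero.1 (P.lev_io 0 v)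
  · rcases (v : (P.it n).V ⊕ (P.it n).Q) with w | q
    · exact absurd ((P.it n).complete' w c) h
    · rfl

theorem lev_new (n : ℕ) (q : (P.it n).Q) : P.lev (Sum.inr ⟨n, q⟩) = n + 1 := rfl

theorem exists_new {n : ℕ} {y : P.Y} (h : P.lev y = n + 1) : ∃ q : (P.it n).Q, y = Sum.inr ⟨n, q⟩ := by
  rcases y with w | ⟨k, q⟩
  · cases h
  · have : k = n := Nat.succ.inj h
    subst this
    exact ⟨q, rfl⟩

theorem EY_up {n : ℕ} {v : (P.it n).V} {q : (P.it n).Q} {a : Λ.L} :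
    P.EY (P.io n v) a (Sum.inr ⟨n, q⟩) ↔ (P.it n).At v a q :=
  P.EY_iff (n + 1) (Sum.inl v) (Sum.inr q) a

theorem EY_dn {n : ℕ} {v : (P.it n).V} {q : (P.it n).Q} {a : Λ.L} :
    P.EY (Sum.inr ⟨n, q⟩) a (P.io n v) ↔ (P.it n).At v (Λ.inv a) q :=
  P.EY_iff (n + 1) (Sum.inr q) (Sum.inl v) a

theorem EY_eq {n : ℕ} {q r : (P.it n).Q} {a : Λ.L} :
    P.EY (Sum.inr ⟨n, q⟩) a (Sum.inr ⟨n, r⟩) ↔
      ∃ v c d, Λ.M c d a ∧ (P.it n).At v c q ∧ (P.it n).At v d r :=
  P.EY_iff (n + 1) (Sum.inr q) (Sum.inr r) a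

/-- an edge going up -/
theorem up_edge {y z : P.Y} {a : Λ.L} (h : P.EY y a z) (hl : P.lev y < P.lev z) :
    ∃ (n : ℕ) (v : (P.it n).V) (q : (P.it n).Q), y = P.io n v ∧ z = Sum.inr ⟨n, q⟩ ∧
      (P.it n).At v a q ∧ P.lev y = n := by
  obtain ⟨n, hn⟩ : ∃ n, P.lev z = n + 1 := ⟨P.lev z - 1, by omega⟩
  obtain ⟨q, rfl⟩ := P.exists_new hn
  obtain ⟨v, rfl⟩ := P.exists_io (n := n) (y := y) (by omega)
  have h' := P.EY_up.1 h
  exact ⟨n, v, q, rfl, rfl, h', P.lev_missing h'.1⟩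

theorem Q_rep (q : P.Q) : ∃ v c, P.At v c q := by
  obtain ⟨⟨⟨v, c⟩, h⟩, rfl⟩ := Quotient.exists_rep q
  exact ⟨v, c, h, rfl⟩

/-- the graph of the completion -/
def GY : SimpleGraph P.Y where
  Adj y z := y ≠ z ∧ ∃ a, P.EY y a z
  symm := ⟨by
    rintro y z ⟨h, a, ha⟩
    exact ⟨h.symm, _, P.EY_sym ha⟩⟩
  loopless := ⟨fun y h => h.1 rfl⟩

/-- letters leading to parents -/
def par (p : P.Q) (f : Λ.L) : Prop := ∃ v, P.At v (Λ.inv f) p

theorem par_clique (p : P.Q) : Λ.Clique (P.par p) := by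
  rintro f f' ⟨v, h⟩ ⟨v', h'⟩
  rcases P.At_or h h' with ⟨_, h1⟩ | ⟨e, h1, _⟩
  · left; rw [← Λ.inv_inv f, h1, Λ.inv_inv]
  · right
    have := Λ.M_rot2 h1
    rw [Λ.inv_inv, Λ.inv_inv] at this
    exact ⟨_, this⟩

theorem present_par (p : P.Q) (g : Λ.L) : (∃ u, P.E' (Sum.inr p) g u) ↔ ¬ Λ.miss (P.par p) g := by
  rw [P.present_iff]
  constructor
  · rintro ⟨v, c, hc, h | ⟨d, h⟩⟩ hm
    · apply hm.1
      refine ⟨v, ?_⟩
      rw [h, Λ.inv_inv]; exact hc
    · apply hm.2 (Λ.inv c) ⟨v, by rw [Λ.inv_inv]; exact hc⟩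
      exact ⟨d, h⟩
  · intro h
    obtain ⟨f, ⟨v, hf⟩, h1⟩ := Loc.not_miss h
    refine ⟨v, Λ.inv f, hf, ?_⟩
    rw [Λ.inv_inv]
    exact h1

/-! ### One point -/

/-- the action with one point -/
def pt (Λ : Loc) : PAct Λ where
  V := Unit
  E _ _ _ := False
  det := by intro _ _ _ _ h; exact h.elim
  sym := by intro _ _ _ h; exact h
  tri := by intro _ _ _ _ _ _ _ h; exact h.elim
  conv := by rintro _ _ _ _ _ _ _ _ _ ⟨_, h⟩; exact h.elim

theorem pt_Simp : (pt Λ).Simp := ⟨fun _ _ _ h => h.elim, fun _ _ _ _ h => h.elim⟩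

theorem lev_zero_pt {y : (pt Λ).Y} (h : (pt Λ).lev y = 0) : y = Sum.inl () := by
  rcases y with w | ⟨k, q⟩
  · rfl
  · cases h

/-- the present letters at a vertex with a missing letter form the star of a clique -/
theorem star_pt {n : ℕ} {v : ((pt Λ).it n).V} {c : Λ.L} (h : ¬ ∃ u, ((pt Λ).it n).E v c u) :
    ∃ F, Λ.Clique F ∧ ∀ e, (∃ u, ((pt Λ).it n).E v e u) ↔ ¬ Λ.miss F e := by
  rcases n with _ | n
  · refine ⟨fun _ => False, fun _ _ h => h.elim, fun e => ?_⟩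
    constructor
    · rintro ⟨u, hu⟩
      exact hu.elim
    · intro h
      exact (h ⟨fun h => h, fun _ h => h.elim⟩).elim
  · rcases (v : ((pt Λ).it n).V ⊕ ((pt Λ).it n).Q) with w | q
    · exact absurd (((pt Λ).it n).complete' w c) h
    · exact ⟨_, ((pt Λ).it n).par_clique q, fun e => ((pt Λ).it n).present_par q e⟩

/-- the completion of a point is a thin level graph -/
def levG (h6 : Λ.Six) : LevG (pt Λ).GY where
  lev := (pt Λ).lev
  r := Sum.inl ()
  lev_r := rfl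
  lev_zero := fun x h => lev_zero_pt h
  lip := by
    rintro x y ⟨_, a, h⟩
    by_contra hc
    obtain ⟨n, v, q, rfl, rfl, _, h2⟩ := (pt Λ).up_edge h (by omega)
    have : (pt Λ).lev (Sum.inr ⟨n, q⟩) = n + 1 := rfl
    omega
  par := by
    intro x hx
    obtain ⟨n, hn⟩ : ∃ n, (pt Λ).lev x = n + 1 := ⟨(pt Λ).lev x - 1, by omega⟩
    obtain ⟨q, rfl⟩ := (pt Λ).exists_new hn
    obtain ⟨v, c, hc⟩ := ((pt Λ).it n).Q_rep q
    have h1 := (pt Λ).EY_up.2 hc
    have h2 := (pt Λ).lev_missing hc.1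
    refine ⟨(pt Λ).io n v, ⟨?_, _, (pt Λ).EY_sym h1⟩, ?_⟩
    · intro h
      rw [← h] at h2
      omega
    · omega
  par_adj := by
    rintro x y z ⟨_, a, ha⟩ ⟨_, b, hb⟩ h1 h2
    obtain ⟨n, v, q, rfl, rfl, h4, h5⟩ := (pt Λ).up_edge ((pt Λ).EY_sym ha) (by omega)
    obtain ⟨n', w, q', rfl, h3, k4, k5⟩ := (pt Λ).up_edge ((pt Λ).EY_sym hb) (by omega)
    have hnn : n = n' := by omega
    subst hnn
    have hqq : q = q' := by
      have := Sum.inr.inj h3
      exact eq_of_heq (Sigma.mk.inj this).2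
    subst hqq
    rcases ((pt Λ).it n).At_or h4 k4 with ⟨h6, _⟩ | ⟨e, h6, h7⟩
    · exact Or.inl (congrArg _ h6)
    · by_cases hvw : (pt Λ).io n v = (pt Λ).io n w
      · exact Or.inl hvw
      · exact Or.inr ⟨hvw, e, (((pt Λ).EY_iff n v w e).2 h7)⟩
  sib := by
    rintro x y ⟨hne, a, ha⟩ hl
    rcases Nat.eq_zero_or_pos ((pt Λ).lev x) with h0 | h0
    · exact absurd ((lev_zero_pt h0).trans (lev_zero_pt (hl ▸ h0)).symm) hne
    · obtain ⟨n, hn⟩ : ∃ n, (pt Λ).lev x = n + 1 := ⟨(pt Λ).lev x - 1, by omega⟩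
      obtain ⟨q, rfl⟩ := (pt Λ).exists_new hn
      obtain ⟨r, rfl⟩ := (pt Λ).exists_new (hl ▸ hn)
      obtain ⟨v, c, d, hM, hc, hd⟩ := (pt Λ).EY_eq.1 ha
      have h1 := (pt Λ).EY_up.2 hc
      have h2 := (pt Λ).EY_up.2 hd
      have h3 := (pt Λ).lev_missing hc.1
      refine ⟨(pt Λ).io n v, ⟨?_, _, (pt Λ).EY_sym h1⟩, ⟨?_, _, (pt Λ).EY_sym h2⟩, by omega⟩
      · intro h; rw [← h] at h3; omega
      · intro h; rw [← h] at h3; omega
  thin := by
    rintro x y v w z ⟨_, a, ha⟩ hl ⟨_, b1, hb1⟩ ⟨_, b2, hb2⟩ hlv ⟨_, b3, hb3⟩ hlw ⟨_, b4, hb4⟩ hlz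
    by_contra hcon
    rw [not_or] at hcon
    obtain ⟨hwv, hzv⟩ := hcon
    obtain ⟨n, hn⟩ : ∃ n, (pt Λ).lev x = n + 1 := ⟨(pt Λ).lev x - 1, by omega⟩
    obtain ⟨q, rfl⟩ := (pt Λ).exists_new hn
    obtain ⟨r, rfl⟩ := (pt Λ).exists_new (hl ▸ hn)
    obtain ⟨v, rfl⟩ := (pt Λ).exists_io (n := n) (y := v) (by omega)
    obtain ⟨w, rfl⟩ := (pt Λ).exists_io (n := n) (y := w) (by omega)
    obtain ⟨z, rfl⟩ := (pt Λ).exists_io (n := n) (y := z) (by omega)
    have c1 := (pt Λ).EY_dn.1 hb1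
    have c2 := (pt Λ).EY_dn.1 hb2
    have c3 := (pt Λ).EY_dn.1 hb3
    have c4 := (pt Λ).EY_dn.1 hb4
    obtain ⟨v1, c', d', hM, hc', hd'⟩ := (pt Λ).EY_eq.1 ha
    have hs := (pt Λ).Simp_it pt_Simp n
    have hv1 := ((pt Λ).it n).two_parents hs hc' hd' c1 c2 ⟨_, hM⟩
    subst hv1
    have e1 := ((pt Λ).it n).At_inj hs hc' c1
    have e2 := ((pt Λ).it n).At_inj hs hd' c2
    rw [e1, e2] at hM
    rcases ((pt Λ).it n).At_or c1 c3 with ⟨h1, _⟩ | ⟨e, h1, h2⟩
    · exact hwv (congrArg _ h1.symm)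
    rcases ((pt Λ).it n).At_or c2 c4 with ⟨h3, _⟩ | ⟨e', h3, h4⟩
    · exact hzv (congrArg _ h3.symm)
    obtain ⟨F, hF, hpres⟩ := star_pt c1.1
    refine Loc.thin_link h6 hF ((hpres e).1 ⟨_, h2⟩) ((hpres e').1 ⟨_, h4⟩) ?_ ?_ ⟨_, h1⟩ ⟨_, hM⟩
      (Loc.adj_symm ⟨_, h3⟩)
    · by_contra h
      exact c1.1 ((hpres _).2 h)
    · by_contra h
      exact c2.1 ((hpres _).2 h)

end PAct

end Pool.Agent.TriSurf
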