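import Pool.Agent.TriSurf.GQLink

/-!
# Cyclic branched covers with connected link
-/

set_option autoImplicit false
set_option maxRecDepth 100000

namespace Pool.Agent.TriSurf

/-! ### Two edge disjoint detours for each edge of the quadrangle -/

/-- for each edge of the link two detours without common edge -/
def detours : List (List ℕ × List ℕ) := [
  ([0, 24, 11, 18, 9, 28, 1, 15], [0, 29, 3, 16, 5, 27, 2, 15]),
  ([0, 15, 1, 25, 8, 23, 11, 24], [0, 29, 3, 16, 4, 22, 14, 24]),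
  ([0, 15, 1, 25, 8, 17, 6, 29], [0, 24, 11, 18, 10, 21, 3, 29]),
  ([1, 25, 8, 17, 6, 29, 0, 15], [1, 28, 4, 16, 5, 27, 2, 15]),
  ([1, 15, 0, 24, 11, 23, 8, 25], [1, 28, 4, 16, 3, 21, 13, 25]),
  ([1, 15, 0, 24, 11, 18, 9, 28], [1, 25, 8, 17, 7, 22, 4, 28]),
  ([2, 26, 7, 17, 6, 29, 0, 15], [2, 27, 5, 16, 4, 28, 1, 15]),
  ([2, 15, 0, 24, 11, 18, 10, 26], [2, 27, 5, 16, 4, 22, 7, 26]),
  ([2, 15, 0, 24, 11, 23, 5, 27], [2, 26, 7, 17, 6, 20, 12, 27]),
  ([3, 21, 10, 18, 9, 28, 4, 16], [3, 29, 0, 15, 2, 27, 5, 16]),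
  ([3, 16, 4, 22, 7, 26, 10, 21], [3, 29, 0, 15, 1, 25, 13, 21]),
  ([3, 16, 4, 22, 7, 17, 6, 29], [3, 21, 10, 18, 11, 24, 0, 29]),
  ([4, 22, 7, 17, 6, 29, 3, 16], [4, 28, 1, 15, 2, 27, 5, 16]),
  ([4, 16, 3, 21, 10, 26, 7, 22], [4, 28, 1, 15, 0, 24, 14, 22]),
  ([4, 16, 3, 21, 10, 18, 9, 28], [4, 22, 7, 17, 8, 25, 1, 28]),
  ([5, 23, 8, 17, 6, 29, 3, 16], [5, 27, 2, 15, 1, 28, 4, 16]),
  ([5, 16, 3, 21, 10, 18, 11, 23], [5, 27, 2, 15, 1, 25, 8, 23]),
  ([5, 16, 3, 21, 10, 26, 2, 27], [5, 23, 8, 17, 6, 20, 12, 27]),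
  ([6, 20, 9, 18, 10, 26, 7, 17], [6, 29, 0, 15, 1, 25, 8, 17]),
  ([6, 17, 7, 22, 4, 28, 9, 20], [6, 29, 0, 15, 2, 27, 12, 20]),
  ([6, 17, 7, 22, 4, 16, 3, 29], [6, 20, 9, 18, 11, 24, 0, 29]),
  ([7, 22, 4, 16, 3, 29, 6, 17], [7, 26, 2, 15, 1, 25, 8, 17]),
  ([7, 17, 6, 20, 9, 28, 4, 22], [7, 26, 2, 15, 0, 24, 14, 22]),
  ([7, 17, 6, 20, 9, 18, 10, 26], [7, 22, 4, 16, 5, 27, 2, 26]),
  ([8, 23, 5, 16, 3, 29, 6, 17], [8, 25, 1, 15, 2, 26, 7, 17]),
  ([8, 17, 6, 20, 9, 18, 11, 23], [8, 25, 1, 15, 2, 27, 5, 23]),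
  ([8, 17, 6, 20, 9, 28, 1, 25], [8, 23, 5, 16, 3, 21, 13, 25]),
  ([9, 20, 6, 17, 7, 26, 10, 18], [9, 28, 1, 15, 0, 24, 11, 18]),
  ([9, 18, 10, 21, 3, 29, 6, 20], [9, 28, 1, 15, 2, 27, 12, 20]),
  ([9, 18, 10, 21, 3, 16, 4, 28], [9, 20, 6, 17, 8, 25, 1, 28]),
  ([10, 21, 3, 16, 4, 28, 9, 18], [10, 26, 2, 15, 0, 24, 11, 18]),
  ([10, 18, 9, 20, 6, 29, 3, 21], [10, 26, 2, 15, 1, 25, 13, 21]),
  ([10, 18, 9, 20, 6, 17, 7, 26], [10, 21, 3, 16, 5, 27, 2, 26]),
  ([11, 23, 5, 16, 3, 21, 10, 18], [11, 24, 0, 15, 1, 28, 9, 18]),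
  ([11, 18, 9, 20, 6, 17, 8, 23], [11, 24, 0, 15, 2, 27, 5, 23]),
  ([11, 18, 9, 20, 6, 29, 0, 24], [11, 23, 5, 16, 4, 22, 14, 24]),
  ([12, 20, 6, 17, 7, 22, 14, 19], [12, 27, 2, 15, 1, 25, 13, 19]),
  ([12, 19, 13, 21, 3, 29, 6, 20], [12, 27, 2, 15, 1, 28, 9, 20]),
  ([12, 19, 13, 21, 3, 16, 5, 27], [12, 20, 6, 17, 7, 26, 2, 27]),
  ([13, 21, 3, 16, 4, 22, 14, 19], [13, 25, 1, 15, 2, 27, 12, 19]),
  ([13, 19, 12, 20, 6, 29, 3, 21], [13, 25, 1, 15, 2, 26, 10, 21]),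
  ([13, 19, 12, 20, 6, 17, 8, 25], [13, 21, 3, 16, 4, 28, 1, 25]),
  ([14, 22, 4, 16, 3, 21, 13, 19], [14, 24, 0, 15, 2, 27, 12, 19]),
  ([14, 19, 12, 20, 6, 17, 7, 22], [14, 24, 0, 15, 1, 28, 4, 22]),
  ([14, 19, 12, 20, 6, 29, 0, 24], [14, 22, 4, 16, 5, 23, 11, 24])]

/-- `{a, b}` is the edge `{l, q}` -/
def isE (a b l q : ℕ) : Bool := (Nat.beq a l && Nat.beq b q) || (Nat.beq b l && Nat.beq a q)

/-- all steps of a walk are edges different from two given edges -/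
def stepsOK (l q l' q' : ℕ) : ℕ → List ℕ → Bool
  | _, [] => true
  | a, b :: P => adjN a b && (!isE a b l q && (!isE a b l' q' && stepsOK l q l' q' b P))

/-- check of one entry -/
def detE (D : List ℕ × List ℕ) : Bool :=
  match D.1, D.2 with
  | a :: P, b :: Q => allN 30 fun l' => allN 30 fun q' => !adjN l' q' ||
      (isE a (P.getLastD 0) l' q' || (stepsOK a (P.getLastD 0) l' q' a P ||
        stepsOK a (P.getLastD 0) l' q' b Q))
  | _, _ => false

theorem det_chk : detours.all detE = true := by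
  decide +kernel

/-- the walk leads from `l` to `q` -/
def se (l q : ℕ) : List ℕ → Bool
  | [] => false
  | a :: P => Nat.beq a l && Nat.beq (P.getLastD 0) q

theorem det_cov : allN 15 (fun l => allN 30 fun q => !adjN l q ||
    detours.any fun D => se l q D.1 && se l q D.2) = true := by
  decide +kernel

theorem walk_of_steps {l q l' q' : ℕ} : ∀ (P : List ℕ) (a : ℕ), a < 30 → (∀ b ∈ P, b < 30) →
    stepsOK l q l' q' a P = true → P ≠ [] →
    Relation.ReflTransGen (fun a b => a < 30 ∧ b < 30 ∧ adjN a b = true ∧ isE a b l q = false ∧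
      isE a b l' q' = false) a (P.getLastD 0) := by
  intro P
  induction P with
  | nil => intro a _ _ _ h; exact absurd rfl h
  | cons b P ih =>
    intro a ha hP h _
    rw [stepsOK] at h
    simp only [Bool.and_eq_true, Bool.not_eq_true'] at h
    obtain ⟨h1, h2, h3, h4⟩ := h
    have hb := hP b List.mem_cons_self
    refine Relation.ReflTransGen.head ⟨ha, hb, h1, h2, h3⟩ ?_
    by_cases hPn : P = []
    · subst hPn
      exact Relation.ReflTransGen.refl
    · have := ih b hb (fun c hc => hP c (List.mem_cons_of_mem _ hc)) h4 hPn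
      cases P with
      | nil => exact absurd rfl hPn
      | cons c P => exact this

theorem det_lt : detours.all (fun D => D.1.all (fun a => Nat.blt a 30) && D.2.all (fun a => Nat.blt a 30))
    = true := by
  decide +kernel

theorem detour {l q l' q' : ℕ} (hl : l < 15) (hq : q < 30) (h : adjN l q = true) (hl' : l' < 30)
    (hq' : q' < 30) (h' : adjN l' q' = true) (hne : isE l q l' q' = false) :
    Relation.ReflTransGen (fun a b => a < 30 ∧ b < 30 ∧ adjN a b = true ∧ isE a b l q = false ∧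
      isE a b l' q' = false) l q := by
  have h1 := allN_spec (allN_spec det_cov l hl) q hq
  rw [h] at h1
  simp only [Bool.not_true, Bool.false_or, List.any_eq_true, Bool.and_eq_true] at h1
  obtain ⟨⟨D1, D2⟩, hD, h2, h3⟩ := h1
  have h4 := List.all_eq_true.1 det_chk _ hD
  have h5 := List.all_eq_true.1 det_lt _ hD
  simp only [Bool.and_eq_true, List.all_eq_true, Nat.blt_eq] at h5
  cases D1 with
  | nil => cases h2
  | cons a P =>
    cases D2 with
    | nil => cases h3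
    | cons b Q =>
      rw [se, Bool.and_eq_true] at h2 h3
      have e1 := Nat.eq_of_beq_eq_true h2.1
      have e2 := Nat.eq_of_beq_eq_true h2.2
      have e3 := Nat.eq_of_beq_eq_true h3.1
      have e4 := Nat.eq_of_beq_eq_true h3.2
      subst e1
      subst e3
      have h6 := allN_spec (allN_spec h4 l' hl') q' hq'
      rw [h', e2, hne] at h6
      simp only [Bool.not_true, Bool.false_or, Bool.or_eq_true] at h6
      have hq0 : q ≠ 0 := by
        rcases adjN_kind _ (by omega) _ hq h with h7 | h7 <;> omega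
      rcases h6 with h6 | h6
      · have hP : P ≠ [] := by
          rintro rfl
          exact hq0 e2.symm
        have := walk_of_steps P _ (h5.1 _ List.mem_cons_self)
          (fun c hc => h5.1 c (List.mem_cons_of_mem _ hc)) h6 hP
        rw [e2] at this
        exact this
      · have hQ : Q ≠ [] := by
          rintro rfl
          exact hq0 e4.symm
        have := walk_of_steps Q _ (h5.2 _ List.mem_cons_self)
          (fun c hc => h5.2 c (List.mem_cons_of_mem _ hc)) h6 hQ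
        rw [e4] at this
        exact this

/-! ### Voltages -/

section

variable {k : ℕ} (n : ℕ) [NeZero n]

/-- the voltage: `1` on the arc `x0 y0`, `-1` on the arc `z0 x0` -/
def volt (x0 y0 z0 x y : Fin k) : Fin n :=
  if x = x0 ∧ y = y0 then 1 else if x = z0 ∧ y = x0 then -1 else 0

theorem volt_sum {T : List (Fin k × Fin k × Fin k)} (hF : Fun3 T) {x0 y0 z0 : Fin k}
    (h0 : Rel3 T x0 y0 z0) (hne : ¬ (x0 = y0 ∧ y0 = z0)) {x y z : Fin k} (h : Rel3 T x y z) :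
    volt n x0 y0 z0 x y + volt n x0 y0 z0 y z + volt n x0 y0 z0 z x = 0 := by
  have h0' := Rel3_rot h0
  have h0'' := Rel3_rot h0'
  have h' := Rel3_rot h
  have h'' := Rel3_rot h'
  have key : (x = x0 ∧ y = y0 ∧ z = z0) ∨ (y = x0 ∧ z = y0 ∧ x = z0) ∨ (z = x0 ∧ x = y0 ∧ y = z0) ∨
      (¬ (x = x0 ∧ y = y0) ∧ ¬ (y = x0 ∧ z = y0) ∧ ¬ (z = x0 ∧ x = y0) ∧ ¬ (x = z0 ∧ y = x0) ∧
        ¬ (y = z0 ∧ z = x0) ∧ ¬ (z = z0 ∧ x = x0)) := by
    by_cases c1 : x = x0 ∧ y = y0
    · obtain ⟨rfl, rfl⟩ := c1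
      exact Or.inl ⟨rfl, rfl, hF _ _ _ _ h h0⟩
    by_cases c2 : y = x0 ∧ z = y0
    · obtain ⟨rfl, rfl⟩ := c2
      exact Or.inr (Or.inl ⟨rfl, rfl, hF _ _ _ _ h' h0⟩)
    by_cases c3 : z = x0 ∧ x = y0
    · obtain ⟨rfl, rfl⟩ := c3
      exact Or.inr (Or.inr (Or.inl ⟨rfl, rfl, hF _ _ _ _ h'' h0⟩))
    refine Or.inr (Or.inr (Or.inr ⟨c1, c2, c3, ?_, ?_, ?_⟩))
    · rintro ⟨rfl, rfl⟩
      exact c2 ⟨rfl, hF _ _ _ _ h h0''⟩
    · rintro ⟨rfl, rfl⟩
      exact c3 ⟨rfl, hF _ _ _ _ h' h0''⟩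
    · rintro ⟨rfl, rfl⟩
      exact c1 ⟨rfl, hF _ _ _ _ h'' h0''⟩
  unfold volt
  rcases key with ⟨rfl, rfl, rfl⟩ | ⟨rfl, rfl, rfl⟩ | ⟨rfl, rfl, rfl⟩ | ⟨c1, c2, c3, c4, c5, c6⟩
  · have e1 : ¬ (y = x ∧ z = y) := fun h => hne ⟨h.1.symm, h.2.symm⟩
    have e2 : ¬ (y = z ∧ z = x) := fun h => hne ⟨(h.1.trans h.2).symm, h.1⟩
    have e3 : ¬ (z = x ∧ x = y) := fun h => hne ⟨h.2, (h.1.trans h.2).symm⟩
    simp [e1, e2, e3]
  · have e1 : ¬ (x = y ∧ y = z) := fun h => hne ⟨h.2, (h.1.trans h.2).symm⟩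
    have e2 : ¬ (z = y ∧ x = z) := fun h => hne ⟨h.1.symm, h.2.symm⟩
    have e3 : ¬ (z = x ∧ x = y) := fun h => hne ⟨(h.1.trans h.2).symm, h.1⟩
    simp [e1, e2, e3]
  · have e1 : ¬ (x = z ∧ y = x) := fun h => hne ⟨h.1.symm, h.2.symm⟩
    have e2 : ¬ (x = y ∧ y = z) := fun h => hne ⟨(h.1.trans h.2).symm, h.1⟩
    have e3 : ¬ (y = z ∧ z = x) := fun h => hne ⟨h.2, (h.1.trans h.2).symm⟩
    simp [e1, e2, e3]
  · simp [c1, c2, c3, c4, c5, c6]

end

/-! ### The cover -/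

/-- the adjacency relation of the link -/
def LkAdj {k : ℕ} (T : List (Fin k × Fin k × Fin k)) (a b : Fin k × Bool) : Prop :=
  (a.2 = false ∧ b.2 = true ∧ Lk T a.1 b.1) ∨ (a.2 = true ∧ b.2 = false ∧ Lk T b.1 a.1)

theorem LkAdj.symm {k : ℕ} {T : List (Fin k × Fin k × Fin k)} {a b : Fin k × Bool} (h : LkAdj T a b) :
    LkAdj T b a := by
  rcases h with ⟨h1, h2, h3⟩ | ⟨h1, h2, h3⟩
  · exact Or.inr ⟨h2, h1, h3⟩
  · exact Or.inl ⟨h2, h1, h3⟩

section

variable {k n : ℕ} [NeZero n]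

/-- letters over letters -/
def pr (a : Fin (k * n)) : Fin k := (finProdFinEquiv.symm a).1

/-- the level of a letter -/
def lev (a : Fin (k * n)) : Fin n := (finProdFinEquiv.symm a).2

/-- the letter over `x` of level `i` -/
def up (x : Fin k) (i : Fin n) : Fin (k * n) := finProdFinEquiv (x, i)

omit [NeZero n] in
theorem pr_up (x : Fin k) (i : Fin n) : pr (up x i) = x := by simp [pr, up]

omit [NeZero n] in
theorem lev_up (x : Fin k) (i : Fin n) : lev (up x i) = i := by simp [lev, up]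

omit [NeZero n] in
theorem up_pr (a : Fin (k * n)) : up (pr a) (lev a) = a :=
  finProdFinEquiv.apply_symm_apply a

/-- the relators over the relators of `T` -/
def voltT (T : List (Fin k × Fin k × Fin k)) (v : Fin k → Fin k → Fin n) :
    List (Fin (k * n) × Fin (k * n) × Fin (k * n)) :=
  T.flatMap fun t => (List.finRange n).map fun i =>
    (up t.1 i, up t.2.1 (i + v t.1 t.2.1), up t.2.2 (i + v t.1 t.2.1 + v t.2.1 t.2.2))

omit [NeZero n] in
theorem mem_voltT {T : List (Fin k × Fin k × Fin k)} {v : Fin k → Fin k → Fin n} {a b c : Fin (k * n)} :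
    (a, b, c) ∈ voltT T v ↔ (pr a, pr b, pr c) ∈ T ∧ lev b = lev a + v (pr a) (pr b) ∧
      lev c = lev b + v (pr b) (pr c) := by
  rw [voltT, List.mem_flatMap]
  constructor
  · rintro ⟨⟨x, y, z⟩, ht, hm⟩
    rw [List.mem_map] at hm
    obtain ⟨i, _, hi⟩ := hm
    simp only [Prod.mk.injEq] at hi
    obtain ⟨rfl, rfl, rfl⟩ := hi
    simp only [pr_up, lev_up]
    exact ⟨ht, trivial, trivial⟩
  · rintro ⟨h1, h2, h3⟩
    refine ⟨_, h1, ?_⟩
    rw [List.mem_map]
    refine ⟨lev a, List.mem_finRange _, ?_⟩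
    simp only [← h2, ← h3, up_pr]

theorem Rel3_voltT {T : List (Fin k × Fin k × Fin k)} {v : Fin k → Fin k → Fin n}
    (hv : ∀ x y z, Rel3 T x y z → v x y + v y z + v z x = 0) {a b c : Fin (k * n)} :
    Rel3 (voltT T v) a b c ↔ Rel3 T (pr a) (pr b) (pr c) ∧ lev b = lev a + v (pr a) (pr b) ∧
      lev c = lev b + v (pr b) (pr c) := by
  have rot : ∀ {x y z : Fin k} {i j l : Fin n}, v x y + v y z + v z x = 0 → j = i + v x y →
      l = j + v y z → i = l + v z x := by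
    intro x y z i j l h h1 h2
    rw [h2, h1, add_assoc, add_assoc, ← add_assoc (v x y), h, add_zero]
  constructor
  · rintro (h | h | h)
    · obtain ⟨h1, h2, h3⟩ := mem_voltT.1 h
      exact ⟨Or.inl h1, h2, h3⟩
    · obtain ⟨h1, h2, h3⟩ := mem_voltT.1 h
      have h4 : Rel3 T (pr b) (pr c) (pr a) := Or.inl h1
      have h5 := Rel3_rot (Rel3_rot h4)
      exact ⟨h5, rot (hv _ _ _ h4) h2 h3, h2⟩
    · obtain ⟨h1, h2, h3⟩ := mem_voltT.1 h
      have h4 : Rel3 T (pr c) (pr a) (pr b) := Or.inl h1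
      exact ⟨Rel3_rot h4, h3, rot (hv _ _ _ h4) h2 h3⟩
  · rintro ⟨h1, h2, h3⟩
    have h4 := rot (hv _ _ _ h1) h2 h3
    rcases h1 with h | h | h
    · exact Or.inl (mem_voltT.2 ⟨h, h2, h3⟩)
    · exact Or.inr (Or.inl (mem_voltT.2 ⟨h, h3, h4⟩))
    · exact Or.inr (Or.inr (mem_voltT.2 ⟨h, h4, h2⟩))

theorem bcov_voltT {T : List (Fin k × Fin k × Fin k)} {v : Fin k → Fin k → Fin n}
    (hv : ∀ x y z, Rel3 T x y z → v x y + v y z + v z x = 0) : BCov (voltT T v) T pr where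
  map := fun x y z h => ((Rel3_voltT hv).1 h).1
  lift := by
    intro x y z h
    refine ⟨(up y (lev x + v (pr x) y), up z (lev x + v (pr x) y + v y z)), ⟨?_, pr_up _ _, pr_up _ _⟩, ?_⟩
    · rw [Rel3_voltT hv]
      simp only [pr_up, lev_up]
      exact ⟨h, trivial, trivial⟩
    · rintro ⟨b, c⟩ ⟨h1, h2, h3⟩
      obtain ⟨_, h4, h5⟩ := (Rel3_voltT hv).1 h1
      have h2 : pr b = y := h2
      have h3 : pr c = z := h3
      rw [Prod.mk.injEq]
      constructor
      · rw [← up_pr b, h4, h2]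
      · rw [← up_pr c, h5, h4, h3, h2]

theorem Lk_voltT {T : List (Fin k × Fin k × Fin k)} {v : Fin k → Fin k → Fin n}
    (hv : ∀ x y z, Rel3 T x y z → v x y + v y z + v z x = 0) {x y : Fin k} (h : Lk T x y) (i : Fin n) :
    Lk (voltT T v) (up x i) (up y (i + v x y)) := by
  obtain ⟨z, hz⟩ := h
  refine ⟨up z (i + v x y + v y z), ?_⟩
  rw [Rel3_voltT hv]
  simp only [pr_up, lev_up]
  exact ⟨hz, trivial, trivial⟩

/-- one step of path lifting -/
theorem lift_step {T : List (Fin k × Fin k × Fin k)} {v : Fin k → Fin k → Fin n}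
    (hv : ∀ x y z, Rel3 T x y z → v x y + v y z + v z x = 0) {a b : Fin k × Bool} (h : LkAdj T a b)
    (i : Fin n) : ∃ j, LkAdj (voltT T v) (up a.1 i, a.2) (up b.1 j, b.2) ∧
      ((a.2 = false → v a.1 b.1 = 0) → (a.2 = true → v b.1 a.1 = 0) → j = i) := by
  rcases h with ⟨h1, h2, h3⟩ | ⟨h1, h2, h3⟩
  · refine ⟨i + v a.1 b.1, Or.inl ⟨h1, h2, Lk_voltT hv h3 i⟩, ?_⟩
    intro h4 _
    rw [h4 h1, add_zero]
  · refine ⟨i - v b.1 a.1, Or.inr ⟨h1, h2, ?_⟩, ?_⟩
    · have := Lk_voltT hv h3 (i - v b.1 a.1)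
      rwa [sub_add_cancel] at this
    · intro _ h4
      rw [h4 h1, sub_zero]

theorem lift_path {T : List (Fin k × Fin k × Fin k)} {v : Fin k → Fin k → Fin n}
    (hv : ∀ x y z, Rel3 T x y z → v x y + v y z + v z x = 0) {a b : Fin k × Bool}
    (h : Relation.ReflTransGen (LkAdj T) a b) (i : Fin n) :
    ∃ j, Relation.ReflTransGen (LkAdj (voltT T v)) (up a.1 i, a.2) (up b.1 j, b.2) := by
  induction h with
  | refl => exact ⟨i, Relation.ReflTransGen.refl⟩
  | tail _ h ih =>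
    obtain ⟨j, hj⟩ := ih
    obtain ⟨l, hl, _⟩ := lift_step hv h j
    exact ⟨l, hj.tail hl⟩

theorem lift_path0 {T : List (Fin k × Fin k × Fin k)} {v : Fin k → Fin k → Fin n}
    (hv : ∀ x y z, Rel3 T x y z → v x y + v y z + v z x = 0) {a b : Fin k × Bool}
    (h : Relation.ReflTransGen (fun a b => LkAdj T a b ∧ (a.2 = false → v a.1 b.1 = 0) ∧
      (a.2 = true → v b.1 a.1 = 0)) a b) (i : Fin n) :
    Relation.ReflTransGen (LkAdj (voltT T v)) (up a.1 i, a.2) (up b.1 i, b.2) := by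
  induction h with
  | refl => exact Relation.ReflTransGen.refl
  | tail _ h ih =>
    obtain ⟨l, hl, h2⟩ := lift_step hv h.1 i
    rw [h2 h.2.1 h.2.2] at hl
    exact ih.tail hl

theorem rtg_symm {k : ℕ} {T : List (Fin k × Fin k × Fin k)} {a b : Fin k × Bool}
    (h : Relation.ReflTransGen (LkAdj T) a b) : Relation.ReflTransGen (LkAdj T) b a := by
  induction h with
  | refl => exact Relation.ReflTransGen.refl
  | tail _ h ih => exact Relation.ReflTransGen.head h.symm ih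

/-- connectivity of the link of the cover -/
theorem linkConn_voltT {T : List (Fin k × Fin k × Fin k)} {v : Fin k → Fin k → Fin n}
    (hv : ∀ x y z, Rel3 T x y z → v x y + v y z + v z x = 0)
    (hc : ∀ a b, Relation.ReflTransGen (LkAdj T) a b) {x0 y0 : Fin k} (hxy : Lk T x0 y0)
    (hv1 : v x0 y0 = 1)
    (hd : Relation.ReflTransGen (fun a b => LkAdj T a b ∧ (a.2 = false → v a.1 b.1 = 0) ∧
      (a.2 = true → v b.1 a.1 = 0)) (y0, true) (x0, false)) : LinkConn (voltT T v) := by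
  have h1 : ∀ i : Fin n, Relation.ReflTransGen (LkAdj (voltT T v)) (up x0 i, false) (up x0 (i + 1), false) := by
    intro i
    have := Lk_voltT hv hxy i
    rw [hv1] at this
    refine Relation.ReflTransGen.head (b := (up y0 (i + 1), true)) (Or.inl ⟨rfl, rfl, this⟩) ?_
    exact lift_path0 hv hd (i + 1)
  have h2 : ∀ (m : ℕ) (i : Fin n), Relation.ReflTransGen (LkAdj (voltT T v)) (up x0 i, false)
      (up x0 (i + (m • (1 : Fin n))), false) := by
    intro m
    induction m with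
    | zero => intro i; rw [zero_smul, add_zero]
    | succ m ih =>
      intro i
      have := (ih i).trans (h1 _)
      rwa [add_assoc, ← succ_nsmul] at this
  have h3 : ∀ i j : Fin n, Relation.ReflTransGen (LkAdj (voltT T v)) (up x0 i, false) (up x0 j, false) := by
    intro i j
    have := h2 (j - i).1 i
    have e0 : ∀ m : ℕ, ((m • (1 : Fin n)) : Fin n).1 = m % n := by
      intro m
      induction m with
      | zero => rw [zero_smul]; simp
      | succ m ih => rw [succ_nsmul, Fin.val_add, ih, Fin.val_one', ← Nat.add_mod]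
    have e1 : ((j - i).1 • (1 : Fin n)) = j - i := by
      apply Fin.ext
      rw [e0, Nat.mod_eq_of_lt (j - i).2]
    rwa [e1, add_sub_cancel] at this
  have h4 : ∀ a : Fin (k * n) × Bool, Relation.ReflTransGen (LkAdj (voltT T v)) (up x0 0, false) a := by
    rintro ⟨a, b⟩
    obtain ⟨j, hj⟩ := lift_path hv (hc (pr a, b) (x0, false)) (lev a)
    have e1 : up (pr a) (lev a) = a := up_pr a
    simp only [e1] at hj
    exact (h3 0 j).trans (rtg_symm hj)
  intro a b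
  exact (rtg_symm (h4 a)).trans (h4 b)

end

/-! ### Cyclic covers over the quadrangle -/

theorem isE_false {a b l q : ℕ} (h : isE a b l q = false) : ¬ (a = l ∧ b = q) ∧ ¬ (b = l ∧ a = q) := by
  constructor
  · rintro ⟨rfl, rfl⟩
    simp [isE] at h
  · rintro ⟨rfl, rfl⟩
    simp [isE] at h

theorem isE_of {a b l q : ℕ} (h : ¬ (a = l ∧ b = q)) (h' : ¬ (b = l ∧ a = q)) : isE a b l q = false := by
  rw [isE, Bool.or_eq_false_iff, Bool.and_eq_false_iff, Bool.and_eq_false_iff]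
  constructor
  · by_cases c : a = l
    · right
      rw [← Bool.not_eq_true, Nat.beq_eq]
      exact fun h2 => h ⟨c, h2⟩
    · left
      rw [← Bool.not_eq_true, Nat.beq_eq]
      exact c
  · by_cases c : b = l
    · right
      rw [← Bool.not_eq_true, Nat.beq_eq]
      exact fun h2 => h' ⟨c, h2⟩
    · left
      rw [← Bool.not_eq_true, Nat.beq_eq]
      exact c

theorem gq_one : ∀ a, a < 30 → ∃ b, b < 30 ∧ adjN a b = true := by
  have h : allN 30 (fun a => anyN 30 fun b => adjN a b) = true := by decide +kernel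
  intro a ha
  exact anyN_spec (allN_spec h a ha)

theorem exists_noncube {T : List (Fin 15 × Fin 15 × Fin 15)} {p l : Fin 15 ≃ Fin 15}
    (hL : ∀ x y, Lk T x y ↔ En.incB (l x).1 (p y).1 = true) :
    ∃ x0 y0 z0, Rel3 T x0 y0 z0 ∧ ¬ (x0 = y0 ∧ y0 = z0) := by
  have h0 := (l 0).2
  obtain ⟨a, ha, h1⟩ := gq_one (l 0).1 (by omega)
  obtain ⟨b, hb, h2, hne⟩ := gq_two _ (by omega) _ ha h1
  have ha15 : 15 ≤ a := by rcases adjN_kind _ (by omega) _ ha h1 with h | h <;> omega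
  have hb15 : 15 ≤ b := by rcases adjN_kind _ (by omega) _ hb h2 with h | h <;> omega
  obtain ⟨y, hy⟩ : ∃ y, p y = ⟨a - 15, by omega⟩ := p.surjective _
  obtain ⟨y', hy'⟩ : ∃ y, p y = ⟨b - 15, by omega⟩ := p.surjective _
  have e1 : 15 + (p y).1 = a := by rw [hy]; show 15 + (a - 15) = a; omega
  have e2 : 15 + (p y').1 = b := by rw [hy']; show 15 + (b - 15) = b; omega
  have k1 : Lk T 0 y := by rw [En.lk_adj hL, e1]; exact h1
  have k2 : Lk T 0 y' := by rw [En.lk_adj hL, e2]; exact h2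
  have hyy : y ≠ y' := by
    rintro rfl
    exact hne (e2.symm.trans e1)
  by_cases c : (0 : Fin 15) = y
  · have c' : (0 : Fin 15) ≠ y' := fun h => hyy (c.symm.trans h)
    obtain ⟨z, hz⟩ := k2
    exact ⟨_, _, _, hz, fun h => c' h.1⟩
  · obtain ⟨z, hz⟩ := k1
    exact ⟨_, _, _, hz, fun h => c h.1⟩

theorem exists_cover {T : List (Fin 15 × Fin 15 × Fin 15)} (hF : Fun3 T) (hG : LinkGQ T) (n : ℕ)
    (hn : 0 < n) : ∃ (T' : List (Fin (15 * n) × Fin (15 * n) × Fin (15 * n))) (π : Fin (15 * n) → Fin 15),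
      BCov T' T π ∧ LinkConn T' := by
  have : NeZero n := ⟨by omega⟩
  obtain ⟨p, l, hL⟩ := En.exists_codes hG
  have hlk := En.lk_adj hL
  have h4 := En.gq_NoFour hL
  have K := En.codeG hL hF h4
  obtain ⟨x0, y0, z0, h0, hne⟩ := exists_noncube hL
  have hv := fun x y z => volt_sum n hF h0 hne (x := x) (y := y) (z := z)
  refine ⟨voltT T (volt n x0 y0 z0), pr, bcov_voltT hv, ?_⟩
  have hadj : ∀ a b : Fin 15 × Bool, (locF T hF h4).adj a b ↔ LkAdj T a b := fun a b => locF_adj T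
  have hc : ∀ a b, Relation.ReflTransGen (LkAdj T) a b := by
    intro a b
    have h1 := (K.conn (fun _ => False) (by intro f f' h; exact h.elim)).2 a b ⟨id, fun _ h => h.elim⟩
      ⟨id, fun _ h => h.elim⟩
    exact Relation.ReflTransGen.mono (fun c d hcd => (hadj c d).1 hcd.1) _ _ h1
  refine linkConn_voltT hv hc ⟨z0, h0⟩ (by simp [volt]) ?_
  -- the detour
  have hx0 := (l x0).2
  have hz0 := (l z0).2
  have hpy := (p y0).2
  have hpx := (p x0).2
  have hne2 : ¬ (x0 = z0 ∧ y0 = x0) := by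
    rintro ⟨h1, h2⟩
    exact hne ⟨h2.symm, h2.trans h1⟩
  have hd := detour (l := (l x0).1) (q := 15 + (p y0).1) (l' := (l z0).1) (q' := 15 + (p x0).1) hx0
    (by omega) ((hlk _ _).1 ⟨z0, h0⟩) (by omega) (by omega)
    ((hlk _ _).1 ⟨y0, Rel3_rot (Rel3_rot h0)⟩) (isE_of (by
      rintro ⟨h1, h2⟩
      exact hne2 ⟨l.injective (Fin.ext h1), p.injective (Fin.ext (by omega))⟩) (by
      rintro ⟨h1, h2⟩
      omega))
  -- transport of the detour
  have key : ∀ m, Relation.ReflTransGen (fun a b => a < 30 ∧ b < 30 ∧ adjN a b = true ∧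
      isE a b (l x0).1 (15 + (p y0).1) = false ∧ isE a b (l z0).1 (15 + (p x0).1) = false) (l x0).1 m →
      ∃ c : Fin 15 × Bool, (if c.2 then 15 + (p c.1).1 else (l c.1).1) = m ∧
        Relation.ReflTransGen (fun a b => LkAdj T a b ∧ (a.2 = false → volt n x0 y0 z0 a.1 b.1 = 0) ∧
          (a.2 = true → volt n x0 y0 z0 b.1 a.1 = 0)) c (x0, false) := by
    intro m hm
    induction hm with
    | refl => exact ⟨(x0, false), rfl, Relation.ReflTransGen.refl⟩
    | tail _ h ih =>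
      obtain ⟨⟨x, b⟩, hc1, hc2⟩ := ih
      obtain ⟨h1, h2, h3, h5, h6⟩ := h
      obtain ⟨⟨x', b'⟩, hd'⟩ := (En.codeG hL hF h4).surj _ h2
      have hd'' : (if b' then 15 + (p x').1 else (l x').1) = _ := hd'
      refine ⟨(x', b'), hd'', Relation.ReflTransGen.head ?_ hc2⟩
      simp only at hc1
      rw [← hc1, ← hd''] at h3 h5 h6
      have l1 := (l x).2
      have l2 := (l x').2
      have l3 := (p x).2
      have l4 := (p x').2
      have f5 := isE_false h5
      have f6 := isE_false h6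
      cases b <;> cases b'
      · simp only [Bool.false_eq_true, if_false] at h3
        rcases adjN_kind _ (by omega) _ (by omega) h3 with ⟨h7, h8⟩ | ⟨h7, h8⟩ <;> omega
      · simp only [Bool.false_eq_true, if_false, if_true] at h3 f5 f6
        refine ⟨Or.inr ⟨rfl, rfl, (hlk _ _).2 h3⟩, fun h => absurd h (by simp), fun _ => ?_⟩
        have g1 : ¬ (x = x0 ∧ x' = y0) := by
          rintro ⟨rfl, rfl⟩
          exact f5.1 ⟨rfl, rfl⟩
        have g2 : ¬ (x = z0 ∧ x' = x0) := by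
          rintro ⟨rfl, rfl⟩
          exact f6.1 ⟨rfl, rfl⟩
        simp [volt, g1, g2]
      · simp only [Bool.false_eq_true, if_false, if_true] at h3 f5 f6
        refine ⟨Or.inl ⟨rfl, rfl, (hlk _ _).2 (adjN_symm _ (by omega) _ (by omega) h3)⟩,
          fun _ => ?_, fun h => absurd h (by simp)⟩
        have g1 : ¬ (x' = x0 ∧ x = y0) := by
          rintro ⟨rfl, rfl⟩
          exact f5.2 ⟨rfl, rfl⟩
        have g2 : ¬ (x' = z0 ∧ x = x0) := by
          rintro ⟨rfl, rfl⟩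
          exact f6.2 ⟨rfl, rfl⟩
        simp [volt, g1, g2]
      · simp only [if_true] at h3
        rcases adjN_kind _ (by omega) _ (by omega) h3 with ⟨h7, h8⟩ | ⟨h7, h8⟩ <;> omega
  obtain ⟨⟨x, b⟩, hc1, hc2⟩ := key _ hd
  have l1 := (l x).2
  have l3 := (p x).2
  cases b
  · simp only [Bool.false_eq_true, if_false] at hc1
    omega
  · simp only [if_true] at hc1
    have : x = y0 := p.injective (Fin.ext (by omega))
    rw [this] at hc2
    exact hc2

/-! ### Checked presentations are presentations over the quadrangle -/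

theorem linkGQ_of_chk {T : List (Fin 15 × Fin 15 × Fin 15)} {lam : List ℕ}
    (h : chkGQ (nat3 15 T) lam = true) : LinkGQ T := by
  refine ⟨En.pairF, fun x => En.invF ⟨lam.getD x.1 0, chkGQ_lt h x⟩, En.pairF_inj, ?_, by decide, ?_, ?_⟩
  · intro x y hxy
    have hinj : Function.Injective En.invF := by decide +kernel
    exact chkGQ_inj h (congrArg Fin.val (hinj hxy))
  · have h2 : ∀ l i, En.invF l (En.invF l i) = i ∧ En.invF l i ≠ i := by decide +kernel
    intro x i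
    exact h2 _ i
  · intro x y
    rw [chkGQ_Lk h, En.adj_inc ⟨lam.getD x.1 0, chkGQ_lt h x⟩ y, En.inc_model]

end Pool.Agent.TriSurf
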