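import Pool.Agent.TriSurf.FinG
import Pool.Agent.TriSurf.Volt

/-!
Surface subgroups of the triangular building lattices over the generalized quadrangle of order (2, 2), and
of all their branched covers.

A list `T` of triples of 15 letters is a triangle presentation over the quadrangle if the third letter of a
relator is determined by the first two and the link is the incidence graph of the generalized quadrangle of
order (2, 2) (the Tutte eight-cage).  The group `TriGroup 15 T` then acts simply transitively on the vertices
of a triangular hyperbolic building.  We prove, for every such `T` (with or without torsion), that this group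
is hyperbolic, has one end and contains a surface group, and that the same is true for the group of every
branched cover of `T` with connected link (the presentation complex of such a group has one vertex and maps
to the presentation complex of `T` by a covering away from the vertex; its universal cover is in general no
longer a building); such covers exist in every degree.
-/

set_option autoImplicit false

namespace Pool.Agent.TriSurf.Lattices

open Pool.Agent.TriSurf

/-- `T` is a triangle presentation over the generalized quadrangle of order (2, 2) -/
structure IsQuadranglePresentation (T : List (Fin 15 × Fin 15 × Fin 15)) : Prop where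
  /-- the third letter of a relator is determined by the first two -/
  fun3 : Fun3 T
  /-- the link is the incidence graph of the quadrangle -/
  link : LinkGQ T

/-- such presentations exist; this one has no cubes -/
theorem isQuadranglePresentation_T0 : IsQuadranglePresentation T0 where
  fun3 := chkGQ_Fun (lam := [3, 8, 0, 6, 11, 5, 7, 1, 9, 10, 2, 14, 4, 12, 13]) (by decide +kernel)
  link := linkGQ_of_chk (lam := [3, 8, 0, 6, 11, 5, 7, 1, 9, 10, 2, 14, 4, 12, 13]) (by decide +kernel)

theorem result (T : List (Fin 15 × Fin 15 × Fin 15)) (hT : IsQuadranglePresentation T) :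
    (OneEndedHyperbolic (TriGroup 15 T) ∧ HasSurfaceSubgroup (TriGroup 15 T)) ∧
    (∀ (k : ℕ) (T' : List (Fin k × Fin k × Fin k)) (π : Fin k → Fin 15), 0 < k → BCov T' T π →
      LinkConn T' → OneEndedHyperbolic (TriGroup k T') ∧ HasSurfaceSubgroup (TriGroup k T')) ∧
    (∀ n : ℕ, 0 < n → ∃ (T' : List (Fin (15 * n) × Fin (15 * n) × Fin (15 * n)))
      (π : Fin (15 * n) → Fin 15), BCov T' T π ∧ LinkConn T') := by
  obtain ⟨hF, hG⟩ := hT
  have hcov : ∀ (k : ℕ) (T' : List (Fin k × Fin k × Fin k)) (π : Fin k → Fin 15), 0 < k → BCov T' T π →
      HasSurfaceSubgroup (TriGroup k T') ∧ (LinkConn T' → OneEndedHyperbolic (TriGroup k T')) := by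
    intro k T' π hk B
    obtain ⟨p, l, hL⟩ := En.exists_codes hG
    have hgood := En.classifyG (En.tp_of hF hL (tf := false) fun h => absurd h (by decide))
    exact ⟨surface_cover sfAllG hgood hk B, fun hl => oneEnded_cover hF hG hk B hl⟩
  refine ⟨?_, fun k T' π hk B hl => ⟨(hcov k T' π hk B).2 hl, (hcov k T' π hk B).1⟩,
    fun n hn => exists_cover hF hG n hn⟩
  have B : BCov T T id := by
    refine ⟨fun x y z h => h, fun x y z h => ⟨(y, z), ⟨h, rfl, rfl⟩, ?_⟩⟩
    rintro ⟨a, b⟩ ⟨_, h2, h3⟩
    exact Prod.ext h2 h3
  obtain ⟨h1, h2⟩ := hcov 15 T id (by norm_num) B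
  obtain ⟨p, l, hL⟩ := En.exists_codes hG
  have h4 := En.gq_NoFour hL
  exact ⟨oneEnded_of hF h4 (En.gq_NoSix hL) (En.codeG hL hF h4).conn (En.codeG hL hF h4).two, h1⟩

end Pool.Agent.TriSurf.Lattices
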