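import Pool.Agent.TriSurf.SSurf

/-!
# Lifting surfaces to branched covers
-/

set_option autoImplicit false

namespace Pool.Agent.TriSurf

/-- a covering of local structures -/
structure CovL (Λ' Λ : Loc) where
  /-- the projection of letters -/
  π : Λ'.L → Λ.L
  inv : ∀ a, π (Λ'.inv a) = Λ.inv (π a)
  map : ∀ a b c, Λ'.M a b c → Λ.M (π a) (π b) (π c)
  lift : ∀ a b c, Λ.M (π a) b c → ∃ b' c', π b' = b ∧ Λ'.M a b' c'
  uniq : ∀ a b b' c c', Λ'.M a b c → Λ'.M a b' c' → π b = π b' → b = b'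

namespace SSurf

variable {Λ' Λ : Loc} (C : CovL Λ' Λ) (S : SSurf Λ)

/-- lifted darts -/
def LD : Type := {p : S.D × Λ'.L // C.π p.2 = S.lab p.1}

/-- the next lifted letter -/
theorem next_lift (x : S.LD C) : ∃ b, C.π b = S.lab (S.σ x.1.1) ∧ ∃ c, Λ'.M x.1.2 b c := by
  have h := Λ.M_symm _ _ _ (S.tri x.1.1)
  rw [← x.2] at h
  obtain ⟨b, c, h1, h2⟩ := C.lift _ _ _ h
  exact ⟨b, h1, c, h2⟩

/-- lifted rotation -/
noncomputable def Lσ (x : S.LD C) : S.LD C :=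
  ⟨(S.σ x.1.1, (S.next_lift C x).choose), (S.next_lift C x).choose_spec.1⟩

/-- lifted reversal -/
def Lbar (x : S.LD C) : S.LD C :=
  ⟨(S.bar x.1.1, Λ'.inv x.1.2), by show C.π (Λ'.inv x.1.2) = S.lab (S.bar x.1.1); rw [C.inv, S.lb, x.2]⟩

variable {C S}

theorem Lσ_M (x : S.LD C) : ∃ c, Λ'.M x.1.2 (S.Lσ C x).1.2 c := (S.next_lift C x).choose_spec.2

theorem Lσ_fst (x : S.LD C) : (S.Lσ C x).1.1 = S.σ x.1.1 := rfl

theorem Lσ_eq {x y : S.LD C} {c : Λ'.L} (h1 : y.1.1 = S.σ x.1.1) (h2 : Λ'.M x.1.2 y.1.2 c) :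
    S.Lσ C x = y := by
  obtain ⟨c', h3⟩ := Lσ_M x
  apply Subtype.ext
  apply Prod.ext
  · rw [Lσ_fst, h1]
  · apply C.uniq _ _ _ _ _ h3 h2
    rw [(S.Lσ C x).2, y.2, Lσ_fst, h1]

theorem Lσ_iter (x : S.LD C) (n : ℕ) : ((S.Lσ C)^[n] x).1.1 = S.σ^[n] x.1.1 := by
  induction n with
  | zero => rfl
  | succ n ih =>
    rw [Function.iterate_succ_apply', Function.iterate_succ_apply', Lσ_fst, ih]

theorem LD_ext {x y : S.LD C} (h1 : x.1.1 = y.1.1) (h2 : x.1.2 = y.1.2) : x = y :=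
  Subtype.ext (Prod.ext h1 h2)

theorem Lf3 (x : S.LD C) :
    S.Lσ C (S.Lbar C (S.Lσ C (S.Lbar C (S.Lσ C (S.Lbar C x))))) = x := by
  obtain ⟨c1, h1⟩ := Lσ_M (S.Lbar C x)
  have h1' : Λ'.M (Λ'.inv x.1.2) (S.Lσ C (S.Lbar C x)).1.2 c1 := h1
  have h2 := Λ'.M_rot _ _ _ (Λ'.M_symm _ _ _ h1')
  -- `M (inv b) (inv c1) (inv a)`
  let y : S.LD C := ⟨(S.σ (S.bar (S.σ (S.bar x.1.1))), Λ'.inv c1), by
    show C.π (Λ'.inv c1) = S.lab (S.σ (S.bar (S.σ (S.bar x.1.1))))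
    have h3 := C.map _ _ _ (Λ'.M_symm _ _ _ h1')
    have h4 := S.tri (S.bar x.1.1)
    have e1 : C.π (S.Lσ C (S.Lbar C x)).1.2 = S.lab (S.σ (S.bar x.1.1)) := (S.Lσ C (S.Lbar C x)).2
    have e2 : C.π (Λ'.inv x.1.2) = S.lab (S.bar x.1.1) := (S.Lbar C x).2
    rw [e1, e2] at h3
    exact Λ.M_fun _ _ _ _ h3 h4⟩
  have hy : S.Lσ C (S.Lbar C (S.Lσ C (S.Lbar C x))) = y := by
    apply Lσ_eq (c := Λ'.inv x.1.2)
    · rfl
    · show Λ'.M (Λ'.inv (S.Lσ C (S.Lbar C x)).1.2) (Λ'.inv c1) _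
      exact h2
  rw [hy]
  apply Lσ_eq (c := Λ'.inv (S.Lσ C (S.Lbar C x)).1.2)
  · exact (S.f3 x.1.1).symm
  · show Λ'.M (Λ'.inv (Λ'.inv c1)) x.1.2 _
    rw [Λ'.inv_inv]
    have h3 := Λ'.M_rot _ _ _ h1'
    rw [Λ'.inv_inv] at h3
    exact Λ'.M_symm _ _ _ h3

variable (C S) in
/-- the lift of a surface to a branched cover -/
noncomputable def liftS (hfin : Finite Λ'.L) : SSurf Λ' where
  D := S.LD C
  fin := by
    have := S.fin
    exact Subtype.finite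
  bar := S.Lbar C
  σ := S.Lσ C
  lab x := x.1.2
  bb x := LD_ext (S.bb _) (Λ'.inv_inv _)
  inj := by
    intro x y h
    have e1 : x.1.1 = y.1.1 := S.inj (congrArg (fun z => z.1.1) h)
    apply LD_ext e1
    obtain ⟨c, hx⟩ := Lσ_M x
    obtain ⟨c', hy⟩ := Lσ_M y
    rw [← h] at hy
    apply C.uniq _ _ _ _ _ (Λ'.M_symm _ _ _ hx) (Λ'.M_symm _ _ _ hy)
    rw [x.2, y.2, e1]
  lb x := rfl
  f3 := Lf3
  fne x h := S.fne x.1.1 (congrArg (fun z => z.1.1) h)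
  tri x := by
    obtain ⟨c, hx⟩ := Lσ_M x
    have h1 := Λ'.M_symm _ _ _ hx
    have h2 := Λ'.M_rot _ _ _ h1
    have h3 := C.map _ _ _ h1
    rw [(S.Lσ C x).2, x.2] at h3
    have h4 := Λ.M_fun _ _ _ _ h3 (S.tri x.1.1)
    let y : S.LD C := ⟨(S.σ (S.bar (S.σ x.1.1)), Λ'.inv c), h4⟩
    have hy : S.Lσ C (S.Lbar C (S.Lσ C x)) = y := by
      apply Lσ_eq (c := x.1.2)
      · rfl
      · exact h2
    show Λ'.M _ _ (S.Lσ C (S.Lbar C (S.Lσ C x))).1.2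
    rw [hy]
    exact h1
  linj := by
    intro x n h
    refine LD_ext ?_ h
    rw [Lσ_iter]
    apply S.linj
    rw [← Lσ_iter, ← ((S.Lσ C)^[n] x).2, ← x.2]
    exact congrArg C.π h
  ind := by
    intro x n c h
    have h1 := C.map _ _ _ h
    rw [x.2, ((S.Lσ C)^[n] x).2, Lσ_iter] at h1
    rcases S.ind _ _ _ h1 with h2 | h2
    · left
      exact (Lσ_eq (by rw [Lσ_iter]; exact h2) h).symm
    · right
      apply Lσ_eq (c := Λ'.inv c)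
      · rw [Lσ_iter]; exact h2.symm
      · exact Λ'.M_symm _ _ _ h
  conv := by
    intro x n c u v hne hu hv
    have h1 := C.map _ _ _ hu
    have h2 := C.map _ _ _ hv
    rw [x.2] at h1
    rw [((S.Lσ C)^[n] x).2, Lσ_iter] at h2
    have hne' : S.σ^[n] x.1.1 ≠ x.1.1 := by
      intro h
      apply hne
      refine LD_ext (by rw [Lσ_iter]; exact h) ?_
      apply C.uniq _ _ _ _ _ hv hu
      rw [x.2, ((S.Lσ C)^[n] x).2, Lσ_iter, h]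
    obtain ⟨m, hm⟩ := S.conv _ _ _ _ _ hne' h1 h2
    rw [← hm] at h1 h2
    rcases S.ind x.1.1 m _ (Λ.M_symm _ _ _ h1) with h3 | h3
    · refine ⟨1, ?_⟩
      have h4 : C.π c = S.lab (S.σ x.1.1) := by rw [← h3]; exact hm.symm
      let y : S.LD C := ⟨(S.σ x.1.1, c), h4⟩
      have hy : S.Lσ C x = y := Lσ_eq rfl (Λ'.M_symm _ _ _ hu)
      show (S.Lσ C x).1.2 = c
      rw [hy]
    · -- `σ f = d`
      obtain ⟨m', hm'⟩ : ∃ m', S.σ^[m'] (S.σ^[n] x.1.1) = S.σ^[m] x.1.1 := by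
        apply S.vtx_eq.1
        exact (S.vtx_eq.2 ⟨n, rfl⟩).symm.trans (S.vtx_eq.2 ⟨m, rfl⟩)
      have h5 := Λ.M_symm _ _ _ h2
      rw [← hm'] at h5
      rcases S.ind _ m' _ h5 with h6 | h6
      · refine ⟨n + 1, ?_⟩
        rw [hm'] at h6
        have h4 : C.π c = S.lab (S.σ ((S.Lσ C)^[n] x).1.1) := by
          rw [Lσ_iter, ← h6]; exact hm.symm
        let y : S.LD C := ⟨(S.σ ((S.Lσ C)^[n] x).1.1, c), h4⟩
        have hy : S.Lσ C ((S.Lσ C)^[n] x) = y := Lσ_eq rfl (Λ'.M_symm _ _ _ hv)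
        rw [Function.iterate_succ_apply', hy]
      · exfalso
        rw [hm'] at h6
        exact hne' (h6.symm.trans h3)
  len := by
    intro x n h1 h2 h
    apply S.len x.1.1 n h1 h2
    rw [← Lσ_iter, h]

end SSurf

end Pool.Agent.TriSurf
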