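import Pool.Agent.SurfSub.Contract
import Pool.Agent.SurfSub.MergeAll
import Pool.Agent.SurfSub.Extract

/-!
# The fundamental group of a closed surface given by a ribbon structure with several vertices
-/

set_option autoImplicit false

namespace Pool.Agent.TriSurf

open Pool.Agent.SurfSub

/-- Darts reachable from `d0` inside `L`, with the product of `s` along the path. -/
inductive Rch {D K : Type} [Group K] (bar σ : D → D) (s : D → K) (L : List D) (d0 : D) :
    D → K → Prop
  | base : Rch bar σ s L d0 d0 1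
  | rot (d : D) (k : K) (hd : d ∈ L) (h : Rch bar σ s L d0 d k) : Rch bar σ s L d0 (σ d) k
  | rot' (d : D) (k : K) (hd : d ∈ L) (h : Rch bar σ s L d0 (σ d) k) : Rch bar σ s L d0 d k
  | move (d : D) (k : K) (hd : d ∈ L) (h : Rch bar σ s L d0 d k) :
      Rch bar σ s L d0 (bar d) (k * s d)

/-- The data describing the fundamental group of a surface. -/
structure SurfD {D : Type} (bar σ : D → D) (Vs Fs : List (List D)) (g : ℕ)
    (s : D → SurfaceGroup g) : Prop where
  inv : ∀ d ∈ Vs.flatten, s (bar d) = (s d)⁻¹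
  face : ∀ w ∈ Fs, (w.map s).prod = 1
  gen : Subgroup.closure (s '' {d | d ∈ Vs.flatten}) = ⊤
  path : ∀ d0 ∈ Vs.flatten, ∀ d ∈ Vs.flatten, Rch bar σ s Vs.flatten d0 d 1
  univ : ∀ (H : Type) [Group H] (F : D → H), (∀ d ∈ Vs.flatten, F (bar d) = (F d)⁻¹) →
    (∀ w ∈ Fs, (w.map F).prod = 1) →
    ∃ (f : SurfaceGroup g →* H) (τ : D → H), (∀ d ∈ Vs.flatten, τ (σ d) = τ d) ∧
      ∀ d ∈ Vs.flatten, f (s d) = τ d * F d * (τ (bar d))⁻¹

section Rch

variable {D K : Type} [Group K] {bar σ : D → D} {s : D → K} {L : List D}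

theorem Rch.trans {a b c : D} {k l : K} (h : Rch bar σ s L a b k) (h' : Rch bar σ s L b c l) :
    Rch bar σ s L a c (k * l) := by
  induction h' with
  | base => rw [mul_one]; exact h
  | rot d k hd _ ih => exact Rch.rot d _ hd ih
  | rot' d k hd _ ih => exact Rch.rot' d _ hd ih
  | move d k hd _ ih => rw [← mul_assoc]; exact Rch.move d _ hd ih

theorem Rch.symm (hbb : ∀ d, bar (bar d) = d) (hL : ∀ d ∈ L, bar d ∈ L)
    (hinv : ∀ d ∈ L, s (bar d) = (s d)⁻¹) {a b : D} {k : K} (h : Rch bar σ s L a b k) :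
    Rch bar σ s L b a k⁻¹ := by
  induction h with
  | base => rw [inv_one]; exact Rch.base
  | rot d k hd _ ih =>
    have h1 : Rch bar σ s L (σ d) d 1 := Rch.rot' d 1 hd Rch.base
    have := h1.trans ih
    rwa [one_mul] at this
  | rot' d k hd _ ih =>
    have h1 : Rch bar σ s L d (σ d) 1 := Rch.rot d 1 hd Rch.base
    have := h1.trans ih
    rwa [one_mul] at this
  | move d k hd _ ih =>
    have h1 : Rch bar σ s L (bar d) (bar (bar d)) (1 * s (bar d)) :=
      Rch.move (bar d) 1 (hL d hd) Rch.base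
    rw [hbb, one_mul, hinv d hd] at h1
    rw [mul_inv_rev]
    exact h1.trans ih

theorem Rch.mono {L' : List D} (hLL : ∀ d ∈ L, d ∈ L') {a b : D} {k : K}
    (h : Rch bar σ s L a b k) : Rch bar σ s L' a b k := by
  induction h with
  | base => exact Rch.base
  | rot d k hd _ ih => exact Rch.rot d _ (hLL d hd) ih
  | rot' d k hd _ ih => exact Rch.rot' d _ (hLL d hd) ih
  | move d k hd _ ih => exact Rch.move d _ (hLL d hd) ih

theorem Rch.iter {v : List D} (hv : IsCyc σ v) (hL : ∀ d ∈ v, d ∈ L) {a b : D} (ha : a ∈ v)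
    (hb : b ∈ v) : Rch bar σ s L a b 1 := by
  obtain ⟨n, rfl⟩ := hv.exists_iterate ha hb
  clear hb
  induction n with
  | zero => exact Rch.base
  | succ n ih =>
    rw [Function.iterate_succ_apply']
    exact Rch.rot _ _ (hL _ (hv.iterate_mem ha n)) ih

end Rch

/-- relators of the fundamental group of a ribbon structure with one vertex -/
def rbRel {D : Type} (bar : D → D) (Fs : List (List D)) : Set (FreeGroup D) :=
  {r | (∃ d ∈ Fs.flatten, r = FreeGroup.of (bar d) * FreeGroup.of d) ∨
    (∃ w ∈ Fs, r = (w.map FreeGroup.of).prod) ∨ ∃ d, d ∉ Fs.flatten ∧ r = FreeGroup.of d}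

theorem rb_presM {D : Type} (bar : D → D) (Fs : List (List D))
    (hb : ∀ d ∈ Fs.flatten, bar d ∈ Fs.flatten) :
    PresM bar (PresentedGroup (rbRel bar Fs)) PresentedGroup.of Fs := by
  classical
  have hof : ∀ d, (PresentedGroup.mk (rbRel bar Fs)) (FreeGroup.of d) = PresentedGroup.of d :=
    fun d => rfl
  refine ⟨?_, ?_, ?_, ?_⟩
  · intro d hd
    have h : (PresentedGroup.mk (rbRel bar Fs)) (FreeGroup.of (bar d) * FreeGroup.of d) = 1 :=
      PresentedGroup.one_of_mem (Or.inl ⟨d, hd, rfl⟩)
    rw [map_mul, hof, hof] at h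
    exact eq_inv_of_mul_eq_one_left h
  · intro w hw
    have h : (PresentedGroup.mk (rbRel bar Fs)) ((w.map FreeGroup.of).prod) = 1 :=
      PresentedGroup.one_of_mem (Or.inr (Or.inl ⟨w, hw, rfl⟩))
    rw [map_list_prod, List.map_map] at h
    exact h
  · intro H _ ξ' h1 h2
    have hrel : ∀ r ∈ rbRel bar Fs,
        FreeGroup.lift (fun d => if d ∈ Fs.flatten then ξ' d else 1) r = 1 := by
      rintro r (⟨d, hd, rfl⟩ | ⟨w, hw, rfl⟩ | ⟨d, hd, rfl⟩)
      · have hb' := hb d hd
        simp only [map_mul, FreeGroup.lift_apply_of, hd, hb', if_true, h1 d hd, inv_mul_cancel]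
      · rw [map_list_prod, List.map_map]
        rw [← h2 w hw]
        congr 1
        apply List.map_congr_left
        intro d hd
        have : d ∈ Fs.flatten := List.mem_flatten.2 ⟨w, hw, hd⟩
        show FreeGroup.lift _ (FreeGroup.of d) = _
        rw [FreeGroup.lift_apply_of, if_pos this]
      · rw [FreeGroup.lift_apply_of, if_neg hd]
    refine ⟨PresentedGroup.toGroup hrel, fun d hd => ?_⟩
    rw [PresentedGroup.toGroup.of, if_pos hd]
  · rw [eq_top_iff, ← PresentedGroup.closure_range_of, Subgroup.closure_le]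
    rintro _ ⟨d, rfl⟩
    by_cases hd : d ∈ Fs.flatten
    · exact Subgroup.subset_closure ⟨d, hd, rfl⟩
    · have h : (PresentedGroup.mk (rbRel bar Fs)) (FreeGroup.of d) = 1 :=
        PresentedGroup.one_of_mem (Or.inr (Or.inr ⟨d, hd, rfl⟩))
      rw [hof] at h
      rw [h]
      exact one_mem _

/-- one vertex -/
theorem surf_one {D : Type} {bar σ : D → D} (hbb : ∀ d, bar (bar d) = d) (hbn : ∀ d, bar d ≠ d)
    {v : List D} {Fs : List (List D)} (h : Ribbon bar σ [v] Fs)
    (hχ : 2 + 2 * Fs.length < v.length) :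
    ∃ g, 2 ≤ g ∧ ∃ s : D → SurfaceGroup g, SurfD bar σ [v] Fs g s := by
  have hbF : ∀ d ∈ Fs.flatten, bar d ∈ Fs.flatten :=
    fun d hd => (h.same _).1 (h.barc d ((h.same d).2 hd))
  obtain ⟨σ', v', w, hR, hlen, hP⟩ := mergeAll hbb hbn _ _ v Fs h hχ (rb_presM bar Fs hbF)
  obtain ⟨g, hg, ⟨e⟩⟩ := extract hbb hbn hR _ _ hP
  refine ⟨g, by omega, fun d => e.symm (PresentedGroup.of d), ?_, ?_, ?_, ?_, ?_⟩
  · intro d hd
    rw [(rb_presM bar Fs hbF).inv d ((h.same d).1 hd), map_inv]
  · intro w hw
    have := (rb_presM bar Fs hbF).rel w hw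
    have h2 : (w.map fun d => e.symm (PresentedGroup.of d : PresentedGroup (rbRel bar Fs))) =
        (w.map PresentedGroup.of).map e.symm := by
      rw [List.map_map]; rfl
    rw [h2, ← map_list_prod, this, map_one]
  · have h1 := (rb_presM bar Fs hbF).gen
    have h2 : (fun d => e.symm (PresentedGroup.of d : PresentedGroup (rbRel bar Fs))) ''
        {d | d ∈ [v].flatten} = e.symm.toMonoidHom ''
          ((PresentedGroup.of : D → PresentedGroup (rbRel bar Fs)) '' {d | d ∈ Fs.flatten}) := by
      rw [← Set.image_comp]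
      have h3 : {d | d ∈ [v].flatten} = {d | d ∈ Fs.flatten} := by
        ext d; exact h.same d
      rw [h3]
      rfl
    rw [h2, ← MonoidHom.map_closure, h1, ← MonoidHom.range_eq_map, MonoidHom.range_eq_top]
    exact e.symm.surjective
  · intro d0 hd0 d hd
    have hv := h.vcyc v (by simp)
    refine Rch.iter hv (fun x hx => by simpa using hx) (by simpa using hd0) (by simpa using hd)
  · intro H _ F h1 h2
    obtain ⟨f, hf⟩ := (rb_presM bar Fs hbF).univ H F (fun d hd => h1 d ((h.same d).2 hd)) h2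
    refine ⟨f.comp e.toMonoidHom, fun _ => 1, fun _ _ => rfl, fun d hd => ?_⟩
    show f (e (e.symm (PresentedGroup.of d))) = _
    rw [e.apply_symm_apply, hf d ((h.same d).1 hd)]
    simp

/-- An edge between two different vertices. -/
theorem exists_edge' {D : Type} {bar σ : D → D} {v v2 : List D} {Vs Fs : List (List D)} (h : Ribbon bar σ (v :: v2 :: Vs) Fs) :
    ∃ e ∈ v, bar e ∉ v := by
  by_contra hcon
  push Not at hcon
  have hw := h.vcyc v (by simp)
  have hw2 := h.vcyc v2 (by simp)
  obtain ⟨d, hd⟩ := List.exists_mem_of_ne_nil _ hw.ne_nil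
  obtain ⟨d2, hd2⟩ := List.exists_mem_of_ne_nil _ hw2.ne_nil
  have h1 := h.conn (fun d => d ∈ v) ⟨d, by simp [hd], hd⟩
    (fun d _ hd => hw.apply_mem hd) (fun d _ hd => hcon d hd) d2 (by simp [hd2])
  have h2 := h.vnodup
  simp only [List.flatten_cons, List.nodup_append, List.mem_append] at h2
  exact h2.2.2 d2 h1 d2 (Or.inl hd2) rfl

theorem prod_del {D K : Type} [Group K] (s : D → K) {e : D} (he : s e = 1) (w : List D) :
    ((del e w).map s).prod = (w.map s).prod := by
  classical
  induction w with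
  | nil => rfl
  | cons a w ih =>
    by_cases ha : a = e
    · subst ha
      rw [del_cons_self, ih, List.map_cons, List.prod_cons, he, one_mul]
    · rw [del_cons_ne ha, List.map_cons, List.prod_cons, ih, List.map_cons, List.prod_cons]

theorem tele {D H : Type} [Group H] {bar σ : D → D} (F ρ : D → H)
    (t : List D) : ∀ (a b : D), List.IsChain (fun x y => σ (bar x) = y) (a :: (t ++ [b])) →
    (∀ d ∈ a :: t, ρ (σ (bar d)) = ρ (bar d)) →
    ((a :: t).map fun d => ρ d * F d * (ρ (bar d))⁻¹).prod =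
      ρ a * ((a :: t).map F).prod * (ρ b)⁻¹ := by
  induction t with
  | nil =>
    intro a b h hρ
    have h1 : σ (bar a) = b := by simpa using h
    have h2 := hρ a (by simp)
    rw [h1] at h2
    simp [h2]
  | cons c t ih =>
    intro a b h hρ
    rw [List.cons_append, List.isChain_cons_cons] at h
    have h2 := hρ a (by simp)
    rw [h.1] at h2
    have h3 := ih c b h.2 (fun d hd => hρ d (List.mem_cons_of_mem _ hd))
    rw [List.map_cons, List.prod_cons, h3, List.map_cons (l := c :: t), List.prod_cons, h2]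
    group

/-- contraction of an edge -/
theorem contract_step {D : Type} {bar σ : D → D} (hbb : ∀ d, bar (bar d) = d)
    (hbn : ∀ d, bar d ≠ d) {e : D} {U V : List D} {Vs Fs : List (List D)}
    (h : Ribbon bar σ ((e :: U) :: (bar e :: V) :: Vs) Fs)
    (hlen : 3 ≤ ((e :: U) :: (bar e :: V) :: Vs).flatten.length)
    (ih : ∀ σ', Ribbon bar σ' ((V ++ U) :: Vs) (Fs.map fun w => del (bar e) (del e w)) →
      ∃ g, 2 ≤ g ∧ ∃ s : D → SurfaceGroup g,
        SurfD bar σ' ((V ++ U) :: Vs) (Fs.map fun w => del (bar e) (del e w)) g s) :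
    ∃ g, 2 ≤ g ∧ ∃ s : D → SurfaceGroup g, SurfD bar σ ((e :: U) :: (bar e :: V) :: Vs) Fs g s := by
  classical
  have hlen' : 3 ≤ Fs.flatten.length := by rw [← h.length_eq]; exact hlen
  have h1 := (h.dual hbb).merge hbb hbn hlen'
  have h2 := h1.dual hbb
  set σ' := rm (bar e) (rm e (σ ∘ bar)) ∘ bar with hσ'
  obtain ⟨g, hg, s, hs⟩ := ih σ' h2
  have hmem := mem_merged h.vnodup
  set L := ((e :: U) :: (bar e :: V) :: Vs).flatten with hL
  set L' := ((V ++ U) :: Vs).flatten with hL'
  have heL : e ∈ L := by simp [hL]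
  have hbL : bar e ∈ L := by simp [hL]
  have hbe : bar e ≠ e := hbn e
  let s1 : D → SurfaceGroup g := fun d => if d = e ∨ d = bar e then 1 else s d
  have s1e : s1 e = 1 := by simp [s1]
  have s1b : s1 (bar e) = 1 := by simp [s1]
  have s1o : ∀ d ∈ L', s1 d = s d := by
    intro d hd
    have := (hmem d).1 hd
    simp only [s1]
    rw [if_neg]
    rintro (h3 | h3)
    · exact this.2.1 h3
    · exact this.2.2 h3
  have hinv : ∀ d ∈ L, s1 (bar d) = (s1 d)⁻¹ := by
    intro d hd
    by_cases h3 : d = e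
    · subst h3; rw [s1e, s1b, inv_one]
    by_cases h4 : d = bar e
    · subst h4; rw [hbb, s1e, s1b, inv_one]
    have hd' : d ∈ L' := (hmem d).2 ⟨hd, h3, h4⟩
    have hbd : bar d ∈ L' := h2.barc d hd'
    rw [s1o d hd', s1o _ hbd, hs.inv d hd']
  -- the two vertex words
  have c1 := h.vcyc (e :: U) (by simp)
  have c2 := h.vcyc (bar e :: V) (by simp)
  have hbarL : ∀ d ∈ L, bar d ∈ L := h.barc
  -- connections
  have hin1 : ∀ d ∈ (e :: U), d ∈ L := by
    intro d hd; rw [hL, List.flatten_cons]; exact List.mem_append_left _ hd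
  have hin2 : ∀ d ∈ (bar e :: V), d ∈ L := by
    intro d hd; rw [hL, List.flatten_cons, List.flatten_cons]
    exact List.mem_append_right _ (List.mem_append_left _ hd)
  have cn_rot : ∀ d ∈ L, ∀ d0 k, Rch bar σ s1 L d0 d k ↔ Rch bar σ s1 L d0 (σ d) k :=
    fun d hd d0 k => ⟨fun h => Rch.rot d k hd h, fun h => Rch.rot' d k hd h⟩
  have cn_e : ∀ d0 k, Rch bar σ s1 L d0 e k ↔ Rch bar σ s1 L d0 (bar e) k := by
    intro d0 k
    constructor
    · intro h3
      have := Rch.move e k heL h3
      rwa [s1e, mul_one] at this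
    · intro h3
      have := Rch.move (bar e) k hbL h3
      rwa [s1b, mul_one, hbb] at this
  have cn_σ' : ∀ d ∈ L, ∀ d0 k, Rch bar σ s1 L d0 d k ↔ Rch bar σ s1 L d0 (σ' d) k := by
    intro d hd d0 k
    have e1 : σ' d = rm (bar e) (rm e (σ ∘ bar)) (bar d) := rfl
    have e2 : rm e (σ ∘ bar) (bar d) = if σ d = e then σ (bar e) else σ d := by
      simp [rm, hbb]
    have e3 : rm e (σ ∘ bar) (bar e) = if σ e = e then σ (bar e) else σ e := by
      simp [rm, hbb]
    have e4 : σ' d = if rm e (σ ∘ bar) (bar d) = bar e then rm e (σ ∘ bar) (bar e)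
        else rm e (σ ∘ bar) (bar d) := e1
    rw [e4, e2, e3]
    have r1 := cn_rot d hd d0 k
    have r2 := cn_rot e heL d0 k
    have r3 := cn_rot (bar e) hbL d0 k
    have r4 := cn_e d0 k
    by_cases a1 : σ d = e
    · rw [if_pos a1]
      rw [a1] at r1
      by_cases a2 : σ (bar e) = bar e
      · rw [if_pos a2]
        by_cases a3 : σ e = e
        · rw [if_pos a3]; rw [r1, r4, r3]
        · rw [if_neg a3]; rw [r1, r2]
      · rw [if_neg a2]; rw [r1, r4, r3]
    · rw [if_neg a1]
      by_cases a2 : σ d = bar e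
      · rw [if_pos a2]
        rw [a2] at r1
        by_cases a3 : σ e = e
        · rw [if_pos a3]; rw [r1, r3]
        · rw [if_neg a3]; rw [r1, ← r4, r2]
      · rw [if_neg a2]; exact r1
  have hL'L : ∀ d ∈ L', d ∈ L := fun d hd => ((hmem d).1 hd).1
  have lift : ∀ d0 d k, Rch bar σ' s L' d0 d k → Rch bar σ s1 L d0 d k := by
    intro d0 d k hr
    induction hr with
    | base => exact Rch.base
    | rot d k hd _ ih => exact (cn_σ' d (hL'L d hd) _ _).1 ih
    | rot' d k hd _ ih => exact (cn_σ' d (hL'L d hd) _ _).2 ih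
    | move d k hd _ ih =>
      have := Rch.move d k (hL'L d hd) ih
      rwa [s1o d hd] at this
  -- every dart is connected to a remaining one
  have hUV : ∃ x, x ∈ L' ∧ (x ∈ U ∨ x ∈ V) := by
    by_contra hcon
    have hU : U = [] := by
      rw [List.eq_nil_iff_forall_not_mem]
      intro x hx
      exact hcon ⟨x, by simp [hL', hx], Or.inl hx⟩
    have hV : V = [] := by
      rw [List.eq_nil_iff_forall_not_mem]
      intro x hx
      exact hcon ⟨x, by simp [hL', hx], Or.inr hx⟩
    exact (h2.vcyc (V ++ U) (by simp)).ne_nil (by simp [hU, hV])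
  obtain ⟨x, hxL, hx⟩ := hUV
  have hxe : Rch bar σ s1 L x e 1 := by
    rcases hx with hx | hx
    · exact Rch.iter c1 hin1 (by simp [hx]) (by simp)
    · exact (cn_e x 1).2 (Rch.iter c2 hin2 (by simp [hx]) (by simp))
  have hxb : Rch bar σ s1 L x (bar e) 1 := (cn_e x 1).1 hxe
  have hfromx : ∀ d ∈ L, Rch bar σ s1 L x d 1 := by
    intro d hd
    by_cases h3 : d = e
    · subst h3; exact hxe
    by_cases h4 : d = bar e
    · subst h4; exact hxb
    exact lift _ _ _ (hs.path x hxL d ((hmem d).2 ⟨hd, h3, h4⟩))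
  refine ⟨g, hg, s1, hinv, ?_, ?_, ?_, ?_⟩
  · intro w hw
    rw [← prod_del s1 s1e, ← prod_del s1 s1b]
    have hw' := hs.face (del (bar e) (del e w)) (List.mem_map.2 ⟨w, hw, rfl⟩)
    rw [← hw']
    congr 1
    apply List.map_congr_left
    intro d hd
    simp only [s1]
    rw [if_neg]
    have h3 := MergeAux.mem_del2.1 hd
    rintro (h4 | h4)
    · exact h3.2.1 h4
    · exact h3.2.2 h4
  · rw [eq_top_iff, ← hs.gen, Subgroup.closure_le]
    rintro _ ⟨d, hd, rfl⟩
    have hd : d ∈ L' := hd
    rw [← s1o d hd]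
    exact Subgroup.subset_closure ⟨d, hL'L d hd, rfl⟩
  · intro d0 hd0 d hd
    have h3 := (hfromx d0 hd0).symm hbb hbarL hinv
    have h4 := h3.trans (hfromx d hd)
    rw [inv_one, one_mul] at h4
    exact h4
  · intro H _ F hF1 hF2
    let ρ : D → H := fun d => if d ∈ (bar e :: V) then F e else 1
    have hρσ : ∀ d ∈ L, ρ (σ d) = ρ d := by
      intro d hd
      simp only [ρ]
      by_cases hd2 : d ∈ (bar e :: V)
      · rw [if_pos hd2, if_pos (c2.apply_mem hd2)]
      · rw [if_neg hd2, if_neg]
        intro h3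
        obtain ⟨v, hv, hdv⟩ := List.mem_flatten.1 hd
        have hcv := h.vcyc v hv
        obtain ⟨p, hp, hp2⟩ := c2.exists_pred h3
        have hσv := hcv.apply_mem hdv
        -- `v` and `bar e :: V` share the element `σ d`
        have := (hcv.mem_iff c2 hσv h3 d).1 hdv
        exact hd2 this
    have heρ : ρ e = 1 := by
      simp only [ρ]
      rw [if_neg]
      intro h3
      have := h.vnodup
      simp only [List.flatten_cons] at this
      rw [List.nodup_append] at this
      exact this.2.2 e (by simp) e (List.mem_append_left _ h3) rfl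
    have hbρ : ρ (bar e) = F e := by simp [ρ]
    let F' : D → H := fun d => ρ d * F d * (ρ (bar d))⁻¹
    have hF'e : F' e = 1 := by simp [F', heρ, hbρ]
    have hFb : F (bar e) = (F e)⁻¹ := hF1 e heL
    have hF'b : F' (bar e) = 1 := by simp [F', heρ, hbρ, hbb, hFb]
    obtain ⟨f, τ', hτ1, hτ2⟩ := hs.univ H F' (by
      intro d hd
      have := hF1 d (hL'L d hd)
      simp only [F', hbb, this, mul_inv_rev, inv_inv, mul_assoc]) (by
      intro w' hw'
      obtain ⟨w, hw, rfl⟩ := List.mem_map.1 hw'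
      rw [prod_del F' hF'b, prod_del F' hF'e]
      have hcw := h.fcyc w hw
      obtain ⟨a, t, rfl⟩ := List.exists_cons_of_ne_nil hcw.ne_nil
      have hch := (MergeAux.isCyc_chain.1 hcw).2
      have hin : ∀ d ∈ a :: t, d ∈ L := fun d hd => (h.same d).2 (List.mem_flatten.2 ⟨_, hw, hd⟩)
      have := tele (bar := bar) (σ := σ) F ρ t a a hch
        (fun d hd => hρσ (bar d) (hbarL d (hin d hd)))
      show ((a :: t).map fun d => ρ d * F d * (ρ (bar d))⁻¹).prod = 1
      rw [this, hF2 _ hw, mul_one, mul_inv_cancel])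
    let c : H := τ' x
    let In : D → Prop := fun d => d ∈ (e :: U) ∨ d ∈ (bar e :: V)
    have hInσ : ∀ d ∈ L, (In (σ d) ↔ In d) := by
      intro d hd
      obtain ⟨v, hv, hdv⟩ := List.mem_flatten.1 hd
      have hcv := h.vcyc v hv
      constructor
      · rintro (h3 | h3)
        · exact Or.inl ((hcv.mem_iff c1 (hcv.apply_mem hdv) h3 d).1 hdv)
        · exact Or.inr ((hcv.mem_iff c2 (hcv.apply_mem hdv) h3 d).1 hdv)
      · rintro (h3 | h3)
        · exact Or.inl (c1.apply_mem h3)
        · exact Or.inr (c2.apply_mem h3)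
    have hcm := h2.vcyc (V ++ U) (by simp)
    have hxVU : x ∈ V ++ U := by
      rw [List.mem_append]
      rcases hx with hx | hx
      · exact Or.inr hx
      · exact Or.inl hx
    have hcτ : ∀ d ∈ V ++ U, τ' d = c := by
      refine hcm.invariant (P := fun d => τ' d = c) ?_ ?_
      · intro p hp hpc
        rw [hτ1 p (by rw [List.flatten_cons]; exact List.mem_append_left _ hp)]
        exact hpc
      · exact ⟨x, hxVU, rfl⟩
    have hInL' : ∀ d ∈ L', In d → τ' d = c := by
      intro d hd hi
      have h3 := (hmem d).1 hd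
      apply hcτ
      rw [List.mem_append]
      rcases hi with hi | hi
      · rcases List.mem_cons.1 hi with h4 | h4
        · exact absurd h4 h3.2.1
        · exact Or.inr h4
      · rcases List.mem_cons.1 hi with h4 | h4
        · exact absurd h4 h3.2.2
        · exact Or.inl h4
    have hσσ' : ∀ d ∈ L, ¬ In d → σ' d = σ d := by
      intro d hd hi
      have hi' : ¬ In (σ d) := fun h3 => hi ((hInσ d hd).1 h3)
      have n1 : σ d ≠ e := fun h3 => hi' (Or.inl (by rw [h3]; simp))
      have n2 : σ d ≠ bar e := fun h3 => hi' (Or.inr (by rw [h3]; simp))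
      show rm (bar e) (rm e (σ ∘ bar)) (bar d) = σ d
      have e2 : rm e (σ ∘ bar) (bar d) = σ d := by simp [rm, hbb, n1]
      show (if rm e (σ ∘ bar) (bar d) = bar e then _ else rm e (σ ∘ bar) (bar d)) = σ d
      rw [e2, if_neg n2]
    let τ : D → H := fun d => (if In d then c else τ' d) * ρ d
    have hnotIn : ∀ d ∈ L, ¬ In d → d ∈ L' := by
      intro d hd hi
      refine (hmem d).2 ⟨hd, ?_, ?_⟩
      · rintro rfl; exact hi (Or.inl (by simp))
      · rintro rfl; exact hi (Or.inr (by simp))
    refine ⟨f, τ, ?_, ?_⟩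
    · intro d hd
      show (if In (σ d) then c else τ' (σ d)) * ρ (σ d) = (if In d then c else τ' d) * ρ d
      rw [hρσ d hd]
      congr 1
      by_cases hi : In d
      · rw [if_pos hi, if_pos ((hInσ d hd).2 hi)]
      · rw [if_neg hi, if_neg (fun h3 => hi ((hInσ d hd).1 h3))]
        rw [← hσσ' d hd hi]
        exact hτ1 d (hnotIn d hd hi)
    · have hτL' : ∀ d ∈ L', τ d = τ' d * ρ d := by
        intro d hd
        show (if In d then c else τ' d) * ρ d = τ' d * ρ d
        by_cases hi : In d
        · rw [if_pos hi, hInL' d hd hi]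
        · rw [if_neg hi]
      have τe : τ e = c := by
        show (if In e then c else τ' e) * ρ e = c
        rw [if_pos (Or.inl (by simp)), heρ, mul_one]
      have τb : τ (bar e) = c * F e := by
        show (if In (bar e) then c else τ' (bar e)) * ρ (bar e) = c * F e
        rw [if_pos (Or.inr (by simp)), hbρ]
      intro d hd
      by_cases h3 : d = e
      · subst h3
        rw [s1e, map_one, τe, τb]
        group
      by_cases h4 : d = bar e
      · subst h4
        rw [s1b, map_one, hbb, τe, τb, hFb]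
        group
      have hd' : d ∈ L' := (hmem d).2 ⟨hd, h3, h4⟩
      have hbd : bar d ∈ L' := h2.barc d hd'
      rw [s1o d hd', hτ2 d hd', hτL' d hd', hτL' _ hbd]
      simp only [F', mul_inv_rev, mul_assoc]

/-- The fundamental group of a closed surface. -/
theorem surf_data {D : Type} {bar : D → D} (hbb : ∀ d, bar (bar d) = d)
    (hbn : ∀ d, bar d ≠ d) (n : ℕ) : ∀ (σ : D → D) (Vs Fs : List (List D)), Vs.length = n + 1 →
    Ribbon bar σ Vs Fs → 2 * Vs.length + 2 * Fs.length < Vs.flatten.length →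
    ∃ g, 2 ≤ g ∧ ∃ s : D → SurfaceGroup g, SurfD bar σ Vs Fs g s := by
  classical
  induction n with
  | zero =>
    intro σ Vs Fs hn h hχ
    obtain ⟨v, rfl⟩ := List.length_eq_one_iff.1 hn
    exact surf_one hbb hbn h (by simpa using hχ)
  | succ n ih =>
    intro σ Vs Fs hn h hχ
    match Vs, hn, h, hχ with
    | v1 :: v2 :: Vs', hn, h, hχ =>
      obtain ⟨e, he, hbe⟩ := exists_edge' h
      have heV : e ∈ (v1 :: v2 :: Vs').flatten := by simp [he]
      have hbV := h.barc e heV
      have hb2 : bar e ∈ (v2 :: Vs').flatten := by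
        rw [List.flatten_cons, List.mem_append] at hbV
        exact hbV.resolve_left hbe
      obtain ⟨v3, hv3, hb3⟩ := List.mem_flatten.1 hb2
      obtain ⟨Vs'', hV''⟩ : ∃ Vs'', (v2 :: Vs').Perm (v3 :: Vs'') :=
        ⟨_, List.perm_cons_erase hv3⟩
      obtain ⟨U, hU⟩ := exists_rotate_cons he
      obtain ⟨V, hV⟩ := exists_rotate_cons hb3
      have p1 : (v1 :: v2 :: Vs').Perm (v3 :: v1 :: Vs'') :=
        (hV''.cons v1).trans (List.Perm.swap _ _ _)
      have p2 : ((bar e :: V) :: v1 :: Vs'').Perm (v1 :: (bar e :: V) :: Vs'') :=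
        List.Perm.swap _ _ _
      have R1 := h.perm p1 (List.Perm.refl _)
      have R2 := R1.rotV hbb hV
      have R3 := R2.perm p2 (List.Perm.refl _)
      have R4 := R3.rotV hbb hU
      have hfl : ∀ d, d ∈ ((e :: U) :: (bar e :: V) :: Vs'').flatten ↔
          d ∈ (v1 :: v2 :: Vs').flatten := by
        intro d
        have q1 : d ∈ (v1 :: v2 :: Vs').flatten ↔ d ∈ (v3 :: v1 :: Vs'').flatten :=
          p1.flatten.mem_iff
        rw [q1]
        simp only [List.flatten_cons, List.mem_append]
        rw [← hU.mem_iff, ← hV.mem_iff]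
        tauto
      have hlen : ((e :: U) :: (bar e :: V) :: Vs'').flatten.length =
          (v1 :: v2 :: Vs').flatten.length :=
        ((List.perm_ext_iff_of_nodup R4.vnodup h.vnodup).2 hfl).length_eq
      have hVl := hV''.length_eq
      simp only [List.length_cons] at hVl hn hχ
      obtain ⟨g, hg, s, hs⟩ := contract_step hbb hbn R4 (by rw [hlen]; omega) (by
        intro σ' hR'
        refine ih σ' _ _ ?_ hR' ?_
        · simp only [List.length_cons]; omega
        · simp only [List.length_cons, List.length_map]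
          have l1 : ((V ++ U) :: Vs'').flatten.length + 2 =
              ((e :: U) :: (bar e :: V) :: Vs'').flatten.length := by
            simp only [List.flatten_cons, List.length_append, List.length_cons]
            omega
          omega)
      refine ⟨g, hg, s, ?_⟩
      exact ⟨fun d hd => hs.inv d ((hfl d).2 hd), hs.face, by
          have : {d | d ∈ (v1 :: v2 :: Vs').flatten} =
              {d | d ∈ ((e :: U) :: (bar e :: V) :: Vs'').flatten} := by
            ext d; exact (hfl d).symm
          rw [this]; exact hs.gen,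
        fun d0 hd0 d hd => (hs.path d0 ((hfl d0).2 hd0) d ((hfl d).2 hd)).mono
          (fun x hx => (hfl x).1 hx), by
          intro H _ F h1 h2
          obtain ⟨f, τ, h3, h4⟩ := hs.univ H F (fun d hd => h1 d ((hfl d).1 hd)) h2
          exact ⟨f, τ, fun d hd => h3 d ((hfl d).2 hd), fun d hd => h4 d ((hfl d).2 hd)⟩⟩

end Pool.Agent.TriSurf
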