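import Pool.Agent.TriSurf.RibSurf
import Pool.Agent.TriSurf.Full
import Pool.Agent.TriSurf.Defs
import Pool.Agent.SurfSub.Init

/-!
# Closed locally convex surfaces in the complex of a triangle presentation
-/

set_option autoImplicit false

namespace Pool.Agent.TriSurf

open Pool.Agent.SurfSub (IsCyc Ribbon exists_cycles)

/-- A closed surface made of triangles with a locally convex map to the complex with local structure `Λ`:
`bar` reverses a dart, `σ` turns around the initial vertex of a dart. -/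
structure SSurf (Λ : Loc) where
  /-- the darts -/
  D : Type
  fin : Finite D
  /-- the opposite dart -/
  bar : D → D
  /-- the next dart at the same vertex -/
  σ : D → D
  /-- the letter of a dart -/
  lab : D → Λ.L
  bb : ∀ d, bar (bar d) = d
  inj : Function.Injective σ
  lb : ∀ d, lab (bar d) = Λ.inv (lab d)
  f3 : ∀ d, σ (bar (σ (bar (σ (bar d))))) = d
  fne : ∀ d, σ (bar d) ≠ d
  tri : ∀ d, Λ.M (lab (σ d)) (lab d) (lab (σ (bar (σ d))))
  linj : ∀ d n, lab (σ^[n] d) = lab d → σ^[n] d = d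
  ind : ∀ d n c, Λ.M (lab d) (lab (σ^[n] d)) c → σ^[n] d = σ d ∨ σ (σ^[n] d) = d
  conv : ∀ d n c x y, σ^[n] d ≠ d → Λ.M c (lab d) x → Λ.M c (lab (σ^[n] d)) y →
    ∃ m, lab (σ^[m] d) = c
  len : ∀ d n, 1 ≤ n → n ≤ 6 → σ^[n] d ≠ d

namespace SSurf

variable {Λ : Loc} (S : SSurf Λ)

theorem bn (d : S.D) : S.bar d ≠ d := by
  intro h
  have h1 := S.lb d
  rw [h] at h1
  have h2 := Λ.col_inv (S.lab d)
  rw [← h1] at h2
  simp at h2

theorem periodic (d : S.D) : ∃ n, 1 ≤ n ∧ S.σ^[n] d = d := by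
  have := S.fin
  have h := S.inj.mem_periodicPts d
  obtain ⟨n, hn, h1⟩ := h
  exact ⟨n, hn, h1⟩

/-- connectedness -/
def Connd : Prop := ∀ P : S.D → Prop, (∃ d, P d) → (∀ d, P d → P (S.σ d)) →
  (∀ d, P d → P (S.bar d)) → ∀ d, P d

/-- darts in the component of `d0` -/
inductive Comp (d0 : S.D) : S.D → Prop
  | base : Comp d0 d0
  | rot (d : S.D) (h : Comp d0 d) : Comp d0 (S.σ d)
  | move (d : S.D) (h : Comp d0 d) : Comp d0 (S.bar d)

theorem Comp.iter {d0 d : S.D} (h : S.Comp d0 d) (n : ℕ) : S.Comp d0 (S.σ^[n] d) := by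
  induction n with
  | zero => exact h
  | succ n ih => rw [Function.iterate_succ_apply']; exact Comp.rot _ ih

theorem Comp.trans {a b c : S.D} (h : S.Comp a b) (h' : S.Comp b c) : S.Comp a c := by
  induction h' with
  | base => exact h
  | rot d _ ih => exact Comp.rot d ih
  | move d _ ih => exact Comp.move d ih

theorem Comp.symm {a b : S.D} (h : S.Comp a b) : S.Comp b a := by
  induction h with
  | base => exact Comp.base
  | rot d _ ih =>
    refine Comp.trans S ?_ ih
    obtain ⟨n, hn, h1⟩ := S.periodic d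
    obtain ⟨m, rfl⟩ : ∃ m, n = m + 1 := ⟨n - 1, by omega⟩
    have h2 : S.Comp (S.σ d) (S.σ^[m] (S.σ d)) := Comp.iter S Comp.base m
    rwa [← Function.iterate_succ_apply, h1] at h2
  | move d _ ih =>
    refine Comp.trans S ?_ ih
    have h2 : S.Comp (S.bar d) (S.bar (S.bar d)) := Comp.move _ Comp.base
    rwa [S.bb] at h2

/-- the component of a dart -/
def comp (d0 : S.D) : SSurf Λ where
  D := {d // S.Comp d0 d}
  fin := by
    have := S.fin
    exact Subtype.finite
  bar d := ⟨S.bar d.1, Comp.move _ d.2⟩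
  σ d := ⟨S.σ d.1, Comp.rot _ d.2⟩
  lab d := S.lab d.1
  bb d := Subtype.ext (S.bb _)
  inj := by
    intro a b h
    exact Subtype.ext (S.inj (congrArg Subtype.val h))
  lb d := S.lb _
  f3 d := Subtype.ext (S.f3 _)
  fne d h := S.fne d.1 (congrArg Subtype.val h)
  tri d := S.tri d.1
  linj := by
    intro d n
    have key : ∀ (n : ℕ) (d : {d // S.Comp d0 d}),
        ((fun d : {d // S.Comp d0 d} => (⟨S.σ d.1, Comp.rot _ d.2⟩ : {d // S.Comp d0 d}))^[n] d).1 =
          S.σ^[n] d.1 := by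
      intro n
      induction n with
      | zero => intro d; rfl
      | succ n ih => intro d; rw [Function.iterate_succ_apply, ih, Function.iterate_succ_apply]
    intro h
    apply Subtype.ext
    rw [key] at h ⊢
    exact S.linj d.1 n h
  ind := by
    intro d n c
    have key : ∀ (n : ℕ) (d : {d // S.Comp d0 d}),
        ((fun d : {d // S.Comp d0 d} => (⟨S.σ d.1, Comp.rot _ d.2⟩ : {d // S.Comp d0 d}))^[n] d).1 =
          S.σ^[n] d.1 := by
      intro n
      induction n with
      | zero => intro d; rfl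
      | succ n ih => intro d; rw [Function.iterate_succ_apply, ih, Function.iterate_succ_apply]
    intro h
    rw [key] at h
    rcases S.ind d.1 n c h with h | h
    · left; apply Subtype.ext; rw [key]; exact h
    · right; apply Subtype.ext; show S.σ _ = _; rw [key]; exact h
  conv := by
    intro d n c x y
    have key : ∀ (n : ℕ) (d : {d // S.Comp d0 d}),
        ((fun d : {d // S.Comp d0 d} => (⟨S.σ d.1, Comp.rot _ d.2⟩ : {d // S.Comp d0 d}))^[n] d).1 =
          S.σ^[n] d.1 := by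
      intro n
      induction n with
      | zero => intro d; rfl
      | succ n ih => intro d; rw [Function.iterate_succ_apply, ih, Function.iterate_succ_apply]
    intro hne h1 h2
    rw [key] at h2
    obtain ⟨m, hm⟩ := S.conv d.1 n c x y (fun h => hne (Subtype.ext (by rw [key]; exact h))) h1 h2
    exact ⟨m, by rw [key]; exact hm⟩
  len := by
    intro d n h1 h2 h
    have key : ∀ (n : ℕ) (d : {d // S.Comp d0 d}),
        ((fun d : {d // S.Comp d0 d} => (⟨S.σ d.1, Comp.rot _ d.2⟩ : {d // S.Comp d0 d}))^[n] d).1 =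
          S.σ^[n] d.1 := by
      intro n
      induction n with
      | zero => intro d; rfl
      | succ n ih => intro d; rw [Function.iterate_succ_apply, ih, Function.iterate_succ_apply]
    apply S.len d.1 n h1 h2
    rw [← key, h]

theorem comp_connd (d0 : S.D) : (S.comp d0).Connd := by
  intro P ⟨d1, hd1⟩ hσ hbar d
  have key : ∀ e, S.Comp d1.1 e → ∀ he : S.Comp d0 e, P ⟨e, he⟩ := by
    intro e h
    induction h with
    | base => intro _; exact hd1
    | rot d h ih =>
      intro _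
      exact hσ ⟨d, Comp.trans S d1.2 h⟩ (ih _)
    | move d h ih =>
      intro _
      exact hbar ⟨d, Comp.trans S d1.2 h⟩ (ih _)
  exact key d.1 (Comp.trans S (Comp.symm S d1.2) d.2) d.2

theorem f3' (d : S.D) : (S.σ ∘ S.bar)^[3] d = d := S.f3 d

theorem len_cyc {v : List S.D} (hv : IsCyc S.σ v) : 7 ≤ v.length := by
  by_contra h
  obtain ⟨d, hd⟩ := List.exists_mem_of_ne_nil v hv.ne_nil
  obtain ⟨U, hU⟩ := Pool.Agent.SurfSub.exists_rotate_cons hd
  have h1 := (hv.rotate hU).eq_iterate.2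
  have h2 : v.length = U.length + 1 := by rw [hU.perm.length_eq]; simp
  exact S.len d (U.length + 1) (by omega) (by omega) h1

theorem face_cyc {w : List S.D} (hw : IsCyc (S.σ ∘ S.bar) w) :
    ∃ d, w ~r [d, S.σ (S.bar d), S.σ (S.bar (S.σ (S.bar d)))] := by
  obtain ⟨d, hd⟩ := List.exists_mem_of_ne_nil w hw.ne_nil
  obtain ⟨U, hU⟩ := Pool.Agent.SurfSub.exists_rotate_cons hd
  have hc := hw.rotate hU
  obtain ⟨h1, h2⟩ := hc.eq_iterate
  have hnd := hc.nodup
  have h3 : U.length = 2 := by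
    have f0 : (S.σ ∘ S.bar)^[3] d = d := S.f3' d
    -- minimal period divides three
    have hle : U.length ≤ 2 := by
      by_contra hlt
      rw [h1] at hnd
      rw [List.nodup_map_iff_inj_on List.nodup_range] at hnd
      have := hnd 3 (List.mem_range.2 (by omega)) 0 (List.mem_range.2 (by omega)) f0
      omega
    interval_cases hl : U.length
    · exact absurd h2 (S.fne d)
    · exfalso
      have e1 : (S.σ ∘ S.bar)^[2] d = d := h2
      have e2 : (S.σ ∘ S.bar)^[3] d = (S.σ ∘ S.bar) ((S.σ ∘ S.bar)^[2] d) :=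
        Function.iterate_succ_apply' _ _ _
      rw [e1, f0] at e2
      exact S.fne d e2.symm
    · rfl
  refine ⟨d, ?_⟩
  rw [h1, h3] at hU
  exact hU

theorem exists_ribbon (hc : S.Connd) (d0 : S.D) : ∃ Vs Fs, Ribbon S.bar S.σ Vs Fs ∧
    (∀ d, d ∈ Vs.flatten) ∧ 2 * Vs.length + 2 * Fs.length < Vs.flatten.length := by
  have := S.fin
  obtain ⟨Vs, h1, h2, h3⟩ := exists_cycles S.σ S.inj
  have hbi : Function.Injective S.bar := by
    intro a b h
    rw [← S.bb a, h, S.bb]
  obtain ⟨Fs, k1, k2, k3⟩ := exists_cycles (S.σ ∘ S.bar) (S.inj.comp hbi)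
  have R : Ribbon S.bar S.σ Vs Fs := ⟨h1, k1, h2, k2, fun d => ⟨fun _ => k3 d, fun _ => h3 d⟩,
    fun d _ => h3 _, by
      intro P ⟨d, _, hd⟩ hσ hb d' _
      exact hc P ⟨d, hd⟩ (fun d h => hσ d (h3 d) h) (fun d h => hb d (h3 d) h) d'⟩
  refine ⟨Vs, Fs, R, h3, ?_⟩
  have l1 : ∀ (L : List (List S.D)), (∀ v ∈ L, 7 ≤ v.length) → 7 * L.length ≤ L.flatten.length := by
    intro L
    induction L with
    | nil => intro _; simp
    | cons v L ih =>
      intro h
      have := ih (fun v hv => h v (List.mem_cons_of_mem _ hv))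
      have := h v (by simp)
      simp only [List.length_cons, List.flatten_cons, List.length_append]
      omega
  have l2 : ∀ (L : List (List S.D)), (∀ v ∈ L, v.length = 3) → 3 * L.length = L.flatten.length := by
    intro L
    induction L with
    | nil => intro _; simp
    | cons v L ih =>
      intro h
      have := ih (fun v hv => h v (List.mem_cons_of_mem _ hv))
      have := h v (by simp)
      simp only [List.length_cons, List.flatten_cons, List.length_append]
      omega
  have m1 := l1 Vs (fun v hv => S.len_cyc (h1 v hv))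
  have m2 := l2 Fs (fun w hw => by
    obtain ⟨d, hd⟩ := S.face_cyc (k1 w hw)
    rw [hd.perm.length_eq]
    rfl)
  have m3 : Vs.flatten.length = Fs.flatten.length := by
    exact ((List.perm_ext_iff_of_nodup h2 k2).2 (fun d => ⟨fun _ => k3 d, fun _ => h3 d⟩)).length_eq
  have m4 : 0 < Vs.flatten.length := List.length_pos_of_mem (h3 d0)
  omega

/-- the vertices of the surface -/
def orbS : Setoid S.D where
  r d e := ∃ n, S.σ^[n] d = e
  iseqv := by
    refine ⟨fun d => ⟨0, rfl⟩, ?_, ?_⟩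
    · rintro d e ⟨n, rfl⟩
      obtain ⟨m, hm, h1⟩ := S.periodic d
      have h2 : ∀ k, S.σ^[m * k] d = d := by
        intro k
        induction k with
        | zero => simp
        | succ k ih => rw [Nat.mul_succ, Function.iterate_add_apply, h1, ih]
      refine ⟨m * n - n, ?_⟩
      rw [← Function.iterate_add_apply, Nat.sub_add_cancel]
      · exact h2 n
      · exact Nat.le_mul_of_pos_left n (by omega)
    · rintro d e f ⟨n, rfl⟩ ⟨m, rfl⟩
      exact ⟨m + n, Function.iterate_add_apply _ _ _ _⟩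

/-- the vertex of a dart -/
def vtx (d : S.D) : Quotient S.orbS := Quotient.mk S.orbS d

theorem vtx_eq {d e : S.D} : S.vtx d = S.vtx e ↔ ∃ n, S.σ^[n] d = e := Quotient.eq

theorem vtx_σ (d : S.D) : S.vtx (S.σ d) = S.vtx d := (S.vtx_eq.2 ⟨1, rfl⟩).symm



section Crit

variable {g : ℕ} (s : S.D → SurfaceGroup g)

/-- the relation of a face -/
theorem face_rel {Vs Fs : List (List S.D)} (hR : Ribbon S.bar S.σ Vs Fs) (hall : ∀ d, d ∈ Vs.flatten)
    (hs : SurfD S.bar S.σ Vs Fs g s) (d : S.D) :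
    s d * s (S.σ (S.bar d)) * s (S.σ (S.bar (S.σ (S.bar d)))) = 1 := by
  obtain ⟨w, hw, hdw⟩ := List.mem_flatten.1 ((hR.same d).1 (hall d))
  obtain ⟨e, he⟩ := S.face_cyc (hR.fcyc w hw)
  have h1 := hs.face w hw
  have h2 : ((([e, S.σ (S.bar e), S.σ (S.bar (S.σ (S.bar e)))] : List S.D)).map s).prod = 1 := by
    have h3 := he.map s
    obtain ⟨n, hn⟩ := h3
    rw [← hn]
    exact List.prod_rotate_eq_one_of_prod_eq_one h1 n
  have h4 : d ∈ [e, S.σ (S.bar e), S.σ (S.bar (S.σ (S.bar e)))] := he.mem_iff.1 hdw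
  simp only [List.map_cons, List.map_nil, List.prod_cons, List.prod_nil, mul_one] at h2
  rw [← mul_assoc] at h2
  have r3 : ∀ {a b c : SurfaceGroup g}, a * b * c = 1 → b * c * a = 1 := by
    intro a b c h
    rw [mul_assoc] at h
    exact mul_eq_one_comm.1 h
  have f3 := S.f3 e
  simp only [List.mem_cons, List.not_mem_nil, or_false] at h4
  rcases h4 with rfl | rfl | rfl
  · exact h2
  · rw [f3]; exact r3 h2
  · rw [f3]; exact r3 (r3 h2)

/-- edges of the universal cover -/
def ES' (x : SurfaceGroup g × Quotient S.orbS) (a : Λ.L) (y : SurfaceGroup g × Quotient S.orbS) : Prop :=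
  ∃ d, S.vtx d = x.2 ∧ S.lab d = a ∧ S.vtx (S.bar d) = y.2 ∧ y.1 = x.1 * s d

theorem lab_inj {d e : S.D} (h : S.vtx d = S.vtx e) (hl : S.lab d = S.lab e) : d = e := by
  obtain ⟨n, rfl⟩ := S.vtx_eq.1 h
  exact (S.linj d n hl.symm).symm

theorem phi2 (d : S.D) : S.bar (S.σ (S.bar (S.σ (S.bar (S.σ d))))) = d := by
  have h := S.f3 (S.bar d)
  rw [S.bb] at h
  rw [h, S.bb]

/-- the universal cover of a surface as a partial action -/
def pact (hinv : ∀ d, s (S.bar d) = (s d)⁻¹)
    (hface : ∀ d, s d * s (S.σ (S.bar d)) * s (S.σ (S.bar (S.σ (S.bar d)))) = 1) : PAct Λ where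
  V := SurfaceGroup g × Quotient S.orbS
  E := S.ES' s
  det := by
    rintro x a y y' ⟨d, h1, h2, h3, h4⟩ ⟨d', k1, k2, k3, k4⟩
    have hd : d = d' := S.lab_inj (h1.trans k1.symm) (h2.trans k2.symm)
    subst hd
    exact Prod.ext (h4.trans k4.symm) (h3.symm.trans k3)
  sym := by
    rintro x a y ⟨d, h1, h2, h3, h4⟩
    refine ⟨S.bar d, h3, ?_, ?_, ?_⟩
    · rw [S.lb, h2]
    · rw [S.bb]; exact h1
    · rw [h4, hinv, mul_inv_cancel_right]
  tri := by
    -- the case of consecutive darts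
    have key : ∀ (x : SurfaceGroup g × Quotient S.orbS) (a b c : Λ.L)
        (y z : SurfaceGroup g × Quotient S.orbS) (d : S.D), Λ.M a b c → S.vtx (S.σ d) = x.2 → S.lab (S.σ d) = a →
        S.vtx (S.bar (S.σ d)) = y.2 → y.1 = x.1 * s (S.σ d) → S.lab d = b → S.vtx (S.bar d) = z.2 →
        z.1 = x.1 * s d → S.ES' s y c z := by
      intro x a b c y z d hM h1 h2 h3 h4 h5 h6 h7
      refine ⟨S.σ (S.bar (S.σ d)), ?_, ?_, ?_, ?_⟩
      · rw [S.vtx_σ]; exact h3
      · have h8 := S.tri d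
        rw [h2, h5] at h8
        exact Λ.M_fun _ _ _ _ h8 hM
      · rw [← h6, ← S.vtx_σ (S.bar (S.σ (S.bar (S.σ d))))]
        congr 1
        have h := S.f3 (S.bar d)
        rw [S.bb] at h
        exact h
      · have h8 := hface (S.σ d)
        have h9 : S.σ (S.bar (S.σ (S.bar (S.σ d)))) = S.bar d := by
          have h := S.f3 (S.bar d)
          rw [S.bb] at h
          exact h
        rw [h9, hinv] at h8
        rw [h7, h4, mul_assoc]
        congr 1
        exact (mul_inv_eq_one.1 h8).symm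
    rintro x a b c y z hM ⟨d, h1, h2, h3, h4⟩ ⟨d', k1, k2, k3, k4⟩
    obtain ⟨n, hn⟩ := S.vtx_eq.1 (h1.trans k1.symm)
    have hM' : Λ.M (S.lab d) (S.lab (S.σ^[n] d)) c := by rw [hn, h2, k2]; exact hM
    rcases S.ind d n c hM' with h | h
    · -- `d' = σ d`
      rw [hn] at h
      subst h
      have h5 := key x b a (Λ.inv c) z y d (Λ.M_symm _ _ _ hM) k1 k2 k3 k4 h2 h3 h4
      obtain ⟨e, e1, e2, e3, e4⟩ := h5
      refine ⟨S.bar e, e3, ?_, ?_, ?_⟩
      · rw [S.lb, e2, Λ.inv_inv]
      · rw [S.bb]; exact e1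
      · rw [e4, hinv, mul_inv_cancel_right]
    · rw [hn] at h
      subst h
      exact key x a b c y z d' hM h1 h2 h3 h4 k2 k3 k4
  conv := by
    rintro v a b c x y hx hy hne ⟨u, d, h1, h2, _, _⟩ ⟨w, d', k1, k2, _, _⟩
    obtain ⟨n, hn⟩ := S.vtx_eq.1 (h1.trans k1.symm)
    obtain ⟨m, hm⟩ := S.conv d n c x y (by
      intro h
      rw [hn] at h
      exact hne (by rw [← h2, ← k2, h])) (by rw [h2]; exact hx) (by rw [hn, k2]; exact hy)
    refine ⟨(v.1 * s (S.σ^[m] d), S.vtx (S.bar (S.σ^[m] d))), S.σ^[m] d, ?_, hm, rfl, rfl⟩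
    rw [← h1]
    exact (S.vtx_eq.2 ⟨m, rfl⟩).symm

end Crit

/-- **A closed locally convex surface gives a surface subgroup.** -/
theorem hasSurface_of_connd (hc : S.Connd) (d0 : S.D) {G : Type} [Group G] (val : Λ.L → G)
    (hinv : ∀ a, val (Λ.inv a) = (val a)⁻¹) (hM : ∀ a b c, Λ.M a b c → val a * val c = val b)
    (huniv : ∀ (H : Type) [Group H] (F : Λ.L → H), (∀ a, F (Λ.inv a) = (F a)⁻¹) →
      (∀ a b c, Λ.M a b c → F a * F c = F b) → ∃ Φ : G →* H, ∀ a, Φ (val a) = F a) :
    ∃ g, 2 ≤ g ∧ ∃ f : SurfaceGroup g →* G, Function.Injective f := by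
  obtain ⟨Vs, Fs, hR, hall, hχ⟩ := S.exists_ribbon hc d0
  have hVs : Vs ≠ [] := by
    rintro rfl
    simpa using hall d0
  obtain ⟨n, hn⟩ : ∃ n, Vs.length = n + 1 := ⟨Vs.length - 1, by
    have := List.length_pos_iff.2 hVs
    omega⟩
  obtain ⟨g, hg, s0, hs0⟩ := surf_data S.bb S.bn n S.σ Vs Fs hn hR hχ
  let s : S.D → SurfaceGroup g := s0
  have hs : SurfD S.bar S.σ Vs Fs g s := hs0
  have hsinv : ∀ d, s (S.bar d) = (s d)⁻¹ := fun d => hs.inv d (hall d)
  have hface := S.face_rel s hR hall hs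
  obtain ⟨Y, io, p, hio, hpinv, hpE, hpM⟩ := exists_full (S.pact s hsinv hface)
  -- the homomorphism
  obtain ⟨f0, τ, hτ, hfτ⟩ := hs.univ G (fun d => val (S.lab d))
    (fun d _ => by show val (S.lab (S.bar d)) = _; rw [S.lb, hinv])
    (by
      intro w hw
      obtain ⟨d, hd⟩ := S.face_cyc (hR.fcyc w hw)
      have h1 := hd.map (fun d => val (S.lab d))
      have h2 : (([d, S.σ (S.bar d), S.σ (S.bar (S.σ (S.bar d)))] : List S.D).map
          (fun d => val (S.lab d))).prod = 1 := by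
        simp only [List.map_cons, List.map_nil, List.prod_cons, List.prod_nil, mul_one]
        have h3 := S.tri (S.bar (S.σ (S.bar (S.σ (S.bar d)))))
        have h4 : S.σ (S.bar (S.σ (S.bar (S.σ (S.bar d))))) = d := S.f3 d
        rw [h4, S.lb] at h3
        have h5 := hM _ _ _ h3
        rw [hinv] at h5
        rw [← mul_assoc, h5, inv_mul_cancel]
      obtain ⟨m, hm⟩ := h1.symm
      rw [← hm]
      exact List.prod_rotate_eq_one_of_prod_eq_one h2 m)
  let f : SurfaceGroup g →* G := f0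
  have hf : ∀ d, f (s d) = τ d * val (S.lab d) * (τ (S.bar d))⁻¹ := fun d => hfτ d (hall d)
  refine ⟨g, hg, f, ?_⟩
  -- the action
  obtain ⟨Φ, hΦ⟩ := huniv (Equiv.Perm Y) (fun a => (p a)⁻¹) (fun a => by rw [hpinv])
    (by
      intro a b c h
      rw [← mul_inv_rev]
      congr 1
      ext y
      exact hpM a b c h y)
  have hstep : ∀ d h, (Φ (val (S.lab d)))⁻¹ (io (h, S.vtx d)) = io (h * s d, S.vtx (S.bar d)) := by
    intro d h
    rw [hΦ, inv_inv]
    exact hpE _ _ _ ⟨d, rfl, rfl, rfl, rfl⟩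
  have hpath : ∀ d1 d k, Rch S.bar S.σ s Vs.flatten d1 d k → ∀ h,
      (Φ ((τ d1)⁻¹ * f k * τ d))⁻¹ (io (h, S.vtx d1)) = io (h * k, S.vtx d) := by
    intro d1 d k hk
    induction hk with
    | base => intro h; simp
    | rot d k hd _ ih =>
      intro h
      rw [hτ d hd, S.vtx_σ]
      exact ih h
    | rot' d k hd _ ih =>
      intro h
      have := ih h
      rw [hτ d hd, S.vtx_σ] at this
      exact this
    | move d k hd _ ih =>
      intro h
      have h1 : (τ d1)⁻¹ * f (k * s d) * τ (S.bar d) =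
          ((τ d1)⁻¹ * f k * τ d) * val (S.lab d) := by
        rw [map_mul, hf]
        group
      rw [h1, map_mul, mul_inv_rev, Equiv.Perm.mul_apply, ih h, hstep, mul_assoc]
  let S0 : Subgroup (SurfaceGroup g) :=
    { carrier := {x | ∀ h, (Φ ((τ d0)⁻¹ * f x * τ d0))⁻¹ (io (h, S.vtx d0)) = io (h * x, S.vtx d0)}
      mul_mem' := by
        intro a b ha hb h
        have h1 : (τ d0)⁻¹ * f (a * b) * τ d0 =
            ((τ d0)⁻¹ * f a * τ d0) * ((τ d0)⁻¹ * f b * τ d0) := by
          rw [map_mul]; group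
        rw [h1, map_mul, mul_inv_rev, Equiv.Perm.mul_apply, ha h, hb (h * a), mul_assoc]
      one_mem' := by intro h; simp
      inv_mem' := by
        intro a ha h
        have h1 : (τ d0)⁻¹ * f a⁻¹ * τ d0 = ((τ d0)⁻¹ * f a * τ d0)⁻¹ := by
          rw [map_inv]; group
        have := ha (h * a⁻¹)
        rw [inv_mul_cancel_right] at this
        rw [h1, map_inv, inv_inv, ← this, ← Equiv.Perm.mul_apply, mul_inv_cancel,
          Equiv.Perm.one_apply] }
  have hS0 : S0 = ⊤ := by
    have hgen : Subgroup.closure (s '' {d | d ∈ Vs.flatten}) = (⊤ : Subgroup (SurfaceGroup g)) := hs.gen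
    rw [eq_top_iff, ← hgen, Subgroup.closure_le]
    rintro _ ⟨d, _, rfl⟩
    have r1 := hs.path d0 (hall d0) d (hall d)
    have r2 := Rch.move d _ (hall d) r1
    have r3 := r2.trans (hs.path (S.bar d) (hall _) d0 (hall d0))
    rw [one_mul, mul_one] at r3
    exact hpath d0 d0 _ r3
  rw [injective_iff_map_eq_one]
  intro x hx
  have hxS : x ∈ S0 := by rw [hS0]; trivial
  have h3 := hxS 1
  rw [hx, mul_one, inv_mul_cancel, map_one, inv_one, Equiv.Perm.one_apply, one_mul] at h3
  have h4 := hio h3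
  exact (congrArg Prod.fst h4).symm

theorem hasSurface (d0 : S.D) {G : Type} [Group G] (val : Λ.L → G)
    (hinv : ∀ a, val (Λ.inv a) = (val a)⁻¹) (hM : ∀ a b c, Λ.M a b c → val a * val c = val b)
    (huniv : ∀ (H : Type) [Group H] (F : Λ.L → H), (∀ a, F (Λ.inv a) = (F a)⁻¹) →
      (∀ a b c, Λ.M a b c → F a * F c = F b) → ∃ Φ : G →* H, ∀ a, Φ (val a) = F a) :
    HasSurfaceSubgroup G :=
  (S.comp d0).hasSurface_of_connd (S.comp_connd d0) ⟨d0, Comp.base⟩ val hinv hM huniv

end SSurf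

end Pool.Agent.TriSurf
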