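import Pool.Agent.TriSurf.Words
import Pool.Agent.TriSurf.Defs

/-!
# Surfaces in triangle presentations: the main criterion
-/

set_option autoImplicit false

namespace Pool.Agent.TriSurf

/-- generators of a triangle group, by number -/
def baseG (k : ℕ) (T : List (Fin k × Fin k × Fin k)) (x : ℕ) : TriGroup k T :=
  if h : x < k then PresentedGroup.of ⟨x, h⟩ else 1

/-- generators of a surface group, by number: `a_1, b_1, a_2, b_2, …` -/
def baseH (g : ℕ) (j : ℕ) : SurfaceGroup g :=
  if h : j / 2 < g then
    (if j % 2 = 0 then PresentedGroup.of (Sum.inl ⟨j / 2, h⟩) else PresentedGroup.of (Sum.inr ⟨j / 2, h⟩))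
  else 1

/-- triples of numbers -/
def nat3 (k : ℕ) (T : List (Fin k × Fin k × Fin k)) : List (ℕ × ℕ × ℕ) :=
  T.map fun t => (t.1.val, t.2.1.val, t.2.2.val)

theorem baseG_rel {k : ℕ} {T : List (Fin k × Fin k × Fin k)} {x y z : ℕ}
    (h : (x, y, z) ∈ nat3 k T) : baseG k T x * baseG k T y * baseG k T z = 1 := by
  rw [nat3, List.mem_map] at h
  obtain ⟨t, ht, he⟩ := h
  obtain ⟨h1, h2, h3⟩ : t.1.val = x ∧ t.2.1.val = y ∧ t.2.2.val = z := by
    simpa [Prod.ext_iff] using he
  subst h1; subst h2; subst h3
  simp only [baseG, Fin.is_lt, dif_pos, Fin.eta]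
  have : (PresentedGroup.mk (triRel k T))
      (FreeGroup.of t.1 * FreeGroup.of t.2.1 * FreeGroup.of t.2.2) = 1 :=
    PresentedGroup.one_of_mem ⟨t, ht, rfl⟩
  simpa [PresentedGroup.of] using this

theorem rot3 {K : Type} [Group K] {a b c : K} (h : a * b * c = 1) : b * c * a = 1 := by
  rw [mul_assoc] at h
  exact mul_eq_one_comm.1 h

theorem baseG_rot {k : ℕ} {T : List (Fin k × Fin k × Fin k)} {x y z : ℕ}
    (h : (x, y, z) ∈ rot (nat3 k T)) : baseG k T x * baseG k T y * baseG k T z = 1 := by
  simp only [rot, List.mem_append] at h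
  rcases h with (h | h) | h
  · exact baseG_rel h
  · rw [List.mem_map] at h
    obtain ⟨⟨p, q, r⟩, ht, he⟩ := h
    obtain ⟨h1, h2, h3⟩ : q = x ∧ r = y ∧ p = z := by simpa [Prod.ext_iff] using he
    subst h1; subst h2; subst h3
    exact rot3 (baseG_rel ht)
  · rw [List.mem_map] at h
    obtain ⟨⟨p, q, r⟩, ht, he⟩ := h
    obtain ⟨h1, h2, h3⟩ : r = x ∧ p = y ∧ q = z := by simpa [Prod.ext_iff] using he
    subst h1; subst h2; subst h3
    exact rot3 (rot3 (baseG_rel ht))

/-! ### Words in a triangle group -/

/-- product of two letters which is a letter, from the relators -/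
def mulT (l : List (ℕ × ℕ × ℕ)) (a b : ℕ) : Option ℕ :=
  if a % 2 = 0 then
    if b % 2 = 0 then
      match l.find? (fun t => Nat.beq t.1 (a / 2) && Nat.beq t.2.1 (b / 2)) with
      | some t => some (2 * t.2.2 + 1)
      | none => none
    else none
  else
    if b % 2 = 0 then none
    else
      match l.find? (fun t => Nat.beq t.1 (b / 2) && Nat.beq t.2.1 (a / 2)) with
      | some t => some (2 * t.2.2)
      | none => none

theorem mulT_spec {k : ℕ} {T : List (Fin k × Fin k × Fin k)} {a b c : ℕ}
    (h : mulT (rot (nat3 k T)) a b = some c) :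
    evl (baseG k T) a * evl (baseG k T) b = evl (baseG k T) c := by
  unfold mulT at h
  split_ifs at h with h1 h2 h2
  · cases hf : (rot (nat3 k T)).find? (fun t => Nat.beq t.1 (a / 2) && Nat.beq t.2.1 (b / 2)) with
    | none => rw [hf] at h; cases h
    | some t =>
      rw [hf] at h
      have hc : 2 * t.2.2 + 1 = c := Option.some.inj h
      have hp := List.find?_some hf
      have hm := List.mem_of_find?_eq_some hf
      simp only [Bool.and_eq_true] at hp
      have e1 := Nat.eq_of_beq_eq_true hp.1
      have e2 := Nat.eq_of_beq_eq_true hp.2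
      have hr := baseG_rot (k := k) (T := T) (x := a / 2) (y := b / 2) (z := t.2.2) (by
        rw [← e1, ← e2]; exact hm)
      subst hc
      rw [evl, evl, evl, if_pos h1, if_pos h2, if_neg (by omega),
        show (2 * t.2.2 + 1) / 2 = t.2.2 by omega]
      exact eq_inv_of_mul_eq_one_left hr
  · cases hf : (rot (nat3 k T)).find? (fun t => Nat.beq t.1 (b / 2) && Nat.beq t.2.1 (a / 2)) with
    | none => rw [hf] at h; cases h
    | some t =>
      rw [hf] at h
      have hc : 2 * t.2.2 = c := Option.some.inj h
      have hp := List.find?_some hf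
      have hm := List.mem_of_find?_eq_some hf
      simp only [Bool.and_eq_true] at hp
      have e1 := Nat.eq_of_beq_eq_true hp.1
      have e2 := Nat.eq_of_beq_eq_true hp.2
      have hr := baseG_rot (k := k) (T := T) (x := b / 2) (y := a / 2) (z := t.2.2) (by
        rw [← e1, ← e2]; exact hm)
      subst hc
      rw [evl, evl, evl, if_neg h1, if_neg h2, if_pos (by omega),
        show (2 * t.2.2) / 2 = t.2.2 by omega, ← mul_inv_rev]
      exact inv_eq_of_mul_eq_one_right hr

/-- one instruction: `0` move right, `1` move left, `2` cancel, `3` contract, `n + 4` expand the next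
letter starting with the letter `n` -/
def stp (l : List (ℕ × ℕ × ℕ)) (i : ℕ) (s : List ℕ × List ℕ) : Option (List ℕ × List ℕ) :=
  match i, s with
  | 0, (u, c :: r) => some (c :: u, r)
  | 1, (c :: u, r) => some (u, c :: r)
  | 2, (c :: u, d :: r) => if Nat.beq d (cinv c) then some (u, r) else none
  | 3, (a :: u, b :: r) =>
    match mulT l a b with
    | some c => some (u, c :: r)
    | none => none
  | n + 4, (u, c :: r) =>
    match mulT l (cinv n) c with
    | some b => some (u, n :: b :: r)
    | none => none
  | _, _ => none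

/-- run a program -/
def prg (l : List (ℕ × ℕ × ℕ)) : List ℕ → List ℕ × List ℕ → Option (List ℕ × List ℕ)
  | [], s => some s
  | i :: p, s =>
    match stp l i s with
    | some s' => prg l p s'
    | none => none

/-- value of a state -/
def vst {K : Type} [Group K] (base : ℕ → K) (s : List ℕ × List ℕ) : K :=
  ev base s.1.reverse * ev base s.2

theorem stp_spec {k : ℕ} {T : List (Fin k × Fin k × Fin k)} {i : ℕ} {s s' : List ℕ × List ℕ}
    (h : stp (rot (nat3 k T)) i s = some s') : vst (baseG k T) s' = vst (baseG k T) s := by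
  unfold stp at h
  split at h
  · obtain rfl := Option.some.inj h
    simp [vst, mul_assoc]
  · obtain rfl := Option.some.inj h
    simp [vst, mul_assoc]
  · split_ifs at h with hc
    obtain rfl := Option.some.inj h
    have := Nat.eq_of_beq_eq_true hc
    simp [vst, this, evl_cinv, mul_assoc]
  · split at h
    · rename_i c hm
      obtain rfl := Option.some.inj h
      have := mulT_spec hm
      simp [vst, ← this, mul_assoc]
    · cases h
  · split at h
    · rename_i b hm
      obtain rfl := Option.some.inj h
      have := mulT_spec hm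
      simp only [vst, ev_cons, ← this, evl_cinv, mul_assoc, mul_inv_cancel_left]
    · cases h
  · cases h

theorem prg_spec {k : ℕ} {T : List (Fin k × Fin k × Fin k)} {p : List ℕ} {s s' : List ℕ × List ℕ}
    (h : prg (rot (nat3 k T)) p s = some s') : vst (baseG k T) s' = vst (baseG k T) s := by
  induction p generalizing s with
  | nil => rw [prg] at h; rw [Option.some.inj h]
  | cons i p ih =>
    rw [prg] at h
    cases hs : stp (rot (nat3 k T)) i s with
    | none => rw [hs] at h; cases h
    | some t =>
      rw [hs] at h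
      rw [ih h, stp_spec hs]

end Pool.Agent.TriSurf
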