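import Pool.Agent.TriSurf.SData
import Pool.Agent.TriSurf.PresT

/-!
# Surfaces
-/

set_option autoImplicit false
set_option maxRecDepth 100000

namespace Pool.Agent.TriSurf

/-- the multiplication table of presentation 163 -/
def W163 : ℕ :=
  1805695305276042896703997219656539657463450166775663264883504636894751651585865345302067266683028614375161033005833414352906490248154349400418028727941468583435883352160277444968535828463129036006690714192454846902430461806801973921935719449761774234688385691559133185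

/-- a surface for presentation 163 -/
def rows163 : List (List (ℕ × ℕ × ℕ)) :=
  [[(0, 1, 1), (1, 2, 0), (18, 3, 2), (5, 4, 7), (16, 5, 1), (21, 6, 2), (2, 3, 4), (23, 2, 6), (26, 7, 4), (7, 8, 3)],
   [(0, 2, 1), (1, 0, 0), (28, 8, 2), (27, 9, 1), (4, 2, 3), (15, 4, 1), (22, 3, 0), (9, 4, 3)],
   [(0, 0, 1), (1, 1, 0), (18, 4, 2), (5, 1, 4), (6, 9, 0), (29, 7, 5), (22, 0, 7), (9, 3, 3)],
   [(23, 1, 6), (14, 4, 0), (19, 0, 2), (8, 2, 7), (3, 0, 6), (12, 6, 1), (17, 9, 5), (2, 4, 4)],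
   [(15, 3, 1), (14, 1, 5), (19, 2, 2), (8, 1, 7), (3, 3, 7), (20, 9, 4), (13, 5, 2), (4, 0, 3)],
   [(2, 6, 3), (17, 0, 4), (12, 4, 6), (3, 9, 3), (8, 8, 0), (19, 9, 7), (14, 6, 7), (23, 7, 1)],
   [(4, 9, 6), (13, 3, 5), (20, 0, 5), (3, 5, 0), (8, 7, 0), (19, 8, 5), (14, 7, 2), (15, 5, 6)],
   [(9, 6, 4), (22, 5, 7), (15, 6, 6), (4, 8, 4), (27, 0, 8), (28, 2, 5), (1, 9, 9), (0, 8, 6)],
   [(9, 5, 4), (22, 9, 2), (29, 1, 2), (6, 0, 9), (5, 7, 3), (18, 6, 5), (1, 7, 7), (0, 9, 8)],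
   [(7, 2, 4), (26, 1, 3), (23, 8, 1), (2, 5, 3), (21, 4, 5), (16, 3, 6), (5, 6, 0), (18, 5, 5), (1, 8, 7), (0, 7, 6)]]

theorem sf163 : SurfFor W163 :=
  surfFor_of_table (T := T163) (lam := [0, 13, 11, 1, 2, 12, 8, 7, 3, 14, 5, 4, 9, 6, 10]) (rows := rows163)
    (by decide +kernel) (by decide +kernel) (by decide +kernel) (by decide +kernel)

/-- the multiplication table of presentation 164 -/
def W164 : ℕ :=
  28891138660290737289159491773901265249127686000766111012487254743743427985467513637077077089283932905584331449947683058579375494991846782978793770886240507549184818423552837547662710890350706575869208823185012919596251189335743853275583895845788757846652740094786535425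

/-- a surface for presentation 164 -/
def rows164 : List (List (ℕ × ℕ × ℕ)) :=
  [[(8, 1, 1), (15, 2, 4), (12, 3, 2), (27, 4, 5), (28, 1, 3), (1, 4, 7), (18, 3, 0), (23, 4, 1)],
   [(4, 2, 5), (9, 0, 0), (16, 4, 0), (29, 0, 4), (24, 4, 4), (13, 5, 5), (10, 2, 1), (19, 5, 1)],
   [(0, 5, 2), (11, 1, 6), (26, 5, 4), (25, 3, 3), (14, 0, 1), (5, 1, 0), (22, 5, 0), (17, 3, 5)],
   [(19, 0, 6), (10, 4, 6), (13, 0, 2), (24, 2, 3), (29, 5, 3), (16, 2, 7), (9, 5, 7), (4, 4, 2)],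
   [(17, 1, 2), (22, 0, 7), (5, 3, 7), (14, 5, 6), (25, 1, 4), (26, 0, 3), (11, 3, 1), (0, 0, 5)],
   [(23, 2, 6), (18, 1, 7), (1, 2, 0), (28, 3, 4), (27, 2, 2), (12, 1, 5), (15, 4, 3), (8, 3, 6)]]

theorem sf164 : SurfFor W164 :=
  surfFor_of_table (T := T164) (lam := [0, 11, 7, 9, 8, 1, 12, 13, 2, 6, 10, 14, 4, 3, 5]) (rows := rows164)
    (by decide +kernel) (by decide +kernel) (by decide +kernel) (by decide +kernel)

/-- the multiplication table of presentation 165 -/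
def W165 : ℕ :=
  1418761695247745257135172914826251135831705086342567486175519014645426230615648830418565542968989760256136112348696586759312401960785191986921581430620928970608487428218711781696246085745103465114520030591591821972685898070475965606542073619000805702374223011825844225

/-- a surface for presentation 165 -/
def rows165 : List (List (ℕ × ℕ × ℕ)) :=
  [[(4, 1, 4), (23, 2, 6), (20, 3, 3), (9, 4, 7), (26, 3, 5), (5, 2, 4), (14, 1, 0), (29, 5, 3)],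
   [(15, 0, 6), (22, 2, 3), (29, 4, 3), (14, 2, 7), (5, 0, 0), (26, 5, 2), (9, 3, 0), (0, 5, 4)],
   [(0, 4, 2), (9, 5, 7), (20, 4, 4), (23, 1, 1), (4, 0, 5), (29, 3, 4), (22, 0, 1), (15, 1, 3)],
   [(8, 1, 6), (11, 5, 1), (12, 4, 0), (21, 0, 2), (28, 2, 5), (27, 0, 4), (10, 4, 6), (19, 5, 5)],
   [(13, 3, 2), (18, 5, 0), (1, 2, 0), (28, 1, 2), (21, 2, 2), (12, 5, 6), (11, 3, 6), (8, 0, 3)],
   [(19, 4, 1), (10, 3, 1), (27, 1, 5), (28, 0, 7), (1, 1, 7), (18, 3, 7), (13, 4, 5), (8, 2, 1)]]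

theorem sf165 : SurfFor W165 :=
  surfFor_of_table (T := T165) (lam := [0, 9, 4, 11, 1, 13, 14, 2, 5, 12, 3, 8, 10, 6, 7]) (rows := rows165)
    (by decide +kernel) (by decide +kernel) (by decide +kernel) (by decide +kernel)

/-- the multiplication table of presentation 166 -/
def W166 : ℕ :=
  8061750790212242232362302110358172172972702057388517301233135564558643852622470306008872334486764614408713144323808876999477979875608181400256396067307024651114795212552837342312311316389887773497053322834999348970631059408045708331075417065582399244175743169593345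

/-- a surface for presentation 166 -/
def rows166 : List (List (ℕ × ℕ × ℕ)) :=
  [[(2, 1, 7), (5, 2, 0), (14, 3, 5), (25, 4, 3), (18, 5, 5), (1, 5, 0), (28, 6, 2), (9, 7, 0)],
   [(2, 7, 3), (5, 3, 0), (14, 8, 1), (25, 9, 2), (8, 7, 5), (13, 9, 6), (10, 2, 1), (3, 0, 0), (28, 7, 7), (9, 9, 0)],
   [(4, 0, 1), (11, 1, 6), (22, 9, 5), (7, 10, 3), (24, 11, 4), (27, 12, 1), (16, 8, 3), (17, 3, 6)],
   [(4, 1, 1), (11, 7, 2), (22, 6, 0), (23, 13, 3), (6, 4, 4), (15, 0, 2), (16, 2, 7), (17, 8, 2)],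
   [(17, 10, 1), (16, 6, 4), (27, 5, 6), (24, 0, 3), (7, 3, 4), (22, 13, 2), (11, 14, 3), (4, 11, 6)],
   [(0, 0, 5), (7, 5, 4), (22, 12, 4), (23, 12, 5), (6, 5, 1), (19, 0, 4), (26, 4, 2), (21, 6, 3)],
   [(23, 3, 2), (12, 7, 1), (29, 0, 6), (20, 5, 7), (17, 4, 1), (16, 10, 0), (15, 14, 7), (6, 13, 4)],
   [(8, 0, 7), (13, 6, 1), (10, 3, 1), (3, 1, 0), (28, 9, 7), (9, 1, 4), (12, 9, 1), (29, 1, 8)],
   [(6, 9, 3), (15, 1, 2), (16, 3, 7), (17, 2, 6), (20, 12, 0), (29, 11, 1), (12, 15, 6), (23, 10, 5)],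
   [(8, 1, 9), (13, 7, 6), (24, 1, 3), (7, 8, 0), (22, 10, 4), (23, 2, 2), (12, 1, 5), (29, 7, 4)],
   [(17, 6, 5), (16, 4, 0), (15, 11, 5), (6, 2, 3), (23, 9, 4), (22, 8, 7), (11, 15, 5), (4, 14, 8)],
   [(9, 15, 7), (28, 8, 5), (1, 12, 7), (18, 12, 2), (25, 2, 4), (14, 10, 2), (5, 4, 7), (2, 14, 2)],
   [(21, 8, 4), (26, 2, 5), (19, 11, 3), (6, 12, 6), (23, 5, 2), (22, 5, 3), (7, 12, 3), (0, 11, 2)],
   [(29, 15, 3), (12, 14, 4), (23, 4, 5), (22, 3, 3), (7, 6, 7), (24, 14, 6), (13, 15, 1), (8, 14, 0)],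
   [(9, 13, 7), (28, 15, 0), (3, 11, 7), (10, 4, 6), (13, 13, 1), (8, 15, 2), (25, 13, 5), (14, 6, 6), (5, 10, 7), (2, 15, 4)],
   [(29, 14, 1), (12, 13, 6), (9, 14, 5), (28, 13, 0), (3, 14, 9), (10, 10, 6), (13, 8, 6), (8, 11, 0)]]

theorem sf166 : SurfFor W166 :=
  surfFor_of_table (T := T166) (lam := [0, 6, 4, 2, 3, 7, 12, 11, 8, 9, 1, 10, 14, 5, 13]) (rows := rows166)
    (by decide +kernel) (by decide +kernel) (by decide +kernel) (by decide +kernel)

/-- the multiplication table of presentation 167 -/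
def W167 : ℕ :=
  363202490171175281400045726232289488493029064886518139302679986077773050344902862068672116715432636162888562617430166847473789678130786808302364888523452258809299182772254579039506803765913909693908799644762053170699796221975615163695585915536670239951792017483470209025

/-- a surface for presentation 167 -/
def rows167 : List (List (ℕ × ℕ × ℕ)) :=
  [[(2, 1, 1), (3, 2, 0), (12, 2, 3), (13, 1, 2), (22, 0, 7), (15, 3, 1), (14, 3, 2), (23, 0, 4)],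
   [(2, 2, 1), (3, 0, 0), (12, 0, 3), (13, 2, 2), (22, 1, 7), (15, 4, 1), (14, 4, 2), (23, 1, 4)],
   [(2, 0, 1), (3, 1, 0), (12, 1, 3), (13, 0, 2), (22, 2, 7), (15, 5, 1), (14, 5, 2), (23, 2, 4)],
   [(23, 3, 3), (14, 0, 5), (15, 0, 6), (22, 3, 0), (13, 5, 5), (12, 4, 4), (3, 4, 7), (2, 5, 6)],
   [(23, 4, 3), (14, 1, 5), (15, 1, 6), (22, 4, 0), (13, 3, 5), (12, 5, 4), (3, 5, 7), (2, 3, 6)],
   [(23, 5, 3), (14, 2, 5), (15, 2, 6), (22, 5, 0), (13, 4, 5), (12, 3, 4), (3, 3, 7), (2, 4, 6)]]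

theorem sf167 : SurfFor W167 :=
  surfFor_of_table (T := T167) (lam := [0, 3, 11, 1, 2, 5, 10, 7, 14, 12, 6, 4, 8, 13, 9]) (rows := rows167)
    (by decide +kernel) (by decide +kernel) (by decide +kernel) (by decide +kernel)

/-- the multiplication table of presentation 168 -/
def W168 : ℕ :=
  33018408234687834687481836726575265122053459590680245748986694415996328757052457705921664511927636803234537412161630035987553379101821288824707547347294314799507884359197891417554218094992846929029624108019785777286510786861045498303551780427760391977833579043381837825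

/-- a surface for presentation 168 -/
def rows168 : List (List (ℕ × ℕ × ℕ)) :=
  [[(2, 1, 2), (9, 0, 4), (12, 2, 4), (13, 2, 5), (8, 0, 1), (23, 1, 1), (24, 3, 1), (19, 4, 4)],
   [(27, 3, 2), (22, 0, 5), (3, 0, 0), (6, 4, 3), (29, 4, 6), (26, 3, 7), (25, 2, 1), (0, 5, 2)],
   [(19, 5, 3), (24, 1, 6), (23, 3, 6), (8, 2, 6), (13, 0, 2), (12, 0, 3), (9, 2, 3), (2, 3, 5)],
   [(0, 4, 5), (25, 0, 6), (26, 1, 0), (29, 5, 1), (6, 5, 4), (3, 2, 7), (22, 2, 2), (27, 1, 5)],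
   [(4, 5, 6), (5, 5, 7), (16, 4, 7), (7, 1, 3), (18, 0, 7), (1, 3, 0), (28, 1, 4), (17, 4, 2)],
   [(17, 5, 5), (28, 3, 3), (1, 1, 7), (18, 2, 0), (7, 3, 4), (16, 5, 0), (5, 4, 0), (4, 4, 1)]]

theorem sf168 : SurfFor W168 :=
  surfFor_of_table (T := T168) (lam := [0, 10, 8, 11, 3, 14, 13, 7, 6, 5, 4, 12, 1, 2, 9]) (rows := rows168)
    (by decide +kernel) (by decide +kernel) (by decide +kernel) (by decide +kernel)

/-- the multiplication table of presentation 169 -/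
def W169 : ℕ :=
  7924417967050355966629737952837014800985720988740246560528886265736521646737733631264851338709242404946394608347307468725882794620668115904631935948770613332668732146284698836884600548355081469177128137191735975158580385332983922724119938048170743152841671994511189868545

/-- a surface for presentation 169 -/
def rows169 : List (List (ℕ × ℕ × ℕ)) :=
  [[(6, 1, 7), (15, 2, 3), (18, 3, 2), (25, 4, 1), (14, 2, 6), (13, 5, 6), (22, 6, 7), (19, 7, 6)],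
   [(0, 7, 5), (5, 8, 7), (20, 9, 4), (9, 10, 4), (16, 11, 1), (23, 5, 8), (24, 2, 4), (7, 0, 0)],
   [(19, 12, 1), (22, 13, 0), (13, 3, 3), (14, 0, 1), (25, 1, 6), (18, 5, 7), (15, 0, 4), (6, 4, 0)],
   [(7, 14, 7), (22, 4, 2), (19, 0, 2), (12, 2, 2), (3, 13, 7), (2, 15, 6), (11, 7, 2), (26, 14, 2), (5, 16, 4), (0, 17, 5)],
   [(7, 2, 7), (24, 0, 3), (23, 3, 1), (16, 14, 6), (9, 18, 3), (20, 19, 5), (5, 17, 0), (0, 12, 2)],
   [(0, 8, 2), (5, 15, 3), (26, 11, 5), (11, 12, 5), (2, 16, 1), (3, 6, 0), (12, 0, 5), (19, 2, 5), (22, 1, 5), (7, 11, 0)],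
   [(2, 5, 5), (3, 16, 0), (28, 20, 3), (29, 21, 2), (10, 20, 7), (21, 19, 2), (24, 7, 7), (23, 0, 6)],
   [(8, 19, 1), (21, 14, 3), (10, 3, 6), (29, 15, 5), (28, 8, 0), (1, 1, 0), (18, 0, 7), (25, 6, 6)],
   [(29, 7, 4), (28, 15, 4), (1, 5, 0), (18, 11, 7), (15, 15, 1), (16, 22, 2), (9, 9, 5), (4, 1, 1)],
   [(13, 10, 2), (22, 21, 9), (7, 23, 3), (24, 10, 5), (21, 1, 2), (8, 8, 6), (27, 22, 1), (20, 13, 2), (9, 12, 7), (4, 11, 3)],
   [(2, 20, 1), (3, 21, 0), (12, 9, 0), (27, 11, 2), (8, 1, 3), (25, 9, 3), (14, 23, 2), (11, 21, 4)],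
   [(6, 5, 9), (17, 1, 4), (26, 10, 3), (5, 9, 9), (20, 12, 6), (27, 5, 2), (12, 15, 2), (19, 8, 3)],
   [(25, 13, 1), (18, 2, 0), (1, 4, 7), (28, 17, 7), (29, 16, 2), (10, 5, 3), (21, 11, 4), (8, 9, 8)],
   [(23, 2, 1), (24, 12, 0), (21, 9, 7), (10, 22, 0), (29, 23, 7), (28, 22, 4), (3, 15, 7), (2, 3, 4)],
   [(19, 17, 4), (12, 16, 5), (27, 3, 7), (20, 7, 1), (5, 19, 0), (26, 18, 4), (17, 4, 3), (6, 3, 0)],
   [(11, 22, 3), (14, 8, 4), (13, 11, 6), (4, 5, 1), (29, 8, 1), (28, 7, 3), (3, 3, 5), (2, 13, 6)],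
   [(2, 6, 1), (3, 5, 4), (28, 12, 4), (29, 17, 6), (4, 3, 8), (13, 14, 1), (14, 17, 3), (11, 20, 4)],
   [(4, 4, 6), (9, 19, 4), (16, 20, 5), (15, 16, 6), (18, 14, 0), (1, 3, 9), (28, 16, 3), (29, 12, 3)],
   [(11, 23, 5), (14, 21, 7), (25, 19, 6), (8, 4, 4), (27, 14, 5), (12, 19, 9), (3, 23, 9), (2, 22, 6)],
   [(4, 14, 4), (9, 7, 0), (20, 6, 5), (27, 20, 6), (8, 17, 1), (21, 4, 5), (24, 18, 2), (7, 21, 6), (22, 23, 0), (13, 18, 5)],
   [(2, 21, 1), (3, 10, 0), (28, 21, 3), (29, 6, 2), (10, 16, 7), (17, 17, 2), (26, 19, 3), (11, 6, 4)],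
   [(2, 10, 1), (3, 20, 0), (28, 6, 3), (29, 20, 2), (10, 10, 7), (17, 23, 1), (6, 19, 7), (15, 18, 1), (16, 23, 4), (23, 9, 1)],
   [(11, 13, 3), (26, 9, 6), (17, 8, 5), (10, 15, 0), (29, 13, 5), (28, 23, 6), (3, 18, 7), (2, 23, 8)],
   [(23, 19, 8), (16, 21, 5), (15, 10, 6), (6, 9, 2), (17, 21, 8), (10, 18, 0), (29, 22, 5), (28, 13, 4), (3, 22, 7), (2, 18, 6)]]

theorem sf169 : SurfFor W169 :=
  surfFor_of_table (T := T169) (lam := [0, 3, 1, 2, 8, 4, 7, 11, 9, 10, 12, 5, 14, 13, 6]) (rows := rows169)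
    (by decide +kernel) (by decide +kernel) (by decide +kernel) (by decide +kernel)

end Pool.Agent.TriSurf
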