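import Pool.Agent.TriSurf.SData
import Pool.Agent.TriSurf.PresT

/-!
# Surfaces
-/

set_option autoImplicit false
set_option maxRecDepth 100000

namespace Pool.Agent.TriSurf

/-- the multiplication table of presentation 72 -/
def W72 : ℕ :=
  128979510230436631428424153785687836034469014140038119439899201527334866313810528061094760522703049920088611026278596875181816762737566777393389939643185990373462684503550470673654115257973366082905847258890711860896711612107354636900553724940402069359770601630203905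

/-- a surface for presentation 72 -/
def rows72 : List (List (ℕ × ℕ × ℕ)) :=
  [[(0, 1, 1), (1, 2, 0), (18, 3, 7), (27, 4, 1), (6, 5, 6), (15, 6, 1), (26, 7, 4), (9, 8, 0)],
   [(0, 2, 1), (1, 0, 0), (18, 8, 7), (27, 9, 1), (6, 6, 6), (15, 10, 1), (26, 4, 4), (9, 11, 0)],
   [(0, 0, 1), (1, 1, 0), (18, 11, 7), (27, 7, 1), (6, 10, 6), (15, 5, 1), (26, 9, 4), (9, 3, 0)],
   [(8, 2, 7), (7, 9, 3), (24, 8, 5), (23, 10, 3), (22, 6, 4), (25, 11, 2), (14, 4, 2), (19, 0, 2)],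
   [(9, 5, 7), (26, 0, 3), (15, 3, 6), (6, 11, 1), (27, 1, 6), (18, 10, 0), (1, 7, 7), (0, 9, 6)],
   [(19, 9, 5), (14, 2, 5), (25, 10, 5), (22, 8, 3), (23, 11, 4), (24, 6, 2), (7, 0, 4), (8, 4, 0)],
   [(19, 7, 5), (14, 0, 5), (25, 5, 5), (22, 11, 3), (23, 3, 4), (24, 10, 2), (7, 1, 4), (8, 9, 0)],
   [(9, 10, 7), (26, 2, 3), (15, 11, 6), (6, 8, 1), (27, 0, 6), (18, 6, 0), (1, 9, 7), (0, 4, 6)],
   [(8, 0, 7), (7, 7, 3), (24, 11, 5), (23, 5, 3), (22, 10, 4), (25, 3, 2), (14, 9, 2), (19, 1, 2)],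
   [(9, 6, 7), (26, 1, 3), (15, 8, 6), (6, 3, 1), (27, 2, 6), (18, 5, 0), (1, 4, 7), (0, 7, 6)],
   [(19, 4, 5), (14, 1, 5), (25, 6, 5), (22, 3, 3), (23, 8, 4), (24, 5, 2), (7, 2, 4), (8, 7, 0)],
   [(8, 1, 7), (7, 4, 3), (24, 3, 5), (23, 6, 3), (22, 5, 4), (25, 8, 2), (14, 7, 2), (19, 2, 2)]]

theorem sf72 : SurfFor W72 :=
  surfFor_of_table (T := T72) (lam := [0, 5, 4, 12, 1, 6, 13, 9, 8, 14, 3, 2, 7, 11, 10]) (rows := rows72)
    (by decide +kernel) (by decide +kernel) (by decide +kernel) (by decide +kernel)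

/-- the multiplication table of presentation 73 -/
def W73 : ℕ :=
  8062242802835231433196897999279101484633526012386745555649848685269898771494161028823260804190450009042754381514080123084735718068127807895842386340317606224220012360884230793459992468487138035159441484711414756567648681918734857667780109016692733513951154404327425

/-- a surface for presentation 73 -/
def rows73 : List (List (ℕ × ℕ × ℕ)) :=
  [[(0, 1, 1), (1, 2, 0), (28, 3, 7), (17, 1, 6), (4, 4, 4), (5, 5, 5), (16, 2, 3), (13, 6, 6), (24, 7, 6), (21, 8, 8)],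
   [(0, 2, 1), (1, 0, 0), (28, 8, 7), (17, 2, 6), (4, 9, 4), (5, 4, 5), (16, 0, 3), (13, 3, 6), (24, 10, 6), (21, 6, 8)],
   [(0, 0, 1), (1, 1, 0), (28, 6, 7), (17, 0, 6), (4, 5, 4), (5, 9, 5), (16, 1, 3), (13, 8, 6), (24, 11, 6), (21, 3, 8)],
   [(0, 6, 1), (1, 8, 0), (18, 7, 4), (25, 4, 1), (6, 11, 0), (19, 10, 7), (12, 1, 7), (29, 0, 2), (20, 2, 9), (7, 11, 5)],
   [(21, 11, 1), (24, 3, 3), (13, 7, 3), (16, 5, 6), (5, 0, 4), (4, 1, 5), (17, 9, 3), (28, 10, 2), (1, 5, 9), (0, 9, 8)],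
   [(21, 10, 1), (24, 6, 3), (13, 11, 3), (16, 9, 6), (5, 2, 4), (4, 0, 5), (17, 4, 3), (28, 7, 2), (1, 9, 9), (0, 4, 8)],
   [(0, 8, 1), (1, 3, 0), (18, 11, 4), (25, 5, 1), (6, 10, 0), (19, 7, 7), (12, 0, 7), (29, 2, 2), (20, 1, 9), (7, 10, 5)],
   [(7, 8, 4), (20, 9, 0), (29, 5, 7), (12, 4, 2), (19, 3, 2), (6, 8, 9), (25, 0, 8), (18, 6, 5), (1, 10, 9), (0, 11, 8)],
   [(0, 3, 1), (1, 6, 0), (18, 10, 4), (25, 9, 1), (6, 7, 0), (19, 11, 7), (12, 2, 7), (29, 1, 2), (20, 0, 9), (7, 7, 5)],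
   [(21, 7, 1), (24, 8, 3), (13, 10, 3), (16, 4, 6), (5, 1, 4), (4, 2, 5), (17, 5, 3), (28, 11, 2), (1, 4, 9), (0, 5, 8)],
   [(7, 6, 4), (20, 5, 0), (29, 4, 7), (12, 9, 2), (19, 8, 2), (6, 6, 9), (25, 1, 8), (18, 3, 5), (1, 11, 9), (0, 7, 8)],
   [(7, 3, 4), (20, 4, 0), (29, 9, 7), (12, 5, 2), (19, 6, 2), (6, 3, 9), (25, 2, 8), (18, 8, 5), (1, 7, 9), (0, 10, 8)]]

theorem sf73 : SurfFor W73 :=
  surfFor_of_table (T := T73) (lam := [0, 3, 8, 1, 4, 12, 5, 14, 6, 10, 2, 7, 11, 9, 13]) (rows := rows73)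
    (by decide +kernel) (by decide +kernel) (by decide +kernel) (by decide +kernel)

/-- the multiplication table of presentation 74 -/
def W74 : ℕ :=
  128979387287341046498938355959970356265058886909878305335378007030386625920703820632461392770928085291568651054051516012419176808076139779940862935149665211610867142901229041551634028601753725801332930629956217415851876790340389342705084750663963293377317250566979585

/-- a surface for presentation 74 -/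
def rows74 : List (List (ℕ × ℕ × ℕ)) :=
  [[(0, 1, 6), (3, 2, 0), (26, 3, 7), (7, 4, 3), (14, 5, 1), (13, 6, 2), (8, 7, 4), (27, 3, 2), (24, 6, 9), (23, 8, 8)],
   [(17, 9, 1), (22, 10, 0), (29, 8, 2), (6, 11, 3), (9, 11, 6), (18, 2, 1), (1, 0, 0), (28, 8, 7), (15, 10, 5), (4, 12, 6)],
   [(2, 0, 1), (19, 1, 5), (12, 11, 5), (5, 8, 0), (8, 6, 7), (13, 13, 3), (18, 14, 4), (9, 15, 4), (16, 16, 9), (25, 3, 8)],
   [(0, 7, 6), (3, 6, 0), (26, 0, 7), (7, 7, 3), (14, 16, 1), (13, 15, 2), (8, 4, 4), (27, 0, 2), (24, 2, 9), (23, 16, 8)],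
   [(17, 12, 1), (22, 17, 0), (29, 5, 2), (6, 0, 3), (9, 3, 6), (18, 15, 1), (1, 11, 0), (28, 5, 7), (15, 18, 5), (4, 19, 6)],
   [(4, 6, 3), (15, 0, 4), (28, 4, 2), (1, 17, 9), (18, 12, 8), (9, 10, 3), (6, 18, 6), (29, 4, 7), (22, 11, 9), (17, 15, 8)],
   [(2, 3, 1), (19, 7, 5), (12, 0, 5), (5, 5, 0), (8, 15, 7), (13, 20, 3), (18, 13, 4), (9, 2, 4), (16, 8, 9), (25, 0, 8)],
   [(17, 19, 1), (22, 18, 0), (29, 16, 2), (6, 3, 3), (9, 0, 6), (18, 6, 1), (1, 3, 0), (28, 16, 7), (15, 17, 5), (4, 9, 6)],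
   [(4, 2, 3), (15, 11, 4), (28, 1, 2), (1, 10, 9), (18, 19, 8), (9, 18, 3), (6, 10, 6), (29, 1, 7), (22, 0, 9), (17, 6, 8)],
   [(25, 10, 1), (16, 1, 0), (9, 12, 5), (18, 21, 3), (13, 22, 4), (8, 19, 2), (5, 7, 9), (12, 17, 4), (19, 16, 4), (2, 18, 8)],
   [(23, 1, 1), (24, 9, 0), (27, 18, 7), (8, 5, 5), (13, 12, 7), (14, 1, 8), (7, 8, 6), (26, 18, 2), (3, 19, 9), (0, 8, 3)],
   [(0, 4, 6), (3, 15, 0), (26, 11, 7), (7, 1, 3), (14, 8, 1), (13, 2, 2), (8, 1, 4), (27, 11, 2), (24, 15, 9), (23, 5, 8)],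
   [(25, 17, 1), (16, 4, 0), (9, 19, 5), (18, 23, 3), (13, 21, 4), (8, 9, 2), (5, 1, 9), (12, 10, 4), (19, 5, 4), (2, 17, 8)],
   [(23, 14, 1), (22, 20, 0), (29, 14, 5), (12, 2, 5), (19, 6, 6), (28, 20, 2), (1, 14, 7), (0, 20, 6)],
   [(23, 20, 1), (22, 13, 0), (29, 20, 5), (12, 15, 5), (19, 2, 6), (28, 13, 2), (1, 20, 7), (0, 13, 6)],
   [(2, 11, 1), (19, 4, 5), (12, 3, 5), (5, 16, 0), (8, 2, 7), (13, 14, 3), (18, 20, 4), (9, 6, 4), (16, 5, 9), (25, 11, 8)],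
   [(4, 15, 3), (15, 3, 4), (28, 7, 2), (1, 18, 9), (18, 9, 8), (9, 17, 3), (6, 17, 6), (29, 7, 7), (22, 3, 9), (17, 2, 8)],
   [(23, 4, 1), (24, 12, 0), (27, 17, 7), (8, 16, 5), (13, 9, 7), (14, 7, 8), (7, 16, 6), (26, 17, 2), (3, 12, 9), (0, 5, 3)],
   [(23, 7, 1), (24, 19, 0), (27, 10, 7), (8, 8, 5), (13, 19, 7), (14, 4, 8), (7, 5, 6), (26, 10, 2), (3, 9, 9), (0, 16, 3)],
   [(25, 18, 1), (16, 7, 0), (9, 9, 5), (18, 22, 3), (13, 23, 4), (8, 12, 2), (5, 4, 9), (12, 18, 4), (19, 8, 4), (2, 10, 8)],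
   [(23, 13, 1), (22, 14, 0), (29, 13, 5), (12, 6, 5), (19, 15, 6), (28, 14, 2), (1, 13, 7), (0, 14, 6)],
   [(0, 22, 1), (1, 23, 0), (28, 22, 5), (19, 9, 3), (12, 12, 4), (29, 23, 2), (22, 22, 7), (23, 23, 6)],
   [(0, 23, 1), (1, 21, 0), (28, 23, 5), (19, 19, 3), (12, 9, 4), (29, 21, 2), (22, 23, 7), (23, 21, 6)],
   [(0, 21, 1), (1, 22, 0), (28, 21, 5), (19, 12, 3), (12, 19, 4), (29, 22, 2), (22, 21, 7), (23, 22, 6)]]

theorem sf74 : SurfFor W74 :=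
  surfFor_of_table (T := T74) (lam := [0, 1, 13, 4, 11, 8, 14, 6, 7, 3, 9, 2, 5, 12, 10]) (rows := rows74)
    (by decide +kernel) (by decide +kernel) (by decide +kernel) (by decide +kernel)

/-- the multiplication table of presentation 75 -/
def W75 : ℕ :=
  132073632791814219293218069414325870041794869565386337224599709823744634028389256359891694876206932034263288792909710444690734022295659397843520597044579631969773221788924880852618682029162892602853104340908828053251205151180846276898490354242546742802843925911353425930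

/-- a surface for presentation 75 -/
def rows75 : List (List (ℕ × ℕ × ℕ)) :=
  [[(0, 1, 8), (11, 2, 3), (26, 3, 7), (21, 4, 4), (2, 5, 5), (7, 2, 5), (12, 1, 6), (27, 6, 4), (22, 7, 0), (19, 8, 3)],
   [(11, 9, 3), (20, 10, 6), (23, 11, 1), (8, 12, 4), (15, 7, 5), (10, 6, 5), (13, 0, 6), (28, 2, 4), (1, 0, 0), (0, 8, 2)],
   [(7, 11, 3), (28, 10, 4), (13, 3, 8), (10, 0, 1), (29, 1, 7), (6, 0, 5), (17, 5, 4), (16, 13, 7), (3, 14, 9), (2, 15, 6)],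
   [(2, 16, 1), (3, 4, 0), (16, 17, 3), (25, 17, 8), (4, 13, 1), (5, 18, 0), (22, 4, 5), (27, 0, 2), (12, 2, 2), (7, 10, 3)],
   [(2, 3, 1), (3, 16, 0), (16, 19, 3), (25, 5, 6), (20, 0, 3), (23, 3, 6), (12, 18, 7), (7, 17, 4)],
   [(0, 12, 6), (1, 11, 7), (18, 20, 7), (17, 13, 8), (16, 2, 6), (3, 0, 4), (24, 4, 3), (19, 19, 2)],
   [(8, 18, 3), (9, 20, 4), (14, 21, 5), (21, 7, 1), (26, 0, 7), (11, 1, 5), (20, 7, 4), (23, 22, 1)],
   [(23, 0, 8), (20, 6, 3), (11, 21, 4), (26, 22, 2), (21, 6, 6), (14, 1, 4), (9, 12, 3), (8, 8, 4)],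
   [(13, 15, 1), (28, 9, 4), (1, 1, 9), (18, 0, 9), (9, 7, 7), (14, 12, 2), (5, 10, 9), (4, 14, 4)],
   [(19, 9, 7), (24, 14, 6), (15, 10, 7), (10, 1, 0), (29, 8, 1), (6, 15, 0), (17, 14, 7), (18, 9, 0), (1, 17, 0), (0, 17, 1)],
   [(25, 12, 1), (16, 23, 4), (17, 16, 2), (6, 3, 9), (29, 2, 1), (26, 11, 2), (21, 1, 1), (14, 9, 2), (5, 14, 5), (4, 8, 6)],
   [(19, 12, 5), (22, 1, 2), (27, 10, 5), (6, 2, 0), (17, 15, 5), (18, 23, 0), (1, 20, 0), (0, 5, 1)],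
   [(19, 23, 5), (24, 10, 0), (15, 8, 5), (8, 7, 6), (9, 1, 3), (18, 11, 0), (1, 5, 0), (0, 19, 1)],
   [(4, 18, 1), (5, 3, 4), (14, 17, 7), (21, 21, 8), (26, 19, 5), (29, 16, 8), (6, 14, 0), (17, 2, 7), (16, 5, 3), (25, 20, 6)],
   [(7, 13, 6), (12, 16, 7), (27, 22, 7), (22, 15, 2), (5, 8, 7), (4, 10, 8), (25, 9, 1), (16, 9, 6), (3, 15, 7), (2, 2, 8)],
   [(7, 9, 5), (12, 8, 0), (23, 14, 3), (20, 22, 6), (25, 23, 1), (16, 11, 4), (3, 2, 9), (2, 14, 8)],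
   [(2, 4, 1), (3, 3, 0), (16, 10, 2), (17, 23, 3), (6, 22, 4), (29, 21, 2), (10, 22, 8), (13, 14, 1), (28, 13, 5), (7, 19, 4)],
   [(0, 9, 8), (1, 9, 9), (18, 17, 9), (17, 3, 2), (6, 4, 7), (29, 18, 6), (10, 21, 9), (15, 13, 2), (24, 3, 3), (19, 17, 2)],
   [(4, 3, 5), (5, 13, 0), (14, 20, 5), (9, 6, 0), (18, 22, 0), (1, 21, 0), (28, 17, 5), (13, 4, 6)],
   [(0, 23, 6), (1, 12, 7), (18, 5, 7), (17, 4, 2), (6, 16, 9), (27, 13, 4), (22, 21, 7), (19, 20, 2)],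
   [(0, 11, 6), (1, 23, 7), (18, 19, 7), (9, 21, 6), (8, 6, 1), (15, 18, 2), (24, 13, 9), (19, 5, 2)],
   [(0, 18, 5), (1, 22, 9), (28, 16, 5), (13, 22, 3), (10, 7, 2), (15, 6, 2), (8, 20, 3), (23, 19, 6), (20, 13, 3), (11, 17, 6)],
   [(19, 18, 4), (22, 6, 7), (27, 7, 3), (12, 21, 3), (7, 16, 4), (2, 23, 2), (21, 15, 3), (26, 14, 2), (11, 16, 6), (0, 21, 1)],
   [(19, 11, 5), (24, 15, 4), (3, 22, 5), (16, 16, 3), (17, 10, 1), (18, 12, 0), (1, 19, 0), (0, 20, 1)]]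

theorem sf75 : SurfFor W75 :=
  surfFor_of_table (T := T75) (lam := [0, 5, 7, 3, 14, 1, 6, 12, 11, 2, 4, 13, 8, 10, 9]) (rows := rows75)
    (by decide +kernel) (by decide +kernel) (by decide +kernel) (by decide +kernel)

/-- the multiplication table of presentation 76 -/
def W76 : ℕ :=
  6190951548758104432723657161292239871558302712085390987211106610754459329047314173519509214274843802871142508756890226367204503817337959797940262446968351867647385051989775512774321740256068302603675789758530114983609240905519574988901044259640665382823009496055414785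

/-- a surface for presentation 76 -/
def rows76 : List (List (ℕ × ℕ × ℕ)) :=
  [[(0, 1, 1), (1, 2, 0), (28, 3, 0), (17, 4, 6), (10, 5, 2), (27, 1, 8), (6, 6, 4), (19, 7, 2), (22, 8, 9), (11, 9, 6)],
   [(0, 2, 1), (1, 0, 0), (28, 9, 5), (17, 10, 2), (4, 11, 6), (15, 12, 6), (14, 13, 5), (13, 6, 5), (26, 0, 5), (23, 5, 1)],
   [(0, 0, 1), (1, 1, 0), (18, 5, 0), (21, 3, 5), (14, 14, 5), (15, 15, 4), (22, 16, 4), (11, 3, 1)],
   [(29, 0, 2), (10, 2, 7), (27, 16, 3), (26, 17, 2), (23, 14, 6), (20, 2, 3), (7, 5, 7), (8, 4, 7)],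
   [(2, 5, 6), (5, 18, 5), (12, 19, 2), (7, 20, 3), (20, 21, 6), (25, 5, 3), (16, 0, 3), (9, 3, 7)],
   [(19, 2, 2), (22, 1, 9), (11, 0, 4), (24, 4, 5), (9, 21, 5), (16, 18, 6), (3, 4, 0), (6, 3, 6)],
   [(9, 22, 0), (16, 20, 6), (25, 23, 4), (20, 7, 3), (7, 0, 6), (12, 1, 7), (5, 13, 4), (2, 23, 1)],
   [(0, 9, 1), (1, 8, 0), (18, 0, 7), (21, 6, 3), (8, 23, 3), (29, 13, 2), (10, 24, 9), (27, 9, 8), (26, 8, 7), (23, 25, 8)],
   [(0, 7, 1), (1, 9, 0), (18, 24, 7), (21, 26, 3), (8, 27, 3), (29, 12, 2), (10, 25, 9), (27, 7, 8), (26, 9, 7), (23, 0, 8)],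
   [(0, 8, 1), (1, 7, 0), (18, 25, 7), (21, 11, 3), (8, 10, 3), (29, 1, 2), (10, 0, 9), (27, 8, 8), (26, 7, 7), (23, 24, 8)],
   [(6, 28, 1), (3, 11, 7), (16, 1, 3), (9, 9, 4), (24, 11, 2), (11, 29, 5), (22, 30, 0), (19, 31, 5)],
   [(9, 28, 0), (16, 29, 6), (25, 10, 4), (20, 9, 3), (7, 25, 6), (12, 12, 7), (5, 1, 4), (2, 10, 1)],
   [(0, 14, 1), (1, 25, 0), (28, 8, 5), (17, 27, 2), (4, 26, 6), (15, 13, 6), (14, 1, 5), (13, 11, 5), (26, 25, 5), (23, 32, 1)],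
   [(0, 15, 1), (1, 24, 0), (28, 7, 5), (17, 23, 2), (4, 6, 6), (15, 1, 6), (14, 12, 5), (13, 26, 5), (26, 24, 5), (23, 33, 1)],
   [(0, 25, 1), (1, 12, 0), (18, 32, 0), (21, 17, 5), (14, 15, 5), (15, 2, 4), (22, 3, 4), (11, 17, 1)],
   [(0, 24, 1), (1, 13, 0), (18, 33, 0), (21, 16, 5), (14, 2, 5), (15, 14, 4), (22, 17, 4), (11, 16, 1)],
   [(29, 24, 2), (10, 15, 7), (27, 17, 3), (26, 3, 2), (23, 2, 6), (20, 15, 3), (7, 33, 7), (8, 34, 7)],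
   [(29, 25, 2), (10, 14, 7), (27, 3, 3), (26, 16, 2), (23, 15, 6), (20, 14, 3), (7, 32, 7), (8, 35, 7)],
   [(23, 27, 6), (26, 36, 4), (13, 34, 2), (14, 30, 4), (15, 19, 3), (4, 4, 1), (17, 5, 5), (28, 21, 4), (1, 36, 9), (0, 37, 6)],
   [(23, 23, 6), (26, 20, 4), (13, 4, 2), (14, 18, 4), (15, 30, 3), (4, 35, 1), (17, 32, 5), (28, 38, 4), (1, 20, 9), (0, 39, 6)],
   [(11, 38, 3), (22, 40, 0), (19, 21, 7), (6, 4, 3), (27, 19, 1), (10, 23, 5), (17, 6, 1), (28, 22, 7), (1, 39, 7), (0, 19, 8)],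
   [(23, 29, 1), (26, 40, 2), (27, 38, 1), (10, 36, 0), (29, 18, 7), (8, 5, 4), (21, 4, 4), (18, 20, 2), (1, 40, 9), (0, 38, 8)],
   [(8, 6, 0), (7, 23, 0), (20, 39, 4), (23, 31, 1), (26, 28, 5), (27, 41, 4), (10, 39, 0), (29, 20, 7)],
   [(6, 22, 1), (3, 6, 7), (16, 13, 3), (9, 7, 4), (24, 6, 2), (11, 20, 5), (22, 19, 0), (19, 39, 5)],
   [(0, 13, 1), (1, 15, 0), (28, 16, 0), (17, 34, 6), (10, 33, 2), (27, 13, 8), (6, 26, 4), (19, 8, 2), (22, 9, 9), (11, 7, 6)],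
   [(0, 12, 1), (1, 14, 0), (28, 17, 0), (17, 35, 6), (10, 32, 2), (27, 12, 8), (6, 11, 4), (19, 9, 2), (22, 7, 9), (11, 8, 6)],
   [(9, 41, 0), (16, 36, 6), (25, 27, 4), (20, 8, 3), (7, 24, 6), (12, 13, 7), (5, 12, 4), (2, 27, 1)],
   [(6, 41, 1), (3, 26, 7), (16, 12, 3), (9, 8, 4), (24, 26, 2), (11, 36, 5), (22, 18, 0), (19, 37, 5)],
   [(8, 11, 0), (7, 10, 0), (20, 31, 4), (23, 37, 1), (26, 41, 5), (27, 22, 4), (10, 31, 0), (29, 29, 7)],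
   [(11, 40, 3), (22, 21, 0), (19, 38, 7), (6, 35, 3), (27, 30, 1), (10, 10, 5), (17, 11, 1), (28, 28, 7), (1, 31, 7), (0, 30, 8)],
   [(23, 10, 6), (26, 29, 4), (13, 35, 2), (14, 19, 4), (15, 18, 3), (4, 34, 1), (17, 33, 5), (28, 40, 4), (1, 29, 9), (0, 31, 6)],
   [(11, 28, 6), (22, 22, 3), (15, 39, 3), (14, 37, 2), (21, 28, 2), (18, 10, 7), (1, 30, 9), (0, 29, 8)],
   [(19, 14, 2), (22, 12, 9), (11, 25, 4), (24, 35, 5), (9, 38, 5), (16, 19, 6), (3, 35, 0), (6, 17, 6)],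
   [(19, 15, 2), (22, 13, 9), (11, 24, 4), (24, 34, 5), (9, 40, 5), (16, 30, 6), (3, 34, 0), (6, 16, 6)],
   [(2, 33, 6), (5, 30, 5), (12, 18, 2), (7, 36, 3), (20, 40, 6), (25, 33, 3), (16, 24, 3), (9, 16, 7)],
   [(2, 32, 6), (5, 19, 5), (12, 30, 2), (7, 29, 3), (20, 38, 6), (25, 32, 3), (16, 25, 3), (9, 17, 7)],
   [(11, 21, 3), (22, 38, 0), (19, 40, 7), (6, 34, 3), (27, 18, 1), (10, 27, 5), (17, 26, 1), (28, 41, 7), (1, 37, 7), (0, 18, 8)],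
   [(11, 41, 6), (22, 28, 3), (15, 31, 3), (14, 39, 2), (21, 41, 2), (18, 27, 7), (1, 18, 9), (0, 36, 8)],
   [(23, 36, 1), (26, 21, 2), (27, 40, 1), (10, 20, 0), (29, 19, 7), (8, 32, 4), (21, 35, 4), (18, 29, 2), (1, 21, 9), (0, 40, 8)],
   [(11, 22, 6), (22, 41, 3), (15, 37, 3), (14, 31, 2), (21, 22, 2), (18, 23, 7), (1, 19, 9), (0, 20, 8)],
   [(23, 20, 1), (26, 38, 2), (27, 21, 1), (10, 29, 0), (29, 30, 7), (8, 33, 4), (21, 34, 4), (18, 36, 2), (1, 38, 9), (0, 21, 8)],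
   [(8, 26, 0), (7, 27, 0), (20, 37, 4), (23, 39, 1), (26, 22, 5), (27, 28, 4), (10, 37, 0), (29, 36, 7)]]

theorem sf76 : SurfFor W76 :=
  surfFor_of_table (T := T76) (lam := [0, 11, 3, 13, 5, 2, 4, 7, 6, 10, 14, 1, 8, 9, 12]) (rows := rows76)
    (by decide +kernel) (by decide +kernel) (by decide +kernel) (by decide +kernel)

/-- the multiplication table of presentation 77 -/
def W77 : ℕ :=
  6551645371729146325090392685302161069120801697325225533969686317682106789111881516011713735836637143152830715057027499740627437621970069481646776563723537146925982765918812433523276002756931263197661598009971826201736767842020588209072452445871767984629630143299585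

/-- a surface for presentation 77 -/
def rows77 : List (List (ℕ × ℕ × ℕ)) :=
  [[(0, 1, 1), (1, 2, 0), (28, 3, 4), (25, 4, 1), (10, 5, 1), (19, 6, 4), (24, 4, 4), (15, 7, 5)],
   [(0, 2, 1), (1, 0, 0), (28, 7, 4), (25, 8, 1), (10, 6, 1), (19, 9, 4), (24, 8, 4), (15, 10, 5)],
   [(0, 0, 1), (1, 1, 0), (28, 10, 4), (25, 11, 1), (10, 9, 1), (19, 5, 4), (24, 11, 4), (15, 3, 5)],
   [(17, 6, 6), (16, 5, 7), (3, 7, 7), (18, 4, 2), (29, 0, 2), (14, 2, 7), (11, 11, 3), (2, 10, 2)],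
   [(15, 5, 2), (24, 0, 3), (19, 3, 3), (10, 7, 6), (25, 0, 6), (28, 6, 3), (1, 8, 7), (0, 11, 6)],
   [(2, 6, 5), (11, 0, 4), (14, 4, 0), (29, 11, 5), (18, 2, 5), (3, 9, 0), (16, 7, 0), (17, 3, 1)],
   [(2, 9, 5), (11, 1, 4), (14, 8, 0), (29, 4, 5), (18, 0, 5), (3, 5, 0), (16, 3, 0), (17, 10, 1)],
   [(17, 5, 6), (16, 9, 7), (3, 10, 7), (18, 8, 2), (29, 1, 2), (14, 0, 7), (11, 4, 3), (2, 3, 2)],
   [(15, 6, 2), (24, 1, 3), (19, 7, 3), (10, 10, 6), (25, 1, 6), (28, 9, 3), (1, 11, 7), (0, 4, 6)],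
   [(2, 5, 5), (11, 2, 4), (14, 11, 0), (29, 8, 5), (18, 1, 5), (3, 6, 0), (16, 10, 0), (17, 7, 1)],
   [(17, 9, 6), (16, 6, 7), (3, 3, 7), (18, 11, 2), (29, 2, 2), (14, 1, 7), (11, 8, 3), (2, 7, 2)],
   [(15, 9, 2), (24, 2, 3), (19, 10, 3), (10, 3, 6), (25, 2, 6), (28, 5, 3), (1, 4, 7), (0, 8, 6)]]

theorem sf77 : SurfFor W77 :=
  surfFor_of_table (T := T77) (lam := [0, 11, 8, 13, 1, 4, 7, 2, 5, 12, 3, 10, 6, 9, 14]) (rows := rows77)
    (by decide +kernel) (by decide +kernel) (by decide +kernel) (by decide +kernel)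

/-- the multiplication table of presentation 78 -/
def W78 : ℕ :=
  66036816399976183774365755500729624102244713731012728074982203289082768362379251508100810161535973770074012952238770302079878385419436508843829723910715332565447371640805692663193828261415294652876489408993604529263721551112946623336147282208547324712821541501889675265

/-- a surface for presentation 78 -/
def rows78 : List (List (ℕ × ℕ × ℕ)) :=
  [[(0, 1, 1), (1, 2, 0), (28, 3, 4), (21, 4, 4), (10, 5, 0), (29, 3, 7), (6, 6, 2), (25, 7, 2), (22, 8, 4), (11, 9, 5)],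
   [(0, 2, 1), (1, 0, 0), (28, 9, 4), (21, 10, 4), (10, 3, 0), (29, 9, 7), (6, 8, 2), (25, 11, 2), (22, 12, 4), (11, 5, 5)],
   [(0, 0, 1), (1, 1, 0), (28, 5, 4), (21, 13, 4), (10, 9, 0), (29, 5, 7), (6, 12, 2), (25, 14, 2), (22, 6, 4), (11, 3, 5)],
   [(11, 1, 4), (22, 10, 3), (25, 15, 5), (6, 4, 5), (29, 0, 2), (10, 2, 9), (21, 6, 3), (28, 0, 5), (1, 5, 9), (0, 9, 8)],
   [(2, 13, 1), (3, 10, 0), (12, 16, 6), (23, 5, 1), (20, 0, 3), (7, 3, 3), (26, 15, 4), (9, 17, 7)],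
   [(11, 0, 4), (22, 4, 3), (25, 16, 5), (6, 13, 5), (29, 2, 2), (10, 1, 9), (21, 12, 3), (28, 2, 5), (1, 9, 9), (0, 3, 8)],
   [(9, 11, 0), (26, 7, 3), (7, 0, 6), (20, 3, 6), (23, 2, 8), (12, 14, 1), (3, 8, 7), (2, 12, 6)],
   [(8, 12, 0), (13, 8, 5), (24, 0, 7), (27, 6, 1), (16, 11, 7), (19, 16, 1), (18, 17, 2), (17, 14, 4)],
   [(9, 14, 0), (26, 11, 3), (7, 1, 6), (20, 9, 6), (23, 0, 8), (12, 7, 1), (3, 12, 7), (2, 6, 6)],
   [(11, 2, 4), (22, 13, 3), (25, 17, 5), (6, 10, 5), (29, 1, 2), (10, 0, 9), (21, 8, 3), (28, 1, 5), (1, 3, 9), (0, 5, 8)],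
   [(2, 4, 1), (3, 13, 0), (12, 15, 6), (23, 3, 1), (20, 1, 3), (7, 9, 3), (26, 17, 4), (9, 16, 7)],
   [(8, 6, 0), (13, 12, 5), (24, 1, 7), (27, 8, 1), (16, 14, 7), (19, 15, 1), (18, 16, 2), (17, 7, 4)],
   [(9, 7, 0), (26, 14, 3), (7, 2, 6), (20, 5, 6), (23, 1, 8), (12, 11, 1), (3, 6, 7), (2, 8, 6)],
   [(2, 10, 1), (3, 4, 0), (12, 17, 6), (23, 9, 1), (20, 2, 3), (7, 5, 3), (26, 16, 4), (9, 15, 7)],
   [(8, 8, 0), (13, 6, 5), (24, 2, 7), (27, 12, 1), (16, 7, 7), (19, 17, 1), (18, 15, 2), (17, 11, 4)],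
   [(17, 16, 3), (18, 11, 5), (19, 14, 6), (16, 17, 0), (27, 4, 6), (24, 3, 2), (13, 10, 2), (8, 13, 7)],
   [(17, 17, 3), (18, 7, 5), (19, 11, 6), (16, 15, 0), (27, 13, 6), (24, 5, 2), (13, 4, 2), (8, 10, 7)],
   [(17, 15, 3), (18, 14, 5), (19, 7, 6), (16, 16, 0), (27, 10, 6), (24, 9, 2), (13, 13, 2), (8, 4, 7)]]

theorem sf78 : SurfFor W78 :=
  surfFor_of_table (T := T78) (lam := [0, 3, 8, 1, 4, 2, 12, 7, 14, 11, 6, 13, 10, 5, 9]) (rows := rows78)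
    (by decide +kernel) (by decide +kernel) (by decide +kernel) (by decide +kernel)

end Pool.Agent.TriSurf
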