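import Pool.Agent.TriSurf.Full

/-!
# Words, triangle presentations, surfaces and the certificate checker

Letters are coded by natural numbers: `2 * x` is the generator `x` and `2 * x + 1` its inverse.
-/

set_option autoImplicit false

namespace Pool.Agent.TriSurf

/-- inverse letter -/
def cinv (c : ℕ) : ℕ := if c % 2 = 0 then c + 1 else c - 1

theorem cinv_cinv (c : ℕ) : cinv (cinv c) = c := by
  unfold cinv; split_ifs <;> omega

theorem cinv_div (c : ℕ) : cinv c / 2 = c / 2 := by
  unfold cinv; split_ifs <;> omega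

theorem cinv_mod0 {c : ℕ} (h : c % 2 = 0) : cinv c % 2 = 1 := by
  unfold cinv; rw [if_pos h]; omega

theorem cinv_mod1 {c : ℕ} (h : c % 2 = 1) : cinv c % 2 = 0 := by
  unfold cinv; rw [if_neg (by omega)]; omega

/-- inverse word -/
def winv (w : List ℕ) : List ℕ := (w.map cinv).reverse

section Eval

variable {K : Type} [Group K] (base : ℕ → K)

/-- value of a letter -/
def evl (c : ℕ) : K := if c % 2 = 0 then base (c / 2) else (base (c / 2))⁻¹

/-- value of a word -/
def ev (w : List ℕ) : K := (w.map (evl base)).prod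

@[simp] theorem ev_nil : ev base [] = 1 := rfl

@[simp] theorem ev_cons (c : ℕ) (w : List ℕ) : ev base (c :: w) = evl base c * ev base w := by
  simp [ev]

@[simp] theorem ev_append (u w : List ℕ) : ev base (u ++ w) = ev base u * ev base w := by
  simp [ev]

theorem evl_cinv (c : ℕ) : evl base (cinv c) = (evl base c)⁻¹ := by
  rcases Nat.mod_two_eq_zero_or_one c with h | h
  · rw [evl, evl, cinv_div, if_neg (by rw [cinv_mod0 h]; decide), if_pos h]
  · rw [evl, evl, cinv_div, if_pos (cinv_mod1 h), if_neg (by omega), inv_inv]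

theorem ev_winv (w : List ℕ) : ev base (winv w) = (ev base w)⁻¹ := by
  induction w with
  | nil => simp [winv]
  | cons c w ih =>
    have : winv (c :: w) = winv w ++ [cinv c] := by simp [winv]
    rw [this, ev_append, ih, ev_cons, ev_cons, ev_nil, evl_cinv, mul_one, mul_inv_rev]

/-- push a letter on a reduced word -/
def push (c : ℕ) (st : List ℕ) : List ℕ :=
  match st with
  | [] => [c]
  | d :: t => if Nat.beq d (cinv c) then t else c :: d :: t

/-- free reduction -/
def red (w : List ℕ) : List ℕ := w.foldr push []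

theorem ev_push (c : ℕ) (st : List ℕ) : ev base (push c st) = evl base c * ev base st := by
  match st with
  | [] => simp [push]
  | d :: t =>
    unfold push
    dsimp only
    split_ifs with h
    · have h' : d = cinv c := Nat.eq_of_beq_eq_true h
      rw [ev_cons, h', evl_cinv, mul_inv_cancel_left]
    · rw [ev_cons]

theorem ev_red (w : List ℕ) : ev base (red w) = ev base w := by
  induction w with
  | nil => rfl
  | cons c w ih =>
    show ev base (push c (red w)) = _
    rw [ev_push, ih, ev_cons]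

end Eval

/-- boolean equality of words -/
def weq : List ℕ → List ℕ → Bool
  | [], [] => true
  | a :: s, b :: t => Nat.beq a b && weq s t
  | _, _ => false

theorem weq_eq {s t : List ℕ} (h : weq s t = true) : s = t := by
  induction s generalizing t with
  | nil => cases t with
    | nil => rfl
    | cons b t => simp [weq] at h
  | cons a s ih => cases t with
    | nil => simp [weq] at h
    | cons b t =>
      simp only [weq, Bool.and_eq_true] at h
      rw [Nat.eq_of_beq_eq_true h.1, ih h.2]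

/-! ### Triangle presentations -/

/-- all rotations of the triples -/
def rot (T : List (ℕ × ℕ × ℕ)) : List (ℕ × ℕ × ℕ) :=
  T ++ (T.map fun t => (t.2.1, t.2.2, t.1)) ++ (T.map fun t => (t.2.2, t.1, t.2.1))

theorem rot_rot {T : List (ℕ × ℕ × ℕ)} {x y z : ℕ} (h : (x, y, z) ∈ rot T) :
    (y, z, x) ∈ rot T := by
  simp only [rot, List.mem_append, List.mem_map, Prod.mk.injEq] at h ⊢
  rcases h with (h | ⟨t, ht, h1, h2, h3⟩) | ⟨t, ht, h1, h2, h3⟩
  · exact Or.inl (Or.inr ⟨_, h, rfl, rfl, rfl⟩)
  · exact Or.inr ⟨t, ht, h2, h3, h1⟩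
  · refine Or.inl (Or.inl ?_)
    have : t = (y, z, x) := Prod.ext h2 (Prod.ext h3 h1)
    rw [← this]; exact ht

/-- the third entry is determined by the first two -/
def chkFun (l : List (ℕ × ℕ × ℕ)) : Bool :=
  l.all fun t => l.all fun u => !(Nat.beq t.1 u.1 && Nat.beq t.2.1 u.2.1) || Nat.beq t.2.2 u.2.2

/-- no cycles of length four in the link -/
def chkFour (l : List (ℕ × ℕ × ℕ)) : Bool :=
  l.all fun t => l.all fun t' => !(Nat.beq t.1 t'.1 && !Nat.beq t.2.1 t'.2.1) ||
    l.all fun u => !(Nat.beq u.2.1 t.2.1 && !Nat.beq u.1 t.1) ||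
      l.all fun u' => !(Nat.beq u'.1 u.1 && Nat.beq u'.2.1 t'.2.1)

theorem chkFun_spec {l : List (ℕ × ℕ × ℕ)} (h : chkFun l = true) {x y z z' : ℕ}
    (h1 : (x, y, z) ∈ l) (h2 : (x, y, z') ∈ l) : z = z' := by
  simp only [chkFun, List.all_eq_true] at h
  have := h _ h1 _ h2
  simp only [Nat.beq_refl, Bool.and_self, Bool.not_true, Bool.false_or] at this
  exact Nat.eq_of_beq_eq_true this

theorem chkFour_spec {l : List (ℕ × ℕ × ℕ)} (h : chkFour l = true) {x x' y y' p q r s : ℕ}
    (h1 : (x, y, p) ∈ l) (h2 : (x, y', q) ∈ l) (h3 : (x', y, r) ∈ l) (h4 : (x', y', s) ∈ l) :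
    x = x' ∨ y = y' := by
  by_contra hne
  rw [not_or] at hne
  simp only [chkFour, List.all_eq_true] at h
  have k1 := h _ h1 _ h2
  have e1 : Nat.beq y y' = false := by
    cases hb : Nat.beq y y' with
    | true => exact absurd (Nat.eq_of_beq_eq_true hb) hne.2
    | false => rfl
  have e2 : Nat.beq x' x = false := by
    cases hb : Nat.beq x' x with
    | true => exact absurd (Nat.eq_of_beq_eq_true hb).symm hne.1
    | false => rfl
  simp only [Nat.beq_refl, e1, Bool.not_false, Bool.and_self, Bool.not_true, Bool.false_or,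
    List.all_eq_true] at k1
  have k2 := k1 _ h3
  simp only [Nat.beq_refl, e2, Bool.not_false, Bool.and_self, Bool.not_true, Bool.false_or,
    List.all_eq_true] at k2
  have k3 := k2 _ h4
  simp at k3

/-- the local relation of a triangle presentation -/
def MM (l : List (ℕ × ℕ × ℕ)) (a b c : ℕ) : Prop :=
  (a % 2 = 1 ∧ b % 2 = 0 ∧ c % 2 = 1 ∧ (a / 2, b / 2, c / 2) ∈ l) ∨
  (a % 2 = 0 ∧ b % 2 = 1 ∧ c % 2 = 0 ∧ (b / 2, a / 2, c / 2) ∈ l)

theorem half_ext {a b : ℕ} (h : a % 2 = b % 2) (h' : a / 2 = b / 2) : a = b := by omega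

/-- the local structure of a triangle presentation -/
def loc (T : List (ℕ × ℕ × ℕ)) (h1 : chkFun (rot T) = true) (h2 : chkFour (rot T) = true) : Loc where
  L := ℕ
  inv := cinv
  M := MM (rot T)
  col := fun c => c % 2 == 0
  inv_inv := cinv_cinv
  col_inv := by
    intro a
    rcases Nat.mod_two_eq_zero_or_one a with h | h
    · simp [h, cinv_mod0 h]
    · simp [h, cinv_mod1 h]
  col_M := by
    rintro a b c (⟨ha, hb, _⟩ | ⟨ha, hb, _⟩) <;> simp [ha, hb]
  M_rot := by
    rintro a b c (⟨ha, hb, hc, h⟩ | ⟨ha, hb, hc, h⟩)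
    · refine Or.inr ⟨cinv_mod1 ha, hc, hb, ?_⟩
      rw [cinv_div]
      exact rot_rot (rot_rot h)
    · refine Or.inl ⟨cinv_mod0 ha, hc, hb, ?_⟩
      rw [cinv_div]
      exact rot_rot h
  M_symm := by
    rintro a b c (⟨ha, hb, hc, h⟩ | ⟨ha, hb, hc, h⟩)
    · refine Or.inr ⟨hb, ha, cinv_mod1 hc, ?_⟩
      rw [cinv_div]; exact h
    · refine Or.inl ⟨hb, ha, cinv_mod0 hc, ?_⟩
      rw [cinv_div]; exact h
  M_fun := by
    rintro a b c c' (⟨ha, hb, hc, h⟩ | ⟨ha, hb, hc, h⟩) (⟨ha', hb', hc', h'⟩ | ⟨ha', hb', hc', h'⟩)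
    · exact half_ext (by omega) (chkFun_spec h1 h h')
    · omega
    · omega
    · exact half_ext (by omega) (chkFun_spec h1 h h')
  no_four := by
    rintro a b c d x y z w (⟨a1, c1, _, k1⟩ | ⟨a1, c1, _, k1⟩) (⟨a2, d1, _, k2⟩ | ⟨a2, d1, _, k2⟩)
      (⟨b1, c2, _, k3⟩ | ⟨b1, c2, _, k3⟩) (⟨b2, d2, _, k4⟩ | ⟨b2, d2, _, k4⟩) <;> try omega
    · rcases chkFour_spec h2 k1 k2 k3 k4 with h | h
      · exact Or.inl (half_ext (by omega) h)
      · exact Or.inr (half_ext (by omega) h)
    · rcases chkFour_spec h2 k1 k3 k2 k4 with h | h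
      · exact Or.inr (half_ext (by omega) h)
      · exact Or.inl (half_ext (by omega) h)

end Pool.Agent.TriSurf
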